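import Mathlib.Analysis.InnerProductSpace.Calculus
import Mathlib.Analysis.InnerProductSpace.Dual
import Mathlib.Analysis.InnerProductSpace.PiL2
import Mathlib.Analysis.InnerProductSpace.Projection.Basic
import Mathlib.Analysis.Calculus.MeanValue
import Mathlib.Analysis.Calculus.FDeriv.Symmetric
import Mathlib.Analysis.Normed.Lp.SmoothApprox
import Mathlib.MeasureTheory.Function.L2Space
import Mathlib.MeasureTheory.Function.LpSpace.ContinuousCompMeasurePreserving
import Mathlib.MeasureTheory.Measure.Haar.InnerProductSpace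
import Mathlib.MeasureTheory.Integral.IntervalIntegral.FundThmCalculus

/-! PROJECT GE, analysis half: strong derivatives, resolvent, projection on a convex constraint,
the level inequality for a closed and a co-closed field. -/

set_option autoImplicit false
set_option linter.unusedSectionVars false

open MeasureTheory Filter Topology Set
open scoped RealInnerProductSpace ContDiff

namespace Pool.Agent.MP_29b5d3_an.GA

noncomputable section

/-! ### Unitary representations and strong derivatives -/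

section Abs
variable {E H : Type} [NormedAddCommGroup E] [NormedSpace ℝ E] [NormedAddCommGroup H]
  [InnerProductSpace ℝ H]

/-- a strongly continuous representation of `E` by isometries of `H` -/
structure Rep (U : E → H →L[ℝ] H) : Prop where
  zero : ∀ x, U 0 x = x
  add : ∀ a b x, U (a + b) x = U a (U b x)
  inn : ∀ a x y, ⟪U a x, U a y⟫ = ⟪x, y⟫
  cont : ∀ x, Continuous fun a => U a x

/-- `w` is the strong derivative of `u` in the direction `e` -/
def Dr (U : E → H →L[ℝ] H) (e : E) (u w : H) : Prop := HasDerivAt (fun s : ℝ => U (s • e) u) w 0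

/-- the vectors that are differentiable in all the directions `e j` -/
def Dom {ι : Type} (U : E → H →L[ℝ] H) (e : ι → E) : Set H := {v | ∀ j, ∃ w, Dr U (e j) v w}

/-- `W` and `S` are the first and second derivatives of `ψ` -/
structure Hess {ι : Type} (U : E → H →L[ℝ] H) (e : ι → E) (ψ : H) (W : ι → H) (S : ι → ι → H) :
    Prop where
  d1 : ∀ j, Dr U (e j) ψ (W j)
  d2 : ∀ j k, Dr U (e k) (W j) (S j k)

/-- an elliptic operator `∑ A j k ∂ j ∂ k` with invariant coefficients -/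
structure Ell {ι : Type} [Fintype ι] (U : E → H →L[ℝ] H) (e : ι → E) (A : ι → ι → H →L[ℝ] H)
    (κ : ℝ) : Prop where
  pos : 0 < κ
  comm : ∀ j k a x, A j k (U a x) = U a (A j k x)
  symm : ∀ j k x y, ⟪A j k x, y⟫ = ⟪x, A k j y⟫
  coer : ∀ (ψ : H) (W : ι → H), (∀ j, Dr U (e j) ψ (W j)) →
    κ * ∑ j, ‖W j‖ ^ 2 ≤ ∑ j, ∑ k, ⟪A j k (W k), W j⟫

variable {U : E → H →L[ℝ] H} {e : E} {u w v z : H}

theorem Rep.norm_eq (h : Rep U) (a : E) (x : H) : ‖U a x‖ = ‖x‖ := by
  rw [← sq_eq_sq₀ (norm_nonneg _) (norm_nonneg _), ← real_inner_self_eq_norm_sq,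
    ← real_inner_self_eq_norm_sq, h.inn]

theorem Rep.comm (h : Rep U) (a b : E) (x : H) : U a (U b x) = U b (U a x) := by
  rw [← h.add, ← h.add, add_comm]

theorem Rep.adj (h : Rep U) (a : E) (x y : H) : ⟪U a x, y⟫ = ⟪x, U (-a) y⟫ := by
  rw [← h.inn a x, ← h.add, add_neg_cancel, h.zero]

theorem Dr.unique (h : Dr U e u w) (h' : Dr U e u z) : w = z := HasDerivAt.unique h h'

theorem Dr.add (h : Dr U e u w) (h' : Dr U e v z) : Dr U e (u + v) (w + z) := by
  simpa only [Dr, map_add] using HasDerivAt.fun_add h h'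

theorem Dr.sub (h : Dr U e u w) (h' : Dr U e v z) : Dr U e (u - v) (w - z) := by
  simpa only [Dr, map_sub] using HasDerivAt.fun_sub h h'

theorem Dr.smul (c : ℝ) (h : Dr U e u w) : Dr U e (c • u) (c • w) := by
  simpa only [Dr, map_smul] using HasDerivAt.fun_const_smul c h

theorem Dr.zero : Dr U e 0 0 := by
  simpa only [Dr, map_zero] using hasDerivAt_const (0 : ℝ) (0 : H)

theorem Dr.sum {ι : Type} {s : Finset ι} {f g : ι → H} (h : ∀ i ∈ s, Dr U e (f i) (g i)) :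
    Dr U e (∑ i ∈ s, f i) (∑ i ∈ s, g i) := by
  simpa only [Dr, map_sum] using HasDerivAt.fun_sum h

/-- an operator that commutes with the representation commutes with derivatives -/
theorem Dr.map (h : Dr U e u w) (A : H →L[ℝ] H) (hA : ∀ a x, A (U a x) = U a (A x)) :
    Dr U e (A u) (A w) := by
  have := A.hasFDerivAt.comp_hasDerivAt (0 : ℝ) h
  simpa only [Dr, Function.comp_def, hA] using this

theorem Dr.shift (hU : Rep U) (h : Dr U e u w) (a : E) : Dr U e (U a u) (U a w) :=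
  h.map (U a) fun b x => hU.comm a b x

theorem Dr.at (hU : Rep U) (h : Dr U e u w) (s : ℝ) :
    HasDerivAt (fun s : ℝ => U (s • e) u) (U (s • e) w) s := by
  have h1 : HasDerivAt (fun r : ℝ => U (r • e) (U (s • e) u)) (U (s • e) w) (s - s) := by
    rw [sub_self]
    exact h.shift hU _
  have h2 := h1.comp_sub_const s s
  simpa only [← hU.add, ← add_smul, sub_add_cancel] using h2

/-- integration by parts -/
theorem Dr.ibp (hU : Rep U) (h : Dr U e u w) (h' : Dr U e v z) : ⟪w, v⟫ = -⟪u, z⟫ := by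
  have h1 := HasDerivAt.inner ℝ h h'
  simp only [hU.inn, zero_smul, hU.zero] at h1
  have := h1.unique (hasDerivAt_const (0 : ℝ) _)
  linarith

theorem Dr.lip (hU : Rep U) (h : Dr U e u w) (s : ℝ) : ‖U (s • e) u - u‖ ≤ ‖w‖ * |s| := by
  have := Convex.norm_image_sub_le_of_norm_hasDerivWithin_le (𝕜 := ℝ) (s := univ) (C := ‖w‖)
    (f := fun s : ℝ => U (s • e) u) (x := 0) (y := s)
    (fun r _ => (h.at hU r).hasDerivWithinAt) (fun r _ => (hU.norm_eq _ _).le) convex_univ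
    (mem_univ _) (mem_univ _)
  simpa [hU.zero] using this

end Abs

/-! ### Square integrable fields -/

abbrev Eu (n : ℕ) : Type := EuclideanSpace ℝ (Fin n)

/-- the coordinate vectors -/
def bs {n : ℕ} (j : Fin n) : Eu n := EuclideanSpace.single j 1

section Con
variable {n : ℕ} {V : Type} [NormedAddCommGroup V] [InnerProductSpace ℝ V]

abbrev L2 (n : ℕ) (V : Type) [NormedAddCommGroup V] : Type := Lp V 2 (volume : Measure (Eu n))

/-- translation -/
def tau (a : Eu n) : L2 n V →L[ℝ] L2 n V :=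
  (Lp.compMeasurePreservingₗᵢ ℝ (fun x => x + a)
    (measurePreserving_add_right volume a)).toContinuousLinearMap

/-- the pointwise action of a linear map -/
def op (c : V →L[ℝ] V) : L2 n V →L[ℝ] L2 n V := c.compLpL 2 volume

open Classical in
/-- the class of a function -/
def tl (φ : Eu n → V) : L2 n V := if h : MemLp φ 2 volume then h.toLp φ else 0

/-- test maps -/
structure Tst {F : Type} [NormedAddCommGroup F] [NormedSpace ℝ F] (φ : Eu n → F) : Prop where
  sm : ContDiff ℝ ∞ φ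
  cs : HasCompactSupport φ

/-- derivative in a coordinate direction -/
def pd {F : Type} [NormedAddCommGroup F] [NormedSpace ℝ F] (j : Fin n) (φ : Eu n → F)
    (x : Eu n) : F := fderiv ℝ φ x (bs j)

/-- the fields with values in `K` -/
def CK (n : ℕ) (K : Set V) : Set (L2 n V) := {G | ∀ᵐ x, G x ∈ K}

/-- creation and annihilation operators -/
structure Car {ι : Type} [DecidableEq ι] (c c' : ι → V →L[ℝ] V) : Prop where
  adj : ∀ j x y, ⟪c j x, y⟫ = ⟪x, c' j y⟫
  cc : ∀ j k x, c j (c k x) = -c k (c j x)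
  cd : ∀ j k x, c j (c' k x) + c' k (c j x) = if j = k then x else 0

/-- the operator `∑ c j ∂ j` -/
def dop (c : Fin n → V →L[ℝ] V) (α : Eu n → V) (x : Eu n) : V := ∑ j, c j (pd j α x)

theorem tau_ae (a : Eu n) (u : L2 n V) : ∀ᵐ x, tau a u x = u (x + a) :=
  Lp.coeFn_compMeasurePreserving u (measurePreserving_add_right volume a)

theorem op_ae (c : V →L[ℝ] V) (u : L2 n V) : ∀ᵐ x, op c u x = c (u x) := c.coeFn_compLp u

theorem op_tau (c : V →L[ℝ] V) (a : Eu n) (u : L2 n V) : op c (tau a u) = tau a (op c u) := by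
  ext1
  filter_upwards [op_ae c (tau a u), tau_ae a u, tau_ae a (op c u),
    (measurePreserving_add_right volume a).quasiMeasurePreserving.ae (op_ae c u)] with x a b c d
  rw [a, b, c, d]

theorem Dr.op {e : Eu n} {u w : L2 n V} (h : Dr tau e u w) (c : V →L[ℝ] V) :
    Dr tau e (op c u) (op c w) := h.map _ (op_tau c)

theorem inner_L2 (u v : L2 n V) : ⟪u, v⟫ = ∫ x, ⟪u x, v x⟫ := L2.inner_def u v

theorem op_adj {c c' : V →L[ℝ] V} (h : ∀ x y, ⟪c x, y⟫ = ⟪x, c' y⟫) (u v : L2 n V) :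
    ⟪op c u, v⟫ = ⟪u, op c' v⟫ := by
  rw [inner_L2, inner_L2]
  refine integral_congr_ae ?_
  filter_upwards [op_ae c u, op_ae c' v] with x a b
  rw [a, b, h]

theorem op_op (c c' : V →L[ℝ] V) (u : L2 n V) : op c (op c' u) = op (c.comp c') u := by
  ext1
  filter_upwards [op_ae c (op c' u), op_ae c' u, op_ae (c.comp c') u] with x a b c
  rw [a, b, c, ContinuousLinearMap.comp_apply]

theorem sum_ae {ι : Type} (s : Finset ι) (f : ι → L2 n V) :
    ∀ᵐ x, (∑ i ∈ s, f i : L2 n V) x = ∑ i ∈ s, f i x := by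
  classical
  induction s using Finset.induction_on with
  | empty => simp
  | insert i s hi ih =>
    simp only [Finset.sum_insert hi]
    filter_upwards [ih, Lp.coeFn_add (f i) (∑ i ∈ s, f i)] with x a b
    rw [b, Pi.add_apply, a]

theorem tl_ae {φ : Eu n → V} (h : MemLp φ 2 volume) : ∀ᵐ x, tl φ x = φ x := by
  rw [tl, dif_pos h]
  exact h.coeFn_toLp

section
variable {F : Type} [NormedAddCommGroup F] [NormedSpace ℝ F] {φ : Eu n → F}

theorem Tst.memLp (h : Tst φ) : MemLp φ 2 volume :=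
  h.sm.continuous.memLp_of_hasCompactSupport h.cs

theorem Tst.pd (h : Tst φ) (j : Fin n) : Tst (pd j φ) :=
  ⟨(h.sm.fderiv_right (m := ∞) (by simp)).clm_apply contDiff_const,
    h.cs.fderiv_apply ℝ (bs j)⟩

theorem Tst.map {F' : Type} [NormedAddCommGroup F'] [NormedSpace ℝ F'] (h : Tst φ)
    (c : F →L[ℝ] F') : Tst fun x => c (φ x) :=
  ⟨c.contDiff.comp h.sm, h.cs.comp_left c.map_zero⟩

theorem Tst.add {ψ : Eu n → F} (h : Tst φ) (h' : Tst ψ) : Tst fun x => φ x + ψ x :=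
  ⟨h.sm.add h'.sm, h.cs.add h'.cs⟩

theorem Tst.sum {ι : Type} (s : Finset ι) {f : ι → Eu n → F} (h : ∀ i, Tst (f i)) :
    Tst fun x => ∑ i ∈ s, f i x := by
  classical
  induction s using Finset.induction_on with
  | empty =>
    simp only [Finset.sum_empty]
    exact ⟨contDiff_const, HasCompactSupport.zero⟩
  | insert i s hi ih => simpa only [Finset.sum_insert hi] using (h i).add ih

theorem pd_comm (h : ContDiff ℝ ∞ φ) (j k : Fin n) (x : Eu n) :
    pd j (pd k φ) x = pd k (pd j φ) x := by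
  have d : DifferentiableAt ℝ (fderiv ℝ φ) x :=
    (h.fderiv_right (m := ∞) (by simp)).differentiable (by simp) x
  have k1 : ∀ u v : Eu n, fderiv ℝ (fun y => fderiv ℝ φ y v) x u = fderiv ℝ (fderiv ℝ φ) x u v :=
    fun u v => by
      rw [fderiv_clm_apply d (differentiableAt_const v)]
      simp
  unfold pd
  rw [k1, k1]
  exact (h.contDiffAt.isSymmSndFDerivAt (by
    rw [minSmoothness_of_isRCLikeNormedField]
    exact WithTop.coe_le_coe.2 le_top)).eq _ _

end

theorem Tst.ae {φ : Eu n → V} (h : Tst φ) : ∀ᵐ x, tl φ x = φ x := tl_ae h.memLp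

theorem Tst.dop {α : Eu n → V} (h : Tst α) (c : Fin n → V →L[ℝ] V) : Tst (dop c α) :=
  Tst.sum _ fun j => (h.pd j).map (c j)

theorem Car.symm {ι : Type} [DecidableEq ι] {c c' : ι → V →L[ℝ] V} (h : Car c c') : Car c' c where
  adj j x y := by rw [real_inner_comm, ← h.adj, real_inner_comm]
  cc j k x := ext_inner_left ℝ fun y => by
    rw [inner_neg_right, ← h.adj, ← h.adj, ← h.adj, ← h.adj, h.cc k j, inner_neg_left]
  cd j k x := by rw [add_comm, h.cd k j x]; simp only [eq_comm]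

end Con

end

/-! ### Statements of the rows -/

/-- CLOSED: the derivative is a closed operator; mixed derivatives; exchange of derivatives -/
def ClosedStmt : Prop :=
  ∀ (E H : Type) [NormedAddCommGroup E] [NormedSpace ℝ E] [NormedAddCommGroup H]
    [InnerProductSpace ℝ H] [CompleteSpace H] (U : E → H →L[ℝ] H), Rep U →
    (∀ e, IsClosed {p : H × H | Dr U e p.1 p.2}) ∧
    (∀ e e' u w w' z, Dr U e u w → Dr U e' u w' → Dr U e' w z → Dr U e w' z) ∧
    ∀ e e' u v u1 u2 v1 v2, Dr U e u u1 → Dr U e' u u2 → Dr U e v v1 → Dr U e' v v2 →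
      ⟪u1, v2⟫ = ⟪u2, v1⟫

/-- LIP: a vector with a Lipschitz orbit is differentiable -/
def LipStmt : Prop :=
  ∀ (E H : Type) [NormedAddCommGroup E] [NormedSpace ℝ E] [NormedAddCommGroup H]
    [InnerProductSpace ℝ H] [CompleteSpace H] (U : E → H →L[ℝ] H) (e : E) (w : H) (C : ℝ),
    Rep U → Dense {v | ∃ z, Dr U e v z} → (∀ s : ℝ, ‖U (s • e) w - w‖ ≤ C * |s|) →
    ∃ z, Dr U e w z

/-- RES: the resolvent of an elliptic operator -/
def ResStmt : Prop :=
  ∀ (E H ι : Type) [NormedAddCommGroup E] [NormedSpace ℝ E] [NormedAddCommGroup H]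
    [InnerProductSpace ℝ H] [CompleteSpace H] [Fintype ι] (U : E → H →L[ℝ] H) (e : ι → E)
    (A : ι → ι → H →L[ℝ] H) (κ ε : ℝ), Rep U → Dense (Dom U e) → Ell U e A κ → 0 < ε →
    ∃ (R : H →L[ℝ] H) (W : ι → H →L[ℝ] H),
      (∀ u v, ⟪R u, v⟫ = ε * ⟪R u, R v⟫ + ∑ j, ∑ k, ⟪A j k (W k v), W j u⟫) ∧
      ∀ u, ∃ S, Hess U e (R u) (fun j => W j u) S ∧ ε • R u - ∑ j, ∑ k, A j k (S k j) = u

/-- MIN: a variational inequality on a bounded closed convex set -/
def MinStmt : Prop :=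
  ∀ (H : Type) [NormedAddCommGroup H] [InnerProductSpace ℝ H] [CompleteSpace H] (R : H →L[ℝ] H)
    (C : Set H) (P : H), (∀ u v, ⟪R u, v⟫ = ⟪R v, u⟫) → (∀ u, 0 ≤ ⟪R u, u⟫) → IsClosed C →
    Convex ℝ C → C.Nonempty → Bornology.IsBounded C →
    ∃ G ∈ C, ∀ G' ∈ C, ⟪R (P - G), G' - G⟫ ≤ 0

/-- ABSP: the projection on an invariant convex set -/
def AbsPStmt : Prop :=
  ∀ (E H ι : Type) [NormedAddCommGroup E] [NormedSpace ℝ E] [NormedAddCommGroup H]
    [InnerProductSpace ℝ H] [CompleteSpace H] [Fintype ι] (U : E → H →L[ℝ] H) (e : ι → E)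
    (A : ι → ι → H →L[ℝ] H) (κ : ℝ) (C : Set H) (Ξ P : ι → H) (η : ℝ), Rep U → Dense (Dom U e) →
    Ell U e A κ → IsClosed C → Convex ℝ C → 0 ∈ C → (∀ a, ∀ G ∈ C, U a G ∈ C) →
    (∀ j, Dr U (e j) (Ξ j) (P j)) → 0 < η →
    ∃ G ∈ C, ∃ (ψ : H) (W : ι → H) (S : ι → ι → H) (ε : ℝ), Hess U e ψ W S ∧
      (∀ G' ∈ C, ⟪ψ, G' - G⟫ ≤ 0) ∧ (∀ j, ⟪G, S j j⟫ ≤ 0) ∧
      ∑ j, P j + ∑ j, ∑ k, A j k (S k j) - G = ε • ψ ∧ ‖ε • ψ‖ ^ 2 ≤ η

/-- TST: translations; test maps are differentiable and dense -/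
def TstStmt : Prop :=
  ∀ (n : ℕ) (V : Type) [NormedAddCommGroup V] [InnerProductSpace ℝ V] [FiniteDimensional ℝ V],
    Rep (tau : Eu n → L2 n V →L[ℝ] L2 n V) ∧
    (∀ (φ : Eu n → V) (j : Fin n), Tst φ → Dr tau (bs j) (tl φ) (tl (pd j φ))) ∧
    Dense (Dom (tau : Eu n → L2 n V →L[ℝ] L2 n V) bs)

/-- LOC: the derivative vanishes almost everywhere on the zero set -/
def LocStmt : Prop :=
  ∀ (n : ℕ) (V : Type) [NormedAddCommGroup V] [InnerProductSpace ℝ V] [FiniteDimensional ℝ V]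
    (e : Eu n) (u w : L2 n V), Dr tau e u w → ∀ᵐ x, u x = 0 → w x = 0

/-- CONE: the fields with values in a closed convex set -/
def ConeStmt : Prop :=
  ∀ (n : ℕ) (V : Type) [NormedAddCommGroup V] [InnerProductSpace ℝ V] [FiniteDimensional ℝ V]
    (K : Set V), IsClosed K → Convex ℝ K → 0 ∈ K →
    IsClosed (CK n K) ∧ Convex ℝ (CK n K) ∧ 0 ∈ CK n K ∧ (∀ a, ∀ G ∈ CK n K, tau a G ∈ CK n K) ∧
    ∀ (ψ : L2 n V), ∀ G ∈ CK n K, (∀ G' ∈ CK n K, ⟪ψ, G' - G⟫ ≤ 0) →
      ∀ᵐ x, ∀ k ∈ K, ⟪ψ x, k - G x⟫ ≤ 0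

/-- PROJ: the projection lemma -/
def ProjStmt : Prop :=
  ∀ (n : ℕ) (V : Type) [NormedAddCommGroup V] [InnerProductSpace ℝ V] [FiniteDimensional ℝ V]
    (A : Fin n → Fin n → V →L[ℝ] V) (κ : ℝ) (K : Set V) (Ξ P : Fin n → L2 n V) (η : ℝ),
    Ell tau bs (fun j k => (op (A j k) : L2 n V →L[ℝ] L2 n V)) κ → IsClosed K → Convex ℝ K →
    0 ∈ K → (∀ j, Dr tau (bs j) (Ξ j) (P j)) → 0 < η →
    ∃ (G ψ : L2 n V) (W : Fin n → L2 n V) (S : Fin n → Fin n → L2 n V), Hess tau bs ψ W S ∧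
      (∀ᵐ x, G x ∈ K ∧ (∀ k ∈ K, ⟪ψ x, k - G x⟫ ≤ 0) ∧
        (ψ x = 0 → G x = ∑ j, P j x ∧ ∀ j k, S j k x = 0)) ∧
      (∀ j, ⟪G, S j j⟫ ≤ 0) ∧ ‖∑ j, P j + ∑ j, ∑ k, op (A j k) (S k j) - G‖ ^ 2 ≤ η

/-- ORTH: exact and co-exact fields are orthogonal -/
def OrthStmt : Prop :=
  ∀ (n : ℕ) (V : Type) [NormedAddCommGroup V] [InnerProductSpace ℝ V] [FiniteDimensional ℝ V]
    (c c' : Fin n → V →L[ℝ] V) (α β : Eu n → V) (ψ : L2 n V) (W : Fin n → L2 n V)
    (S : Fin n → Fin n → L2 n V), Car c c' → Tst α → Tst β → Hess tau bs ψ W S →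
    ⟪tl (dop c α) + (2 : ℝ) • ∑ j, ∑ k, op ((c j).comp (c' k)) (S j k),
      tl (dop c' β) + (2 : ℝ) • ∑ j, ∑ k, op ((c' k).comp (c j)) (S j k)⟫ = 0 ∧
    ∫ x, ⟪dop c α x, dop c' β x⟫ = 0

/-- LEVA: the level inequality for an exact and a co-exact field -/
def LevAStmt : Prop :=
  ∀ (n : ℕ) (V : Type) [NormedAddCommGroup V] [InnerProductSpace ℝ V] [FiniteDimensional ℝ V]
    (c c' : Fin n → V →L[ℝ] V) (α β : Eu n → V) (τ : ℝ) (Θ : Eu n → ℝ), Car c c' → Tst α →
    Tst β → 0 < τ → Integrable Θ →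
    (∀ x, Θ x ≤ ⟪dop c α x, dop c' β x⟫ - τ * ‖dop c α x + dop c' β x‖ + τ ^ 2) →
    (∀ x, ‖dop c α x + dop c' β x‖ ≤ 2 * τ → Θ x ≤ 0) → ∫ x, Θ x ≤ 0

end Pool.Agent.MP_29b5d3_an.GA
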