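import Mathlib.Analysis.Calculus.DerivativeTest
import Pool.Agent.MP_29b5d3_an.GE.SpecA

/-! PROJECT GE, row ABSP: the projection on an invariant convex set. -/

set_option autoImplicit false

open MeasureTheory Filter Topology Set
open scoped RealInnerProductSpace ContDiff

namespace Pool.Agent.MP_29b5d3_an.GA

/-- the second derivative at a maximum -/
theorem AbsP.second {a b : ℝ → ℝ} {c : ℝ} (h0 : ∀ s, a s ≤ a 0) (h1 : ∀ s, HasDerivAt a (b s) s)
    (h2 : HasDerivAt b c 0) : c ≤ 0 := by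
  by_contra hc
  have e : deriv a = b := funext fun s => (h1 s).deriv
  have m : IsLocalMax a 0 := Eventually.of_forall h0
  have m' : IsLocalMin a 0 := isLocalMin_of_deriv_deriv_pos
    (by rw [e, h2.deriv]; exact not_le.1 hc) m.deriv_eq_zero (h1 0).continuousAt
  have k : a =ᶠ[𝓝 0] fun _ => a 0 := m'.mono fun s hs => le_antisymm (h0 s) hs
  have k2 := k.deriv.deriv_eq
  rw [e, h2.deriv] at k2
  simp at k2
  exact hc k2.le

section
variable {E H ι : Type} [NormedAddCommGroup E] [NormedSpace ℝ E] [NormedAddCommGroup H]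
  [InnerProductSpace ℝ H] [Fintype ι] {U : E → H →L[ℝ] H} {e : ι → E}
  {A : ι → ι → H →L[ℝ] H} {κ : ℝ} {ψ G P : H} {W : ι → H} {S : ι → ι → H}

omit [Fintype ι] in
/-- the inequality of Kato, from invariance under translations -/
theorem AbsP.kato (hU : Rep U) (h : Hess U e ψ W S) (hG : ∀ a, ⟪ψ, U a G - G⟫ ≤ 0) (j : ι) :
    ⟪G, S j j⟫ ≤ 0 := by
  rw [real_inner_comm]
  refine AbsP.second (a := fun s => ⟪U (s • e j) ψ, G⟫) (b := fun s => ⟪U (s • e j) (W j), G⟫)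
    (fun s => ?_) (fun s => ?_) ?_
  · have := hG (-(s • e j))
    rw [inner_sub_right] at this
    simp only [zero_smul, hU.zero]
    rw [hU.adj]
    linarith
  · simpa using HasDerivAt.inner ℝ ((h.d1 j).at hU s) (hasDerivAt_const s G)
  · simpa using HasDerivAt.inner ℝ (h.d2 j j) (hasDerivAt_const (0 : ℝ) G)

/-- the second derivatives are bounded by the datum -/
theorem AbsP.bound [CompleteSpace H] (closed : ClosedStmt) (hU : Rep U) (hA : Ell U e A κ)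
    (h : Hess U e ψ W S) {ε : ℝ} (hε : 0 ≤ ε) (hG : ∀ j, ⟪G, S j j⟫ ≤ 0)
    (eq : ε • ψ - ∑ j, ∑ k, A j k (S k j) = P - G) (m j : ι) : ‖S m j‖ ≤ ‖P‖ / κ := by
  obtain ⟨-, c1, c2⟩ := closed E H U hU
  have hκ := hA.pos
  have sy : ∀ k, S m k = S k m := fun k =>
    (h.d2 m k).unique (c1 _ _ _ _ _ _ (h.d1 k) (h.d1 m) (h.d2 k m))
  have h1 := hA.coer (W m) (S m) (h.d2 m)
  have h2 : ∑ j, ∑ k, ⟪A j k (S m k), S m j⟫ = ⟪∑ j, ∑ k, A j k (S k j), S m m⟫ := by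
    simp only [sum_inner]
    refine Finset.sum_congr rfl fun j _ => Finset.sum_congr rfl fun k _ => ?_
    rw [sy k]
    exact c2 _ _ _ _ _ _ _ _ ((h.d2 k m).map _ (hA.comm j k)) ((h.d2 k j).map _ (hA.comm j k))
      (h.d2 m m) (h.d2 m j)
  have h3 : ∑ j, ∑ k, A j k (S k j) = ε • ψ - P + G := by
    rw [sub_add, ← eq, sub_sub_cancel]
  have h4 := (h.d1 m).ibp hU (h.d2 m m)
  have h5 : 0 ≤ ⟪W m, W m⟫ := real_inner_self_nonneg
  have h6 := abs_real_inner_le_norm P (S m m)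
  have h7 : κ * ∑ j, ‖S m j‖ ^ 2 ≤ ‖P‖ * ‖S m m‖ := by
    rw [h2, h3, inner_add_left, inner_sub_left, real_inner_smul_left] at h1
    have := neg_abs_le ⟪P, S m m⟫
    nlinarith [hG m, mul_nonneg hε h5]
  have h8 : ∀ j, κ * ‖S m j‖ ^ 2 ≤ ‖P‖ * ‖S m m‖ := fun j => le_trans
    (mul_le_mul_of_nonneg_left (Finset.single_le_sum (f := fun j => ‖S m j‖ ^ 2)
      (fun i _ => by positivity) (Finset.mem_univ j)) hκ.le) h7
  have h9 : κ * ‖S m m‖ ≤ ‖P‖ := by
    rcases (norm_nonneg (S m m)).eq_or_lt with a | a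
    · rw [← a, mul_zero]
      exact norm_nonneg _
    · exact le_of_mul_le_mul_right (by nlinarith [h8 m]) a
  rw [le_div_iff₀ hκ]
  refine abs_le_of_sq_le_sq' ?_ (norm_nonneg P) |>.2
  nlinarith [mul_le_mul_of_nonneg_left (h8 j) hκ.le, mul_le_mul_of_nonneg_left h9 (norm_nonneg P)]

end

theorem absP (closed : ClosedStmt) (res : ResStmt) (minS : MinStmt) : AbsPStmt := by
  intro E H ι _ _ _ _ _ _ U e A κ C Ξ P η hU hD hA hC hc h0 hi hP hη
  have hκ := hA.pos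
  set X : ℝ := ∑ j, ‖Ξ j‖ ^ 2 with hX
  have X0 : 0 ≤ X := Finset.sum_nonneg fun j _ => by positivity
  set ε : ℝ := η * κ / (X + 1) with hε
  have ε0 : 0 < ε := by positivity
  obtain ⟨R, W, h1, h2⟩ := res E H ι U e A κ ε hU hD hA ε0
  set P0 : H := ∑ j, P j with hP0
  set M : ℝ := ‖P0‖ + ∑ j, ∑ k, ‖A j k‖ * (‖P0‖ / κ) + √η with hM
  have M0 : 0 ≤ M := by positivity
  have co : ∀ u, ε * ‖R u‖ ^ 2 + κ * ∑ j, ‖W j u‖ ^ 2 ≤ ⟪R u, u⟫ := fun u => by
    obtain ⟨S, hS, -⟩ := h2 u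
    rw [h1, real_inner_self_eq_norm_sq]
    exact add_le_add le_rfl (hA.coer _ _ hS.d1)
  obtain ⟨G, hG, hv⟩ := minS H R (C ∩ Metric.closedBall 0 (M + 1)) P0
    (fun u v => by
      rw [h1 u v, h1 v u, real_inner_comm (R u), Finset.sum_comm]
      refine congrArg _ (Finset.sum_congr rfl fun j _ => Finset.sum_congr rfl fun k _ => ?_)
      rw [hA.symm, real_inner_comm])
    (fun u => le_trans (by positivity) (co u)) (hC.inter Metric.isClosed_closedBall)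
    (hc.inter (convex_closedBall _ _)) ⟨0, h0, Metric.mem_closedBall_self (by positivity)⟩
    (Metric.isBounded_closedBall.subset inter_subset_right)
  obtain ⟨S, hS, eq⟩ := h2 (P0 - G)
  have ka := AbsP.kato hU hS fun a => hv _ ⟨hi a G hG.1, by
    rw [mem_closedBall_zero_iff, hU.norm_eq]
    exact mem_closedBall_zero_iff.1 hG.2⟩
  have eq' : P0 + ∑ j, ∑ k, A j k (S k j) - G = ε • R (P0 - G) := by
    rw [add_sub_right_comm, ← sub_eq_iff_eq_add.1 eq]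
  have b1 : ε * ‖R (P0 - G)‖ ^ 2 ≤ X / κ := by
    have a1 := hv 0 ⟨h0, Metric.mem_closedBall_self (by positivity)⟩
    have a2 := co (P0 - G)
    have a3 : ⟪R (P0 - G), P0⟫ ≤ κ * ∑ j, ‖W j (P0 - G)‖ ^ 2 + X / κ := by
      conv_lhs => rw [show ⟪R (P0 - G), P0⟫ = ∑ j, ⟪R (P0 - G), P j⟫ from inner_sum _ _ _]
      rw [hX, Finset.mul_sum, Finset.sum_div, ← Finset.sum_add_distrib]
      refine Finset.sum_le_sum fun j _ => ?_
      have b := (hS.d1 j).ibp hU (hP j)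
      have c := abs_real_inner_le_norm (W j (P0 - G)) (Ξ j)
      have d := neg_abs_le ⟪W j (P0 - G), Ξ j⟫
      have f : ‖W j (P0 - G)‖ * ‖Ξ j‖ ≤ κ * ‖W j (P0 - G)‖ ^ 2 + ‖Ξ j‖ ^ 2 / κ := by
        rw [← sub_le_iff_le_add', le_div_iff₀ hκ]
        nlinarith [sq_nonneg (κ * ‖W j (P0 - G)‖ - ‖Ξ j‖),
          mul_nonneg (mul_nonneg hκ.le (norm_nonneg (W j (P0 - G)))) (norm_nonneg (Ξ j))]
      linarith
    rw [zero_sub, inner_neg_right] at a1
    rw [inner_sub_right] at a2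
    linarith
  have b2 : ‖ε • R (P0 - G)‖ ^ 2 ≤ η := by
    rw [norm_smul, Real.norm_of_nonneg ε0.le, mul_pow, sq, mul_assoc]
    refine (mul_le_mul_of_nonneg_left b1 ε0.le).trans ?_
    rw [hε, div_mul_div_comm, div_le_iff₀ (by positivity)]
    nlinarith [mul_pos hη hκ]
  have b3 : ‖G‖ ≤ M := by
    have a1 : G = P0 + ∑ j, ∑ k, A j k (S k j) - ε • R (P0 - G) := by
      rw [← eq', sub_sub_cancel]
    have a2 : ‖∑ j, ∑ k, A j k (S k j)‖ ≤ ∑ j, ∑ k, ‖A j k‖ * (‖P0‖ / κ) :=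
      norm_sum_le_of_le _ fun j _ => norm_sum_le_of_le _ fun k _ =>
        (A j k).le_opNorm_of_le (AbsP.bound closed hU hA hS ε0.le ka eq k j)
    calc ‖G‖ = ‖P0 + ∑ j, ∑ k, A j k (S k j) - ε • R (P0 - G)‖ := congrArg _ a1
      _ ≤ M := (norm_sub_le _ _).trans
        (add_le_add ((norm_add_le _ _).trans (add_le_add le_rfl a2)) (Real.le_sqrt_of_sq_le b2))
  refine ⟨G, hG.1, _, _, S, ε, hS, fun G' hG' => ?_, ka, eq', b2⟩
  have p : 0 < ‖G' - G‖ + 1 := by positivity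
  have t0 : 0 < (‖G' - G‖ + 1)⁻¹ := inv_pos.2 p
  have t1 : (‖G' - G‖ + 1)⁻¹ ≤ 1 := inv_le_one_of_one_le₀ (by linarith [norm_nonneg (G' - G)])
  have := hv (G + (‖G' - G‖ + 1)⁻¹ • (G' - G)) ⟨hc.add_smul_sub_mem hG.1 hG' ⟨t0.le, t1⟩, by
    rw [mem_closedBall_zero_iff]
    refine (norm_add_le _ _).trans (add_le_add b3 ?_)
    rw [norm_smul, Real.norm_of_nonneg t0.le, inv_mul_le_iff₀ p]
    linarith⟩
  rw [add_sub_cancel_left, real_inner_smul_right] at this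
  exact nonpos_of_mul_nonpos_right this t0

end Pool.Agent.MP_29b5d3_an.GA
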