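import Pool.Agent.MP_29b5d3_an.GE.AllA

/-! PROJECT GE: the projection on an invariant convex set, with the sign of the small parameter. -/

set_option autoImplicit false

open MeasureTheory Filter Topology Set
open scoped RealInnerProductSpace ContDiff

namespace Pool.Agent.MP_29b5d3_an.GA

/-- ABSP2: the projection on an invariant convex set, positive parameter -/
def AbsP2Stmt : Prop :=
  ∀ (E H ι : Type) [NormedAddCommGroup E] [NormedSpace ℝ E] [NormedAddCommGroup H]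
    [InnerProductSpace ℝ H] [CompleteSpace H] [Fintype ι] (U : E → H →L[ℝ] H) (e : ι → E)
    (A : ι → ι → H →L[ℝ] H) (κ : ℝ) (C : Set H) (Ξ P : ι → H) (η : ℝ), Rep U → Dense (Dom U e) →
    Ell U e A κ → IsClosed C → Convex ℝ C → 0 ∈ C → (∀ a, ∀ G ∈ C, U a G ∈ C) →
    (∀ j, Dr U (e j) (Ξ j) (P j)) → 0 < η →
    ∃ G ∈ C, ∃ (ψ : H) (W : ι → H) (S : ι → ι → H) (ε : ℝ), 0 < ε ∧ Hess U e ψ W S ∧
      (∀ G' ∈ C, ⟪ψ, G' - G⟫ ≤ 0) ∧ (∀ j, ⟪G, S j j⟫ ≤ 0) ∧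
      ∑ j, P j + ∑ j, ∑ k, A j k (S k j) - G = ε • ψ ∧ ‖ε • ψ‖ ^ 2 ≤ η

theorem absP2 : AbsP2Stmt := by
  have minS := GA.minS
  have res := GA.res closed lip
  intro E H ι _ _ _ _ _ _ U e A κ C Ξ P η hU hD hA hC hc h0 hi hP hη
  have hκ := hA.pos
  set X : ℝ := ∑ j, ‖Ξ j‖ ^ 2 with hX
  have X0 : 0 ≤ X := Finset.sum_nonneg fun j _ => by positivity
  set ε : ℝ := η * κ / (X + 1) with hε
  have ε0 : 0 < ε := by positivity
  obtain ⟨R, W, h1, h2⟩ := res E H ι U e A κ ε hU hD hA ε0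
  set P0 : H := ∑ j, P j with hP0
  set M : ℝ := ‖P0‖ + ∑ j, ∑ k, ‖A j k‖ * (‖P0‖ / κ) + √η with hM
  have M0 : 0 ≤ M := by positivity
  have co : ∀ u, ε * ‖R u‖ ^ 2 + κ * ∑ j, ‖W j u‖ ^ 2 ≤ ⟪R u, u⟫ := fun u => by
    obtain ⟨S, hS, -⟩ := h2 u
    rw [h1, real_inner_self_eq_norm_sq]
    exact add_le_add le_rfl (hA.coer _ _ hS.d1)
  obtain ⟨G, hG, hv⟩ := minS H R (C ∩ Metric.closedBall 0 (M + 1)) P0
    (fun u v => by
      rw [h1 u v, h1 v u, real_inner_comm (R u), Finset.sum_comm]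
      refine congrArg _ (Finset.sum_congr rfl fun j _ => Finset.sum_congr rfl fun k _ => ?_)
      rw [hA.symm, real_inner_comm])
    (fun u => le_trans (by positivity) (co u)) (hC.inter Metric.isClosed_closedBall)
    (hc.inter (convex_closedBall _ _)) ⟨0, h0, Metric.mem_closedBall_self (by positivity)⟩
    (Metric.isBounded_closedBall.subset inter_subset_right)
  obtain ⟨S, hS, eq⟩ := h2 (P0 - G)
  have ka := AbsP.kato hU hS fun a => hv _ ⟨hi a G hG.1, by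
    rw [mem_closedBall_zero_iff, hU.norm_eq]
    exact mem_closedBall_zero_iff.1 hG.2⟩
  have eq' : P0 + ∑ j, ∑ k, A j k (S k j) - G = ε • R (P0 - G) := by
    rw [add_sub_right_comm, ← sub_eq_iff_eq_add.1 eq]
  have b1 : ε * ‖R (P0 - G)‖ ^ 2 ≤ X / κ := by
    have a1 := hv 0 ⟨h0, Metric.mem_closedBall_self (by positivity)⟩
    have a2 := co (P0 - G)
    have a3 : ⟪R (P0 - G), P0⟫ ≤ κ * ∑ j, ‖W j (P0 - G)‖ ^ 2 + X / κ := by
      conv_lhs => rw [show ⟪R (P0 - G), P0⟫ = ∑ j, ⟪R (P0 - G), P j⟫ from inner_sum _ _ _]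
      rw [hX, Finset.mul_sum, Finset.sum_div, ← Finset.sum_add_distrib]
      refine Finset.sum_le_sum fun j _ => ?_
      have b := (hS.d1 j).ibp hU (hP j)
      have c := abs_real_inner_le_norm (W j (P0 - G)) (Ξ j)
      have d := neg_abs_le ⟪W j (P0 - G), Ξ j⟫
      have f : ‖W j (P0 - G)‖ * ‖Ξ j‖ ≤ κ * ‖W j (P0 - G)‖ ^ 2 + ‖Ξ j‖ ^ 2 / κ := by
        rw [← sub_le_iff_le_add', le_div_iff₀ hκ]
        nlinarith [sq_nonneg (κ * ‖W j (P0 - G)‖ - ‖Ξ j‖),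
          mul_nonneg (mul_nonneg hκ.le (norm_nonneg (W j (P0 - G)))) (norm_nonneg (Ξ j))]
      linarith
    rw [zero_sub, inner_neg_right] at a1
    rw [inner_sub_right] at a2
    linarith
  have b2 : ‖ε • R (P0 - G)‖ ^ 2 ≤ η := by
    rw [norm_smul, Real.norm_of_nonneg ε0.le, mul_pow, sq, mul_assoc]
    refine (mul_le_mul_of_nonneg_left b1 ε0.le).trans ?_
    rw [hε, div_mul_div_comm, div_le_iff₀ (by positivity)]
    nlinarith [mul_pos hη hκ]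
  have b3 : ‖G‖ ≤ M := by
    have a1 : G = P0 + ∑ j, ∑ k, A j k (S k j) - ε • R (P0 - G) := by
      rw [← eq', sub_sub_cancel]
    have a2 : ‖∑ j, ∑ k, A j k (S k j)‖ ≤ ∑ j, ∑ k, ‖A j k‖ * (‖P0‖ / κ) :=
      norm_sum_le_of_le _ fun j _ => norm_sum_le_of_le _ fun k _ =>
        (A j k).le_opNorm_of_le (AbsP.bound closed hU hA hS ε0.le ka eq k j)
    calc ‖G‖ = ‖P0 + ∑ j, ∑ k, A j k (S k j) - ε • R (P0 - G)‖ := congrArg _ a1
      _ ≤ M := (norm_sub_le _ _).trans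
        (add_le_add ((norm_add_le _ _).trans (add_le_add le_rfl a2)) (Real.le_sqrt_of_sq_le b2))
  refine ⟨G, hG.1, _, _, S, ε, ε0, hS, fun G' hG' => ?_, ka, eq', b2⟩
  have p : 0 < ‖G' - G‖ + 1 := by positivity
  have t0 : 0 < (‖G' - G‖ + 1)⁻¹ := inv_pos.2 p
  have t1 : (‖G' - G‖ + 1)⁻¹ ≤ 1 := inv_le_one_of_one_le₀ (by linarith [norm_nonneg (G' - G)])
  have := hv (G + (‖G' - G‖ + 1)⁻¹ • (G' - G)) ⟨hc.add_smul_sub_mem hG.1 hG' ⟨t0.le, t1⟩, by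
    rw [mem_closedBall_zero_iff]
    refine (norm_add_le _ _).trans (add_le_add b3 ?_)
    rw [norm_smul, Real.norm_of_nonneg t0.le, inv_mul_le_iff₀ p]
    linarith⟩
  rw [add_sub_cancel_left, real_inner_smul_right] at this
  exact nonpos_of_mul_nonpos_right this t0

end Pool.Agent.MP_29b5d3_an.GA
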