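import Pool.Agent.MP_29b5d3_an.GE.Spec

/-! PROJECT GE, row BALL: the unit ball is the rank-one convex hull of the isometries. -/

set_option autoImplicit false

open Set
open scoped RealInnerProductSpace

namespace Pool.Agent.MP_29b5d3_an.GE

/-- the singular value decomposition -/
theorem svd {n : ℕ} (F : Mt n) : ∃ w u : OrthonormalBasis (Fin n) ℝ (Eu n),
    ∀ i, F (w i) = ‖F (w i)‖ • u i := by
  have hn : Module.finrank ℝ (Eu n) = n := by simp
  have hT := LinearMap.isSymmetric_adjoint_mul_self F.toLinearMap
  let w := hT.eigenvectorBasis hn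
  have h0 : ∀ i j, i ≠ j → ⟪F (w i), F (w j)⟫ = 0 := fun i j k => by
    have := hT.apply_eigenvectorBasis hn j
    rw [← ContinuousLinearMap.coe_coe, ← LinearMap.adjoint_inner_right, ← Module.End.mul_apply,
      this, inner_smul_right, w.inner_eq_zero k, mul_zero]
  obtain ⟨u, hu⟩ := Orthonormal.exists_orthonormalBasis_extension_of_card_eq (𝕜 := ℝ)
    (hn.trans (Fintype.card_fin n).symm) (v := fun i => ‖F (w i)‖⁻¹ • F (w i))
    (s := {i | F (w i) ≠ 0}) ⟨fun i => norm_smul_inv_norm i.2, fun i j k => by
      simp [inner_smul_left, inner_smul_right, h0 i j fun z => k (Subtype.ext z)]⟩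
  refine ⟨w, u, fun i => ?_⟩
  by_cases c : F (w i) = 0
  · simp [c]
  · rw [hu i c, smul_inv_smul₀ (norm_ne_zero_iff.2 c)]

theorem ball : BallStmt := by
  intro n S h1 h2 F hF
  obtain ⟨w, u, h⟩ := svd F
  let M : (Fin n → ℝ) → Mt n := fun a => ∑ i, a i • (innerSL ℝ (w i)).smulRight (u i)
  have key : ∀ A : Finset (Fin n), ∀ a : Fin n → ℝ, (∀ i, |a i| ≤ 1) → (∀ i ∉ A, |a i| = 1) →
      M a ∈ S := fun A => by
    induction A using Finset.induction_on with
    | empty =>
      refine fun a _ k => h1 _ fun v => (sq_eq_sq₀ (norm_nonneg _) (norm_nonneg _)).1 ?_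
      rw [← u.sum_sq_inner_right, ← w.sum_sq_inner_right]
      refine Finset.sum_congr rfl fun i _ => ?_
      have := sq_abs (a i)
      rw [k i (by simp)] at this
      simp [M, inner_sum, inner_smul_right, u.inner_eq_ite, mul_pow, ← this]
    | insert i A _ ih =>
      intro a k k'
      have e : ∀ t, M (Function.update a i t) =
          M (Function.update a i 0) + t • (innerSL ℝ (w i)).smulRight (u i) := fun t => by
        simp only [M, ← Finset.add_sum_erase _ _ (Finset.mem_univ i), Function.update_self,
          zero_smul, zero_add, add_comm (t • _)]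
        congr 1
        exact Finset.sum_congr rfl fun j c => by
          simp only [Function.update_of_ne (Finset.ne_of_mem_erase c)]
      have one : ∀ t, |t| = 1 → M (Function.update a i t) ∈ S := fun t c =>
        ih _ (fun j => by rcases eq_or_ne j i with rfl | z <;> simp [*]) fun j z => by
          rcases eq_or_ne j i with rfl | z' <;> simp [*]
      rw [← Function.update_eq_self i a, e]
      exact (h2 _ (u i) (w i)).ordConnected.out (e _ ▸ one (-1) (by simp) :)
        (e _ ▸ one 1 (by simp) :) (abs_le.1 (k i))
  convert key Finset.univ (fun i => ‖F (w i)‖) (fun i => ?_) (by simp)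
  · refine ContinuousLinearMap.ext fun v => ?_
    conv_lhs => rw [← w.sum_repr' v, map_sum]
    simp only [M, sum_apply, map_smul]
    refine Finset.sum_congr rfl fun i _ => ?_
    conv_lhs => rw [h i, smul_comm]
    rfl
  · simpa using (F.le_opNorm (w i)).trans (by simpa using hF)

end Pool.Agent.MP_29b5d3_an.GE
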