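import Pool.Agent.MP_29b5d3_an.GE.Spec

/-! A solution of the anticommutation relations with a vacuum vector. -/

set_option autoImplicit false

open scoped RealInnerProductSpace

namespace Pool.Agent.MP_29b5d3_an.GE

namespace CarA

variable {V : Type} [NormedAddCommGroup V] [InnerProductSpace ℝ V]

/-- a map of the square given by its two components -/
noncomputable def mk2 (A B : V × V →L[ℝ] V) : WithLp 2 (V × V) →L[ℝ] WithLp 2 (V × V) :=
  (WithLp.prodContinuousLinearEquiv 2 ℝ V V).symm.toContinuousLinearMap ∘L (A.prod B) ∘L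
    (WithLp.prodContinuousLinearEquiv 2 ℝ V V).toContinuousLinearMap

/-- creation, annihilation, and the twisted diagonal -/
noncomputable def up : WithLp 2 (V × V) →L[ℝ] WithLp 2 (V × V) :=
  mk2 0 (ContinuousLinearMap.fst ℝ V V)
noncomputable def dn : WithLp 2 (V × V) →L[ℝ] WithLp 2 (V × V) :=
  mk2 (ContinuousLinearMap.snd ℝ V V) 0
noncomputable def dg (A : V →L[ℝ] V) : WithLp 2 (V × V) →L[ℝ] WithLp 2 (V × V) :=
  mk2 (A ∘L ContinuousLinearMap.fst ℝ V V) (-(A ∘L ContinuousLinearMap.snd ℝ V V))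

theorem up1 (x : WithLp 2 (V × V)) : (up x).fst = 0 := rfl
theorem up2 (x : WithLp 2 (V × V)) : (up x).snd = x.fst := rfl
theorem dn1 (x : WithLp 2 (V × V)) : (dn x).fst = x.snd := rfl
theorem dn2 (x : WithLp 2 (V × V)) : (dn x).snd = 0 := rfl
theorem dg1 (A : V →L[ℝ] V) (x : WithLp 2 (V × V)) : (dg A x).fst = A x.fst := rfl
theorem dg2 (A : V →L[ℝ] V) (x : WithLp 2 (V × V)) : (dg A x).snd = -A x.snd := rfl

theorem ex {x y : WithLp 2 (V × V)} (h1 : x.fst = y.fst) (h2 : x.snd = y.snd) : x = y :=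
  WithLp.ofLp_injective 2 (Prod.ext h1 h2)

theorem ip (x y : WithLp 2 (V × V)) : ⟪x, y⟫ = ⟪x.fst, y.fst⟫ + ⟪x.snd, y.snd⟫ :=
  WithLp.prod_inner_apply x y

theorem step {n : ℕ} {c c' : Fin n → V →L[ℝ] V} (h : Car c c') :
    Car (Fin.cases up fun i => dg (c i) : Fin (n + 1) → _) (Fin.cases dn fun i => dg (c' i)) where
  adj i x y := by
    rcases Fin.eq_zero_or_eq_succ i with rfl | ⟨i, rfl⟩
    · simp [ip, up1, up2, dn1, dn2]
    · simp [ip, dg1, dg2, h.adj]
  anti i j x := by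
    rcases Fin.eq_zero_or_eq_succ i with rfl | ⟨i, rfl⟩ <;>
      rcases Fin.eq_zero_or_eq_succ j with rfl | ⟨j, rfl⟩
    · apply ex <;> simp [up1, up2]
    · apply ex <;> simp [up1, up2, dg1, dg2]
    · apply ex <;> simp [up1, up2, dg1, dg2]
    · apply ex <;> simp [dg1, dg2, h.anti i j]
  car i j x := by
    rcases Fin.eq_zero_or_eq_succ i with rfl | ⟨i, rfl⟩ <;>
      rcases Fin.eq_zero_or_eq_succ j with rfl | ⟨j, rfl⟩
    · apply ex <;> simp [up1, up2, dn1, dn2]
    · rw [if_neg (Fin.succ_ne_zero j).symm]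
      apply ex <;> simp [up1, up2, dg1, dg2]
    · rw [if_neg (Fin.succ_ne_zero i)]
      apply ex <;> simp [dn1, dn2, dg1, dg2]
    · by_cases e : i = j
      · rw [if_pos (congrArg _ e)]
        apply ex <;> simp [dg1, dg2, h.car, e]
      · rw [if_neg fun k => e (Fin.succ_injective _ k)]
        apply ex <;> simp [dg1, dg2, h.car, e]

end CarA

theorem car : CarStmt := by
  intro n
  induction n with
  | zero =>
    exact ⟨ℝ, inferInstance, inferInstance, inferInstance, Fin.elim0, Fin.elim0, 1,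
      ⟨fun i => i.elim0, fun i => i.elim0, fun i => i.elim0⟩, norm_one, fun i => i.elim0⟩
  | succ n ih =>
    obtain ⟨V, _, _, _, c, c', Ω, h, h1, h2⟩ := ih
    refine ⟨WithLp 2 (V × V), inferInstance, inferInstance, inferInstance, _, _,
      WithLp.toLp 2 (Ω, 0), CarA.step h, by simp [h1], fun i => ?_⟩
    rcases Fin.eq_zero_or_eq_succ i with rfl | ⟨i, rfl⟩ <;> apply CarA.ex <;>
      simp [CarA.dn1, CarA.dn2, CarA.dg1, CarA.dg2, h2]

end Pool.Agent.MP_29b5d3_an.GE
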