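import Pool.Agent.MP_29b5d3_an.GE.Spec
import Mathlib.LinearAlgebra.ExteriorAlgebra.Basic

/-! PROJECT GE, row DET: the top component of the product of all rows. -/

set_option autoImplicit false

open MeasureTheory Set Filter Topology
open scoped ContDiff RealInnerProductSpace

namespace Pool.Agent.MP_29b5d3_an.GE

open h48

namespace Det

variable {n : ℕ} {V : Type} [NormedAddCommGroup V] [InnerProductSpace ℝ V]
  {c c' : Fin n → V →L[ℝ] V} {Ω : V}

/-- exterior multiplication by a vector -/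
noncomputable def cl (c : Fin n → V →L[ℝ] V) : (Fin n → ℝ) →ₗ[ℝ] Module.End ℝ V :=
  Fintype.linearCombination ℝ fun i => (c i : V →ₗ[ℝ] V)

theorem cl_apply (a : Fin n → ℝ) (w : V) : cl c a w = ∑ i, a i • c i w := by
  simp [cl, Fintype.linearCombination_apply]

theorem cl_sq (h : Car c c') (a : Fin n → ℝ) : cl c a * cl c a = 0 := by
  ext w
  have e : cl c a (cl c a w) = ∑ i, ∑ j, (a i * a j) • c j (c i w) := by
    simp only [cl_apply, map_sum, map_smul, Finset.smul_sum, smul_smul]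
  have e2 : ∑ i, ∑ j, (a i * a j) • c j (c i w) = -∑ i, ∑ j, (a i * a j) • c j (c i w) := by
    conv_lhs => rw [Finset.sum_comm]
    simp only [← Finset.sum_neg_distrib]
    exact Finset.sum_congr rfl fun i _ => Finset.sum_congr rfl fun j _ => by
      rw [h.anti, mul_comm, smul_neg]
  rw [eq_neg_iff_add_eq_zero, ← two_smul ℝ, ← e] at e2
  simpa using e2

theorem wg_eq (F : Mt n) (I : List (Fin n)) :
    wg c F Ω I = (I.map fun k => cl c fun i => F (ev i) k).prod Ω := by
  induction I with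
  | nil => rfl
  | cons k I ih => rw [wg_cons, List.map_cons, List.prod_cons, Module.End.mul_apply, ← ih,
      cl_apply, row]

theorem row_one (k : Fin n) (w : V) : row c 1 k w = c k w := by
  simp [row, ev, PiLp.single_apply]

theorem unit (h : Car c c') (h1 : ‖Ω‖ = 1) (h0 : ∀ i, c' i Ω = 0) (I : List (Fin n))
    (hI : I.Nodup) : ‖wg c 1 Ω I‖ = 1 ∧ ∀ k ∉ I, c' k (wg c 1 Ω I) = 0 := by
  induction I with
  | nil => exact ⟨h1, fun k _ => h0 k⟩
  | cons j I ih =>
    obtain ⟨hj, hI⟩ := List.nodup_cons.1 hI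
    obtain ⟨a, b⟩ := ih hI
    rw [wg_cons, row_one]
    refine ⟨?_, fun k hk => ?_⟩
    · have e := h.car j j (wg c 1 Ω I)
      rw [b j hj, map_zero, zero_add, if_pos rfl] at e
      rw [← sq_eq_sq₀ (norm_nonneg _) zero_le_one, ← real_inner_self_eq_norm_sq, h.adj, e,
        real_inner_self_eq_norm_sq, a]
    · rw [List.mem_cons, not_or] at hk
      have e := h.car j k (wg c 1 Ω I)
      rwa [b k hk.2, map_zero, zero_add, if_neg (Ne.symm hk.1)] at e

theorem det_eq (F : Mt n) : F.det = (Matrix.of fun k i => F (ev i) k).det := by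
  rw [ContinuousLinearMap.det, ← LinearMap.det_toMatrix (EuclideanSpace.basisFun (Fin n) ℝ).toBasis]
  exact congrArg _ (Matrix.ext fun k i => by simp [LinearMap.toMatrix_apply, ev])

theorem alt (h : Car c c') (Θ : V) (F : Mt n) :
    ⟪wg c F Ω (List.finRange n), Θ⟫ = ⟪wg c 1 Ω (List.finRange n), Θ⟫ * F.det := by
  let φ : Module.End ℝ V →ₗ[ℝ] ℝ := (innerₗ V Θ).comp (LinearMap.applyₗ Ω)
  let A := (φ.comp (ExteriorAlgebra.lift ℝ ⟨cl c, cl_sq h⟩).toLinearMap).compAlternatingMap
    (ExteriorAlgebra.ιMulti ℝ n)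
  have hA : ∀ G : Mt n, A (fun k i => G (ev i) k) = ⟪wg c G Ω (List.finRange n), Θ⟫ := fun G => by
    rw [wg_eq, ← List.ofFn_eq_map, real_inner_comm]
    simp [A, φ, ExteriorAlgebra.ιMulti_apply, map_list_prod, List.map_ofFn, Function.comp_def]
  have e : (fun k i => (1 : Mt n) (ev i) k) = Pi.basisFun ℝ (Fin n) := by
    funext k i
    simp [ev, PiLp.single_apply, Pi.single_apply, eq_comm]
  rw [← hA, ← hA, e, det_eq, ← Pi.basisFun_det_apply]
  conv_lhs => rw [A.eq_smul_basis_det (Pi.basisFun ℝ (Fin n))]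
  rfl

end Det

theorem det : DetStmt := by
  intro n V _ _ c c' Ω h h1 h0
  have a := (Det.unit h h1 h0 _ (List.nodup_finRange n)).1
  refine ⟨_, h, h1, a, fun F => ?_⟩
  rw [Det.alt h, real_inner_self_eq_norm_sq, a, one_pow, one_mul]

end Pool.Agent.MP_29b5d3_an.GE
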