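import Pool.Agent.MP_29b5d3_an.GE.Spec

/-! PROJECT GE, row END: the end game. -/

set_option autoImplicit false

open MeasureTheory Set Filter Topology Module
open scoped ContDiff RealInnerProductSpace

namespace Pool.Agent.MP_29b5d3_an.GE

open h48

/-- cutting off, with control of the error term -/
theorem en_glob {n : ℕ} (hn : 1 ≤ n) {K : ℝ} {Ω C : Set (Eu n)} {f : Eu n → Eu n}
    {Df : Eu n → Mt n} (hq : IsQR K Ω f Df) (hC : IsCompact C) (hCΩ : C ⊆ Ω) :
    ∃ (F : Eu n → Eu n) (G : Eu n → Mt n) (S : Set (Eu n)) (M : ℝ), Sob volume F G ∧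
      IsCompact S ∧ 0 ≤ M ∧ (∀ x ∈ C, G x = Df x) ∧ (∀ x, x ∉ S → G x = 0) ∧
      ∀ᵐ x, x ∈ S → ∃ A R, G x = A + R ∧ ‖A‖ ^ n ≤ K * A.det ∧ ‖R‖ ≤ M := by
  have e : finrank ℝ (Eu n) = n := finrank_euclideanSpace_fin
  obtain ⟨h, hd⟩ := hq.sobOn
  obtain ⟨χ, S, c1, hS, hSΩ, c2, c3, c4⟩ := cutoff hC h.op hCΩ
  have c5 : ContDiff ℝ 1 χ := c1.of_le (by simp)
  have c6 : tsupport χ ⊆ S := closure_minimal (fun x hx => by_contra fun h => hx (c2 x h))
    hS.isClosed
  have c7 : ∀ x, x ∉ S → fderiv ℝ χ x = 0 := fun x hx =>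
    fderiv_of_notMem_tsupport ℝ fun h => hx (c6 h)
  have cD := c5.continuous_fderiv one_ne_zero
  obtain ⟨f1, f2⟩ := extend (g := fun x => χ x • f x) h.op hS hSΩ
    (c5.continuous.continuousOn.smul h.cont) fun x hx => by rw [c2 x hx, zero_smul]
  obtain ⟨g1, g2⟩ := extend (g := fun x => (fderiv ℝ χ x).smulRight (f x)) h.op hS hSΩ
    (continuousOn_clm_apply.2 fun v => (cD.clm_apply continuous_const).continuousOn.smul h.cont)
    fun x hx => by rw [c7 x hx, ContinuousLinearMap.zero_smulRight]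
  have m1 := memLp_cut hS (h.lp S hS hSΩ) c5.continuous c2 c3
  have m2 : MemLp (fun x => χ x • Df x + (fderiv ℝ χ x).smulRight (f x))
      (finrank ℝ (Eu n) : ENNReal) volume := m1.add (g1.memLp_of_hasCompactSupport g2)
  have n1 : (1 : ENNReal) ≤ finrank ℝ (Eu n) := by exact_mod_cast e.symm ▸ hn
  obtain ⟨M, hM⟩ := g2.exists_bound_of_continuous g1
  refine ⟨fun x => χ x • f x, fun x => χ x • Df x + (fderiv ℝ χ x).smulRight (f x), S, M,
    ⟨f1, f2, m2.locallyIntegrable n1, m2.integrable_norm_pow (by omega),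
      weak_cut h c1 (c6.trans hSΩ) f1 f2 g1 (m1.locallyIntegrable n1)⟩, hS,
    (norm_nonneg _).trans (hM 0), fun x hx => ?_, fun x hx => ?_, ?_⟩
  · have hy := eventually_nhdsSet_iff_forall.1 c4 x hx
    have e : fderiv ℝ χ x = 0 := by
      rw [EventuallyEq.fderiv_eq (f := fun _ => 1) hy]
      simp
    simp [hy.self_of_nhds, e]
  · ext1 v
    simp [c2 x hx, c7 x hx]
  · filter_upwards [(ae_restrict_iff' h.op.measurableSet).1 hd] with x hx hxS
    refine ⟨_, _, rfl, ?_, hM x⟩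
    have k := mul_le_mul_of_nonneg_left (hx (hSΩ hxS)) (pow_nonneg (c3 x).1 n)
    rw [e] at k
    rw [norm_smul, Real.norm_of_nonneg (c3 x).1, mul_pow, ContinuousLinearMap.det,
      ContinuousLinearMap.toLinearMap_smul, LinearMap.det_smul, e]
    exact k.trans_eq (by rw [ContinuousLinearMap.det]; ring)

theorem en_gain (lim : LimStmt) (cone : ConeStmt) {n : ℕ} (hn : 1 ≤ n) {K K1 p : ℝ} (hK : 0 < K)
    (hK1 : K < K1) (hp : 0 < p) (fam : Fam n K1 p) {Ω C : Set (Eu n)} {f : Eu n → Eu n}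
    {Df : Eu n → Mt n} (hq : IsQR K Ω f Df) (hC : IsCompact C) (hCΩ : C ⊆ Ω) :
    MemLp Df (ENNReal.ofReal p) (volume.restrict C) := by
  obtain ⟨F, G, S, M, hF, hS, M0, g1, g2, g3⟩ := en_glob hn hq hC hCΩ
  obtain ⟨δ, δ0, hδ⟩ := cone n K K1 hK hK1
  obtain ⟨κ, B, κ0, B0, hT⟩ := fam
  choose Ψ c1 c2 c3 c4 c5 using fun j : ℕ => hT (j + 1) (by positivity)
  have L : ∀ j, Integrable (fun x => Ψ j (G x)) ∧ ∫ x, Ψ j (G x) ≤ 0 := fun j => by
    obtain ⟨c, c0, hc⟩ := c3 j
    exact lim n (Ψ j) c F G (c1 j) (c2 j) c0 hc hF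
  set b : Eu n → ℝ := S.indicator fun _ => (B + κ) * (M / δ + M) ^ p with hb
  have ib : Integrable b :=
    (integrable_indicator_iff hS.measurableSet).2 (integrableOn_const hS.measure_lt_top.ne)
  have b0 : ∀ x, 0 ≤ b x := fun x => indicator_nonneg (fun _ _ => by positivity) x
  have key : ∀ᵐ x, ∀ j : ℕ, 0 ≤ Ψ j (G x) + b x ∧
      (‖G x‖ ≤ j + 1 → κ * ‖G x‖ ^ p ≤ Ψ j (G x) + b x) := by
    filter_upwards [g3] with x hx j
    have a : ‖G x‖ ^ n ≤ K1 * (G x).det ∨ (x ∈ S ∧ ‖G x‖ ≤ M / δ + M) := by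
      by_cases hxS : x ∈ S
      · obtain ⟨A, R, e, a1, a2⟩ := hx hxS
        rw [e]
        rcases le_total M (δ * ‖A‖) with a | a
        · exact Or.inl (hδ A R a1 (a2.trans a))
        · exact Or.inr ⟨hxS, (norm_add_le _ _).trans (add_le_add ((le_div_iff₀' δ0).2 a) a2)⟩
      · have := det_le (0 : Mt n)
        rw [norm_zero, zero_pow (by omega), abs_nonpos_iff] at this
        rw [g2 x hxS, this, norm_zero, zero_pow (by omega), mul_zero]
        exact Or.inl le_rfl
    rcases a with a | ⟨a1, a2⟩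
    · obtain ⟨a1, a2⟩ := c5 j _ a
      exact ⟨add_nonneg a1 (b0 x), fun h => (a2 h).trans (le_add_of_nonneg_right (b0 x))⟩
    · have a3 : ‖G x‖ ^ p ≤ (M / δ + M) ^ p := Real.rpow_le_rpow (norm_nonneg _) a2 hp.le
      have a4 : κ * ‖G x‖ ^ p ≤ Ψ j (G x) + b x := by
        rw [hb, indicator_of_mem a1]
        linarith [c4 j (G x), mul_le_mul_of_nonneg_left a3 B0, mul_le_mul_of_nonneg_left a3 κ0.le]
      exact ⟨le_trans (by positivity) a4, fun _ => a4⟩
  have mG : AEStronglyMeasurable (fun x => ‖G x‖) volume := hF.loc.aestronglyMeasurable.norm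
  have i1 : Integrable fun x => κ * ‖G x‖ ^ p := by
    refine integrable_of_eventually_le (g := fun j x => |Ψ j (G x) + b x|) (C := ∫ x, b x)
      ((mG.aemeasurable.pow_const p).aestronglyMeasurable.const_mul κ) (fun x => by positivity)
      (fun j => ((L j).1.add ib).abs) (fun j x => abs_nonneg _) (fun j => ?_) ?_
    · rw [integral_congr_ae (key.mono fun x hx => abs_of_nonneg (hx j).1),
        integral_add (L j).1 ib]
      linarith [(L j).2]
    · filter_upwards [key] with x hx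
      filter_upwards [eventually_ge_atTop ⌈‖G x‖⌉₊] with j hj
      exact ((hx j).2 (by linarith [Nat.ceil_le.1 hj])).trans (le_abs_self _)
  rw [← integrable_norm_rpow_iff (hq.2.2.1 C hC hCΩ).1 (by simpa using hp)
    ENNReal.ofReal_ne_top, ENNReal.toReal_ofReal hp.le]
  refine (i1.const_mul κ⁻¹).integrableOn.congr_fun (fun x hx => ?_) hC.measurableSet
  simp only [g1 x hx]
  rw [inv_mul_cancel_left₀ κ0.ne']

theorem fin (lim : LimStmt) (cone : ConeStmt) : EndStmt := by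
  intro n hn fam K hK
  refine isLUB_of hn hK (fun p hp Ω f Df h C hC hCΩ => ?_) fun p hp h =>
    lt_of_locLp_rad hn hK hp (h _ _ _ (isQR_rad hn hK))
  rcases le_or_gt p n with c | c
  · have : IsFiniteMeasure ((volume : Measure (Eu n)).restrict C) :=
      isFiniteMeasure_restrict.2 hC.measure_lt_top.ne
    refine (h.2.2.1 C hC hCΩ).mono_exponent ?_
    rw [← ENNReal.ofReal_natCast]
    exact ENNReal.ofReal_le_ofReal c
  · rw [lt_div_iff₀ (by linarith)] at hp
    obtain ⟨K1, k1, k2⟩ := exists_between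
      (show K < p / (p - n) by rw [lt_div_iff₀ (by linarith)]; linarith)
    rw [lt_div_iff₀ (by linarith)] at k2
    exact en_gain lim cone hn (by linarith) k1 ((Nat.cast_nonneg n).trans_lt c)
      (fam K1 p (by linarith) c (by rw [lt_div_iff₀ (by linarith)]; linarith)) h hC hCΩ

end Pool.Agent.MP_29b5d3_an.GE
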