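import Pool.Agent.MP_29b5d3_an.h48.Upper

/-! PROJECT GE: definitions, statements of the rows (algebra, forms, end game). -/

set_option autoImplicit false

open MeasureTheory Set Filter Topology
open scoped ContDiff RealInnerProductSpace

namespace Pool.Agent.MP_29b5d3_an.GE

open h48

/-- Euclidean space -/
abbrev Eu (n : ℕ) : Type := EuclideanSpace ℝ (Fin n)

/-- matrices -/
abbrev Mt (n : ℕ) : Type := Eu n →L[ℝ] Eu n

/-- the standard basis -/
noncomputable def ev {n : ℕ} (i : Fin n) : Eu n := EuclideanSpace.single i 1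

section Defs

variable {n : ℕ} {V : Type} [NormedAddCommGroup V] [InnerProductSpace ℝ V]

/-- smooth with compact support -/
def Tst (φ : Eu n → V) : Prop := ContDiff ℝ ∞ φ ∧ HasCompactSupport φ

/-- the canonical anticommutation relations -/
structure Car (c c' : Fin n → V →L[ℝ] V) : Prop where
  adj : ∀ i x y, ⟪c i x, y⟫ = ⟪x, c' i y⟫
  anti : ∀ i j x, c i (c j x) = -c j (c i x)
  car : ∀ i j x, c i (c' j x) + c' j (c i x) = if i = j then x else 0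

/-- exterior multiplication by the row `k` of `F` -/
noncomputable def row (c : Fin n → V →L[ℝ] V) (F : Mt n) (k : Fin n) (w : V) : V :=
  ∑ i, F (ev i) k • c i w

/-- the exterior product of the rows of `F` listed in `I`, applied to `Ω` -/
noncomputable def wg (c : Fin n → V →L[ℝ] V) (F : Mt n) (Ω : V) : List (Fin n) → V
  | [] => Ω
  | k :: I => row c F k (wg c F Ω I)

/-- the exterior derivative -/
noncomputable def dd (c : Fin n → V →L[ℝ] V) (φ : Eu n → V) (x : Eu n) : V :=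
  ∑ j, c j (fderiv ℝ φ x (ev j))

/-- a Fock space: the product of all rows is the determinant -/
structure Fock (c c' : Fin n → V →L[ℝ] V) (Ω Θ : V) : Prop where
  car : Car c c'
  n1 : ‖Ω‖ = 1
  n2 : ‖Θ‖ = 1
  det : ∀ F : Mt n, ⟪wg c F Ω (List.finRange n), Θ⟫ = F.det

/-- the level function -/
noncomputable def Phi (l : ℕ) (τ : ℝ) (F : Mt n) : ℝ :=
  max (‖F‖ ^ l - τ) 0 * (F.det / ‖F‖ ^ l - τ)

/-- the integral over test maps is not positive -/
def QC (Ψ : Mt n → ℝ) : Prop := ∀ f : Eu n → Eu n, Tst f → ∫ x, Ψ (fderiv ℝ f x) ≤ 0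

/-- a family of test integrands that bounds the `p`-th power on the cone -/
def Fam (n : ℕ) (K p : ℝ) : Prop :=
  ∃ κ C : ℝ, 0 < κ ∧ 0 ≤ C ∧ ∀ T : ℝ, 0 < T → ∃ Ψ : Mt n → ℝ, Continuous Ψ ∧ QC Ψ ∧
    (∃ c, 0 ≤ c ∧ ∀ A, |Ψ A| ≤ c * ‖A‖ ^ n) ∧ (∀ A, -(C * ‖A‖ ^ p) ≤ Ψ A) ∧
    ∀ A, ‖A‖ ^ n ≤ K * A.det → 0 ≤ Ψ A ∧ (‖A‖ ≤ T → κ * ‖A‖ ^ p ≤ Ψ A)

/-- the sharp exponent in dimension `n` -/
def Sharp (n : ℕ) : Prop :=
  ∀ K : ℝ, 1 < K → IsLUB {p : ℝ | (n : ℝ) ≤ p ∧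
    ∀ Ω f Df, IsQR (n := n) K Ω f Df → LocLp (ENNReal.ofReal p) Ω Df} ((n : ℝ) * K / (K - 1))

end Defs

/-! ### Statements of the rows -/

/-- LEVA: the projection inequality (analysis half) -/
def LevAStmt : Prop :=
  ∀ (n : ℕ) (V : Type) [NormedAddCommGroup V] [InnerProductSpace ℝ V] [FiniteDimensional ℝ V]
    (c c' : Fin n → V →L[ℝ] V) (α β : Eu n → V) (τ : ℝ) (Θ : Eu n → ℝ), Car c c' → Tst α →
    Tst β → 0 < τ → Integrable Θ →
    (∀ x, Θ x ≤ ⟪dd c α x, dd c' β x⟫ - τ * ‖dd c α x + dd c' β x‖ + τ ^ 2) →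
    (∀ x, ‖dd c α x + dd c' β x‖ ≤ 2 * τ → Θ x ≤ 0) → ∫ x, Θ x ≤ 0

/-- CAR: the relations have a solution with a vacuum vector -/
def CarStmt : Prop :=
  ∀ n : ℕ, ∃ (V : Type) (_ : NormedAddCommGroup V) (_ : InnerProductSpace ℝ V)
    (_ : FiniteDimensional ℝ V) (c c' : Fin n → V →L[ℝ] V) (Ω : V),
    Car c c' ∧ ‖Ω‖ = 1 ∧ ∀ i, c' i Ω = 0

/-- DET: the top component of the product of all rows -/
def DetStmt : Prop :=
  ∀ (n : ℕ) (V : Type) [NormedAddCommGroup V] [InnerProductSpace ℝ V]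
    (c c' : Fin n → V →L[ℝ] V) (Ω : V), Car c c' → ‖Ω‖ = 1 → (∀ i, c' i Ω = 0) →
    ∃ Θ, Fock c c' Ω Θ

/-- BALL: the unit ball is the rank-one convex hull of the isometries -/
def BallStmt : Prop :=
  ∀ (n : ℕ) (S : Set (Mt n)), (∀ F : Mt n, (∀ v, ‖F v‖ = ‖v‖) → F ∈ S) →
    (∀ (F : Mt n) (u v : Eu n),
      Convex ℝ {t : ℝ | F + t • (innerSL ℝ v).smulRight u ∈ S}) →
    ∀ F : Mt n, ‖F‖ ≤ 1 → F ∈ S

/-- PT: the pointwise inequality -/
def PtStmt : Prop :=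
  ∀ (n : ℕ) (V : Type) [NormedAddCommGroup V] [InnerProductSpace ℝ V]
    (c c' : Fin n → V →L[ℝ] V) (Ω Θ : V) (I J : List (Fin n)) (l : ℕ), Fock c c' Ω Θ →
    J.reverse ++ I = List.finRange n → I.length = l → J.length = l → ∀ F : Mt n,
    ⟪wg c F Ω I, wg c' F Θ J⟫ = F.det ∧
      (F ≠ 0 → ‖wg c F Ω I + wg c' F Θ J‖ ≤ ‖F‖ ^ l + F.det / ‖F‖ ^ l)

/-- FORM: products of differentials are exact -/
def FormStmt : Prop :=
  ∀ (n : ℕ) (V : Type) [NormedAddCommGroup V] [InnerProductSpace ℝ V]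
    (c : Fin n → V →L[ℝ] V) (Ω : V) (f : Eu n → Eu n) (I : List (Fin n)),
    (∀ i j x, c i (c j x) = -c j (c i x)) → Tst f → I ≠ [] →
    ∃ α : Eu n → V, Tst α ∧ ∀ x, dd c α x = wg c (fderiv ℝ f x) Ω I

/-- LEV: the level inequality in even dimension -/
def LevStmt : Prop := ∀ l : ℕ, 1 ≤ l → ∀ τ : ℝ, 0 < τ → QC (Phi (n := 2 * l) l τ)

/-- MEL1: the scalar integral over the levels -/
def Mel1Stmt : Prop :=
  ∀ q K : ℝ, 0 < q → 1 < K → q * (K - 1) < 2 → ∃ κ C : ℝ, 0 < κ ∧ 0 ≤ C ∧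
    ∀ T σ J : ℝ, 0 < T → 0 ≤ σ → |J| ≤ σ ^ 2 →
      |∫ τ in Ioc 0 T, max (σ - τ) 0 * (J / σ - τ) * τ ^ (q - 1)| ≤ C * (σ ^ 2 * min σ T ^ q) ∧
      (σ ^ 2 ≤ K * J → κ * (σ ^ 2 * min σ T ^ q) ≤
        ∫ τ in Ioc 0 T, max (σ - τ) 0 * (J / σ - τ) * τ ^ (q - 1))

/-- MEL: integration over the levels -/
def MelStmt : Prop :=
  ∀ n l : ℕ, n = 2 * l → 1 ≤ l → (∀ τ : ℝ, 0 < τ → QC (Phi (n := n) l τ)) →
    ∀ K p : ℝ, 1 < K → n < p → p < n * K / (K - 1) → Fam n K p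

/-- LIM: from test maps to Sobolev maps -/
def LimStmt : Prop :=
  ∀ (n : ℕ) (Ψ : Mt n → ℝ) (c : ℝ) (F : Eu n → Eu n) (G : Eu n → Mt n), Continuous Ψ → QC Ψ →
    0 ≤ c → (∀ A, |Ψ A| ≤ c * ‖A‖ ^ n) → Sob volume F G →
    Integrable (fun x => Ψ (G x)) ∧ ∫ x, Ψ (G x) ≤ 0

/-- CONE: small perturbations stay in a slightly larger cone -/
def ConeStmt : Prop :=
  ∀ (n : ℕ) (K K' : ℝ), 0 < K → K < K' → ∃ δ : ℝ, 0 < δ ∧ ∀ A R : Mt n,
    ‖A‖ ^ n ≤ K * A.det → ‖R‖ ≤ δ * ‖A‖ → ‖A + R‖ ^ n ≤ K' * (A + R).det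

/-- END: the end game, in every dimension -/
def EndStmt : Prop :=
  ∀ n : ℕ, 1 ≤ n → (∀ K p : ℝ, 1 < K → n < p → p < n * K / (K - 1) → Fam n K p) → Sharp n

/-! ### Small shared lemmas -/

section Small

variable {n : ℕ} {V : Type} [NormedAddCommGroup V] [InnerProductSpace ℝ V]
  {c c' : Fin n → V →L[ℝ] V}

theorem Car.adj' (h : Car c c') (i : Fin n) (x y : V) : ⟪c' i x, y⟫ = ⟪x, c i y⟫ := by
  rw [real_inner_comm, ← h.adj, real_inner_comm]

theorem Car.symm (h : Car c c') : Car c' c where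
  adj := h.adj'
  anti i j x := ext_inner_right ℝ fun y => by
    rw [h.adj', h.adj', h.anti, inner_neg_right, inner_neg_left, h.adj', h.adj']
  car i j x := by rw [add_comm, h.car]; simp only [eq_comm]

theorem Car.sq (h : Car c c') (i : Fin n) (x : V) : c i (c i x) = 0 := by
  have := h.anti i i x
  rw [eq_neg_iff_add_eq_zero, ← two_smul ℝ] at this
  simpa using this

theorem wg_nil (F : Mt n) (Ω : V) : wg c F Ω [] = Ω := rfl

theorem wg_cons (F : Mt n) (Ω : V) (k : Fin n) (I : List (Fin n)) :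
    wg c F Ω (k :: I) = row c F k (wg c F Ω I) := rfl

theorem wg_append (F : Mt n) (Ω : V) (I J : List (Fin n)) :
    wg c F Ω (I ++ J) = wg c F (wg c F Ω J) I := by
  induction I with
  | nil => rfl
  | cons k I ih => rw [List.cons_append, wg_cons, wg_cons, ih]

theorem row_zero (k : Fin n) (w : V) : row c 0 k w = 0 := by simp [row]

theorem det_le (F : Mt n) : |F.det| ≤ ‖F‖ ^ n := by
  simpa using abs_det_le F

theorem Phi_of_le {l : ℕ} {τ : ℝ} {F : Mt n} (h : ‖F‖ ^ l ≤ τ) : Phi l τ F = 0 := by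
  rw [Phi, max_eq_right (sub_nonpos.2 h), zero_mul]

theorem continuous_Phi (l : ℕ) {τ : ℝ} (hτ : 0 < τ) : Continuous (Phi (n := n) l τ) := by
  have h : Continuous fun F : Mt n => ‖F‖ ^ l := by fun_prop
  refine continuous_iff_continuousAt.2 fun F => ?_
  rcases lt_or_ge (‖F‖ ^ l) τ with a | a
  · refine continuousAt_const.congr (f := fun _ => (0 : ℝ)) ?_
    filter_upwards [h.continuousAt.eventually_lt continuousAt_const a] with G hG
    exact (Phi_of_le hG.le).symm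
  · exact ((h.sub continuous_const).max continuous_const).continuousAt.mul
      ((ContinuousLinearMap.continuous_det.continuousAt.div h.continuousAt
        (hτ.trans_le a).ne').sub continuousAt_const)

theorem Tst.integrable {φ : Eu n → V} (h : Tst φ) : Integrable φ :=
  h.1.continuous.integrable_of_hasCompactSupport h.2

end Small

/-- the chain -/
theorem even_of (lev : LevStmt) (mel : MelStmt) (fin : EndStmt) (l : ℕ) (hl : 1 ≤ l) :
    Sharp (2 * l) :=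
  fin _ (by omega) (mel _ l rfl hl (lev l hl))

end Pool.Agent.MP_29b5d3_an.GE
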