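import Mathlib.Analysis.Calculus.FDeriv.Symmetric
import Pool.Agent.MP_29b5d3_an.GE.Spec

/-! Products of differentials are exact. -/

set_option autoImplicit false

open MeasureTheory Set Filter Topology
open scoped ContDiff RealInnerProductSpace

namespace Pool.Agent.MP_29b5d3_an.GE

open h48

variable {n : ℕ} {V : Type} [NormedAddCommGroup V] [InnerProductSpace ℝ V]
  {c : Fin n → V →L[ℝ] V}

theorem fo_smooth {α : Eu n → V} (h : ContDiff ℝ ∞ α) : ContDiff ℝ ∞ (dd c α) :=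
  ContDiff.sum fun j _ => (c j).contDiff.comp
    ((h.fderiv_right (m := ∞) le_rfl).clm_apply contDiff_const)

theorem fo_dd (ha : ∀ i j x, c i (c j x) = -c j (c i x)) {α : Eu n → V} (h : ContDiff ℝ ∞ α)
    (x : Eu n) : dd c (dd c α) x = 0 := by
  have h1 : HasFDerivAt (fderiv ℝ α) (fderiv ℝ (fderiv ℝ α) x) x :=
    ((h.fderiv_right (m := 1) (by norm_cast)).differentiable one_ne_zero x).hasFDerivAt
  have h2 : HasFDerivAt (dd c α) (∑ i, (c i).comp
      ((ContinuousLinearMap.apply ℝ V (ev i)).comp (fderiv ℝ (fderiv ℝ α) x))) x :=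
    HasFDerivAt.fun_sum fun i _ => (c i).hasFDerivAt.comp x
      ((ContinuousLinearMap.apply ℝ V (ev i)).hasFDerivAt.comp x h1)
  have hs : IsSymmSndFDerivAt ℝ α x := h.contDiffAt.isSymmSndFDerivAt (by simp; norm_cast)
  have e : dd c (dd c α) x = ∑ j, ∑ i, c j (c i (fderiv ℝ (fderiv ℝ α) x (ev j) (ev i))) := by
    rw [dd, h2.fderiv]
    simp
  have e2 : dd c (dd c α) x = -dd c (dd c α) x := by
    conv_lhs => rw [e, Finset.sum_comm]
    rw [e, ← Finset.sum_neg_distrib]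
    refine Finset.sum_congr rfl fun j _ => ?_
    rw [← Finset.sum_neg_distrib]
    refine Finset.sum_congr rfl fun i _ => ?_
    rw [ha, hs]
  rw [eq_neg_iff_add_eq_zero, ← two_smul ℝ] at e2
  simpa using e2

theorem fo_coord {f : Eu n → Eu n} (hf : ContDiff ℝ ∞ f) (k : Fin n) :
    ContDiff ℝ ∞ fun x => f x k :=
  (EuclideanSpace.proj k : Eu n →L[ℝ] ℝ).contDiff.comp hf

theorem fo_prod {f : Eu n → Eu n} (hf : ContDiff ℝ ∞ f) (k : Fin n) {W : Eu n → V}
    (hW : ContDiff ℝ ∞ W) (x : Eu n) (h0 : dd c W x = 0) :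
    dd c (fun y => f y k • W y) x = row c (fderiv ℝ f x) k (W x) := by
  have h1 : HasFDerivAt (fun y => f y k)
      ((EuclideanSpace.proj k : Eu n →L[ℝ] ℝ).comp (fderiv ℝ f x)) x :=
    (EuclideanSpace.proj k : Eu n →L[ℝ] ℝ).hasFDerivAt.comp x
      (hf.differentiable (by simp) x).hasFDerivAt
  have h2 := h1.fun_smul (hW.differentiable (by simp) x).hasFDerivAt
  rw [dd, h2.fderiv, ← zero_add (row _ _ _ _), ← smul_zero (f x k), ← h0, dd, row,
    Finset.smul_sum, ← Finset.sum_add_distrib]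
  simp

theorem fo_closed (ha : ∀ i j x, c i (c j x) = -c j (c i x)) {f : Eu n → Eu n}
    (hf : ContDiff ℝ ∞ f) (Ω : V) (I : List (Fin n)) :
    ContDiff ℝ ∞ (fun x => wg c (fderiv ℝ f x) Ω I) ∧
      ∀ x, dd c (fun x => wg c (fderiv ℝ f x) Ω I) x = 0 := by
  induction I with
  | nil => exact ⟨contDiff_const, fun x => by simp [dd, wg_nil]⟩
  | cons k I ih =>
    have e : (fun x => wg c (fderiv ℝ f x) Ω (k :: I))
        = dd c fun y => f y k • wg c (fderiv ℝ f y) Ω I :=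
      funext fun x => (fo_prod hf k ih.1 x (ih.2 x)).symm
    rw [e]
    exact ⟨fo_smooth ((fo_coord hf k).smul ih.1), fo_dd ha ((fo_coord hf k).smul ih.1)⟩

theorem form : FormStmt := by
  intro n V _ _ c Ω f I ha hf hI
  obtain ⟨k, I, rfl⟩ := List.exists_cons_of_ne_nil hI
  have h := fo_closed ha hf.1 Ω I
  exact ⟨fun y => f y k • wg c (fderiv ℝ f y) Ω I, ⟨(fo_coord hf.1 k).smul h.1,
    (hf.2.comp_left (g := fun v : Eu n => v k) rfl).smul_right⟩,
    fun x => fo_prod hf.1 k h.1 x (h.2 x)⟩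

end Pool.Agent.MP_29b5d3_an.GE
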