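import Pool.Agent.MP_29b5d3_an.GE.Spec

/-! PROJECT GE, row LEV: the level inequality in even dimension. -/

set_option autoImplicit false

open MeasureTheory Set Filter Topology
open scoped ContDiff RealInnerProductSpace

namespace Pool.Agent.MP_29b5d3_an.GE

open h48

theorem integrable_Phi {n l : ℕ} (hl : 1 ≤ l) {τ : ℝ} (hτ : 0 < τ) {f : Eu n → Eu n}
    (hf : Tst f) : Integrable fun x => Phi l τ (fderiv ℝ f x) :=
  ((continuous_Phi l hτ).comp (hf.1.continuous_fderiv (by simp))).integrable_of_hasCompactSupport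
    ((hf.2.fderiv ℝ).comp_left (g := Phi l τ)
      (Phi_of_le (by rw [norm_zero, zero_pow (by omega)]; exact hτ.le)))

theorem lev (levA : LevAStmt) (car : CarStmt) (det : DetStmt) (pt : PtStmt) (form : FormStmt) :
    LevStmt := by
  intro l hl τ hτ f hf
  obtain ⟨V, _, _, _, c, c', Ω, hc, h1, h2⟩ := car (2 * l)
  obtain ⟨Θ, hF⟩ := det _ V c c' Ω hc h1 h2
  set I := (List.finRange (2 * l)).drop l with hI
  set J := ((List.finRange (2 * l)).take l).reverse with hJ
  have lI : I.length = l := by simp [hI]; omega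
  have lJ : J.length = l := by simp [hJ]; omega
  have P := pt _ V c c' Ω Θ I J l hF (by simp [hI, hJ]) lI lJ
  have nI : I ≠ [] := fun h => by rw [h] at lI; simp at lI; omega
  have nJ : J ≠ [] := fun h => by rw [h] at lJ; simp at lJ; omega
  obtain ⟨α, a1, a2⟩ := form _ V c Ω f I hc.anti hf nI
  obtain ⟨β, b1, b2⟩ := form _ V c' Θ f J hc.symm.anti hf nJ
  refine levA _ V c c' α β τ _ hc a1 b1 hτ (integrable_Phi hl hτ hf) (fun x => ?_) fun x hx => ?_
  · rw [a2, b2, (P _).1]
    generalize fderiv ℝ f x = F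
    by_cases h0 : F = 0
    · obtain ⟨k, I', e1⟩ := List.exists_cons_of_ne_nil nI
      obtain ⟨k', J', e2⟩ := List.exists_cons_of_ne_nil nJ
      rw [← (P F).1, h0, e1, e2, wg_cons, wg_cons, row_zero, row_zero,
        Phi_of_le (by rw [norm_zero, zero_pow (by omega)]; exact hτ.le)]
      simpa using sq_nonneg τ
    have s0 : 0 < ‖F‖ ^ l := pow_pos (norm_pos_iff.2 h0) l
    have k1 := mul_le_mul_of_nonneg_left ((P F).2 h0) hτ.le
    have k2 : (‖F‖ ^ l - τ) * (F.det / ‖F‖ ^ l - τ) =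
        F.det - τ * (‖F‖ ^ l + F.det / ‖F‖ ^ l) + τ ^ 2 := by
      field_simp
      ring
    rcases le_total (‖F‖ ^ l) τ with h | h
    · have k3 : F.det / ‖F‖ ^ l ≤ ‖F‖ ^ l := by
        rw [div_le_iff₀ s0, ← pow_add, ← two_mul]
        exact (le_abs_self _).trans (det_le F)
      rw [Phi_of_le h]
      linarith [mul_nonneg_of_nonpos_of_nonpos (sub_nonpos.2 h) (sub_nonpos.2 (k3.trans h))]
    · rw [Phi, max_eq_left (sub_nonneg.2 h)]
      linarith
  · rw [a2, b2] at hx
    have k1 := (P (fderiv ℝ f x)).1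
    generalize fderiv ℝ f x = F at hx k1 ⊢
    rcases le_total (‖F‖ ^ l) τ with h | h
    · exact (Phi_of_le h).le
    have k2 : F.det ≤ τ ^ 2 := by
      have e1 := norm_add_sq_real (wg c F Ω I) (wg c' F Θ J)
      have e2 := norm_sub_sq_real (wg c F Ω I) (wg c' F Θ J)
      have e3 := pow_le_pow_left₀ (norm_nonneg _) hx 2
      nlinarith [sq_nonneg ‖wg c F Ω I - wg c' F Θ J‖]
    refine mul_nonpos_of_nonneg_of_nonpos (le_max_right _ _) (sub_nonpos.2 ?_)
    rw [div_le_iff₀ (hτ.trans_le h)]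
    nlinarith

end Pool.Agent.MP_29b5d3_an.GE
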