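import Pool.Agent.MP_29b5d3_an.GE.Spec

/-! PROJECT GE, rows LIM and CONE. -/

set_option autoImplicit false

open MeasureTheory Set Filter Topology Metric ContinuousLinearMap
open scoped ContDiff Convolution

namespace Pool.Agent.MP_29b5d3_an.GE

open h48

theorem lim_limit_le {E : Type} [NormedAddCommGroup E] [NormedSpace ℝ E] [FiniteDimensional ℝ E]
    [MeasurableSpace E] [BorelSpace E] {μ : Measure E} [μ.IsAddHaarMeasure] {F : E → E}
    {G : E → E →L[ℝ] E} {n : ℕ} (hF : Continuous F) (hc : HasCompactSupport F)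
    (hG : LocallyIntegrable G μ) (hn : Integrable (fun x => ‖G x‖ ^ n) μ) (hW : WD μ F G)
    {Ψ : (E →L[ℝ] E) → ℝ} (hΨ : Continuous Ψ) {c : ℝ} (c0 : 0 ≤ c)
    (hb : ∀ A, |Ψ A| ≤ c * ‖A‖ ^ n)
    (h0 : ∀ H : E → E, ContDiff ℝ ∞ H → HasCompactSupport H → ∫ x, Ψ (fderiv ℝ H x) ∂μ ≤ 0) :
    Integrable (fun x => Ψ (G x)) μ ∧ ∫ x, Ψ (G x) ∂μ ≤ 0 := by
  have l1 : Tendsto (fun j => (bump E j).rOut) atTop (𝓝 0) := by
    simpa [bump] using (tendsto_one_div_add_atTop_nhds_zero_nat (𝕜 := ℝ)).const_mul 2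
  have l2 : ∀ᶠ j in atTop, (bump E j).rOut ≤ 2 * (bump E j).rIn :=
    Eventually.of_forall fun j => le_rfl
  set ρ : ℕ → E → ℝ := fun j => (bump E j).normed μ with hρ
  have ρ1 : ∀ j, ContDiff ℝ ((⊤ : ℕ∞) : WithTop ℕ∞) (ρ j) := fun j => (bump E j).contDiff_normed
  have ρ2 : ∀ j, HasCompactSupport (ρ j) := fun j => (bump E j).hasCompactSupport_normed
  have ρ3 : ∀ j x, 0 ≤ ρ j x := fun j => (bump E j).nonneg_normed
  have ρ4 : ∀ j, ∫ x, ρ j x ∂μ = 1 := fun j => (bump E j).integral_normed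
  have ρ5 : ∀ j, Integrable (ρ j) μ := fun j => (bump E j).integrable_normed
  have ρ6 : ∀ j x, ∫ t, ρ j (x - t) ∂μ = 1 := fun j x => by
    rw [integral_sub_left_eq_self, ρ4]
  have ρ7 : ∀ j x, Integrable (fun t => ρ j (x - t)) μ := fun j x => (ρ5 j).comp_sub_left x
  have lF := hF.locallyIntegrable (μ := μ)
  have lG : LocallyIntegrable (fun t => ‖G t‖) μ := fun x => (hG x).norm
  have d1 : ∀ j, ContDiff ℝ ∞ (ρ j ⋆[lsmul ℝ ℝ, μ] F) := fun j =>
    (ρ2 j).contDiff_convolution_left (n := ⊤) _ (ρ1 j) lF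
  have d2 : ∀ j x, fderiv ℝ (ρ j ⋆[lsmul ℝ ℝ, μ] F) x = (ρ j ⋆[lsmul ℝ ℝ, μ] G) x := fun j x =>
    (hasFDerivAt_conv (ρ1 j) (ρ2 j) lF hG hW x).fderiv
  have d4 : ∀ j x, ‖(ρ j ⋆[lsmul ℝ ℝ, μ] G) x‖ ^ n ≤
      (ρ j ⋆[lsmul ℝ ℝ, μ] fun t => ‖G t‖ ^ n) x := fun j x => by
    have i1 := convolutionExistsAt_iff_integrable_swap.1
      ((ρ2 j).convolutionExists_left (lsmul ℝ ℝ) (ρ1 j).continuous lG x)
    have i2 := convolutionExistsAt_iff_integrable_swap.1
      ((ρ2 j).convolutionExists_left (lsmul ℝ ℝ) (ρ1 j).continuous hn.locallyIntegrable x)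
    rw [convolution_lsmul_swap, convolution_lsmul_swap]
    refine le_trans (pow_le_pow_left₀ (norm_nonneg _) ?_ n)
      (jensen_pow (fun t => ρ3 j _) (fun t => norm_nonneg (G t)) (ρ7 j x) (ρ6 j x) i1 i2)
    refine norm_integral_le_of_norm_le i1 (Eventually.of_forall fun t => ?_)
    rw [norm_smul, Real.norm_of_nonneg (ρ3 _ _)]
  have iH : ∀ j, Integrable (ρ j ⋆[lsmul ℝ ℝ, μ] fun t => ‖G t‖ ^ n) μ := fun j =>
    (ρ5 j).integrable_convolution _ hn
  have key := pratt (μ := μ)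
    (a := fun j x => Ψ (fderiv ℝ (ρ j ⋆[lsmul ℝ ℝ, μ] F) x))
    (H := fun j x => c * (ρ j ⋆[lsmul ℝ ℝ, μ] fun t => ‖G t‖ ^ n) x)
    (a0 := fun x => Ψ (G x)) (H0 := fun x => c * ‖G x‖ ^ n)
    (fun j => (hΨ.comp ((d1 j).continuous_fderiv (by simp))).aestronglyMeasurable)
    (fun j => (iH j).const_mul c) (hn.const_mul c)
    (fun j x => (hb _).trans (by rw [d2]; exact mul_le_mul_of_nonneg_left (d4 j x) c0))
    (by
      filter_upwards [ContDiffBump.ae_convolution_tendsto_right_of_locallyIntegrable l1 l2 hG]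
        with x hx
      simp only [d2]
      exact (hΨ.tendsto _).comp hx)
    (by
      filter_upwards [ContDiffBump.ae_convolution_tendsto_right_of_locallyIntegrable l1 l2
        hn.locallyIntegrable] with x hx
      exact hx.const_mul c)
    (by
      refine tendsto_const_nhds.congr fun j => ?_
      rw [integral_const_mul, integral_const_mul, integral_convolution _ (ρ5 j) hn, ρ4]
      simp)
  exact ⟨key.1, le_of_tendsto' key.2 fun j => h0 _ (d1 j) ((ρ2 j).convolution _ hc)⟩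

theorem lim : LimStmt := by
  intro n Ψ c F G hΨ hq c0 hb h
  have hn := h.int
  rw [finrank_euclideanSpace_fin] at hn
  exact lim_limit_le h.cont h.supp h.loc hn h.weak hΨ c0 hb fun H h1 h2 => hq H ⟨h1, h2⟩

theorem lim_det_smul {n : ℕ} (s : ℝ) (A : Mt n) : (s • A).det = s ^ n * A.det := by
  rw [ContinuousLinearMap.det, ContinuousLinearMap.toLinearMap_smul, LinearMap.det_smul,
    finrank_euclideanSpace_fin]

theorem cone : ConeStmt := by
  intro n K K' hK hKK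
  have hdet : Continuous fun A : Mt n => A.det := ContinuousLinearMap.continuous_det
  have hQ : IsCompact (sphere (0 : Mt n) 1 ∩ {A | 1 ≤ K * A.det}) :=
    (isCompact_sphere _ _).inter_right (isClosed_le continuous_const (hdet.const_mul K))
  have hU : IsOpen {A : Mt n | ‖A‖ ^ n < K' * A.det} :=
    isOpen_lt (by fun_prop) (hdet.const_mul K')
  obtain ⟨δ, δ0, hδ⟩ := hQ.exists_cthickening_subset_open hU (by
    rintro A ⟨h1, h2⟩
    have h1' : ‖A‖ = 1 := by simpa using h1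
    have h2' : 1 ≤ K * A.det := h2
    have h3 : 0 < A.det := (mul_pos_iff_of_pos_left hK).1 (by linarith)
    show ‖A‖ ^ n < K' * A.det
    rw [h1', one_pow]
    nlinarith)
  refine ⟨δ, δ0, fun A R hA hR => ?_⟩
  rcases eq_or_ne A 0 with rfl | h0
  · have : R = 0 := by simpa using hR
    subst this
    rw [add_zero]
    have h1 : 0 ≤ (0 : Mt n).det :=
      le_of_mul_le_mul_left (by rw [mul_zero]; exact le_trans (by positivity) hA) hK
    exact hA.trans (mul_le_mul_of_nonneg_right hKK.le h1)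
  · have a0 : 0 < ‖A‖ := norm_pos_iff.2 h0
    have an : 0 < ‖A‖ ^ n := pow_pos a0 n
    have hB : ‖A‖⁻¹ • A ∈ sphere (0 : Mt n) 1 ∩ {A | 1 ≤ K * A.det} := by
      refine ⟨by simp [norm_smul, a0.ne'], ?_⟩
      show 1 ≤ K * (‖A‖⁻¹ • A).det
      rw [lim_det_smul, inv_pow, mul_left_comm, le_inv_mul_iff₀ an, mul_one]
      exact hA
    have hC : ‖A‖⁻¹ • (A + R) ∈ cthickening δ (sphere (0 : Mt n) 1 ∩ {A | 1 ≤ K * A.det}) := by
      refine mem_cthickening_of_dist_le _ _ δ _ hB ?_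
      rw [dist_eq_norm, smul_add, add_sub_cancel_left, norm_smul, norm_inv, norm_norm,
        inv_mul_le_iff₀ a0, mul_comm]
      exact hR
    have h : ‖‖A‖⁻¹ • (A + R)‖ ^ n < K' * (‖A‖⁻¹ • (A + R)).det := hδ hC
    rw [lim_det_smul, norm_smul, norm_inv, norm_norm, mul_pow, mul_left_comm] at h
    exact (lt_of_mul_lt_mul_left h (by positivity)).le

end Pool.Agent.MP_29b5d3_an.GE
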