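import Pool.Agent.MP_29b5d3_an.GE.Spec

/-! PROJECT GE: integration of the level functions over the levels. -/

set_option autoImplicit false

open MeasureTheory Set Filter Topology
open scoped ContDiff RealInnerProductSpace

namespace Pool.Agent.MP_29b5d3_an.GE

open h48

theorem ml_det {l : ℕ} (A : Mt (2 * l)) : |A.det| ≤ (‖A‖ ^ l) ^ 2 := by
  rw [← pow_mul, mul_comm l 2]; exact det_le A

theorem ml_abs {l : ℕ} {τ : ℝ} (hτ : 0 < τ) (A : Mt (2 * l)) :
    |Phi l τ A| ≤ 2 * (‖A‖ ^ l) ^ 2 := by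
  rcases le_or_gt (‖A‖ ^ l) τ with h | h
  · rw [Phi_of_le h, abs_zero]; positivity
  have h0 : 0 < ‖A‖ ^ l := hτ.trans h
  have h1 : |A.det / ‖A‖ ^ l| ≤ ‖A‖ ^ l := by
    rw [abs_div, abs_of_pos h0, div_le_iff₀ h0, ← pow_two]; exact ml_det A
  have h2 : |A.det / ‖A‖ ^ l - τ| ≤ 2 * ‖A‖ ^ l := by
    rw [abs_le] at h1 ⊢
    constructor <;> linarith [h1.1, h1.2]
  rw [Phi, max_eq_left (sub_nonneg.2 h.le), abs_mul, abs_of_pos (sub_pos.2 h)]
  calc (‖A‖ ^ l - τ) * |A.det / ‖A‖ ^ l - τ| ≤ ‖A‖ ^ l * (2 * ‖A‖ ^ l) :=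
        mul_le_mul (by linarith) h2 (abs_nonneg _) h0.le
    _ = 2 * (‖A‖ ^ l) ^ 2 := by ring

theorem ml_norm {l : ℕ} {τ : ℝ} (q : ℝ) (hτ : 0 < τ) (A : Mt (2 * l)) :
    ‖Phi l τ A * τ ^ (q - 1)‖ ≤ 2 * (‖A‖ ^ l) ^ 2 * τ ^ (q - 1) := by
  have h := Real.rpow_nonneg hτ.le (q - 1)
  rw [Real.norm_eq_abs, abs_mul, abs_of_nonneg h]
  exact mul_le_mul_of_nonneg_right (ml_abs hτ A) h

theorem ml_int {q : ℝ} (hq : 0 < q) {S : ℝ} (hS : 0 < S) :
    Integrable (fun τ : ℝ => τ ^ (q - 1)) (volume.restrict (Ioc 0 S)) :=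
  (intervalIntegrable_iff_integrableOn_Ioc_of_le hS.le).1
    (intervalIntegral.intervalIntegrable_rpow' (by linarith))

theorem ml_meas {X : Type} [MeasurableSpace X] {n : ℕ} (l : ℕ) (q : ℝ) {a b t : X → ℝ}
    {F : X → Mt n} (ha : Measurable a) (hb : Measurable b) (ht : Measurable t)
    (ea : ∀ x, ‖F x‖ = a x) (eb : ∀ x, (F x).det = b x) :
    Measurable fun x => Phi l (t x) (F x) * t x ^ (q - 1) := by
  simp only [Phi, ea, eb]
  exact ((((ha.pow_const l).sub ht).max measurable_const).mul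
    ((hb.div (ha.pow_const l)).sub ht)).mul (ht.pow_const _)

theorem ml_cont {l : ℕ} {q S : ℝ} (hq : 0 < q) (hS : 0 < S) :
    Continuous fun A : Mt (2 * l) => ∫ τ in Ioc 0 S, Phi l τ A * τ ^ (q - 1) := by
  refine continuous_iff_continuousAt.2 fun A₀ => ?_
  refine continuousAt_of_dominated
    (bound := fun τ => 2 * ((‖A₀‖ + 1) ^ l) ^ 2 * τ ^ (q - 1)) ?_ ?_ ?_ ?_
  · exact Eventually.of_forall fun A => (ml_meas l q (F := fun _ : ℝ => A) (t := fun τ => τ)
      measurable_const measurable_const measurable_id (fun _ => rfl)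
      fun _ => rfl).aestronglyMeasurable
  · filter_upwards [continuous_norm.continuousAt.eventually_lt continuousAt_const
      (lt_add_one ‖A₀‖)] with A hA
    filter_upwards [ae_restrict_mem measurableSet_Ioc] with τ hτ
    refine (ml_norm q hτ.1 A).trans ?_
    have h := Real.rpow_nonneg hτ.1.le (q - 1)
    gcongr
  · exact (ml_int hq hS).const_mul _
  · filter_upwards [ae_restrict_mem measurableSet_Ioc] with τ hτ
    exact ((continuous_Phi l hτ.1).mul continuous_const).continuousAt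

theorem ml_qc {l : ℕ} (hl : 1 ≤ l) {q S : ℝ} (hq : 0 < q) (hS : 0 < S)
    (h : ∀ τ : ℝ, 0 < τ → QC (Phi (n := 2 * l) l τ)) :
    QC fun A : Mt (2 * l) => ∫ τ in Ioc 0 S, Phi l τ A * τ ^ (q - 1) := by
  intro f hf
  have hc : Continuous (fderiv ℝ f) := hf.1.continuous_fderiv (by simp)
  have hs : HasCompactSupport fun x => 2 * (‖fderiv ℝ f x‖ ^ l) ^ 2 :=
    (hf.2.fderiv ℝ).comp_left (g := fun A : Mt (2 * l) => 2 * (‖A‖ ^ l) ^ 2)
      (by simp [show l ≠ 0 by omega])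
  have hi : Integrable fun x => 2 * (‖fderiv ℝ f x‖ ^ l) ^ 2 :=
    Continuous.integrable_of_hasCompactSupport (by fun_prop) hs
  have hm : Measurable fun z : Eu (2 * l) × ℝ => Phi l z.2 (fderiv ℝ f z.1) * z.2 ^ (q - 1) :=
    ml_meas l q (F := fun z : Eu (2 * l) × ℝ => fderiv ℝ f z.1) (t := fun z => z.2)
      (hc.norm.measurable.comp measurable_fst)
      ((ContinuousLinearMap.continuous_det.comp hc).measurable.comp measurable_fst)
      measurable_snd (fun _ => rfl) fun _ => rfl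
  have hp : Integrable (Function.uncurry fun (x : Eu (2 * l)) (τ : ℝ) =>
      Phi l τ (fderiv ℝ f x) * τ ^ (q - 1)) (volume.prod (volume.restrict (Ioc 0 S))) := by
    refine (hi.mul_prod (ml_int hq hS)).mono' hm.aestronglyMeasurable ?_
    filter_upwards [(Measure.quasiMeasurePreserving_snd (μ := (volume : Measure (Eu (2 * l))))
      (ν := volume.restrict (Ioc (0 : ℝ) S))).ae (ae_restrict_mem measurableSet_Ioc)] with z hz
    exact ml_norm q hz.1 _
  show ∫ x, ∫ τ in Ioc 0 S, Phi l τ (fderiv ℝ f x) * τ ^ (q - 1) ≤ 0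
  rw [integral_integral_swap hp]
  refine setIntegral_nonpos measurableSet_Ioc fun τ hτ => ?_
  rw [integral_mul_const]
  exact mul_nonpos_of_nonpos_of_nonneg (h τ hτ.1 f hf) (Real.rpow_nonneg hτ.1.le _)

theorem mel (m1 : Mel1Stmt) : MelStmt := by
  rintro n l rfl hl hQ K p hK hp1 hp2
  have hl0 : (0 : ℝ) < l := by exact_mod_cast hl
  push_cast at hp1 hp2
  set q : ℝ := (p - 2 * l) / l with hqd
  have hq : 0 < q := div_pos (sub_pos.2 hp1) hl0
  have hpq : p = l * q + l * 2 := by rw [hqd]; field_simp; ring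
  have hqK : q * (K - 1) < 2 := by
    rw [lt_div_iff₀ (sub_pos.2 hK), hpq] at hp2
    by_contra h
    nlinarith [mul_le_mul_of_nonneg_left (not_lt.1 h) hl0.le]
  obtain ⟨κ, C, hκ, hC, hm⟩ := m1 q K hq hK hqK
  have pw : ∀ A : Mt (2 * l), ‖A‖ ^ p = (‖A‖ ^ l) ^ 2 * (‖A‖ ^ l) ^ q := fun A => by
    have h0 := norm_nonneg A
    have h1 : (l : ℝ) * q + l * 2 ≠ 0 := by positivity
    rw [hpq, Real.rpow_add' h0 h1, Real.rpow_mul h0, Real.rpow_mul h0, Real.rpow_natCast,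
      Real.rpow_two, mul_comm]
  have pn : ∀ A : Mt (2 * l), ‖A‖ ^ (2 * l) = (‖A‖ ^ l) ^ 2 := fun A => by
    rw [← pow_mul, mul_comm l 2]
  refine ⟨κ, C, hκ, hC, fun T hT => ?_⟩
  have hS : 0 < T ^ l := pow_pos hT l
  have hA := fun A : Mt (2 * l) => hm (T ^ l) (‖A‖ ^ l) A.det hS (by positivity) (ml_det A)
  have m0 : ∀ A : Mt (2 * l), 0 ≤ min (‖A‖ ^ l) (T ^ l) := fun A => le_min (by positivity) hS.le
  refine ⟨fun A => ∫ τ in Ioc 0 (T ^ l), Phi l τ A * τ ^ (q - 1), ml_cont hq hS,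
    ml_qc hl hq hS hQ, ⟨C * (T ^ l) ^ q, by positivity, fun A => (hA A).1.trans ?_⟩,
    fun A => le_trans (neg_le_neg ?_) (neg_le_of_abs_le (hA A).1), fun A hc => ?_⟩
  · rw [pn, mul_assoc, mul_comm ((T ^ l) ^ q)]
    have := Real.rpow_le_rpow (m0 A) (min_le_right _ _) hq.le
    gcongr
  · rw [pw]
    have := Real.rpow_le_rpow (m0 A) (min_le_left _ _) hq.le
    gcongr
  · rw [pn] at hc
    have h := (hA A).2 hc
    refine ⟨le_trans ?_ h, fun hT' => le_trans (le_of_eq ?_) h⟩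
    · have := Real.rpow_nonneg (m0 A) q
      positivity
    · rw [pw, min_eq_left (pow_le_pow_left₀ (norm_nonneg A) hT' l)]

end Pool.Agent.MP_29b5d3_an.GE
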