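import Pool.Agent.MP_29b5d3_an.GE.Spec

/-! PROJECT GE, row MEL1: the scalar integral over the levels. -/

set_option autoImplicit false

open MeasureTheory Set

namespace Pool.Agent.MP_29b5d3_an.GE

namespace Mel1

theorem val {q T σ : ℝ} (J : ℝ) (hq : 0 < q) (hT : 0 < T) (hσ : 0 < σ) :
    ∫ τ in Ioc 0 T, max (σ - τ) 0 * (J / σ - τ) * τ ^ (q - 1) =
      σ ^ 2 * min σ T ^ q * (J / σ ^ 2 * q⁻¹ - (1 + J / σ ^ 2) * (min σ T / σ) * (q + 1)⁻¹ +
        (min σ T / σ) ^ 2 * (q + 2)⁻¹) := by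
  have h0 : 0 < min σ T := lt_min hσ hT
  have h1 : min σ T ≤ σ := min_le_left _ _
  rw [setIntegral_eq_of_subset_of_forall_sdiff_eq_zero measurableSet_Ioc
    (Ioc_subset_Ioc_right (min_le_right σ T)) (fun τ hτ => by
      have h2 : min σ T < τ := lt_of_not_ge fun h => hτ.2 ⟨hτ.1.1, h⟩
      have h3 : σ < τ := (min_lt_iff.1 h2).resolve_right (not_lt.2 hτ.1.2)
      rw [max_eq_right (by linarith), zero_mul, zero_mul])]
  generalize min σ T = μ at h0 h1 ⊢
  have e : ∀ τ ∈ Ioc 0 μ, max (σ - τ) 0 * (J / σ - τ) * τ ^ (q - 1) =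
      J * τ ^ (q - 1) - (σ + J / σ) * τ ^ q + τ ^ (q + 1) := fun τ hτ => by
    have h2 : τ ^ q = τ ^ (q - 1) * τ := by rw [← Real.rpow_add_one hτ.1.ne', sub_add_cancel]
    rw [max_eq_left (by linarith [hτ.2]), Real.rpow_add_one hτ.1.ne', h2]
    field_simp
    ring
  have i1 := intervalIntegral.intervalIntegrable_rpow' (a := 0) (b := μ) (r := q - 1) (by linarith)
  have i2 := intervalIntegral.intervalIntegrable_rpow' (a := 0) (b := μ) (r := q) (by linarith)
  have i3 := intervalIntegral.intervalIntegrable_rpow' (a := 0) (b := μ) (r := q + 1) (by linarith)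
  rw [setIntegral_congr_fun measurableSet_Ioc e, ← intervalIntegral.integral_of_le h0.le,
    intervalIntegral.integral_add ((i1.const_mul J).sub (i2.const_mul _)) i3,
    intervalIntegral.integral_sub (i1.const_mul J) (i2.const_mul _),
    intervalIntegral.integral_const_mul, intervalIntegral.integral_const_mul,
    integral_rpow (Or.inl (by linarith)), integral_rpow (Or.inl (by linarith)),
    integral_rpow (Or.inl (by linarith)), sub_add_cancel, Real.zero_rpow hq.ne',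
    Real.zero_rpow (by linarith), Real.zero_rpow (by linarith), Real.rpow_add_one h0.ne',
    Real.rpow_add_one h0.ne', Real.rpow_add_one h0.ne', show q + 1 + 1 = q + 2 by ring]
  field_simp
  ring

end Mel1

theorem mel1 : Mel1Stmt := by
  intro q K hq hK hqK
  have hK0 : 0 < K := by linarith
  have a0 : 0 < q⁻¹ := by positivity
  have b0 : 0 < (q + 1)⁻¹ := by positivity
  have c0 : 0 < (q + 2)⁻¹ := by positivity
  have ab : (q + 1)⁻¹ ≤ q⁻¹ := inv_anti₀ hq (by linarith)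
  have hκ : K⁻¹ * q⁻¹ - (1 + K⁻¹) * (q + 1)⁻¹ + (q + 2)⁻¹ =
      (q + 2 - K * q) / (K * q * (q + 1) * (q + 2)) := by
    field_simp
    ring
  have bc : (1 + K⁻¹) * (q + 1)⁻¹ - 2 * (q + 2)⁻¹ = (q + 2 - K * q) / (K * (q + 1) * (q + 2)) := by
    field_simp
    ring
  have hd : 0 < q + 2 - K * q := by linarith
  have bc' : 0 ≤ (1 + K⁻¹) * (q + 1)⁻¹ - 2 * (q + 2)⁻¹ := by
    rw [bc]
    positivity
  refine ⟨K⁻¹ * q⁻¹ - (1 + K⁻¹) * (q + 1)⁻¹ + (q + 2)⁻¹, q⁻¹ + 2 * (q + 1)⁻¹ + (q + 2)⁻¹,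
    by rw [hκ]; positivity, by positivity, fun T σ J hT hσ hJ => ?_⟩
  rcases hσ.eq_or_lt with rfl | hσ
  · have e : ∫ τ in Ioc 0 T, max ((0 : ℝ) - τ) 0 * (J / 0 - τ) * τ ^ (q - 1) = 0 :=
      setIntegral_eq_zero_of_forall_eq_zero fun τ hτ => by
        rw [max_eq_right (by linarith [hτ.1]), zero_mul, zero_mul]
    rw [e]
    simp
  have h0 : 0 < min σ T := lt_min hσ hT
  have hP : 0 < σ ^ 2 * min σ T ^ q := by positivity
  have u0 : 0 < min σ T / σ := by positivity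
  have u1 : min σ T / σ ≤ 1 := (div_le_one hσ).2 (min_le_left _ _)
  have j1 : |J / σ ^ 2| ≤ 1 := by
    rw [abs_div, abs_of_pos (by positivity : 0 < σ ^ 2)]
    exact (div_le_one (by positivity)).2 hJ
  have j2 : σ ^ 2 ≤ K * J → K⁻¹ ≤ J / σ ^ 2 := fun h => by
    rw [le_div_iff₀ (by positivity), inv_mul_le_iff₀ hK0]
    exact h
  rw [Mel1.val J hq hT hσ]
  generalize σ ^ 2 * min σ T ^ q = P at hP ⊢
  generalize min σ T / σ = u at u0 u1 ⊢
  generalize J / σ ^ 2 = j at j1 j2 ⊢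
  generalize q⁻¹ = a at a0 ab ⊢
  generalize (q + 1)⁻¹ = b at b0 ab bc' ⊢
  generalize (q + 2)⁻¹ = c at c0 bc' ⊢
  obtain ⟨j3, j4⟩ := abs_le.1 j1
  constructor
  · rw [abs_mul, abs_of_pos hP, mul_comm]
    refine mul_le_mul_of_nonneg_right (abs_le.2 ?_) hP.le
    have p1 : 0 ≤ (1 + j) * u := mul_nonneg (by linarith) u0.le
    have p2 : (1 + j) * u ≤ 2 := by nlinarith
    have p3 : u ^ 2 ≤ 1 := by nlinarith
    constructor <;> nlinarith [mul_nonneg p1 b0.le, mul_nonneg (sq_nonneg u) c0.le]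
  · intro h
    rw [mul_comm]
    refine mul_le_mul_of_nonneg_left ?_ hP.le
    have p1 : 0 ≤ a - u * b := by nlinarith
    have p2 : 0 ≤ (1 + K⁻¹) * b - (1 + u) * c := by nlinarith
    nlinarith [mul_nonneg (sub_nonneg.2 (j2 h)) p1, mul_nonneg (sub_nonneg.2 u1) p2]

end Pool.Agent.MP_29b5d3_an.GE
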