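import Pool.Agent.MP_29b5d3_an.GE.Spec

/-! PROJECT GE, row PT: the pointwise inequality. -/

set_option autoImplicit false

open Set
open scoped RealInnerProductSpace

namespace Pool.Agent.MP_29b5d3_an.GE

open h48

section

variable {n : ℕ} {V : Type} [NormedAddCommGroup V] [InnerProductSpace ℝ V]
  {c c' : Fin n → V →L[ℝ] V}

/-- exterior multiplication by a covector -/
noncomputable def pt_cv (c : Fin n → V →L[ℝ] V) (a : Fin n → ℝ) : V →L[ℝ] V := ∑ i, a i • c i

theorem pt_cv_apply (a : Fin n → ℝ) (w : V) : pt_cv c a w = ∑ i, a i • c i w := by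
  simp [pt_cv]

theorem pt_row (F : Mt n) (k : Fin n) (w : V) :
    row c F k w = pt_cv c (fun i => F (ev i) k) w := by
  rw [pt_cv_apply]; rfl

theorem pt_comp (d d' : Fin n → V →L[ℝ] V) (a b : Fin n → ℝ) (w : V) :
    pt_cv d a (pt_cv d' b w) = ∑ i, ∑ j, (a i * b j) • d i (d' j w) := by
  rw [pt_cv_apply]
  refine Finset.sum_congr rfl fun i _ => ?_
  rw [pt_cv_apply, map_sum, Finset.smul_sum]
  refine Finset.sum_congr rfl fun j _ => ?_
  rw [map_smul, smul_smul]

theorem pt_anti (h : Car c c') (a b : Fin n → ℝ) (w : V) :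
    pt_cv c a (pt_cv c b w) = -pt_cv c b (pt_cv c a w) := by
  rw [pt_comp, pt_comp, Finset.sum_comm, ← Finset.sum_neg_distrib]
  refine Finset.sum_congr rfl fun i _ => ?_
  rw [← Finset.sum_neg_distrib]
  refine Finset.sum_congr rfl fun j _ => ?_
  rw [h.anti j i, smul_neg, mul_comm]

theorem pt_sq (h : Car c c') (a : Fin n → ℝ) (w : V) : pt_cv c a (pt_cv c a w) = 0 := by
  have := pt_anti h a a w
  rw [eq_neg_iff_add_eq_zero, ← two_smul ℝ] at this
  simpa using this

theorem pt_adj (h : Car c c') (a : Fin n → ℝ) (x y : V) :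
    ⟪pt_cv c a x, y⟫ = ⟪x, pt_cv c' a y⟫ := by
  rw [pt_cv_apply, pt_cv_apply, sum_inner, inner_sum]
  refine Finset.sum_congr rfl fun i _ => ?_
  rw [real_inner_smul_left, real_inner_smul_right, h.adj]

theorem pt_car (h : Car c c') (a : Fin n → ℝ) (w : V) :
    pt_cv c a (pt_cv c' a w) + pt_cv c' a (pt_cv c a w) = (∑ i, a i ^ 2) • w := by
  rw [pt_comp, pt_comp, Finset.sum_comm (f := fun i j => (a i * a j) • c' i (c j w)),
    ← Finset.sum_add_distrib, Finset.sum_smul]
  refine Finset.sum_congr rfl fun i _ => ?_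
  rw [← Finset.sum_add_distrib]
  have : ∀ j, (a i * a j) • c i (c' j w) + (a j * a i) • c' j (c i w)
      = if i = j then (a i * a j) • w else 0 := fun j => by
    rw [mul_comm (a j), ← smul_add, h.car]
    split_ifs <;> simp
  simp only [this, Finset.sum_ite_eq, Finset.mem_univ, if_true, pow_two]

theorem pt_norm (h : Car c c') (a : Fin n → ℝ) (ha : ∑ i, a i ^ 2 ≤ 1) (w : V) :
    ‖pt_cv c a w‖ ≤ ‖w‖ := by
  have e := congrArg (fun y => ⟪w, y⟫) (pt_car h a w)
  simp only [inner_add_right, real_inner_smul_right] at e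
  rw [← pt_adj h, ← pt_adj h.symm, real_inner_self_eq_norm_sq, real_inner_self_eq_norm_sq,
    real_inner_self_eq_norm_sq] at e
  refine (abs_le_of_sq_le_sq' ?_ (norm_nonneg w)).2
  nlinarith [sq_nonneg ‖pt_cv c' a w‖, sq_nonneg ‖w‖]

theorem pt_iso_row (F : Mt n) (hF : ∀ v, ‖F v‖ = ‖v‖) (k : Fin n) :
    ∑ i, F (ev i) k ^ 2 ≤ 1 := by
  set a : Eu n := WithLp.toLp 2 fun i => F (ev i) k with ha
  have h1 : ‖a‖ ^ 2 = ∑ i, F (ev i) k ^ 2 := by
    rw [EuclideanSpace.real_norm_sq_eq]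
  have h2 : a = ∑ i, a i • ev i := by
    ext j
    simp [ev, Finset.sum_apply, Pi.single_apply]
  have h3 : F a k = ∑ i, F (ev i) k ^ 2 := by
    conv_lhs => rw [h2]
    simp [ha, pow_two, Finset.sum_apply]
  have h4 : F a k ≤ ‖a‖ := by
    rw [← hF a]
    exact (le_abs_self _).trans (by simpa using PiLp.norm_apply_le (F a) k)
  rw [← h1]
  rw [h3, ← h1] at h4
  nlinarith [norm_nonneg a]

theorem pt_iso_wg (h : Car c c') (F : Mt n) (hF : ∀ v, ‖F v‖ = ‖v‖) (Ω : V)
    (I : List (Fin n)) : ‖wg c F Ω I‖ ≤ ‖Ω‖ := by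
  induction I with
  | nil => exact le_rfl
  | cons k I ih => rw [wg_cons, pt_row]; exact (pt_norm h _ (pt_iso_row F hF k) _).trans ih

theorem pt_pair (h : Car c c') (F : Mt n) (Θ : V) (J : List (Fin n)) (X : V) :
    ⟪X, wg c' F Θ J⟫ = ⟪wg c F X J.reverse, Θ⟫ := by
  induction J generalizing X with
  | nil => rfl
  | cons k J ih =>
    rw [wg_cons, pt_row, ← pt_adj h, ih, List.reverse_cons, wg_append, wg_cons, wg_nil, pt_row]

theorem pt_rank (h : Car c c') (F : Mt n) (u v : Eu n) (Ω : V) (I : List (Fin n)) :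
    ∃ Z : V, ∀ t : ℝ, wg c (F + t • (innerSL ℝ v).smulRight u) Ω I
      = wg c F Ω I + t • pt_cv c (fun i => v i) Z := by
  have hr : ∀ (t : ℝ) (k : Fin n) (w : V), row c (F + t • (innerSL ℝ v).smulRight u) k w
      = row c F k w + (t * u k) • pt_cv c (fun i => v i) w := fun t k w => by
    rw [pt_cv_apply, row, row, Finset.smul_sum, ← Finset.sum_add_distrib]
    refine Finset.sum_congr rfl fun i _ => ?_
    rw [smul_smul, ← add_smul]
    congr 1
    simp [ev, EuclideanSpace.inner_single_right]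
    ring
  induction I with
  | nil => exact ⟨0, fun t => by simp [wg_nil]⟩
  | cons k I ih =>
    obtain ⟨Z, hZ⟩ := ih
    refine ⟨u k • wg c F Ω I - row c F k Z, fun t => ?_⟩
    rw [wg_cons, wg_cons, hr, hZ, pt_row, pt_row, pt_row]
    simp only [map_add, map_smul, map_sub, pt_sq h]
    rw [pt_anti h (fun i => F (ev i) k) (fun i => v i) Z]
    module

theorem pt_scale (F : Mt n) (s : ℝ) (Ω : V) (I : List (Fin n)) :
    wg c (s • F) Ω I = s ^ I.length • wg c F Ω I := by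
  induction I with
  | nil => simp [wg_nil]
  | cons k I ih =>
    rw [wg_cons, wg_cons, ih, row, row, Finset.smul_sum]
    refine Finset.sum_congr rfl fun i _ => ?_
    simp only [map_smul, smul_smul, List.length_cons, smul_apply,
      PiLp.smul_apply, smul_eq_mul]
    congr 1
    ring

theorem pt_iso_det (F : Mt n) (hF : ∀ v, ‖F v‖ = ‖v‖) : |F.det| = 1 := by
  let L : Eu n →ₗᵢ[ℝ] Eu n := ⟨(F : Eu n →ₗ[ℝ] Eu n), hF⟩
  have := L.normDet_eq_one
  rwa [LinearMap.normDet_eq_abs_det] at this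

end

theorem pt (ball : BallStmt) : PtStmt := by
  intro n V _ _ c c' Ω Θ I J l hF hIJ hI hJ
  have h := hF.car
  have h1 : ∀ F : Mt n, ⟪wg c F Ω I, wg c' F Θ J⟫ = F.det := fun F => by
    rw [pt_pair h, ← wg_append, hIJ, hF.det]
  have h2 : ∀ F : Mt n, ‖F‖ ≤ 1 → ‖wg c F Ω I + wg c' F Θ J‖ ≤ 1 + F.det := by
    refine ball n {F | ‖wg c F Ω I + wg c' F Θ J‖ ≤ 1 + F.det} (fun F hiso => ?_)
      (fun F u v => ?_)
    · have a1 := (pt_iso_wg h F hiso Ω I).trans hF.n1.le
      have a2 := (pt_iso_wg h.symm F hiso Θ J).trans hF.n2.le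
      have a3 := norm_add_sq_real (wg c F Ω I) (wg c' F Θ J)
      rw [h1] at a3
      have a4 : ‖wg c F Ω I‖ ^ 2 ≤ 1 := pow_le_one₀ (norm_nonneg _) a1
      have a5 : ‖wg c' F Θ J‖ ^ 2 ≤ 1 := pow_le_one₀ (norm_nonneg _) a2
      show ‖wg c F Ω I + wg c' F Θ J‖ ≤ 1 + F.det
      rcases (abs_eq zero_le_one).1 (pt_iso_det F hiso) with e | e
      · rw [e]; linarith [norm_add_le (wg c F Ω I) (wg c' F Θ J)]
      · rw [e] at a3 ⊢
        nlinarith [norm_nonneg (wg c F Ω I + wg c' F Θ J)]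
    · obtain ⟨Z1, e1⟩ := pt_rank h F u v Ω I
      obtain ⟨Z2, e2⟩ := pt_rank h.symm F u v Θ J
      obtain ⟨Z3, e3⟩ := pt_rank h F u v Ω (List.finRange n)
      intro s hs t ht a b ha hb hab
      simp only [mem_ofPred_eq, ← hF.det, e1, e2, e3, inner_add_left, real_inner_smul_left,
        smul_eq_mul] at hs ht ⊢
      set P1 := wg c F Ω I
      set P2 := wg c' F Θ J
      set Q1 := pt_cv c (fun i => v i) Z1
      set Q2 := pt_cv c' (fun i => v i) Z2
      have e : P1 + (a * s + b * t) • Q1 + (P2 + (a * s + b * t) • Q2)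
          = a • (P1 + s • Q1 + (P2 + s • Q2)) + b • (P1 + t • Q1 + (P2 + t • Q2)) := by
        have hb' : b = 1 - a := by linarith
        rw [hb']
        module
      rw [e]
      refine (norm_add_le _ _).trans ?_
      rw [norm_smul, norm_smul, Real.norm_of_nonneg ha, Real.norm_of_nonneg hb]
      have := mul_le_mul_of_nonneg_left hs ha
      have := mul_le_mul_of_nonneg_left ht hb
      have hb' : b = 1 - a := by linarith
      subst hb'
      nlinarith
  refine fun F => ⟨h1 F, fun h0 => ?_⟩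
  have hs : 0 < ‖F‖ := norm_pos_iff.2 h0
  set G : Mt n := ‖F‖⁻¹ • F with hG
  have hG1 : ‖G‖ ≤ 1 := by
    rw [hG, norm_smul, norm_inv, norm_norm, inv_mul_cancel₀ hs.ne']
  have hFG : F = ‖F‖ • G := by rw [hG, smul_smul, mul_inv_cancel₀ hs.ne', one_smul]
  have hp : 0 < ‖F‖ ^ l := pow_pos hs l
  have b1 : wg c F Ω I = ‖F‖ ^ l • wg c G Ω I := by
    conv_lhs => rw [hFG, pt_scale, hI]
  have b2 : wg c' F Θ J = ‖F‖ ^ l • wg c' G Θ J := by
    conv_lhs => rw [hFG, pt_scale, hJ]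
  have b3 : F.det / ‖F‖ ^ l = ‖F‖ ^ l * G.det := by
    rw [← h1 F, b1, b2, real_inner_smul_left, real_inner_smul_right, h1 G,
      mul_div_cancel_left₀ _ hp.ne']
  rw [b3, b1, b2, ← smul_add, norm_smul, Real.norm_of_nonneg hp.le]
  have := mul_le_mul_of_nonneg_left (h2 G hG1) hp.le
  linarith

end Pool.Agent.MP_29b5d3_an.GE
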