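import Pool.Agent.MP_29b5d3_an.GE.Spec

/-! PROJECT GE: the sharp exponent written without definitions. -/

set_option autoImplicit false

open MeasureTheory

namespace Pool.Agent.MP_29b5d3_an.GE

theorem Sharp.unf {n : ℕ} (h : Sharp n) (K : ℝ) (hK : 1 < K) :
    IsLUB {p : ℝ | (n : ℝ) ≤ p ∧
      ∀ (Ω : Set (EuclideanSpace ℝ (Fin n)))
        (f : EuclideanSpace ℝ (Fin n) → EuclideanSpace ℝ (Fin n))
        (Df : EuclideanSpace ℝ (Fin n) → (EuclideanSpace ℝ (Fin n) →L[ℝ] EuclideanSpace ℝ (Fin n))),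
        IsOpen Ω → ContinuousOn f Ω →
        (∀ C : Set (EuclideanSpace ℝ (Fin n)), IsCompact C → C ⊆ Ω →
          MemLp Df (n : ENNReal) (volume.restrict C)) →
        (∀ φ : EuclideanSpace ℝ (Fin n) → ℝ,
          ContDiff ℝ ((⊤ : ℕ∞) : WithTop ℕ∞) φ → HasCompactSupport φ → tsupport φ ⊆ Ω →
          ∀ v : EuclideanSpace ℝ (Fin n),
            ∫ x, (fderiv ℝ φ x v) • f x = -∫ x, φ x • Df x v) →
        (∀ᵐ x ∂(volume.restrict Ω),
          ‖Df x‖ ^ n ≤ K * LinearMap.det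
            ((Df x : EuclideanSpace ℝ (Fin n) →L[ℝ] EuclideanSpace ℝ (Fin n)) :
              EuclideanSpace ℝ (Fin n) →ₗ[ℝ] EuclideanSpace ℝ (Fin n))) →
        ∀ C : Set (EuclideanSpace ℝ (Fin n)), IsCompact C → C ⊆ Ω →
          MemLp Df (ENNReal.ofReal p) (volume.restrict C)}
      ((n : ℝ) * K / (K - 1)) := by
  convert h K hK using 3 with p
  exact and_congr_right' ⟨fun H Ω f Df q => H Ω f Df q.1 q.2.1 q.2.2.1 q.2.2.2.1 q.2.2.2.2,
    fun H Ω f Df a b c d e => H Ω f Df ⟨a, b, c, d, e⟩⟩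

end Pool.Agent.MP_29b5d3_an.GE
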