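import Pool.Agent.MP_29b5d3_an.GE.AllA
import Pool.Agent.MP_29b5d3_an.GE.Ball
import Pool.Agent.MP_29b5d3_an.GE.Car
import Pool.Agent.MP_29b5d3_an.GE.Det
import Pool.Agent.MP_29b5d3_an.GE.End
import Pool.Agent.MP_29b5d3_an.GE.Form
import Pool.Agent.MP_29b5d3_an.GE.Lev
import Pool.Agent.MP_29b5d3_an.GE.Lim
import Pool.Agent.MP_29b5d3_an.GE.Mel
import Pool.Agent.MP_29b5d3_an.GE.Mel1
import Pool.Agent.MP_29b5d3_an.GE.Pt
import Pool.Agent.MP_29b5d3_an.GE.Unf

/-! PROJECT GE: all rows together. -/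

set_option autoImplicit false

namespace Pool.Agent.MP_29b5d3_an.GE

theorem endAll : EndStmt := fin lim cone

theorem even (l : ℕ) (hl : 1 ≤ l) : Sharp (2 * l) :=
  even_of (lev levA car det (pt ball) form) (mel mel1) endAll l hl

end Pool.Agent.MP_29b5d3_an.GE
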