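import Pool.Agent.MP_29b5d3_an.GE.SpecA

/-! The strong derivative is a closed operator; mixed derivatives; exchange of derivatives. -/

set_option autoImplicit false
set_option linter.unusedSectionVars false

open MeasureTheory Filter Topology Set
open scoped RealInnerProductSpace

namespace Pool.Agent.MP_29b5d3_an.GA

section
variable {E H : Type} [NormedAddCommGroup E] [NormedSpace ℝ E] [NormedAddCommGroup H]
  [InnerProductSpace ℝ H] [CompleteSpace H] {U : E → H →L[ℝ] H} {e e' : E} {u w : H}

theorem Rep.cline (hU : Rep U) (e : E) (w : H) : Continuous fun r : ℝ => U (r • e) w :=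
  (hU.cont w).comp (continuous_id.smul continuous_const)

/-- the integral form of the derivative -/
theorem dr_iff (hU : Rep U) :
    Dr U e u w ↔ ∀ s : ℝ, U (s • e) u - u = ∫ r in (0 : ℝ)..s, U (r • e) w := by
  refine ⟨fun h s => ?_, fun h => ?_⟩
  · rw [intervalIntegral.integral_eq_sub_of_hasDerivAt (fun r _ => h.at hU r)
      ((hU.cline e w).intervalIntegrable _ _), zero_smul, hU.zero]
  · have a := ((hU.cline e w).integral_hasStrictDerivAt 0 0).hasDerivAt.add_const u
    simp only [← h, sub_add_cancel, zero_smul, hU.zero] at a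
    exact a

theorem cont_int (hU : Rep U) (e : E) (s : ℝ) :
    Continuous fun w : H => ∫ r in (0 : ℝ)..s, U (r • e) w := by
  refine (LipschitzWith.of_dist_le_mul (K := Real.nnabs s) fun a b => ?_).continuous
  rw [dist_eq_norm, dist_eq_norm, ← intervalIntegral.integral_sub
    ((hU.cline e a).intervalIntegrable _ _) ((hU.cline e b).intervalIntegrable _ _)]
  refine (intervalIntegral.norm_integral_le_of_norm_le_const (C := ‖a - b‖) fun r _ => ?_).trans ?_
  · rw [← map_sub, hU.norm_eq]
  · rw [sub_zero, Real.coe_nnabs, mul_comm]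

theorem dr_closed (hU : Rep U) (e : E) : IsClosed {p : H × H | Dr U e p.1 p.2} := by
  simp only [dr_iff hU, ofPred_forall]
  exact isClosed_iInter fun s => isClosed_eq
    (((U (s • e)).continuous.comp continuous_fst).sub continuous_fst)
    ((cont_int hU e s).comp continuous_snd)

end

theorem closed : ClosedStmt := by
  intro E H _ _ _ _ _ U hU
  refine ⟨dr_closed hU, fun e e' u w w' z h1 h2 h3 => ?_, fun e e' u v u1 u2 v1 v2 a b c d => ?_⟩
  · have t := (hasDerivAt_iff_tendsto_slope_zero.1 h2).prodMk_nhds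
      (hasDerivAt_iff_tendsto_slope_zero.1 h3)
    refine (dr_closed hU e).mem_of_tendsto t (Eventually.of_forall fun h => ?_)
    simp only [zero_add, zero_smul, hU.zero]
    exact ((h1.shift hU _).sub h1).smul _
  · have f1 : HasDerivAt (fun h : ℝ => ⟪u1, U (h • e') v⟫) ⟪u1, v2⟫ 0 := by
      simpa using (hasDerivAt_const (0 : ℝ) u1).inner ℝ d
    have f2 : HasDerivAt (fun h : ℝ => U ((-h) • e') u) ((-1 : ℝ) • u2) 0 :=
      HasDerivAt.scomp (0 : ℝ) (g₁ := fun s : ℝ => U (s • e') u) (h := fun h : ℝ => -h)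
        (by rw [neg_zero]; exact b) (hasDerivAt_neg 0)
    have f3 : HasDerivAt (fun h : ℝ => -⟪U ((-h) • e') u, v1⟫) ⟪u2, v1⟫ 0 := by
      simpa using (f2.inner ℝ (hasDerivAt_const (0 : ℝ) v1)).fun_neg
    refine f1.unique ((congrArg (fun f => HasDerivAt f _ (0 : ℝ)) (funext fun h => ?_)).mp f3)
    rw [a.ibp hU (c.shift hU _), hU.adj, neg_smul, neg_neg]

end Pool.Agent.MP_29b5d3_an.GA
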