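import Pool.Agent.MP_29b5d3_an.GE.SpecA
import Mathlib.MeasureTheory.Function.ConvergenceInMeasure

/-! PROJECT GE, row CONE: fields with values in a closed convex set; the projection lemma. -/

set_option autoImplicit false

open MeasureTheory Filter Topology Set
open scoped RealInnerProductSpace ContDiff

namespace Pool.Agent.MP_29b5d3_an.GA

section
variable {n : ℕ} {V : Type} [NormedAddCommGroup V] [InnerProductSpace ℝ V]

omit [InnerProductSpace ℝ V] in
theorem isClosed_CK {K : Set V} (hK : IsClosed K) : IsClosed (CK n K) := by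
  refine IsSeqClosed.isClosed fun G G₀ hG h => ?_
  obtain ⟨ns, -, hns⟩ := (tendstoInMeasure_of_tendsto_Lp h).exists_seq_tendsto_ae
  have h2 : ∀ᵐ x, ∀ i, G i x ∈ K := ae_all_iff.2 hG
  filter_upwards [hns, h2] with x a b
  exact hK.mem_of_tendsto a (Eventually.of_forall fun i => b _)

theorem convex_CK {K : Set V} (hK : Convex ℝ K) : Convex ℝ (CK n K) := by
  intro G hG G' hG' a b ha hb hab
  filter_upwards [hG, hG', Lp.coeFn_add (a • G) (b • G'), Lp.coeFn_smul a G,
    Lp.coeFn_smul b G'] with x h1 h2 h3 h4 h5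
  rw [h3, Pi.add_apply, h4, h5]
  exact hK h1 h2 ha hb hab

theorem normal_one {K : Set V} {ψ G : L2 n V} (hG : G ∈ CK n K)
    (h : ∀ G' ∈ CK n K, ⟪ψ, G' - G⟫ ≤ 0) {k : V} (hk : k ∈ K) (R : ℝ) :
    ∀ᵐ x, x ∈ Metric.ball (0 : Eu n) R → ⟪ψ x, k - G x⟫ ≤ 0 := by
  have hm : Measurable fun x => ⟪ψ x, k - G x⟫ :=
    ((Lp.stronglyMeasurable ψ).inner
      (stronglyMeasurable_const.sub (Lp.stronglyMeasurable G))).measurable
  set T : Set (Eu n) := Metric.ball 0 R ∩ {x | 0 < ⟪ψ x, k - G x⟫} with hT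
  have hTm : MeasurableSet T :=
    Metric.isOpen_ball.measurableSet.inter (measurableSet_lt measurable_const hm)
  have hTf : volume T ≠ ⊤ :=
    ((measure_mono inter_subset_left).trans_lt measure_ball_lt_top).ne
  have hD : MemLp (T.indicator fun x => k - G x) 2 volume := by
    have := (memLp_indicator_const 2 hTm k (Or.inr hTf)).sub ((Lp.memLp G).indicator hTm)
    refine this.ae_eq (Eventually.of_forall fun x => ?_)
    by_cases hx : x ∈ T <;> simp [hx]
  have h1 : G + hD.toLp _ ∈ CK n K := by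
    filter_upwards [hG, Lp.coeFn_add G (hD.toLp _), hD.coeFn_toLp] with x a b c
    rw [b, Pi.add_apply, c]
    by_cases hx : x ∈ T
    · simpa [hx] using hk
    · simpa [hx] using a
  have h2 := h _ h1
  rw [add_sub_cancel_left, inner_L2] at h2
  have h3 : 0 ≤ᵐ[volume] fun x => ⟪ψ x, (hD.toLp _) x⟫ := by
    filter_upwards [hD.coeFn_toLp] with x c
    rw [c]
    by_cases hx : x ∈ T
    · rw [indicator_of_mem hx]
      exact le_of_lt hx.2
    · simp [hx]
  have h4 := (integral_eq_zero_iff_of_nonneg_ae h3 (L2.integrable_inner ψ (hD.toLp _))).1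
    (le_antisymm h2 (integral_nonneg_of_ae h3))
  filter_upwards [h4, hD.coeFn_toLp] with x a c hx
  by_contra hc
  have hx' : x ∈ T := ⟨hx, not_le.1 hc⟩
  rw [c, indicator_of_mem hx'] at a
  exact hc (le_of_eq a)

end

theorem cone : ConeStmt := by
  intro n V _ _ _ K hK hc h0
  refine ⟨isClosed_CK hK, convex_CK hc, ?_, fun a G hG => ?_, fun ψ G hG h => ?_⟩
  · filter_upwards [Lp.coeFn_zero V 2 (volume : Measure (Eu n))] with x hx
    rw [hx]
    exact h0
  · filter_upwards [tau_ae a G,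
      (measurePreserving_add_right volume a).quasiMeasurePreserving.ae hG] with x h1 h2
    rwa [h1]
  · have : ProperSpace V := FiniteDimensional.proper ℝ V
    obtain ⟨D, hDK, hD, hKD⟩ :=
      (TopologicalSpace.IsSeparable.of_separableSpace K).exists_countable_dense_subset
    have h1 : ∀ᵐ x, ∀ k ∈ D, ∀ R : ℕ, x ∈ Metric.ball (0 : Eu n) R → ⟪ψ x, k - G x⟫ ≤ 0 :=
      (ae_ball_iff hD).2 fun k hk => ae_all_iff.2 fun R => normal_one hG h (hDK hk) R
    filter_upwards [h1] with x hx k hk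
    obtain ⟨R, hR⟩ := exists_nat_gt (dist x 0)
    have h2 : IsClosed {k : V | ⟪ψ x, k - G x⟫ ≤ 0} :=
      isClosed_le (continuous_const.inner (continuous_id.sub continuous_const)) continuous_const
    exact closure_minimal (fun k' hk' => hx k' hk' R hR) h2 (hKD hk)

theorem proj (absP : AbsPStmt) (tst : TstStmt) (loc : LocStmt) (cone : ConeStmt) : ProjStmt := by
  intro n V _ _ _ A κ K Ξ P η hE hK hc h0 hP hη
  have : CompleteSpace V := FiniteDimensional.complete ℝ V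
  obtain ⟨hR, -, hD⟩ := tst n V
  obtain ⟨c1, c2, c3, c4, c5⟩ := cone n V K hK hc h0
  obtain ⟨G, hG, ψ, W, S, ε, hH, h1, h2, h3, h4⟩ := absP (Eu n) (L2 n V) (Fin n) tau bs
    (fun j k => op (A j k)) κ (CK n K) Ξ P η hR hD hE c1 c2 c3 c4 hP hη
  refine ⟨G, ψ, W, S, hH, ?_, h2, by rwa [h3]⟩
  have k1 : ∀ᵐ x, ∀ j, ψ x = 0 → W j x = 0 := ae_all_iff.2 fun j => loc n V _ _ _ (hH.d1 j)
  have k2 : ∀ᵐ x, ∀ j k, W j x = 0 → S j k x = 0 :=
    ae_all_iff.2 fun j => ae_all_iff.2 fun k => loc n V _ _ _ (hH.d2 j k)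
  have k3 : ∀ᵐ x, ∀ j k, op (A j k) (S k j) x = A j k (S k j x) :=
    ae_all_iff.2 fun j => ae_all_iff.2 fun k => op_ae _ _
  have k4 : ∀ᵐ x, ∀ j, (∑ k, op (A j k) (S k j) : L2 n V) x = ∑ k, op (A j k) (S k j) x :=
    ae_all_iff.2 fun j => sum_ae _ _
  filter_upwards [hG, c5 ψ G hG h1, k1, k2, k3, k4, sum_ae Finset.univ P,
    sum_ae Finset.univ fun j => ∑ k, op (A j k) (S k j), Lp.coeFn_smul ε ψ,
    Lp.coeFn_add (∑ j, P j) (∑ j, ∑ k, op (A j k) (S k j)),
    Lp.coeFn_sub (∑ j, P j + ∑ j, ∑ k, op (A j k) (S k j)) G]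
    with x a1 a2 a3 a4 a5 a6 a7 a8 a9 a10 a11
  refine ⟨a1, a2, fun hx => ?_⟩
  have hS : ∀ j k, S j k x = 0 := fun j k => a4 j k (a3 j hx)
  refine ⟨?_, hS⟩
  rw [h3, a9, Pi.sub_apply, a10, Pi.add_apply, a7, a8, Pi.smul_apply, hx, smul_zero] at a11
  simp only [a6, a5, hS, map_zero, Finset.sum_const_zero, add_zero] at a11
  exact (sub_eq_zero.1 a11.symm).symm

end Pool.Agent.MP_29b5d3_an.GA
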