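import Pool.Agent.MP_29b5d3_an.GE.SpecA

/-! PROJECT GE: the level inequality for an exact and a co-exact field. -/

set_option autoImplicit false

open MeasureTheory Filter Topology Set
open scoped RealInnerProductSpace ContDiff

namespace Pool.Agent.MP_29b5d3_an.GA

variable {n : ℕ} {V : Type} [NormedAddCommGroup V] [InnerProductSpace ℝ V]

theorem lv_pt {τ θ : ℝ} {e b l1 l2 g ψ : V} (hτ : 0 < τ) (hg : ‖g‖ ≤ τ)
    (hk : ∀ k : V, ‖k‖ ≤ τ → ⟪ψ, k - g⟫ ≤ 0) (h0 : ψ ≠ 0)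
    (h : θ ≤ ⟪e, b⟫ - τ * ‖e + b‖ + τ ^ 2) :
    θ ≤ ⟪e, b⟫ - ⟪e + (2 : ℝ) • l1, b + (2 : ℝ) • l2⟫
      + ⟪(1 / 2 : ℝ) • (e + b) + (l1 + l2) - g, (1 / 2 : ℝ) • (e + b) + (l1 + l2) - g⟫
      + 2 * ⟪g, l1 + l2⟫ := by
  have hp : 0 < ‖ψ‖ := norm_pos_iff.2 h0
  have h1 := hk ((τ / ‖ψ‖) • ψ) (by
    rw [norm_smul, Real.norm_of_nonneg (by positivity), div_mul_cancel₀ _ hp.ne'])
  rw [inner_sub_right, real_inner_smul_right, real_inner_self_eq_norm_sq] at h1
  have h2 := real_inner_le_norm ψ g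
  have h3 : τ / ‖ψ‖ * ‖ψ‖ ^ 2 = ‖ψ‖ * τ := by field_simp
  have h4 : ‖g‖ = τ := le_antisymm hg (le_of_mul_le_mul_left (by linarith) hp)
  have h5 : ⟪g, g⟫ = τ ^ 2 := by rw [real_inner_self_eq_norm_sq, h4]
  have h6 := real_inner_le_norm g (e + b)
  rw [h4] at h6
  have h7 := real_inner_self_nonneg (x := e + (2 : ℝ) • l1 - (b + (2 : ℝ) • l2))
  simp only [inner_add_left, inner_add_right, inner_sub_left, inner_sub_right,
    real_inner_smul_left, real_inner_smul_right] at h6 h7 ⊢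
  simp only [real_inner_comm e b, real_inner_comm e l1, real_inner_comm e l2, real_inner_comm e g,
    real_inner_comm b l1, real_inner_comm b l2, real_inner_comm b g, real_inner_comm l1 l2,
    real_inner_comm l1 g, real_inner_comm l2 g] at h h6 h7 ⊢
  linarith

theorem lv_diag (j k : Fin n) (u : L2 n V) :
    op (if j = k then ContinuousLinearMap.id ℝ V else 0) u = if j = k then u else 0 := by
  ext1
  split_ifs
  · filter_upwards [op_ae (ContinuousLinearMap.id ℝ V) u] with x a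
    exact a
  · filter_upwards [op_ae (0 : V →L[ℝ] V) u, Lp.coeFn_zero V 2 (volume : Measure (Eu n))]
      with x a b
    rw [a, b]
    rfl

theorem lv_cd {c c' : Fin n → V →L[ℝ] V} (h : Car c c') (j k : Fin n) (u : L2 n V) :
    op ((c j).comp (c' k)) u + op ((c' k).comp (c j)) u = if j = k then u else 0 := by
  rw [← lv_diag]
  ext1
  filter_upwards [Lp.coeFn_add (op ((c j).comp (c' k)) u) (op ((c' k).comp (c j)) u),
    op_ae ((c j).comp (c' k)) u, op_ae ((c' k).comp (c j)) u,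
    op_ae (if j = k then ContinuousLinearMap.id ℝ V else 0) u] with x a1 a2 a3 a4
  rw [a1, Pi.add_apply, a2, a3, a4, ContinuousLinearMap.comp_apply,
    ContinuousLinearMap.comp_apply, h.cd]
  split_ifs <;> rfl

theorem lv_ell : Ell tau bs (fun j k : Fin n =>
    (op (if j = k then ContinuousLinearMap.id ℝ V else 0) : L2 n V →L[ℝ] L2 n V)) 1 where
  pos := one_pos
  comm j k a x := op_tau _ a x
  symm j k x y := by
    rw [lv_diag, lv_diag]
    by_cases h : j = k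
    · rw [if_pos h, if_pos h.symm]
    · rw [if_neg h, if_neg (Ne.symm h), inner_zero_left, inner_zero_right]
  coer ψ W _ := by
    rw [one_mul]
    refine Finset.sum_le_sum fun j _ => le_of_eq ?_
    rw [← sum_inner]
    simp only [lv_diag, Finset.sum_ite_eq, Finset.mem_univ, if_true, real_inner_self_eq_norm_sq]

theorem lv_zero (T : Fin n → Fin n → V →L[ℝ] V) (S : Fin n → Fin n → L2 n V) :
    ∀ᵐ x, (∀ j k, S j k x = 0) → (∑ j, ∑ k, op (T j k) (S j k) : L2 n V) x = 0 := by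
  filter_upwards [sum_ae Finset.univ fun j => ∑ k, op (T j k) (S j k),
    ae_all_iff.2 fun j => sum_ae Finset.univ fun k => op (T j k) (S j k),
    ae_all_iff.2 fun j => ae_all_iff.2 fun k => op_ae (T j k) (S j k)] with x a1 a2 a3 h
  simp only [a1, a2, a3, h, map_zero, Finset.sum_const_zero]

theorem lv_add (u v : L2 n V) (t : ℝ) : ∀ᵐ x, (u + t • v : L2 n V) x = u x + t • v x := by
  filter_upwards [Lp.coeFn_add u (t • v), Lp.coeFn_smul t v] with x a b
  rw [a, Pi.add_apply, b, Pi.smul_apply]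

theorem levA (_closed : ClosedStmt) (tst : TstStmt) (proj : ProjStmt) (orth : OrthStmt) :
    LevAStmt := by
  intro n V _ _ _ c c' α β τ Θ hc hα hβ hτ hΘ h1 h2
  refine le_of_forall_pos_le_add fun η hη => ?_
  obtain ⟨-, hD, -⟩ := tst n V
  set P : Fin n → L2 n V := fun j => op ((1 / 2 : ℝ) • c j) (tl (pd j α))
    + op ((1 / 2 : ℝ) • c' j) (tl (pd j β)) with hP
  obtain ⟨G, ψ, W, S, hH, hae, hS, hn⟩ := proj n V _ 1 (Metric.closedBall 0 τ)
    (fun j => op ((1 / 2 : ℝ) • c j) (tl α) + op ((1 / 2 : ℝ) • c' j) (tl β)) P η lv_ell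
    Metric.isClosed_closedBall (convex_closedBall 0 τ) (Metric.mem_closedBall_self hτ.le)
    (fun j => ((hD α j hα).op _).add ((hD β j hβ).op _)) hη
  obtain ⟨o1, o2⟩ := orth n V c c' α β ψ W S hc hα hβ hH
  set L : L2 n V := ∑ j, ∑ k, op ((c j).comp (c' k)) (S j k) with hL
  set L' : L2 n V := ∑ j, ∑ k, op ((c' k).comp (c j)) (S j k) with hL'
  have eL : L + L' = ∑ j, S j j := by
    simp only [hL, hL', ← Finset.sum_add_distrib, lv_cd hc, Finset.sum_ite_eq, Finset.mem_univ,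
      if_true]
  simp only [lv_diag, Finset.sum_ite_eq, Finset.mem_univ, if_true] at hn
  rw [← eL] at hn
  have hG : ⟪G, L + L'⟫ ≤ 0 := by
    rw [eL, inner_sum]
    exact Finset.sum_nonpos fun j _ => hS j
  have eP : ∀ᵐ x, ∑ j, P j x = (1 / 2 : ℝ) • (dop c α x + dop c' β x) := by
    filter_upwards [ae_all_iff.2 fun j => Lp.coeFn_add (op ((1 / 2 : ℝ) • c j) (tl (pd j α)))
        (op ((1 / 2 : ℝ) • c' j) (tl (pd j β))),
      ae_all_iff.2 fun j => op_ae ((1 / 2 : ℝ) • c j) (tl (pd j α)),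
      ae_all_iff.2 fun j => op_ae ((1 / 2 : ℝ) • c' j) (tl (pd j β)),
      ae_all_iff.2 fun j => (hα.pd j).ae, ae_all_iff.2 fun j => (hβ.pd j).ae]
      with x a1 a2 a3 a4 a5
    simp only [hP, a1, Pi.add_apply, a2, a3, a4, a5, smul_apply, dop, smul_add, Finset.smul_sum,
      Finset.sum_add_distrib]
  set e : L2 n V := tl (dop c α)
  set b : L2 n V := tl (dop c' β)
  set D : L2 n V := ∑ j, P j + (L + L') - G with hDd
  have i1 := L2.integrable_inner (𝕜 := ℝ) e b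
  have i2 := L2.integrable_inner (𝕜 := ℝ) (e + (2 : ℝ) • L) (b + (2 : ℝ) • L')
  have i3 := L2.integrable_inner (𝕜 := ℝ) D D
  have i4 := (L2.integrable_inner (𝕜 := ℝ) G (L + L')).const_mul 2
  have key : ∫ x, Θ x ≤ ∫ x, (⟪e x, b x⟫ - ⟪(e + (2 : ℝ) • L) x, (b + (2 : ℝ) • L') x⟫
      + ⟪D x, D x⟫ + 2 * ⟪G x, (L + L') x⟫) := by
    refine integral_mono_ae hΘ (((i1.sub i2).add i3).add i4) ?_
    filter_upwards [hae, eP, (hα.dop c).ae, (hβ.dop c').ae, lv_add e L 2, lv_add b L' 2,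
      Lp.coeFn_add L L', Lp.coeFn_sub (∑ j, P j + (L + L')) G,
      Lp.coeFn_add (∑ j, P j) (L + L'), sum_ae Finset.univ P,
      lv_zero (fun j k => (c j).comp (c' k)) S, lv_zero (fun j k => (c' k).comp (c j)) S]
      with x a1 a2 a3 a4 a5 a6 a7 a8 a9 a10 a11 a12
    obtain ⟨b1, b2, b3⟩ := a1
    rw [mem_closedBall_zero_iff] at b1
    rw [a5, a6, a8, Pi.sub_apply, a9, Pi.add_apply, a7, Pi.add_apply, a10, a2, a3, a4]
    by_cases h0 : ψ x = 0
    · obtain ⟨b4, b5⟩ := b3 h0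
      rw [a2] at b4
      rw [a11 b5, a12 b5, ← b4]
      have := h2 x (by
        rw [b4, norm_smul, Real.norm_of_nonneg (by norm_num)] at b1
        linarith)
      simpa using this
    · exact lv_pt hτ b1 (fun k hk => b2 k (mem_closedBall_zero_iff.2 hk)) h0 (h1 x)
  have o3 : ∫ x, ⟪e x, b x⟫ = 0 := by
    rw [← o2]
    refine integral_congr_ae ?_
    filter_upwards [(hα.dop c).ae, (hβ.dop c').ae] with x a1 a2
    rw [a1, a2]
  have i5 : Integrable fun x => ⟪e x, b x⟫ - ⟪(e + (2 : ℝ) • L) x, (b + (2 : ℝ) • L') x⟫ :=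
    i1.sub i2
  have i6 : Integrable fun x =>
      ⟪e x, b x⟫ - ⟪(e + (2 : ℝ) • L) x, (b + (2 : ℝ) • L') x⟫ + ⟪D x, D x⟫ := i5.add i3
  rw [integral_add i6 i4, integral_add i5 i3, integral_sub i1 i2,
    integral_const_mul, o3, ← inner_L2, ← inner_L2, ← inner_L2, o1,
    real_inner_self_eq_norm_sq] at key
  linarith

end Pool.Agent.MP_29b5d3_an.GA
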