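import Pool.Agent.MP_29b5d3_an.GE.SpecA
import Mathlib.Analysis.Normed.Module.HahnBanach

/-! PROJECT GE, row LIP: a vector with a Lipschitz orbit is differentiable. -/

set_option autoImplicit false

open MeasureTheory Filter Topology Set
open scoped RealInnerProductSpace

namespace Pool.Agent.MP_29b5d3_an.GA

namespace Lip

variable {E H : Type} [NormedAddCommGroup E] [NormedSpace ℝ E] [NormedAddCommGroup H]
  [InnerProductSpace ℝ H] {U : E → H →L[ℝ] H} {e : E}

/-- the differentiable vectors -/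
def dom (U : E → H →L[ℝ] H) (e : E) : Submodule ℝ H where
  carrier := {v | ∃ z, Dr U e v z}
  add_mem' := fun ⟨_, h⟩ ⟨_, h'⟩ => ⟨_, h.add h'⟩
  zero_mem' := ⟨_, Dr.zero⟩
  smul_mem' := fun c _ ⟨_, h⟩ => ⟨_, h.smul c⟩

/-- the derivative on its domain -/
noncomputable def gen (U : E → H →L[ℝ] H) (e : E) : dom U e →ₗ[ℝ] H where
  toFun v := v.2.choose
  map_add' u v := (u + v).2.choose_spec.unique (u.2.choose_spec.add v.2.choose_spec)
  map_smul' c v := (c • v).2.choose_spec.unique (v.2.choose_spec.smul c)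

theorem gen_spec (v : dom U e) : Dr U e v (gen U e v) := v.2.choose_spec

theorem weak (hU : Rep U) (w : H) {v z : H} (h : Dr U e v z) (s : ℝ) :
    HasDerivAt (fun s : ℝ => ⟪U (s • e) w, v⟫) (-⟪w, U ((-s) • e) z⟫) s := by
  have h1 := (h.at hU (-s)).scomp s (hasDerivAt_neg s)
  have h2 := (hasDerivAt_const s w).inner ℝ h1
  rw [inner_zero_left, add_zero] at h2
  simp only [Function.comp_def, neg_smul, one_smul, inner_neg_right, ← hU.adj] at h2
  simpa only [neg_smul, ← hU.adj] using h2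

end Lip

open Lip in
theorem lip : LipStmt := by
  intro E H _ _ _ _ _ U e w C hU hD hC
  have C0 : 0 ≤ C := by simpa using (norm_nonneg _).trans (hC 1)
  let f : dom U e →ₗ[ℝ] ℝ := -(innerₛₗ ℝ w).comp (gen U e)
  have hf : ∀ v : dom U e, ‖f v‖ ≤ C * ‖v‖ := fun v => by
    have h1 := weak hU w (gen_spec v) 0
    simp only [neg_zero, zero_smul, hU.zero] at h1
    refine h1.le_of_lip' (by positivity) (.of_forall fun s => ?_)
    rw [zero_smul, hU.zero, ← inner_sub_left, sub_zero]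
    refine (norm_inner_le_norm _ _).trans ?_
    rw [mul_right_comm]
    exact mul_le_mul_of_nonneg_right (hC s) (norm_nonneg _)
  obtain ⟨g, hg, -⟩ := exists_extension_norm_eq (dom U e) (f.mkContinuous C hf)
  obtain ⟨z, hz⟩ : ∃ z : H, ∀ v, ⟪z, v⟫ = g v :=
    ⟨(InnerProductSpace.toDual ℝ H).symm g, fun _ => InnerProductSpace.toDual_symm_apply⟩
  have hc : Continuous fun r : ℝ => U (r • e) z :=
    (hU.cont z).comp (continuous_id.smul continuous_const)
  have hI : ∀ s : ℝ, HasDerivAt (fun s : ℝ => w + ∫ r in (0 : ℝ)..s, U (r • e) z) (U (s • e) z) s :=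
    fun s => (hc.integral_hasStrictDerivAt 0 s).hasDerivAt.const_add w
  have key : ∀ s : ℝ, U (s • e) w = w + ∫ r in (0 : ℝ)..s, U (r • e) z := fun s => by
    refine hD.eq_of_inner_left ℝ fun v0 hv => ?_
    obtain ⟨v, rfl⟩ : ∃ v : dom U e, v0 = v := ⟨⟨v0, hv⟩, rfl⟩
    have h1 : ∀ s : ℝ, HasDerivAt (fun s : ℝ => ⟪U (s • e) w, (v : H)⟫ -
        ⟪w + ∫ r in (0 : ℝ)..s, U (r • e) z, (v : H)⟫) 0 s := fun s => by
      have h2 := (weak hU w (gen_spec v) s).fun_sub ((hI s).inner ℝ (hasDerivAt_const s (v : H)))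
      have h3 := (gen_spec v).shift hU ((-s) • e)
      have h4 : ⟪U (s • e) z, (v : H)⟫ = -⟪w, U ((-s) • e) (gen U e v)⟫ := by
        rw [hU.adj, hz, ← neg_smul, hg ⟨_, _, h3⟩]
        exact congrArg (fun y => -⟪w, y⟫) ((gen_spec ⟨_, _, h3⟩).unique h3)
      rwa [inner_zero_right, zero_add, h4, sub_self] at h2
    have h5 := is_const_of_deriv_eq_zero (fun s => (h1 s).differentiableAt)
      (fun s => (h1 s).deriv) s 0
    simpa [hU.zero, sub_eq_zero] using h5
  refine ⟨z, ?_⟩
  have := hI 0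
  rw [zero_smul, hU.zero] at this
  simpa only [Dr, key] using this

end Pool.Agent.MP_29b5d3_an.GA
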