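import Pool.Agent.MP_29b5d3_an.GE.SpecA
import Mathlib.MeasureTheory.Function.ConvergenceInMeasure
import Mathlib.MeasureTheory.Function.LpSpace.Indicator

/-! PROJECT GE, row LOC: the derivative vanishes almost everywhere on the zero set. -/

set_option autoImplicit false

open MeasureTheory Filter Topology Set
open scoped RealInnerProductSpace ContDiff

namespace Pool.Agent.MP_29b5d3_an.GA

theorem loc (tst : TstStmt) : LocStmt := by
  intro n V _ _ _ e u w h
  have hV := (tst n V).1
  have hR := (tst n ℝ).1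
  set s : ℕ → ℝ := fun k => 1 / ((k : ℝ) + 1) with hs
  have s0 : Tendsto s atTop (𝓝 0) := tendsto_one_div_add_atTop_nhds_zero_nat
  have s1 : Tendsto s atTop (𝓝[≠] 0) :=
    tendsto_nhdsWithin_iff.2 ⟨s0, Eventually.of_forall fun k => by
      have : 0 < s k := by positivity
      exact this.ne'⟩
  set q : ℕ → L2 n V := fun k => (s k)⁻¹ • (tau (s k • e) u - u) with hq
  have q1 : Tendsto q atTop (𝓝 w) := by
    have := (hasDerivAt_iff_tendsto_slope_zero.1 h).comp s1
    simpa only [Function.comp_def, zero_add, zero_smul, hV.zero] using this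
  have q2 : ∀ᵐ x, ∀ k, q k x = (s k)⁻¹ • (u (x + s k • e) - u x) := ae_all_iff.2 fun k => by
    filter_upwards [Lp.coeFn_smul (s k)⁻¹ (tau (s k • e) u - u), Lp.coeFn_sub (tau (s k • e) u) u,
      tau_ae (s k • e) u] with x a b c
    rw [hq, a, Pi.smul_apply, b, Pi.sub_apply, c]
  obtain ⟨a, ha, la⟩ := (tendstoInMeasure_of_tendsto_Lp q1).exists_seq_tendsto_ae
  have key : ∀ R : ℕ, ∀ᵐ x : Eu n, x ∈ Metric.ball (0 : Eu n) R → u x = 0 → w x = 0 := fun R => by
    set Z : Set (Eu n) := Metric.ball 0 R ∩ {x | u x = 0} with hZ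
    have mZ : MeasurableSet Z := measurableSet_ball.inter
      ((Lp.stronglyMeasurable u).measurableSet_eq_fun stronglyMeasurable_const)
    have fZ : volume Z ≠ ⊤ := ((measure_mono inter_subset_left).trans_lt measure_ball_lt_top).ne
    set χ : L2 n ℝ := indicatorConstLp 2 mZ fZ (1 : ℝ) with hχ
    have c0 : ∀ᵐ x, χ x = Z.indicator (fun _ => (1 : ℝ)) x := indicatorConstLp_coeFn
    have c1 : Tendsto (fun k => tau (s (a k) • e) χ) atTop (𝓝 χ) := by
      have t1 : Tendsto (fun k => s (a k) • e) atTop (𝓝 0) := by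
        simpa using (s0.comp ha.tendsto_atTop).smul_const e
      have := ((hR.cont χ).tendsto 0).comp t1
      rwa [hR.zero] at this
    have c2 : ∀ᵐ x, ∀ k, tau (s k • e) χ x = Z.indicator (fun _ => (1 : ℝ)) (x + s k • e) :=
      ae_all_iff.2 fun k => by
        filter_upwards [tau_ae (s k • e) χ, (measurePreserving_add_right volume
          (s k • e)).quasiMeasurePreserving.ae c0] with x a b
        rw [a, b]
    obtain ⟨b, hb, lb⟩ := (tendstoInMeasure_of_tendsto_Lp c1).exists_seq_tendsto_ae
    filter_upwards [q2, la, c0, c2, lb] with x h1 h2 h3 h4 h5 hx h0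
    rw [h3, indicator_of_mem (show x ∈ Z from ⟨hx, h0⟩)] at h5
    refine tendsto_nhds_unique (h2.comp hb.tendsto_atTop) (tendsto_const_nhds.congr' ?_)
    filter_upwards [h5.eventually_ne one_ne_zero] with k hk
    rw [h4] at hk
    have : u (x + s (a (b k)) • e) = 0 := (mem_of_indicator_ne_zero hk).2
    simp only [Function.comp_apply, h1, this, h0, sub_self, smul_zero]
  filter_upwards [ae_all_iff.2 key] with x hx
  obtain ⟨R, hR⟩ := exists_nat_gt ‖x‖
  exact hx R (mem_ball_zero_iff.2 hR)

end Pool.Agent.MP_29b5d3_an.GA
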