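import Pool.Agent.MP_29b5d3_an.GE.SpecA

/-! PROJECT GE, row MIN: a variational inequality on a bounded closed convex set. -/

set_option autoImplicit false

open Filter Topology Set
open scoped RealInnerProductSpace

namespace Pool.Agent.MP_29b5d3_an.GA

/-- a decreasing sequence of bounded closed convex sets has a common point -/
theorem nested {H : Type} [NormedAddCommGroup H] [InnerProductSpace ℝ H] [CompleteSpace H]
    {S : ℕ → Set H} (h1 : ∀ k, IsClosed (S k)) (h2 : ∀ k, Convex ℝ (S k))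
    (h3 : ∀ k, (S k).Nonempty) (h4 : Antitone S) {B : ℝ} (h5 : ∀ x ∈ S 0, ‖x‖ ≤ B) :
    ∃ x, ∀ k, x ∈ S k := by
  choose x hx hx' using fun k =>
    exists_norm_eq_iInf_of_complete_convex (h3 k) (h1 k).isComplete (h2 k) 0
  have key : ∀ k j, k ≤ j → ‖x j - x k‖ ^ 2 ≤ ‖x j‖ ^ 2 - ‖x k‖ ^ 2 := fun k j h => by
    have a := (norm_eq_iInf_iff_real_inner_le_zero (h2 k) (hx k)).1 (hx' k) _ (h4 h (hx j))
    have b := norm_add_sq_real (x k) (x j - x k)
    rw [zero_sub, inner_neg_left] at a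
    rw [add_sub_cancel] at b
    linarith
  have c := (tendsto_atTop_ciSup (f := fun k => ‖x k‖ ^ 2)
    (fun k j h => by linarith [key k j h, sq_nonneg ‖x j - x k‖])
    ⟨B ^ 2, forall_mem_range.2 fun k =>
      pow_le_pow_left₀ (norm_nonneg _) (h5 _ (h4 k.zero_le (hx k))) 2⟩).cauchySeq
  obtain ⟨y, hy⟩ := cauchySeq_tendsto_of_complete (Metric.cauchySeq_iff'.2 fun ε hε => by
    obtain ⟨N, hN⟩ := Metric.cauchySeq_iff'.1 c (ε ^ 2) (by positivity)
    refine ⟨N, fun n hn => lt_of_pow_lt_pow_left₀ 2 hε.le ?_⟩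
    rw [dist_eq_norm]
    exact (key N n hn).trans_lt ((le_abs_self _).trans_lt (hN n hn)) : CauchySeq x)
  exact ⟨y, fun k => (h1 k).mem_of_tendsto hy
    ((eventually_ge_atTop k).mono fun j h => h4 h (hx j))⟩

theorem minS : MinStmt := by
  intro H _ _ _ R C P sy nn hc hv hn hb
  let f : H → ℝ := fun G => ⟪R (P - G), P - G⟫
  have ex : ∀ G D (t : ℝ), f (G + t • D) = f G - 2 * t * ⟪R (P - G), D⟫ + t ^ 2 * ⟪R D, D⟫ :=
    fun G D t => by
      simp only [f, ← sub_sub]
      generalize P - G = u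
      simp only [map_sub, map_smul, inner_sub_left, inner_sub_right, real_inner_smul_left,
        real_inner_smul_right, sy D u]
      ring
  have bd : BddBelow (f '' C) := ⟨0, forall_mem_image.2 fun _ _ => nn _⟩
  obtain ⟨B, hB⟩ := hb.exists_norm_le
  refine (nested (S := fun k => C ∩ {G | f G ≤ sInf (f '' C) + 1 / (k + 1)})
    (fun k => hc.inter (isClosed_le (by fun_prop) continuous_const))
    (fun k => hv.inter (convex_iff_add_mem.2 fun a ha b hb s t hs ht e => ?_))
    (fun k => ?_) (fun k j h G a => ⟨a.1, le_trans (a := f G) a.2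
      (add_le_add_right (Nat.one_div_le_one_div (α := ℝ) h) (sInf (f '' C)))⟩)
    fun x h => hB x h.1).elim fun G hG => ?_
  rotate_right
  · have m : f G ≤ sInf (f '' C) := ge_of_tendsto'
      (by simpa using tendsto_one_div_add_atTop_nhds_zero_nat.const_add (sInf (f '' C)))
      fun k => by simpa using (hG k).2
    refine ⟨G, (hG 0).1, fun G' h => le_of_forall_pos_le_add fun ε hε => ?_⟩
    have q := nn (G' - G)
    have t0 : 0 < ε / (ε + ⟪R (G' - G), G' - G⟫) := by positivity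
    have t1 : ε / (ε + ⟪R (G' - G), G' - G⟫) ≤ 1 := (div_le_one (by positivity)).2 (by linarith)
    have t2 := div_mul_cancel₀ ε (by positivity : ε + ⟪R (G' - G), G' - G⟫ ≠ 0)
    have := m.trans (csInf_le bd ⟨_, hv.add_smul_sub_mem (hG 0).1 h ⟨t0.le, t1⟩, rfl⟩)
    rw [ex] at this
    generalize ε / (ε + ⟪R (G' - G), G' - G⟫) = t at *
    refine le_of_mul_le_mul_left ?_ t0
    nlinarith [mul_pos t0 hε, mul_pos t0 (mul_pos t0 hε)]
  · have e1 : s • a + t • b = a + t • (b - a) := by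
      rw [eq_sub_of_add_eq e]
      module
    have e2 := ex a (b - a) 1
    rw [one_smul, add_sub_cancel] at e2
    simp only [mem_ofPred_eq] at ha hb ⊢
    rw [e1, ex]
    obtain rfl := eq_sub_of_add_eq e
    nlinarith [mul_nonneg (mul_nonneg hs ht) (nn (b - a)), mul_le_mul_of_nonneg_left ha hs,
      mul_le_mul_of_nonneg_left hb ht]
  · obtain ⟨_, ⟨G, a, rfl⟩, b⟩ := exists_lt_of_csInf_lt (hn.image f)
      (lt_add_of_pos_right _ (by positivity : (0 : ℝ) < 1 / (k + 1)))
    exact ⟨G, a, b.le⟩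

end Pool.Agent.MP_29b5d3_an.GA
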