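import Pool.Agent.MP_29b5d3_an.GE.SpecA

/-! PROJECT GE, row ORTH: exact and co-exact fields are orthogonal. -/

set_option autoImplicit false

open MeasureTheory Filter Topology Set
open scoped RealInnerProductSpace ContDiff

namespace Pool.Agent.MP_29b5d3_an.GA

section
variable {n : ℕ} {V : Type} [NormedAddCommGroup V] [InnerProductSpace ℝ V]

theorem or_tl_dop (c : Fin n → V →L[ℝ] V) {α : Eu n → V} (h : Tst α) :
    tl (dop c α) = ∑ j, op (c j) (tl (pd j α)) := by
  ext1
  have h1 : ∀ᵐ x, ∀ j, (op (c j) (tl (pd j α)) : L2 n V) x = c j (pd j α x) := by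
    rw [ae_all_iff]
    intro j
    filter_upwards [op_ae (c j) (tl (pd j α)), (h.pd j).ae] with x a b
    rw [a, b]
  filter_upwards [(h.dop c).ae, sum_ae Finset.univ fun j => op (c j) (tl (pd j α)), h1]
    with x a b d
  rw [a, b, dop]
  exact Finset.sum_congr rfl fun j _ => (d j).symm

theorem or_anti {c c' : Fin n → V →L[ℝ] V} (h : Car c c') (j k : Fin n) (u : L2 n V) :
    op (c j) (op (c k) u) = -op (c k) (op (c j) u) := by
  ext1
  filter_upwards [op_ae (c j) (op (c k) u), op_ae (c k) u, op_ae (c k) (op (c j) u), op_ae (c j) u,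
    Lp.coeFn_neg (op (c k) (op (c j) u))] with x a1 a2 a3 a4 a5
  rw [a5, Pi.neg_apply, a1, a2, a3, a4, h.cc]

theorem or_core [FiniteDimensional ℝ V] (closed : ClosedStmt) (tst : TstStmt)
    {c c' : Fin n → V →L[ℝ] V} (h : Car c c') {a b : L2 n V} {A B : Fin n → L2 n V}
    (hA : ∀ j, Dr tau (bs j) a (A j)) (hB : ∀ j, Dr tau (bs j) b (B j)) :
    ⟪∑ j, op (c j) (A j), ∑ k, op (c' k) (B k)⟫ = 0 := by
  have : CompleteSpace V := FiniteDimensional.complete ℝ V
  have ex := (closed (Eu n) (L2 n V) tau (tst n V).1).2.2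
  have e1 : ⟪∑ j, op (c j) (A j), ∑ k, op (c' k) (B k)⟫
      = ∑ j, ∑ k, ⟪op (c k) (op (c j) (A j)), B k⟫ := by
    rw [sum_inner]
    refine Finset.sum_congr rfl fun j _ => ?_
    rw [inner_sum]
    exact Finset.sum_congr rfl fun k _ => (op_adj (h.adj k) _ _).symm
  have e2 : ∀ j k, ⟪op (c k) (op (c j) (A j)), B k⟫ = -⟪op (c j) (op (c k) (A k)), B j⟫ := by
    intro j k
    rw [ex (bs j) (bs k) _ b _ _ _ _ (((hA j).op (c j)).op (c k)) (((hA k).op (c j)).op (c k))
      (hB j) (hB k), or_anti h k j, inner_neg_left]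
  have e3 : ∑ j, ∑ k, ⟪op (c k) (op (c j) (A j)), B k⟫
      = -∑ j, ∑ k, ⟪op (c k) (op (c j) (A j)), B k⟫ := by
    conv_rhs => rw [Finset.sum_comm]
    simp only [← Finset.sum_neg_distrib]
    exact Finset.sum_congr rfl fun j _ => Finset.sum_congr rfl fun k _ => e2 j k
  rw [e1]
  linarith

end

theorem orth (closed : ClosedStmt) (tst : TstStmt) : OrthStmt := by
  intro n V _ _ _ c c' α β ψ W S h hα hβ hψ
  have : CompleteSpace V := FiniteDimensional.complete ℝ V
  have sy : ∀ j k, S j k = S k j := fun j k =>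
    ((closed (Eu n) (L2 n V) tau (tst n V).1).2.1 _ _ _ _ _ _ (hψ.d1 j) (hψ.d1 k)
      (hψ.d2 j k)).unique (hψ.d2 k j)
  have dα := fun j => (tst n V).2.1 α j hα
  have dβ := fun j => (tst n V).2.1 β j hβ
  constructor
  · have hA : ∀ j, Dr tau (bs j) (tl α + (2 : ℝ) • ∑ k, op (c' k) (W k))
        (tl (pd j α) + (2 : ℝ) • ∑ k, op (c' k) (S k j)) := fun j =>
      (dα j).add (Dr.smul 2 (Dr.sum fun k _ => (hψ.d2 k j).op (c' k)))
    have hB : ∀ k, Dr tau (bs k) (tl β + (2 : ℝ) • ∑ j, op (c j) (W j))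
        (tl (pd k β) + (2 : ℝ) • ∑ j, op (c j) (S j k)) := fun k =>
      (dβ k).add (Dr.smul 2 (Dr.sum fun j _ => (hψ.d2 j k).op (c j)))
    have key := or_core closed tst h hA hB
    have f1 : tl (dop c α) + (2 : ℝ) • ∑ j, ∑ k, op ((c j).comp (c' k)) (S j k)
        = ∑ j, op (c j) (tl (pd j α) + (2 : ℝ) • ∑ k, op (c' k) (S k j)) := by
      simp only [map_add, map_smul, map_sum, Finset.sum_add_distrib, ← Finset.smul_sum, op_op]
      rw [or_tl_dop c hα]
      simp only [fun j k => sy j k]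
    have f2 : tl (dop c' β) + (2 : ℝ) • ∑ j, ∑ k, op ((c' k).comp (c j)) (S j k)
        = ∑ k, op (c' k) (tl (pd k β) + (2 : ℝ) • ∑ j, op (c j) (S j k)) := by
      simp only [map_add, map_smul, map_sum, Finset.sum_add_distrib, ← Finset.smul_sum, op_op]
      rw [or_tl_dop c' hβ, Finset.sum_comm]
    rw [f1, f2, key]
  · have key := or_core closed tst h dα dβ
    rw [← or_tl_dop c hα, ← or_tl_dop c' hβ, inner_L2] at key
    rw [← key]
    refine integral_congr_ae ?_
    filter_upwards [(hα.dop c).ae, (hβ.dop c').ae] with x a b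
    rw [a, b]

end Pool.Agent.MP_29b5d3_an.GA
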