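import Pool.Agent.MP_29b5d3_an.GE.SpecA
import Mathlib.Analysis.InnerProductSpace.LaxMilgram
import Mathlib.Analysis.InnerProductSpace.Adjoint

/-! PROJECT GE, row RES: the resolvent of an elliptic operator. -/

set_option autoImplicit false

open MeasureTheory Filter Topology Set
open scoped RealInnerProductSpace

namespace Pool.Agent.MP_29b5d3_an.GA

section
variable {E H ι : Type} [NormedAddCommGroup E] [NormedSpace ℝ E] [NormedAddCommGroup H]
  [InnerProductSpace ℝ H] [Fintype ι]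

/-- the graph of the gradient -/
def resG (U : E → H →L[ℝ] H) (e : ι → E) : Submodule ℝ (PiLp 2 fun _ : Option ι => H) where
  carrier := {p | ∀ j, Dr U (e j) (p none) (p (some j))}
  add_mem' ha hb j := (ha j).add (hb j)
  zero_mem' _ := Dr.zero
  smul_mem' c _ ha j := (ha j).smul c

/-- the weak equation -/
def ResW (U : E → H →L[ℝ] H) (e : ι → E) (A : ι → ι → H →L[ℝ] H) (ε : ℝ) (u ψ : H)
    (W : ι → H) : Prop :=
  ∀ (φ : H) (Z : ι → H), (∀ j, Dr U (e j) φ (Z j)) →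
    ε * ⟪ψ, φ⟫ + ∑ j, ∑ k, ⟪A j k (W k), Z j⟫ = ⟪u, φ⟫

variable {U : E → H →L[ℝ] H} {e : ι → E} {A : ι → ι → H →L[ℝ] H} {κ ε : ℝ}

theorem res_weak [CompleteSpace H] (hc : ∀ e, IsClosed {p : H × H | Dr U e p.1 p.2})
    (hA : Ell U e A κ) (hε : 0 < ε) :
    ∃ (R : H →L[ℝ] H) (W : ι → H →L[ℝ] H), ∀ u, (∀ j, Dr U (e j) (R u) (W j u)) ∧
      ResW U e A ε u (R u) fun j => W j u := by
  have hcl : IsClosed (resG U e : Set (PiLp 2 fun _ : Option ι => H)) := by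
    have : (resG U e : Set (PiLp 2 fun _ : Option ι => H)) = ⋂ j,
        (fun p : PiLp 2 fun _ : Option ι => H => (p none, p (some j))) ⁻¹'
          {p : H × H | Dr U (e j) p.1 p.2} := by
      ext p
      simp only [mem_iInter]
      rfl
    rw [this]
    exact isClosed_iInter fun j => (hc _).preimage (by fun_prop)
  have : CompleteSpace (resG U e) := hcl.completeSpace_coe
  let π : Option ι → resG U e →L[ℝ] H := fun o =>
    (PiLp.proj 2 (fun _ : Option ι => H) o).comp (resG U e).subtypeL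
  have hπ : ∀ o (p : resG U e), π o p = p.1 o := fun _ _ => rfl
  let I : H →L[ℝ] H →L[ℝ] ℝ := innerSL ℝ
  have hI : ∀ x y, I x y = ⟪x, y⟫ := fun _ _ => rfl
  let B : resG U e →L[ℝ] resG U e →L[ℝ] ℝ := ε • I.bilinearComp (π none) (π none) +
    ∑ j, ∑ k, I.bilinearComp ((A j k).comp (π (some k))) (π (some j))
  have hB : ∀ p q, B p q = ε * ⟪π none p, π none q⟫ +
      ∑ j, ∑ k, ⟪A j k (π (some k) p), π (some j) q⟫ := fun p q => by
    simp only [B, _root_.add_apply, _root_.smul_apply,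
      _root_.sum_apply, ContinuousLinearMap.bilinearComp_apply, hI, smul_eq_mul,
      ContinuousLinearMap.comp_apply]
  have co : IsCoercive B := by
    refine ⟨min ε κ, lt_min hε hA.pos, fun p => ?_⟩
    have h1 := hA.coer (p.1 none) (fun j => p.1 (some j)) p.2
    have h2 : ‖p‖ ^ 2 = ‖p.1 none‖ ^ 2 + ∑ j, ‖p.1 (some j)‖ ^ 2 := by
      rw [← Fintype.sum_option (f := fun o => ‖p.1 o‖ ^ 2), ← PiLp.norm_sq_eq_of_L2]
      rfl
    have h3 : 0 ≤ ∑ j, ‖p.1 (some j)‖ ^ 2 := by positivity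
    rw [hB, mul_assoc, ← sq, h2, real_inner_self_eq_norm_sq]
    simp only [hπ]
    nlinarith [min_le_left ε κ, min_le_right ε κ, sq_nonneg ‖p.1 none‖]
  let sol : H →L[ℝ] resG U e :=
    (co.continuousLinearEquivOfBilin.symm : resG U e →L[ℝ] resG U e).comp (π none).adjoint
  have hs : ∀ u q, B (sol u) q = ⟪u, π none q⟫ := fun u q => by
    rw [← co.continuousLinearEquivOfBilin_apply, ← ContinuousLinearMap.adjoint_inner_left]
    simp [sol]
  refine ⟨(π none).comp sol, fun j => (π (some j)).comp sol, fun u => ⟨(sol u).2, ?_⟩⟩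
  intro φ Z hZ
  have := hs u ⟨WithLp.toLp 2 fun o => o.elim φ Z, hZ⟩
  rw [hB] at this
  exact this

theorem res_lip (hU : Rep U) (hA : Ell U e A κ) (hε : 0 < ε) {u ψ : H} {W : ι → H}
    (hW : ∀ j, Dr U (e j) ψ (W j)) (h : ResW U e A ε u ψ W) (j m : ι) (s : ℝ) :
    ‖U (s • e m) (W j) - W j‖ ≤ ‖u‖ / κ * |s| := by
  set a := s • e m with ha
  set ψ' := U a ψ - ψ with hψ'
  set W' : ι → H := fun j => U a (W j) - W j with hW'
  have d : ∀ j, Dr U (e j) ψ' (W' j) := fun j => ((hW j).shift hU a).sub (hW j)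
  have h1 := h ψ' W' d
  have h2 := h (U (-a) ψ') (fun j => U (-a) (W' j)) fun j => (d j).shift hU _
  simp only [← hU.adj, ← hA.comm] at h2
  have h3 : ε * ⟪ψ', ψ'⟫ + ∑ j, ∑ k, ⟪A j k (W' k), W' j⟫ = ⟪u, U (-a) ψ' - ψ'⟫ := by
    rw [inner_sub_right u, ← hU.adj, ← h1, ← h2]
    have : ∀ j k, ⟪A j k (W' k), W' j⟫ = ⟪A j k (U a (W k)), W' j⟫ - ⟪A j k (W k), W' j⟫ :=
      fun j k => by rw [← inner_sub_left, ← map_sub]
    simp only [this, Finset.sum_sub_distrib]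
    have : ⟪ψ', ψ'⟫ = ⟪U a ψ, ψ'⟫ - ⟪ψ, ψ'⟫ := by rw [← inner_sub_left]
    rw [this]
    ring
  have h4 := (d m).lip hU (-s)
  rw [neg_smul, ← ha, abs_neg] at h4
  have h5 := hA.coer ψ' W' d
  have h6 : ⟪u, U (-a) ψ' - ψ'⟫ ≤ ‖u‖ * (‖W' m‖ * |s|) :=
    (real_inner_le_norm _ _).trans (mul_le_mul_of_nonneg_left h4 (norm_nonneg _))
  have h7 : 0 ≤ ε * ⟪ψ', ψ'⟫ := mul_nonneg hε.le real_inner_self_nonneg
  have h8 : ∀ i, ‖W' i‖ ^ 2 ≤ ‖u‖ / κ * |s| * ‖W' m‖ := fun i => by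
    have : ‖W' i‖ ^ 2 ≤ ∑ j, ‖W' j‖ ^ 2 :=
      Finset.single_le_sum (f := fun j => ‖W' j‖ ^ 2) (fun _ _ => sq_nonneg _) (Finset.mem_univ i)
    refine this.trans (le_of_mul_le_mul_left ?_ hA.pos)
    have : κ * (‖u‖ / κ * |s| * ‖W' m‖) = ‖u‖ * (‖W' m‖ * |s|) := by
      have := hA.pos.ne'
      field_simp
    linarith
  have h9 : 0 ≤ ‖u‖ / κ * |s| := mul_nonneg (div_nonneg (norm_nonneg _) hA.pos.le) (abs_nonneg _)
  have hm : ‖W' m‖ ≤ ‖u‖ / κ * |s| := by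
    by_contra hc
    have := h8 m
    have := norm_nonneg (W' m)
    push Not at hc
    nlinarith
  refine (abs_le_of_sq_le_sq' ?_ h9).2
  exact (h8 j).trans (by nlinarith)

end

theorem res (closed : ClosedStmt) (lip : LipStmt) : ResStmt := by
  intro E H ι _ _ _ _ _ _ U e A κ ε hU hD hA hε
  obtain ⟨R, W, h⟩ := res_weak (closed E H U hU).1 hA hε
  refine ⟨R, W, fun u v => ?_, fun u => ?_⟩
  · rw [real_inner_comm, ← (h v).2 (R u) (fun j => W j u) (h u).1, real_inner_comm]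
  · have hS : ∀ j m, ∃ z, Dr U (e m) (W j u) z := fun j m =>
      lip E H U (e m) (W j u) (‖u‖ / κ) hU (hD.mono fun v (hv : ∀ j, ∃ w, Dr U (e j) v w) => hv m)
        (res_lip hU hA hε (h u).1 (h u).2 j m)
    choose S hS using hS
    refine ⟨S, ⟨(h u).1, hS⟩, ext_inner_right ℝ fun φ => ?_⟩
    refine congrFun (Continuous.ext_on hD (f := fun φ => ⟪ε • R u - ∑ j, ∑ k, A j k (S k j), φ⟫)
      (g := fun φ => ⟪u, φ⟫) (by fun_prop) (by fun_prop) fun φ hφ => ?_) φ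
    choose Z hZ using hφ
    have : ∀ j k, ⟪A j k (S k j), φ⟫ = -⟪A j k (W k u), Z j⟫ := fun j k =>
      ((hS k j).map (A j k) (hA.comm j k)).ibp hU (hZ j)
    simp only [inner_sub_left, sum_inner, real_inner_smul_left, this, Finset.sum_neg_distrib,
      sub_neg_eq_add]
    exact (h u).2 φ Z hZ

end Pool.Agent.MP_29b5d3_an.GA
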