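import Pool.Agent.MP_29b5d3_an.GE.SpecA
import Mathlib.Analysis.Calculus.ContDiff.RCLike

/-! PROJECT GE, row TST: translations form a strongly continuous representation, test maps are
differentiable and dense. -/

set_option autoImplicit false

open MeasureTheory Filter Topology Set Asymptotics
open scoped RealInnerProductSpace ContDiff

namespace Pool.Agent.MP_29b5d3_an.GA

section
variable {n : ℕ} {V : Type} [NormedAddCommGroup V] [InnerProductSpace ℝ V]

theorem tst_rep : Rep (tau : Eu n → L2 n V →L[ℝ] L2 n V) where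
  zero u := by
    ext1
    filter_upwards [tau_ae 0 u] with x a
    rw [a, add_zero]
  add a b u := by
    ext1
    filter_upwards [tau_ae (a + b) u, tau_ae a (tau b u),
      (measurePreserving_add_right volume a).quasiMeasurePreserving.ae (tau_ae b u)] with x p q r
    rw [p, q, r, add_assoc]
  inn a u v := (Lp.compMeasurePreservingₗᵢ ℝ (fun x => x + a)
    (measurePreserving_add_right volume a)).inner_map_map u v
  cont u := by
    let g : C(Eu n × Eu n, Eu n) := ⟨fun p => p.2 + p.1, by fun_prop⟩
    exact Continuous.compMeasurePreservingLp (μ := volume) (ν := volume) (f := fun _ : Eu n => u)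
      (g := fun a => g.curry a) continuous_const g.curry.continuous
      (fun a => measurePreserving_add_right volume a) (by simp)

/-- second order bound for the increment of a test map -/
theorem tst_taylor {φ : Eu n → V} (h : Tst φ) (j : Fin n) :
    ∃ L : ℝ, 0 ≤ L ∧ ∀ (x : Eu n) (s : ℝ),
      ‖φ (x + s • bs j) - φ x - s • pd j φ x‖ ≤ L * |s| * |s| := by
  obtain ⟨L, hL⟩ := ContDiff.lipschitzWith_of_hasCompactSupport (h.pd j).cs (h.pd j).sm (by simp)
  refine ⟨L * ‖bs j‖, by positivity, fun x s => ?_⟩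
  have hd : ∀ t : ℝ, HasDerivAt (fun t : ℝ => φ (x + t • bs j) - t • pd j φ x)
      (pd j φ (x + t • bs j) - pd j φ x) t := fun t => by
    have h1 : HasDerivAt (fun t : ℝ => x + t • bs j) (bs j) t := by
      simpa using ((hasDerivAt_id t).smul_const (bs j)).const_add x
    have h2 := ((h.sm.differentiable (by simp)) (x + t • bs j)).hasFDerivAt.comp_hasDerivAt t h1
    have h3 : HasDerivAt (fun t : ℝ => t • pd j φ x) (pd j φ x) t := by
      simpa using (hasDerivAt_id t).smul_const (pd j φ x)
    exact h2.sub h3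
  have := Convex.norm_image_sub_le_of_norm_hasDerivWithin_le (𝕜 := ℝ)
    (s := Metric.closedBall (0 : ℝ) |s|) (C := L * ‖bs j‖ * |s|)
    (f := fun t : ℝ => φ (x + t • bs j) - t • pd j φ x) (x := 0) (y := s)
    (fun t _ => (hd t).hasDerivWithinAt) (fun t ht => by
      have h1 := hL.norm_sub_le (x + t • bs j) x
      rw [add_sub_cancel_left, norm_smul] at h1
      have h2 : ‖t‖ ≤ |s| := by simpa using ht
      calc _ ≤ _ := h1
        _ ≤ L * (|s| * ‖bs j‖) := by gcongr
        _ = _ := by ring)
    (convex_closedBall _ _) (by simp) (by simp)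
  simp only [zero_smul, add_zero, sub_zero, Real.norm_eq_abs] at this
  rwa [sub_right_comm] at this

theorem tst_dr {φ : Eu n → V} (h : Tst φ) (j : Fin n) :
    Dr tau (bs j) (tl φ) (tl (pd j φ)) := by
  obtain ⟨L, hL0, hL⟩ := tst_taylor h j
  obtain ⟨R, hR⟩ := h.cs.isCompact.isBounded.subset_closedBall (0 : Eu n)
  have hK : MeasurableSet (Metric.closedBall (0 : Eu n) (R + ‖bs j‖)) :=
    Metric.isClosed_closedBall.measurableSet
  have hμ : volume (Metric.closedBall (0 : Eu n) (R + ‖bs j‖)) ≠ ⊤ :=
    (isCompact_closedBall _ _).measure_lt_top.ne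
  let χ : Lp ℝ 2 (volume : Measure (Eu n)) := indicatorConstLp 2 hK hμ (1 : ℝ)
  have key : ∀ s : ℝ, |s| ≤ 1 →
      ‖tau (s • bs j) (tl φ) - tl φ - s • tl (pd j φ)‖ ≤ L * |s| * |s| * ‖χ‖ := fun s hs => by
    refine Lp.norm_le_mul_norm_of_ae_le_mul ?_
    filter_upwards [Lp.coeFn_sub (tau (s • bs j) (tl φ) - tl φ) (s • tl (pd j φ)),
      Lp.coeFn_sub (tau (s • bs j) (tl φ)) (tl φ), Lp.coeFn_smul s (tl (pd j φ)),
      tau_ae (s • bs j) (tl φ), h.ae, (h.pd j).ae,
      (measurePreserving_add_right volume (s • bs j)).quasiMeasurePreserving.ae h.ae,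
      (indicatorConstLp_coeFn : ⇑χ =ᵐ[volume] _)] with x a b c d e f g i
    rw [a, Pi.sub_apply, b, Pi.sub_apply, c, Pi.smul_apply, d, e, f, g, i]
    by_cases hx : x ∈ Metric.closedBall (0 : Eu n) (R + ‖bs j‖)
    · rw [indicator_of_mem hx, norm_one, mul_one]
      exact hL x s
    · have hx' : R + ‖bs j‖ < ‖x‖ := by simpa using hx
      have h1 : x ∉ tsupport φ := fun hh => by
        have : ‖x‖ ≤ R := by simpa using hR hh
        linarith [norm_nonneg (bs j : Eu n)]
      have h2 : x + s • bs j ∉ tsupport φ := fun hh => by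
        have h3 : ‖x + s • bs j‖ ≤ R := by simpa using hR hh
        have h4 : ‖x‖ ≤ ‖x + s • bs j‖ + ‖s • bs j‖ := by
          simpa using norm_sub_le (x + s • bs j) (s • bs j)
        have h5 : ‖s • (bs j : Eu n)‖ ≤ ‖bs j‖ := by
          rw [norm_smul, Real.norm_eq_abs]
          exact mul_le_of_le_one_left (norm_nonneg _) hs
        linarith
      have h3 : pd j φ x = 0 := by
        have : fderiv ℝ φ x = 0 := by
          by_contra hne
          exact h1 (support_fderiv_subset ℝ hne)
        simp [pd, this]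
      rw [image_eq_zero_of_notMem_tsupport h1, image_eq_zero_of_notMem_tsupport h2, h3,
        indicator_of_notMem hx]
      simp
  rw [Dr, hasDerivAt_iff_isLittleO_nhds_zero]
  simp only [zero_add, zero_smul, tst_rep.zero]
  have h1 : (fun s : ℝ => tau (s • bs j) (tl φ) - tl φ - s • tl (pd j φ)) =O[𝓝 0]
      fun s : ℝ => s * s := by
    refine IsBigO.of_bound (L * ‖χ‖) ?_
    filter_upwards [Metric.closedBall_mem_nhds (0 : ℝ) one_pos] with s hs
    have := key s (by simpa using hs)
    rw [Real.norm_eq_abs, abs_mul]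
    linarith
  refine h1.trans_isLittleO ?_
  simpa using (isLittleO_id_one (E'' := ℝ) (F'' := ℝ)).mul_isBigO
    (isBigO_refl (fun s : ℝ => s) (𝓝 0))

end

theorem tst : TstStmt := by
  intro n V _ _ _
  refine ⟨tst_rep, fun φ j h => tst_dr h j, ?_⟩
  refine (Lp.dense_hasCompactSupport_contDiff (F := V) (μ := (volume : Measure (Eu n)))
    (p := 2) (by simp)).mono ?_
  rintro f ⟨g, hf, h1, h2⟩ j
  have hg : Tst g := ⟨h2, h1⟩
  have : f = tl g := by
    ext1
    filter_upwards [hf, hg.ae] with x a b
    rw [a, b]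
  exact ⟨_, this ▸ tst_dr hg j⟩

end Pool.Agent.MP_29b5d3_an.GA
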