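import Pool.Agent.MP_29b5d3_an.GE.Spec
import Pool.Agent.MP_29b5d3_an.GE.Closed
import Pool.Agent.MP_29b5d3_an.GE.Lip
import Pool.Agent.MP_29b5d3_an.GE.Res
import Pool.Agent.MP_29b5d3_an.GE.Min
import Pool.Agent.MP_29b5d3_an.GE.AbsP
import Pool.Agent.MP_29b5d3_an.GE.Tst
import Pool.Agent.MP_29b5d3_an.GE.Loc
import Pool.Agent.MP_29b5d3_an.GE.Cone
import Pool.Agent.MP_29b5d3_an.GE.Orth
import Pool.Agent.MP_29b5d3_an.GE.LevA

/-! PROJECT GE: the analysis half, assembled. -/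

set_option autoImplicit false

namespace Pool.Agent.MP_29b5d3_an

theorem GA.absPAll : GA.AbsPStmt := GA.absP GA.closed (GA.res GA.closed GA.lip) GA.minS

theorem GA.projAll : GA.ProjStmt := GA.proj GA.absPAll GA.tst (GA.loc GA.tst) GA.cone

theorem GA.orthAll : GA.OrthStmt := GA.orth GA.closed GA.tst

theorem GA.levAAll : GA.LevAStmt := GA.levA GA.closed GA.tst GA.projAll GA.orthAll

theorem GE.levA : GE.LevAStmt := fun n V _ _ _ c c' α β τ Θ h hα hβ =>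
  GA.levAAll n V c c' α β τ Θ ⟨h.adj, h.anti, h.car⟩ ⟨hα.1, hα.2⟩ ⟨hβ.1, hβ.2⟩

end Pool.Agent.MP_29b5d3_an
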