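import Pool.Agent.MP_29b5d3_an.GE.SpecB

/-! PROJECT GE, odd dimensions: from the pointwise inequality to the family of integrands. -/

set_option autoImplicit false

open MeasureTheory Filter Topology Set
open scoped RealInnerProductSpace ContDiff

namespace Pool.Agent.MP_29b5d3_an.GB

open GA

/-- PTF: the pointwise inequality for matrices -/
def PtFStmt : Prop :=
  ∀ (l : ℕ) (r j0 : ℝ), 1 ≤ l → 0 < r → r / (r + (2 * l + 1)) < j0 → ∃ c C : ℝ, 0 < c ∧ 0 ≤ C ∧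
    ∀ T ε : ℝ, 0 < T → 0 < ε → ∃ (N : ℕ) (γ ρ μ : ℕ → ℝ) (κ : ℕ → ℕ → ℝ) (c0 : ℝ),
      (∀ i, 0 < γ i) ∧ ρ 0 = 0 ∧ (∀ j, 0 ≤ ρ j) ∧
      ∀ (V : Type) [NormedAddCommGroup V] [InnerProductSpace ℝ V] [FiniteDimensional ℝ V]
        (a a' t : Fin (2 * l + 1) → V →L[ℝ] V) (P : Mt (2 * l + 1) → V), Od l a a' t P →
        ∀ (F : Mt (2 * l + 1)) (G : ℕ → V) (k : ℕ), Front N γ ρ (P F) G k →
          -(C * (min ‖F‖ T ^ r * ‖F‖ ^ (2 * l + 1))) - ε * (1 + ‖F‖ ^ (2 * l + 1)) ≤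
            Lam N γ μ κ c0 F.det (qop t a F) (P F) G ∧
          (j0 * ‖F‖ ^ (2 * l + 1) ≤ F.det →
            c * (min ‖F‖ T ^ r * ‖F‖ ^ (2 * l + 1)) - ε * (1 + ‖F‖ ^ (2 * l + 1)) ≤
              Lam N γ μ κ c0 F.det (qop t a F) (P F) G)

theorem lam_zero {n l : ℕ} {V : Type} [NormedAddCommGroup V] [InnerProductSpace ℝ V]
    {a a' t : Fin n → V →L[ℝ] V} {P : Mt n → V} (h : Od l a a' t P) (hl : 1 ≤ l) {N : ℕ}
    {γ μ : ℕ → ℝ} {κ : ℕ → ℕ → ℝ} {c0 : ℝ} (hγ : ∀ i, 0 < γ i) (G : ℕ → V) :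
    0 ≤ Lam N γ μ κ c0 (0 : Mt n).det (qop t a 0) (P 0) G := by
  have h1 : P 0 = 0 := by
    have e : (0 : ℝ) • (0 : Mt n) = 0 := by ext; simp
    simpa [zero_pow (show l ≠ 0 by omega), e] using h.hom 0 0
  have h2 : qop t a (0 : Mt n) = 0 := by simp [qop]
  rw [← h.det, h1, h2]
  simp only [Lam, inner_zero_left, zero_apply, mul_zero, sub_zero,
    Finset.sum_const_zero, add_zero]
  exact Finset.sum_nonneg fun i _ => mul_nonneg (hγ i).le (sq_nonneg _)

theorem famO (od : OdStmt) (oddA : OddAStmt) (pt : PtFStmt) (l : ℕ) (hl : 1 ≤ l) (K p : ℝ)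
    (hK : 1 < K) (h1 : ((2 * l + 1 : ℕ) : ℝ) < p)
    (h2 : p < ((2 * l + 1 : ℕ) : ℝ) * K / (K - 1)) : GE.Fam (2 * l + 1) K p := by
  set n := 2 * l + 1 with hn
  have en : (n : ℝ) = 2 * l + 1 := by rw [hn]; push_cast; ring
  have n0 : (0 : ℝ) < n := by positivity
  set r : ℝ := p - n with hr
  have r0 : 0 < r := sub_pos.2 h1
  have K0 : 0 < K := by linarith
  have hj : r / (r + (2 * l + 1)) < K⁻¹ := by
    rw [lt_div_iff₀ (sub_pos.2 hK)] at h2
    rw [← en, hr, sub_add_cancel, div_lt_iff₀ (by linarith), inv_mul_eq_div, lt_div_iff₀ K0]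
    linarith
  obtain ⟨j0, j1, j2⟩ := exists_between hj
  obtain ⟨c, C, c0, C0, H⟩ := pt l r j0 hl r0 j1
  obtain ⟨V, _, _, _, a, a', t, P, hO⟩ := od l hl
  set M : ℝ := (c + C) / (K⁻¹ - j0) with hM
  have M0 : 0 ≤ M := div_nonneg (by linarith) (by linarith)
  have M1 : M * (K⁻¹ - j0) = c + C := div_mul_cancel₀ _ (sub_pos.2 j2).ne'
  set g : Mt n → ℝ := fun A => max (-(C * ‖A‖ ^ n))
    (min (c * ‖A‖ ^ n) (-(C * ‖A‖ ^ n) + M * (A.det - j0 * ‖A‖ ^ n))) with hg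
  have g1 : ∀ A, -(C * ‖A‖ ^ n) ≤ g A := fun A => le_max_left _ _
  have g2 : ∀ A, g A ≤ c * ‖A‖ ^ n := fun A =>
    max_le (le_trans (neg_nonpos.2 (by positivity)) (by positivity)) (min_le_left _ _)
  have g3 : ∀ A : Mt n, A.det < j0 * ‖A‖ ^ n → g A ≤ -(C * ‖A‖ ^ n) := fun A h =>
    max_le le_rfl ((min_le_right _ _).trans (by nlinarith))
  have g4 : ∀ A : Mt n, ‖A‖ ^ n ≤ K * A.det → c * ‖A‖ ^ n ≤ g A := fun A h => by
    refine le_max_of_le_right (le_min le_rfl ?_)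
    have b1 : K⁻¹ * ‖A‖ ^ n ≤ A.det := by rwa [inv_mul_le_iff₀ K0]
    have b2 := mul_le_mul_of_nonneg_left b1 M0
    have b3 : M * (K⁻¹ - j0) * ‖A‖ ^ n = (c + C) * ‖A‖ ^ n := by rw [M1]
    nlinarith
  have gc : Continuous g := by
    have := ContinuousLinearMap.continuous_det (𝕜 := ℝ) (E := Eu n)
    rw [hg]
    fun_prop
  have pw : ∀ A : Mt n, ‖A‖ ^ p = ‖A‖ ^ r * ‖A‖ ^ n := fun A => by
    rw [← Real.rpow_natCast, ← Real.rpow_add' (norm_nonneg A) (by rw [hr]; linarith), hr,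
      sub_add_cancel]
  refine ⟨c, C, c0, C0, fun T hT => ?_⟩
  have m0 : ∀ A : Mt n, 0 ≤ min ‖A‖ T := fun A => le_min (norm_nonneg A) hT.le
  have m1 : ∀ A : Mt n, 0 ≤ min ‖A‖ T ^ r := fun A => Real.rpow_nonneg (m0 A) r
  have hc : Continuous fun A : Mt n => min ‖A‖ T ^ r * g A :=
    ((continuous_norm.min continuous_const).rpow_const fun _ => Or.inr r0.le).mul gc
  have z0 : min ‖(0 : Mt n)‖ T ^ r * g 0 = 0 := by
    rw [norm_zero, min_eq_left hT.le, Real.zero_rpow r0.ne', zero_mul]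
  refine ⟨fun A => min ‖A‖ T ^ r * g A, hc, fun f hf => ?_,
    ⟨T ^ r * (c + C), by positivity, fun A => ?_⟩, fun A => ?_, fun A hA => ⟨?_, fun hA' => ?_⟩⟩
  · have fc : Continuous (fderiv ℝ f) := hf.1.continuous_fderiv (by simp)
    have i1 : Integrable fun y => min ‖fderiv ℝ f y‖ T ^ r * g (fderiv ℝ f y) :=
      (hc.comp fc).integrable_of_hasCompactSupport
        ((hf.2.fderiv ℝ).comp_left (g := fun A : Mt n => min ‖A‖ T ^ r * g A) z0)
    set w : Eu n → ℝ := (tsupport f).indicator fun y => 1 + ‖fderiv ℝ f y‖ ^ n with hw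
    have i2 : Integrable w :=
      (integrable_indicator_iff (isClosed_tsupport f).measurableSet).2
        (ContinuousOn.integrableOn_compact hf.2 (by fun_prop))
    have w0 : 0 ≤ ∫ y, w y :=
      integral_nonneg fun y => indicator_nonneg (fun _ _ => by positivity) y
    refine le_of_forall_pos_le_add fun δ hδ => ?_
    set ε : ℝ := δ / ((∫ y, w y) + 1) with hε
    have ε0 : 0 < ε := by positivity
    have ε1 : ε * ((∫ y, w y) + 1) = δ := div_mul_cancel₀ _ (by positivity)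
    obtain ⟨N, γ, ρ, μ, κ, d, hγ, hρ, hρ', H'⟩ := H T ε hT ε0
    have key := oddA n l V a a' t P N γ ρ μ κ d f
      (fun y => min ‖fderiv ℝ f y‖ T ^ r * g (fderiv ℝ f y) - ε * w y) hO hγ hρ hρ' ⟨hf.1, hf.2⟩
      (i1.sub (i2.const_mul ε)) fun y G k hG => by
        by_cases hy : y ∈ tsupport f
        · obtain ⟨b1, b2⟩ := H' V a a' t P hO _ G k hG
          rw [hw, indicator_of_mem hy]
          rcases lt_or_ge (fderiv ℝ f y).det (j0 * ‖fderiv ℝ f y‖ ^ n) with b | b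
          · have := mul_le_mul_of_nonneg_left (g3 _ b) (m1 (fderiv ℝ f y))
            refine le_trans ?_ b1
            linarith
          · have := mul_le_mul_of_nonneg_left (g2 (fderiv ℝ f y)) (m1 (fderiv ℝ f y))
            refine le_trans ?_ (b2 b)
            linarith
        · rw [hw, indicator_of_notMem hy, fderiv_of_notMem_tsupport ℝ hy, z0, mul_zero, sub_zero]
          exact lam_zero hO hl hγ G
    rw [integral_sub i1 (i2.const_mul ε), integral_const_mul] at key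
    show ∫ y, min ‖fderiv ℝ f y‖ T ^ r * g (fderiv ℝ f y) ≤ 0 + δ
    linarith
  · rw [abs_mul, abs_of_nonneg (m1 A), mul_assoc]
    refine mul_le_mul (Real.rpow_le_rpow (m0 A) (min_le_right _ _) r0.le) (abs_le.2 ⟨?_, ?_⟩)
      (abs_nonneg _) (by positivity)
    · nlinarith [g1 A, mul_nonneg c0.le (pow_nonneg (norm_nonneg A) n)]
    · nlinarith [g2 A, mul_nonneg C0 (pow_nonneg (norm_nonneg A) n)]
  · have b1 := mul_le_mul_of_nonneg_left (g1 A) (m1 A)
    have b2 := mul_le_mul_of_nonneg_right (Real.rpow_le_rpow (m0 A) (min_le_left _ _) r0.le)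
      (mul_nonneg C0 (pow_nonneg (norm_nonneg A) n))
    rw [pw]
    nlinarith
  · exact mul_nonneg (m1 A) (le_trans (by positivity) (g4 A hA))
  · have b1 := mul_le_mul_of_nonneg_left (g4 A hA) (m1 A)
    show _ ≤ min ‖A‖ T ^ r * g A
    rw [min_eq_left hA'] at b1 ⊢
    rw [pw]
    linarith

end Pool.Agent.MP_29b5d3_an.GB
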