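import Pool.Agent.MP_29b5d3_an.GE.SpecB

/-! PROJECT GE, row B-MUL: multiplication by a test function. -/

set_option autoImplicit false

open MeasureTheory Filter Topology Set Asymptotics
open scoped RealInnerProductSpace ContDiff

namespace Pool.Agent.MP_29b5d3_an.GB

open GA

namespace Mul

variable {n : ℕ} {V : Type} [NormedAddCommGroup V] [InnerProductSpace ℝ V]

theorem memLp_smul {φ : Eu n → ℝ} (h : Tst φ) {C : ℝ} (hC : ∀ x, ‖φ x‖ ≤ C) (u : L2 n V) :
    MemLp (fun x => φ x • u x) 2 (volume : Measure (Eu n)) := by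
  refine MemLp.of_le_mul (c := C) (Lp.memLp u)
    (h.sm.continuous.aestronglyMeasurable.smul (Lp.aestronglyMeasurable u)) ?_
  filter_upwards with x
  rw [norm_smul]
  exact mul_le_mul_of_nonneg_right (hC x) (norm_nonneg _)

theorem ex {φ : Eu n → ℝ} (h : Tst φ) :
    ∃ M : L2 n V →L[ℝ] L2 n V, ∀ u, ∀ᵐ x, M u x = φ x • u x := by
  obtain ⟨C, hC⟩ := h.sm.continuous.bounded_above_of_compact_support h.cs
  have ae : ∀ u : L2 n V, ∀ᵐ x, tl (fun x => φ x • u x) x = φ x • u x :=
    fun u => tl_ae (memLp_smul h hC u)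
  let A : L2 n V →ₗ[ℝ] L2 n V :=
    { toFun := fun u => tl fun x => φ x • u x
      map_add' := fun u v => by
        ext1
        filter_upwards [ae (u + v), ae u, ae v, Lp.coeFn_add u v,
          Lp.coeFn_add (tl fun x => φ x • u x) (tl fun x => φ x • v x)] with x a b c d e
        rw [a, e, Pi.add_apply, b, c, d, Pi.add_apply, smul_add]
      map_smul' := fun s u => by
        ext1
        filter_upwards [ae (s • u), ae u, Lp.coeFn_smul s u,
          Lp.coeFn_smul s (tl fun x => φ x • u x)] with x a b c d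
        rw [RingHom.id_apply, a, d, Pi.smul_apply, b, c, Pi.smul_apply, smul_comm] }
  refine ⟨A.mkContinuous C fun u => ?_, ae⟩
  refine Lp.norm_le_mul_norm_of_ae_le_mul ?_
  filter_upwards [ae u] with x a
  change ‖tl (fun x => φ x • u x) x‖ ≤ _
  rw [a, norm_smul]
  exact mul_le_mul_of_nonneg_right (hC x) (norm_nonneg _)

theorem dr {φ : Eu n → ℝ} (h : Tst φ) (j : Fin n) {M M' : L2 n V →L[ℝ] L2 n V}
    (hM : ∀ u, ∀ᵐ x, M u x = φ x • u x) (hM' : ∀ u, ∀ᵐ x, M' u x = pd j φ x • u x)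
    {u w : L2 n V} (hu : Dr tau (bs j) u w) : Dr tau (bs j) (M u) (M' u + M w) := by
  obtain ⟨L, hL0, hL⟩ := tst_taylor h j
  let R : ℝ → L2 n V := fun s =>
    tau (s • bs j) (M u) - M (tau (s • bs j) u) - s • M' (tau (s • bs j) u)
  have key : ∀ s : ℝ, ‖R s‖ ≤ L * |s| * |s| * ‖u‖ := fun s => by
    rw [← tst_rep.norm_eq (s • bs j) u]
    refine Lp.norm_le_mul_norm_of_ae_le_mul ?_
    filter_upwards [Lp.coeFn_sub (tau (s • bs j) (M u) - M (tau (s • bs j) u))
        (s • M' (tau (s • bs j) u)),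
      Lp.coeFn_sub (tau (s • bs j) (M u)) (M (tau (s • bs j) u)),
      Lp.coeFn_smul s (M' (tau (s • bs j) u)), tau_ae (s • bs j) (M u),
      (measurePreserving_add_right volume (s • bs j)).quasiMeasurePreserving.ae (hM u),
      hM (tau (s • bs j) u), hM' (tau (s • bs j) u), tau_ae (s • bs j) u] with x a b c d e f g i
    change ‖(tau (s • bs j) (M u) - M (tau (s • bs j) u) - s • M' (tau (s • bs j) u) :
      L2 n V) x‖ ≤ _
    rw [a, Pi.sub_apply, b, Pi.sub_apply, c, Pi.smul_apply, d, e, f, g, i, smul_smul, ← sub_smul,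
      ← sub_smul, norm_smul]
    exact mul_le_mul_of_nonneg_right (hL x s) (norm_nonneg _)
  have hR : HasDerivAt R 0 0 := by
    rw [hasDerivAt_iff_isLittleO_nhds_zero]
    have h0 : R 0 = 0 := by simpa using key 0
    simp only [zero_add, h0, smul_zero, sub_zero]
    have h1 : R =O[𝓝 0] fun s : ℝ => s * s := by
      refine IsBigO.of_bound (L * ‖u‖) (Eventually.of_forall fun s => ?_)
      have := key s
      rw [Real.norm_eq_abs, abs_mul]
      linarith
    refine h1.trans_isLittleO ?_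
    simpa using (isLittleO_id_one (E'' := ℝ) (F'' := ℝ)).mul_isBigO
      (isBigO_refl (fun s : ℝ => s) (𝓝 0))
  have h1 : HasDerivAt (fun s : ℝ => M (tau (s • bs j) u)) (M w) 0 :=
    M.hasFDerivAt.comp_hasDerivAt (0 : ℝ) hu
  have h2 : HasDerivAt (fun s : ℝ => M' (tau (s • bs j) u)) (M' w) 0 :=
    M'.hasFDerivAt.comp_hasDerivAt (0 : ℝ) hu
  have h3 := (hR.fun_add h1).fun_add ((hasDerivAt_id (0 : ℝ)).fun_smul h2)
  simp only [id, zero_smul, one_smul, tst_rep.zero, zero_add] at h3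
  rw [Dr, add_comm]
  refine h3.congr_of_eventuallyEq (Eventually.of_forall fun s => ?_)
  simp only [R]
  abel

end Mul

theorem mul : MulStmt := by
  intro n V _ _ _
  have ex : ∀ φ : Eu n → ℝ, ∃ M : L2 n V →L[ℝ] L2 n V, Tst φ → ∀ u, ∀ᵐ x, M u x = φ x • u x :=
    fun φ => by
      by_cases h : Tst φ
      · obtain ⟨M, hM⟩ := Mul.ex (V := V) h
        exact ⟨M, fun _ => hM⟩
      · exact ⟨0, fun h' => absurd h' h⟩
  choose m hm using ex
  exact ⟨m, hm, fun φ h j u w hu => Mul.dr h j (hm φ h) (hm _ (h.pd j)) hu⟩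

end Pool.Agent.MP_29b5d3_an.GB
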