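import Pool.Agent.MP_29b5d3_an.GE.SpecB

/-! PROJECT GE, row NULL: the null Lagrangian with a differential as coefficient. -/

set_option autoImplicit false

open MeasureTheory Filter Topology Set
open scoped RealInnerProductSpace ContDiff

namespace Pool.Agent.MP_29b5d3_an.GB

open GA

namespace Null

variable {n : ℕ} {V : Type} [NormedAddCommGroup V] [InnerProductSpace ℝ V]
  {c c' t : Fin n → V →L[ℝ] V}

theorem anti (h : Car c c') (s : Fin n → Fin n → ℝ) (hs : ∀ j k, s j k = s k j) (a : V) :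
    ∑ k, ∑ j, s j k • c k (c j a) = 0 := by
  have e : ∑ k, ∑ j, s j k • c k (c j a) = -∑ k, ∑ j, s j k • c k (c j a) := by
    conv_rhs => rw [Finset.sum_comm]
    simp only [← Finset.sum_neg_distrib]
    refine Finset.sum_congr rfl fun k _ => Finset.sum_congr rfl fun j _ => ?_
    rw [h.cc k j, hs j k, smul_neg]
  rw [eq_neg_iff_add_eq_zero, ← two_smul ℝ] at e
  simpa using e

theorem alg (h : Car c c') (ht : ∀ i j x, t i (c j x) = c' j (t i x))
    (s : Fin n → Fin n → Fin n → ℝ) (hs : ∀ i j k, s i j k = s i k j) (r : Fin n → Fin n → ℝ)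
    (a : V) (d : Fin n → V) :
    ∑ k, c' k (∑ i, ∑ j, t i (s i j k • c j a + r i j • c j (d k))) =
      -∑ i, ∑ j, r i j • t i (c j (∑ k, c k (d k))) := by
  have e1 : ∀ i, ∑ k, ∑ j, c' k (t i (s i j k • c j a + r i j • c j (d k))) =
      -∑ j, r i j • t i (c j (∑ k, c k (d k))) := by
    intro i
    have e2 : ∑ k, ∑ j, c' k (t i (s i j k • c j a + r i j • c j (d k))) =
        t i (∑ k, ∑ j, s i j k • c k (c j a)) + ∑ k, ∑ j, -(r i j • t i (c j (c k (d k)))) := by
      simp only [map_sum, ← Finset.sum_add_distrib]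
      refine Finset.sum_congr rfl fun k _ => Finset.sum_congr rfl fun j _ => ?_
      rw [← ht, map_add, map_smul, map_smul, h.cc k j (d k), map_add, map_smul, map_smul, map_neg,
        smul_neg]
    rw [e2, anti h (s i) (hs i), map_zero, zero_add, Finset.sum_comm]
    simp only [map_sum, Finset.smul_sum, Finset.sum_neg_distrib]
  simp only [map_sum (c' _)]
  rw [Finset.sum_comm, ← Finset.sum_neg_distrib]
  exact Finset.sum_congr rfl fun i _ => e1 i

theorem pd_proj {f : Eu n → Eu n} (hf : Tst f) (i j : Fin n) (x : Eu n) :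
    pd j (fun y => (EuclideanSpace.proj i : Eu n →L[ℝ] ℝ) (f y)) x = fderiv ℝ f x (bs j) i := by
  have d : HasFDerivAt f (fderiv ℝ f x) x := (hf.sm.differentiable (by simp) x).hasFDerivAt
  have := ((EuclideanSpace.proj i : Eu n →L[ℝ] ℝ).hasFDerivAt.comp x d).fderiv
  unfold pd
  rw [show (fun y => (EuclideanSpace.proj i : Eu n →L[ℝ] ℝ) (f y)) =
    (EuclideanSpace.proj i : Eu n →L[ℝ] ℝ) ∘ f from rfl, this]
  rfl

end Null

theorem null (mul : MulStmt) : NullStmt := by
  intro n V _ _ _ c c' t f E E' h ht hf ⟨a, D, hD, hE⟩ ⟨a', D', hD', hE'⟩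
  obtain ⟨m, m1, m2⟩ := mul n V
  set φ : Fin n → Eu n → ℝ := fun i y => (EuclideanSpace.proj i : Eu n →L[ℝ] ℝ) (f y) with hφ
  have tφ : ∀ i, Tst (φ i) := fun i => hf.map _
  set B : Fin n → L2 n V := fun k => ∑ i, ∑ j, op (t i)
    (m (pd k (pd j (φ i))) (op (c j) a) + m (pd j (φ i)) (op (c j) (D k))) with hB
  have dB : ∀ k, Dr tau (bs k) (∑ i, ∑ j, op (t i) (m (pd j (φ i)) (op (c j) a))) (B k) :=
    fun k => Dr.sum fun i _ => Dr.sum fun j _ =>
      (m2 _ ((tφ i).pd j) k _ _ ((hD k).op (c j))).op (t i)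
  have key := or_core closed tst h hD' dB
  rw [← hE', inner_L2] at key
  have b1 : ∀ᵐ x, ∀ k i j, (op (t i) (m (pd k (pd j (φ i))) (op (c j) a) +
      m (pd j (φ i)) (op (c j) (D k))) : L2 n V) x =
      t i (pd k (pd j (φ i)) x • c j (a x) + pd j (φ i) x • c j (D k x)) := by
    simp only [ae_all_iff]
    intro k i j
    filter_upwards [op_ae (t i) (m (pd k (pd j (φ i))) (op (c j) a) +
        m (pd j (φ i)) (op (c j) (D k))),
      Lp.coeFn_add (m (pd k (pd j (φ i))) (op (c j) a)) (m (pd j (φ i)) (op (c j) (D k))),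
      m1 _ (((tφ i).pd j).pd k) (op (c j) a), m1 _ ((tφ i).pd j) (op (c j) (D k)),
      op_ae (c j) a, op_ae (c j) (D k)] with x e1 e2 e3 e4 e5 e6
    rw [e1, e2, Pi.add_apply, e3, e4, e5, e6]
  have b2 : ∀ᵐ x, ∀ k i, (∑ j, op (t i) (m (pd k (pd j (φ i))) (op (c j) a) +
      m (pd j (φ i)) (op (c j) (D k))) : L2 n V) x = ∑ j, (op (t i)
      (m (pd k (pd j (φ i))) (op (c j) a) + m (pd j (φ i)) (op (c j) (D k))) : L2 n V) x := by
    simp only [ae_all_iff]
    exact fun k i => sum_ae _ _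
  have b3 : ∀ᵐ x, ∀ k, B k x = ∑ i, (∑ j, op (t i) (m (pd k (pd j (φ i))) (op (c j) a) +
      m (pd j (φ i)) (op (c j) (D k))) : L2 n V) x := by
    simp only [ae_all_iff]
    exact fun k => sum_ae _ _
  have b4 : ∀ᵐ x, ∀ k, (op (c' k) (B k) : L2 n V) x = c' k (B k x) := by
    simp only [ae_all_iff]
    exact fun k => op_ae _ _
  have b5 : ∀ᵐ x, ∀ k, (op (c k) (D k) : L2 n V) x = c k (D k x) := by
    simp only [ae_all_iff]
    exact fun k => op_ae _ _
  rw [← neg_eq_zero, ← integral_neg, ← key]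
  refine integral_congr_ae ?_
  filter_upwards [b1, b2, b3, b4, b5, sum_ae Finset.univ fun k => op (c' k) (B k),
    sum_ae Finset.univ fun k => op (c k) (D k)] with x e1 e2 e3 e4 e5 e6 e7
  have e8 : E x = ∑ k, c k (D k x) := by
    rw [hE, e7]
    exact Finset.sum_congr rfl fun k _ => e5 k
  have e9 : (∑ k, op (c' k) (B k) : L2 n V) x = -qop t c (fderiv ℝ f x) (E x) := by
    rw [e6, qop_apply, e8]
    simp only [e4, e3, e2, e1]
    rw [Null.alg h ht (fun i j k => pd k (pd j (φ i)) x)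
      (fun i j k => pd_comm (tφ i).sm k j x) (fun i j => pd j (φ i) x)]
    simp only [hφ, Null.pd_proj hf]
  rw [e9, inner_neg_right, real_inner_comm]

end Pool.Agent.MP_29b5d3_an.GB
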