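import Pool.Agent.MP_29b5d3_an.GE.SpecB

/-! PROJECT GE, row OD: the value space in odd dimension. -/

set_option autoImplicit false

open scoped RealInnerProductSpace

namespace Pool.Agent.MP_29b5d3_an.GB

open GA

section

variable {n : ℕ} {V : Type} [NormedAddCommGroup V] [InnerProductSpace ℝ V]
  {a a' c c' : Fin n → V →L[ℝ] V} {Ω : V} {T : V →L[ℝ] V}

theorem od_key (h : Fk a a' c c' Ω) (s : Star a a' c c' Ω T) (F : Mt n) (x y : V) :
    ⟪x, T (qop a c F y)⟫ = -⟪qop a c F x, T y⟫ := by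
  simp only [qop_apply, map_sum, map_smul, inner_sum, sum_inner, real_inner_smul_left,
    real_inner_smul_right, ← Finset.sum_neg_distrib]
  refine Finset.sum_congr rfl fun i _ => Finset.sum_congr rfl fun j _ => ?_
  rw [s.ta, s.tc, map_neg, neg_neg, ← h.ca.adj, ← h.cc.adj, h.x1, inner_neg_left]
  ring

theorem od_pow (h : Fk a a' c c' Ω) (s : Star a a' c c' Ω T) (F : Mt n) (k : ℕ) (x y : V) :
    ⟪x, T ((qop a c F ^ k) y)⟫ = (-1) ^ k * ⟪(qop a c F ^ k) x, T y⟫ := by
  induction k generalizing x with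
  | zero => simp
  | succ k ih =>
    rw [pow_succ' (qop a c F), mul_apply_eq_comp, od_key h s, real_inner_comm,
      real_inner_comm, ih, ← mul_apply_eq_comp, ← pow_succ, ← pow_succ']
    ring

theorem od_q (e : ℝ) (F : Mt n) (x : V) :
    qop (fun i => e • T.comp (a i)) c F x = e • T (qop a c F x) := by
  simp only [qop_apply, map_sum, map_smul, Finset.smul_sum, smul_apply,
    ContinuousLinearMap.comp_apply, smul_comm e]

theorem od_succ (X : V →L[ℝ] V) (k : ℕ) (x : V) : X ((X ^ k) x) = (X ^ (k + 1)) x := by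
  rw [pow_succ', mul_apply_eq_comp]

theorem od_rk (s : ℝ) (u v : Eu n) : rk (s • u) v = s • rk u v := by
  ext1 x
  simp [rk_apply, smul_comm s]

end

theorem od (fk : FkStmt) (star : StarStmt) (comm : CommStmt) (sl2 : Sl2Stmt) (xdet : XdetStmt)
    (xbd : XbdStmt) (xform : XformStmt) : OdStmt := by
  intro l hl
  obtain ⟨V, _, _, _, a, a', c, c', Ω, h⟩ := fk (2 * l + 1)
  obtain ⟨T, s⟩ := star _ V a a' c c' Ω h
  obtain ⟨-, -, cm⟩ := comm _ V a a' c c' Ω h
  set ν : ℝ := ‖(qop a c 1 ^ l) Ω‖ with hν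
  have one : Iso (1 : Mt (2 * l + 1)) := fun v => rfl
  have n2 : ν ^ 2 = (l.factorial : ℝ) ^ 2 * (2 * l + 1).choose l := sl2 _ V a a' c c' Ω h 1 one l
  have n3 : ((l : ℝ) + 1) * ν ^ 2 = (2 * l + 1).factorial := by
    have := Nat.choose_mul_factorial_mul_factorial (n := 2 * l + 1) (k := l) (by omega)
    rw [show 2 * l + 1 - l = l + 1 by omega, Nat.factorial_succ l] at this
    rw [n2, ← this]
    push_cast
    ring
  have l0 : (0 : ℝ) < l + 1 := by positivity
  have f0 : (0 : ℝ) < (2 * l + 1).factorial := by positivity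
  have n0 : 0 < ν := by
    refine (norm_nonneg _).lt_of_ne fun e => ?_
    rw [← hν] at e
    rw [← e] at n3
    simp at n3
    exact f0.ne' n3.symm
  set e : ℝ := (-1) ^ (l + 1) / (l + 1) with he
  refine ⟨V, inferInstance, inferInstance, inferInstance, c, c', fun i => e • T.comp (a i),
    fun F => ν⁻¹ • (qop a c F ^ l) Ω, h.cc, fun i j x => ?_, fun F x y => ?_, fun F x => ?_,
    fun F => ?_, fun r F => ?_, fun F u v r => ?_, fun F u v => ?_, fun R hR => ?_, fun f hf => ?_⟩
  · simp only [smul_apply, ContinuousLinearMap.comp_apply, h.x1, map_neg, s.tc,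
      neg_neg, map_smul]
  · rw [od_q, od_q, real_inner_smul_left, real_inner_smul_right, s.adj, od_key h s, pow_succ,
      pow_mul]
    simp
  · have := xbd _ V a a' c c' Ω h F x
    rw [od_q, norm_smul, s.iso, he, norm_div, norm_pow, norm_neg, norm_one, one_pow,
      Real.norm_of_nonneg l0.le, one_div, inv_mul_le_iff₀ l0]
    refine this.trans (le_of_eq ?_)
    push_cast
    ring
  · have t1 : ⟪(qop a c 1 ^ (2 * l + 1)) Ω, T Ω⟫ = (2 * l + 1).factorial := by
      rw [← s.top, real_inner_smul_left, real_inner_self_eq_norm_sq, s.iso, h.n1]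
      simp
    rw [od_q, map_smul, map_smul, real_inner_smul_left, real_inner_smul_right,
      real_inner_smul_right, od_succ, od_pow h s,
      ← mul_apply_eq_comp, ← pow_add, show l + 1 + l = 2 * l + 1 by omega,
      xdet _ V a a' c c' Ω h, real_inner_smul_left, t1, ← n3, he]
    have : ((-1 : ℝ) ^ (l + 1)) ^ 2 = 1 := by rw [← pow_mul, mul_comm, pow_mul]; simp
    field_simp
    linear_combination F.det * this
  · simp only [qop_smul, smul_pow, smul_apply, smul_comm ν⁻¹]
  · obtain ⟨k, rfl⟩ : ∃ k, l = k + 1 := ⟨l - 1, by omega⟩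
    simp only [← od_rk, cm]
    simp only [od_rk, qop_smul, smul_mul_assoc, add_apply,
      smul_apply]
    module
  · simp only [od_q, map_smul, od_succ]
    simp only [cm, add_apply, smul_apply, map_add, map_smul, mul_apply_eq_comp]
    module
  · have := sl2 _ V a a' c c' Ω h R hR l
    rw [← n2, sq_eq_sq₀ (norm_nonneg _) n0.le] at this
    rw [norm_smul, this, norm_inv, Real.norm_of_nonneg n0.le, inv_mul_cancel₀ n0.ne']
  · obtain ⟨k, rfl⟩ : ∃ k, l = k + 1 := ⟨l - 1, by omega⟩
    obtain ⟨α, h1, h2⟩ := xform _ V a a' c c' Ω h f hf k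
    refine ⟨fun y => ν⁻¹ • α y, h1.map (ν⁻¹ • ContinuousLinearMap.id ℝ V), fun y => ?_⟩
    rw [← h2, dop, dop, Finset.smul_sum]
    refine Finset.sum_congr rfl fun j _ => ?_
    rw [pd, pd, fderiv_fun_const_smul (h1.sm.differentiable (by simp) y), ← map_smul]
    rfl

end Pool.Agent.MP_29b5d3_an.GB
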