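import Pool.Agent.MP_29b5d3_an.GE.SpecB

/-! PROJECT GE, row B-ODD0: the inequality for one field and a quadratic null Lagrangian. -/

set_option autoImplicit false

open MeasureTheory Filter Topology Set
open scoped RealInnerProductSpace ContDiff

namespace Pool.Agent.MP_29b5d3_an.GB

open GA

variable {n : ℕ} {V : Type} [NormedAddCommGroup V] [InnerProductSpace ℝ V]

theorem o0_mul (t c : Fin n → V →L[ℝ] V) {f : Eu n → Eu n} (hf : Tst f) :
    ∃ (M : ℝ) (Q : L2 n V → L2 n V), 0 ≤ M ∧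
      (∀ u, ∀ᵐ y, Q u y = qop t c (fderiv ℝ f y) (u y)) ∧ (∀ u, ‖Q u‖ ≤ M * ‖u‖) ∧
      ∀ u v, Q (u + v) = Q u + Q v := by
  have c1 : Continuous fun y => qop t c (fderiv ℝ f y) :=
    (continuous_qop t c).comp (hf.sm.continuous_fderiv (by simp))
  have c2 : HasCompactSupport fun y => qop t c (fderiv ℝ f y) :=
    (hf.cs.fderiv ℝ).comp_left (g := qop t c) (by simp [qop])
  obtain ⟨M, hM⟩ := c1.bounded_above_of_compact_support c2
  have M0 : 0 ≤ M := (norm_nonneg _).trans (hM 0)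
  have b : ∀ (u : L2 n V) y, ‖qop t c (fderiv ℝ f y) (u y)‖ ≤ M * ‖u y‖ := fun u y =>
    (ContinuousLinearMap.le_opNorm _ _).trans (mul_le_mul_of_nonneg_right (hM y) (norm_nonneg _))
  have m : ∀ u : L2 n V, MemLp (fun y => qop t c (fderiv ℝ f y) (u y)) 2 volume := fun u =>
    (Lp.memLp u).of_le_mul
      ((isBoundedBilinearMap_apply (𝕜 := ℝ)).continuous.comp_aestronglyMeasurable
        (c1.aestronglyMeasurable.prodMk (Lp.aestronglyMeasurable u)))
      (Eventually.of_forall (b u))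
  refine ⟨M, fun u => tl fun y => qop t c (fderiv ℝ f y) (u y), M0, fun u => tl_ae (m u),
    fun u => Lp.norm_le_mul_norm_of_ae_le_mul ?_, fun u v => ?_⟩
  · filter_upwards [tl_ae (m u)] with y hy
    rw [hy]
    exact b u y
  · ext1
    filter_upwards [tl_ae (m (u + v)), tl_ae (m u), tl_ae (m v), Lp.coeFn_add u v,
      Lp.coeFn_add (tl fun y => qop t c (fderiv ℝ f y) (u y))
        (tl fun y => qop t c (fderiv ℝ f y) (v y))] with y h1 h2 h3 h4 h5
    rw [h1, h5, Pi.add_apply, h2, h3, h4, Pi.add_apply, map_add]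

theorem odd0 (null : NullStmt) (projC : ProjCStmt) : Odd0Stmt := by
  intro n V ι _ _ _ _ c c' t1 t2 K π f α Θ hc h1 h2 p1 p2 k1 k2 k3 hf hα hΘ H
  obtain ⟨M1, Q1, m1, a1, b1, d1⟩ := o0_mul t1 c hf
  obtain ⟨M2, Q2, m2, a2, b2, -⟩ := o0_mul t2 c hf
  set P : L2 n V := tl (dop c α) with hP
  have eP : Exact c P := exact_tl hα
  have aP : ∀ᵐ y, P y = dop c α y := (hα.dop c).ae
  have key : ∀ η : ℝ, 0 < η → η ≤ 1 →
      ∫ y, Θ y ≤ η * (3 * ‖P‖ + 1 + 2 * (M1 * ‖P‖) + M1 + M2 * ‖P‖) := fun η η0 η1 => by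
    obtain ⟨G, E, ψ, eE, g1, g2, g3, g4, g5⟩ := projC n V c c' K P η hc k1 k2 k3 eP η0
    have i1 := L2.integrable_inner (𝕜 := ℝ) G (G - P)
    have i2 := L2.integrable_inner (𝕜 := ℝ) (Q1 G) G
    have i3 := L2.integrable_inner (𝕜 := ℝ) (Q2 P) G
    have s1 : ∫ y, Θ y ≤ ⟪G, G - P⟫ + ⟪Q1 G, G⟫ + ⟪Q2 P, G⟫ := by
      rw [inner_L2, inner_L2, inner_L2, ← integral_add' i1 i2, ← integral_add' (i1.add i2) i3]
      refine integral_mono_ae hΘ ((i1.add i2).add i3) ?_
      filter_upwards [g4, ae_all_iff.2 fun i => g5 (π i) (p1 i) (p2 i), aP, a1 G, a2 P,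
        Lp.coeFn_sub G P] with y y1 y2 y3 y4 y5 y6
      have := H y (G y) y1.1 (ψ y) y1.2 (by rwa [← y3])
      simpa only [Pi.add_apply, y4, y5, y6, Pi.sub_apply, y3] using this
    have n1 : ⟪Q1 E, E⟫ = 0 := by
      rw [inner_L2, ← null n V c c' t1 f E E hc h1 hf eE eE]
      exact integral_congr_ae ((a1 E).mono fun y hy => by simp only [hy])
    have n2 : ⟪Q2 P, E⟫ = 0 := by
      rw [inner_L2, ← null n V c c' t2 f P E hc h2 hf eP eE]
      exact integral_congr_ae ((a2 P).mono fun y hy => by simp only [hy])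
    obtain ⟨D, rfl⟩ : ∃ D, G = E + D := ⟨G - E, by abel⟩
    rw [add_sub_cancel_left] at g1
    have cs : ∀ (u v : L2 n V) (a b : ℝ), ‖u‖ ≤ a → ‖v‖ ≤ b → ⟪u, v⟫ ≤ a * b := fun u v a b x y =>
      (real_inner_le_norm u v).trans (mul_le_mul x y (norm_nonneg _) ((norm_nonneg _).trans x))
    have e1 := cs E D _ _ g2 g1
    have e2 := cs D (E - P) _ _ g1 ((norm_sub_le _ _).trans (add_le_add g2 le_rfl))
    have e3 := cs D D _ _ g1 (g1.trans η1)
    have e4 := cs (Q1 E) D _ _ ((b1 E).trans (mul_le_mul_of_nonneg_left g2 m1)) g1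
    have e5 := cs (Q1 D) E _ _ ((b1 D).trans (mul_le_mul_of_nonneg_left g1 m1)) g2
    have e6 := cs (Q1 D) D _ _ ((b1 D).trans (mul_le_mul_of_nonneg_left g1 m1)) (g1.trans η1)
    have e7 := cs (Q2 P) D _ _ (b2 P) g1
    rw [show E + D - P = E - P + D by abel, d1] at s1
    simp only [inner_add_left, inner_add_right] at s1
    linarith
  set C := 3 * ‖P‖ + 1 + 2 * (M1 * ‖P‖) + M1 + M2 * ‖P‖ with hC
  have C0 : 0 < C := by positivity
  refine le_of_forall_pos_le_add fun ε hε => ?_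
  refine (key (min 1 (ε / C)) (by positivity) (min_le_left _ _)).trans ?_
  rw [zero_add, ← le_div_iff₀ C0]
  exact min_le_right _ _

end Pool.Agent.MP_29b5d3_an.GB
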