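import Pool.Agent.MP_29b5d3_an.GE.SpecB

/-! PROJECT GE, row ODDA: a finite family of levels in the cumulative body. -/

set_option autoImplicit false
set_option linter.unusedSectionVars false

open MeasureTheory Filter Topology Set
open scoped RealInnerProductSpace ContDiff

namespace Pool.Agent.MP_29b5d3_an.GB

open GA

namespace OddA

noncomputable section

/-- the total space -/
abbrev Tot (N : ℕ) (V : Type) : Type := PiLp 2 fun _ : Fin N => V

variable {n N : ℕ} {V : Type} [NormedAddCommGroup V] [InnerProductSpace ℝ V]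

/-- a map into the total space from its components -/
def mk {X : Type} [NormedAddCommGroup X] [NormedSpace ℝ X] (g : Fin N → X →L[ℝ] V) :
    X →L[ℝ] Tot N V :=
  (PiLp.continuousLinearEquiv 2 ℝ fun _ : Fin N => V).symm.toContinuousLinearMap.comp
    (ContinuousLinearMap.pi g)

theorem mk_apply {X : Type} [NormedAddCommGroup X] [NormedSpace ℝ X] (g : Fin N → X →L[ℝ] V)
    (x : X) (i : Fin N) : mk g x i = g i x := rfl

/-- the component, extended by zero -/
def ex (i : ℕ) : Tot N V →L[ℝ] V :=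
  if h : i < N then PiLp.proj 2 (fun _ : Fin N => V) ⟨i, h⟩ else 0

theorem ex_fin (i : Fin N) (G : Tot N V) : ex i G = G i := by
  rw [ex, dif_pos i.2]
  rfl

/-- the diagonal action -/
def dg (s : V →L[ℝ] V) : Tot N V →L[ℝ] Tot N V := mk fun i => s.comp (ex i)

theorem dg_apply (s : V →L[ℝ] V) (G : Tot N V) (i : Fin N) : dg s G i = s (G i) := by
  rw [dg, mk_apply, ContinuousLinearMap.comp_apply, ex_fin]

/-- a matrix of multiples of one operator -/
def mat (k : Fin N → Fin N → ℝ) (s : V →L[ℝ] V) : Tot N V →L[ℝ] Tot N V :=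
  mk fun i => ∑ m, k m i • s.comp (ex m)

theorem mat_apply (k : Fin N → Fin N → ℝ) (s : V →L[ℝ] V) (G : Tot N V) (i : Fin N) :
    mat k s G i = ∑ m, k m i • s (G m) := by
  simp only [mat, mk_apply, sum_apply, smul_apply,
    ContinuousLinearMap.comp_apply, ex_fin]

/-- one component, put in all the slots -/
def cp (m : Fin N) : Tot N V →L[ℝ] Tot N V := mk fun _ => ex m

theorem cp_apply (m : Fin N) (G : Tot N V) (i : Fin N) : cp m G i = G m := by
  rw [cp, mk_apply, ex_fin]

theorem cp_dg (m : Fin N) (s : V →L[ℝ] V) (G : Tot N V) : cp m (dg s G) = dg s (cp m G) := by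
  ext i
  simp only [cp_apply, dg_apply]

theorem car_dg {c c' : Fin n → V →L[ℝ] V} (h : Car c c') :
    Car (fun j => (dg (c j) : Tot N V →L[ℝ] Tot N V)) fun j => dg (c' j) where
  adj j x y := by simp only [PiLp.inner_apply, dg_apply, h.adj]
  cc j k x := by
    ext i
    simp only [PiLp.neg_apply, dg_apply]
    exact h.cc j k _
  cd j k x := by
    ext i
    simp only [PiLp.add_apply, dg_apply, h.cd]
    split_ifs <;> rfl

theorem mat_dg {s u u' : V →L[ℝ] V} (h : ∀ x, s (u x) = u' (s x)) (k : Fin N → Fin N → ℝ)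
    (G : Tot N V) : mat k s (dg u G) = dg u' (mat k s G) := by
  ext i
  simp only [mat_apply, dg_apply, h, map_sum, map_smul]

theorem sum_tot {ι : Type} (s : Finset ι) (g : ι → Tot N V) (i : Fin N) :
    (∑ a ∈ s, g a) i = ∑ a ∈ s, g a i := by
  simp only [← ex_fin, map_sum]

theorem qop_mat (t c : Fin n → V →L[ℝ] V) (k : Fin N → Fin N → ℝ) (F : Mt n) (G : Tot N V)
    (i : Fin N) : qop (fun a => mat k (t a)) (fun b => dg (c b)) F G i =
      ∑ m, k m i • qop t c F (G m) := by
  simp only [qop_apply, sum_tot, PiLp.smul_apply, mat_apply, dg_apply, Finset.smul_sum]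
  rw [Finset.sum_comm (f := fun m a => ∑ b, k m i • F (bs b) a • t a (c b (G m)))]
  refine Finset.sum_congr rfl fun a _ => ?_
  rw [Finset.sum_comm]
  exact Finset.sum_congr rfl fun m _ => Finset.sum_congr rfl fun b _ => smul_comm _ _ _

theorem dop_map {c : Fin n → V →L[ℝ] V} {α : Eu n → V} (h : Tst α) (g : Fin N → ℝ) (y : Eu n)
    (i : Fin N) : dop (fun j => dg (c j)) (fun x => mk (fun m => g m • ContinuousLinearMap.id ℝ V)
      (α x)) y i = g i • dop c α y := by
  have e : ∀ j, pd j (fun x => mk (fun m => g m • ContinuousLinearMap.id ℝ V) (α x)) y =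
      mk (fun m => g m • ContinuousLinearMap.id ℝ V) (pd j α y) := fun j =>
    congrArg (fun L : Eu n →L[ℝ] Tot N V => L (bs j))
      ((mk fun m => g m • ContinuousLinearMap.id ℝ V).hasFDerivAt.comp y
        (h.sm.differentiable (by simp) y).hasFDerivAt).fderiv
  simp only [dop, sum_tot, dg_apply, e, mk_apply, Finset.smul_sum, smul_apply,
    ContinuousLinearMap.id_apply, map_smul]

/-- the cumulative body -/
def body (N : ℕ) (V : Type) [NormedAddCommGroup V] [InnerProductSpace ℝ V] (ρ : ℕ → ℝ) :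
    Set (Tot N V) := {G | ∀ j ≤ N, ∑ i ∈ Finset.range j, ‖ex i G‖ ^ 2 ≤ ρ j}

theorem body_closed (ρ : ℕ → ℝ) : IsClosed (body N V ρ) := by
  simp only [body, ofPred_forall]
  exact isClosed_iInter fun j => isClosed_iInter fun _ => isClosed_le (by fun_prop) continuous_const

theorem body_convex (ρ : ℕ → ℝ) : Convex ℝ (body N V ρ) := by
  intro x hx y hy a b ha hb hab j hj
  have e : ∀ i, ‖ex i (a • x + b • y)‖ ^ 2 ≤ a * ‖ex i x‖ ^ 2 + b * ‖ex i y‖ ^ 2 := fun i => by
    have h1 : ‖ex i (a • x + b • y)‖ ≤ a * ‖ex i x‖ + b * ‖ex i y‖ := by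
      rw [map_add, map_smul, map_smul]
      refine (norm_add_le _ _).trans ?_
      rw [norm_smul, norm_smul, Real.norm_of_nonneg ha, Real.norm_of_nonneg hb]
    have h2 := pow_le_pow_left₀ (norm_nonneg _) h1 2
    have h3 := mul_nonneg (mul_nonneg ha hb) (sq_nonneg (‖ex i x‖ - ‖ex i y‖))
    obtain rfl : b = 1 - a := by linarith
    nlinarith
  refine (Finset.sum_le_sum fun i _ => e i).trans ?_
  rw [Finset.sum_add_distrib, ← Finset.mul_sum, ← Finset.mul_sum]
  have h1 := mul_le_mul_of_nonneg_left (hx j hj) ha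
  have h2 := mul_le_mul_of_nonneg_left (hy j hj) hb
  have : a * ρ j + b * ρ j = ρ j := by rw [← add_mul, hab, one_mul]
  linarith

/-- the front -/
theorem front {ρ : ℕ → ℝ} (h0 : ρ 0 = 0) {G ψ : Tot N V} (hG : G ∈ body N V ρ)
    (hψ : ∀ k ∈ body N V ρ, ⟪ψ, k - G⟫ ≤ 0) :
    ∃ k ≤ N, ∑ i ∈ Finset.range k, ‖ex i G‖ ^ 2 = ρ k ∧ ∀ m : Fin N, k ≤ m → ψ m = 0 := by
  classical
  let Q : ℕ → Prop := fun j => ∑ i ∈ Finset.range j, ‖ex i G‖ ^ 2 = ρ j
  refine ⟨Nat.findGreatest Q N, Nat.findGreatest_le N,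
    Nat.findGreatest_spec (P := Q) (Nat.zero_le N) (by simp [Q, h0]), fun m hm => ?_⟩
  let Z : Tot N V := mk (fun i => if i = m then ex m else 0) ψ
  have hZ : ∀ i, Z i = if i = m then ψ m else 0 := fun i => by
    simp only [Z, mk_apply]
    split_ifs
    · exact ex_fin m ψ
    · rfl
  have ev : ∀ᶠ s : ℝ in 𝓝 0, ∀ j ∈ Finset.range (N + 1),
      ∑ i ∈ Finset.range j, ‖ex i (G + s • Z)‖ ^ 2 ≤ ρ j := by
    refine (eventually_all_finset _).2 fun j hj => ?_
    have hj' : j ≤ N := Nat.lt_succ_iff.1 (Finset.mem_range.1 hj)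
    rcases le_or_gt j m with a | a
    · refine Eventually.of_forall fun s => (hG j hj').trans_eq' ?_
      refine Finset.sum_congr rfl fun i hi => ?_
      have hi' : i < m := (Finset.mem_range.1 hi).trans_le a
      have : ex i Z = 0 := by
        rw [show i = ((⟨i, hi'.trans m.2⟩ : Fin N) : ℕ) from rfl, ex_fin, hZ, if_neg]
        exact fun b => hi'.ne (congrArg Fin.val b)
      rw [map_add, map_smul, this, smul_zero, add_zero]
    · have hlt : ∑ i ∈ Finset.range j, ‖ex i G‖ ^ 2 < ρ j :=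
        (hG j hj').lt_of_ne (Nat.findGreatest_is_greatest (P := Q) (hm.trans_lt a) hj')
      have hc : Continuous fun s : ℝ => ∑ i ∈ Finset.range j, ‖ex i (G + s • Z)‖ ^ 2 := by
        fun_prop
      exact (hc.continuousAt.eventually_lt continuousAt_const (by simpa using hlt)).mono
        fun s b => b.le
  obtain ⟨s, hs, hs'⟩ := ((ev.filter_mono (nhdsWithin_le_nhds (s := Ioi 0))).and
    self_mem_nhdsWithin).exists
  have h1 := hψ (G + s • Z) fun j hj => hs j (Finset.mem_range.2 (Nat.lt_succ_iff.2 hj))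
  have h2 : ⟪ψ, Z⟫ = ‖ψ m‖ ^ 2 := by
    rw [PiLp.inner_apply, Finset.sum_eq_single m (fun i _ b => by simp [hZ, b]) (by simp), hZ,
      if_pos rfl, real_inner_self_eq_norm_sq]
  rw [add_sub_cancel_left, real_inner_smul_right, h2] at h1
  have h3 : ‖ψ m‖ ^ 2 ≤ 0 := nonpos_of_mul_nonpos_right h1 hs'
  simpa using le_antisymm h3 (sq_nonneg _)

end

end OddA

open OddA in
theorem oddA (null : NullStmt) (odd0 : Odd0Stmt) : OddAStmt := by
  intro n l V _ _ _ c c' t P N γ ρ μ κ c0 f Θ od hγ h0 hρ hf hΘ H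
  obtain ⟨α, hα, eα⟩ := od.exact f hf
  let r : ℕ → ℝ := fun i => √(γ i)
  have r0 : ∀ i, r i ≠ 0 := fun i => (Real.sqrt_pos.2 (hγ i)).ne'
  have r2 : ∀ i, γ i = r i * r i := fun i => (Real.mul_self_sqrt (hγ i).le).symm
  have eJ : ∀ y, (fderiv ℝ f y).det = ⟪qop t c (fderiv ℝ f y) (dop c α y), dop c α y⟫ := fun y => by
    rw [eα, real_inner_comm, od.det]
  have iJ : Integrable fun y => (fderiv ℝ f y).det := by
    simp only [eJ]
    have hd := hα.dop c
    refine Continuous.integrable_of_hasCompactSupport ?_ (hd.cs.mono fun y hy b => hy ?_)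
    · exact (((continuous_qop t c).comp (hf.sm.continuous_fderiv (by simp))).clm_apply
        hd.sm.continuous).inner hd.sm.continuous
    · simp only [b, inner_zero_right]
  have zJ : ∫ y, (fderiv ℝ f y).det = 0 := by
    rw [← null n V c c' t f _ _ od.car od.int hf (exact_tl hα) (exact_tl hα)]
    refine integral_congr_ae ?_
    filter_upwards [(hα.dop c).ae] with y a
    rw [a, eJ]
  have key := odd0 n (Tot N V) (Fin N) (fun j => dg (c j)) (fun j => dg (c' j))
    (fun a => mat (fun m i => κ m i / (r m * r i)) (t a))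
    (fun a => mat (fun m i => if m = i then μ i / γ i else 0) (t a)) (body N V ρ) cp f
    (fun x => mk (fun m : Fin N => r m • ContinuousLinearMap.id ℝ V) (α x))
    (fun y => Θ y - c0 * (fderiv ℝ f y).det) (car_dg od.car)
    (fun i j => mat_dg (od.int i j) _) (fun i j => mat_dg (od.int i j) _)
    (fun i j => cp_dg i _) (fun i j => cp_dg i _) (body_closed ρ) (body_convex ρ)
    (fun j _ => by simpa using hρ j) hf (hα.map _) (hΘ.sub (iJ.const_mul c0)) ?_
  · rwa [integral_sub hΘ (iJ.const_mul c0), integral_const_mul, zJ, mul_zero, sub_zero] at key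
  intro y G hG ψ hψ hπ
  obtain ⟨k, hk, tight, top⟩ := front h0 hG hψ
  obtain ⟨g, eg⟩ : ∃ g : ℕ → V, ∀ i, ex i G = r i • g i :=
    ⟨fun i => (r i)⁻¹ • ex i G, fun i => (smul_inv_smul₀ (r0 i) _).symm⟩
  have eG : ∀ i : Fin N, G i = r i • g i := fun i => by rw [← eg, ex_fin]
  have en : ∀ i, γ i * ‖g i‖ ^ 2 = ‖ex i G‖ ^ 2 := fun i => by
    rw [eg, norm_smul, mul_pow, Real.norm_eq_abs, sq_abs, r2 i, sq (r i)]
  have hF : Front N γ ρ (P (fderiv ℝ f y)) g k := by
    refine ⟨hk, fun j hj => ?_, ?_, fun i a b => ?_⟩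
    · simpa only [en] using hG j hj
    · simpa only [en] using tight
    · have h1 := hπ ⟨i, b⟩ (by
        ext m
        rw [cp_apply, top ⟨i, b⟩ a]
        rfl)
      have h2 := congrArg (fun Z : Tot N V => Z ⟨i, b⟩) h1
      simp only [cp_apply, dop_map hα, eG, eα] at h2
      exact smul_right_injective V (r0 i) h2
  have h1 := H y g k hF
  rw [sub_le_iff_le_add]
  refine h1.trans_eq ?_
  simp only [Lam, PiLp.inner_apply, PiLp.sub_apply, qop_mat, dop_map hα, eα, eG,
    Finset.sum_range, ite_smul, zero_smul, Finset.sum_ite_eq', Finset.mem_univ, if_true, sum_inner,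
    map_smul, real_inner_smul_left, real_inner_smul_right, ← smul_sub]
  rw [Finset.sum_comm (f := fun i m : Fin N => κ i m * _)]
  have e1 : ∀ i : Fin N, r i * (r i * ⟪g i, g i - P (fderiv ℝ f y)⟫) =
      γ i * (‖g i‖ ^ 2 - ⟪P (fderiv ℝ f y), g i⟫) := fun i => by
    rw [inner_sub_right, real_inner_self_eq_norm_sq, real_inner_comm, r2 i, mul_assoc]
  have e2 : ∀ (m i : Fin N) (z : ℝ), r i * (κ m i / (r m * r i) * (r m * z)) = κ m i * z :=
    fun m i z => by field_simp [r0 i, r0 m]
  have e3 : ∀ (i : Fin N) (z : ℝ), r i * (μ i / γ i * (r i * z)) = μ i * z :=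
    fun i z => by rw [r2 i]; field_simp [r0 i]
  simp only [e1, e2, e3]
  ring

end Pool.Agent.MP_29b5d3_an.GB
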