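import Pool.Agent.MP_29b5d3_an.GE.SpecB
import Pool.Agent.MP_29b5d3_an.GE.AbsP2

/-! PROJECT GE, odd dimensions: projection of an exact field among exact fields. -/

set_option autoImplicit false

open MeasureTheory Filter Topology Set
open scoped RealInnerProductSpace ContDiff

namespace Pool.Agent.MP_29b5d3_an.GB

open GA

section
variable {n : ℕ} {V : Type} [NormedAddCommGroup V] [InnerProductSpace ℝ V]
  {c c' : Fin n → V →L[ℝ] V}

theorem pc_op (A B : V →L[ℝ] V) (θ : ℝ) (u : L2 n V) :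
    op (A + θ • B) u = op A u + θ • op B u := by
  ext1
  filter_upwards [op_ae (A + θ • B) u, lv_add (op A u) (op B u) θ, op_ae A u, op_ae B u]
    with x a1 a2 a3 a4
  rw [a1, a2, a3, a4]
  rfl

theorem pc_sq (h : Car c c') (W : Fin n → L2 n V) :
    ∑ j, ∑ k, ⟪op ((c j).comp (c' k)) (W k), W j⟫ = ‖∑ k, op (c' k) (W k)‖ ^ 2 := by
  rw [← real_inner_self_eq_norm_sq, inner_sum]
  refine Finset.sum_congr rfl fun j _ => ?_
  rw [sum_inner]
  exact Finset.sum_congr rfl fun k _ => by rw [← op_op, op_adj (h.adj j)]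

theorem pc_adj (h : Car c c') (j k : Fin n) (x y : L2 n V) :
    ⟪op ((c j).comp (c' k)) x, y⟫ = ⟪x, op ((c k).comp (c' j)) y⟫ := by
  rw [← op_op, ← op_op, op_adj (h.adj j), op_adj (h.symm.adj k)]

theorem pc_ell [FiniteDimensional ℝ V] (h : Car c c') {θ : ℝ} (h0 : 0 < θ) (h1 : θ ≤ 1) :
    Ell tau bs (fun j k : Fin n =>
      (op ((c j).comp (c' k) + θ • (c' j).comp (c k)) : L2 n V →L[ℝ] L2 n V)) θ where
  pos := h0
  comm j k a x := op_tau _ a x
  symm j k x y := by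
    rw [pc_op, pc_op, inner_add_left, inner_add_right, real_inner_smul_left,
      real_inner_smul_right, pc_adj h, pc_adj h.symm]
  coer ψ W hW := by
    have : CompleteSpace V := FiniteDimensional.complete ℝ V
    have ex := (closed (Eu n) (L2 n V) tau (tst n V).1).2.2
    have e1 : ∑ j, ∑ k, ⟪op ((c' j).comp (c k)) (W k), W j⟫ =
        ∑ j, ∑ k, ⟪op ((c' k).comp (c j)) (W k), W j⟫ := by
      rw [Finset.sum_comm]
      exact Finset.sum_congr rfl fun j _ => Finset.sum_congr rfl fun k _ =>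
        ex (bs j) (bs k) _ ψ _ _ _ _ ((hW j).op _) ((hW k).op _) (hW j) (hW k)
    have e2 : ∑ j, ∑ k, ⟪op ((c j).comp (c' k)) (W k), W j⟫ +
        ∑ j, ∑ k, ⟪op ((c' j).comp (c k)) (W k), W j⟫ = ∑ j, ‖W j‖ ^ 2 := by
      rw [e1, ← Finset.sum_add_distrib]
      refine Finset.sum_congr rfl fun j _ => ?_
      rw [← Finset.sum_add_distrib]
      simp only [← inner_add_left, lv_cd h]
      rw [← sum_inner]
      simp only [Finset.sum_ite_eq, Finset.mem_univ, if_true, real_inner_self_eq_norm_sq]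
    have e3 := pc_sq h W
    simp only [pc_op, inner_add_left, real_inner_smul_left, Finset.sum_add_distrib,
      ← Finset.mul_sum]
    rw [← e2]
    nlinarith [sq_nonneg ‖∑ k, op (c' k) (W k)‖]

end

theorem projC : ProjCStmt := by
  intro n V _ _ _ c c' K P η hc hK hv h0 ⟨a, D, hD, hP⟩ hη
  have : CompleteSpace V := FiniteDimensional.complete ℝ V
  obtain ⟨hR, -, hDn⟩ := tst n V
  obtain ⟨c1, c2, c3, c4, c5⟩ := cone n V K hK hv h0
  obtain ⟨θ, t0, t1, t2⟩ : ∃ θ : ℝ, 0 < θ ∧ θ ≤ 1 ∧ θ * ‖P‖ ^ 2 ≤ (η / 2) ^ 2 := by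
    refine ⟨min 1 ((η / 2) ^ 2 / (‖P‖ ^ 2 + 1)), by positivity, min_le_left _ _, ?_⟩
    have h := min_le_right 1 ((η / 2) ^ 2 / (‖P‖ ^ 2 + 1))
    have h' : 0 < min 1 ((η / 2) ^ 2 / (‖P‖ ^ 2 + 1)) := by positivity
    rw [le_div_iff₀ (by positivity)] at h
    nlinarith
  obtain ⟨G, hG, ψ, W, S, ε, e0, hH, h1, h2, h3, h4⟩ := absP2 (Eu n) (L2 n V) (Fin n) tau bs
    _ θ (CK n K) (fun j => op (c j) a) (fun j => op (c j) (D j)) ((η / 2) ^ 2) hR hDn
    (pc_ell hc t0 t1) c1 c2 c3 c4 (fun j => (hD j).op _) (by positivity)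
  rw [← hP] at h3
  have sy : ∀ j k, S j k = S k j := fun j k =>
    ((closed (Eu n) (L2 n V) tau hR).2.1 _ _ _ _ _ _ (hH.d1 j) (hH.d1 k)
      (hH.d2 j k)).unique (hH.d2 k j)
  have d1 : ∀ j, Dr tau (bs j) (∑ k, op (c' k) (W k)) (∑ k, op (c' k) (S k j)) := fun j =>
    Dr.sum fun k _ => (hH.d2 k j).op (c' k)
  have d2 : ∀ j, Dr tau (bs j) (∑ k, op (c k) (W k)) (∑ k, op (c k) (S k j)) := fun j =>
    Dr.sum fun k _ => (hH.d2 k j).op (c k)
  have o1 := or_core closed tst hc hD d2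
  have o2 := or_core closed tst hc d1 d2
  rw [← hP] at o1
  have hE : Exact c (P + ∑ j, op (c j) (∑ k, op (c' k) (S k j))) :=
    ⟨_, _, fun j => (hD j).add (d1 j), by simp only [hP, map_add, Finset.sum_add_distrib]⟩
  have eL : ∑ j, op (c j) (∑ k, op (c' k) (S k j)) + ∑ j, op (c' j) (∑ k, op (c k) (S k j)) =
      ∑ j, S j j := by
    simp only [map_sum, op_op]
    rw [Finset.sum_comm (f := fun j k => op ((c' j).comp (c k)) (S k j)),
      ← Finset.sum_add_distrib]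
    refine Finset.sum_congr rfl fun j _ => ?_
    simp only [← Finset.sum_add_distrib, sy j, lv_cd hc, Finset.sum_ite_eq, Finset.mem_univ,
      if_true]
  have eA : ∑ j, ∑ k, op ((c j).comp (c' k) + θ • (c' j).comp (c k)) (S k j) =
      ∑ j, op (c j) (∑ k, op (c' k) (S k j)) + θ • ∑ j, op (c' j) (∑ k, op (c k) (S k j)) := by
    simp only [pc_op, map_sum, op_op, Finset.sum_add_distrib, Finset.smul_sum]
  have k1 : ⟪G, ∑ j, S j j⟫ ≤ 0 := by
    rw [inner_sum]
    exact Finset.sum_nonpos fun j _ => h2 j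
  have k2 : ⟪ψ, ∑ j, S j j⟫ ≤ 0 := by
    rw [inner_sum]
    refine Finset.sum_nonpos fun j _ => ?_
    have := Dr.ibp hR (hH.d1 j) (hH.d2 j j)
    linarith [real_inner_self_nonneg (x := W j)]
  have h5 := h3
  rw [eA] at h5
  rw [← eL] at k1 k2
  generalize ∑ j, op (c j) (∑ k, op (c' k) (S k j)) = L at *
  generalize ∑ j, op (c' j) (∑ k, op (c k) (S k j)) = M at *
  have eG : G = P + L + θ • M - ε • ψ := by rw [← h5]; abel
  have k3 : ⟪P + L, L⟫ + θ * ‖M‖ ^ 2 ≤ 0 := by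
    have k4 := mul_nonneg e0.le (neg_nonneg.2 k2)
    rw [eG, inner_sub_left, inner_add_left, real_inner_smul_left, real_inner_smul_left,
      inner_add_right, inner_add_right M, inner_add_left P L M, o1, o2, real_inner_comm L M, o2,
      real_inner_self_eq_norm_sq M] at k1
    linarith
  have k5 : ⟪P + L, L⟫ = ‖P + L‖ ^ 2 - ⟪P + L, P⟫ := by
    rw [← real_inner_self_eq_norm_sq, ← inner_sub_right, add_sub_cancel_left]
  have k6 := real_inner_le_norm (P + L) P
  have k7 : 0 ≤ θ * ‖M‖ ^ 2 := by positivity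
  have k8 : ‖P + L‖ ≤ ‖P‖ := by
    by_contra h
    have h := not_le.1 h
    nlinarith [norm_nonneg P]
  refine ⟨G, P + L, ψ, hE, ?_, k8, by rw [add_sub_cancel_left]; linarith, ?_, fun π p1 p2 => ?_⟩
  · have a1 : ‖θ • M‖ ≤ η / 2 := by
      refine (pow_le_pow_iff_left₀ (norm_nonneg _) (by positivity) two_ne_zero).1 ?_
      rw [norm_smul, Real.norm_of_nonneg t0.le]
      have a2 : θ * ‖M‖ ^ 2 ≤ ‖P‖ ^ 2 := by
        nlinarith [norm_nonneg P, norm_nonneg (P + L), sq_nonneg (‖P + L‖ - ‖P‖)]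
      nlinarith [mul_le_mul_of_nonneg_left a2 t0.le]
    have a2 : ‖ε • ψ‖ ≤ η / 2 :=
      (pow_le_pow_iff_left₀ (norm_nonneg _) (by positivity) two_ne_zero).1 h4
    have a3 : G - (P + L) = θ • M - ε • ψ := by rw [eG]; abel
    rw [a3]
    linarith [norm_sub_le (θ • M) (ε • ψ)]
  · filter_upwards [hG, c5 ψ G hG h1] with x a1 a2 using ⟨a1, a2⟩
  · have l1 : ∀ᵐ x, ∀ j, (op π ψ : L2 n V) x = 0 → (op π (W j) : L2 n V) x = 0 :=
      ae_all_iff.2 fun j => loc tst n V _ _ _ ((hH.d1 j).op π)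
    have l2 : ∀ᵐ x, ∀ j k, (op π (W j) : L2 n V) x = 0 → (op π (S j k) : L2 n V) x = 0 :=
      ae_all_iff.2 fun j => ae_all_iff.2 fun k => loc tst n V _ _ _ ((hH.d2 j k).op π)
    set B : Fin n → Fin n → V →L[ℝ] V := fun j k => (c j).comp (c' k) + θ • (c' j).comp (c k)
      with hB
    have l3 : ∀ᵐ x, ∀ j k, op (B j k) (S k j) x = B j k (S k j x) :=
      ae_all_iff.2 fun j => ae_all_iff.2 fun k => op_ae _ _
    have l4 : ∀ᵐ x, ∀ j, (∑ k, op (B j k) (S k j) : L2 n V) x = ∑ k, op (B j k) (S k j) x :=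
      ae_all_iff.2 fun j => sum_ae _ _
    filter_upwards [l1, l2, l3, l4, op_ae π ψ, ae_all_iff.2 fun j => ae_all_iff.2 fun k =>
      op_ae π (S j k), sum_ae Finset.univ fun j => ∑ k, op (B j k) (S k j), Lp.coeFn_smul ε ψ,
      Lp.coeFn_add P (∑ j, ∑ k, op (B j k) (S k j)),
      Lp.coeFn_sub (P + ∑ j, ∑ k, op (B j k) (S k j)) G]
      with x a1 a2 a3 a4 a5 a6 a8 a9 a10 a11 hx
    have hS : ∀ j k, π (B j k (S k j x)) = 0 := fun j k => by
      have : π (S k j x) = 0 := (a6 k j).symm.trans (a2 k j (a1 k (a5.trans hx)))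
      simp [hB, p1, p2, this]
    rw [h3, a9, Pi.sub_apply, a10, Pi.add_apply, a8, Pi.smul_apply] at a11
    have a12 := congrArg π a11
    simp only [a4, a3, map_sub, map_add, map_sum, map_smul, hS, hx, smul_zero,
      Finset.sum_const_zero, add_zero] at a12
    exact (sub_eq_zero.1 a12.symm).symm

end Pool.Agent.MP_29b5d3_an.GB
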