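import Pool.Agent.MP_29b5d3_an.GE.SpecB
import Pool.Agent.MP_29b5d3_an.GE.Ball

/-! PROJECT GE, odd dimensions, row RED: reduction to the two vertices. -/

set_option autoImplicit false

open Set
open scoped RealInnerProductSpace

namespace Pool.Agent.MP_29b5d3_an.GB

open GA

noncomputable section

variable {n : ℕ} (w u : OrthonormalBasis (Fin n) ℝ (Eu n))

/-- the map with prescribed singular values -/
def redM (a : Fin n → ℝ) : Mt n := ∑ i, a i • rk (u i) (w i)

theorem redM_apply (a : Fin n → ℝ) (i : Fin n) : redM w u a (w i) = a i • u i := by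
  simp [redM, rk_apply, w.inner_eq_ite]

theorem redM_ext {F G : Mt n} (h : ∀ i, F (w i) = G (w i)) : F = G := by
  refine ContinuousLinearMap.ext fun v => ?_
  rw [← w.sum_repr' v, map_sum, map_sum]
  exact Finset.sum_congr rfl fun i _ => by rw [map_smul, map_smul, h i]

theorem redM_det (a : Fin n → ℝ) : (redM w u a).det = (∏ i, a i) * w.toBasis.det u := by
  have h := w.toBasis.det_comp (redM w u a).toLinearMap w.toBasis
  rw [Module.Basis.det_self, mul_one] at h
  have e : ((redM w u a).toLinearMap : Eu n → Eu n) ∘ w.toBasis = fun i => a i • u i := by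
    funext i
    simpa using redM_apply w u a i
  rw [ContinuousLinearMap.det, ← h, e]
  exact w.toBasis.det.map_smul_univ a u

theorem redM_iso (a : Fin n → ℝ) (k : ∀ i, |a i| = 1) : Iso (redM w u a) := fun v => by
  refine (sq_eq_sq₀ (norm_nonneg _) (norm_nonneg _)).1 ?_
  rw [← u.sum_sq_inner_right, ← w.sum_sq_inner_right]
  refine Finset.sum_congr rfl fun i _ => ?_
  have := sq_abs (a i)
  rw [k i] at this
  simp [redM, rk_apply, inner_sum, inner_smul_right, u.inner_eq_ite, mul_pow, ← this]

theorem redM_update (a : Fin n → ℝ) (i : Fin n) (t : ℝ) :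
    redM w u (Function.update a i t) =
      redM w u (Function.update a i 0) + t • rk (u i) (w i) := by
  refine redM_ext w fun j => ?_
  rcases eq_or_ne j i with rfl | c
  · simp [redM_apply, rk_apply]
  · simp [redM_apply, rk_apply, c, w.inner_eq_zero c.symm]

/-- affine in each singular value -/
theorem redM_aff {Λ : Mt n → ℝ} (h : RkAff Λ) (a : Fin n → ℝ) (i : Fin n) :
    ∃ c : ℝ, ∀ t, Λ (redM w u (Function.update a i t)) =
      Λ (redM w u (Function.update a i 0)) + t * c :=
  ⟨_, fun t => by rw [redM_update, h]; rfl⟩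

/-- the face with a vanishing singular value -/
theorem red_zero {Λ : Mt n → ℝ} {σ m0 : ℝ} (h : RkAff Λ) (hσ : 0 < σ)
    (h0 : ∀ R, Iso R → R.det = 1 → ∀ v : Eu n, ‖v‖ = 1 → m0 ≤ Λ (σ • (R - rk (R v) v)))
    (i : Fin n) (A : Finset (Fin n)) : ∀ a : Fin n → ℝ, a i = 0 → (∀ j, |a j| ≤ σ) →
      (∀ j ∉ A, j ≠ i → |a j| = σ) → m0 ≤ Λ (redM w u a) := by
  induction A using Finset.induction_on with
  | empty =>
    intro a hi _ k
    set d : ℝ := w.toBasis.det u with hd
    have d1 : |d| = 1 := by
      rcases w.det_to_matrix_orthonormalBasis_real u with c | c <;> simp [hd, c]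
    set π : ℝ := ∏ j ∈ Finset.univ.erase i, a j / σ with hπ
    have e1 : ∀ j, j ≠ i → |a j / σ| = 1 := fun j c => by
      rw [abs_div, k j (by simp) c, abs_of_pos hσ, div_self hσ.ne']
    have π1 : |π| = 1 := by
      rw [hπ, Finset.abs_prod]
      exact Finset.prod_eq_one fun j c => e1 j (Finset.ne_of_mem_erase c)
    set ε := Function.update (fun j => a j / σ) i (π * d) with hε
    have ε1 : ∀ j, |ε j| = 1 := fun j => by
      rcases eq_or_ne j i with rfl | c
      · simp [hε, abs_mul, π1, d1]
      · simpa [hε, c] using e1 j c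
    have dε : (redM w u ε).det = 1 := by
      rw [redM_det, hε, Finset.prod_update_of_mem (Finset.mem_univ i),
        Finset.sdiff_singleton_eq_erase, ← hπ, ← hd]
      have p1 := sq_abs π
      have p2 := sq_abs d
      rw [π1] at p1
      rw [d1] at p2
      calc π * d * π * d = π ^ 2 * d ^ 2 := by ring
        _ = 1 := by rw [← p1, ← p2]; norm_num
    convert h0 _ (redM_iso w u ε ε1) dε (w i) (w.norm_eq_one i) using 2
    refine redM_ext w fun j => ?_
    rcases eq_or_ne j i with rfl | c
    · simp [redM_apply, rk_apply, hi]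
    · simp [redM_apply, rk_apply, hε, c, w.inner_eq_zero c.symm, smul_smul,
        mul_div_cancel₀ _ hσ.ne']
  | insert j A _ ih =>
    intro a hi k k'
    rcases eq_or_ne j i with rfl | ne
    · exact ih a hi k fun m z z' => k' m (by simp [z, z']) z'
    obtain ⟨c, hc⟩ := redM_aff w u h a j
    have one : ∀ t, |t| = σ → m0 ≤ Λ (redM w u (Function.update a j t)) := fun t ht =>
      ih _ (by simp [ne.symm, hi]) (fun m => by rcases eq_or_ne m j with rfl | z <;> simp [*])
        fun m z z' => by
          rcases eq_or_ne m j with rfl | z''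
          · simp [ht]
          · simpa [z''] using k' m (by simp [z, z'']) z'
    have p1 := one σ (abs_of_pos hσ)
    have p2 := one (-σ) (by rw [abs_neg, abs_of_pos hσ])
    have p3 := abs_le.1 (k j)
    rw [← Function.update_eq_self j a, hc]
    rw [hc] at p1 p2
    rcases le_total 0 c with z | z <;> nlinarith [p3.1, p3.2]

theorem red_pos {Λ : Mt n → ℝ} {σ mI m0 : ℝ} (h : RkAff Λ) (hσ : 0 < σ)
    (hI : ∀ R, Iso R → R.det = 1 → mI ≤ Λ (σ • R))
    (h0 : ∀ R, Iso R → R.det = 1 → ∀ v : Eu n, ‖v‖ = 1 → m0 ≤ Λ (σ • (R - rk (R v) v)))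
    (hd : w.toBasis.det u = 1) (A : Finset (Fin n)) : ∀ a : Fin n → ℝ, (∀ j, 0 ≤ a j ∧ a j ≤ σ) →
      (∀ j ∉ A, a j = σ) →
      (∏ j, a j) / σ ^ n * mI + (1 - (∏ j, a j) / σ ^ n) * m0 ≤ Λ (redM w u a) := by
  induction A using Finset.induction_on with
  | empty =>
    intro a _ k
    have e : a = fun _ => σ := funext fun j => k j (by simp)
    have e2 : redM w u a = σ • redM w u fun _ => 1 :=
      redM_ext w fun j => by simp [redM_apply, e]
    have := hI _ (redM_iso w u (fun _ => 1) fun _ => abs_one) (by simp [redM_det, hd])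
    rw [e2, e]
    simpa [div_self (pow_pos hσ n).ne'] using this
  | insert j A _ ih =>
    intro a k k'
    obtain ⟨c, hc⟩ := redM_aff w u h a j
    have p1 := ih (Function.update a j σ)
      (fun m => by rcases eq_or_ne m j with rfl | z <;> simp [*, hσ.le]) fun m z => by
        rcases eq_or_ne m j with rfl | z'
        · simp
        · simpa [z'] using k' m (by simp [z, z'])
    have p2 := red_zero w u h hσ h0 j Finset.univ (Function.update a j 0) (by simp)
      (fun m => by
        rcases eq_or_ne m j with rfl | z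
        · simp [hσ.le]
        · simpa [z, abs_of_nonneg (k m).1] using (k m).2) (by simp)
    have e : ∀ t, ∏ m, Function.update a j t m = t * ∏ m ∈ Finset.univ \ {j}, a m := fun t =>
      Finset.prod_update_of_mem (Finset.mem_univ j) a t
    rw [← Function.update_eq_self j a, hc, e]
    rw [hc, e] at p1
    set π := ∏ m ∈ Finset.univ \ {j}, a m
    set L := Λ (redM w u (Function.update a j 0))
    obtain ⟨θ, hθ⟩ : ∃ θ, a j = θ * σ := ⟨a j / σ, (div_mul_cancel₀ _ hσ.ne').symm⟩
    have θ0 : 0 ≤ θ := by
      have := (k j).1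
      rw [hθ] at this
      exact nonneg_of_mul_nonneg_left this hσ
    have θ1 : θ ≤ 1 := by
      have := (k j).2
      rw [hθ] at this
      nlinarith
    have q1 := mul_le_mul_of_nonneg_left p1 θ0
    have q2 := mul_le_mul_of_nonneg_left p2 (sub_nonneg.2 θ1)
    rw [hθ, mul_assoc θ σ π, mul_div_assoc]
    set y := σ * π / σ ^ n
    nlinarith

theorem red : RedStmt := by
  intro n Λ σ mI m0 h hσ hI h0 F hF hdet
  obtain ⟨w, u, hs⟩ := GE.svd F
  have e : F = redM w u fun i => ‖F (w i)‖ := redM_ext w fun i => by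
    rw [redM_apply]; exact hs i
  have k : ∀ i, 0 ≤ ‖F (w i)‖ ∧ ‖F (w i)‖ ≤ σ := fun i =>
    ⟨norm_nonneg _, (F.le_opNorm (w i)).trans (by simpa using hF)⟩
  have hd := redM_det w u fun i => ‖F (w i)‖
  rw [← e] at hd
  rcases w.det_to_matrix_orthonormalBasis_real u with c | c
  · have := red_pos w u h hσ hI h0 c Finset.univ _ k (by simp)
    rw [← e] at this
    rw [hd, c, mul_one]
    exact this
  · have p : 0 ≤ ∏ i, ‖F (w i)‖ := Finset.prod_nonneg fun i _ => norm_nonneg _
    rw [c] at hd
    have z : ∏ i, ‖F (w i)‖ = 0 := by linarith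
    obtain ⟨i, -, hi⟩ := Finset.prod_eq_zero_iff.1 z
    have := red_zero w u h hσ h0 i Finset.univ _ hi
      (fun j => by rw [abs_of_nonneg (k j).1]; exact (k j).2) (by simp)
    rw [← e] at this
    rw [hd, z]
    simpa using this

end

end Pool.Agent.MP_29b5d3_an.GB
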