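import Pool.Agent.MP_29b5d3_an.GE.SpecB

/-! PROJECT GE, rows COMM and SL2: pair operators. -/

set_option autoImplicit false

open scoped RealInnerProductSpace

namespace Pool.Agent.MP_29b5d3_an.GB

open GA

section Rng
variable {A : Type} [Ring A]

theorem s2_pair {x y z w : A} (h1 : x * z = -(z * x)) (h2 : y * w = -(w * y))
    (h3 : x * w = -(w * x)) (h4 : z * y = -(y * z)) : Commute (x * y) (z * w) := by
  have h4' : y * z = -(z * y) := by rw [h4, neg_neg]
  show x * y * (z * w) = z * w * (x * y)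
  calc x * y * (z * w) = x * (y * z) * w := by simp only [mul_assoc]
    _ = -(x * z * (y * w)) := by rw [h4']; simp only [mul_assoc, mul_neg, neg_mul]
    _ = -(z * (x * w) * y) := by rw [h1, h2]; simp only [mul_assoc, mul_neg, neg_mul, neg_neg]
    _ = _ := by rw [h3]; simp only [mul_assoc, mul_neg, neg_mul, neg_neg]

theorem s2_one {p z w : A} (h1 : p * z = -(z * p)) (h2 : p * w = -(w * p)) :
    Commute p (z * w) := by
  show p * (z * w) = z * w * p
  rw [← mul_assoc, h1, neg_mul, mul_assoc, h2, mul_neg, neg_neg, mul_assoc]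

theorem s2_sq {x y : A} (h1 : x * x = 0) (h2 : x * y = -(y * x)) : x * y * (x * y) = 0 := by
  have h : y * x = -(x * y) := by rw [h2, neg_neg]
  calc x * y * (x * y) = x * (y * x) * y := by simp only [mul_assoc]
    _ = -(x * x * (y * y)) := by rw [h]; simp only [mul_assoc, mul_neg, neg_mul]
    _ = 0 := by rw [h1, zero_mul, neg_zero]

theorem s2_binom {X N : A} (h : Commute X N) (h0 : N * N = 0) (k : ℕ) :
    (X + N) ^ (k + 1) = X ^ (k + 1) + (k + 1) • (N * X ^ k) := by
  induction k with
  | zero => simp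
  | succ k ih =>
    have e : N * X ^ k * N = 0 := by rw [mul_assoc, (h.pow_left k).eq, ← mul_assoc, h0, zero_mul]
    rw [pow_succ, ih, add_mul, mul_add, mul_add, smul_mul_assoc, smul_mul_assoc, e, smul_zero,
      add_zero, (h.pow_left (k + 1)).eq, mul_assoc, ← pow_succ, ← pow_succ, succ_nsmul _ (k + 1)]
    abel

end Rng

variable {n : ℕ} {V : Type} [NormedAddCommGroup V] [InnerProductSpace ℝ V]
  {a a' c c' : Fin n → V →L[ℝ] V} {Ω : V}

theorem s2_ext {p q : V →L[ℝ] V} (h : ∀ x, p (q x) = -q (p x)) : p * q = -(q * p) :=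
  ContinuousLinearMap.ext h

theorem s2_self {p : V →L[ℝ] V} (h : ∀ x, p (p x) = -p (p x)) : p * p = 0 := by
  ext x
  have := h x
  rw [eq_neg_iff_add_eq_zero, ← two_smul ℝ] at this
  simpa using this

/-- a linear combination of operators -/
noncomputable def s2lin (c : Fin n → V →L[ℝ] V) (u : Fin n → ℝ) : V →L[ℝ] V := ∑ j, u j • c j

theorem s2lin_apply (c : Fin n → V →L[ℝ] V) (u : Fin n → ℝ) (x : V) :
    s2lin c u x = ∑ j, u j • c j x := by
  simp [s2lin]

theorem s2lin_anti {p : V →L[ℝ] V} (h : ∀ j x, p (c j x) = -c j (p x)) (u : Fin n → ℝ) (x : V) :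
    p (s2lin c u x) = -s2lin c u (p x) := by
  simp only [s2lin_apply, map_sum, map_smul, h, smul_neg, Finset.sum_neg_distrib]

theorem s2lin_anti2 {d : Fin n → V →L[ℝ] V} (h : ∀ i j x, d i (c j x) = -c j (d i x))
    (u v : Fin n → ℝ) (x : V) : s2lin d u (s2lin c v x) = -s2lin c v (s2lin d u x) := by
  have h1 : ∀ i y, s2lin c v (d i y) = -d i (s2lin c v y) := fun i y => by
    rw [s2lin_anti (h i), neg_neg]
  rw [s2lin_anti h1, neg_neg]

theorem s2_qop (a c : Fin n → V →L[ℝ] V) (F : Mt n) :
    qop a c F = ∑ i, a i * s2lin c fun j => F (bs j) i := by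
  ext x
  simp [qop_apply, s2lin_apply]

theorem s2_rk (a c : Fin n → V →L[ℝ] V) (u v : Eu n) :
    qop a c (rk u v) = s2lin a (fun i => u i) * s2lin c fun j => v j := by
  ext x
  have e : ∀ j, ⟪v, bs j⟫ = v j := fun j => by simp [bs, EuclideanSpace.inner_single_right]
  simp only [qop_apply, rk_apply, e, mul_apply_eq_comp, s2lin_apply, map_sum,
    map_smul, Finset.smul_sum, smul_smul, PiLp.smul_apply, smul_eq_mul]
  exact Finset.sum_comm

theorem s2_comm (h : Fk a a' c c' Ω) (F G : Mt n) : Commute (qop a c F) (qop a c G) := by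
  rw [s2_qop, s2_qop]
  exact Commute.sum_left _ _ _ fun i _ => Commute.sum_right _ _ _ fun k _ =>
    s2_pair (s2_ext (h.ca.cc i k)) (s2_ext (s2lin_anti2 h.cc.cc _ _))
      (s2_ext (s2lin_anti (h.x1 i) _)) (s2_ext (s2lin_anti (h.x1 k) _))

theorem comm : CommStmt := by
  intro n V _ _ a a' c c' Ω h
  have h2 : ∀ u v, qop a c (rk u v) * qop a c (rk u v) = 0 := fun u v => by
    rw [s2_rk]
    exact s2_sq (s2_self (s2lin_anti2 h.ca.cc _ _)) (s2_ext (s2lin_anti2 h.x1 _ _))
  refine ⟨fun F G => (s2_comm h F G).eq, h2, fun F u v k => ?_⟩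
  rw [qop_add, s2_binom (s2_comm h _ _) (h2 u v), ← Nat.cast_smul_eq_nsmul ℝ]
  push_cast
  rfl

theorem s2_norm (h : Car c c') (i : Fin n) {z : V} (hz : c' i z = 0) : ‖c i z‖ ^ 2 = ‖z‖ ^ 2 := by
  have e := h.cd i i z
  rw [hz, map_zero, zero_add, if_pos rfl] at e
  rw [← real_inner_self_eq_norm_sq, h.adj, e, real_inner_self_eq_norm_sq]

theorem s2_x3 (h : Fk a a' c c' Ω) (i k : Fin n) (x : V) : a' k (c i x) = -c i (a' k x) :=
  ext_inner_right ℝ fun y => by
    rw [h.ca.symm.adj, h.cc.adj, inner_neg_left, h.cc.adj, h.ca.symm.adj, h.x2, inner_neg_right,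
      neg_neg]

theorem s2_set (h : Fk a a' c c' Ω) (S : Finset (Fin n)) (k : ℕ) :
    ‖((∑ i ∈ S, a i * c i) ^ k) Ω‖ ^ 2 = (k.factorial : ℝ) ^ 2 * S.card.choose k := by
  induction S using Finset.induction_on generalizing k with
  | empty => cases k <;> simp [h.n1]
  | insert i S hi ih =>
    rcases k with _ | k
    · simp [h.n1]
    set X := ∑ j ∈ S, a j * c j with hX
    have c1 : Commute X (a i * c i) := Commute.sum_left _ _ _ fun j _ =>
      s2_pair (s2_ext (h.ca.cc j i)) (s2_ext (h.cc.cc j i)) (s2_ext (h.x1 j i))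
        (s2_ext (h.x1 i j))
    have c2 : Commute (a' i) X := Commute.sum_right _ _ _ fun j hj =>
      s2_one (s2_ext fun x => by
        have := h.ca.cd j i x
        rw [if_neg fun e : j = i => hi (e ▸ hj)] at this
        exact eq_neg_of_add_eq_zero_right this) (s2_ext (s2_x3 h j i))
    have c3 : Commute (c' i) X := Commute.sum_right _ _ _ fun j hj =>
      s2_one (s2_ext fun x => by rw [h.x2, neg_neg]) (s2_ext fun x => by
        have := h.cc.cd j i x
        rw [if_neg fun e : j = i => hi (e ▸ hj)] at this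
        exact eq_neg_of_add_eq_zero_right this)
    have k2 : ∀ m, a' i ((X ^ m) Ω) = 0 := fun m => by
      rw [← mul_apply_eq_comp, (c2.pow_right m).eq, mul_apply_eq_comp,
        h.va, map_zero]
    have k3 : ∀ m, c' i ((X ^ m) Ω) = 0 := fun m => by
      rw [← mul_apply_eq_comp, (c3.pow_right m).eq, mul_apply_eq_comp,
        h.vc, map_zero]
    have n1 : ‖a i (c i ((X ^ k) Ω))‖ ^ 2 = ‖(X ^ k) Ω‖ ^ 2 := by
      rw [s2_norm h.ca i (by rw [s2_x3 h, k2, map_zero, neg_zero]), s2_norm h.cc i (k3 k)]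
    have o1 : ⟪(X ^ (k + 1)) Ω, a i (c i ((X ^ k) Ω))⟫ = 0 := by
      rw [← h.ca.symm.adj, k2, inner_zero_left]
    rw [Finset.sum_insert hi, add_comm (a i * c i), s2_binom c1
      (s2_sq (s2_self (h.ca.cc i i)) (s2_ext (h.x1 i i))), ← Nat.cast_smul_eq_nsmul ℝ,
      add_apply, smul_apply,
      mul_apply_eq_comp, mul_apply_eq_comp, norm_add_sq_real,
      inner_smul_right, o1, norm_smul, mul_pow, n1, ih, ih, Finset.card_insert_of_notMem hi,
      Nat.choose_succ_succ, Nat.factorial_succ, Real.norm_natCast]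
    push_cast
    ring

theorem s2_rows {R : Mt n} (hR : Iso R) (i k : Fin n) :
    ∑ j, R (bs j) i * R (bs j) k = if i = k then 1 else 0 := by
  let M : Matrix (Fin n) (Fin n) ℝ := Matrix.of fun i j => R (bs j) i
  have h1 : M.transpose * M = 1 := by
    ext j l
    have e := (⟨R.toLinearMap, hR⟩ : Eu n →ₗᵢ[ℝ] Eu n).inner_map_map (bs j) (bs l)
    have e1 : ⟪R (bs j), R (bs l)⟫ = ⟪bs j, bs l⟫ := e
    have e2 : ⟪(bs j : Eu n), bs l⟫ = if j = l then (1 : ℝ) else 0 := by
      simp [bs, EuclideanSpace.inner_single_left]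
    rw [Matrix.mul_apply, Matrix.one_apply, ← e2, ← e1, PiLp.inner_apply]
    exact Finset.sum_congr rfl fun m _ => by simp [M, mul_comm]
  have h3 : M * M.transpose = 1 := mul_eq_one_comm.1 h1
  have h2 : (M * M.transpose) i k = (1 : Matrix (Fin n) (Fin n) ℝ) i k := by rw [h3]
  rw [Matrix.mul_apply, Matrix.one_apply] at h2
  simpa [M] using h2

theorem s2_fk (h : Fk a a' c c' Ω) {R : Mt n} (hR : Iso R) :
    Fk a a' (fun i => s2lin c fun j => R (bs j) i) (fun i => s2lin c' fun j => R (bs j) i) Ω where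
  ca := h.ca
  cc :=
    { adj := fun i x y => by
        simp only [s2lin_apply, sum_inner, inner_sum, inner_smul_left, inner_smul_right, h.cc.adj,
          conj_trivial]
      cc := fun i k x => s2lin_anti2 h.cc.cc _ _ x
      cd := fun i k x => by
        have e : ∀ j l, (R (bs j) i * R (bs l) k) • c j (c' l x) +
            (R (bs j) i * R (bs l) k) • c' l (c j x) =
            if j = l then (R (bs j) i * R (bs l) k) • x else 0 := fun j l => by
          rw [← smul_add, h.cc.cd]
          split_ifs <;> simp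
        calc _ = ∑ j, ∑ l, ((R (bs j) i * R (bs l) k) • c j (c' l x) +
              (R (bs j) i * R (bs l) k) • c' l (c j x)) := by
              simp only [s2lin_apply, map_sum, map_smul, Finset.smul_sum, smul_smul,
                Finset.sum_add_distrib]
              congr 1
              · rw [Finset.sum_comm]
                simp only [mul_comm]
          _ = _ := by
              simp only [e, Finset.sum_ite_eq, Finset.mem_univ, if_true, ← Finset.sum_smul,
                s2_rows hR]
              split_ifs <;> simp }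
  x1 i j x := s2lin_anti (h.x1 i) _ x
  x2 i j x := s2lin_anti (h.x2 i) _ x
  va := h.va
  vc j := by simp [s2lin_apply, h.vc]
  n1 := h.n1

theorem sl2 : Sl2Stmt := by
  intro n V _ _ a a' c c' Ω h R hR k
  have := s2_set (s2_fk h hR) Finset.univ k
  rwa [Finset.card_univ, Fintype.card_fin, ← s2_qop] at this

end Pool.Agent.MP_29b5d3_an.GB
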