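import Pool.Agent.MP_29b5d3_an.GE.SpecB
import Pool.Agent.MP_29b5d3_an.GE.Car

/-! PROJECT GE, odd dimensions: the doubled Fock space and its particle-hole operator. -/

set_option autoImplicit false

open scoped RealInnerProductSpace

namespace Pool.Agent.MP_29b5d3_an.GB

open GA

theorem fk : FkStmt := by
  intro n
  obtain ⟨V, i1, i2, i3, c, c', Ω, h, h1, h2⟩ := GE.car (n + n)
  have ne : ∀ i j : Fin n, Fin.castAdd n i ≠ Fin.natAdd n j := fun i j e => by
    have := congrArg Fin.val e
    simp only [Fin.val_castAdd, Fin.val_natAdd] at this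
    omega
  refine ⟨V, i1, i2, i3, fun i => c (Fin.castAdd n i), fun i => c' (Fin.castAdd n i),
    fun j => c (Fin.natAdd n j), fun j => c' (Fin.natAdd n j), Ω,
    ⟨fun _ => h.adj _, fun _ _ => h.anti _ _, fun j k x => ?_⟩,
    ⟨fun _ => h.adj _, fun _ _ => h.anti _ _, fun j k x => ?_⟩,
    fun _ _ => h.anti _ _, fun i j x => ?_, fun _ => h2 _, fun _ => h2 _, h1⟩
  · rw [h.car]
    simp only [(Fin.castAdd_injective n n).eq_iff]
  · rw [h.car]
    simp only [(Fin.natAdd_injective n n).eq_iff]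
  · rw [eq_neg_iff_add_eq_zero, h.car, if_neg (ne i j)]

namespace St

section Ring
variable {R ι : Type} [Ring R]

theorem pow_step {x s : R} (hc : Commute x s) (hx : x * x = 0) (m : ℕ) :
    (x + s) ^ (m + 1) = s ^ (m + 1) + (m + 1) • (x * s ^ m) := by
  induction m with
  | zero => simp [add_comm]
  | succ m ih =>
    have h1 : x * (x * s ^ m) = 0 := by rw [← mul_assoc, hx, zero_mul]
    have h2 : s * (x * s ^ m) = x * s ^ (m + 1) := by
      rw [← mul_assoc, ← hc.eq, mul_assoc, ← pow_succ']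
    rw [pow_succ' (x + s), ih, mul_add, mul_smul_comm, add_mul, add_mul, h1, h2, zero_add,
      ← pow_succ', succ_nsmul _ (m + 1)]
    abel

theorem pow_sum (X : ι → R) (hc : ∀ i j, Commute (X i) (X j)) (hx : ∀ i, X i * X i = 0)
    (L : List ι) : (L.map X).sum ^ L.length = L.length.factorial • (L.map X).prod ∧
      (L.map X).sum ^ (L.length + 1) = 0 := by
  induction L with
  | nil => simp
  | cons k L ih =>
    have c : Commute (X k) (L.map X).sum :=
      Commute.list_sum_right _ _ fun b hb => by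
        obtain ⟨j, -, rfl⟩ := List.mem_map.1 hb
        exact hc k j
    simp only [List.map_cons, List.sum_cons, List.length_cons, List.prod_cons]
    refine ⟨?_, ?_⟩
    · rw [pow_step c (hx k), ih.1, ih.2, zero_add, mul_smul_comm, smul_smul, Nat.factorial_succ]
    · rw [pow_step c (hx k), pow_succ _ (L.length + 1), ih.2]
      simp

theorem prod_comm (g : ι → R) (L : List ι) (y : R) (h : ∀ k ∈ L, Commute (g k) y) :
    Commute (L.map g).prod y :=
  Commute.list_prod_left _ _ fun b hb => by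
    obtain ⟨j, hj, rfl⟩ := List.mem_map.1 hb
    exact h j hj

theorem prod_sign (g : ι → R) (m : ι) (y y' : R) (h0 : g m * y = -(y' * g m))
    (h1 : ∀ k, k ≠ m → Commute (g k) y) (h2 : ∀ k, k ≠ m → Commute (g k) y') (L : List ι)
    (hL : L.Nodup) (hm : m ∈ L) : (L.map g).prod * y = -(y' * (L.map g).prod) := by
  induction L with
  | nil => simp at hm
  | cons k L ih =>
    obtain ⟨hk, hL'⟩ := List.nodup_cons.1 hL
    simp only [List.map_cons, List.prod_cons]
    by_cases e : k = m
    · subst e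
      rw [mul_assoc, (prod_comm g L y fun j hj => h1 j fun e => hk (e ▸ hj)).eq, ← mul_assoc, h0,
        neg_mul, mul_assoc]
    · rw [mul_assoc, ih hL' ((List.mem_cons.1 hm).resolve_left (Ne.symm e)), mul_neg, ← mul_assoc,
        (h2 k e).eq, mul_assoc]

theorem anti2 {A C y : R} (h1 : A * y = -(y * A)) (h2 : C * y = -(y * C)) : Commute (A * C) y := by
  change A * C * y = y * (A * C)
  rw [mul_assoc, h2, mul_neg, ← mul_assoc, h1, neg_mul, neg_neg, mul_assoc]

theorem anti_add {a b y : R} (h1 : a * y = -(y * a)) (h2 : b * y = -(y * b)) :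
    (a + b) * y = -(y * (a + b)) := by
  rw [add_mul, mul_add, h1, h2, neg_add]

theorem anti_symm {a y : R} (h : a * y = -(y * a)) : y * a = -(a * y) := by rw [h, neg_neg]

end Ring

variable {n : ℕ} {V : Type} [NormedAddCommGroup V] [InnerProductSpace ℝ V]
  {a a' c c' : Fin n → V →L[ℝ] V} {Ω : V}

theorem adj' (h : Car a a') (i : Fin n) (x y : V) : ⟪a' i x, y⟫ = ⟪x, a i y⟫ := by
  rw [real_inner_comm, ← h.adj, real_inner_comm]

theorem r1 (h : Car a a') (i j : Fin n) : a i * a j = -(a j * a i) := by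
  ext x
  exact h.cc i j x

theorem r2 (h : Car a a') (i j : Fin n) : a' i * a' j = -(a' j * a' i) := by
  ext x
  refine ext_inner_right ℝ fun y => ?_
  change ⟪a' i (a' j x), y⟫ = ⟪-a' j (a' i x), y⟫
  rw [adj' h, adj' h, h.cc, inner_neg_right, inner_neg_left, adj' h, adj' h]

theorem r3 (h : Car a a') {i j : Fin n} (e : i ≠ j) : a i * a' j = -(a' j * a i) := by
  ext x
  change a i (a' j x) = -a' j (a i x)
  rw [eq_neg_iff_add_eq_zero, h.cd, if_neg e]

theorem sq0 {y : V →L[ℝ] V} (h : y * y = -(y * y)) : y * y = 0 := by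
  rw [eq_neg_iff_add_eq_zero, ← two_smul ℝ] at h
  simpa using h

theorem r4 (h : Car a a') (i : Fin n) : (a i + a' i) * a i = a' i * (a i + a' i) := by
  rw [add_mul, mul_add, sq0 (r1 h i i), sq0 (r2 h i i), zero_add, add_zero]

theorem sa (h : Car a a') (i : Fin n) (x y : V) : ⟪(a i + a' i) x, y⟫ = ⟪x, (a i + a' i) y⟫ := by
  simp only [add_apply, inner_add_left, inner_add_right, h.adj, adj' h]
  ring

theorem inv (h : Car a a') (i : Fin n) (x : V) : (a i + a' i) ((a i + a' i) x) = x := by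
  have h1 : a i (a i x) = 0 := congrArg (fun y : V →L[ℝ] V => y x) (sq0 (r1 h i i))
  have h2 : a' i (a' i x) = 0 := congrArg (fun y : V →L[ℝ] V => y x) (sq0 (r2 h i i))
  have h3 := h.cd i i x
  rw [if_pos rfl] at h3
  simp only [add_apply, map_add, h1, h2, zero_add, add_zero]
  rw [add_comm, h3]

theorem nrm (h : Car a a') (i : Fin n) (x : V) : ‖(a i + a' i) x‖ = ‖x‖ := by
  rw [← sq_eq_sq₀ (norm_nonneg _) (norm_nonneg _), ← real_inner_self_eq_norm_sq,
    ← real_inner_self_eq_norm_sq, sa h, inv h]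

theorem s1 (h : Fk a a' c c' Ω) (i j : Fin n) : a i * c j = -(c j * a i) := by
  ext x
  exact h.x1 i j x

theorem s2 (h : Fk a a' c c' Ω) (i j : Fin n) : a i * c' j = -(c' j * a i) := by
  ext x
  exact h.x2 i j x

theorem s3 (h : Fk a a' c c' Ω) (i j : Fin n) : a' i * c j = -(c j * a' i) := by
  ext x
  refine ext_inner_right ℝ fun y => ?_
  change ⟪a' i (c j x), y⟫ = ⟪-c j (a' i x), y⟫
  rw [adj' h.ca, h.cc.adj, inner_neg_left, h.cc.adj, adj' h.ca, h.x2, inner_neg_right, neg_neg]

theorem s4 (h : Fk a a' c c' Ω) (i j : Fin n) : a' i * c' j = -(c' j * a' i) := by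
  ext x
  refine ext_inner_right ℝ fun y => ?_
  change ⟪a' i (c' j x), y⟫ = ⟪-c' j (a' i x), y⟫
  rw [adj' h.ca, adj' h.cc, inner_neg_left, adj' h.cc, adj' h.ca, h.x1, inner_neg_right, neg_neg]

end St

open St in
theorem star : StarStmt := by
  intro n V _ _ a a' c c' Ω h
  let g : Fin n → V →L[ℝ] V := fun i => (a i + a' i) * (c i + c' i)
  have Ac : ∀ i j, (a i + a' i) * c j = -(c j * (a i + a' i)) := fun i j =>
    anti_add (s1 h i j) (s3 h i j)
  have Ac' : ∀ i j, (a i + a' i) * c' j = -(c' j * (a i + a' i)) := fun i j =>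
    anti_add (s2 h i j) (s4 h i j)
  have Ca : ∀ i j, (c i + c' i) * a j = -(a j * (c i + c' i)) := fun i j =>
    anti_add (anti_symm (s1 h j i)) (anti_symm (s2 h j i))
  have Ca' : ∀ i j, (c i + c' i) * a' j = -(a' j * (c i + c' i)) := fun i j =>
    anti_add (anti_symm (s3 h j i)) (anti_symm (s4 h j i))
  have ga : ∀ m k, k ≠ m → Commute (g k) (a m) := fun m k e =>
    anti2 (anti_add (r1 h.ca k m) (anti_symm (r3 h.ca e.symm))) (Ca k m)
  have ga' : ∀ m k, k ≠ m → Commute (g k) (a' m) := fun m k e =>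
    anti2 (anti_add (r3 h.ca e) (r2 h.ca k m)) (Ca' k m)
  have gc : ∀ m k, k ≠ m → Commute (g k) (c m) := fun m k e =>
    anti2 (Ac k m) (anti_add (r1 h.cc k m) (anti_symm (r3 h.cc e.symm)))
  have gc' : ∀ m k, k ≠ m → Commute (g k) (c' m) := fun m k e =>
    anti2 (Ac' k m) (anti_add (r3 h.cc e) (r2 h.cc k m))
  have g0a : ∀ m, g m * a m = -(a' m * g m) := fun m => by
    simp only [g]
    rw [mul_assoc, Ca, mul_neg, ← mul_assoc, r4 h.ca, mul_assoc]
  have g0c : ∀ m, g m * c m = -(c' m * g m) := fun m => by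
    simp only [g]
    rw [mul_assoc, r4 h.cc, ← mul_assoc, Ac', neg_mul, mul_assoc]
  have gg : ∀ m k, k ≠ m → Commute (g k) (g m) := fun m k e =>
    ((ga m k e).add_right (ga' m k e)).mul_right ((gc m k e).add_right (gc' m k e))
  have gadj : ∀ m x y, ⟪g m x, y⟫ = -⟪x, g m y⟫ := fun m x y => by
    have e : (c m + c' m) * (a m + a' m) = -g m := anti_symm (anti_add (anti_symm (Ca m m))
      (anti_symm (Ca' m m)))
    have e' : (c m + c' m) ((a m + a' m) y) = -g m y := congrArg (fun z : V →L[ℝ] V => z y) e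
    change ⟪(a m + a' m) ((c m + c' m) x), y⟫ = _
    rw [sa h.ca, sa h.cc, e', inner_neg_right]
  have gΩ : ∀ m, g m Ω = (a m * c m) Ω := fun m => by
    have e : a' m (c m Ω) = -c m (a' m Ω) := congrArg (fun z : V →L[ℝ] V => z Ω) (s3 h m m)
    change a m (c m Ω + c' m Ω) + a' m (c m Ω + c' m Ω) = a m (c m Ω)
    rw [h.vc, add_zero, e, h.va, map_zero, neg_zero, add_zero]
  have iso : ∀ (L : List (Fin n)) x, ‖(L.map g).prod x‖ = ‖x‖ := fun L => by
    induction L with
    | nil => simp
    | cons k L ih =>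
      intro x
      change ‖(a k + a' k) ((c k + c' k) ((L.map g).prod x))‖ = _
      rw [nrm h.ca, nrm h.cc, ih]
  have adj : ∀ L : List (Fin n), L.Nodup → ∀ x y,
      ⟪(L.map g).prod x, y⟫ = (-1) ^ L.length * ⟪x, (L.map g).prod y⟫ := fun L => by
    induction L with
    | nil => simp
    | cons k L ih =>
      intro hL x y
      obtain ⟨hk, hL'⟩ := List.nodup_cons.1 hL
      have e : (L.map g).prod (g k y) = g k ((L.map g).prod y) := congrArg
        (fun z : V →L[ℝ] V => z y) (prod_comm g L _ fun j hj => gg k j fun e => hk (e ▸ hj)).eq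
      change ⟪g k ((L.map g).prod x), y⟫ = (-1) ^ (L.length + 1) * ⟪x, g k ((L.map g).prod y)⟫
      rw [gadj, ih hL', e]
      ring
  have top : ∀ L : List (Fin n), L.Nodup →
      (L.map g).prod Ω = (L.map fun i => a i * c i).prod Ω := fun L => by
    induction L with
    | nil => simp
    | cons k L ih =>
      intro hL
      obtain ⟨hk, hL'⟩ := List.nodup_cons.1 hL
      have ne : ∀ j ∈ L, j ≠ k := fun j hj e => hk (e ▸ hj)
      have e1 : (L.map g).prod (g k Ω) = g k ((L.map g).prod Ω) := congrArg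
        (fun z : V →L[ℝ] V => z Ω) (prod_comm g L _ fun j hj => gg k j (ne j hj)).eq
      have e2 : (L.map g).prod ((a k * c k) Ω) = (a k * c k) ((L.map g).prod Ω) := congrArg
        (fun z : V →L[ℝ] V => z Ω) (prod_comm g L _ fun j hj =>
          (ga k j (ne j hj)).mul_right (gc k j (ne j hj))).eq
      change g k ((L.map g).prod Ω) = (a k * c k) ((L.map fun i => a i * c i).prod Ω)
      rw [← e1, gΩ, e2, ih hL']
  have nd := List.nodup_finRange n
  refine ⟨((List.finRange n).map g).prod, fun i x => ?_, fun j x => ?_, fun x y => ?_, iso _, ?_⟩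
  · exact congrArg (fun z : V →L[ℝ] V => z x)
      (prod_sign g i _ _ (g0a i) (ga i) (ga' i) _ nd (List.mem_finRange i))
  · exact congrArg (fun z : V →L[ℝ] V => z x)
      (prod_sign g j _ _ (g0c j) (gc j) (gc' j) _ nd (List.mem_finRange j))
  · simpa using adj _ nd x y
  · have e : qop a c 1 = ((List.finRange n).map fun i => a i * c i).sum := by
      rw [← Fin.sum_univ_def, qop]
      refine Finset.sum_congr rfl fun i _ => ?_
      rw [Finset.sum_eq_single i (fun j _ e => by simp [bs, e.symm]) (by simp)]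
      simp [bs, ContinuousLinearMap.mul_def]
    have cm : ∀ i j, Commute (a i * c i) (a j * c j) := fun i j =>
      (anti2 (r1 h.ca i j) (anti_symm (s1 h j i))).mul_right (anti2 (s1 h i j) (r1 h.cc i j))
    have sq : ∀ i, a i * c i * (a i * c i) = 0 := fun i => by
      rw [← mul_assoc, (anti2 (r1 h.ca i i) (anti_symm (s1 h i i))).eq, ← mul_assoc,
        sq0 (r1 h.ca i i), zero_mul, zero_mul]
    have := (pow_sum _ cm sq (List.finRange n)).1
    rw [List.length_finRange] at this
    rw [e, this, top _ nd, smul_apply, Nat.cast_smul_eq_nsmul]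

end Pool.Agent.MP_29b5d3_an.GB
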