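import Pool.Agent.MP_29b5d3_an.GE.SpecB
import Pool.Agent.MP_29b5d3_an.GE.Det
import Pool.Agent.MP_29b5d3_an.GE.Form

/-! PROJECT GE, row B-XDET: the top power of the pair operator, exactness of the powers. -/

set_option autoImplicit false

open MeasureTheory Filter Topology Set
open scoped RealInnerProductSpace ContDiff

namespace Pool.Agent.MP_29b5d3_an.GB

open GA

namespace BXdet

variable {n : ℕ} {V : Type} [NormedAddCommGroup V] [InnerProductSpace ℝ V]
  {a a' c c' : Fin n → V →L[ℝ] V} {Ω : V}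

/-- the matrix that keeps one row -/
noncomputable def rw1 (F : Mt n) (i : Fin n) : Mt n :=
  rk (bs i) (WithLp.toLp 2 fun j => F (bs j) i)

theorem rw1_apply (F : Mt n) (i j k : Fin n) :
    rw1 F i (bs j) k = if k = i then F (bs j) i else 0 := by
  simp [rw1, rk_apply, bs, EuclideanSpace.inner_single_right, PiLp.single_apply]

theorem qop_rw1 (F : Mt n) (i : Fin n) (x : V) :
    qop a c (rw1 F i) x = a i (GE.row c F i x) := by
  rw [qop_apply, Finset.sum_eq_single i (fun k _ hk => by simp [rw1_apply, hk]) (by simp)]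
  simp only [rw1_apply, if_true, GE.row, map_sum, map_smul]
  rfl

theorem qop_sum (F : Mt n) : qop a c ((List.finRange n).map (rw1 F)).sum = qop a c F := by
  rw [← Fin.sum_univ_def]
  simp [qop, rw1_apply]

theorem anti (h : Fk a a' c c' Ω) (i j : Fin n) (x : V) : c j (a i x) = -a i (c j x) := by
  rw [h.x1, neg_neg]

theorem pw (comm : CommStmt) (h : Fk a a' c c' Ω) (L : List (Fin n)) :
    ∃ (A : V →L[ℝ] V) (ε : ℝ), (∀ j x, c j (A x) = ε • A (c j x)) ∧ ∀ F : Mt n,
      (qop a c (L.map (rw1 F)).sum ^ L.length) Ω = A (GE.wg c F Ω L) ∧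
      qop a c (L.map (rw1 F)).sum ^ (L.length + 1) = 0 := by
  induction L with
  | nil => exact ⟨1, 1, by simp, fun F => ⟨rfl, by simp [qop]⟩⟩
  | cons i L ih =>
    obtain ⟨A, ε, h1, h2⟩ := ih
    refine ⟨(((L.length : ℝ) + 1) * ε) • (a i).comp A, -ε, fun j x => ?_, fun F => ?_⟩
    · simp only [smul_apply, ContinuousLinearMap.comp_apply, map_smul,
        anti h, h1, smul_neg, neg_smul]
      rw [smul_comm]
    · have b := (comm n V a a' c c' Ω h).2.2 (L.map (rw1 F)).sum (bs i)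
        (WithLp.toLp 2 fun j => F (bs j) i)
      rw [List.map_cons, List.sum_cons, add_comm (rw1 F i), List.length_cons, rw1, b, b, ← rw1,
        pow_succ _ (L.length + 1), (h2 F).2]
      refine ⟨?_, by simp⟩
      simp only [zero_add, smul_apply, mul_apply_eq_comp,
        ContinuousLinearMap.comp_apply, (h2 F).1, qop_rw1, GE.wg_cons, GE.row, h1, map_sum,
        map_smul, mul_smul, Finset.smul_sum]
      exact Finset.sum_congr rfl fun j _ => smul_comm _ _ _

theorem step (h : Fk a a' c c' Ω) {f : Eu n → Eu n} (hf : ContDiff ℝ ∞ f) {W : Eu n → V}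
    (hW : ContDiff ℝ ∞ W) (x : Eu n) (h0 : dop c W x = 0) :
    dop c (fun y => ∑ i, f y i • (-a i) (W y)) x = qop a c (fderiv ℝ f x) (W x) := by
  have h1 := fun i => ((EuclideanSpace.proj i : Eu n →L[ℝ] ℝ).hasFDerivAt.comp x
    (hf.differentiable (by simp) x).hasFDerivAt).fun_smul ((-a i).hasFDerivAt.comp x
      (hW.differentiable (by simp) x).hasFDerivAt)
  have h2 := (HasFDerivAt.fun_sum fun i (_ : i ∈ Finset.univ) => h1 i).fderiv
  have h3 : ∑ i, f x i • a i (dop c W x) = 0 := by simp [h0]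
  simp only [Function.comp_def, EuclideanSpace.coe_proj] at h2
  simp only [dop, pd, map_sum, Finset.smul_sum] at h3 ⊢
  rw [h2, qop_apply, ← zero_add (∑ i, ∑ j, _), ← h3, ← Finset.sum_add_distrib]
  simp only [← Finset.sum_add_distrib]
  rw [Finset.sum_comm]
  simp [anti h]

theorem sm {f : Eu n → Eu n} (hf : ContDiff ℝ ∞ f) {W : Eu n → V} (hW : ContDiff ℝ ∞ W) :
    ContDiff ℝ ∞ fun y => ∑ i, f y i • (-a i) (W y) :=
  ContDiff.sum fun i _ => (GE.fo_coord hf i).smul ((-a i).contDiff.comp hW)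

theorem closed (h : Fk a a' c c' Ω) {f : Eu n → Eu n} (hf : ContDiff ℝ ∞ f) (k : ℕ) :
    ContDiff ℝ ∞ (fun y => (qop a c (fderiv ℝ f y) ^ k) Ω) ∧
      ∀ x, dop c (fun y => (qop a c (fderiv ℝ f y) ^ k) Ω) x = 0 := by
  induction k with
  | zero => exact ⟨contDiff_const, fun x => by simp [dop, pd]⟩
  | succ k ih =>
    have e : (fun y => (qop a c (fderiv ℝ f y) ^ (k + 1)) Ω)
        = GE.dd c fun y => ∑ i, f y i • (-a i) ((qop a c (fderiv ℝ f y) ^ k) Ω) :=
      funext fun x => by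
        rw [pow_succ']
        exact (step h hf ih.1 x (ih.2 x)).symm
    rw [e]
    exact ⟨GE.fo_smooth (sm hf ih.1), GE.fo_dd h.cc.cc (sm hf ih.1)⟩

end BXdet

theorem xdet (comm : CommStmt) : XdetStmt := by
  intro n V _ _ a a' c c' Ω h F
  obtain ⟨A, ε, -, h2⟩ := BXdet.pw comm h (List.finRange n)
  simp only [BXdet.qop_sum, List.length_finRange] at h2
  have e : GE.wg c F Ω (List.finRange n) = F.det • GE.wg c 1 Ω (List.finRange n) :=
    ext_inner_right ℝ fun z => by
      rw [GE.Det.alt ⟨h.cc.adj, h.cc.cc, h.cc.cd⟩, real_inner_smul_left, mul_comm]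
  rw [(h2 F).1, (h2 1).1, e, map_smul]

theorem xform (_comm : CommStmt) : XformStmt := by
  intro n V _ _ a a' c c' Ω h f hf k
  have b := BXdet.closed h hf.sm k
  refine ⟨fun y => ∑ i, f y i • (-a i) ((qop a c (fderiv ℝ f y) ^ k) Ω), Tst.sum _ fun i =>
    ⟨(GE.fo_coord hf.sm i).smul ((-a i).contDiff.comp b.1),
      (hf.cs.comp_left (g := fun v : Eu n => v i) rfl).smul_right⟩, fun y => ?_⟩
  rw [pow_succ']
  exact BXdet.step h hf.sm b.1 y (b.2 y)

end Pool.Agent.MP_29b5d3_an.GB
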