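import Pool.Agent.MP_29b5d3_an.GE.Spin
import Pool.Agent.MP_29b5d3_an.GE.Pt

/-! The norm of the Lefschetz operator of a matrix on a doubled Fock space. -/

set_option autoImplicit false

open scoped RealInnerProductSpace

namespace Pool.Agent.MP_29b5d3_an.GE

variable {n : ℕ} {V : Type} [NormedAddCommGroup V] [InnerProductSpace ℝ V]
  {c c' a a' : Fin n → V →L[ℝ] V} {e : ℝ}

theorem iso_rows (F : Mt n) (hF : ∀ v, ‖F v‖ = ‖v‖) (k m : Fin n) :
    ∑ i, F (ev i) k * F (ev i) m = if k = m then 1 else 0 := by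
  let L : Eu n →ₗᵢ[ℝ] Eu n := ⟨(F : Eu n →ₗ[ℝ] Eu n), hF⟩
  let b := (EuclideanSpace.basisFun (Fin n) ℝ).map (L.toLinearIsometryEquiv rfl)
  have hb : ∀ i, b i = F (ev i) := fun i => by
    simp [b, L, ev]
  have := b.sum_inner_mul_inner (ev k) (ev m)
  simp only [hb, ev, EuclideanSpace.inner_single_left, EuclideanSpace.inner_single_right] at this
  simpa [ev, PiLp.single_apply, eq_comm] using this

theorem car_rows (h : Car c c') (F : Mt n) (hF : ∀ v, ‖F v‖ = ‖v‖) :
    Car (fun k => pt_cv c fun i => F (ev i) k) (fun k => pt_cv c' fun i => F (ev i) k) where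
  adj k := pt_adj h _
  anti k m := pt_anti h _ _
  car k m w := by
    rw [pt_comp, pt_comp, Finset.sum_comm (f := fun i j => (F (ev i) m * F (ev j) k) • c' i (c j w)),
      ← Finset.sum_add_distrib]
    have : ∀ i, ∑ j, (F (ev i) k * F (ev j) m) • c i (c' j w) +
        ∑ j, (F (ev j) m * F (ev i) k) • c' j (c i w) = (F (ev i) k * F (ev i) m) • w := fun i => by
      rw [← Finset.sum_add_distrib]
      have : ∀ j, (F (ev i) k * F (ev j) m) • c i (c' j w) + (F (ev j) m * F (ev i) k) • c' j (c i w)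
          = if i = j then (F (ev i) k * F (ev j) m) • w else 0 := fun j => by
        rw [mul_comm (F (ev j) m), ← smul_add, h.car]
        split_ifs <;> simp
      simp only [this, Finset.sum_ite_eq, Finset.mem_univ, if_true]
    simp only [this]
    rw [← Finset.sum_smul, iso_rows F hF]
    split_ifs <;> simp

theorem spin_one (hc : Car c c') (ha : Car a a') (he : e * e = 1)
    (h1 : ∀ i k x, c i (a k x) = e • a k (c i x)) (h2 : ∀ i k x, c i (a' k x) = e • a' k (c i x))
    (x : V) : 2 * ‖∑ k, c k (a k x)‖ ≤ (n + 1) * ‖x‖ := by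
  have h3 : ∀ i k x, c' i (a k x) = e • a k (c' i x) := fun i k x => ext_inner_right ℝ fun y => by
    rw [hc.adj', ha.adj, real_inner_smul_left, ha.adj, hc.adj', h2, real_inner_smul_right,
      ← mul_assoc, he, one_mul]
  have p1 : ∀ {b b' : Fin n → V →L[ℝ] V}, Car b b' → ∀ k y, b k (b' k (b k y)) = b k y :=
    fun {b b'} hb k y => by
      have := hb.car k k (b k y)
      rwa [hb.sq, map_zero, add_zero, if_pos rfl] at this
  have q1 : ∀ {b b' : Fin n → V →L[ℝ] V}, Car b b' → ∀ k m y, k ≠ m →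
      b k (b' m y) = -b' m (b k y) := fun {b b'} hb k m y h => by
    have := hb.car k m y
    rwa [if_neg h, add_eq_zero_iff_eq_neg] at this
  have := spin (fun k x => c k (a k x)) (fun k x => a' k (c' k x))
    (fun k x y => by rw [hc.adj, ha.adj]) (fun k m x => ?_) (fun k m x h => ?_) (fun k x => ?_)
    (fun k x => ?_) x
  · simpa using this
  · simp only [h1, map_smul]
    rw [ha.anti k m, hc.anti k m]
    simp
  · simp only [q1 ha k m _ h, map_neg, h2, h1, map_smul, h3, q1 hc k m _ h, smul_neg, neg_neg]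
  · rw [h1 k k (c k _), hc.sq]
    simp
  · rw [h1 k k x]
    simp only [map_smul, h3, h1, h2, p1 ha, p1 hc, smul_smul]
    congr 1
    rw [he, one_mul]

theorem spin_ball (ball : BallStmt) (hc : Car c c') (ha : Car a a') (he : e * e = 1)
    (h1 : ∀ i k x, c i (a k x) = e • a k (c i x)) (h2 : ∀ i k x, c i (a' k x) = e • a' k (c i x))
    (F : Mt n) (x : V) : 2 * ‖∑ k, row c F k (a k x)‖ ≤ (n + 1) * (‖F‖ * ‖x‖) := by
  have lin : ∀ (s t : ℝ) (F G : Mt n), ∑ k, row c (s • F + t • G) k (a k x) =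
      s • ∑ k, row c F k (a k x) + t • ∑ k, row c G k (a k x) := fun s t F G => by
    simp only [row, Finset.smul_sum, ← Finset.sum_add_distrib, smul_smul, ← add_smul]
    rfl
  have mv : ∀ {b : Fin n → V →L[ℝ] V}, (∀ i k x, c i (b k x) = e • b k (c i x)) →
      ∀ (u : Fin n → ℝ) k x, pt_cv c u (b k x) = e • b k (pt_cv c u x) := fun {b} hb u k x => by
    simp only [pt_cv_apply, hb, map_sum, map_smul, Finset.smul_sum, smul_comm e]
  have h : ∀ G : Mt n, ‖G‖ ≤ 1 → 2 * ‖∑ k, row c G k (a k x)‖ ≤ (n + 1) * ‖x‖ := by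
    refine ball n {G | 2 * ‖∑ k, row c G k (a k x)‖ ≤ (n + 1) * ‖x‖} (fun G hG => ?_)
      fun G u v s hs t ht p q hp hq hpq => ?_
    · simpa only [Set.mem_ofPred_eq, pt_row] using
        spin_one (car_rows hc G hG) ha he (fun i => mv h1 _) (fun i => mv h2 _) x
    · have e1 : G + (p • s + q • t) • (innerSL ℝ v).smulRight u =
          p • (G + s • (innerSL ℝ v).smulRight u) + q • (G + t • (innerSL ℝ v).smulRight u) := by
        rw [show q = 1 - p by linarith]
        module
      simp only [Set.mem_ofPred_eq] at hs ht ⊢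
      rw [e1, lin]
      have := norm_add_le (p • ∑ k, row c (G + s • (innerSL ℝ v).smulRight u) k (a k x))
        (q • ∑ k, row c (G + t • (innerSL ℝ v).smulRight u) k (a k x))
      rw [norm_smul, norm_smul, Real.norm_of_nonneg hp, Real.norm_of_nonneg hq] at this
      have b1 := mul_le_mul_of_nonneg_left hs hp
      have b2 := mul_le_mul_of_nonneg_left ht hq
      have : (p + q) * ((n + 1) * ‖x‖) = (n + 1) * ‖x‖ := by rw [hpq, one_mul]
      nlinarith
  rcases eq_or_ne F 0 with rfl | h0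
  · simp [row_zero]
  have hs : 0 < ‖F‖ := norm_pos_iff.2 h0
  have e2 : F = ‖F‖ • (‖F‖⁻¹ • F) + (0 : ℝ) • F := by
    rw [smul_smul, mul_inv_cancel₀ hs.ne']
    module
  have := h (‖F‖⁻¹ • F) (by rw [norm_smul, norm_inv, norm_norm, inv_mul_cancel₀ hs.ne'])
  conv_lhs => rw [e2, lin, zero_smul, add_zero, norm_smul, norm_norm]
  nlinarith

end Pool.Agent.MP_29b5d3_an.GE
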