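import Pool.Agent.MP_29b5d3_an.GE.SpecB
import Pool.Agent.MP_29b5d3_an.GE.Spin2
import Pool.Agent.MP_29b5d3_an.GE.Ball

/-! PROJECT GE, row XBD: the norm of the pair operator. -/

set_option autoImplicit false

open scoped RealInnerProductSpace

namespace Pool.Agent.MP_29b5d3_an.GB

theorem xbd : XbdStmt := by
  intro n V _ _ _ a a' c c' Ω h F x
  have h1 : ∀ i k x, c i (a k x) = (-1 : ℝ) • a k (c i x) := fun i k x => by
    rw [h.x1, neg_one_smul, neg_neg]
  have h2 : ∀ i k x, c i (a' k x) = (-1 : ℝ) • a' k (c i x) := fun i k x =>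
    ext_inner_right ℝ fun y => by
      rw [h.cc.adj, h.ca.symm.adj, h.x2, neg_one_smul, inner_neg_left, h.ca.symm.adj, h.cc.adj,
        inner_neg_right]
  have := GE.spin_ball GE.ball ⟨h.cc.adj, h.cc.cc, h.cc.cd⟩ ⟨h.ca.adj, h.ca.cc, h.ca.cd⟩
    (by norm_num) h1 h2 F x
  have e : ∑ k, GE.row c F k (a k x) = -qop a c F x := by
    simp only [qop_apply, GE.row, h1, ← Finset.sum_neg_distrib, neg_one_smul, smul_neg]
    rfl
  rw [e, norm_neg] at this
  linarith

end Pool.Agent.MP_29b5d3_an.GB
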