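import Pool.Agent.MP_29b5d3_an.GE.All
import Pool.Agent.MP_29b5d3_an.GE.BFam
import Pool.Agent.MP_29b5d3_an.GE.BMul
import Pool.Agent.MP_29b5d3_an.GE.BNull
import Pool.Agent.MP_29b5d3_an.GE.BOd
import Pool.Agent.MP_29b5d3_an.GE.BOdd0
import Pool.Agent.MP_29b5d3_an.GE.BOddA
import Pool.Agent.MP_29b5d3_an.GE.BProjC
import Pool.Agent.MP_29b5d3_an.GE.BRed
import Pool.Agent.MP_29b5d3_an.GE.BSl2
import Pool.Agent.MP_29b5d3_an.GE.BStar
import Pool.Agent.MP_29b5d3_an.GE.BVert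
import Pool.Agent.MP_29b5d3_an.GE.BXdet
import Pool.Agent.MP_29b5d3_an.GE.Xbd

/-! PROJECT GE, odd dimensions: value space and analysis, assembled. -/

set_option autoImplicit false

namespace Pool.Agent.MP_29b5d3_an.GB

theorem odAll : OdStmt := od fk star comm sl2 (xdet comm) xbd (xform comm)

theorem oddAAll : OddAStmt := oddA (null mul) (odd0 (null mul) projC)

theorem odd_of (pt : PtFStmt) (l : ℕ) (hl : 1 ≤ l) : GE.Sharp (2 * l + 1) :=
  GE.endAll _ (by omega) fun K p a b c => famO odAll oddAAll pt l hl K p a b c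

theorem all_of (pt : PtFStmt) (n : ℕ) (hn : 2 ≤ n) : GE.Sharp n := by
  obtain ⟨l, rfl | rfl⟩ := Nat.even_or_odd' n
  · exact GE.even l (by omega)
  · exact odd_of pt l (by omega)

end Pool.Agent.MP_29b5d3_an.GB
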