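import Pool.Agent.MP_29b5d3_an.GE.SpecO

/-! Summation by parts and the crude lower bound. -/

open Finset
open scoped RealInnerProductSpace

namespace Pool.Agent.MP_29b5d3_an.GO

open GB

namespace OAbel

theorem parts {k : ℕ} {u w : ℕ → ℝ} (hw : ∀ i, w (i + 1) ≤ w i)
    (hu : ∀ j ≤ k, ∑ i ∈ range j, u i ≤ 0) :
    ∀ j ≤ k, ∑ i ∈ range j, u i * w i ≤ (∑ i ∈ range j, u i) * w j := by
  intro j
  induction j with
  | zero => simp
  | succ j ih =>
    intro hj
    have h1 := ih (by omega)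
    have h2 := mul_le_mul_of_nonpos_left (hw j) (hu (j + 1) hj)
    rw [sum_range_succ] at h2 ⊢
    rw [sum_range_succ]
    linarith

end OAbel

theorem abel : AbelStmt := by
  intro V _ _ l k t g κ E ht hg hm hκ hB
  have hy : ∀ i, 0 < t i ^ l := fun i => pow_pos (ht i) l
  have hu : ∀ j ≤ k, ∑ i ∈ range j, (g i * t i * ‖E i‖ ^ 2 - κ ^ 2 * (g i * t i ^ (2 * l + 1))) ≤ 0 :=
    fun j hj => by
      rw [sum_sub_distrib, ← mul_sum]
      exact sub_nonpos.2 (hB.body j hj)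
  have h1 := (OAbel.parts (w := fun i => (t i ^ l)⁻¹)
    (fun i => inv_anti₀ (hy i) (pow_le_pow_left₀ (ht i).le (hm (Nat.le_succ i)) l)) hu k le_rfl).trans
    (mul_nonpos_of_nonpos_of_nonneg (hu k le_rfl) (inv_nonneg.2 (hy k).le))
  have h2 : ∑ i ∈ range k, g i * t i * (‖E i‖ ^ 2 / t i ^ l) ≤ κ ^ 2 * Z k t g (l + 1) := by
    rw [Z, mul_sum, ← sub_nonpos, ← sum_sub_distrib]
    refine le_of_eq_of_le (sum_congr rfl fun i _ => ?_) h1
    have := (hy i).ne'
    field_simp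
    ring
  refine ⟨h2, ?_⟩
  have h3 : ∑ i ∈ range k, g i * t i * ‖E i‖ ≤ ∑ i ∈ range k,
      ((2 * κ)⁻¹ * (g i * t i * (‖E i‖ ^ 2 / t i ^ l)) + κ / 2 * (g i * t i ^ (l + 1))) := by
    refine sum_le_sum fun i _ => ?_
    have e : (2 * κ)⁻¹ * (g i * t i * (‖E i‖ ^ 2 / t i ^ l)) + κ / 2 * (g i * t i ^ (l + 1)) -
        g i * t i * ‖E i‖ = g i * t i * ((‖E i‖ - κ * t i ^ l) ^ 2 / (2 * κ * t i ^ l)) := by
      have := (hy i).ne'
      field_simp
      ring
    have := hg i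
    have := ht i
    rw [← sub_nonneg, e]
    positivity
  rw [sum_add_distrib, ← mul_sum, ← mul_sum] at h3
  have h4 := mul_le_mul_of_nonneg_left h2 (inv_nonneg.2 (by positivity : 0 ≤ 2 * κ))
  have h5 : (2 * κ)⁻¹ * (κ ^ 2 * Z k t g (l + 1)) = κ / 2 * Z k t g (l + 1) := by
    field_simp
  rw [h5] at h4
  simp only [Z] at h4 ⊢
  linarith

theorem crude (nf : NfStmt) (brk : BrkStmt) (abel : AbelStmt) : CrudeStmt := by
  intro V _ _ l k t g W d κ ψ e J σ s q P E H hq hB hP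
  have hy : ∀ i, 0 < t i ^ l := fun i => pow_pos (H.tpos i) l
  have hl : (1 : ℝ) ≤ l := by exact_mod_cast H.one
  have hκ := H.k0
  have hσ := hq.nn
  have hs : 0 ≤ s := (norm_nonneg _).trans hP
  have yt : ∀ i < k, t i ^ l ≤ t i := fun i hi =>
    pow_le_of_le_one (H.tpos i).le (H.tle i hi) (by have := H.one; omega)
  have hψ : ψ ≤ 1 := by nlinarith [H.p0, H.p1, one_le_pow₀ (n := 2) hl]
  obtain ⟨a1, a2⟩ := abel V l k t g κ E H.tpos H.gpos H.mono hκ hB
  refine ⟨?_, ?_, ?_, ?_⟩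
  · rw [Z, mul_sum]
    refine sum_le_sum fun i _ => ?_
    have := H.de i
    rw [pow_zero]
    linarith
  · refine sum_le_sum fun i _ => ?_
    have h1 : 0 ≤ 2 * d i * t i ^ l := H.dd i ▸ sum_nonneg fun a _ => mul_nonneg (H.Wnn a i) (hy a).le
    have h2 := nonneg_of_mul_nonneg_left h1 (hy i)
    rw [pow_zero]
    linarith
  · refine sum_le_sum fun i hi => mul_le_mul_of_nonneg_left ?_ (H.gpos i).le
    rw [pow_zero]
    exact pow_le_one₀ (H.tpos i).le (H.tle i (mem_range.1 hi))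
  · rw [(nf V l k t g W d κ ψ e J q P H).1 E, hB.tight]
    have b1 : ∑ c ∈ range k, g c * t c * ⟪P + (1 - ψ * (1 - t c ^ l)) • q P, E c⟫ ≤
        s * (1 + σ) * ∑ c ∈ range k, g c * t c * ‖E c‖ := by
      rw [mul_sum]
      refine sum_le_sum fun i hi => ?_
      have y1 : t i ^ l ≤ 1 := (yt i (mem_range.1 hi)).trans (H.tle i (mem_range.1 hi))
      have p0 : 0 ≤ ψ * (1 - t i ^ l) := mul_nonneg H.p0.le (sub_nonneg.2 y1)
      have p1 : ψ * (1 - t i ^ l) ≤ 1 := by nlinarith [hy i, H.p0]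
      have n1 : ‖P + (1 - ψ * (1 - t i ^ l)) • q P‖ ≤ s * (1 + σ) := by
        refine (norm_add_le _ _).trans ?_
        rw [norm_smul, Real.norm_of_nonneg (sub_nonneg.2 p1)]
        have := (hq.bd P).trans (mul_le_mul_of_nonneg_left hP hσ)
        nlinarith [mul_nonneg p0 (norm_nonneg (q P))]
      have n2 := (real_inner_le_norm _ (E i)).trans
        (mul_le_mul_of_nonneg_right n1 (norm_nonneg (E i)))
      have := mul_le_mul_of_nonneg_left n2 (mul_pos (H.gpos i) (H.tpos i)).le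
      linarith
    have b2 := brk V l k t g W d κ ψ e σ q E (fun a => (l + 1) / (2 * l ^ 2 * κ) / t a ^ l) H hq
      fun a ha => by
        have ya := hy a
        have ta := H.tpos a
        constructor
        · have p1 : ψ * (1 - t a ^ l) * (l : ℝ) ^ 2 ≤ 1 := by
            nlinarith [H.p1, mul_nonneg (mul_nonneg H.p0.le (sq_nonneg (l : ℝ))) ya.le]
          rw [div_div, div_le_div_iff₀ (by positivity) (by positivity)]
          nlinarith [mul_le_mul_of_nonneg_left p1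
            (by positivity : 0 ≤ ((l : ℝ) + 1) * (2 * (κ * t a ^ l)))]
        · have e1 : e * (2 * (l : ℝ) ^ 2) ≤ l + 1 := by
            nlinarith [mul_le_mul_of_nonneg_left H.e1 (by positivity : 0 ≤ (l : ℝ)), H.e0,
              mul_nonneg H.e0 (by positivity : 0 ≤ (l : ℝ))]
          have e2 : κ * t a ^ l ≤ t a := by nlinarith [H.k1, yt a ha]
          rw [div_div, div_le_div_iff₀ ta (by positivity)]
          have := mul_le_mul e1 e2 (by positivity) (by positivity)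
          linarith
    have b3 : ∑ a ∈ range k, g a * t a * ((l + 1) / (2 * l ^ 2 * κ) / t a ^ l) * ‖E a‖ ^ 2 =
        (l + 1) / (2 * l ^ 2 * κ) * ∑ a ∈ range k, g a * t a * (‖E a‖ ^ 2 / t a ^ l) := by
      rw [mul_sum]
      exact sum_congr rfl fun i _ => by ring
    rw [b3] at b2
    have b4 := mul_le_mul_of_nonneg_left a1
      (by positivity : 0 ≤ σ * (((l : ℝ) + 1) / (2 * l ^ 2 * κ)))
    have b5 : σ * (((l : ℝ) + 1) / (2 * l ^ 2 * κ)) * (κ ^ 2 * Z k t g (l + 1)) =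
        κ * Z k t g (l + 1) * ((l + 1) / (2 * l ^ 2) * σ) := by
      field_simp
    have b6 := mul_le_mul_of_nonneg_left a2 (by positivity : 0 ≤ s * (1 + σ))
    rw [b5] at b4
    linarith

end Pool.Agent.MP_29b5d3_an.GO
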