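import Pool.Agent.MP_29b5d3_an.GE.SpecO

/-! PROJECT GE, odd dimensions: the bracket from below. -/

set_option autoImplicit false

open Finset
open scoped RealInnerProductSpace

namespace Pool.Agent.MP_29b5d3_an.GO

open GB

namespace Brk

theorem two {b : ℕ → ℕ → ℝ} (hb : Gram b) (a c : ℕ) (x y : ℝ) :
    2 * x * y * b a c ≤ x ^ 2 * b a a + y ^ 2 * b c c := by
  have h := hb.nn (max a c + 1) fun i => (if i = a then x else 0) - (if i = c then y else 0)
  have ha : a ∈ range (max a c + 1) := mem_range.2 (by omega)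
  have hc : c ∈ range (max a c + 1) := mem_range.2 (by omega)
  simp only [sub_mul, mul_sub, ite_mul, mul_ite, zero_mul, mul_zero, sum_sub_distrib,
    sum_ite_eq', ha, hc, if_true] at h
  rw [hb.symm c a] at h
  nlinarith [h]

theorem diag {b : ℕ → ℕ → ℝ} (hb : Gram b) (a : ℕ) : 0 ≤ b a a := by
  have := two hb a a 1 0
  linarith

variable {V : Type} [NormedAddCommGroup V] [InnerProductSpace ℝ V]

theorem neg {q : V →L[ℝ] V} {σ : ℝ} (h : Sym q σ) : Sym (-q) σ :=
  ⟨fun x y => by simp [h.symm], fun x => by simpa using h.bd x, h.nn⟩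

theorem gram {q : V →L[ℝ] V} {σ : ℝ} (h : Sym q σ) (δ : ℕ → V) :
    Gram fun a c => (σ * ⟪δ a, δ c⟫ + ⟪q (δ a), δ c⟫) / 2 := by
  refine ⟨fun a c => by rw [h.symm, real_inner_comm (δ a) (δ c), real_inner_comm (δ a)],
    fun k z => ?_⟩
  have e : ∑ a ∈ range k, ∑ c ∈ range k, z a * z c * ((σ * ⟪δ a, δ c⟫ + ⟪q (δ a), δ c⟫) / 2) =
      (σ * ⟪∑ a ∈ range k, z a • δ a, ∑ a ∈ range k, z a • δ a⟫ +
        ⟪q (∑ a ∈ range k, z a • δ a), ∑ a ∈ range k, z a • δ a⟫) / 2 := by
    simp only [map_sum, map_smul, sum_inner, inner_sum, real_inner_smul_left,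
      real_inner_smul_right, mul_sum, ← sum_add_distrib, sum_div]
    rw [sum_comm]
    exact sum_congr rfl fun a _ => sum_congr rfl fun c _ => by ring
  rw [e]
  generalize ∑ a ∈ range k, z a • δ a = u
  have h1 := abs_real_inner_le_norm (q u) u
  have h2 := mul_le_mul_of_nonneg_right (h.bd u) (norm_nonneg u)
  have h3 := neg_abs_le ⟪q u, u⟫
  rw [real_inner_self_eq_norm_sq]
  nlinarith

end Brk

open Brk

theorem plus : PlusStmt := by
  intro l k t g W d κ ψ e b S hb
  have y0 : ∀ i, 0 < t i ^ l := fun i => pow_pos (S.tpos i) l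
  have h1 : ∀ c, -∑ a ∈ range c, W a c * t c ^ l * (b a a / (2 * t a ^ l)) ≤
      d c * b c c - ∑ a ∈ range c, W a c * b a c := fun c => by
    have e1 : d c * b c c = ∑ a ∈ range c, W a c * t a ^ l * (b c c / (2 * t c ^ l)) := by
      rw [← sum_mul, ← S.dd c]
      have := (y0 c).ne'
      field_simp
    rw [e1, ← sum_sub_distrib, ← sum_neg_distrib]
    refine sum_le_sum fun a _ => ?_
    have h2 : b a c ≤ t c ^ l * (b a a / (2 * t a ^ l)) + t a ^ l * (b c c / (2 * t c ^ l)) := by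
      have := two hb a c (t c ^ l) (t a ^ l)
      have ya := y0 a
      have yc := y0 c
      generalize t a ^ l = p at *
      generalize t c ^ l = r at *
      rw [show r * (b a a / (2 * p)) + p * (b c c / (2 * r)) =
        (r ^ 2 * b a a + p ^ 2 * b c c) / (2 * r * p) by field_simp, le_div_iff₀ (by positivity)]
      linarith
    have := mul_le_mul_of_nonneg_left h2 (S.Wnn a c)
    linarith
  refine le_trans (le_of_eq ?_) (sum_le_sum fun c _ => h1 c)
  rw [sum_neg_distrib, swap]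
  refine congrArg _ (sum_congr rfl fun a ha => ?_)
  have h3 := S.th a (mem_range.1 ha)
  have k0 := S.k0.ne'
  have ya := (y0 a).ne'
  rw [← sum_mul, eq_div_of_mul_eq k0 ((mul_comm _ _).trans h3)]
  field_simp

theorem brk (plus : PlusStmt) : BrkStmt := by
  intro V _ _ l k t g W d κ ψ e σ q δ M S hq hM
  have g1 := gram hq δ
  have g2 := gram (neg hq) δ
  have h1 := plus l k t g W d κ ψ e _ S g1
  have h2 := S.minus _ g2
  have e1 : (Qs k W d fun a c => ⟪q (δ a), δ c⟫) =
      (Qs k W d fun a c => (σ * ⟪δ a, δ c⟫ + ⟪q (δ a), δ c⟫) / 2) -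
        Qs k W d fun a c => (σ * ⟪δ a, δ c⟫ + ⟪(-q) (δ a), δ c⟫) / 2 := by
    simp only [Qs, ← sum_sub_distrib, ContinuousLinearMap.neg_apply, inner_neg_left]
    refine sum_congr rfl fun c _ => ?_
    have : ∑ a ∈ range c, W a c * ⟪q (δ a), δ c⟫ =
        ∑ a ∈ range c, W a c * ((σ * ⟪δ a, δ c⟫ + ⟪q (δ a), δ c⟫) / 2) -
          ∑ a ∈ range c, W a c * ((σ * ⟪δ a, δ c⟫ + -⟪q (δ a), δ c⟫) / 2) := by
      rw [← sum_sub_distrib]
      exact sum_congr rfl fun a _ => by ring
    rw [this]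
    ring
  rw [e1]
  refine le_trans ?_ (sub_le_sub h1 h2)
  rw [mul_sum, mul_sum, ← neg_add', ← sum_add_distrib, neg_le_neg_iff]
  refine sum_le_sum fun a ha => ?_
  obtain ⟨m1, m2⟩ := hM a (mem_range.1 ha)
  have gt := (mul_pos (S.gpos a) (S.tpos a)).le
  have d1 := mul_le_mul_of_nonneg_left (mul_le_mul_of_nonneg_right m1 (diag g1 a)) gt
  have d2 := mul_le_mul_of_nonneg_left (mul_le_mul_of_nonneg_right m2 (diag g2 a)) gt
  have ta := (S.tpos a).ne'
  have d3 : ∀ x, g a * t a * (e / t a * x) = e * (g a * x) := fun x => by field_simp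
  rw [d3] at d2
  simp only [ContinuousLinearMap.neg_apply, inner_neg_left, real_inner_self_eq_norm_sq] at d1 d2 ⊢
  linarith

end Pool.Agent.MP_29b5d3_an.GO
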