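import Pool.Agent.MP_29b5d3_an.GE.SpecO

/-! PROJECT GE, odd dimensions: the two vertices together, and the shape of the integrand. -/

set_option autoImplicit false
set_option linter.unusedSectionVars false

open Finset
open scoped RealInnerProductSpace

namespace Pool.Agent.MP_29b5d3_an.GO

open GB

theorem comb_pw (σ : ℝ) (hσ : 1 / 5 ≤ σ) (m n : ℕ) (h : m ≤ n) : σ ^ m ≤ 5 ^ n * σ ^ n := by
  have h0 : 0 ≤ σ := by linarith
  calc σ ^ m ≤ (5 * σ) ^ m := pow_le_pow_left₀ h0 (by linarith) m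
    _ ≤ (5 * σ) ^ n := pow_le_pow_right₀ (by linarith) h
    _ = 5 ^ n * σ ^ n := mul_pow _ _ _

theorem comb_core (n r j0 j cI X LI M δ S T a b : ℝ) (hn : 0 < n) (hr : 0 < r) (hcI : 0 < cI)
    (hX : 0 ≤ X) (hj0 : r < j0 * (r + n)) (hj : j0 ≤ j) (hj1 : j ≤ 1) (hLI : cI * X ≤ LI)
    (hM : 0 ≤ r * LI + n * M) (ha : LI - δ * S ≤ a) (hb : M - δ * S ≤ b) (hδ : 0 ≤ δ)
    (hS : S ≤ T * X) :
    (cI * ((j0 * (r + n) - r) / n) - T * δ) * X ≤ j * a + (1 - j) * b := by
  have hrn : 0 < r + n := by linarith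
  have hjp : 0 ≤ j := by
    by_contra h
    have : j0 * (r + n) < 0 := mul_neg_of_neg_of_pos (by linarith) hrn
    linarith
  have hL0 : 0 ≤ LI := le_trans (mul_nonneg hcI.le hX) hLI
  have h1 : j * (LI - δ * S) ≤ j * a := mul_le_mul_of_nonneg_left ha hjp
  have h2 : (1 - j) * (M - δ * S) ≤ (1 - j) * b := mul_le_mul_of_nonneg_left hb (by linarith)
  have h3 : δ * S ≤ δ * (T * X) := mul_le_mul_of_nonneg_left hS hδ
  have h4 : cI * X * (j0 * (r + n) - r) ≤ LI * (j * (r + n) - r) :=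
    mul_le_mul hLI (by nlinarith) (by linarith) hL0
  have h5 : 0 ≤ (1 - j) * (r * LI + n * M) := mul_nonneg (by linarith) hM
  have h6 : cI * ((j0 * (r + n) - r) / n) * X ≤ j * LI + (1 - j) * M := by
    rw [show cI * ((j0 * (r + n) - r) / n) * X = cI * X * (j0 * (r + n) - r) / n by ring,
      div_le_iff₀ hn]
    nlinarith
  nlinarith

theorem comb (ph : PhStmt) (li : LiStmt) : CombStmt := by
  intro l r j0 hl hr hj0
  obtain ⟨cI, hcI, hli⟩ := li l r hl hr
  have hl' : (1 : ℝ) ≤ l := by exact_mod_cast hl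
  obtain ⟨-, hd1, hph⟩ := ph l r hl' hr
  have hn : (0 : ℝ) < 2 * l + 1 := by linarith
  have hj0' : r < j0 * (r + (2 * l + 1)) := (div_lt_iff₀ (by linarith)).1 hj0
  refine ⟨cI * ((j0 * (r + (2 * l + 1)) - r) / (2 * l + 1)),
    mul_pos hcI (div_pos (by linarith) hn), ?_⟩
  intro z κ ψ e h δ σ A B cJ j hN hh hδ hσ hA hB hcJ hj hj1 hG
  have hσ0 : 0 ≤ σ := by linarith
  have hX : σ ^ (2 * l + 1) = σ * (σ ^ l) ^ 2 := by ring
  have p0 := comb_pw σ hσ 0 (2 * l + 1) (by omega)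
  have p1 := comb_pw σ hσ 1 (2 * l + 1) (by omega)
  have p2 := comb_pw σ hσ l (2 * l + 1) (by omega)
  have p3 := comb_pw σ hσ (l + 1) (2 * l + 1) (by omega)
  have p4 := comb_pw σ hσ (2 * l + 1) (2 * l + 1) le_rfl
  have h5 : (5 : ℝ) ^ (2 * l + 2) = 5 * 5 ^ (2 * l + 1) := by ring
  rw [pow_zero] at p0
  rw [pow_one] at p1
  rw [pow_succ' σ l] at p3
  have hLI := hli σ hσ0
  have hP := hph σ (σ ^ l)
  rw [hX] at p0 p1 p2 p3 p4 ⊢
  have hs : 0 ≤ σ ^ l := pow_nonneg hσ0 l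
  generalize σ ^ l = s at *
  generalize (5 : ℝ) ^ (2 * l + 1) = T at *
  have hσs : 0 ≤ σ * s := mul_nonneg hσ0 hs
  have hX0 : 0 ≤ σ * s ^ 2 := by positivity
  have q1 : ((l : ℝ) + 1) / (2 * l + 1) ≤ 1 := (div_le_one hn).2 (by linarith)
  have q2 : (l : ℝ) / (2 * l + 1) ≤ 1 := (div_le_one hn).2 (by linarith)
  have q3 : 2 * (l : ℝ) / (2 * l + 1) ≤ 1 := (div_le_one hn).2 (by linarith)
  have q1' : 0 ≤ ((l : ℝ) + 1) / (2 * l + 1) := by positivity
  have q2' : 0 ≤ (l : ℝ) / (2 * l + 1) := by positivity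
  have q3' : 0 ≤ 2 * (l : ℝ) / (2 * l + 1) := by positivity
  have hd : d0 l r * σ * (s - 1) ^ 2 ≤ σ * (s - 1) ^ 2 / (2 * l + 1) := by
    rw [le_div_iff₀ hn]
    have : 0 ≤ σ * (s - 1) ^ 2 := by positivity
    nlinarith
  have n0 : E0 l r - δ ≤ h * cJ := hN.n0.trans (mul_le_mul_of_nonneg_left hcJ hh.le)
  have hz : h * z (l + 1) ≤ 1 / (l + 1) := by
    rw [le_div_iff₀ (by linarith)]
    have := hN.zl
    linarith
  have hA' : A * (h * z 1) ≤ A * 1 := mul_le_mul_of_nonneg_left hN.z1 hA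
  have hB' : B * (h * z (l + 1)) ≤ B * (1 / (l + 1)) := mul_le_mul_of_nonneg_left hz hB
  have hB2 : B * (1 / ((l : ℝ) + 1)) = B / (l + 1) := by ring
  have n1 := hN.n1
  have a0 := mul_le_mul_of_nonneg_right n0 hX0
  have a2 := mul_le_mul_of_nonneg_right hN.n2 hs
  have a3 := mul_le_mul_of_nonneg_right hN.n3 hσs
  have a4 := mul_le_mul_of_nonneg_right hN.n4 hσ0
  have b2 := mul_le_mul_of_nonneg_right hN.n2 (mul_nonneg hs q1')
  have b3 := mul_le_mul_of_nonneg_right hN.n3 (mul_nonneg hσs q2')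
  have b4 := mul_le_mul_of_nonneg_right hN.n4 (mul_nonneg hσ0 q3')
  have c2 := mul_le_mul_of_nonneg_left (mul_le_mul_of_nonneg_left q1 hs) hδ
  have c3 := mul_le_mul_of_nonneg_left (mul_le_mul_of_nonneg_left q2 hσs) hδ
  have c4 := mul_le_mul_of_nonneg_left (mul_le_mul_of_nonneg_left q3 hσ0) hδ
  have c0 := mul_nonneg hδ hX0
  have key := comb_core (2 * l + 1) r j0 j cI (σ * s ^ 2) _
    (E1 l r - E2 l r * (s * ((l + 1) / (2 * l + 1))) - E3 l r * (σ * s * (l / (2 * l + 1))) -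
      E4 l r * (σ * (2 * l / (2 * l + 1))) - (A + B / (l + 1))) δ
    (σ * s ^ 2 + 1 + s + σ * s + σ) (5 * T)
    (h * (cJ * (σ * s ^ 2) + s1 l z κ - s2 l z κ * s - s3 l z κ ψ * (σ * s) - s4 l z κ ψ * σ))
    (h * (s1 l z κ - s2 l z κ * (s * ((l + 1) / (2 * l + 1))) -
      s3 l z κ ψ * (σ * s * (l / (2 * l + 1))) - s4 l z κ ψ * (σ * (2 * l / (2 * l + 1))) -
      (A * z 1 + B * z (l + 1))))
    hn hr hcI hX0 hj0' hj hj1 hLI (by linarith) (by linarith) (by linarith) hδ (by linarith)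
  rw [h5]
  linarith

theorem lk_one (N : ℕ) (t g : ℕ → ℝ) (W : ℕ → ℕ → ℝ) (d : ℕ → ℝ) (V : Type)
    [NormedAddCommGroup V] [InnerProductSpace ℝ V] (J : ℝ) (q : V →L[ℝ] V) (P : V) (E : ℕ → V) :
    Lam N (fun i => g i * t i) (fun a => -g a + ∑ c ∈ Ioo a N, W a c)
      (fun a c => if a < c then -W a c else if a = c then d a else 0)
      (∑ c ∈ range N, (g c - d c)) J q P E = Lk N t g W d J q P E := by
  have h1 : ∑ a ∈ range N, ∑ c ∈ range N,
      (if a < c then -W a c else if a = c then d a else 0) * ⟪q (E a), E c⟫ =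
      ∑ c ∈ range N, (d c * ⟪q (E c), E c⟫ - ∑ a ∈ range c, W a c * ⟪q (E a), E c⟫) := by
    rw [sum_comm]
    refine sum_congr rfl fun c hc => ?_
    have hcN : c + 1 ≤ N := mem_range.1 hc
    rw [← sum_range_add_sum_Ico _ hcN, sum_range_succ, sum_eq_zero (s := Ico (c + 1) N)]
    · rw [if_neg (lt_irrefl c), if_pos rfl, add_zero, sub_eq_neg_add, ← sum_neg_distrib]
      congr 1
      refine sum_congr rfl fun a ha => ?_
      rw [if_pos (mem_range.1 ha), neg_mul]
    · intro a ha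
      have := (mem_Ico.1 ha).1
      rw [if_neg (by omega), if_neg (by omega), zero_mul]
  have h2 : ∑ a ∈ range N, (-g a + ∑ c ∈ Ioo a N, W a c) * ⟪q P, E a⟫ =
      ∑ c ∈ range N, (-(g c * ⟪q P, E c⟫) + ∑ a ∈ range c, W a c * ⟪q P, E a⟫) := by
    rw [sum_add_distrib, swap N fun a c => W a c * ⟪q P, E a⟫, ← sum_add_distrib]
    refine sum_congr rfl fun a _ => ?_
    rw [add_mul, sum_mul, neg_mul]
  unfold Lam Lk
  rw [h1, h2, sum_mul, ← sum_add_distrib, ← sum_add_distrib, ← sum_add_distrib]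
  refine sum_congr rfl fun c _ => ?_
  simp only [mul_sub, sum_sub_distrib]
  ring

theorem lk : LkStmt := by
  refine ⟨fun N t g W d => ⟨_, _, _, fun V _ _ J q P E => lk_one N t g W d V J q P E⟩, ?_, ?_⟩
  · intro V _ _ N k t g W d J q P E hk hq hJ
    induction N, hk using Nat.le_induction with
    | base => exact fun _ => rfl
    | succ N hN ih =>
      intro hE
      rw [← ih fun i h1 h2 => hE i h1 (by omega)]
      have hP : E N = P := hE N hN (by omega)
      have h1 : ⟪q P, P⟫ = J := by rw [hq, hJ]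
      have h2 : ∀ a, ⟪q P, E a⟫ - ⟪q (E a), P⟫ = 0 := fun a => by
        rw [hq (E a), real_inner_comm, sub_self]
      unfold Lk
      rw [sum_range_succ, hP, h1, real_inner_self_eq_norm_sq]
      simp [h2]
  · intro V _ _ l k τ T G J t g q P E hT ht
    have hW : ∀ a c, Wf l τ (fun i => T * t i) (fun i => G * g i) a c = G * Wf l τ t g a c := by
      intro a c
      have := (ht c).ne'
      have := hT.ne'
      simp only [Wf, mul_pow]
      field_simp
      ring
    have hd : ∀ c, df l τ (fun i => T * t i) (fun i => G * g i) c = G * df l τ t g c := by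
      intro c
      have := (ht c).ne'
      have := hT.ne'
      simp only [df, hW, mul_pow]
      rw [show ∑ a ∈ range c, G * Wf l τ t g a c * (T ^ l * t a ^ l) =
        G * T ^ l * ∑ a ∈ range c, Wf l τ t g a c * t a ^ l by
          rw [mul_sum]; exact sum_congr rfl fun a _ => by ring]
      field_simp
    unfold Lk
    rw [mul_sum]
    refine sum_congr rfl fun c _ => ?_
    have hn : ‖T ^ l • E c‖ ^ 2 = (T ^ l) ^ 2 * ‖E c‖ ^ 2 := by
      rw [norm_smul, mul_pow, Real.norm_eq_abs, sq_abs]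
    have hs : ∑ a ∈ range c, G * Wf l τ t g a c * (⟪(T • q) (T ^ l • P), T ^ l • E a⟫ -
        ⟪(T • q) (T ^ l • E a), T ^ l • E c⟫) = G * T ^ (2 * l + 1) *
        ∑ a ∈ range c, Wf l τ t g a c * (⟪q P, E a⟫ - ⟪q (E a), E c⟫) := by
      rw [mul_sum]
      refine sum_congr rfl fun a _ => ?_
      simp only [smul_apply, map_smul, real_inner_smul_left,
        real_inner_smul_right]
      ring
    simp only [hW, hd]
    rw [hn, hs]
    simp only [smul_apply, map_smul, real_inner_smul_left,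
      real_inner_smul_right]
    ring

end Pool.Agent.MP_29b5d3_an.GO
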