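import Pool.Agent.MP_29b5d3_an.GE.SpecO

/-! PROJECT GE, odd dimensions: expansion at the aligned family. -/

set_option autoImplicit false

open Finset
open scoped RealInnerProductSpace

namespace Pool.Agent.MP_29b5d3_an.GO

open GB

/-- the bracket of a kernel which splits into an aligned part, two mixed parts and a rest -/
theorem exp_qs (l k : ℕ) (t g : ℕ → ℝ) (W : ℕ → ℕ → ℝ) (d : ℕ → ℝ) (κ ψ e : ℝ)
    (S : Sch l k t g W d κ ψ e) (u : ℕ → ℝ) (b0 D b : ℕ → ℕ → ℝ)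
    (hb : ∀ a c, b a c = b0 a c + κ * t a ^ l * u c + κ * t c ^ l * u a + D a c) :
    Qs k W d b = Qs k W d b0 -
      ∑ c ∈ range k, g c * t c * ((l + 1) * (ψ * (1 - t c ^ l)) * u c) + Qs k W d D := by
  have h1 : ∑ c ∈ range k, g c * t c * ((l + 1) * (ψ * (1 - t c ^ l)) * u c) =
      ∑ c ∈ range k, ∑ a ∈ range c, W a c * (κ * t c ^ l * u a) := by
    rw [swap k fun a c => W a c * (κ * t c ^ l * u a)]
    refine sum_congr rfl fun a ha => ?_
    have h := S.th a (mem_range.1 ha)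
    have h2 : ∑ c ∈ Ioo a k, W a c * (κ * t c ^ l * u a) =
        (κ * ∑ c ∈ Ioo a k, W a c * t c ^ l) * u a := by
      rw [mul_sum, sum_mul]
      exact sum_congr rfl fun c _ => by ring
    rw [h2, h]
    ring
  rw [h1]
  unfold Qs
  rw [← sum_sub_distrib, ← sum_add_distrib]
  refine sum_congr rfl fun c _ => ?_
  have h3 : ∑ a ∈ range c, W a c * b a c = ∑ a ∈ range c, W a c * b0 a c +
      (∑ a ∈ range c, W a c * t a ^ l) * (κ * u c) +
      ∑ a ∈ range c, W a c * (κ * t c ^ l * u a) + ∑ a ∈ range c, W a c * D a c := by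
    rw [sum_mul, ← sum_add_distrib, ← sum_add_distrib, ← sum_add_distrib]
    refine sum_congr rfl fun a _ => ?_
    rw [hb]
    ring
  rw [h3, ← S.dd c, hb c c]
  ring

theorem exp (nf : NfStmt) : ExpStmt := by
  intro V _ _ l k t g W d κ ψ e J σ q P I E δ S hq hI hE
  obtain ⟨n1, n2⟩ := nf V l k t g W d κ ψ e J q P S
  have e1 := n1 E
  have e2 := n1 fun i => (κ * t i ^ l) • I
  have e3 := n2 I hI
  have hQ := exp_qs l k t g W d κ ψ e S (fun c => ⟪q I, δ c⟫)
    (fun a c => ⟪q ((κ * t a ^ l) • I), (κ * t c ^ l) • I⟫) (fun a c => ⟪q (δ a), δ c⟫)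
    (fun a c => ⟪q (E a), E c⟫) (fun a c => by
      have hs : ⟪q (δ a), I⟫ = ⟪q I, δ a⟫ := by rw [hq.symm, real_inner_comm]
      rw [hE a, hE c]
      simp only [map_add, map_smul, inner_add_left, inner_add_right, real_inner_smul_left,
        real_inner_smul_right, hs]
      ring)
  have hN : ∑ c ∈ range k, g c * t c * (‖E c‖ ^ 2 - (κ * t c ^ l) ^ 2) =
      ∑ c ∈ range k, g c * t c * ‖E c‖ ^ 2 -
        ∑ c ∈ range k, g c * t c * ‖(κ * t c ^ l) • I‖ ^ 2 := by
    rw [← sum_sub_distrib]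
    refine sum_congr rfl fun c _ => ?_
    rw [norm_smul, hI, mul_one, Real.norm_eq_abs, sq_abs]
    ring
  have hL : ∑ c ∈ range k, g c * t c *
        ⟪P + (1 - ψ * (1 - t c ^ l)) • q P + ((l + 1) * (ψ * (1 - t c ^ l))) • q I, δ c⟫ =
      ∑ c ∈ range k, g c * t c * ⟪P + (1 - ψ * (1 - t c ^ l)) • q P, E c⟫ -
        ∑ c ∈ range k, g c * t c * ⟪P + (1 - ψ * (1 - t c ^ l)) • q P, (κ * t c ^ l) • I⟫ +
        ∑ c ∈ range k, g c * t c * ((l + 1) * (ψ * (1 - t c ^ l)) * ⟪q I, δ c⟫) := by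
    rw [← sum_sub_distrib, ← sum_add_distrib]
    refine sum_congr rfl fun c _ => ?_
    rw [hE c, inner_add_left (P + (1 - ψ * (1 - t c ^ l)) • q P), inner_add_right,
      real_inner_smul_left (q I)]
    ring
  rw [hN, hL, e1, hQ, ← e3, e2]
  ring

end Pool.Agent.MP_29b5d3_an.GO
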