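import Pool.Agent.MP_29b5d3_an.GE.SpecO

/-! PROJECT GE, odd dimensions, row FRONT: scaling the front to the level one. -/

set_option autoImplicit false

open Finset
open scoped RealInnerProductSpace

namespace Pool.Agent.MP_29b5d3_an.GO

open GB

theorem fr_pos {τ ϱ : ℝ} {t g : ℕ → ℝ} (h : Geo τ ϱ t g) (hτ : 0 < τ) (hϱ : 0 < ϱ) (i : ℕ) :
    0 < t i ∧ 0 < g i := by
  induction i with
  | zero => exact ⟨h.t0, h.g0⟩
  | succ i ih => exact ⟨by rw [h.ts]; exact mul_pos hτ ih.1, by rw [h.gs]; exact mul_pos hϱ ih.2⟩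

theorem fr_Z (j m : ℕ) (T G : ℝ) (t g : ℕ → ℝ) :
    Z j (fun i => T * t i) (fun i => G * g i) m = G * T ^ m * Z j t g m := by
  simp only [Z, mul_sum]
  exact sum_congr rfl fun i _ => by rw [mul_pow]; ring

theorem fr_sum {V : Type} [NormedAddCommGroup V] [InnerProductSpace ℝ V] (j l : ℕ) (T G : ℝ)
    (hT : 0 < T) (t g : ℕ → ℝ) (E : ℕ → V) :
    ∑ i ∈ range j, (G * g i) * (T * t i) * ‖T ^ l • E i‖ ^ 2 =
      G * T ^ (2 * l + 1) * ∑ i ∈ range j, g i * t i * ‖E i‖ ^ 2 := by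
  rw [mul_sum]
  refine sum_congr rfl fun i _ => ?_
  rw [norm_smul, Real.norm_of_nonneg (pow_pos hT l).le]
  ring

theorem fr_bod {V : Type} [NormedAddCommGroup V] [InnerProductSpace ℝ V] {l k : ℕ} {T G κ : ℝ}
    (hT : 0 < T) (hG : 0 < G) {t g : ℕ → ℝ} {E : ℕ → V}
    (h : Bod l k (fun i => T * t i) (fun i => G * g i) κ fun i => T ^ l • E i) :
    Bod l k t g κ E := by
  have hp : 0 < G * T ^ (2 * l + 1) := mul_pos hG (pow_pos hT _)
  constructor
  · intro j hj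
    have h1 := h.body j hj
    simp only [fr_sum j l T G hT, fr_Z] at h1
    refine le_of_mul_le_mul_left ?_ hp
    linarith
  · have h1 := h.tight
    simp only [fr_sum k l T G hT, fr_Z] at h1
    refine mul_left_cancel₀ hp.ne' ?_
    linarith

theorem fr_det {n : ℕ} (s : ℝ) (F : Mt n) : (s • F).det = s ^ n * F.det := by
  have h := LinearMap.det_smul s (F : EuclideanSpace ℝ (Fin n) →ₗ[ℝ] EuclideanSpace ℝ (Fin n))
  rw [finrank_euclideanSpace_fin] at h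
  exact h

theorem front (lk : LkStmt) (norm : NormStmt) : FrontStmt := by
  intro l r j0 hl hr hj
  obtain ⟨τ, κ, c0, C, σ0, hτ, hκ, hκ1, hc0, hC, hσ, hσ1, H⟩ := norm l r j0 hl hr hj
  refine ⟨τ, κ, c0, C, σ0, hτ, hκ, hκ1, hc0, hC, hσ, hσ1, ?_⟩
  intro V _ _ c c' u P k t g E F hod hgeo hbod
  have hτ0 : 0 < τ := by linarith
  have hpos := fr_pos hgeo hτ0 (Real.rpow_pos_of_pos hτ0 r)
  obtain ⟨T, hTk⟩ : ∃ T, T = t k := ⟨_, rfl⟩
  obtain ⟨G, hGk⟩ : ∃ G, G = g k := ⟨_, rfl⟩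
  have hT : 0 < T := hTk ▸ (hpos k).1
  have hG : 0 < G := hGk ▸ (hpos k).2
  have hTl : 0 < T ^ l := pow_pos hT l
  obtain ⟨t1, rfl⟩ : ∃ t1 : ℕ → ℝ, t = fun i => T * t1 i :=
    ⟨fun i => T⁻¹ * t i, funext fun i => by field_simp⟩
  obtain ⟨g1, rfl⟩ : ∃ g1 : ℕ → ℝ, g = fun i => G * g1 i :=
    ⟨fun i => G⁻¹ * g i, funext fun i => by field_simp⟩
  obtain ⟨F1, rfl⟩ : ∃ F1 : Mt (2 * l + 1), F = T • F1 :=
    ⟨T⁻¹ • F, by rw [smul_smul, mul_inv_cancel₀ hT.ne', one_smul]⟩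
  obtain ⟨E1, rfl⟩ : ∃ E1 : ℕ → V, E = fun i => T ^ l • E1 i :=
    ⟨fun i => (T ^ l)⁻¹ • E i, funext fun i => by
      rw [smul_smul, mul_inv_cancel₀ hTl.ne', one_smul]⟩
  have ht1 : t1 k = 1 := by
    have : T * t1 k = T * 1 := by rw [mul_one]; exact hTk.symm
    exact mul_left_cancel₀ hT.ne' this
  have hg1 : g1 k = 1 := by
    have : G * g1 k = G * 1 := by rw [mul_one]; exact hGk.symm
    exact mul_left_cancel₀ hG.ne' this
  have htp : ∀ i, 0 < t1 i := fun i => pos_of_mul_pos_left (b := T) (by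
    have := (hpos i).1
    simp only at this
    linarith [mul_comm T (t1 i)]) hT.le
  have hgp : ∀ i, 0 < g1 i := fun i => pos_of_mul_pos_left (b := G) (by
    have := (hpos i).2
    simp only at this
    linarith [mul_comm G (g1 i)]) hG.le
  have hgeo1 : Geo τ (τ ^ r) t1 g1 := by
    refine ⟨htp 0, hgp 0, fun i => ?_, fun i => ?_⟩
    · have := hgeo.ts i
      refine mul_left_cancel₀ hT.ne' ?_
      linarith
    · have := hgeo.gs i
      refine mul_left_cancel₀ hG.ne' ?_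
      linarith
  obtain ⟨h1, h2, h3⟩ := H V c c' u P k t1 g1 E1 F1 hod hgeo1 ht1 hg1 (fr_bod hT hG hbod)
  have hTn : 0 < T ^ (2 * l + 1) := pow_pos hT _
  have hp : 0 < G * T ^ (2 * l + 1) := mul_pos hG hTn
  have hn : ‖T • F1‖ = T * ‖F1‖ := by rw [norm_smul, Real.norm_of_nonneg hT.le]
  rw [fr_det, qop_smul, hod.hom, lk.2.2 V l (k + 1) τ T G F1.det t1 g1 _ _ E1 hT htp, hn, mul_pow]
  simp only [ht1, hg1, mul_one]
  refine ⟨fun h => ?_, ?_, fun h => ?_⟩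
  · have h4 : j0 * ‖F1‖ ^ (2 * l + 1) ≤ F1.det := by
      refine le_of_mul_le_mul_left ?_ hTn
      linarith
    have h5 := mul_le_mul_of_nonneg_left (h1 h4) hp.le
    linarith
  · have h5 := mul_le_mul_of_nonneg_left h2 hp.le
    linarith
  · have h4 : ‖F1‖ ≤ σ0 := by
      refine le_of_mul_le_mul_left ?_ hT
      linarith
    exact mul_nonneg hp.le (h3 h4)

end Pool.Agent.MP_29b5d3_an.GO
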