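import Pool.Agent.MP_29b5d3_an.GE.SpecO
import Mathlib.Tactic.Linarith
import Mathlib.Tactic.FieldSimp
import Mathlib.Tactic.Positivity
import Mathlib.Tactic.Ring

/-! PROJECT GE, odd dimensions: the multipliers at the singular vertex, large norm and dimension
three. -/

set_option autoImplicit false

namespace Pool.Agent.MP_29b5d3_an.GO

open GB Finset

theorem gain1 (amgm : AmgmStmt) : Gain1Stmt := by
  intro l σ ψ e hl hσ hψ hψl he hel
  have hL : (1 : ℝ) ≤ l := by exact_mod_cast hl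
  have hs : σ ≤ σ ^ l := le_self_pow₀ hσ (by omega)
  have ham := (amgm l σ (by linarith)).2 hσ
  unfold Gain
  generalize σ ^ l = s at *
  generalize (l : ℝ) = L at *
  have hσ0 : 0 < σ := by linarith
  have hs1 : 1 ≤ s := hσ.trans hs
  have hψL : ψ * L ≤ 1 := by nlinarith [mul_nonneg hψ.le (mul_nonneg (by linarith : 0 ≤ L)
    (by linarith : 0 ≤ L - 1))]
  have hψ1 : ψ ≤ 1 := by nlinarith
  have hn : (0 : ℝ) < 2 * L + 1 := by linarith
  have hσs : 0 < σ * s := by positivity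
  refine ⟨(1 - ψ) * (σ * s) + (L + 1) * ψ * σ, ψ * (σ * s) - (L + 1) * ψ * σ, 0,
    3 / 2 * (L + 1) * s * (σ - 1) ^ 2 / ((2 * L + 1) * σ), ?_, le_rfl, by positivity, ?_, ?_⟩
  · have := mul_nonneg (by linarith : 0 ≤ 1 - ψ) hσs.le
    positivity
  · have e1 : (2 * L + 1) * (0 + 3 / 2 * (L + 1) * s * (σ - 1) ^ 2 / ((2 * L + 1) * σ) / (L + 1)) =
        3 / 2 * (s * (σ - 1) ^ 2 / σ) := by
      field_simp
      ring
    rw [e1]
    have h1 : σ * (s - 1) ^ 2 / (2 * L + 1) ≤ σ * (s - 1) ^ 2 / 3 :=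
      div_le_div_of_nonneg_left (by positivity) (by norm_num) (by linarith)
    have h2 : s * (σ - 1) ^ 2 ≤ σ * (s - 1) ^ 2 := by
      nlinarith [mul_nonneg (sub_nonneg.2 hs) (by nlinarith : 0 ≤ σ * s - 1)]
    have h3 : s * (σ - 1) ^ 2 / σ ≤ (s - 1) * (σ - 1) := by
      rw [div_le_iff₀ hσ0]
      nlinarith [mul_nonneg (sub_nonneg.2 hs) (sub_nonneg.2 hσ)]
    have h4 : s * (σ - 1) ^ 2 / σ ≤ s * (σ - 1) ^ 2 := div_le_self (by positivity) hσ
    have h5 : 0 ≤ s * (σ - 1) ^ 2 / σ := by positivity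
    nlinarith
  · intro y b hy hy1 hb
    have hb0 : 0 ≤ b := by rw [hb]; exact mul_nonneg hψ.le (by linarith)
    have hbψ : b ≤ ψ := by rw [hb]; nlinarith
    have hb1 : 0 ≤ 1 - b := by linarith
    have hm : (1 - ψ) * (σ * s) + (L + 1) * ψ * σ + (ψ * (σ * s) - (L + 1) * ψ * σ) * y =
        (1 - b) * (σ * s) + (L + 1) * b * σ := by
      rw [hb]
      ring
    rw [hm]
    have hp := mul_nonneg hb1 hσs.le
    refine ⟨(1 - b) * (σ * s) / 3, by positivity, by linarith, ?_, ?_⟩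
    · have h1 : 3 * e ≤ 1 := by nlinarith
      have h2 : (1 - b) * σ ≤ (1 - b) * (σ * s) :=
        mul_le_mul_of_nonneg_left (le_mul_of_one_le_right hσ0.le hs1) hb1
      have h3 : b * σ ≤ (L + 1) * b * σ := by
        nlinarith [mul_nonneg (mul_nonneg hb0 hσ0.le) (by linarith : 0 ≤ L)]
      nlinarith [mul_nonneg hb0 hσ0.le, mul_nonneg (by linarith : 0 ≤ 1 - 3 * e) hσ0.le]
    · set w := s * (σ - 1) - b * (σ * (s - 1)) with hw
      have hq : 0 ≤ s * (σ - 1) := mul_nonneg (by linarith) (by linarith)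
      have hw0 : 0 ≤ w := by
        have h1 : b * (σ * (s - 1)) ≤ b * (L * s * (σ - 1)) := mul_le_mul_of_nonneg_left ham hb0
        have h2 : b * L ≤ 1 := (mul_le_mul_of_nonneg_right hbψ (by linarith)).trans hψL
        nlinarith [mul_le_mul_of_nonneg_right h2 hq]
      have hw1 : w ≤ (1 - b) * (s * (σ - 1)) := by
        nlinarith [mul_nonneg hb0 (sub_nonneg.2 hs)]
      have hw2 : w ^ 2 ≤ (1 - b) * (s * (σ - 1)) ^ 2 := by
        have h1 : w ^ 2 ≤ ((1 - b) * (s * (σ - 1))) ^ 2 := pow_le_pow_left₀ hw0 hw1 2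
        nlinarith [mul_nonneg (mul_nonneg hb0 hb1) (sq_nonneg (s * (σ - 1)))]
      have e1 : y * (((L + 1) * (s + L * b * σ - ((1 - b) * (σ * s) + (L + 1) * b * σ)) ^ 2 +
          L * ((1 - b) * (σ * s) + (L + 1) * b * σ - ((1 - b) * (σ * s) + (L + 1) * b * σ)) ^ 2) /
            (2 * L + 1)) = y * (L + 1) / (2 * L + 1) * w ^ 2 := by
        rw [hw]
        ring
      have e2 : 2 * ((1 - b) * (σ * s) / 3) *
          (0 + 3 / 2 * (L + 1) * s * (σ - 1) ^ 2 / ((2 * L + 1) * σ) * y) =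
          y * (L + 1) / (2 * L + 1) * ((1 - b) * (s * (σ - 1)) ^ 2) := by
        field_simp
        ring
      rw [e1, e2]
      exact mul_le_mul_of_nonneg_left hw2 (by positivity)

theorem gain2 : Gain2Stmt := by
  intro σ ψ e hσ hσ1 hψ hψ1 he he1
  have h1σ : 0 ≤ 1 - σ := by linarith
  refine ⟨(1 - ψ) * (σ * σ) + 2 * ψ * σ + σ * (1 - σ), ψ * (σ * σ) - 2 * ψ * σ,
    σ * (1 - σ) ^ 2 / 2, 0, ?_, by positivity, le_rfl, ?_, ?_⟩
  · have := mul_nonneg (by linarith : 0 ≤ 1 - ψ) (mul_pos hσ hσ).le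
    positivity
  · simp only [Nat.cast_one, pow_one]
    nlinarith [mul_nonneg (sq_nonneg (1 - σ)) (by linarith : 0 ≤ 1 - 5 / 6 * σ)]
  · intro y b hy hy1 hb
    have hb0 : 0 ≤ b := by rw [hb]; exact mul_nonneg hψ.le (by linarith)
    have hby : y ≤ 1 - b := by rw [hb]; nlinarith
    have hb1 : 0 ≤ 1 - b := by linarith
    have hm : (1 - ψ) * (σ * σ) + 2 * ψ * σ + σ * (1 - σ) + (ψ * (σ * σ) - 2 * ψ * σ) * y =
        σ * (1 - b * σ) + 2 * b * σ := by
      rw [hb]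
      ring
    rw [hm]
    simp only [Nat.cast_one, pow_one]
    have m1 := min_le_left (1 - b) (1 / 3 + b)
    have m2 := min_le_right (1 - b) (1 / 3 + b)
    have m0 : y * (2 * b ^ 2 + 1) / 3 ≤ min (1 - b) (1 / 3 + b) := by
      have h1 : y * (2 * b ^ 2 + 1) ≤ (1 - b) * (2 * b ^ 2 + 1) :=
        mul_le_mul_of_nonneg_right hby (by positivity)
      have h2 : b ^ 2 ≤ b := by nlinarith
      refine le_min ?_ ?_
      · nlinarith [mul_nonneg hb1 (by linarith : 0 ≤ 1 - b ^ 2)]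
      · nlinarith [mul_nonneg hb0 (sq_nonneg b)]
    set μ := min (1 - b) (1 / 3 + b)
    have hμ : 0 ≤ μ := le_trans (by positivity) m0
    have hbs : b * σ ≤ b := mul_le_of_le_one_right hb0 hσ1
    refine ⟨σ * μ, by positivity, ?_, ?_, ?_⟩
    · nlinarith [mul_le_mul_of_nonneg_left (show μ ≤ 1 - b * σ by linarith) hσ.le]
    · nlinarith [mul_le_mul_of_nonneg_left (show μ ≤ 1 - b * σ + 2 * b - 2 * e by linarith) hσ.le]
    · nlinarith [mul_le_mul_of_nonneg_left m0 (sq_nonneg (σ * (1 - σ)))]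

end Pool.Agent.MP_29b5d3_an.GO
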