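import Pool.Agent.MP_29b5d3_an.GE.SpecO

/-! PROJECT GE, odd dimensions: multipliers in dimension at least five, and the two regimes. -/

set_option autoImplicit false

namespace Pool.Agent.MP_29b5d3_an.GO

theorem gain3 (amgm : AmgmStmt) : Gain3Stmt := by
  intro l σ ψ e hl h0 h1 h5 p0 p1 e0 e1
  obtain ⟨am, -⟩ := amgm l σ h0.le
  have l2 : (2 : ℝ) ≤ l := by exact_mod_cast hl
  have s0 : 0 < σ ^ l := pow_pos h0 l
  have s1 : σ ^ l ≤ 1 := pow_le_one₀ h0.le h1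
  unfold Gain
  generalize σ ^ l = s at *
  generalize (l : ℝ) = L at *
  have L0 : 0 < L := by linarith
  have L4 : 4 ≤ L ^ 2 := by nlinarith
  have p2 : ψ ≤ 1 / L ^ 2 := by rwa [le_div_iff₀ (by positivity)]
  have p3 : ψ ≤ 1 / 4 := by nlinarith
  have u0 : 0 ≤ 1 - σ := by linarith
  have u1 : 0 ≤ 1 - s := by linarith
  refine ⟨(1 - ψ) * σ * s + (L + 1) * ψ * σ + s * (1 - σ), ψ * σ * s - (L + 1) * ψ * σ, 0,
    5 / (2 * s * (2 * L + 1)) * ((L + 1) * (σ * (1 - s) / L ^ 2) ^ 2 + L * (s * (1 - σ)) ^ 2),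
    ?_, le_rfl, by positivity, ?_, fun y b y0 y1 hb => ⟨s / 5, by positivity, ?_, ?_, ?_⟩⟩
  · have : 0 ≤ 1 - ψ := by linarith
    positivity
  · have q0 : 0 ≤ (1 - s) ^ 2 := sq_nonneg _
    have a1 : 5 * σ / (2 * s) ≤ 2 * L + 1 := by
      rw [div_le_iff₀ (by positivity)]
      linarith
    have a2 : (2 * L + 1) / L ^ 4 ≤ 5 / 16 := by
      rw [div_le_div_iff₀ (by positivity) (by positivity)]
      nlinarith [mul_le_mul L4 L4 (by norm_num) (by positivity), mul_le_mul l2 L4 (by norm_num) L0.le]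
    have a3 : 5 * σ / (2 * s) * (σ * (1 - s) ^ 2 / L ^ 4) ≤ 5 / 16 * (1 - s) ^ 2 := by
      calc 5 * σ / (2 * s) * (σ * (1 - s) ^ 2 / L ^ 4)
          ≤ (2 * L + 1) * (1 * (1 - s) ^ 2 / L ^ 4) := by gcongr
        _ = (2 * L + 1) / L ^ 4 * (1 - s) ^ 2 := by ring
        _ ≤ _ := by gcongr
    have a4 : 5 / (2 * (L * (L + 1))) * (L ^ 2 * s * (1 - σ) ^ 2) ≤ 5 / 12 * (1 - s) ^ 2 := by
      have b1 : L ^ 2 * s * (1 - σ) ^ 2 ≤ (1 - s) ^ 2 := am.trans (by nlinarith)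
      have b2 : 5 / (2 * (L * (L + 1))) ≤ 5 / 12 :=
        div_le_div_of_nonneg_left (by norm_num) (by norm_num) (by nlinarith)
      gcongr
    have a5 : σ * (s - 1) ^ 2 / (2 * L + 1) ≤ 1 / 5 * (1 - s) ^ 2 := by
      rw [div_le_iff₀ (by positivity)]
      nlinarith [mul_nonneg u0 q0, mul_nonneg (sub_nonneg.2 l2) q0]
    have a6 : (1 - s) ^ 2 ≤ (s - 1) * (σ * s - 1) := by
      nlinarith [mul_nonneg u1 (mul_nonneg u0 s0.le)]
    have a7 : (2 * L + 1) * (0 + 5 / (2 * s * (2 * L + 1)) *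
        ((L + 1) * (σ * (1 - s) / L ^ 2) ^ 2 + L * (s * (1 - σ)) ^ 2) / (L + 1)) =
        5 * σ / (2 * s) * (σ * (1 - s) ^ 2 / L ^ 4) +
          5 / (2 * (L * (L + 1))) * (L ^ 2 * s * (1 - σ) ^ 2) := by
      field_simp
      ring
    rw [a7]
    linarith
  all_goals
    have b0 : 0 ≤ b := hb ▸ mul_nonneg p0.le (by linarith)
    have b1 : b ≤ ψ := by nlinarith
    have em : (1 - ψ) * σ * s + (L + 1) * ψ * σ + s * (1 - σ) + (ψ * σ * s - (L + 1) * ψ * σ) * y =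
        s + b * σ * (L + 1 - s) := by
      rw [hb]
      ring
    rw [em]
  · have : b * σ ≤ 1 / 4 := by nlinarith
    nlinarith
  · have c1 : 0 ≤ b * σ * (L + 1 - s) := mul_nonneg (mul_nonneg b0 h0.le) (by linarith)
    have c2 : (2 * L + 1) * (2 * e * σ) ≤ (2 * L + 1) * (4 / 5 * s) := by nlinarith
    have c3 := le_of_mul_le_mul_left c2 (by positivity)
    linarith
  · have c1 : (s + L * b * σ - (s + b * σ * (L + 1 - s))) ^ 2 ≤ (σ * (1 - s) / L ^ 2) ^ 2 := by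
      calc _ = (b * (σ * (1 - s))) ^ 2 := by ring
        _ ≤ (1 / L ^ 2 * (σ * (1 - s))) ^ 2 := by
          have := b1.trans p2
          gcongr
        _ = _ := by ring
    have c2 : ((1 - b) * (σ * s) + (L + 1) * b * σ - (s + b * σ * (L + 1 - s))) ^ 2 =
        (s * (1 - σ)) ^ 2 := by ring
    rw [c2]
    calc _ ≤ y * (((L + 1) * (σ * (1 - s) / L ^ 2) ^ 2 + L * (s * (1 - σ)) ^ 2) / (2 * L + 1)) := by
          gcongr
      _ = _ := by
          field_simp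
          ring

theorem split_aux {L σ s a : ℝ} (hL : 0 < L) (h0 : 0 ≤ σ) (ha : σ ≤ a)
    (h : 2 * (2 * L + 1) * s ≤ 5 * σ)
    (h2 : 5 * a * (1 + a) / (2 * (L + 1)) + (2 * L + 1) / (2 * L ^ 2) * a ≤ 19 / 20) :
    (2 * L + 1) / (L + 1) * (s * (1 + σ)) + (2 * L + 1) / (2 * L ^ 2) * σ ≤ 19 / 20 := by
  refine le_trans (add_le_add ?_ (by gcongr)) h2
  calc (2 * L + 1) / (L + 1) * (s * (1 + σ)) = 2 * (2 * L + 1) * s * (1 + σ) / (2 * (L + 1)) := by
        field_simp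
    _ ≤ 5 * σ * (1 + σ) / (2 * (L + 1)) := by gcongr
    _ ≤ _ := by
        have := h0.trans ha
        gcongr

theorem split : SplitStmt := by
  intro l σ hl h0
  have l1 : (1 : ℝ) ≤ l := by exact_mod_cast hl
  rcases le_total σ (1 / 5) with a | a
  · refine Or.inl ⟨by linarith, ?_⟩
    have b0 : σ ^ l ≤ 1 / 5 := (pow_le_of_le_one h0 (by linarith) (by omega)).trans a
    have b1 : (2 * (l : ℝ) + 1) / (l + 1) ≤ 2 := by
      rw [div_le_iff₀ (by positivity)]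
      linarith
    have b2 : (2 * (l : ℝ) + 1) / (2 * l ^ 2) ≤ 3 / 2 := by
      rw [div_le_iff₀ (by positivity)]
      nlinarith
    calc (2 * (l : ℝ) + 1) / (l + 1) * (σ ^ l * (1 + σ)) + (2 * l + 1) / (2 * l ^ 2) * σ
        ≤ 2 * (1 / 5 * (1 + 1 / 5)) + 3 / 2 * (1 / 5) := by gcongr
      _ ≤ _ := by norm_num
  rcases le_or_gt (5 * σ) (2 * (2 * l + 1) * σ ^ l) with b | b
  · exact Or.inr ⟨a, b⟩
  have s0 : 0 < σ := by linarith
  have key : ∀ (m : ℕ) (c : ℝ), l = m + 1 → 0 ≤ c → 5 ≤ 2 * (2 * (l : ℝ) + 1) * c ^ m → σ ≤ c := by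
    intro m c e c0 h
    by_contra hc
    have h1 : c ^ m ≤ σ ^ m := pow_le_pow_left₀ c0 (not_le.1 hc).le m
    have h2 : σ ^ l = σ ^ m * σ := by rw [e, pow_succ]
    have h3 : 5 ≤ 2 * (2 * (l : ℝ) + 1) * σ ^ m := h.trans (by gcongr)
    rw [h2, ← mul_assoc] at b
    exact absurd (mul_le_mul_of_nonneg_right h3 h0) (not_le.2 b)
  have s1 : σ ≤ 1 := key (l - 1) 1 (by omega) zero_le_one (by rw [one_pow]; linarith)
  refine Or.inl ⟨s1, ?_⟩
  rcases le_or_gt 6 l with c | c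
  · have l6 : (6 : ℝ) ≤ l := by exact_mod_cast c
    refine split_aux (by linarith) h0 s1 b.le ?_
    have d1 : 5 * 1 * (1 + 1) / (2 * ((l : ℝ) + 1)) ≤ 5 / 7 := by
      rw [div_le_iff₀ (by positivity)]
      linarith
    have d2 : (2 * (l : ℝ) + 1) / (2 * l ^ 2) ≤ 13 / 72 := by
      rw [div_le_iff₀ (by positivity)]
      nlinarith
    linarith
  · interval_cases l
    · norm_num at b
      linarith
    · exact split_aux (by norm_num) h0 (key 1 (1 / 2) rfl (by norm_num) (by norm_num)) b.le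
        (by norm_num)
    · exact split_aux (by norm_num) h0 (key 2 (3 / 5) rfl (by norm_num) (by norm_num)) b.le
        (by norm_num)
    · exact split_aux (by norm_num) h0 (key 3 (2 / 3) rfl (by norm_num) (by norm_num)) b.le
        (by norm_num)
    · exact split_aux (by norm_num) h0 (key 4 (7 / 10) rfl (by norm_num) (by norm_num)) b.le
        (by norm_num)

end Pool.Agent.MP_29b5d3_an.GO
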