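import Pool.Agent.MP_29b5d3_an.GE.SpecO

/-! The geometric scheme at every front. -/

set_option autoImplicit false

namespace Pool.Agent.MP_29b5d3_an.GO

open GB Finset

/-- perturbation of the moments -/
theorem grid_num {l : ℕ} {z w : ℕ → ℝ} {κ ψ e r h η γ C : ℝ} (N : Num l w κ ψ e r h η) (hl : 1 ≤ l)
    (h0 : 0 < h) (k0 : 0 < κ) (k1 : κ ≤ 1) (p0 : 0 < ψ) (p1 : ψ * (l : ℝ) ^ 2 ≤ 1) (e0 : 0 ≤ e)
    (g0 : 0 < γ) (hC : C = (1 + h) * w 0) (a1 : ∀ m, 1 ≤ z m) (a2 : ∀ m, z m ≤ w m)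
    (a3 : ∀ m, (1 - γ) * w m ≤ z m) (a4 : ∀ m, w m ≤ w 0)
    (a5 : z (l + 1) * w (2 * l + 1) ≤ z (2 * l + 1) * w (l + 1)) :
    Num l z κ ψ e r h (η + C * γ) := by
  have l1 : (1 : ℝ) ≤ l := by exact_mod_cast hl
  have w0 : ∀ m, 0 < w m := fun m => by linarith [a1 m, a2 m]
  have c0 : 0 ≤ C * γ := by
    have := w0 0
    rw [hC]
    positivity
  have key : ∀ (x : ℝ) (m : ℕ), x ≤ 1 → h * (x * w m) ≤ h * (x * z m) + C * γ := fun x m hx => by
    have b1 := mul_le_mul_of_nonneg_right hx (sub_nonneg.2 (a2 m))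
    have b2 := mul_le_mul_of_nonneg_left (a4 m) g0.le
    have b3 : x * w m - x * z m ≤ γ * w 0 := by linarith [a3 m]
    have b4 := mul_le_mul_of_nonneg_left b3 h0.le
    have b5 := mul_pos g0 (w0 0)
    rw [hC]
    linarith
  have up : ∀ (x : ℝ) (m : ℕ), 0 ≤ x → h * (x * z m) ≤ h * (x * w m) := fun x m hx =>
    mul_le_mul_of_nonneg_left (mul_le_mul_of_nonneg_left (a2 m) hx) h0.le
  have p2 : ψ ≤ 1 := by nlinarith [mul_le_mul_of_nonneg_left (one_le_pow₀ (n := 2) l1) p0.le]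
  have p3 : (l + 1) * ψ / 2 ≤ 1 := by
    have : (l + 1 : ℝ) ≤ 2 * l ^ 2 := by nlinarith
    nlinarith
  have p4 : 0 ≤ (l + 1) * ψ / 2 := by positivity
  refine ⟨(mul_le_mul_of_nonneg_left (a2 1) h0.le).trans N.z1, (up _ _ (by positivity)).trans N.zl,
    le_of_mul_le_mul_right ?_ (w0 (2 * l + 1)), a1 _, N.kap, ?_, ?_, ?_, ?_, ?_⟩
  · have b1 := mul_le_mul_of_nonneg_left a5 (show (0 : ℝ) ≤ l + 1 by positivity)
    have b2 := mul_le_mul_of_nonneg_left N.rat (zero_le_one.trans (a1 (2 * l + 1)))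
    linarith
  · linarith [N.n0, key (1 - e) 0 (by linarith)]
  · have := N.n1
    unfold s1 at this ⊢
    linarith [key (κ ^ 2) (2 * l + 1) (pow_le_one₀ k0.le k1)]
  · have := N.n2
    unfold s2 at this ⊢
    linarith [up κ (l + 1) k0.le]
  · have := N.n3
    unfold s3 at this ⊢
    linarith [up (κ * (1 - ψ)) (l + 1) (mul_nonneg k0.le (by linarith)),
      up (κ * ψ) (2 * l + 1) (by positivity)]
  · have := N.n4
    unfold s4 at this ⊢
    linarith [up (κ * ((l + 1) * ψ / 2)) (l + 1) (by positivity),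
      key (κ * ((l + 1) * ψ / 2)) (2 * l + 1) (mul_le_one₀ k1 p4 p3)]

theorem grid (par : ParStmt) (tel : TelStmt) (minus : MinusStmt) (mom : MomStmt) (lim : LimStmt) :
    GridStmt := by
  intro l r η hl hr hη
  obtain ⟨τ, h1, h2, N⟩ := lim l r η hl hr hη
  obtain ⟨p0, p1, k0, k1, b1, b2, -, -⟩ := par l τ hl h1
  have hϱ : 1 < τ ^ r := Real.one_lt_rpow h1 hr
  have zi : ∀ m, 0 < Zi τ (τ ^ r) m := fun m =>
    one_div_pos.2 (sub_pos.2 (inv_lt_one_of_one_lt₀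
      (one_lt_mul_of_lt_of_le hϱ (one_le_pow₀ h1.le))))
  have e0 : 0 ≤ ee l τ (τ ^ r) := by
    have := zi (l + 1)
    have := zi (2 * l + 1)
    unfold ee
    positivity
  have z0 := zi 0
  refine ⟨τ, kap l τ, psi l τ, ee l τ (τ ^ r), (1 + (τ - 1)) * Zi τ (τ ^ r) 0, h1,
    mul_nonneg (by linarith) z0.le, k1, k0, fun k t g G tk gk => ?_⟩
  have tp : ∀ i, 0 < t i := fun i => by
    induction i with
    | zero => exact G.t0
    | succ i ih => rw [G.ts]; positivity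
  have gp : ∀ i, 0 < g i := fun i => by
    induction i with
    | zero => exact G.g0
    | succ i ih => rw [G.gs]; positivity
  have mo : Monotone t := monotone_nat_of_le_succ fun i => by
    rw [G.ts]
    exact le_mul_of_one_le_left (tp i).le h1.le
  have wn : ∀ a c, 0 ≤ Wf l τ t g a c := fun a c => by
    have := tp a
    have := tp c
    have := gp a
    unfold Wf
    positivity
  have M := mom k τ (τ ^ r) t g h1 hϱ G tk gk
  have T := tel l k τ (τ ^ r) t g hl h1 hϱ G tk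
  obtain ⟨m1, m2⟩ := minus l τ (τ ^ r) t g hl h1 hϱ G
  refine ⟨⟨hl, tp, gp, fun i hi => tk ▸ mo (Nat.le_of_lt_succ hi), mo, k0, k1, p0, p1, e0, h2, wn,
    fun a ha => (T a ha).1, fun a ha => (T a ha).2, fun c => ?_,
    fun c => by linarith [m1 c, wn c c], m2 _⟩,
    grid_num N hl (by linarith) k0 k1 p0 p1 e0 G.g0 rfl (fun m => (M m).1) (fun m => (M m).2.1)
      (fun m => (M m).2.2.1) (fun m => (M m).2.2.2.1) ((M _).2.2.2.2 _ (by omega)),
    (M 0).2.1.trans (le_mul_of_one_le_left z0.le (by linarith))⟩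
  have := (tp c).ne'
  unfold df
  field_simp

end Pool.Agent.MP_29b5d3_an.GO
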