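import Pool.Agent.MP_29b5d3_an.GE.SpecO
import Mathlib.Analysis.SpecialFunctions.Pow.Deriv

/-! PROJECT GE, odd dimensions: the ratio of the geometric scheme tends to one. -/

set_option autoImplicit false

open Filter Topology Finset

namespace Pool.Agent.MP_29b5d3_an.GO

open GB

namespace OLim

theorem sl {f : ℝ → ℝ} {c : ℝ} (hf : HasDerivAt f c 1) (h0 : f 1 = 0) :
    Tendsto (fun τ => f τ / (τ - 1)) (𝓝[>] 1) (𝓝 c) := by
  refine ((hasDerivAt_iff_tendsto_slope.1 hf).mono_left (nhdsGT_le_nhdsNE 1)).congr fun τ => ?_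
  rw [slope_def_field, h0, sub_zero]

theorem tw (m : ℕ) : Tendsto (fun τ : ℝ => (τ ^ m - 1) / (τ - 1)) (𝓝[>] 1) (𝓝 m) :=
  sl (f := fun τ => τ ^ m - 1) (by simpa using (hasDerivAt_pow m (1 : ℝ)).sub_const 1) (by simp)

theorem tu {r : ℝ} (hr : 0 < r) (m : ℕ) :
    Tendsto (fun τ : ℝ => (τ - 1) * Zi τ (τ ^ r) m) (𝓝[>] 1) (𝓝 (1 / (r + m))) := by
  have h1 : HasDerivAt (fun τ : ℝ => τ ^ r * τ ^ m) (r + m) 1 := by
    simpa using (Real.hasDerivAt_rpow_const (x := 1) (p := r) (Or.inl one_ne_zero)).fun_mul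
      (hasDerivAt_pow m (1 : ℝ))
  have h2 : HasDerivAt (fun τ : ℝ => 1 - (τ ^ r * τ ^ m)⁻¹) (r + m) 1 := by
    simpa using (h1.fun_inv (by simp)).const_sub 1
  have h3 := (sl h2 (by simp)).inv₀ (by positivity : (0 : ℝ) < r + m).ne'
  rw [one_div]
  refine h3.congr fun τ => ?_
  rw [Zi, inv_div, mul_one_div]

theorem tid : Tendsto (fun τ : ℝ => τ) (𝓝[>] 1) (𝓝 1) := tendsto_id.mono_left nhdsWithin_le_nhds

theorem tpsi {l : ℕ} (hl : 1 ≤ l) : Tendsto (psi l) (𝓝[>] 1) (𝓝 (1 / (l : ℝ) ^ 2)) := by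
  have l0 : (0 : ℝ) < l := by exact_mod_cast hl
  have h := (tid.pow l).div (tid.mul ((tw l).pow 2)) (by positivity)
  rw [one_pow, one_mul] at h
  refine h.congr fun τ => ?_
  simp only [Pi.div_apply]
  rw [psi, div_pow, ← mul_div_assoc, div_div_eq_mul_div]

theorem tkap (l : ℕ) : Tendsto (kap l) (𝓝[>] 1) (𝓝 1) := by
  have l0 : ((l + 1 : ℕ) : ℝ) ≠ 0 := by positivity
  have h := (tendsto_const_nhds (x := ((l + 1 : ℕ) : ℝ))).div (tw (l + 1)) l0
  rw [div_self l0] at h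
  refine h.congr fun τ => ?_
  simp only [Pi.div_apply]
  rw [kap, div_div_eq_mul_div, Nat.cast_succ]

theorem tee {l : ℕ} {r : ℝ} (hr : 0 < r) (hl : 1 ≤ l) :
    Tendsto (fun τ : ℝ => ee l τ (τ ^ r)) (𝓝[>] 1) (𝓝 (d0 l r)) := by
  have h := (((tendsto_const_nhds (x := (1 : ℝ))).sub (tpsi hl)).mul (tu hr (l + 1))).add
    (((tpsi hl).mul (tw (l + 1))).mul (tu hr (2 * l + 1))) |>.div_const 2
  have e : d0 l r = ((1 - 1 / (l : ℝ) ^ 2) * (1 / (r + (l + 1 : ℕ))) +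
      1 / (l : ℝ) ^ 2 * (l + 1 : ℕ) * (1 / (r + (2 * l + 1 : ℕ)))) / 2 := by
    rw [d0]
    push_cast
    rw [← add_assoc, ← add_assoc, mul_comm 2 (r + l + 1), mul_comm 2 (r + 2 * l + 1), ← div_div,
      ← div_div]
    ring
  rw [e]
  refine h.congr' ?_
  filter_upwards [self_mem_nhdsWithin] with τ hτ
  have h0 : τ - 1 ≠ 0 := (sub_pos.2 hτ).ne'
  rw [ee, a1, a2]
  field_simp

theorem up {f : ℝ → ℝ} {c b : ℝ} (h : Tendsto f (𝓝[>] 1) (𝓝 c)) (hb : c < b) :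
    ∀ᶠ τ in 𝓝[>] (1 : ℝ), f τ ≤ b := (h.eventually (gt_mem_nhds hb)).mono fun _ => le_of_lt

theorem lo {f : ℝ → ℝ} {c b : ℝ} (h : Tendsto f (𝓝[>] 1) (𝓝 c)) (hb : b < c) :
    ∀ᶠ τ in 𝓝[>] (1 : ℝ), b ≤ f τ := (h.eventually (lt_mem_nhds hb)).mono fun _ => le_of_lt

end OLim

open OLim in
theorem lim (ph : PhStmt) : LimStmt := by
  intro l r η hl hr hη
  have l1 : (1 : ℝ) ≤ l := by exact_mod_cast hl
  have u0 := tu hr 0
  have u1 := tu hr 1
  have u2 := tu hr (l + 1)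
  have u3 := tu hr (2 * l + 1)
  push_cast at u0 u1 u2 u3
  rw [add_zero] at u0
  rw [← add_assoc] at u2 u3
  have hk := tkap l
  have hp := tpsi hl
  have he := tee hr hl
  have c1 := (tendsto_const_nhds (x := (1 : ℝ)) (f := 𝓝[>] (1 : ℝ)))
  have f0 := up (he.const_mul (2 * (l : ℝ) + 1)) (ph l r l1 hr).2.1
  have f1 := up u1 (b := 1) (by rw [div_lt_one (by positivity)]; linarith)
  have f2 := up (u2.const_mul ((l : ℝ) + 1)) (b := 1) (by
    rw [mul_one_div, div_lt_one (by positivity)]; linarith)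
  have f3 := lo ((u3.const_mul (2 * (l : ℝ) + 1)).sub (u2.const_mul ((l : ℝ) + 1))) (b := 0) (by
    rw [sub_pos, mul_one_div, mul_one_div, div_lt_div_iff₀ (by positivity) (by positivity)]
    nlinarith)
  have f4 := lo hk (b := 39 / 40) (by norm_num)
  have f5 := lo ((c1.sub he).mul u0) (b := E0 l r - η) (by rw [E0, mul_one_div]; linarith)
  have f6 := lo ((hk.pow 2).mul u3) (b := E1 l r - η) (by rw [E1]; linarith)
  have f7 := up (hk.mul u2) (b := E2 l r + η) (by rw [E2]; linarith)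
  have f8 := up (hk.mul (((c1.sub hp).mul u2).add (hp.mul u3))) (b := E3 l r + η) (by
    rw [E3, E2, E1]; linarith)
  have f9 := up ((hk.mul ((hp.const_mul ((l : ℝ) + 1)).div_const 2)).mul (u2.sub u3))
    (b := E4 l r + η) (by rw [E4, E2, E1, one_mul, mul_one_div]; linarith)
  obtain ⟨τ, hτ, g0, g1, g2, g3, g4, g5, g6, g7, g8, g9⟩ := ((eventually_mem_nhdsWithin
    (a := (1 : ℝ)) (s := Set.Ioi 1)).and (f0.and (f1.and (f2.and (f3.and
      (f4.and (f5.and (f6.and (f7.and (f8.and f9)))))))))).exists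
  have t1 : 1 < τ := hτ
  refine ⟨τ, t1, g0, g1, by linarith, ?_, ?_, g4, by linarith, ?_, ?_, ?_, ?_⟩
  · refine le_of_mul_le_mul_left ?_ (sub_pos.2 t1)
    linarith
  · have h1 : 1 < τ ^ r * τ ^ (2 * l + 1) :=
      one_lt_mul_of_lt_of_le (Real.one_lt_rpow t1 hr) (one_le_pow₀ t1.le)
    have h2 := inv_lt_one_of_one_lt₀ h1
    have h3 : 0 < (τ ^ r * τ ^ (2 * l + 1))⁻¹ := inv_pos.2 (by linarith)
    rw [Zi, le_div_iff₀ (by linarith)]
    linarith
  · rw [s1]; linarith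
  · rw [s2]; linarith
  · rw [s3]; linarith
  · rw [s4]; linarith

end Pool.Agent.MP_29b5d3_an.GO
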