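import Pool.Agent.MP_29b5d3_an.GE.SpecO

/-! PROJECT GE, odd dimensions: the bracket of a positive kernel from above. -/

set_option autoImplicit false

open Finset

namespace Pool.Agent.MP_29b5d3_an.GO

open GB

theorem psd : PsdStmt := by
  intro k f g b hf hg hm hb
  have key : ∀ k, g k / f k * ∑ a ∈ range k, ∑ c ∈ range k, f a * f c * b a c ≤
      ∑ c ∈ range k, (f c * g c * b c c + 2 * ∑ a ∈ range c, f a * g c * b a c) := by
    intro k
    induction k with
    | zero => simp
    | succ k ih =>
      refine (mul_le_mul_of_nonneg_right (hm k) (hb.nn (k + 1) f)).trans ?_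
      have e1 : ∑ a ∈ range (k + 1), ∑ c ∈ range (k + 1), f a * f c * b a c =
          ∑ a ∈ range k, ∑ c ∈ range k, f a * f c * b a c +
            f k * (2 * ∑ a ∈ range k, f a * b a k + f k * b k k) := by
        simp only [sum_range_succ, sum_add_distrib]
        have e2 : ∑ c ∈ range k, f k * f c * b k c = f k * ∑ a ∈ range k, f a * b a k := by
          rw [mul_sum]
          exact sum_congr rfl fun c _ => by rw [hb.symm k c]; ring
        have e3 : ∑ a ∈ range k, f a * f k * b a k = f k * ∑ a ∈ range k, f a * b a k := by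
          rw [mul_sum]
          exact sum_congr rfl fun c _ => by ring
        rw [e2, e3]
        ring
      have e4 : ∑ a ∈ range k, f a * g k * b a k = g k * ∑ a ∈ range k, f a * b a k := by
        rw [mul_sum]
        exact sum_congr rfl fun c _ => by ring
      have e5 : g k / f k * f k = g k := div_mul_cancel₀ _ (hf k).ne'
      rw [e1, sum_range_succ (n := k) (fun c => f c * g c * b c c +
        2 * ∑ a ∈ range c, f a * g c * b a c), e4, mul_add, ← mul_assoc, e5]
      linarith
  exact (mul_nonneg (div_pos (hg k) (hf k)).le (hb.nn k f)).trans (key k)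

namespace Minus

theorem diag {b : ℕ → ℕ → ℝ} (hb : Gram b) (c : ℕ) : 0 ≤ b c c := by
  have := hb.nn (c + 1) fun a => if a = c then 1 else 0
  simpa [ite_mul, mul_ite] using this

theorem pos {τ : ℝ} {t : ℕ → ℝ} (h : 1 < τ) (h0 : 0 < t 0) (hs : ∀ i, t (i + 1) = τ * t i)
    (i : ℕ) : 0 < t i := by
  induction i with
  | zero => exact h0
  | succ i ih => rw [hs]; positivity

theorem mono {τ : ℝ} {t : ℕ → ℝ} (h : 1 < τ) (h0 : 0 < t 0) (hs : ∀ i, t (i + 1) = τ * t i)
    (i : ℕ) : t i ≤ t (i + 1) := by
  rw [hs]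
  exact le_mul_of_one_le_left (pos h h0 hs i).le h.le

end Minus

open Minus in
theorem minus (par : ParStmt) (psd : PsdStmt) (mom : MomStmt) : MinusStmt := by
  intro l τ ϱ t g hl hτ hϱ G
  obtain ⟨-, -, -, -, p1, p2, -⟩ := par l τ hl hτ
  have tp := pos hτ G.t0 G.ts
  have gp := pos hϱ G.g0 G.gs
  have tm := mono hτ G.t0 G.ts
  have gm := mono hϱ G.g0 G.gs
  have h1 : ∀ c, df l τ t g c + Wf l τ t g c c / 2 ≤ ee l τ ϱ * g c := by
    intro c
    have tc := tp c
    have gc := gp c
    have G1 : Geo τ ϱ (fun i => t i / t c) fun i => g i / g c :=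
      ⟨div_pos G.t0 tc, div_pos G.g0 gc, fun i => by rw [G.ts, mul_div_assoc],
        fun i => by rw [G.gs, mul_div_assoc]⟩
    have M := mom c τ ϱ _ _ hτ hϱ G1 (div_self tc.ne') (div_self gc.ne')
    have e : df l τ t g c + Wf l τ t g c c / 2 =
        (a1 l τ * Z (c + 1) (fun i => t i / t c) (fun i => g i / g c) (l + 1) +
          a2 l τ * Z (c + 1) (fun i => t i / t c) (fun i => g i / g c) (2 * l + 1)) / 2 * g c := by
      have e1 : df l τ t g c + Wf l τ t g c c / 2 =
          ∑ a ∈ range (c + 1), Wf l τ t g a c * t a ^ l / (2 * t c ^ l) := by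
        rw [sum_range_succ, df, sum_div]
        congr 1
        field_simp
      rw [e1, Z, Z, mul_sum, mul_sum, ← sum_add_distrib, sum_div, sum_mul]
      refine sum_congr rfl fun a _ => ?_
      simp only [Wf, div_pow]
      field_simp
      ring
    rw [e, ee]
    have m1 := (M (l + 1)).2.1
    have m2 := (M (2 * l + 1)).2.1
    gcongr
  refine ⟨h1, fun k b hb => ?_⟩
  have q1 := psd k (fun i => g i * t i) (fun i => 1 / t i) b (fun i => mul_pos (gp i) (tp i))
    (fun i => one_div_pos.2 (tp i)) (fun i => by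
      have := tp i; have := gp i; have := tp (i + 1); have := gp (i + 1)
      have := tm i; have := gm i
      gcongr) hb
  have q2 := psd k (fun i => g i * t i * t i ^ l) (fun i => 1 / t i ^ (l + 1)) b
    (fun i => mul_pos (mul_pos (gp i) (tp i)) (pow_pos (tp i) _))
    (fun i => one_div_pos.2 (pow_pos (tp i) _)) (fun i => by
      have := tp i; have := gp i; have := tp (i + 1); have := gp (i + 1)
      have := tm i; have := gm i
      gcongr) hb
  have q3 : 0 ≤ ∑ c ∈ range k, (Wf l τ t g c c * b c c +
      2 * ∑ a ∈ range c, Wf l τ t g a c * b a c) := by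
    refine (add_nonneg (mul_nonneg p1 q1) (mul_nonneg p2.le q2)).trans_eq ?_
    rw [mul_sum, mul_sum, ← sum_add_distrib]
    refine sum_congr rfl fun c _ => ?_
    have e : ∑ a ∈ range c, Wf l τ t g a c * b a c =
        a1 l τ * ∑ a ∈ range c, g a * t a * (1 / t c) * b a c +
          a2 l τ * ∑ a ∈ range c, g a * t a * t a ^ l * (1 / t c ^ (l + 1)) * b a c := by
      rw [mul_sum, mul_sum, ← sum_add_distrib]
      refine sum_congr rfl fun a _ => ?_
      rw [Wf]
      ring
    rw [e, Wf]
    ring
  have q4 : Qs k (Wf l τ t g) (df l τ t g) b =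
      ∑ c ∈ range k, (df l τ t g c + Wf l τ t g c c / 2) * b c c -
        (∑ c ∈ range k, (Wf l τ t g c c * b c c +
          2 * ∑ a ∈ range c, Wf l τ t g a c * b a c)) / 2 := by
    rw [Qs, sum_div, ← sum_sub_distrib]
    exact sum_congr rfl fun c _ => by ring
  have q5 : ∑ c ∈ range k, (df l τ t g c + Wf l τ t g c c / 2) * b c c ≤
      ee l τ ϱ * ∑ c ∈ range k, g c * b c c := by
    rw [mul_sum]
    refine sum_le_sum fun c _ => ?_
    rw [← mul_assoc]
    exact mul_le_mul_of_nonneg_right (h1 c) (diag hb c)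
  linarith

end Pool.Agent.MP_29b5d3_an.GO
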