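import Pool.Agent.MP_29b5d3_an.GE.SpecO

/-! The normal form of the integrand and its value at the aligned family. -/

set_option autoImplicit false

open Finset
open scoped RealInnerProductSpace

namespace Pool.Agent.MP_29b5d3_an.GO

open GB

theorem nf : NfStmt := by
  intro V _ _ l k t g W d κ ψ e J q P h
  have A : ∀ E : ℕ → V, Lk k t g W d J q P E = (∑ c ∈ range k, (g c - d c)) * J +
      ∑ c ∈ range k, g c * t c * ‖E c‖ ^ 2 -
      ∑ c ∈ range k, g c * t c * ⟪P + (1 - ψ * (1 - t c ^ l)) • q P, E c⟫ +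
      Qs k W d fun a c => ⟪q (E a), E c⟫ := by
    intro E
    have a : ∑ c ∈ range k, ∑ a ∈ range c, W a c * ⟪q P, E a⟫ =
        ∑ a ∈ range k, (g a - g a * t a * (1 - ψ * (1 - t a ^ l))) * ⟪q P, E a⟫ := by
      rw [swap]
      refine sum_congr rfl fun a ha => ?_
      rw [← sum_mul, ← h.be a (mem_range.1 ha), sub_sub_cancel]
    have b : Lk k t g W d J q P E = ∑ c ∈ range k, (g c * t c * (‖E c‖ ^ 2 - ⟪P, E c⟫) +
        g c * (J - ⟪q P, E c⟫) - ∑ a ∈ range c, W a c * ⟪q (E a), E c⟫ -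
        d c * (J - ⟪q (E c), E c⟫)) + ∑ c ∈ range k, ∑ a ∈ range c, W a c * ⟪q P, E a⟫ := by
      rw [Lk, ← sum_add_distrib]
      refine sum_congr rfl fun c _ => ?_
      simp only [mul_sub (W _ c), sum_sub_distrib]
      ring
    rw [b, a, Qs, sum_mul, ← sum_add_distrib, ← sum_add_distrib, ← sum_sub_distrib,
      ← sum_add_distrib]
    refine sum_congr rfl fun c _ => ?_
    rw [inner_add_left, real_inner_smul_left]
    ring
  refine ⟨A, fun I hI => ?_⟩
  have a : ∑ c ∈ range k, 2 * (d c * (κ * t c ^ l) ^ 2) =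
      ∑ a ∈ range k, κ * t a ^ l * (g a * t a * ((l + 1) * (ψ * (1 - t a ^ l)))) := by
    refine Eq.trans (sum_congr rfl fun c _ => ?_) ((swap k fun a c =>
      κ * t a ^ l * (κ * (W a c * t c ^ l))).trans (sum_congr rfl fun a ha => ?_))
    · rw [show 2 * (d c * (κ * t c ^ l) ^ 2) = κ ^ 2 * t c ^ l * (2 * d c * t c ^ l) by ring, h.dd,
        mul_sum]
      exact sum_congr rfl fun a _ => by ring
    · rw [← h.th a (mem_range.1 ha), mul_sum, mul_sum]
  have b : (Qs k W d fun a c => ⟪q ((κ * t a ^ l) • I), (κ * t c ^ l) • I⟫) =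
      -(∑ c ∈ range k, 2 * (d c * (κ * t c ^ l) ^ 2)) / 2 * ⟪q I, I⟫ := by
    rw [Qs, ← sum_neg_distrib, sum_div, sum_mul]
    refine sum_congr rfl fun c _ => ?_
    simp only [map_smul, real_inner_smul_left, real_inner_smul_right]
    have : ∑ a ∈ range c, W a c * (κ * t c ^ l * (κ * t a ^ l * ⟪q I, I⟫)) =
        κ ^ 2 * t c ^ l * ⟪q I, I⟫ * (2 * d c * t c ^ l) := by
      rw [h.dd, mul_sum]
      exact sum_congr rfl fun a _ => by ring
    rw [this]
    ring
  rw [A, b, a, Ls, s1, s2, s3, s4]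
  simp only [Z, norm_smul, hI, mul_one, Real.norm_eq_abs, sq_abs, inner_add_left,
    real_inner_smul_left, real_inner_smul_right, add_sub_assoc, add_assoc,
    ← sum_neg_distrib, sum_div, mul_sum, sum_mul, ← sum_add_distrib, ← sum_sub_distrib]
  exact sum_congr rfl fun c _ => by ring

end Pool.Agent.MP_29b5d3_an.GO
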