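import Pool.Agent.MP_29b5d3_an.GE.SpecO

/-! PROJECT GE, odd dimensions: the pointwise inequality at a normalised front. -/

set_option autoImplicit false

open Finset

namespace Pool.Agent.MP_29b5d3_an.GO

open GB

namespace ONorm

theorem pw {σ s : ℝ} (s0 : 0 < s) (s1 : s ≤ 1) (h : s ≤ σ) {a n : ℕ} (ha : a ≤ n) :
    σ ^ a ≤ σ ^ n / s ^ n := by
  obtain ⟨b, rfl⟩ := Nat.exists_eq_add_of_le ha
  rw [le_div_iff₀ (pow_pos s0 _), pow_add σ]
  refine mul_le_mul_of_nonneg_left ?_ (pow_nonneg (s0.le.trans h) _)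
  exact (pow_le_pow_of_le_one s0.le s1 (Nat.le_add_left b a)).trans (pow_le_pow_left₀ s0.le h b)

theorem regB {l κ zl zn x y : ℝ} (hl : 1 ≤ l) (k0 : 39 / 40 ≤ κ) (one : 1 ≤ zn) (x0 : 0 ≤ x)
    (y0 : 0 ≤ y) (rat : (l + 1) * zl ≤ (2 * l + 1) * zn)
    (h : (2 * l + 1) / (l + 1) * x + (2 * l + 1) / (2 * l ^ 2) * y ≤ 19 / 20) :
    1 / 50 ≤ κ ^ 2 * zn - κ * zl * (x + (l + 1) / (2 * l ^ 2) * y) := by
  have l0 : 0 < l + 1 := by linarith
  have l1 : 0 < l := by linarith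
  have X0 : 0 ≤ x + (l + 1) / (2 * l ^ 2) * y := by positivity
  have a1 : zl ≤ (2 * l + 1) / (l + 1) * zn := by
    rw [div_mul_eq_mul_div, le_div_iff₀ l0]
    linarith
  have a2 : (2 * l + 1) / (l + 1) * (x + (l + 1) / (2 * l ^ 2) * y) ≤ 19 / 20 := by
    refine le_of_eq_of_le ?_ h
    field_simp
  have a3 : zl * (x + (l + 1) / (2 * l ^ 2) * y) ≤ 19 / 20 * zn := by
    have := mul_le_mul_of_nonneg_right a1 X0
    have := mul_le_mul_of_nonneg_right a2 (zero_le_one.trans one)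
    linarith
  have a4 := mul_le_mul_of_nonneg_left a3 (show 0 ≤ κ by linarith)
  have a5 : 39 / 40 * (1 / 40) ≤ κ * (κ - 19 / 20) := by nlinarith
  nlinarith

end ONorm

open ONorm in
theorem norm (vert : VertStmt) (split : SplitStmt) (grid : GridStmt) (crude : CrudeStmt)
    (regA : RegAStmt) : NormStmt := by
  intro l r j0 hl hr hj
  obtain ⟨cA, cA0, hA⟩ := regA l r j0 hl hr hj
  obtain ⟨τ, κ, ψ, e, C, τ1, C0, k1, k0, hG⟩ :=
    grid l r (cA / (2 * 5 ^ (2 * l + 2))) hl hr (by positivity)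
  have h0 : 0 < τ - 1 := sub_pos.2 τ1
  have j00 : 0 < j0 := lt_trans (by positivity) hj
  have l1 : (1 : ℝ) ≤ l := by exact_mod_cast hl
  obtain ⟨σ0, s0, s8⟩ : ∃ σ0 : ℝ, 0 < σ0 ∧ σ0 * (8 * (C + 1)) = 1 :=
    ⟨1 / (8 * (C + 1)), by positivity, by field_simp⟩
  have s1 : σ0 ≤ 1 := by nlinarith
  have cx : 0 ≤ 5 ^ (2 * l + 2) * C / (τ - 1) := by positivity
  have cy : 0 ≤ 3 * C / σ0 ^ (2 * l + 1) := by positivity
  refine ⟨τ, κ, min (cA / (2 * (τ - 1))) (1 / 50),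
    5 ^ (2 * l + 2) * C / (τ - 1) + C + 3 * C / σ0 ^ (2 * l + 1), σ0, τ1, k0, k1, by positivity,
    by positivity, s0, s1, ?_⟩
  intro V _ _ c c' u P k t g E F od geo tk gk bod
  obtain ⟨sch, num, z0⟩ := hG k t g geo tk gk
  have σn := norm_nonneg F
  obtain ⟨b1, b2, b3, b4⟩ := crude V l (k + 1) t g _ _ κ ψ e F.det ‖F‖ (‖F‖ ^ l) (qop u c F) (P F) E
    sch ⟨od.symm F, od.bd F, σn⟩ bod ((vert _ l V c c' u P od).2.2.1 F).1
  have hd : |F.det| ≤ ‖F‖ ^ (2 * l + 1) := GE.det_le F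
  have zp : ∀ m, 0 ≤ Z (k + 1) t g m := fun m =>
    sum_nonneg fun i _ => mul_nonneg (sch.gpos i).le (pow_nonneg (sch.tpos i).le _)
  have e1 : e ≤ 1 := by nlinarith [sch.e0, sch.e1]
  have S0 := (mul_nonneg (sub_nonneg.2 e1) (zp 0)).trans b1
  have g0 := geo.g0
  have pn := pow_nonneg σn (2 * l + 1)
  have pl := pow_nonneg σn l
  have rA := hA V c c' u P (k + 1) t g _ _ κ ψ e (τ - 1) _ E F od sch num h0 (by positivity) bod
  generalize Lk (k + 1) t g (Wf l τ t g) (df l τ t g) F.det (qop u c F) (P F) E = Λ at b4 rA ⊢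
  generalize ∑ c ∈ range (k + 1), (g c - df l τ t g c) = S at b1 b2 b4 S0
  have gen : 1 / 2 - C * ‖F‖ ^ (2 * l + 1) - C * (‖F‖ ^ l * (1 + ‖F‖) + ‖F‖) ≤ Λ := by
    have a1 : -(C * ‖F‖ ^ (2 * l + 1)) ≤ S * F.det := by
      have := mul_le_mul_of_nonneg_left (abs_le.1 hd).1 S0
      have := mul_le_mul_of_nonneg_right (b2.trans z0) pn
      linarith
    have a2 : 1 / 2 ≤ κ ^ 2 * Z (k + 1) t g (2 * l + 1) := by
      nlinarith [num.kap, num.one]
    have a3 : ((l : ℝ) + 1) / (2 * l ^ 2) ≤ 1 := by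
      rw [div_le_one (by positivity)]
      nlinarith
    have a4 : κ * Z (k + 1) t g (l + 1) ≤ C := by nlinarith [zp (l + 1), b3.trans z0]
    have a5 := mul_le_mul a4 (add_le_add_left (mul_le_mul_of_nonneg_right a3 σn)
      (‖F‖ ^ l * (1 + ‖F‖))) (by positivity) C0
    linarith
  have sm : ‖F‖ ≤ σ0 → 0 ≤ Λ := fun h => by
    have a1 := pow_le_of_le_one σn (h.trans s1) (n := 2 * l + 1) (by omega)
    have a2 := pow_le_of_le_one σn (h.trans s1) (n := l) (by omega)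
    have a3 : ‖F‖ ^ l * (1 + ‖F‖) ≤ ‖F‖ * 2 := mul_le_mul a2 (by linarith) (by linarith) σn
    have a4 : C * (‖F‖ ^ (2 * l + 1) + (‖F‖ ^ l * (1 + ‖F‖) + ‖F‖)) ≤ C * (4 * σ0) :=
      mul_le_mul_of_nonneg_left (by linarith) C0
    nlinarith
  refine ⟨fun hc => ?_, ?_, sm⟩
  · have m1 := min_le_left (cA / (2 * (τ - 1))) (1 / 50)
    have m2 := min_le_right (cA / (2 * (τ - 1))) (1 / 50)
    rcases split l ‖F‖ hl σn with ⟨h1, h2⟩ | ⟨h1, h2⟩
    · have a1 := regB l1 num.kap num.one (x := ‖F‖ ^ l * (1 + ‖F‖)) (by positivity) σn num.rat h2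
      have a2 : 0 ≤ S * F.det := mul_nonneg S0 (le_trans (by positivity) hc)
      have a3 : ‖F‖ ^ (2 * l + 1) ≤ 1 := pow_le_one₀ σn h1
      have a4 : 0 ≤ (5 ^ (2 * l + 2) * C / (τ - 1) + C + 3 * C / σ0 ^ (2 * l + 1)) * g 0 :=
        mul_nonneg (add_nonneg (add_nonneg cx C0) cy) g0.le
      refine (mul_le_mul_of_nonneg_right ((sub_le_self _ a4).trans m2) pn).trans ?_
      linarith only [a1, a2, a3, b4]
    · refine le_of_mul_le_mul_left (le_trans ?_ (rA h1 h2 hc)) h0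
      rw [← mul_assoc]
      refine mul_le_mul_of_nonneg_right ?_ pn
      have a1 : (τ - 1) * (cA / (2 * (τ - 1))) = cA / 2 := by field_simp
      have a2 : (τ - 1) * (5 ^ (2 * l + 2) * C / (τ - 1)) = 5 ^ (2 * l + 2) * C := by field_simp
      have a3 : (5 : ℝ) ^ (2 * l + 2) * (cA / (2 * 5 ^ (2 * l + 2))) = cA / 2 := by field_simp
      have a4 := mul_le_mul_of_nonneg_left m1 h0.le
      have a5 : 0 ≤ (τ - 1) * ((C + 3 * C / σ0 ^ (2 * l + 1)) * g 0) :=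
        mul_nonneg h0.le (mul_nonneg (add_nonneg C0 cy) g0.le)
      have a6 : (τ - 1) * (5 ^ (2 * l + 2) * C / (τ - 1)) * g 0 = _ := congrArg (· * g 0) a2
      linarith only [a1, a3, a4, a5, a6]
  · rcases le_total ‖F‖ σ0 with h | h
    · exact (neg_nonpos.2 (by positivity)).trans (sm h)
    · have a1 := pw s0 s1 h (a := 1) (n := 2 * l + 1) (by omega)
      have a2 := pw s0 s1 h (a := l) (n := 2 * l + 1) (by omega)
      have a3 := pw s0 s1 h (a := l + 1) (n := 2 * l + 1) (by omega)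
      rw [pow_one] at a1
      rw [pow_succ] at a3
      have a4 : C * (‖F‖ ^ l * (1 + ‖F‖) + ‖F‖) ≤
          C * (3 * (‖F‖ ^ (2 * l + 1) / σ0 ^ (2 * l + 1))) :=
        mul_le_mul_of_nonneg_left (by linarith) C0
      have a5 : C * (3 * (‖F‖ ^ (2 * l + 1) / σ0 ^ (2 * l + 1))) =
          3 * C / σ0 ^ (2 * l + 1) * ‖F‖ ^ (2 * l + 1) := by ring
      linarith only [a4, a5, gen, mul_nonneg cx pn]

end Pool.Agent.MP_29b5d3_an.GO
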