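import Pool.Agent.MP_29b5d3_an.GE.SpecO
import Mathlib.Analysis.SpecialFunctions.Integrals.Basic

/-! PROJECT GE, odd dimensions: the values at the two vertices. -/

set_option autoImplicit false

namespace Pool.Agent.MP_29b5d3_an.GO

open GB Finset

theorem ph_d0 {l r : ℝ} (hl : 1 ≤ l) (hr : 0 < r) :
    d0 l r = (l + 1) * (r + 2 * l) / (2 * l * (r + 2 * l + 1) * (r + l + 1)) := by
  have h1 : l ≠ 0 := by positivity
  have h2 : r + l + 1 ≠ 0 := by positivity
  have h3 : r + 2 * l + 1 ≠ 0 := by positivity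
  unfold d0
  field_simp
  ring

theorem ph : PhStmt := by
  intro l r hl hr
  have h0 : 0 < l := by linarith
  have h1 : l ≠ 0 := by positivity
  have h2 : r + l + 1 ≠ 0 := by positivity
  have h3 : r + 2 * l + 1 ≠ 0 := by positivity
  have h4 : 2 * l + 1 ≠ 0 := by positivity
  have h5 : r ≠ 0 := hr.ne'
  refine ⟨by rw [ph_d0 hl hr]; positivity, ?_, fun σ s => ?_⟩
  · rw [ph_d0 hl hr, ← mul_div_assoc, div_lt_one (by positivity)]
    have h6 : 0 < r * (4 * l ^ 2 + l - 1) := mul_pos hr (by nlinarith)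
    have h7 : 0 < l * r ^ 2 := by positivity
    nlinarith
  · unfold E0 E3 E4 E1 E2
    rw [ph_d0 hl hr]
    field_simp
    ring

theorem ph_int {a : ℝ} (ha : 0 ≤ a) : ∫ u in (0 : ℝ)..1, u ^ a = 1 / (a + 1) := by
  rw [integral_rpow (Or.inl (by linarith)), Real.one_rpow, Real.zero_rpow (by linarith), sub_zero]

theorem ph_ii {a : ℝ} (ha : 0 ≤ a) : IntervalIntegrable (fun u : ℝ => u ^ a)
    MeasureTheory.volume 0 1 :=
  intervalIntegral.intervalIntegrable_rpow' (by linarith)

theorem ph_f (l : ℕ) {p σ : ℝ} (hp : 0 < p) (hσ : 0 ≤ σ) :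
    0 ≤ σ * σ ^ l / (p + 1) - σ ^ l / (p + 2) - σ / (p + l + 1) + 1 / (p + l + 2) := by
  have hl : (0 : ℝ) ≤ l := Nat.cast_nonneg l
  have i1 := ph_ii hp.le
  have i2 := ph_ii (show 0 ≤ p + 1 by linarith)
  have i3 := ph_ii (show 0 ≤ p + l by linarith)
  have i4 := ph_ii (show 0 ≤ p + l + 1 by linarith)
  have key : 0 ≤ ∫ u in (0 : ℝ)..1, (σ * σ ^ l * u ^ p - σ ^ l * u ^ (p + 1) - σ * u ^ (p + l) +
      u ^ (p + l + 1)) := by
    refine intervalIntegral.integral_nonneg zero_le_one fun u hu => ?_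
    have hu0 : 0 ≤ u := hu.1
    rw [Real.rpow_add_one' hu0 (show p + l + 1 ≠ 0 by positivity),
      Real.rpow_add_one' hu0 (show p + 1 ≠ 0 by positivity),
      Real.rpow_add' hu0 (show p + l ≠ 0 by positivity), Real.rpow_natCast]
    have h1 : 0 ≤ u ^ p := Real.rpow_nonneg hu0 p
    have h2 : 0 ≤ (σ ^ l - u ^ l) * (σ - u) := by
      rcases le_total u σ with h | h
      · exact mul_nonneg (sub_nonneg.2 (pow_le_pow_left₀ hu0 h l)) (sub_nonneg.2 h)
      · exact mul_nonneg_of_nonpos_of_nonpos (sub_nonpos.2 (pow_le_pow_left₀ hσ h l))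
          (sub_nonpos.2 h)
    have h3 := mul_nonneg h1 h2
    linarith
  rw [intervalIntegral.integral_add (((i1.const_mul _).sub (i2.const_mul _)).sub (i3.const_mul _))
      i4, intervalIntegral.integral_sub ((i1.const_mul _).sub (i2.const_mul _)) (i3.const_mul _),
    intervalIntegral.integral_sub (i1.const_mul _) (i2.const_mul _),
    intervalIntegral.integral_const_mul, intervalIntegral.integral_const_mul,
    intervalIntegral.integral_const_mul, ph_int hp.le, ph_int (show 0 ≤ p + 1 by linarith),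
    ph_int (show 0 ≤ p + l by linarith), ph_int (show 0 ≤ p + l + 1 by linarith)] at key
  refine key.trans_eq ?_
  rw [show p + 1 + 1 = p + 2 by ring, show p + l + 1 + 1 = p + l + 2 by ring]
  ring

theorem li (ph : PhStmt) : LiStmt := by
  intro l r hl hr
  have hl' : (1 : ℝ) ≤ l := by exact_mod_cast hl
  obtain ⟨h1, h2, -⟩ := ph l r hl' hr
  have h3 : 0 < 1 - d0 l r := by nlinarith
  have h0 : (0 : ℝ) < l := by linarith
  refine ⟨(1 - d0 l r) * ((l : ℝ) ^ 2 / (r * (r + l) ^ 2)), by positivity, fun σ hσ => ?_⟩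
  have hf := ph_f l (p := r + l - 1) (by linarith) hσ
  rw [show r + l - 1 + 1 = r + l by ring, show r + l - 1 + 2 = r + l + 1 by ring,
    show r + l - 1 + l + 1 = r + 2 * l by ring,
    show r + l - 1 + l + 2 = r + 2 * l + 1 by ring] at hf
  generalize σ ^ l = s at hf ⊢
  generalize (l : ℝ) = m at *
  have n1 : m ≠ 0 := by positivity
  have n2 : r + m + 1 ≠ 0 := by positivity
  have n3 : r + 2 * m + 1 ≠ 0 := by positivity
  have n4 : r + m ≠ 0 := by positivity
  have n5 : r + 2 * m ≠ 0 := by positivity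
  have n6 : r ≠ 0 := hr.ne'
  have e3 : E3 m r = (1 - 2 * d0 m r) / (r + m) := by
    unfold E3 E1 E2
    rw [ph_d0 hl' hr]
    field_simp
    ring
  have e4 : E4 m r = d0 m r / (r + 2 * m) := by
    unfold E4 E1 E2
    rw [ph_d0 hl' hr]
    field_simp
    ring
  have hs : 0 ≤ (1 - d0 m r) * σ * ((1 - s * (r + 2 * m) / (r + m)) ^ 2 / (r + 2 * m)) := by
    positivity
  have e : E0 m r * (σ * s ^ 2) + E1 m r - E2 m r * s - E3 m r * (σ * s) - E4 m r * σ =
      (1 - d0 m r) * (m ^ 2 / (r * (r + m) ^ 2)) * (σ * s ^ 2) +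
        (1 - d0 m r) * σ * ((1 - s * (r + 2 * m) / (r + m)) ^ 2 / (r + 2 * m)) +
        (σ * s / (r + m) - s / (r + m + 1) - σ / (r + 2 * m) + 1 / (r + 2 * m + 1)) := by
    rw [e3, e4]
    unfold E0 E1 E2
    generalize d0 m r = d
    field_simp
    ring
  rw [e]
  linarith

end Pool.Agent.MP_29b5d3_an.GO
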