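import Pool.Agent.MP_29b5d3_an.GE.SpecO

/-! PROJECT GE, odd dimensions, row PTF: the pointwise inequality for matrices. -/

set_option autoImplicit false

open Finset
open scoped RealInnerProductSpace

namespace Pool.Agent.MP_29b5d3_an.GO

open GB

namespace Ptf

theorem small {τ T r D ε : ℝ} (hτ : 1 < τ) (hT : 0 < T) (hr : 0 < r) (hD : 0 < D) (hε : 0 < ε) :
    ∃ N : ℕ, D * (T / τ ^ N * τ ^ 0) ^ r ≤ ε := by
  have x0 : 0 < (ε / D) ^ r⁻¹ := by positivity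
  obtain ⟨N, hN⟩ := pow_unbounded_of_one_lt (T / (ε / D) ^ r⁻¹) hτ
  have p : 0 < τ ^ N := by positivity
  refine ⟨N, ?_⟩
  rw [pow_zero, mul_one, ← le_div_iff₀' hD,
    ← Real.rpow_inv_rpow (x := ε / D) (by positivity) hr.ne']
  refine Real.rpow_le_rpow (by positivity) ?_ hr.le
  rw [div_lt_iff₀ x0] at hN
  rw [div_le_iff₀ p]
  linarith

theorem lev {l : ℕ} {j0 j1 σ t κ a p J : ℝ} (hl : 1 ≤ l) (h0 : 0 < j1) (h1 : j1 ≤ 1)
    (h2 : j1 ≤ j0) (hσ : 0 ≤ σ) (ht : 0 < t) (k0 : 0 < κ) (k1 : κ ≤ 1) (ha : 0 < a) (hp : 0 ≤ p)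
    (hb : a * t * p ^ 2 ≤ κ ^ 2 * (a * t ^ (2 * l + 1))) (hJ : J ≤ p * σ ^ (l + 1))
    (hc : j0 * σ ^ (2 * l + 1) ≤ J) : j1 * σ ≤ t := by
  have tl : 0 < t ^ l := by positivity
  have b1 : p ≤ κ * t ^ l := by
    refine (pow_le_pow_iff_left₀ hp (by positivity) two_ne_zero).1
      (le_of_mul_le_mul_left ?_ (mul_pos ha ht))
    exact hb.trans_eq (by ring)
  have b2 : p ≤ t ^ l := b1.trans (mul_le_of_le_one_left tl.le k1)
  rcases hσ.eq_or_lt with rfl | s0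
  · simpa using ht.le
  have b3 : j0 * σ ^ l ≤ t ^ l := by
    refine le_of_mul_le_mul_right ?_ (pow_pos s0 (l + 1))
    refine le_trans (le_of_eq (by ring)) (hc.trans (hJ.trans ?_))
    exact mul_le_mul_of_nonneg_right b2 (by positivity)
  refine (pow_le_pow_iff_left₀ (by positivity) ht.le (by omega : l ≠ 0)).1 (le_trans ?_ b3)
  rw [mul_pow]
  exact mul_le_mul_of_nonneg_right ((pow_le_of_le_one h0.le h1 (by omega)).trans h2)
    (by positivity)

end Ptf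

theorem ptF (vert : VertStmt) (lk : LkStmt) (front : FrontStmt) : PtFStmt := by
  intro l r j0 hl hr hj
  obtain ⟨τ, κ, c0, C, σ0, hτ, k0, k1, hc, hC, s0, s1, H⟩ := front l r j0 hl hr hj
  have τ0 : 0 < τ := one_pos.trans hτ
  have j0p : 0 < j0 := lt_trans (by positivity) hj
  obtain ⟨j1, a0, a1, a2⟩ : ∃ j1 : ℝ, 0 < j1 ∧ j1 ≤ 1 ∧ j1 ≤ j0 :=
    ⟨min 1 j0, lt_min one_pos j0p, min_le_left _ _, min_le_right _ _⟩
  refine ⟨c0 * (j1 / τ) ^ r, C * σ0⁻¹ ^ r, by positivity, by positivity, fun T ε hT hε => ?_⟩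
  obtain ⟨N, hN⟩ := Ptf.small (D := C + c0) hτ hT hr (by positivity) hε
  obtain ⟨t, ht⟩ : ∃ t : ℕ → ℝ, ∀ i, t i = T / τ ^ N * τ ^ i := ⟨_, fun _ => rfl⟩
  obtain ⟨g, hg⟩ : ∃ g : ℕ → ℝ, ∀ i, g i = t i ^ r := ⟨_, fun _ => rfl⟩
  have tp : ∀ i, 0 < t i := fun i => by rw [ht]; positivity
  have gp : ∀ i, 0 < g i := fun i => by rw [hg]; exact Real.rpow_pos_of_pos (tp i) r
  have ts : ∀ i, t (i + 1) = τ * t i := fun i => by rw [ht, ht]; ring
  have tN : t N = T := by rw [ht]; field_simp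
  have tT : ∀ i ≤ N, t i ≤ T := fun i hi => by
    rw [← tN, ht i, ht N]
    exact mul_le_mul_of_nonneg_left (pow_le_pow_right₀ hτ.le hi) (by positivity)
  have geo : Geo τ (τ ^ r) t g :=
    ⟨tp 0, gp 0, ts, fun i => by rw [hg, hg, ts, Real.mul_rpow τ0.le (tp i).le]⟩
  rw [← ht, ← hg] at hN
  obtain ⟨μ, κ', c', e⟩ := lk.1 N t g (Wf l τ t g) (df l τ t g)
  refine ⟨N, fun i => g i * t i, fun j => κ ^ 2 * Z j t g (2 * l + 1), μ, κ', c',
    fun i => mul_pos (gp i) (tp i), by simp [Z], fun j => mul_nonneg (sq_nonneg _)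
      (sum_nonneg fun i _ => mul_nonneg (gp i).le (pow_pos (tp i) _).le), ?_⟩
  intro V _ _ _ a a' u P hO F G k hF
  rw [e, lk.2.1 V N k t g _ _ _ _ _ G hF.le (hO.symm F) (hO.det F) hF.above]
  have σp : 0 ≤ ‖F‖ ^ (2 * l + 1) := by positivity
  have m0 : 0 ≤ min ‖F‖ T := le_min (norm_nonneg F) hT.le
  have mr : 0 ≤ min ‖F‖ T ^ r := Real.rpow_nonneg m0 r
  have g0 := gp 0
  have A : j0 * ‖F‖ ^ (2 * l + 1) ≤ F.det → j1 * min ‖F‖ T ≤ t k := fun h => by
    rcases hF.le.eq_or_lt with rfl | hk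
    · rw [tN]
      exact (mul_le_of_le_one_left m0 a1).trans (min_le_right _ _)
    refine (mul_le_mul_of_nonneg_left (min_le_left _ _) a0.le).trans
      (Ptf.lev hl a0 a1 a2 (norm_nonneg F) (tp k) k0 k1 (gp k) (norm_nonneg (P F)) ?_ ?_ h)
    · have b1 := hF.body (k + 1) hk
      have b2 := hF.tight
      simp only [Z, sum_range_succ, hF.above k le_rfl hk] at b1 b2
      linarith
    · rw [← hO.det F]
      exact (real_inner_le_norm _ _).trans (mul_le_mul_of_nonneg_left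
        ((vert _ l V a a' u P hO).2.2.1 F).2 (norm_nonneg _))
  have B : ∀ i, j1 / τ * min ‖F‖ T ≤ t i → c0 * (j1 / τ) ^ r * (min ‖F‖ T ^ r * ‖F‖ ^ (2 * l + 1))
      ≤ c0 * g i * ‖F‖ ^ (2 * l + 1) := fun i h => by
    have := Real.rpow_le_rpow (by positivity) h hr.le
    rw [Real.mul_rpow (by positivity) m0, ← hg] at this
    have := mul_le_mul_of_nonneg_left (mul_le_mul_of_nonneg_right this σp) hc.le
    linarith
  have c1 : 0 ≤ C * σ0⁻¹ ^ r * (min ‖F‖ T ^ r * ‖F‖ ^ (2 * l + 1)) := by positivity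
  have c2 : 0 ≤ ε * ‖F‖ ^ (2 * l + 1) := by positivity
  have c3 := mul_le_mul_of_nonneg_right hN σp
  have c4 : 0 ≤ C * g 0 * ‖F‖ ^ (2 * l + 1) := by positivity
  have c5 : 0 ≤ c0 * g 0 * ‖F‖ ^ (2 * l + 1) := by positivity
  cases k with
  | zero =>
    simp only [Lk, range_zero, sum_empty]
    refine ⟨by linarith, fun h => ?_⟩
    have := B 0 (le_trans (mul_le_mul_of_nonneg_right (div_le_self a0.le hτ.le) m0) (A h))
    linarith
  | succ k =>
    obtain ⟨h1, h2, h3⟩ := H V a a' u P k t g G F hO geo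
      ⟨fun j hj => hF.body j (hj.trans hF.le), hF.tight⟩
    refine ⟨?_, fun h => ?_⟩
    · rcases le_or_gt ‖F‖ (σ0 * t k) with b | b
      · linarith [h3 b]
      have b1 : t k ≤ σ0⁻¹ * min ‖F‖ T := by
        rw [le_inv_mul_iff₀ s0]
        exact le_min b.le ((mul_le_of_le_one_left (tp k).le s1).trans
          (tT k (Nat.le_of_succ_le hF.le)))
      have b2 := Real.rpow_le_rpow (tp k).le b1 hr.le
      rw [Real.mul_rpow (by positivity) m0, ← hg] at b2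
      have := mul_le_mul_of_nonneg_left (mul_le_mul_of_nonneg_right b2 σp) hC
      linarith
    · have b1 := A h
      rw [ts] at b1
      have := B k (by
        rw [div_mul_eq_mul_div, div_le_iff₀' τ0]
        exact b1)
      linarith [h1 h]

end Pool.Agent.MP_29b5d3_an.GO
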