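import Pool.Agent.MP_29b5d3_an.GE.SpecO

/-! PROJECT GE, odd dimensions: the main regime. -/

set_option autoImplicit false

open Finset
open scoped RealInnerProductSpace

namespace Pool.Agent.MP_29b5d3_an.GO

open GB

namespace RegA

variable {n : ℕ} {f g : Mt n → ℝ}

theorem const (a : ℝ) : RkAff fun _ : Mt n => a := fun _ _ _ _ => by simp

theorem add (hf : RkAff f) (hg : RkAff g) : RkAff fun F => f F + g F := fun F u v s => by
  have a := hf F u v s
  have b := hg F u v s
  simp only [smul_eq_mul] at a b ⊢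
  rw [a, b]
  ring

theorem mul (a : ℝ) (hf : RkAff f) : RkAff fun F => a * f F := fun F u v s => by
  have b := hf F u v s
  simp only [smul_eq_mul] at b ⊢
  rw [b]
  ring

theorem sub (hf : RkAff f) (hg : RkAff g) : RkAff fun F => f F - g F := fun F u v s => by
  have a := hf F u v s
  have b := hg F u v s
  simp only [smul_eq_mul] at a b ⊢
  rw [a, b]
  ring

theorem sum (s : Finset ℕ) {f : ℕ → Mt n → ℝ} (h : ∀ i, RkAff (f i)) :
    RkAff fun F => ∑ i ∈ s, f i F := by
  induction s using Finset.induction_on with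
  | empty => simpa using const 0
  | insert i s hi ih => simpa only [Finset.sum_insert hi] using add (h i) ih

variable {V : Type} [NormedAddCommGroup V] [InnerProductSpace ℝ V]

theorem inn {f : Mt n → V} (hf : RkAff f) (x : V) : RkAff fun F => ⟪f F, x⟫ := fun F u v s => by
  simp only [hf F u v s, inner_add_left, real_inner_smul_left, inner_sub_left, smul_eq_mul]

theorem qaf (u c : Fin n → V →L[ℝ] V) (x : V) : RkAff fun F => qop u c F x := fun F a b s => by
  simp only [qop_add, qop_smul, _root_.add_apply, _root_.smul_apply,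
    add_sub_cancel_left]

theorem lk {u c : Fin n → V →L[ℝ] V} {P : Mt n → V} (hP : RkAff P)
    (hB : RkAff fun F => qop u c F (P F)) (hJ : RkAff fun F : Mt n => F.det) (k : ℕ) (t g : ℕ → ℝ)
    (W : ℕ → ℕ → ℝ) (d : ℕ → ℝ) (E : ℕ → V) :
    RkAff fun F => Lk k t g W d F.det (qop u c F) (P F) E :=
  sum _ fun _ => sub (add (add (mul _ (sub (const _) (inn hP _))) (mul _ (sub hJ (inn hB _))))
    (sum _ fun _ => mul _ (sub (inn hB _) (inn (qaf u c _) _))))
    (mul _ (sub hJ (inn (qaf u c _) _)))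

theorem sym {l : ℕ} {c c' u : Fin n → V →L[ℝ] V} {P : Mt n → V} (od : Od l c c' u P) {σ : ℝ}
    {F : Mt n} (h : ‖F‖ ≤ σ) : Sym (qop u c F) σ :=
  ⟨od.symm F, fun x => (od.bd F x).trans (mul_le_mul_of_nonneg_right h (norm_nonneg x)),
    (norm_nonneg F).trans h⟩

theorem nle {σ : ℝ} (hσ : 0 < σ) {R : Mt n} (h : ‖R‖ ≤ 1) : ‖σ • R‖ ≤ σ := by
  rw [norm_smul, Real.norm_of_nonneg hσ.le]
  exact mul_le_of_le_one_right hσ.le h

theorem dsm (σ : ℝ) (R : Mt n) : (σ • R).det = σ ^ n * R.det := by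
  simp [ContinuousLinearMap.det, LinearMap.det_smul]

end RegA

open RegA in
theorem regA (vert : VertStmt) (red : RedStmt) (comb : CombStmt) (crude : CrudeStmt)
    (vv : VvStmt) : RegAStmt := by
  intro l r j0 hl hr hj
  obtain ⟨c0, hc0, hc⟩ := comb l r j0 hl hr hj
  refine ⟨c0, hc0, ?_⟩
  intro V _ _ c c' u P k t g W d κ ψ e h δ E F od sch num hh hδ bod h5 hA hcone
  obtain ⟨hB, hJ, -, hv⟩ := vert _ l V c c' u P od
  have hσ : 0 < ‖F‖ := lt_of_lt_of_le (by norm_num) h5
  have hn : 0 < ‖F‖ ^ (2 * l + 1) := pow_pos hσ _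
  have hj0 : 0 < j0 := lt_trans (by positivity) hj
  obtain ⟨v1, A, B, hA0, hB0, hAB, v0⟩ := vv V l k t g W d κ ψ e ‖F‖ E sch bod hσ hA
  have key := red _ _ ‖F‖ _ _ (lk od.affP hB hJ k t g W d E) hσ
    (fun R hR hd => by
      have hR1 : ‖R‖ ≤ 1 := R.opNorm_le_bound zero_le_one fun x => by rw [hR x, one_mul]
      have := v1 (qop u c (‖F‖ • R)) (P R) (‖F‖ ^ (2 * l + 1)) (sym od (nle hσ hR1))
        (od.iso R hR) (by rw [qop_smul, _root_.smul_apply, (hv R hR hd).1])
      simpa only [od.hom, dsm, hd, mul_one] using this)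
    (fun R hR hd v hv1 => by
      obtain ⟨c1, c2, -, e1, o, n1, n2, q1, q2, nR, dR⟩ := (hv R hR hd).2 v hv1
      have := v0 (qop u c (‖F‖ • (R - rk (R v) v))) c1 c2 (sym od (nle hσ nR)) o n1 n2
        (by rw [qop_smul, _root_.smul_apply, q1])
        (by rw [qop_smul, _root_.smul_apply, q2, smul_smul])
      simpa only [od.hom, dsm, dR, mul_zero, e1] using this)
    F le_rfl ((mul_pos hj0 hn).le.trans hcone)
  refine (hc (Z k t g) κ ψ e h δ ‖F‖ A B _ (F.det / ‖F‖ ^ (2 * l + 1)) num hh hδ h5 hA0 hB0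
    (crude V l k t g W d κ ψ e 0 ‖F‖ _ _ (P F) E sch (sym od le_rfl) bod le_rfl).1
    ((le_div_iff₀ hn).2 hcone) ((div_le_one hn).2 ((le_abs_self _).trans (GE.det_le F)))
    hAB).trans (mul_le_mul_of_nonneg_left key hh.le)

end Pool.Agent.MP_29b5d3_an.GO
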