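import Pool.Agent.MP_29b5d3_an.GE.SpecO

/-! PROJECT GE, odd dimensions: the parameters and the telescoping sums. -/

set_option autoImplicit false

namespace Pool.Agent.MP_29b5d3_an.GO

open GB Finset

theorem par (amgm : AmgmStmt) : ParStmt := by
  intro l τ hl hτ
  have l1 : (1 : ℝ) ≤ l := by exact_mod_cast hl
  have t0 : 0 < τ := by linarith
  have t1 : 0 < τ - 1 := sub_pos.2 hτ
  have p1 : 0 < τ ^ l - 1 := sub_pos.2 (one_lt_pow₀ hτ (by omega))
  have p2 : 0 < τ ^ (l + 1) - 1 := sub_pos.2 (one_lt_pow₀ hτ (by omega))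
  have h1 : 0 < psi l τ := by unfold psi; positivity
  have h2 : psi l τ * (l : ℝ) ^ 2 ≤ 1 := by
    rw [psi, div_mul_eq_mul_div, div_le_one (by positivity)]
    have := (amgm l τ t0.le).1
    nlinarith
  have h3 : psi l τ ≤ 1 := le_trans (le_mul_of_one_le_right h1.le (one_le_pow₀ l1)) h2
  refine ⟨h1, h2, by unfold kap; positivity, ?_, mul_nonneg (by linarith) t1.le, mul_pos h1 p2,
    ?_, ?_⟩
  · rw [kap, div_le_one p2]
    have := one_add_mul_le_pow (show (-2 : ℝ) ≤ τ - 1 by linarith) (l + 1)
    rw [add_sub_cancel] at this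
    push_cast at this
    linarith
  · rw [kap, a2]
    field_simp
  · rw [kap, a1, psi]
    rw [pow_succ'] at p2 ⊢
    have p0 : 0 < τ ^ l := by positivity
    generalize τ ^ l = p at *
    field_simp
    ring

theorem Tel.tele (f u : ℕ → ℝ) (h : ∀ c, f (c + 1) = u (c + 1) - u c) {a j : ℕ} (ha : a ≤ j) :
    ∑ c ∈ Ioo a (j + 1), f c = u j - u a := by
  rw [show Ioo a (j + 1) = Ioc a j by ext; simp only [mem_Ioo, mem_Ioc]; omega]
  induction j, ha using Nat.le_induction with
  | base => simp
  | succ j hj ih => rw [sum_Ioc_succ_top hj, ih, h]; ring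

theorem tel (par : ParStmt) : TelStmt := by
  intro l k τ ϱ t g hl hτ _ hG hk a ha
  obtain ⟨-, -, -, -, -, -, e2, e1⟩ := par l τ hl hτ
  have t0 : 0 < τ := by linarith
  have tp : ∀ i, 0 < t i := fun i => by
    induction i with
    | zero => exact hG.t0
    | succ i ih => rw [hG.ts]; positivity
  have ta := tp a
  constructor
  · rw [Tel.tele _ (fun c => -(g a * t a * ((1 - psi l τ) / t c +
      psi l τ * t a ^ l / t c ^ (l + 1)))) (fun c => ?_) (Nat.lt_succ_iff.1 ha)]
    · simp only [hk, one_pow]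
      field_simp
      ring
    · have := tp c
      simp only [Wf, a1, a2, hG.ts, mul_pow]
      field_simp
      ring
  · rw [mul_sum, Tel.tele _ (fun c => g a * t a * ((l + 1) * psi l τ *
      (t c ^ l / t c - t a ^ l / t c))) (fun c => ?_) (Nat.lt_succ_iff.1 ha)]
    · simp only [hk, one_pow]
      field_simp
      ring
    · have := tp c
      have e : kap l τ * (Wf l τ t g a (c + 1) * t (c + 1) ^ l) = g a * t a *
          (kap l τ * a1 l τ * t (c + 1) ^ l / t (c + 1) +
            kap l τ * a2 l τ * t a ^ l / t (c + 1)) := by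
        have := tp (c + 1)
        rw [Wf]
        field_simp
        ring
      rw [e, e1, e2]
      simp only [hG.ts, mul_pow]
      field_simp
      ring

end Pool.Agent.MP_29b5d3_an.GO
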