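import Pool.Agent.MP_29b5d3_an.GE.SpecO

/-! PROJECT GE, odd dimensions, row VTX: the lower bound with multipliers. -/

set_option autoImplicit false

open Filter Topology Finset
open scoped RealInnerProductSpace

namespace Pool.Agent.MP_29b5d3_an.GO

open GB

namespace Vtx

theorem lvl {x y m D N a u r w : ℝ} (hx : 0 < x) (hxy : x ≤ y) (hD : 0 ≤ D) (ha : 0 ≤ a)
    (hu : 0 ≤ u) (hr : 0 ≤ r) (hw : w ≤ u * r) (hN : N * (2 * x) ≤ m - D)
    (h : y * u ^ 2 ≤ 2 * D * a) : -a ≤ -w + (m / (2 * x) - N) * r ^ 2 := by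
  have hy : 0 < y := hx.trans_le hxy
  obtain ⟨c, hc, c0⟩ : ∃ c, c * (2 * y) = D ∧ 0 ≤ c :=
    ⟨D / (2 * y), div_mul_cancel₀ _ (by positivity), by positivity⟩
  have h1 : c ≤ m / (2 * x) - N := by
    rw [le_sub_iff_add_le, le_div_iff₀ (by positivity)]
    nlinarith [mul_le_mul_of_nonneg_left hxy c0]
  have h2 : u ^ 2 ≤ 4 * c * a := by
    refine le_of_mul_le_mul_left ?_ hy
    rw [← hc] at h
    linarith
  have h3 : u * r ≤ a + c * r ^ 2 := by
    refine (sq_le_sq₀ (by positivity) (by positivity)).1 ?_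
    nlinarith [mul_le_mul_of_nonneg_right h2 (sq_nonneg r), sq_nonneg (a - c * r ^ 2)]
  nlinarith [mul_le_mul_of_nonneg_right h1 (sq_nonneg r)]

end Vtx

theorem vtx (exp : ExpStmt) (brk : BrkStmt) (abel : AbelStmt) : VtxStmt := by
  intro V _ _ l k t g W d κ ψ e J σ m0 m1 A B q P I E hS hq hI hB h0 hA hB0 hD
  have k0 := hS.k0
  have yp : ∀ i, 0 < t i ^ l := fun i => pow_pos (hS.tpos i) l
  obtain ⟨δ, hδ⟩ : ∃ δ : ℕ → V, ∀ i, E i = (κ * t i ^ l) • I + δ i :=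
    ⟨fun i => E i - (κ * t i ^ l) • I, fun i => by simp⟩
  obtain ⟨M, hM⟩ : ∃ M : ℕ → ℝ, ∀ a,
      M a = max ((l + 1) * (ψ * (1 - t a ^ l)) / (2 * (κ * t a ^ l))) (e / t a) := ⟨_, fun _ => rfl⟩
  have a1 := brk V l k t g W d κ ψ e σ q δ M hS hq fun a _ =>
    ⟨hM a ▸ le_max_left _ _, hM a ▸ le_max_right _ _⟩
  have a2 := (abel V l k t g κ E hS.tpos hS.gpos hS.mono k0 hB).1
  have a3 : ∑ c ∈ range k, g c * t c * (‖E c‖ ^ 2 - (κ * t c ^ l) ^ 2) = 0 := by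
    simp only [mul_sub, sum_sub_distrib]
    rw [hB.tight, Z, mul_sum, sub_eq_zero]
    exact sum_congr rfl fun c _ => by ring
  have a4 : ∑ c ∈ range k, g c * t c * ((m0 + m1 * t c ^ l) / (2 * (κ * t c ^ l)) *
      (‖E c‖ ^ 2 - (κ * t c ^ l) ^ 2)) =
      m0 / (2 * κ) * (∑ c ∈ range k, g c * t c * (‖E c‖ ^ 2 / t c ^ l) - κ ^ 2 * Z k t g (l + 1)) +
        m1 / (2 * κ) * ∑ c ∈ range k, g c * t c * (‖E c‖ ^ 2 - (κ * t c ^ l) ^ 2) := by
    rw [Z, mul_sum (range k) _ (κ ^ 2), ← sum_sub_distrib, mul_sum, mul_sum, ← sum_add_distrib]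
    refine sum_congr rfl fun c _ => ?_
    have := (yp c).ne'
    rw [pow_succ (t c) l]
    generalize t c ^ l = y at this
    field_simp
  have a5 := mul_nonpos_of_nonneg_of_nonpos (show 0 ≤ m0 / (2 * κ) by positivity)
    (sub_nonpos.2 a2)
  have a6 : ∑ c ∈ range k, g c * t c * -(A + B * t c ^ l) ≤ ∑ c ∈ range k,
      (g c * t c * ((m0 + m1 * t c ^ l) / (2 * (κ * t c ^ l)) * (‖E c‖ ^ 2 - (κ * t c ^ l) ^ 2)) -
        g c * t c *
          ⟪P + (1 - ψ * (1 - t c ^ l)) • q P + ((l + 1) * (ψ * (1 - t c ^ l))) • q I, δ c⟫ -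
        σ * (g c * t c * M c * ‖δ c‖ ^ 2)) := by
    refine sum_le_sum fun c hc => ?_
    have t0 := hS.tpos c
    have t1 := hS.tle c (mem_range.1 hc)
    have y0 := yp c
    have y1 : t c ^ l ≤ t c := pow_le_of_le_one t0.le t1 (Nat.one_le_iff_ne_zero.1 hS.one)
    have x1 : κ * t c ^ l ≤ t c ^ l := mul_le_of_le_one_left y0.le hS.k1
    obtain ⟨D, d0, d1, d2, d3⟩ := hD _ _ y0 (y1.trans t1) rfl
    have hN : σ * M c * (2 * (κ * t c ^ l)) ≤ m0 + m1 * t c ^ l - D := by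
      rw [hM]
      rcases max_choice ((l + 1) * (ψ * (1 - t c ^ l)) / (2 * (κ * t c ^ l))) (e / t c) with
        h | h <;> rw [h]
      · rw [mul_assoc, div_mul_cancel₀ _ (by positivity)]
        linarith
      · have h1 : e / t c * (κ * t c ^ l) ≤ e := by
          rw [div_mul_eq_mul_div, div_le_iff₀ t0]
          exact mul_le_mul_of_nonneg_left (x1.trans y1) hS.e0
        nlinarith [mul_le_mul_of_nonneg_left h1 hq.nn]
    have h1 := Vtx.lvl (mul_pos k0 y0) x1 d0 (by positivity) (norm_nonneg _) (norm_nonneg (δ c))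
      (real_inner_le_norm _ _) hN d3
    have h2 : ‖E c‖ ^ 2 - (κ * t c ^ l) ^ 2 = 2 * (κ * t c ^ l) * ⟪I, δ c⟫ + ‖δ c‖ ^ 2 := by
      rw [hδ c, norm_add_sq_real, norm_smul, hI, mul_one, Real.norm_eq_abs, sq_abs,
        real_inner_smul_left]
      ring
    rw [inner_sub_left, real_inner_smul_left] at h1
    refine (mul_le_mul_of_nonneg_left h1 (mul_pos (hS.gpos c) t0).le).trans_eq ?_
    rw [h2, mul_add _ (2 * (κ * t c ^ l) * _), ← mul_assoc _ (2 * (κ * t c ^ l)),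
      div_mul_cancel₀ _ (by positivity)]
    ring
  have a7 : ∑ c ∈ range k, g c * t c * -(A + B * t c ^ l) =
      -(A * Z k t g 1 + B * Z k t g (l + 1)) := by
    rw [Z, Z, mul_sum, mul_sum, ← sum_add_distrib, ← sum_neg_distrib]
    exact sum_congr rfl fun c _ => by ring
  rw [sum_sub_distrib, sum_sub_distrib, ← mul_sum, a7, a4, a3] at a6
  rw [exp V l k t g W d κ ψ e J σ q P I E δ hS hq hI hδ, a3]
  linarith

end Pool.Agent.MP_29b5d3_an.GO
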