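import Pool.Agent.MP_29b5d3_an.GE.SpecO

/-! PROJECT GE, odd dimensions, row VV: the two vertices. -/

set_option autoImplicit false

open Filter Topology Finset
open scoped RealInnerProductSpace

namespace Pool.Agent.MP_29b5d3_an.GO

open GB

namespace Vv

variable {V : Type} [NormedAddCommGroup V] [InnerProductSpace ℝ V]

theorem norm_sq_two (c1 c2 : V) (h : ⟪c1, c2⟫ = 0) (x y : ℝ) :
    ‖x • c1 + y • c2‖ ^ 2 = x ^ 2 * ‖c1‖ ^ 2 + y ^ 2 * ‖c2‖ ^ 2 := by
  rw [norm_add_sq_real, real_inner_smul_left, real_inner_smul_right, h, norm_smul, norm_smul,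
    mul_pow, mul_pow, Real.norm_eq_abs, Real.norm_eq_abs, sq_abs, sq_abs]
  ring

theorem inner_two (c1 c2 : V) (h : ⟪c1, c2⟫ = 0) (x y : ℝ) :
    ⟪x • c1 + y • c2, c1 + c2⟫ = x * ‖c1‖ ^ 2 + y * ‖c2‖ ^ 2 := by
  have h' : ⟪c2, c1⟫ = 0 := by rw [real_inner_comm]; exact h
  rw [inner_add_left, inner_add_right, inner_add_right, real_inner_smul_left,
    real_inner_smul_left, real_inner_smul_left, real_inner_smul_left, h, h',
    real_inner_self_eq_norm_sq, real_inner_self_eq_norm_sq]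
  ring

theorem psi_le (l : ℕ) (ψ : ℝ) (hl : 1 ≤ l) (h0 : 0 < ψ) (h1 : ψ * (l : ℝ) ^ 2 ≤ 1) : ψ ≤ 1 := by
  have h : (1 : ℝ) ≤ l := by exact_mod_cast hl
  have h2 : (1 : ℝ) ≤ (l : ℝ) ^ 2 := one_le_pow₀ h
  nlinarith

end Vv

open Vv

theorem vv (vtx : VtxStmt) (g1 : Gain1Stmt) (g2 : Gain2Stmt) (g3 : Gain3Stmt) : VvStmt := by
  intro V _ _ l k t g W d κ ψ e σ E hS hB hσ h5
  have hψ1 : ψ ≤ 1 := psi_le l ψ hS.one hS.p0 hS.p1
  have hψ0 := hS.p0
  have he0 := hS.e0
  have he1 := hS.e1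
  have hs : 0 < σ ^ l := pow_pos hσ l
  have hl0 : (0 : ℝ) ≤ l := Nat.cast_nonneg l
  refine ⟨?_, ?_⟩
  · intro q I J hq hI hqI
    have hII : ⟪I, I⟫ = 1 := by rw [real_inner_self_eq_norm_sq, hI]; norm_num
    have hqP : q (σ ^ l • I) = (σ * σ ^ l) • I := by
      rw [map_smul, hqI, smul_smul, mul_comm]
    have h := vtx V l k t g W d κ ψ e J σ
      ((1 - ψ) * (σ * σ ^ l) + σ ^ l + (l + 1) * ψ * σ) (ψ * (σ * σ ^ l) - (l + 1) * ψ * σ) 0 0
      q (σ ^ l • I) I E hS hq hI hB (by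
        have h1 : 0 ≤ (1 - ψ) * (σ * σ ^ l) := mul_nonneg (by linarith) (by positivity)
        have h2 : 0 ≤ ((l : ℝ) + 1) * ψ * σ := by positivity
        linarith) le_rfl le_rfl (by
        intro y b hy0 hy1 hb
        have hb0 : 0 ≤ b := by rw [hb]; exact mul_nonneg hψ0.le (by linarith)
        have hb1 : b ≤ 1 := by rw [hb]; nlinarith
        have hm : (1 - ψ) * (σ * σ ^ l) + σ ^ l + (l + 1) * ψ * σ +
            (ψ * (σ * σ ^ l) - (l + 1) * ψ * σ) * y =
            σ ^ l + (1 - b) * (σ * σ ^ l) + (l + 1) * b * σ := by rw [hb]; ring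
        have h1 : 0 ≤ (1 - b) * (σ * σ ^ l) := mul_nonneg (by linarith) (by positivity)
        have h2 : 0 ≤ ((l : ℝ) + 1) * b * σ := by positivity
        have h3 : 2 * e * σ ≤ σ ^ l := by
          have h4 : e * (5 * σ) ≤ e * (2 * (2 * l + 1) * σ ^ l) :=
            mul_le_mul_of_nonneg_left h5 he0
          have h6 : ((2 * l + 1) * e) * σ ^ l ≤ 1 * σ ^ l :=
            mul_le_mul_of_nonneg_right he1 hs.le
          nlinarith
        refine ⟨0, le_rfl, ?_, ?_, ?_⟩
        · rw [hm]; linarith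
        · rw [hm]; linarith
        · rw [hm, hqP, hqI, smul_smul, smul_smul, ← add_smul, ← add_smul, ← sub_smul]
          have : σ ^ l + (1 - b) * (σ * σ ^ l) + (l + 1) * b * σ -
              (σ ^ l + (1 - b) * (σ * σ ^ l) + (l + 1) * b * σ) = 0 := sub_self _
          rw [this, zero_smul, norm_zero]
          norm_num)
    unfold Ls at h
    rw [hqP, hqI, real_inner_smul_left, real_inner_smul_left, real_inner_smul_left, hII] at h
    linarith
  · have hG : Gain l σ ψ e := by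
      rcases le_total 1 σ with h1 | h1
      · exact g1 l σ ψ e hS.one h1 hψ0 hS.p1 he0 he1
      · rcases Nat.lt_or_ge l 2 with h2 | h2
        · have hl : l = 1 := by have := hS.one; omega
          subst hl
          refine g2 σ ψ e hσ h1 hψ0 hψ1 he0 ?_
          have := he1
          push_cast at this
          linarith
        · exact g3 l σ ψ e h2 hσ h1 h5 hψ0 hS.p1 he0 he1
    obtain ⟨m0, m1, A, B, hm0, hA, hB0, hAB, hD⟩ := hG
    refine ⟨A, B, hA, hB0, hAB, ?_⟩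
    intro q c1 c2 hq h12 hc1 hc2 hq1 hq2
    have hn : (2 * (l : ℝ) + 1) ≠ 0 := by positivity
    have hl1 : ((l : ℝ) + 1) ≠ 0 := by positivity
    have hI : ‖c1 + c2‖ = 1 := by
      have h := norm_sq_two c1 c2 h12 1 1
      rw [one_smul, one_smul, hc1, hc2] at h
      have h' : ‖c1 + c2‖ ^ 2 = 1 := by rw [h]; field_simp; ring
      exact (pow_eq_one_iff_of_nonneg (norm_nonneg _) two_ne_zero).1 h'
    have hP : σ ^ l • c1 = σ ^ l • c1 + (0 : ℝ) • c2 := by rw [zero_smul, add_zero]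
    have hqP : q (σ ^ l • c1) = (0 : ℝ) • c1 + (σ * σ ^ l) • c2 := by
      rw [map_smul, hq1, smul_smul, mul_comm, zero_smul, zero_add]
    have hqI : q (c1 + c2) = (σ * (l / (l + 1))) • c1 + σ • c2 := by
      rw [map_add, hq1, hq2, add_comm]
    have h := vtx V l k t g W d κ ψ e 0 σ m0 m1 A B q (σ ^ l • c1) (c1 + c2) E hS hq hI hB
      hm0 hA hB0 (by
        intro y b hy0 hy1 hb
        obtain ⟨D, hD0, hD1, hD2, hD3⟩ := hD y b hy0 hy1 hb
        refine ⟨D, hD0, hD1, hD2, ?_⟩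
        have hv : σ ^ l • c1 + (1 - b) • q (σ ^ l • c1) + (((l : ℝ) + 1) * b) • q (c1 + c2) -
            (m0 + m1 * y) • (c1 + c2) =
            (σ ^ l + l * b * σ - (m0 + m1 * y)) • c1 +
              ((1 - b) * (σ * σ ^ l) + (l + 1) * b * σ - (m0 + m1 * y)) • c2 := by
          have hc : ((l : ℝ) + 1) * b * (σ * (l / (l + 1))) = l * b * σ := by field_simp
          rw [hqP, hqI, smul_add, smul_add, smul_add, smul_smul, smul_smul, smul_smul, smul_smul,
            hc]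
          module
        rw [hv, norm_sq_two c1 c2 h12, hc1, hc2]
        refine le_trans (le_of_eq ?_) hD3
        field_simp)
    unfold Ls at h
    have e1 : ⟪σ ^ l • c1, c1 + c2⟫ = σ ^ l * ((l + 1) / (2 * l + 1)) := by
      rw [hP, inner_two c1 c2 h12, hc1, hc2]; ring
    have e2 : ⟪q (σ ^ l • c1), c1 + c2⟫ = σ * σ ^ l * (l / (2 * l + 1)) := by
      rw [hqP, inner_two c1 c2 h12, hc1, hc2]; ring
    have e3 : ⟪q (c1 + c2), c1 + c2⟫ = σ * (2 * l / (2 * l + 1)) := by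
      rw [hqI, inner_two c1 c2 h12, hc1, hc2]; field_simp; ring
    rw [e1, e2, e3] at h
    linarith

end Pool.Agent.MP_29b5d3_an.GO
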