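import Pool.Agent.MP_29b5d3_an.GE.AllB
import Pool.Agent.MP_29b5d3_an.GE.OAbel
import Pool.Agent.MP_29b5d3_an.GE.OBrk
import Pool.Agent.MP_29b5d3_an.GE.OComb
import Pool.Agent.MP_29b5d3_an.GE.OExp
import Pool.Agent.MP_29b5d3_an.GE.OFront
import Pool.Agent.MP_29b5d3_an.GE.OGain1
import Pool.Agent.MP_29b5d3_an.GE.OGain3
import Pool.Agent.MP_29b5d3_an.GE.OGrid
import Pool.Agent.MP_29b5d3_an.GE.OLim
import Pool.Agent.MP_29b5d3_an.GE.OMinus
import Pool.Agent.MP_29b5d3_an.GE.OMom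
import Pool.Agent.MP_29b5d3_an.GE.ONf
import Pool.Agent.MP_29b5d3_an.GE.ONorm
import Pool.Agent.MP_29b5d3_an.GE.OPh
import Pool.Agent.MP_29b5d3_an.GE.OPtf
import Pool.Agent.MP_29b5d3_an.GE.ORegA
import Pool.Agent.MP_29b5d3_an.GE.OTel
import Pool.Agent.MP_29b5d3_an.GE.OVtx
import Pool.Agent.MP_29b5d3_an.GE.OVv

/-! PROJECT GE: the pointwise inequality in odd dimension, assembled; all dimensions. -/

set_option autoImplicit false

namespace Pool.Agent.MP_29b5d3_an.GO

open GB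

theorem crudeAll : CrudeStmt := crude nf (brk plus) abel

theorem vvAll : VvStmt :=
  vv (vtx (exp nf) (brk plus) abel) (gain1 amgm) gain2 (gain3 amgm)

theorem gridAll : GridStmt :=
  grid (par amgm) (tel (par amgm)) (minus (par amgm) psd mom) mom (lim ph)

theorem normAll : NormStmt :=
  norm vert split gridAll crudeAll (regA vert red (comb ph (li ph)) crudeAll vvAll)

theorem ptFAll : PtFStmt := ptF vert lk (front lk normAll)

theorem sharp (n : ℕ) (hn : 2 ≤ n) : GE.Sharp n := all_of ptFAll n hn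

end Pool.Agent.MP_29b5d3_an.GO
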