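import Pool.Agent.MP_29b5d3_an.GE.SpecK

/-! PROJECT GE, odd dimension: the pointwise inequality from the front `1`. -/

set_option autoImplicit false

open MeasureTheory Set Filter Topology
open scoped RealInnerProductSpace

namespace Pool.Agent.MP_29b5d3_an.GK

open GB

theorem ptF (step : StepStmt) (scale : ScaleStmt) (one : OneStmt) : PtFStmt := by
  intro l r j0 hl hr hj
  obtain ⟨c, C, s0, c0, C0, s1, s2, H⟩ := one l r j0 hl hr hj
  have j1 : 0 < j0 := lt_trans (by positivity) hj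
  set j : ℝ := min j0 1 with hjd
  have j2 : 0 < j := lt_min j1 one_pos
  refine ⟨c * j ^ r, C * s0⁻¹ ^ r, by positivity, by positivity, fun Tm ε hT hε => ?_⟩
  obtain ⟨N, γ, ρ, μ, κ, d, hγ, hρ, hρ', HS⟩ := step l r Tm ε hl hr hT hε
  refine ⟨N, γ, ρ, μ, κ, d, hγ, hρ, hρ', fun V _ _ _ a a' t P hO F G k hG => ?_⟩
  obtain ⟨T, E, T0, T1, hE, T2, e1⟩ := HS V (qop t a F) (P F) G k
    (fun x y => by rw [← hO.symm, real_inner_comm]) hG
  obtain ⟨hE', e2⟩ := scale l r T ε F.det V (qop t a F) (P F) E T0 hE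
  rw [hO.det] at e1
  have f1 : (T⁻¹ • F).det = F.det / T ^ (2 * l + 1) := by
    rw [← hO.det, ← hO.det, hO.hom, qop_smul, smul_apply, map_smul, real_inner_smul_left,
      real_inner_smul_right, real_inner_smul_right, inv_pow]
    field_simp
    ring
  have f2 : ‖T⁻¹ • F‖ = ‖F‖ / T := by
    rw [norm_smul, norm_inv, Real.norm_of_nonneg T0.le, inv_mul_eq_div]
  obtain ⟨b1, b2, b3⟩ := H V a a' t P hO (T⁻¹ • F) _ _ hE'
  rw [f1, f2, qop_smul, hO.hom, inv_pow] at b1 b2 b3
  have pw : T ^ (r + (2 * l + 1)) = T ^ r * T ^ (2 * l + 1) := by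
    rw [Real.rpow_add T0, ← Real.rpow_natCast]
    norm_num
  have p0 : 0 < T ^ (r + (2 * l + 1)) := Real.rpow_pos_of_pos T0 _
  have p1 : 0 < T ^ r := Real.rpow_pos_of_pos T0 _
  have p2 : 0 < T ^ (2 * l + 1) := pow_pos T0 _
  have n0 : 0 ≤ ‖F‖ ^ (2 * l + 1) := by positivity
  have m0 : 0 ≤ min ‖F‖ Tm := le_min (norm_nonneg F) hT.le
  have m1 : 0 ≤ min ‖F‖ Tm ^ r := Real.rpow_nonneg m0 r
  have key : ∀ A x : ℝ, A * (‖F‖ / T) ^ (2 * l + 1) - ε / T ^ (r + (2 * l + 1)) ≤ x →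
      A * (T ^ r * ‖F‖ ^ (2 * l + 1)) - ε * (1 + ‖F‖ ^ (2 * l + 1)) ≤
        T ^ (r + (2 * l + 1)) * x := fun A x h => by
    have := mul_le_mul_of_nonneg_left h p0.le
    rw [mul_sub, mul_div_cancel₀ _ p0.ne'] at this
    refine le_trans ?_ this
    rw [pw, div_pow]
    have e : T ^ r * T ^ (2 * l + 1) * (A * (‖F‖ ^ (2 * l + 1) / T ^ (2 * l + 1))) =
        A * (T ^ r * ‖F‖ ^ (2 * l + 1)) := by field_simp
    rw [e]
    nlinarith
  rw [e1, e2]
  refine ⟨?_, fun h => ?_⟩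
  · rcases le_total (‖F‖ / T) s0 with b | b
    · refine le_trans ?_ (key 0 _ (by simpa using b1 b))
      have : 0 ≤ C * s0⁻¹ ^ r * (min ‖F‖ Tm ^ r * ‖F‖ ^ (2 * l + 1)) := by positivity
      linarith
    · refine le_trans ?_ (key (-C) _ (by simpa using b2 b))
      have g1 : T ≤ s0⁻¹ * min ‖F‖ Tm := by
        rw [le_inv_mul_iff₀ s1]
        exact le_min ((le_div_iff₀ T0).1 b) (by nlinarith)
      have g2 : T ^ r ≤ s0⁻¹ ^ r * min ‖F‖ Tm ^ r := by
        rw [← Real.mul_rpow (by positivity) m0]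
        exact Real.rpow_le_rpow T0.le g1 hr.le
      nlinarith [mul_le_mul_of_nonneg_left g2 (mul_nonneg C0 n0)]
  · refine le_trans ?_ (key c _ (b3 ?_))
    · have g1 : j * min ‖F‖ Tm ≤ T := by
        rcases T2 with b | b
        · nlinarith [min_le_right ‖F‖ Tm, min_le_right j0 1]
        refine le_trans (mul_le_mul_of_nonneg_left (min_le_left _ _) j2.le) ?_
        rcases (norm_nonneg F).eq_or_lt with z | z
        · rw [← z, mul_zero]
          exact T0.le
        have g3 : F.det ≤ ‖F‖ * (T ^ l) ^ 2 := by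
          rw [← hO.det]
          refine (real_inner_le_norm _ _).trans ?_
          have := mul_le_mul b (hO.bd F (P F)) (norm_nonneg _) (by positivity)
          nlinarith [mul_le_mul_of_nonneg_left b (mul_nonneg z.le (pow_pos T0 l).le)]
        have g4 : j ^ (2 * l) ≤ j0 :=
          (pow_le_of_le_one j2.le (min_le_right _ _) (by omega)).trans (min_le_left _ _)
        refine le_of_pow_le_pow_left₀ (n := 2 * l) (by omega) T0.le ?_
        refine le_of_mul_le_mul_left ?_ z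
        rw [mul_pow, pow_mul' T]
        nlinarith [mul_le_mul_of_nonneg_right g4 n0, pow_succ ‖F‖ (2 * l)]
      have g2 : j ^ r * min ‖F‖ Tm ^ r ≤ T ^ r := by
        rw [← Real.mul_rpow j2.le m0]
        exact Real.rpow_le_rpow (by positivity) g1 hr.le
      nlinarith [mul_le_mul_of_nonneg_left g2 (mul_nonneg c0.le n0)]
    · rw [div_pow, ← mul_div_assoc]
      exact div_le_div_of_nonneg_right h p2.le

end Pool.Agent.MP_29b5d3_an.GK
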