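import Pool.Agent.MP_29b5d3_an.GE.SpecK

/-! PROJECT GE, odd dimension: reduction to the front `1`. -/

set_option autoImplicit false

open MeasureTheory Set Filter Topology
open scoped RealInnerProductSpace

namespace Pool.Agent.MP_29b5d3_an.GK

theorem sc_int {T : ℝ} (hT : 0 < T) {a b : ℝ} (hab : a ≤ b) (f : ℝ → ℝ) :
    ∫ t in Ioc (T * a) (T * b), f t = T * ∫ y in Ioc a b, f (T * y) := by
  rw [← intervalIntegral.integral_of_le hab,
    ← intervalIntegral.integral_of_le (mul_le_mul_of_nonneg_left hab hT.le),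
    intervalIntegral.integral_comp_mul_left _ hT.ne', smul_eq_mul, ← mul_assoc,
    mul_inv_cancel₀ hT.ne', one_mul]

theorem sc_int' {T : ℝ} (hT : 0 < T) {a b c : ℝ} (ha : 0 ≤ a) (hab : a ≤ b) {f g : ℝ → ℝ}
    (h : ∀ y, 0 < y → T * f (T * y) = c * g y) :
    ∫ t in Ioc (T * a) (T * b), f t = c * ∫ y in Ioc a b, g y := by
  rw [sc_int hT hab, ← integral_const_mul, ← integral_const_mul]
  exact setIntegral_congr_fun measurableSet_Ioc fun y hy => h y (ha.trans_lt hy.1)

theorem scale : ScaleStmt := by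
  intro l r T η J V _ _ q P E hT hE
  have pw : T ^ (r + (2 * l + 1)) = T ^ r * (T ^ l) ^ 2 * T := by
    rw [Real.rpow_add hT, Real.rpow_add hT, mul_comm 2, Real.rpow_mul hT.le, Real.rpow_natCast,
      Real.rpow_two, Real.rpow_one, mul_assoc]
  have p0 : 0 < T ^ (r + (2 * l + 1)) := Real.rpow_pos_of_pos hT _
  have p1 : 0 < T ^ l := pow_pos hT l
  have T0 := hT.ne'
  have p2 := p1.ne'
  have S : ∀ u, 0 ≤ u → ∫ t in Ioc (T * 0) (T * u), t ^ r * (‖E t‖ ^ 2 - (t ^ l) ^ 2) =
      T ^ (r + (2 * l + 1)) *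
        ∫ y in Ioc 0 u, y ^ r * (‖(T ^ l)⁻¹ • E (T * y)‖ ^ 2 - (y ^ l) ^ 2) := fun u hu =>
    sc_int' hT le_rfl hu fun y hy => by
      rw [pw, Real.mul_rpow hT.le hy.le, norm_smul, norm_inv, Real.norm_of_nonneg p1.le, mul_pow T]
      field_simp
  simp only [mul_zero] at S
  refine ⟨⟨?_, ?_, fun u hu => ?_, ?_⟩, ?_⟩
  · refine AEStronglyMeasurable.const_smul (hE.meas.comp_quasiMeasurePreserving
      (f := fun y => T * y) ?_) _
    refine (MeasureTheory.Measure.QuasiMeasurePreserving.restrict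
      ⟨measurable_const_mul T, ?_⟩ fun y hy => ⟨mul_pos hT hy.1, by nlinarith [hy.2]⟩)
    rw [Real.map_volume_mul_left T0]
    exact Measure.smul_absolutelyContinuous
  · obtain ⟨M, hM⟩ := hE.bd
    refine ⟨M, fun y hy => ?_⟩
    rw [norm_smul, norm_inv, Real.norm_of_nonneg p1.le, inv_mul_le_iff₀ p1]
    refine (hM _ ⟨mul_pos hT hy.1, by nlinarith [hy.2]⟩).trans_eq ?_
    rw [mul_pow]
    ring
  · have := hE.body (T * u) ⟨mul_nonneg hT.le hu.1, by nlinarith [hu.2]⟩
    rw [S u hu.1] at this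
    exact nonpos_of_mul_nonpos_right this p0
  · have := hE.tight
    have h := S 1 zero_le_one
    rw [mul_one] at h
    rw [h] at this
    rw [← neg_div, div_le_iff₀' p0]
    exact this
  · have e1 := sc_int' (c := T ^ (r + (2 * l + 1))) hT le_rfl zero_le_one
      (f := fun t => t ^ r * (‖E t‖ ^ 2 - ⟪P + bek l T t • q P, E t⟫))
      (g := fun y => y ^ r * (‖(T ^ l)⁻¹ • E (T * y)‖ ^ 2 - ⟪(T ^ l)⁻¹ • P +
        bek l 1 y • (T⁻¹ • q) ((T ^ l)⁻¹ • P), (T ^ l)⁻¹ • E (T * y)⟫)) fun y hy => by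
      simp only [pw, Real.mul_rpow hT.le hy.le, norm_smul, norm_inv, Real.norm_of_nonneg p1.le,
        inner_add_left, real_inner_smul_left, real_inner_smul_right, smul_apply, map_smul, bek,
        mul_pow T, pow_succ T l, one_pow]
      field_simp
    have e2 := sc_int' (c := T ^ (r + (2 * l + 1))) hT le_rfl zero_le_one
      (f := fun t => dk l r * t ^ (r - 1) * ⟪E t, q (E t)⟫)
      (g := fun y => dk l r * y ^ (r - 1) * ⟪(T ^ l)⁻¹ • E (T * y),
        (T⁻¹ • q) ((T ^ l)⁻¹ • E (T * y))⟫) fun y hy => by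
      simp only [pw, Real.mul_rpow hT.le hy.le, Real.rpow_sub_one T0, real_inner_smul_left,
        real_inner_smul_right, smul_apply, map_smul]
      field_simp
    have e3 := sc_int' (c := T ^ (r + (2 * l + 1))) hT le_rfl zero_le_one
      (f := fun a => ∫ c in Ioc a T, Wk l r a c * ⟪E a, q (E c)⟫)
      (g := fun a => ∫ c in Ioc a 1, Wk l r a c * ⟪(T ^ l)⁻¹ • E (T * a),
        (T⁻¹ • q) ((T ^ l)⁻¹ • E (T * c))⟫) fun y hy => by
      rcases le_or_gt y 1 with b | b
      · have := sc_int' (c := T ^ r * (T ^ l) ^ 2) hT hy.le b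
          (f := fun c => Wk l r (T * y) c * ⟪E (T * y), q (E c)⟫)
          (g := fun c => Wk l r y c * ⟪(T ^ l)⁻¹ • E (T * y),
            (T⁻¹ • q) ((T ^ l)⁻¹ • E (T * c))⟫) fun c hc => by
          simp only [Wk, Real.mul_rpow hT.le hy.le, real_inner_smul_left, real_inner_smul_right,
            smul_apply, map_smul, mul_pow T, pow_add T l]
          field_simp
        rw [mul_one] at this
        rw [this, pw]
        ring
      · rw [Ioc_eq_empty (by nlinarith), Ioc_eq_empty (not_lt.2 b.le)]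
        simp
    rw [mul_zero, mul_one] at e1 e2 e3
    rw [LamC, LamC, Br, Br, e1, e2, e3, Real.one_rpow, pw, pow_succ T, pow_mul' T]
    field_simp

end Pool.Agent.MP_29b5d3_an.GK
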