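import Pool.Agent.MP_29b5d3_an.GE.SpecB
import Pool.Agent.MP_29b5d3_an.GE.Ball

/-! PROJECT GE, odd dimensions: bounds and the two vertices. -/

set_option autoImplicit false
set_option linter.unusedSectionVars false

open scoped RealInnerProductSpace

namespace Pool.Agent.MP_29b5d3_an.GB

open GA

section
variable {n l : ℕ} {V : Type} [NormedAddCommGroup V] [InnerProductSpace ℝ V]
  {c c' t : Fin n → V →L[ℝ] V} {P : Mt n → V}

theorem vt_rk_smul (s : ℝ) (u v : Eu n) : rk (s • u) v = s • rk u v := by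
  ext1 x
  rw [smul_apply, rk_apply, rk_apply, smul_comm]

theorem vt_affB (h : Od l c c' t P) : RkAff fun F => qop t c F (P F) := by
  intro F u v s
  have h1 := h.affB F (s • u) v
  rw [vt_rk_smul, qop_smul] at h1
  simp only
  rw [h1, h.affB F u v, add_sub_cancel_left, smul_apply, smul_comm]

theorem vt_kill (h : Od l c c' t P) (F : Mt n) (u v : Eu n) :
    qop t c (rk u v) (P (F + rk u v) - P F) = 0 := by
  have h1 := h.affB (F + rk u v) u v
  have h2 := vt_affB h F u v 2
  simp only at h2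
  rw [add_assoc, ← two_smul ℝ, h2, h.affB F u v] at h1
  have h3 : ((l : ℝ) + 1) • qop t c (rk u v) (P (F + rk u v) - P F) = 0 := by
    rw [map_sub, smul_sub]
    linear_combination (norm := module) -h1
  exact (smul_eq_zero.1 h3).resolve_left (by positivity)

theorem vt_affD (h : Od l c c' t P) : RkAff fun F : Mt n => F.det := by
  intro F u v s
  have h1 := vt_affB h F u v s
  have h2 := h.affP F u v s
  have h3 := h.affB F u v
  have h4 : ⟪P (F + rk u v) - P F, qop t c (rk u v) (P F)⟫ = 0 := by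
    rw [← h.symm, vt_kill h, inner_zero_left]
  simp only at h1 ⊢
  rw [← h.det, ← h.det F, ← h.det (F + rk u v), h1, h2, h3, add_sub_cancel_left]
  have h5 : P (F + rk u v) = P F + (P (F + rk u v) - P F) := by abel
  generalize P (F + rk u v) - P F = p at h4 h5
  rw [h5]
  simp only [inner_add_left, inner_add_right, inner_smul_left, inner_smul_right, h4, smul_eq_mul,
    conj_trivial]
  ring

theorem vt_one (h : Od l c c' t P) (F : Mt n) (hF : ‖F‖ ≤ 1) : ‖P F‖ ≤ 1 := by
  refine GE.ball n {F | ‖P F‖ ≤ 1} (fun R hR => (h.iso R hR).le) (fun F u v => ?_) F hF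
  intro a ha b hb x y hx hy hxy
  have e : ∀ s : ℝ, P (F + s • (innerSL ℝ v).smulRight u) = P F + s • (P (F + rk u v) - P F) :=
    h.affP F u v
  simp only [Set.mem_ofPred_eq, e, smul_eq_mul] at ha hb ⊢
  have e2 : P F + (x * a + y * b) • (P (F + rk u v) - P F) =
      x • (P F + a • (P (F + rk u v) - P F)) + y • (P F + b • (P (F + rk u v) - P F)) := by
    have : y = 1 - x := by linarith
    rw [this]
    module
  rw [e2]
  refine (norm_add_le _ _).trans ?_
  rw [norm_smul, norm_smul, Real.norm_of_nonneg hx, Real.norm_of_nonneg hy]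
  nlinarith

theorem vt_norm (h : Od l c c' t P) (F : Mt n) : ‖P F‖ ≤ ‖F‖ ^ l := by
  have e : F = ‖F‖ • (‖F‖⁻¹ • F) := by
    rcases eq_or_ne F 0 with a | a
    · rw [a]
      ext1 x
      simp
    · rw [smul_smul, mul_inv_cancel₀ (norm_ne_zero_iff.2 a), one_smul]
  have b : ‖‖F‖⁻¹ • F‖ ≤ 1 := by
    rw [norm_smul, norm_inv, norm_norm]
    exact inv_mul_le_one
  have := h.hom ‖F‖ (‖F‖⁻¹ • F)
  rw [← e] at this
  rw [this, norm_smul, norm_pow, norm_norm]
  exact mul_le_of_le_one_right (by positivity) (vt_one h _ b)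

theorem vt_iso_norm {R : Mt n} (hR : Iso R) : ‖R‖ ≤ 1 :=
  R.opNorm_le_bound zero_le_one fun x => by rw [hR, one_mul]

theorem vt_fix (h : Od l c c' t P) {R : Mt n} (hR : Iso R) {e : ℝ} (he : e ^ 2 = 1)
    (hd : R.det = e) : qop t c R (P R) = e • P R := by
  have h1 := h.iso R hR
  have h2 : ‖qop t c R (P R)‖ ≤ 1 := by
    have := h.bd R (P R)
    rw [h1, mul_one] at this
    exact this.trans (vt_iso_norm hR)
  have h3 := h.det R
  have h4 : ‖qop t c R (P R) - e • P R‖ ^ 2 ≤ 0 := by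
    rw [norm_sub_sq_real, inner_smul_right, real_inner_comm, h3, hd, norm_smul, mul_pow, h1,
      Real.norm_eq_abs, sq_abs]
    nlinarith [norm_nonneg (qop t c R (P R))]
  exact sub_eq_zero.1 (norm_eq_zero.1 (pow_eq_zero_iff two_ne_zero |>.1
    (h4.antisymm (sq_nonneg _))))

theorem vt_line {R : Mt n} (hR : Iso R) {v : Eu n} (hv : ‖v‖ = 1) (s : ℝ) (x : Eu n) :
    ‖(R + s • rk (-(R v)) v) x‖ ^ 2 = ‖x‖ ^ 2 - s * (2 - s) * ⟪v, x⟫ ^ 2 := by
  have e : (R + s • rk (-(R v)) v) x = R (x - (s * ⟪v, x⟫) • v) := by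
    rw [add_apply, smul_apply, rk_apply, map_sub, map_smul]
    module
  rw [e, hR, norm_sub_sq_real, inner_smul_right, norm_smul, hv, real_inner_comm, mul_one,
    Real.norm_eq_abs, sq_abs]
  ring

end

theorem vert : VertStmt := by
  intro n l V _ _ c c' t P h
  refine ⟨vt_affB h, vt_affD h, fun F => ⟨vt_norm h F, ?_⟩, fun R hR hd => ?_⟩
  · refine (h.bd F _).trans ?_
    rw [pow_succ']
    exact mul_le_mul_of_nonneg_left (vt_norm h F) (norm_nonneg _)
  have b1 : qop t c R (P R) = P R := by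
    simpa using vt_fix h hR (e := 1) (by norm_num) hd
  refine ⟨b1, fun v hv => ?_⟩
  have eF : R - rk (R v) v = R + rk (-(R v)) v := by
    ext1 x
    rw [sub_apply, add_apply, rk_apply, rk_apply, smul_neg, sub_eq_add_neg]
  rw [eF]
  have n1 : ‖R + rk (-(R v)) v‖ ≤ 1 :=
    ContinuousLinearMap.opNorm_le_bound _ zero_le_one fun x => by
      have := vt_line hR hv 1 x
      rw [one_smul] at this
      rw [one_mul]
      exact abs_le_of_sq_le_sq' (by nlinarith [sq_nonneg ⟪v, x⟫]) (norm_nonneg _) |>.2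
  have d0 : (R + rk (-(R v)) v).det = 0 := by
    have := vt_line hR hv 1 v
    rw [one_smul, real_inner_self_eq_norm_sq, hv] at this
    have z : (R + rk (-(R v)) v) v = 0 :=
      norm_eq_zero.1 (pow_eq_zero_iff two_ne_zero |>.1 (by linarith))
    refine LinearMap.det_eq_zero_iff_ker_ne_bot.2 ((Submodule.ne_bot_iff _).2 ⟨v, z, ?_⟩)
    rintro rfl
    simp at hv
  have i2 : Iso (R + (2 : ℝ) • rk (-(R v)) v) := fun x => by
    have := vt_line hR hv 2 x
    exact (sq_eq_sq₀ (norm_nonneg _) (norm_nonneg _)).1 (by linarith)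
  have d2 : (R + (2 : ℝ) • rk (-(R v)) v).det = -1 := by
    have := vt_affD h R (-(R v)) v 2
    simp only [d0, hd, smul_eq_mul] at this
    linarith
  have b2 := vt_fix h i2 (e := -1) (by norm_num) d2
  have p2 := h.affP R (-(R v)) v 2
  have q2 := vt_affB h R (-(R v)) v 2
  have m1 := h.iso R hR
  have m2 := h.iso _ i2
  have a1 := h.affB R (-(R v)) v
  have a2 : qop t c (R + rk (-(R v)) v) (P R) = P R + qop t c (rk (-(R v)) v) (P R) := by
    rw [qop_add, add_apply, b1]
  have sy := h.symm (R + rk (-(R v)) v)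
  simp only at q2
  rw [b2, p2, b1] at q2
  rw [p2] at m2
  rw [b1] at a1
  obtain ⟨c1, hc1⟩ : ∃ c1, c1 = P (R + rk (-(R v)) v) := ⟨_, rfl⟩
  obtain ⟨c2, hc2⟩ : ∃ c2, P R = c1 + c2 := ⟨P R - c1, by abel⟩
  rw [← hc1] at q2 m2 a1
  generalize qop t c (rk (-(R v)) v) (P R) = w at a1 a2
  rw [hc2] at q2 m2 a1 a2 m1
  generalize qop t c (R + rk (-(R v)) v) = q at q2 a1 a2 sy ⊢
  have k1 : q c1 = c2 := by linear_combination (norm := module) (-(1 / 2 : ℝ)) • q2
  have l1 : (l : ℝ) + 1 ≠ 0 := by positivity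
  have k2 : q c2 = ((l : ℝ) / (l + 1)) • c1 := by
    rw [map_add, k1] at a2
    rw [k1] at a1
    have e : ((l : ℝ) + 1) • q c2 = (l : ℝ) • c1 := by
      linear_combination (norm := module) ((l : ℝ) + 1) • a2 - a1
    rw [div_eq_inv_mul, mul_smul, ← e, inv_smul_smul₀ l1]
  have e3 : c1 + c2 + (2 : ℝ) • (c1 - (c1 + c2)) = c1 - c2 := by module
  rw [e3] at m2
  have s1 := norm_add_sq_real c1 c2
  have s2 := norm_sub_sq_real c1 c2
  rw [m1] at s1
  rw [m2] at s2
  have s3 := sy c1 c2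
  rw [k1, k2, inner_smul_right, real_inner_self_eq_norm_sq, real_inner_self_eq_norm_sq] at s3
  have s4 : ((l : ℝ) + 1) * ‖c2‖ ^ 2 = l * ‖c1‖ ^ 2 := by
    rw [s3]
    field_simp
  have l2 : (2 * l + 1 : ℝ) ≠ 0 := by positivity
  refine ⟨c1, c2, hc2, hc1.symm, by linarith, ?_, ?_, k1, k2, n1, d0⟩
  · rw [eq_div_iff l2]
    linear_combination (-((l : ℝ) + 1) / 2) * (s1 + s2) - s4
  · rw [eq_div_iff l2]
    linear_combination (-(l : ℝ) / 2) * (s1 + s2) + s4

end Pool.Agent.MP_29b5d3_an.GB
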