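import Pool.Agent.MP_29b5d3_an.GE.SpecP
import Pool.Agent.MP_29b5d3_an.GE.BRed
import Pool.Agent.MP_29b5d3_an.GE.BVert

/-! PROJECT GE, odd dimensions: the lower bound on the cone and the inequality at the front. -/

set_option autoImplicit false
set_option linter.unusedSectionVars false

open MeasureTheory Filter Topology Set
open scoped RealInnerProductSpace

namespace Pool.Agent.MP_29b5d3_an.GP

open GA GB GK

theorem cone_det {n : ℕ} (s : ℝ) (A : Mt n) : (s • A).det = s ^ n * A.det := by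
  rw [ContinuousLinearMap.det, ContinuousLinearMap.toLinearMap_smul, LinearMap.det_smul,
    finrank_euclideanSpace_fin]

section
variable {n l : ℕ} {V : Type} [NormedAddCommGroup V] [InnerProductSpace ℝ V]
  [FiniteDimensional ℝ V] {a a' t : Fin n → V →L[ℝ] V} {P : Mt n → V} {r s η : ℝ} {E : ℝ → V}

theorem cone_bd (h : Od l a a' t P) (hs : 0 ≤ s) {Q : Mt n} (hQ : ‖Q‖ ≤ 1) (x : V) :
    ‖qop t a (s • Q) x‖ ≤ s * ‖x‖ := by
  refine (h.bd _ x).trans (mul_le_mul_of_nonneg_right ?_ (norm_nonneg _))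
  rw [norm_smul, Real.norm_of_nonneg hs]
  exact mul_le_of_le_one_right hs hQ

/-- the conformal vertex -/
theorem cone_one (exp : ExpStmt) (sc1 : Sc1Stmt) (hl : 1 ≤ l) (hr : 0 < r) (hs : 0 < s)
    (h : Od l a a' t P) (hE : Adm l r 1 η E) {R : Mt n} (hR : Iso R) (hd : R.det = 1) :
    Rk l r (s ^ n) (s ^ l) (s * s ^ l) s - Xk l s / (r + (2 * l + 1)) - η ≤
      LamC l r 1 (s • R).det (qop t a (s • R)) (P (s • R)) E := by
  obtain ⟨C1, C2, hC, H⟩ := sc1 l r s hl hr hs
  have fix := ((vert n l V a a' t P h).2.2.2 R hR hd).1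
  have n1 := h.iso R hR
  have i1 : ⟪P R, P R⟫ = 1 := by rw [real_inner_self_eq_norm_sq, n1, one_pow]
  have q1 : qop t a (s • R) (P R) = s • P R := by
    rw [qop_smul, smul_apply, fix]
  have := exp V l r s η (s • R).det C1 C2 0 (Xk l s) (qop t a (s • R)) (P (s • R)) (P R) E hl hr
    hs.le (h.symm _) (cone_bd h hs.le (vt_iso_norm hR)) n1 hE hC le_rfl (by unfold Xk; positivity)
    fun b hb => ⟨(H b hb).1, by
      have e : (C1 + C2 * b ^ l) • P R - P (s • R) - (1 - zk l b) • qop t a (s • R) (P (s • R)) -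
          ((l + 1) * zk l b) • qop t a (s • R) (P R) =
          (C1 + C2 * b ^ l - s ^ l - (1 - zk l b) * (s * s ^ l) - (l + 1) * zk l b * s) • P R := by
        rw [h.hom, map_smul, q1]
        module
      rw [e, norm_smul, n1, mul_one, Real.norm_eq_abs, sq_abs, zero_add]
      exact (H b hb).2⟩
  refine le_trans (le_of_eq ?_) this
  rw [cone_det, hd, h.hom, map_smul, q1]
  simp only [real_inner_smul_left, real_inner_smul_right, i1, mul_one, zero_div, sub_zero,
    mul_comm (s ^ l), one_mul]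

/-- the degenerate vertex -/
theorem cone_zero (exp : ExpStmt) (hl : 1 ≤ l) (hr : 0 < r) (hs : 0 < s) (sc : Sc0 l r s)
    (h : Od l a a' t P) (hE : Adm l r 1 η E) {R : Mt n} (hR : Iso R) (hd : R.det = 1) {v : Eu n}
    (hv : ‖v‖ = 1) :
    Rk l r 0 (s ^ l * ((l + 1) / (2 * l + 1))) (s * s ^ l * (l / (2 * l + 1)))
        (s * (2 * l / (2 * l + 1))) - (l + 1) / (2 * l + 1) * Gk l r s / (r + l + 1) - η ≤
      LamC l r 1 (s • (R - rk (R v) v)).det (qop t a (s • (R - rk (R v) v)))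
        (P (s • (R - rk (R v) v))) E := by
  obtain ⟨hX, C1, C2, hC, H⟩ := sc
  obtain ⟨c1, c2, e0, e1, o, m1, m2, q1, q2, hQ, d0⟩ :=
    ((vert n l V a a' t P h).2.2.2 R hR hd).2 v hv
  generalize R - rk (R v) v = Q at *
  have l0 : (0 : ℝ) ≤ l := l.cast_nonneg
  have hG : 0 ≤ Gk l r s := le_trans (by unfold Xk; positivity) hX
  have i1 : ⟪c1, c1⟫ = (l + 1) / (2 * l + 1) := by rw [real_inner_self_eq_norm_sq, m1]
  have i2 : ⟪c2, c2⟫ = l / (2 * l + 1) := by rw [real_inner_self_eq_norm_sq, m2]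
  have o' : ⟪c2, c1⟫ = 0 := by rw [real_inner_comm, o]
  have p1 : P (s • Q) = s ^ l • c1 := by rw [h.hom, e1]
  have p2 : qop t a (s • Q) (s ^ l • c1) = (s * s ^ l) • c2 := by
    rw [qop_smul, smul_apply, map_smul, q1, smul_smul]
  have p3 : qop t a (s • Q) (c1 + c2) = s • c2 + (s * (l / (l + 1))) • c1 := by
    rw [qop_smul, smul_apply, map_add, q1, q2, smul_add, smul_smul]
  have := exp V l r s η (s • Q).det C1 C2 ((l + 1) / (2 * l + 1) * Gk l r s) 0 (qop t a (s • Q))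
    (P (s • Q)) (c1 + c2) E hl hr hs.le (h.symm _) (cone_bd h hs.le hQ) (e0 ▸ h.iso R hR) hE hC
    (by positivity) le_rfl fun b hb => ⟨(H b hb).1, by
      have e : (C1 + C2 * b ^ l) • (c1 + c2) - P (s • Q) -
          (1 - zk l b) • qop t a (s • Q) (P (s • Q)) -
          ((l + 1) * zk l b) • qop t a (s • Q) (c1 + c2) =
          (C1 + C2 * b ^ l - s ^ l - l * zk l b * s) • c1 +
          (C1 + C2 * b ^ l - (1 - zk l b) * (s * s ^ l) - (l + 1) * zk l b * s) • c2 := by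
        rw [p1, p2, p3]
        match_scalars
        · field_simp
        · ring
      have k := mul_le_mul_of_nonneg_left (H b hb).2
        (show (0 : ℝ) ≤ (l + 1) / (2 * l + 1) by positivity)
      rw [e, ← real_inner_self_eq_norm_sq]
      simp only [inner_add_left, inner_add_right, real_inner_smul_left, real_inner_smul_right, i1,
        i2, o, o']
      generalize C1 + C2 * b ^ l - s ^ l - l * zk l b * s = b1 at *
      generalize C1 + C2 * b ^ l - (1 - zk l b) * (s * s ^ l) - (l + 1) * zk l b * s = b2 at *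
      refine le_trans (le_of_eq ?_) (k.trans (le_of_eq (by ring)))
      field_simp
      ring⟩
  refine le_trans (le_of_eq ?_) this
  rw [cone_det, d0, p1, p2, p3]
  simp only [inner_add_left, inner_add_right, real_inner_smul_left, real_inner_smul_right, i1,
    i2, o, o', mul_zero, zero_div, sub_zero, add_zero, zero_add]
  congr 3
  field_simp
  ring

end

/-- the critical combination of the two vertex values -/
theorem cone_id {l : ℕ} {r : ℝ} (hr : 0 < r) (s : ℝ) :
    (2 * l + 1) * Rk l r 0 (s ^ l * ((l + 1) / (2 * l + 1))) (s * s ^ l * (l / (2 * l + 1)))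
      (s * (2 * l / (2 * l + 1))) + r * Rk l r (s ^ (2 * l + 1)) (s ^ l) (s * s ^ l) s =
      Gk l r s := by
  have l0 : (0 : ℝ) ≤ l := l.cast_nonneg
  have e : s ^ (2 * l + 1) = s * (s ^ l) ^ 2 := by ring
  rw [Rk, Rk, Gk, e]
  generalize s ^ l = y
  generalize dk l r = d
  field_simp
  ring

theorem cone (exp : ExpStmt) (sc1 : Sc1Stmt) (r1 : R1Stmt) (a : Sc0aStmt) (b : Sc0bStmt)
    (aff : AffStmt) : ConeStmt := by
  intro l r j0 hl hr hj
  obtain ⟨c, hc, H⟩ := r1 l r hl hr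
  have l0 : (0 : ℝ) ≤ l := l.cast_nonneg
  have hj' : 0 < j0 * (r + (2 * l + 1)) - r := sub_pos.2 ((div_lt_iff₀ (by positivity)).1 hj)
  have j0p : 0 < j0 := lt_trans (by positivity) hj
  refine ⟨c * ((j0 * (r + (2 * l + 1)) - r) / (2 * l + 1)), by positivity,
    fun V _ _ _ u u' t P η E h hE F hF hd => ?_⟩
  have hs : 0 < ‖F‖ := norm_pos_iff.2 hF
  have sc : Sc0 l r ‖F‖ := (le_total 1 ‖F‖).elim (a l r _ hl hr) (b l r _ hl hr hs)
  have sn : 0 < ‖F‖ ^ (2 * l + 1) := by positivity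
  have k := red (2 * l + 1) _ ‖F‖ _ _ (aff _ l r η V u u' t P E hl hr h hE) hs
    (fun R hR h1 => cone_one exp sc1 hl hr hs h hE hR h1)
    (fun R hR h1 v hv => cone_zero exp hl hr hs sc h hE hR h1 hv) F le_rfl
    (le_trans (by positivity) hd)
  refine le_trans ?_ k
  have j1 : j0 ≤ F.det / ‖F‖ ^ (2 * l + 1) := (le_div_iff₀ sn).2 hd
  have j2 : F.det / ‖F‖ ^ (2 * l + 1) ≤ 1 :=
    (div_le_one sn).2 ((le_abs_self _).trans (GE.det_le F))
  have h1 := H _ hs
  have h2 := cone_id (l := l) hr ‖F‖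
  have hX : 0 ≤ Xk l ‖F‖ := by unfold Xk; positivity
  have h3 := sc.1
  generalize F.det / ‖F‖ ^ (2 * l + 1) = j at *
  generalize Rk l r 0 _ _ _ = R0 at *
  generalize Rk l r (‖F‖ ^ (2 * l + 1)) _ _ _ = R1 at *
  generalize ‖F‖ ^ (2 * l + 1) = S at *
  generalize Xk l ‖F‖ = X at *
  generalize Gk l r ‖F‖ = G at *
  have h4 : X / (r + (2 * l + 1)) ≤ G / (r + l + 1) :=
    div_le_div₀ (hX.trans h3) h3 (by positivity) (by linarith)
  have h5 : (2 * l + 1) * ((l + 1) / (2 * l + 1) * G / (r + l + 1)) =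
      G - r * (G / (r + l + 1)) := by field_simp; ring
  generalize (l + 1) / (2 * l + 1) * G / (r + l + 1) = Y at *
  generalize X / (r + (2 * l + 1)) = Z at *
  have h6 : 0 ≤ (2 * l + 1) * (R0 - Y) + r * (R1 - Z) := by
    linarith [mul_le_mul_of_nonneg_left h4 hr.le]
  have h7 : c * S * (j0 * (r + (2 * l + 1)) - r) ≤ (R1 - Z) * (j * (r + (2 * l + 1)) - r) := by
    gcongr
    exact le_trans (by positivity) h1
  have h8 : c * ((j0 * (r + (2 * l + 1)) - r) / (2 * l + 1)) * S ≤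
      j * (R1 - Z) + (1 - j) * (R0 - Y) := by
    rw [mul_right_comm, ← mul_div_assoc, div_le_iff₀ (by positivity)]
    linarith [mul_nonneg (sub_nonneg.2 j2) h6]
  linarith

theorem one (crude : CrudeStmt) (cone : ConeStmt) : GK.OneStmt := by
  intro l r j0 hl hr hj
  obtain ⟨c, hc, H⟩ := cone l r j0 hl hr hj
  obtain ⟨C, hC, K⟩ := crude l r hl hr
  have hp : 0 < r + (2 * l + 1) := by positivity
  obtain ⟨s0, h0, h1, h2⟩ : ∃ s0 : ℝ, 0 < s0 ∧ s0 ≤ 1 ∧ C * (2 * s0) ≤ 1 / (r + (2 * l + 1)) := by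
    refine ⟨min 1 (1 / (r + (2 * l + 1)) / (C * 2)), by positivity, min_le_left _ _, ?_⟩
    have := (le_div_iff₀ (by positivity)).1 (min_le_right 1 (1 / (r + (2 * l + 1)) / (C * 2)))
    linarith
  refine ⟨c, C * (1 / s0 ^ (2 * l) + 1), s0, hc, by positivity, h0, h1,
    fun V _ _ _ u u' t P h F η E hE => ?_⟩
  have k := K V ‖F‖ η F.det (qop t u F) (P F) (P 1) E (norm_nonneg _) (h.symm F) (h.bd F)
    (vt_norm h F) (GE.det_le F) (h.iso 1 fun _ => rfl) hE
  have s1 : ‖F‖ ≤ s0 → -η ≤ LamC l r 1 F.det (qop t u F) (P F) E := fun hs => by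
    have : ‖F‖ ^ (2 * l + 1) ≤ ‖F‖ :=
      pow_le_of_le_one (norm_nonneg _) (hs.trans h1) (Nat.succ_ne_zero _)
    linarith [mul_le_mul_of_nonneg_left (show ‖F‖ + ‖F‖ ^ (2 * l + 1) ≤ 2 * s0 by linarith) hC.le]
  refine ⟨s1, fun hs => ?_, fun hd => ?_⟩
  · have : ‖F‖ ≤ 1 / s0 ^ (2 * l) * ‖F‖ ^ (2 * l + 1) := by
      rw [one_div_mul_eq_div, le_div_iff₀ (by positivity), pow_succ']
      gcongr
    linarith [mul_le_mul_of_nonneg_left this hC.le, one_div_pos.2 hp]
  · by_cases hF : F = 0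
    · have := s1 (by rw [hF, norm_zero]; exact h0.le)
      rwa [show ‖F‖ = 0 by rw [hF, norm_zero], zero_pow (Nat.succ_ne_zero _), mul_zero, zero_sub]
    · exact H V u u' t P η E h hE F hF hd

end Pool.Agent.MP_29b5d3_an.GP
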