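import Pool.Agent.MP_29b5d3_an.GE.SpecK

/-! PROJECT GE, odd dimension: step families in the continuum functional. -/

set_option autoImplicit false

open MeasureTheory Set Filter Topology
open scoped RealInnerProductSpace

namespace Pool.Agent.MP_29b5d3_an.GS

open GK

/-- the indicator function of a cell -/
noncomputable def chi (h : ℝ) (i : ℕ) (t : ℝ) : ℝ :=
  (Ioc (((i : ℝ) + 1) * h) (((i : ℝ) + 2) * h)).indicator 1 t

theorem chi_meas (h : ℝ) (i : ℕ) : Measurable (chi h i) :=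
  measurable_one.indicator measurableSet_Ioc

theorem chi_abs (h : ℝ) (i : ℕ) (t : ℝ) : |chi h i t| ≤ 1 := by
  unfold chi indicator
  split_ifs <;> simp

theorem chi_nonneg (h : ℝ) (i : ℕ) (t : ℝ) : 0 ≤ chi h i t := by
  unfold chi indicator
  split_ifs <;> simp

theorem chi_zero {h t : ℝ} {i : ℕ} (ht : t ≤ ((i : ℝ) + 1) * h ∨ ((i : ℝ) + 2) * h < t) :
    chi h i t = 0 :=
  indicator_of_notMem (fun a => ht.elim (fun b => absurd a.1 (not_lt.2 b))
    fun b => absurd a.2 (not_le.2 b)) _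

theorem chi_mul {h : ℝ} (h0 : 0 < h) (i k : ℕ) (t : ℝ) :
    chi h i t * chi h k t = if i = k then chi h i t else 0 := by
  have key : ∀ i k : ℕ, i < k → chi h i t * chi h k t = 0 := fun i k hik => by
    have : (i : ℝ) + 1 ≤ k := by exact_mod_cast hik
    rcases le_or_gt t (((k : ℝ) + 1) * h) with a | a
    · rw [chi_zero (i := k) (Or.inl a), mul_zero]
    · rw [chi_zero (i := i) (Or.inr (by nlinarith)), zero_mul]
  split_ifs with e
  · subst e
    unfold chi indicator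
    split_ifs <;> simp
  · rcases lt_or_gt_of_ne e with a | a
    · exact key _ _ a
    · rw [mul_comm, key _ _ a]

theorem Wk_rp {l : ℕ} {r a c : ℝ} (ha : 0 < a) (hc : 0 < c) :
    Wk l r a c = ((l : ℝ) ^ 2 - 1) / l ^ 2 * (a ^ r * c ^ (-2 : ℝ)) +
      ((l : ℝ) + 1) / l ^ 2 * (a ^ (r + l) * c ^ (-((l : ℝ) + 2))) := by
  rw [Wk, Real.rpow_add ha, Real.rpow_neg hc.le, Real.rpow_neg hc.le, Real.rpow_add hc,
    Real.rpow_natCast, Real.rpow_natCast, Real.rpow_two, pow_add]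
  field_simp

theorem Wk_int (l : ℕ) {r T : ℝ} (hr : 0 < r) (hT : 0 ≤ T) :
    Integrable (fun p : ℝ × ℝ => Wk l r p.1 p.2) (tm T) := by
  have l0 : (0 : ℝ) ≤ l := Nat.cast_nonneg l
  have i1 := (pk_int (α := r) (β := -2) hT (by linarith) (by linarith)).1
  have i2 := (pk_int (α := r + l) (β := -((l : ℝ) + 2)) hT (by linarith) (by linarith)).1
  refine ((i1.const_mul (((l : ℝ) ^ 2 - 1) / l ^ 2)).add
    (i2.const_mul (((l : ℝ) + 1) / l ^ 2))).congr ?_
  filter_upwards [tm_ae T] with p hp using (Wk_rp hp.1.1 hp.2.1.1).symm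

theorem Wk_cont (l : ℕ) (r a : ℝ) {u v : ℝ} (hu : 0 < u) : ContinuousOn (Wk l r a) (Icc u v) := by
  have hp : ∀ c ∈ Icc u v, c ≠ 0 := fun c hc => (hu.trans_le hc.1).ne'
  unfold Wk
  refine continuousOn_const.mul (ContinuousOn.add ?_ ?_) <;>
    exact continuousOn_const.div (by fun_prop) fun c hc => pow_ne_zero _ (hp c hc)

theorem Wk_m0 {l : ℕ} (hl : 1 ≤ l) (r a : ℝ) {u v : ℝ} (hu : 0 < u) (huv : u ≤ v) :
    ∫ c in Ioc u v, Wk l r a c = a ^ r * (bek l u a - bek l v a) := by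
  have hl0 : (l : ℝ) ≠ 0 := by positivity
  rw [← intervalIntegral.integral_of_le huv, intervalIntegral.integral_eq_sub_of_hasDerivAt
    (f := fun c => -(a ^ r * bek l c a))]
  · ring
  · intro c hc
    rw [uIcc_of_le huv] at hc
    have hc0 : c ≠ 0 := (hu.trans_le hc.1).ne'
    have h1 := (hasDerivAt_inv hc0).const_mul (((l : ℝ) ^ 2 - 1) / l ^ 2)
    have h2 := ((hasDerivAt_pow (l + 1) c).fun_inv (pow_ne_zero _ hc0)).const_mul
      (a ^ l / (l : ℝ) ^ 2)
    convert ((h1.fun_add h2).const_mul (a ^ r)).fun_neg using 1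
    · ext c
      rw [bek]
      ring
    · rw [Wk]
      push_cast
      field_simp
      ring
  · exact ContinuousOn.intervalIntegrable (by rw [uIcc_of_le huv]; exact Wk_cont l r a hu)

theorem bek_self {l : ℕ} (hl : 1 ≤ l) {a : ℝ} (ha : 0 < a) : bek l a a = a⁻¹ := by
  have hl0 : (l : ℝ) ≠ 0 := by positivity
  rw [bek]
  field_simp
  ring

theorem bek_bd (l : ℕ) (T S : ℝ) : ∃ M, ∀ t ∈ Ioc 0 S, |bek l T t| ≤ M := by
  obtain ⟨M, hM⟩ := isCompact_Icc.exists_bound_of_continuousOn (s := Icc 0 S)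
    (f := bek l T) (by unfold bek; fun_prop)
  exact ⟨M, fun t ht => hM t ⟨ht.1.le, ht.2⟩⟩

theorem bek_meas (l : ℕ) (T : ℝ) : Measurable (bek l T) := by
  unfold bek
  fun_prop

/-- a bounded multiple of a power -/
theorem rp_mul {s T M : ℝ} (hs : -1 < s) (hT : 0 ≤ T) {φ : ℝ → ℝ}
    (hφ : AEStronglyMeasurable φ (volume.restrict (Ioc 0 T))) (hb : ∀ t ∈ Ioc 0 T, |φ t| ≤ M) :
    IntegrableOn (fun t => t ^ s * φ t) (Ioc 0 T) := by
  refine Integrable.mul_bdd (rp_int hs hT).1 hφ (c := M) ?_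
  filter_upwards [ae_restrict_mem measurableSet_Ioc] with t ht using hb t ht

section
variable {V : Type} [NormedAddCommGroup V] [InnerProductSpace ℝ V]

theorem int1 (l : ℕ) {r T M : ℝ} (S : ℝ) (hr : 0 < r) (hT : 0 ≤ T) {E : ℝ → V}
    (hE : AEStronglyMeasurable E (volume.restrict (Ioc 0 T))) (hM : ∀ t ∈ Ioc 0 T, ‖E t‖ ≤ M)
    (P B : V) :
    IntegrableOn (fun t => t ^ r * (‖E t‖ ^ 2 - ⟪P + bek l S t • B, E t⟫)) (Ioc 0 T) := by
  obtain ⟨K, hK⟩ := bek_bd l S T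
  refine rp_mul (M := M ^ 2 + (‖P‖ + K * ‖B‖) * M) (by linarith) hT
    ((hE.norm.pow 2).sub ((aestronglyMeasurable_const.add
      ((bek_meas l S).aestronglyMeasurable.smul aestronglyMeasurable_const)).inner hE))
    fun t ht => ?_
  have h1 : ‖P + bek l S t • B‖ ≤ ‖P‖ + K * ‖B‖ := by
    refine (norm_add_le _ _).trans ?_
    rw [norm_smul, Real.norm_eq_abs]
    gcongr
    exact hK t ht
  refine (abs_sub _ _).trans (add_le_add ?_ ((abs_real_inner_le_norm _ _).trans ?_))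
  · rw [abs_of_nonneg (sq_nonneg _)]
    exact pow_le_pow_left₀ (norm_nonneg _) (hM t ht) 2
  · exact mul_le_mul h1 (hM t ht) (norm_nonneg _) ((norm_nonneg _).trans h1)

theorem int2 (d : ℝ) {r T M : ℝ} (hr : 0 < r) (hT : 0 ≤ T) {E : ℝ → V}
    (hE : AEStronglyMeasurable E (volume.restrict (Ioc 0 T))) (hM : ∀ t ∈ Ioc 0 T, ‖E t‖ ≤ M)
    (q : V →L[ℝ] V) : IntegrableOn (fun t => d * t ^ (r - 1) * ⟪E t, q (E t)⟫) (Ioc 0 T) := by
  simp only [mul_assoc]
  exact (rp_mul (by linarith) hT (hE.inner (q.continuous.comp_aestronglyMeasurable hE))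
    fun t ht => abs_inner_op (hM t ht) (hM t ht)).const_mul d

/-- levels above the front do not contribute -/
theorem drop' {l : ℕ} (hl : 1 ≤ l) {r T S M : ℝ} (hr : 0 < r) (hT : 0 < T) (hS : T ≤ S)
    {E : ℝ → V} (hE : AEStronglyMeasurable E (volume.restrict (Ioc 0 S)))
    (hM : ∀ t ∈ Ioc 0 S, ‖E t‖ ≤ M) (q : V →L[ℝ] V) {P : V} (hP : ∀ t ∈ Ioc T S, E t = P) :
    LamC l r S ⟪P, q P⟫ q P E = LamC l r T ⟪P, q P⟫ q P E := by
  have S0 : 0 ≤ S := hT.le.trans hS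
  have hE' : AEStronglyMeasurable E (volume.restrict (Ioc 0 T)) :=
    hE.mono_set (Ioc_subset_Ioc_right hS)
  have hM' : ∀ t ∈ Ioc 0 T, ‖E t‖ ≤ M := fun t ht => hM t ⟨ht.1, ht.2.trans hS⟩
  have sub : ∀ {f : ℝ → ℝ}, IntegrableOn f (Ioc 0 S) → IntegrableOn f (Ioc T S) :=
    fun hf => hf.mono_set (Ioc_subset_Ioc_left hT.le)
  have sub' : ∀ {f : ℝ → ℝ}, IntegrableOn f (Ioc 0 S) → IntegrableOn f (Ioc 0 T) :=
    fun hf => hf.mono_set (Ioc_subset_Ioc_right hS)
  have sp : ∀ f : ℝ → ℝ, IntegrableOn f (Ioc 0 S) →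
      ∫ t in Ioc 0 S, f t = (∫ t in Ioc 0 T, f t) + ∫ t in Ioc T S, f t := fun f hf => by
    rw [← setIntegral_union (Ioc_disjoint_Ioc_of_le le_rfl) measurableSet_Ioc (sub' hf) (sub hf),
      Ioc_union_Ioc_eq_Ioc hT.le hS]
  have a1 := int1 l S hr S0 hE hM P (q P)
  have a2 := int2 (dk l r) hr S0 hE hM q
  have a3 : IntegrableOn (fun a => ∫ c in Ioc a S, Wk l r a c * ⟪E a, q (E c)⟫) (Ioc 0 S) :=
    (tm_int1 (tm_pair (Wk_int l hr S0) hE hM q)).1
  have b3 : IntegrableOn (fun a => ∫ c in Ioc a T, Wk l r a c * ⟪E a, q (E c)⟫) (Ioc 0 T) :=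
    (tm_int1 (tm_pair (Wk_int l hr hT.le) hE' hM' q)).1
  have a12 : IntegrableOn (fun t => t ^ r * (‖E t‖ ^ 2 - ⟪P + bek l S t • q P, E t⟫) +
      dk l r * t ^ (r - 1) * ⟪E t, q (E t)⟫) (Ioc T S) := (sub a1).add (sub a2)
  have up : ((∫ t in Ioc T S, t ^ r * (‖E t‖ ^ 2 - ⟪P + bek l S t • q P, E t⟫)) +
      ∫ t in Ioc T S, dk l r * t ^ (r - 1) * ⟪E t, q (E t)⟫) -
      ∫ a in Ioc T S, ∫ c in Ioc a S, Wk l r a c * ⟪E a, q (E c)⟫ =
      -((1 - dk l r) / r * (S ^ r - T ^ r) * ⟪P, q P⟫) := by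
    rw [← integral_add (sub a1) (sub a2), ← integral_sub a12 (sub a3),
      setIntegral_congr_fun (g := fun t => -((1 - dk l r) * ⟪P, q P⟫) * t ^ (r - 1))
        measurableSet_Ioc, integral_const_mul, ← intervalIntegral.integral_of_le hS,
      integral_rpow (Or.inl (by linarith)), sub_add_cancel]
    · ring
    · intro t ht
      have t0 : 0 < t := hT.trans ht.1
      have : ∫ c in Ioc t S, Wk l r t c * ⟪E t, q (E c)⟫ =
          t ^ r * (t⁻¹ - bek l S t) * ⟪P, q P⟫ := by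
        rw [← bek_self hl t0, ← Wk_m0 hl r t t0 ht.2, ← integral_mul_const]
        exact setIntegral_congr_fun measurableSet_Ioc fun c hc => by
          simp only [hP t ht, hP c ⟨ht.1.trans hc.1, hc.2⟩]
      simp only
      rw [this, hP t ht, inner_add_left, real_inner_smul_left, real_inner_self_eq_norm_sq,
        real_inner_comm P (q P), Real.rpow_sub t0, Real.rpow_one]
      ring
  have lo : (∫ t in Ioc 0 T, t ^ r * (‖E t‖ ^ 2 - ⟪P + bek l S t • q P, E t⟫)) -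
      ∫ a in Ioc 0 T, ∫ c in Ioc a S, Wk l r a c * ⟪E a, q (E c)⟫ =
      (∫ t in Ioc 0 T, t ^ r * (‖E t‖ ^ 2 - ⟪P + bek l T t • q P, E t⟫)) -
      ∫ a in Ioc 0 T, ∫ c in Ioc a T, Wk l r a c * ⟪E a, q (E c)⟫ := by
    rw [← integral_sub (sub' a1) (sub' a3), ← integral_sub (int1 l T hr hT.le hE' hM' P (q P)) b3]
    refine setIntegral_congr_fun measurableSet_Ioc fun t ht => ?_
    have i : IntegrableOn (fun c => Wk l r t c * ⟪E t, q (E c)⟫) (Ioc t S) := by
      refine Integrable.mul_bdd ((Wk_cont l r t ht.1).integrableOn_Icc.mono_set Ioc_subset_Icc_self)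
        (aestronglyMeasurable_const.inner (q.continuous.comp_aestronglyMeasurable
          (hE.mono_set (Ioc_subset_Ioc_left ht.1.le)))) (c := M * (‖q‖ * M)) ?_
      filter_upwards [ae_restrict_mem measurableSet_Ioc] with c hc using
        abs_inner_op (hM' t ht) (hM c ⟨ht.1.trans hc.1, hc.2⟩)
    have e : ∫ c in Ioc T S, Wk l r t c * ⟪E t, q (E c)⟫ =
        t ^ r * (bek l T t - bek l S t) * ⟪E t, q P⟫ := by
      rw [← Wk_m0 hl r t hT hS, ← integral_mul_const]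
      exact setIntegral_congr_fun measurableSet_Ioc fun c hc => by simp only [hP c hc]
    rw [← Ioc_union_Ioc_eq_Ioc ht.2 hS, setIntegral_union (Ioc_disjoint_Ioc_of_le le_rfl)
      measurableSet_Ioc (i.mono_set (Ioc_subset_Ioc_right hS))
      (i.mono_set (Ioc_subset_Ioc_left ht.2)), e]
    simp only [inner_add_left, real_inner_smul_left, real_inner_comm (E t) (q P)]
    ring
  rw [LamC, LamC, Br, Br, sp _ a1, sp _ a2, sp _ a3]
  linarith

end

theorem drop : DropStmt := by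
  intro l r T S M V _ _ _ q P E hl hr hT hS hE hM hP
  refine drop' (M := |M| * S ^ l) hl hr hT hS hE (fun t ht => (hM t ht).trans ?_) q hP
  exact mul_le_mul (le_abs_self M) (pow_le_pow_left₀ ht.1.le ht.2 l) (pow_pos ht.1 l).le
    (abs_nonneg M)

end Pool.Agent.MP_29b5d3_an.GS
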