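import Pool.Agent.MP_29b5d3_an.GE.SpecP
import Pool.Agent.MP_29b5d3_an.GE.Drop33
import Pool.Agent.MP_29b5d3_an.GE.BVert

/-! PROJECT GE, odd dimensions: the crude bound, and affinity along rank one lines. -/

set_option autoImplicit false

open MeasureTheory Set
open scoped RealInnerProductSpace

namespace Pool.Agent.MP_29b5d3_an.GP

open GA GB GK

theorem cr_pw {s : ℝ} (hs : 0 ≤ s) {k n : ℕ} (h1 : 1 ≤ k) (h2 : k ≤ n) : s ^ k ≤ s + s ^ n := by
  rcases le_total s 1 with a | a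
  · have := pow_le_pow_of_le_one hs a h1
    rw [pow_one] at this
    linarith [pow_nonneg hs n]
  · linarith [pow_le_pow_right₀ a h2]

theorem cr_div {x w D : ℝ} (hw : 0 ≤ w) (hx : x ≤ w) (hD : 1 ≤ D) : x / D ≤ w := by
  rw [div_le_iff₀ (by linarith)]
  nlinarith

theorem cr_mul {c x w : ℝ} (h0 : 0 ≤ c) (h1 : c ≤ 1) (hx : |x| ≤ w) : c * x ≤ w := by
  have := le_abs_self x
  have := abs_nonneg x
  nlinarith

theorem crude (exp : ExpStmt) : CrudeStmt := by
  intro l r hl hr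
  refine ⟨1 / r + 60, by positivity, ?_⟩
  intro V _ _ _ s η J q P I E hs hq hb hP hJ hI hE
  obtain ⟨m, rfl⟩ : ∃ m, l = m + 1 := ⟨l - 1, by omega⟩
  set l := m + 1 with hlm
  have l1 : (1 : ℝ) ≤ l := by exact_mod_cast hl
  obtain ⟨d0, d1⟩ := dk_bd hl hr
  have d3 : dk l r ≤ 1 / 3 := d1.trans (one_div_le_one_div_of_le (by norm_num) (by linarith))
  have y0 : 0 ≤ s ^ l := pow_nonneg hs l
  have hqP : ‖q P‖ ≤ s * s ^ l := (hb P).trans (mul_le_mul_of_nonneg_left hP hs)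
  have hqI : ‖q I‖ ≤ s := by simpa [hI] using hb I
  have hl2 : ((l : ℝ) + 1) * (1 / l ^ 2) ≤ 2 := by
    rw [mul_one_div, div_le_iff₀ (by positivity)]
    nlinarith
  have key := exp V l r s η J (s * (l + 1) / l ^ 2 + 2 * s) (-(s * (l + 1) / l ^ 2))
    (3 / 2 * (36 * s + s ^ (2 * m + 1) + s ^ (2 * l + 1))) 0 q P I E hl hr hs hq hb hI hE
    (by positivity) (by positivity) le_rfl (fun a ha => by
      obtain ⟨z0, z1, z2⟩ := zk_bd hl ha
      have e : s * (l + 1) / l ^ 2 + 2 * s + -(s * (l + 1) / l ^ 2) * a ^ l =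
          s * ((l + 1) * zk l a) + 2 * s := by
        rw [zk]
        ring
      have z3 : ((l : ℝ) + 1) * zk l a ≤ 2 :=
        (mul_le_mul_of_nonneg_left z1 (by positivity)).trans hl2
      have z4 : 0 ≤ ((l : ℝ) + 1) * zk l a := by positivity
      have a1 : a ^ (l - 1) ≤ 1 := pow_le_one₀ ha.1.le ha.2
      have a0 : 0 ≤ a ^ (l - 1) := pow_nonneg ha.1.le _
      have hm : max ((l + 1) * zk l a) (2 * dk l r * a ^ (l - 1)) ≤ (l + 1) * zk l a + 1 :=
        max_le (by linarith) (by nlinarith)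
      have hk : s ≤ mk l r s (s * (l + 1) / l ^ 2 + 2 * s) (-(s * (l + 1) / l ^ 2)) a := by
        rw [mk, e]
        nlinarith [mul_le_mul_of_nonneg_left hm hs]
      refine ⟨hs.trans hk, ?_⟩
      rw [e]
      have n1 : ‖(s * ((l + 1) * zk l a) + 2 * s) • I‖ ≤ 4 * s := by
        rw [norm_smul, hI, mul_one, Real.norm_of_nonneg (by positivity)]
        nlinarith [mul_le_mul_of_nonneg_left z3 hs]
      have n2 : ‖(1 - zk l a) • q P‖ ≤ s * s ^ l := by
        rw [norm_smul, Real.norm_of_nonneg (by linarith)]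
        nlinarith [norm_nonneg (q P), mul_nonneg z0 (norm_nonneg (q P))]
      have n3 : ‖((l + 1) * zk l a) • q I‖ ≤ 2 * s := by
        rw [norm_smul, Real.norm_of_nonneg z4]
        exact mul_le_mul z3 hqI (norm_nonneg _) (by norm_num)
      have n4 : ‖(s * ((l + 1) * zk l a) + 2 * s) • I - P - (1 - zk l a) • q P -
          ((l + 1) * zk l a) • q I‖ ≤ 6 * s + s ^ l + s * s ^ l := by
        refine (norm_sub_le _ _).trans ?_
        have := norm_sub_le ((s * ((l + 1) * zk l a) + 2 * s) • I - P) ((1 - zk l a) • q P)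
        have := norm_sub_le ((s * ((l + 1) * zk l a) + 2 * s) • I) P
        linarith
      refine (pow_le_pow_left₀ (norm_nonneg _) n4 2).trans ?_
      have e1 : s ^ (2 * m + 1) * s = (s ^ l) ^ 2 := by rw [hlm]; ring
      have e2 : s ^ (2 * l + 1) * s = (s * s ^ l) ^ 2 := by ring
      have hX : 0 ≤ 36 * s + s ^ (2 * m + 1) + s ^ (2 * l + 1) := by positivity
      have := mul_le_mul_of_nonneg_left hk hX
      nlinarith [sq_nonneg (6 * s - s ^ l), sq_nonneg (6 * s - s * s ^ l),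
        sq_nonneg (s ^ l - s * s ^ l)])
  refine le_trans ?_ key
  have p0 : 0 ≤ s ^ (2 * l + 1) := pow_nonneg hs _
  have w0 : 0 ≤ s + s ^ (2 * l + 1) := by positivity
  have p1 : s ^ l ≤ s + s ^ (2 * l + 1) := cr_pw hs hl (by omega)
  have p2 : s * s ^ l ≤ s + s ^ (2 * l + 1) := by
    rw [← pow_succ']
    exact cr_pw hs (by omega) (by omega)
  have p3 : s ^ (2 * m + 1) ≤ s + s ^ (2 * l + 1) := cr_pw hs (by omega) (by omega)
  have b1 : ⟪P, I⟫ / (r + l + 1) ≤ s + s ^ (2 * l + 1) := by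
    refine cr_div w0 ?_ (by linarith)
    have := real_inner_le_norm P I
    rw [hI] at this
    linarith
  have b2 : (1 - 2 * dk l r) / (r + l) * ⟪q P, I⟫ ≤ s + s ^ (2 * l + 1) := by
    refine cr_mul (div_nonneg (by linarith) (by linarith))
      (cr_div zero_le_one (by linarith) (by linarith)) ?_
    have := abs_real_inner_le_norm (q P) I
    rw [hI] at this
    linarith
  have b3 : dk l r / (r + 2 * l) * ⟪I, q I⟫ ≤ s + s ^ (2 * l + 1) := by
    refine cr_mul (div_nonneg d0 (by linarith))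
      (cr_div zero_le_one (by linarith) (by linarith)) ?_
    have := abs_real_inner_le_norm I (q I)
    rw [hI] at this
    linarith
  have b4 : 3 / 2 * (36 * s + s ^ (2 * m + 1) + s ^ (2 * l + 1)) / (r + l + 1) ≤
      57 * (s + s ^ (2 * l + 1)) := cr_div (by positivity) (by linarith) (by linarith)
  have b5 : -(1 / r * (s + s ^ (2 * l + 1))) ≤ (1 - dk l r) / r * J := by
    have : (1 - dk l r) * -J ≤ s + s ^ (2 * l + 1) :=
      cr_mul (by linarith) (by linarith) (by rw [abs_neg]; linarith)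
    have := mul_le_mul_of_nonneg_left this (one_div_pos.2 hr).le
    calc _ ≤ -(1 / r * ((1 - dk l r) * -J)) := by linarith
      _ = _ := by ring
  rw [Rk, zero_div]
  linarith

section
variable {V : Type} [NormedAddCommGroup V] [InnerProductSpace ℝ V]

theorem af_br (l : ℕ) {r M : ℝ} (hr : 0 < r) {E : ℝ → V}
    (hE : AEStronglyMeasurable E (volume.restrict (Ioc 0 1)))
    (hM : ∀ t ∈ Ioc (0 : ℝ) 1, ‖E t‖ ≤ M) (q q' : V →L[ℝ] V) (s : ℝ) :
    Br l r 1 (q + s • q') E = Br l r 1 q E + s * Br l r 1 q' E := by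
  have i := fun q => GS.int2 (dk l r) hr zero_le_one hE hM q
  have j := fun q => tm_pair (GS.Wk_int l hr zero_le_one) hE hM q
  have k : ∀ q : V →L[ℝ] V, ∫ a in Ioc (0 : ℝ) 1, ∫ c in Ioc a 1, Wk l r a c * ⟪E a, q (E c)⟫ =
      ∫ p, Wk l r p.1 p.2 * ⟪E p.1, q (E p.2)⟫ ∂tm 1 := fun q => (tm_int1 (j q)).2.symm
  have e1 : ∫ t in Ioc (0 : ℝ) 1, dk l r * t ^ (r - 1) * ⟪E t, (q + s • q') (E t)⟫ =
      (∫ t in Ioc (0 : ℝ) 1, dk l r * t ^ (r - 1) * ⟪E t, q (E t)⟫) +
        s * ∫ t in Ioc (0 : ℝ) 1, dk l r * t ^ (r - 1) * ⟪E t, q' (E t)⟫ := by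
    rw [← integral_const_mul, ← integral_add (i q) ((i q').const_mul s)]
    refine integral_congr_ae (Filter.Eventually.of_forall fun t => ?_)
    simp only [add_apply, smul_apply, inner_add_right,
      real_inner_smul_right]
    ring
  have e2 : ∫ p, Wk l r p.1 p.2 * ⟪E p.1, (q + s • q') (E p.2)⟫ ∂tm 1 =
      (∫ p, Wk l r p.1 p.2 * ⟪E p.1, q (E p.2)⟫ ∂tm 1) +
        s * ∫ p, Wk l r p.1 p.2 * ⟪E p.1, q' (E p.2)⟫ ∂tm 1 := by
    rw [← integral_const_mul, ← integral_add (j q) ((j q').const_mul s)]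
    refine integral_congr_ae (Filter.Eventually.of_forall fun t => ?_)
    simp only [add_apply, smul_apply, inner_add_right,
      real_inner_smul_right]
    ring
  rw [Br, Br, Br, k, k, k, e1, e2]
  ring

theorem af_mid (l : ℕ) {r M : ℝ} (hr : 0 < r) {E : ℝ → V}
    (hE : AEStronglyMeasurable E (volume.restrict (Ioc 0 1)))
    (hM : ∀ t ∈ Ioc (0 : ℝ) 1, ‖E t‖ ≤ M) (P P' B B' : V) (s : ℝ) :
    ∫ t in Ioc (0 : ℝ) 1,
        t ^ r * (‖E t‖ ^ 2 - ⟪P + s • (P' - P) + bek l 1 t • (B + s • (B' - B)), E t⟫) =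
      (∫ t in Ioc (0 : ℝ) 1, t ^ r * (‖E t‖ ^ 2 - ⟪P + bek l 1 t • B, E t⟫)) +
        s * ((∫ t in Ioc (0 : ℝ) 1, t ^ r * (‖E t‖ ^ 2 - ⟪P' + bek l 1 t • B', E t⟫)) -
          ∫ t in Ioc (0 : ℝ) 1, t ^ r * (‖E t‖ ^ 2 - ⟪P + bek l 1 t • B, E t⟫)) := by
  have i := fun P B => GS.int1 l 1 hr zero_le_one hE hM P B
  have i' : IntegrableOn (fun t : ℝ => s * (t ^ r * (‖E t‖ ^ 2 - ⟪P' + bek l 1 t • B', E t⟫) -
      t ^ r * (‖E t‖ ^ 2 - ⟪P + bek l 1 t • B, E t⟫))) (Ioc 0 1) :=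
    ((i P' B').sub (i P B)).const_mul s
  rw [← integral_sub (i P' B') (i P B), ← integral_const_mul, ← integral_add (i P B) i']
  refine integral_congr_ae (Filter.Eventually.of_forall fun t => ?_)
  simp only [inner_add_left, inner_sub_left, real_inner_smul_left]
  ring

end

theorem aff : AffStmt := by
  intro n l r η V _ _ _ a a' t P E _ hr h hE F u v s
  obtain ⟨M, hM⟩ := hE.bd
  have M0 : 0 ≤ M := by simpa using (norm_nonneg _).trans (hM 1 ⟨one_pos, le_rfl⟩)
  have hM' : ∀ x ∈ Ioc (0 : ℝ) 1, ‖E x‖ ≤ M := fun x hx =>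
    (hM x hx).trans (mul_le_of_le_one_right M0 (pow_le_one₀ hx.1.le hx.2))
  have hD := vt_affD h F u v s
  have hB := vt_affB h F u v s
  have hP := h.affP F u v s
  have b1 := af_br l hr hE.meas hM' (qop t a F) (qop t a (rk u v)) s
  have b2 := af_br l hr hE.meas hM' (qop t a F) (qop t a (rk u v)) 1
  rw [← qop_smul, ← qop_add] at b1
  rw [one_smul, ← qop_add] at b2
  have m1 := af_mid l hr hE.meas hM' (P F) (P (F + rk u v)) (qop t a F (P F))
    (qop t a (F + rk u v) (P (F + rk u v))) s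
  simp only at hD hB
  rw [← hB, ← hP] at m1
  simp only [LamC, smul_eq_mul] at hD ⊢
  rw [hD, m1, b1, b2]
  ring

end Pool.Agent.MP_29b5d3_an.GP
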