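import Pool.Agent.MP_29b5d3_an.GE.SpecK

/-! PROJECT GE, odd dimension: expansion of the functional at the front `1`. -/

set_option autoImplicit false
set_option linter.unusedSectionVars false

open MeasureTheory Set Filter Topology
open scoped RealInnerProductSpace

namespace Pool.Agent.MP_29b5d3_an.GK

theorem int_bd {s K : ℝ} {φ : ℝ → ℝ} (hs : -1 < s)
    (hφ : AEStronglyMeasurable φ (volume.restrict (Ioc 0 1)))
    (hb : ∀ t ∈ Ioc (0 : ℝ) 1, |φ t| ≤ K) : IntegrableOn (fun t => t ^ s * φ t) (Ioc 0 1) := by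
  refine Integrable.mul_bdd (rp_int hs zero_le_one).1 hφ (c := K) ?_
  filter_upwards [ae_restrict_mem measurableSet_Ioc] with t ht using hb t ht

theorem pw_int {r : ℝ} (hr : 0 < r) (k : ℕ) :
    IntegrableOn (fun t : ℝ => t ^ (r - 1) * t ^ k) (Ioc 0 1) ∧
      ∫ t in Ioc (0 : ℝ) 1, t ^ (r - 1) * t ^ k = 1 / (r + k) := by
  have e : ∀ t ∈ Ioc (0 : ℝ) 1, t ^ (r - 1 + k) = t ^ (r - 1) * t ^ k := fun t ht => by
    rw [Real.rpow_add ht.1, Real.rpow_natCast]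
  have h := rp_int (s := r - 1 + k) (c := 1) (by linarith [Nat.cast_nonneg (α := ℝ) k]) zero_le_one
  refine ⟨h.1.congr_fun e measurableSet_Ioc, ?_⟩
  rw [← setIntegral_congr_fun measurableSet_Ioc e, h.2, Real.one_rpow]
  ring

/-- the integral of a polynomial in `t ^ l` -/
theorem pl_int {r : ℝ} (hr : 0 < r) (l : ℕ) (a b c : ℝ) :
    IntegrableOn (fun t : ℝ => t ^ r * (a + b * t ^ l + c * (t ^ l) ^ 2)) (Ioc 0 1) ∧
      ∫ t in Ioc (0 : ℝ) 1, t ^ r * (a + b * t ^ l + c * (t ^ l) ^ 2) =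
        a / (r + 1) + b / (r + l + 1) + c / (r + (2 * l + 1)) := by
  have h0 := pw_int (r := r + 1) (by linarith) 0
  have h1 := pw_int (r := r + 1) (by linarith) l
  have h2 := pw_int (r := r + 1) (by linarith) (l * 2)
  simp only [add_sub_cancel_right, pow_mul] at h0 h1 h2
  have e : (fun t : ℝ => t ^ r * (a + b * t ^ l + c * (t ^ l) ^ 2)) = fun t : ℝ =>
      a * (t ^ r * t ^ 0) + b * (t ^ r * t ^ l) + c * (t ^ r * (t ^ l) ^ 2) := by
    ext t; ring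
  rw [e]
  refine ⟨((h0.1.const_mul a).add (h1.1.const_mul b)).add (h2.1.const_mul c), ?_⟩
  have k := integral_add ((h0.1.const_mul a).add (h1.1.const_mul b)) (h2.1.const_mul c)
  simp only [Pi.add_apply] at k
  rw [k, integral_add (h0.1.const_mul a) (h1.1.const_mul b), integral_const_mul, integral_const_mul,
    integral_const_mul, h0.2, h1.2, h2.2]
  push_cast
  ring

theorem dk_pos {l : ℕ} (hl : 1 ≤ l) {r : ℝ} (hr : 0 < r) : 0 < dk l r := by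
  have l1 : (1 : ℝ) ≤ l := by exact_mod_cast hl
  have : 0 ≤ (l : ℝ) ^ 2 - 1 := by nlinarith
  unfold dk
  positivity

theorem dk_eq {l : ℕ} (hl : 1 ≤ l) {r : ℝ} (hr : 0 < r) :
    dk l r = (l + 1) * (r + 2 * l) / (2 * l * (r + (2 * l + 1)) * (r + l + 1)) := by
  have l1 : (0 : ℝ) < l := by exact_mod_cast hl
  unfold dk
  field_simp
  ring

theorem dk_le {l : ℕ} (hl : 1 ≤ l) {r : ℝ} (hr : 0 < r) : dk l r * (2 * l + 1) ≤ 1 := by
  have l1 : (1 : ℝ) ≤ l := by exact_mod_cast hl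
  rw [dk_eq hl hr, div_mul_eq_mul_div, div_le_one (by positivity)]
  have : 0 ≤ r * ((l : ℝ) * (4 * l + 1) - 1) := mul_nonneg hr.le (by nlinarith)
  nlinarith [mul_pos hr hr, mul_nonneg (mul_pos hr hr).le (by linarith : (0 : ℝ) ≤ l)]

theorem bek_one (l : ℕ) (t : ℝ) : bek l 1 t = ((l : ℝ) ^ 2 - 1) / l ^ 2 + t ^ l / l ^ 2 := by
  simp [bek]

theorem thk_one (l : ℕ) (t : ℝ) : thk l 1 t = ((l : ℝ) + 1) / l ^ 2 * (1 - t ^ l) := by
  simp [thk]

section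
variable {V : Type} [NormedAddCommGroup V] [InnerProductSpace ℝ V] {l : ℕ} {r η : ℝ} {E : ℝ → V}

theorem Adm.bd1 (h : Adm l r 1 η E) : ∃ M, 0 ≤ M ∧ (∀ t ∈ Ioc (0 : ℝ) 1, ‖E t‖ ≤ M * t ^ l) ∧
    ∀ t ∈ Ioc (0 : ℝ) 1, ‖E t‖ ≤ M := by
  obtain ⟨M, hM⟩ := h.bd
  have M0 : 0 ≤ M := by simpa using (norm_nonneg _).trans (hM 1 ⟨one_pos, le_rfl⟩)
  exact ⟨M, M0, hM, fun t ht => (hM t ht).trans
    (mul_le_of_le_one_right M0 (pow_le_one₀ ht.1.le ht.2))⟩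

theorem Adm.i0 (h : Adm l r 1 η E) (hr : 0 < r) :
    IntegrableOn (fun t : ℝ => t ^ r * (‖E t‖ ^ 2 - (t ^ l) ^ 2)) (Ioc 0 1) := by
  obtain ⟨M, M0, -, hM⟩ := h.bd1
  refine int_bd (by linarith) ((h.meas.norm.pow 2).sub (by fun_prop)) (K := M ^ 2 + 1)
    fun t ht => ?_
  have := pow_le_pow_left₀ (norm_nonneg _) (hM t ht) 2
  have : (t ^ l) ^ 2 ≤ 1 := pow_le_one₀ (pow_nonneg ht.1.le _) (pow_le_one₀ ht.1.le ht.2)
  rw [abs_le]
  constructor <;> nlinarith [sq_nonneg ‖E t‖, sq_nonneg (t ^ l)]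

/-- summation by parts against a decreasing weight -/
theorem Adm.abel (h : Adm l r 1 η E) (hr : 0 < r) {w : ℝ → ℝ} {K : ℝ} (hw : AntitoneOn w (Ioc 0 1))
    (w0 : ∀ t ∈ Ioc (0 : ℝ) 1, 0 ≤ w t) (wb : ∀ t ∈ Ioc (0 : ℝ) 1, w t * t ^ l ≤ K) :
    IntegrableOn (fun t : ℝ => t ^ r * (w t * (‖E t‖ ^ 2 - (t ^ l) ^ 2))) (Ioc 0 1) ∧
      ∫ t in Ioc (0 : ℝ) 1, t ^ r * (w t * (‖E t‖ ^ 2 - (t ^ l) ^ 2)) ≤ 0 := by
  obtain ⟨M, M0, hM, -⟩ := h.bd1
  have i : IntegrableOn (fun t : ℝ => t ^ r * (w t * (‖E t‖ ^ 2 - (t ^ l) ^ 2))) (Ioc 0 1) := by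
    refine int_bd (by linarith)
      ((aemeasurable_restrict_of_antitoneOn measurableSet_Ioc hw).aestronglyMeasurable.mul
        ((h.meas.norm.pow 2).sub (by fun_prop))) (K := K * (M ^ 2 + 1)) fun t ht => ?_
    have x0 := pow_nonneg ht.1.le l
    have x1 := pow_le_one₀ ht.1.le ht.2 (n := l)
    have a := pow_le_pow_left₀ (norm_nonneg _) (hM t ht) 2
    have b : |‖E t‖ ^ 2 - (t ^ l) ^ 2| ≤ t ^ l * (M ^ 2 + 1) := by
      have : (t ^ l) ^ 2 ≤ t ^ l := by nlinarith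
      rw [abs_le]
      constructor <;> nlinarith [sq_nonneg ‖E t‖, sq_nonneg (t ^ l), sq_nonneg M]
    rw [abs_mul, abs_of_nonneg (w0 t ht)]
    calc _ ≤ w t * (t ^ l * (M ^ 2 + 1)) := mul_le_mul_of_nonneg_left b (w0 t ht)
      _ = w t * t ^ l * (M ^ 2 + 1) := by ring
      _ ≤ _ := mul_le_mul_of_nonneg_right (wb t ht) (by positivity)
  refine ⟨i, ?_⟩
  have := GK.abel (φ := fun t => -(t ^ r * (‖E t‖ ^ 2 - (t ^ l) ^ 2))) (h.i0 hr).neg hw w0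
    (i.neg.congr (Eventually.of_forall fun t => by simp only [Pi.neg_apply]; ring))
    fun u hu => by rw [integral_neg]; linarith [h.body u hu]
  rw [← neg_nonneg, ← integral_neg]
  convert this using 3 with t
  ring

/-- the general lower bound -/
theorem low [CompleteSpace V] (hl : 1 ≤ l) (hr : 0 < r) (h : Adm l r 1 η E) {q : V →L[ℝ] V}
    {σ : ℝ} (hq : ∀ x y, ⟪x, q y⟫ = ⟪y, q x⟫) (hb : ∀ x, ‖q x‖ ≤ σ * ‖x‖) (I P : V) (J : ℝ)
    {ω w : ℝ → ℝ} {K a b c : ℝ} (hω : Measurable ω)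
    (w1 : ∀ t ∈ Ioc (0 : ℝ) 1, thk l 1 t / (2 * t ^ l) ≤ ω t)
    (w2 : ∀ t ∈ Ioc (0 : ℝ) 1, dk l r / t ≤ ω t) (w3 : ∀ t ∈ Ioc (0 : ℝ) 1, ω t * t ^ l ≤ K)
    (hw : AntitoneOn w (Ioc 0 1)) (w0 : ∀ t ∈ Ioc (0 : ℝ) 1, 0 ≤ w t)
    (wb : ∀ t ∈ Ioc (0 : ℝ) 1, w t * t ^ l ≤ K)
    (pt : ∀ t ∈ Ioc (0 : ℝ) 1, ∀ e : V, a + b * t ^ l + c * (t ^ l) ^ 2 ≤
      w t * (‖e‖ ^ 2 - (t ^ l) ^ 2) + (t ^ l) ^ 2 - ⟪P + bek l 1 t • q P, e⟫ -
        thk l 1 t * ⟪e - t ^ l • I, q I⟫ - σ * (ω t * ‖e - t ^ l • I‖ ^ 2)) :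
    (1 - dk l r) / r * J - dk l r / (r + 2 * l) * ⟪I, q I⟫ +
      (a / (r + 1) + b / (r + l + 1) + c / (r + (2 * l + 1))) - η ≤ LamC l r 1 J q P E := by
  obtain ⟨M, M0, hM, hM1⟩ := h.bd1
  have r1 : -1 < r := by linarith
  have l1 : (1 : ℝ) ≤ l := by exact_mod_cast hl
  have dm : AEStronglyMeasurable (fun t : ℝ => E t - t ^ l • I) (volume.restrict (Ioc 0 1)) :=
    h.meas.sub (by fun_prop)
  have db : ∀ t ∈ Ioc (0 : ℝ) 1, ‖E t - t ^ l • I‖ ≤ (M + ‖I‖) * t ^ l := fun t ht => by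
    refine (norm_sub_le _ _).trans ?_
    rw [norm_smul, Real.norm_of_nonneg (pow_nonneg ht.1.le l)]
    linarith [hM t ht]
  have iω : IntegrableOn (fun t : ℝ => t ^ r * (ω t * ‖E t - t ^ l • I‖ ^ 2)) (Ioc 0 1) := by
    refine int_bd r1 (hω.aestronglyMeasurable.mul (dm.norm.pow 2)) (K := K * (M + ‖I‖) ^ 2)
      fun t ht => ?_
    have o0 : 0 ≤ ω t := (div_pos (dk_pos hl hr) ht.1).le.trans (w2 t ht)
    have x0 := pow_nonneg ht.1.le l
    have x1 := pow_le_one₀ ht.1.le ht.2 (n := l)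
    rw [abs_of_nonneg (by positivity)]
    calc _ ≤ ω t * ((M + ‖I‖) * t ^ l) ^ 2 := by gcongr; exact db t ht
      _ = ω t * t ^ l * t ^ l * (M + ‖I‖) ^ 2 := by ring
      _ ≤ ω t * t ^ l * 1 * (M + ‖I‖) ^ 2 := by gcongr
      _ ≤ _ := by rw [mul_one]; gcongr; exact w3 t ht
  obtain ⟨iK, hK⟩ := brk hl hr zero_le_one h.meas hM hq hb I w1 w2 (by simpa only [mul_assoc] using iω)
  rw [(tm_int1 iK).2] at hK
  have iθ : IntegrableOn (fun t : ℝ => t ^ r * (thk l 1 t * ⟪E t - t ^ l • I, q I⟫)) (Ioc 0 1) := by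
    refine int_bd r1 ((show Continuous (thk l 1) by unfold thk; fun_prop).aestronglyMeasurable.mul
      (dm.inner aestronglyMeasurable_const))
      (K := ((l : ℝ) + 1) / l ^ 2 * ((M + ‖I‖) * (‖q‖ * ‖I‖))) fun t ht => ?_
    have x0 := pow_nonneg ht.1.le l
    have x1 := pow_le_one₀ ht.1.le ht.2 (n := l)
    rw [abs_mul, thk_one, abs_of_nonneg (mul_nonneg (by positivity) (by linarith))]
    refine mul_le_mul (mul_le_of_le_one_right (by positivity) (by linarith))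
      (abs_inner_op ((db t ht).trans (mul_le_of_le_one_right (by positivity) x1)) le_rfl)
      (abs_nonneg _) (by positivity)
  have iB : IntegrableOn (fun t : ℝ => t ^ r * ⟪P + bek l 1 t • q P, E t⟫) (Ioc 0 1) := by
    have cB : Continuous fun t : ℝ => P + bek l 1 t • q P := by unfold bek; fun_prop
    obtain ⟨K', hK'⟩ := isCompact_Icc.exists_bound_of_continuousOn (s := Icc (0 : ℝ) 1)
      cB.continuousOn
    refine int_bd r1 (cB.aestronglyMeasurable.inner h.meas) (K := K' * M) fun t ht => ?_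
    exact (abs_real_inner_le_norm _ _).trans (mul_le_mul (hK' t (Ioc_subset_Icc_self ht))
      (hM1 t ht) (norm_nonneg _) ((norm_nonneg _).trans (hK' t (Ioc_subset_Icc_self ht))))
  obtain ⟨iA, hA⟩ := h.abel hr hw w0 wb
  obtain ⟨iP, eP⟩ := pl_int hr l a b c
  have iX := (pl_int hr l 0 0 1).1
  have i0 := h.i0 hr
  have main := setIntegral_mono_on iP ((((iA.add iX).sub iB).sub iθ).sub (iω.const_mul σ))
    measurableSet_Ioc fun t ht => by
      have := mul_le_mul_of_nonneg_left (pt t ht (E t)) (Real.rpow_pos_of_pos ht.1 r).le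
      simp only [Pi.add_apply, Pi.sub_apply]
      linarith
  rw [eP, integral_sub' (((iA.add iX).sub iB).sub iθ) (iω.const_mul σ),
    integral_sub' ((iA.add iX).sub iB) iθ, integral_sub' (iA.add iX) iB, integral_add' iA iX,
    integral_const_mul] at main
  have e : ∫ t in Ioc (0 : ℝ) 1, t ^ r * (‖E t‖ ^ 2 - ⟪P + bek l 1 t • q P, E t⟫) =
      (∫ t in Ioc (0 : ℝ) 1, t ^ r * (‖E t‖ ^ 2 - (t ^ l) ^ 2)) +
        (∫ t in Ioc (0 : ℝ) 1, t ^ r * (0 + 0 * t ^ l + 1 * (t ^ l) ^ 2)) -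
        ∫ t in Ioc (0 : ℝ) 1, t ^ r * ⟪P + bek l 1 t • q P, E t⟫ := by
    rw [← integral_add' i0 iX, ← integral_sub' (i0.add iX) iB]
    refine integral_congr_ae (Eventually.of_forall fun t => ?_)
    simp only [Pi.add_apply, Pi.sub_apply]
    ring
  simp only [mul_assoc, Real.one_rpow, mul_one] at hK
  rw [LamC, Br, e, Real.one_rpow, mul_one]
  simp only [mul_assoc]
  linarith [h.tight]

end

end Pool.Agent.MP_29b5d3_an.GK
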