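import Pool.Agent.MP_29b5d3_an.GE.SpecP
import Pool.Agent.MP_29b5d3_an.GE.KExp

/-! PROJECT GE, row P-EXP: expansion at the aligned family. -/

set_option autoImplicit false

open MeasureTheory Filter Topology Set
open scoped RealInnerProductSpace

namespace Pool.Agent.MP_29b5d3_an.GP

open GA GB GK

theorem pe_sq {V : Type} [NormedAddCommGroup V] [InnerProductSpace ℝ V] {L δ : V} {A B : ℝ}
    (hA : 0 ≤ A) (hB : 0 ≤ B) (h : ‖L‖ ^ 2 ≤ 4 * A * B) : -B ≤ ⟪L, δ⟫ + A * ‖δ‖ ^ 2 := by
  have h1 : ‖L‖ * ‖δ‖ ≤ A * ‖δ‖ ^ 2 + B := by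
    refine (sq_le_sq₀ (by positivity) (by positivity)).1 ?_
    nlinarith [mul_le_mul_of_nonneg_right h (sq_nonneg ‖δ‖), sq_nonneg (A * ‖δ‖ ^ 2 - B)]
  linarith [(abs_le.1 (abs_real_inner_le_norm L δ)).1]

theorem exp : ExpStmt := by
  intro V _ _ _ l r s η J C1 C2 X1 X2 q P I E hl hr hs hq hb hI hE c1 x1 x2 H
  have := FiniteDimensional.complete ℝ V
  have l1 : (1 : ℝ) ≤ l := by exact_mod_cast hl
  obtain ⟨d0, d1⟩ := dk_bd hl hr
  have d2 : dk l r ≤ 1 := d1.trans (div_le_one_of_le₀ (by linarith) (by positivity))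
  have th : ∀ t, thk l 1 t = (l + 1) * zk l t := fun t => by rw [thk_one, zk]; ring
  have be : ∀ t, bek l 1 t = 1 - zk l t := fun t => by rw [bek_one, zk]; field_simp; ring
  have key := low hl hr hE (σ := s) (fun x y => by rw [← hq, real_inner_comm]) hb I P J
    (ω := fun t => max ((l + 1) * zk l t) (2 * dk l r * t ^ (l - 1)) / (2 * t ^ l))
    (w := fun t => (C1 + C2 * t ^ l) / (2 * t ^ l)) (K := C1 + |C2| + (l + 1) + 2) (a := 0)
    (b := -⟪P, I⟫ - ((l : ℝ) ^ 2 - 1) / l ^ 2 * ⟪q P, I⟫ - X1) (c := 1 - ⟪q P, I⟫ / l ^ 2 - X2)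
    (by unfold zk; fun_prop)
    (fun t ht => by
      rw [th]
      exact div_le_div_of_nonneg_right (le_max_left _ _) (by have := ht.1; positivity))
    (fun t ht => by
      have t0 := ht.1
      refine le_trans (le_of_eq ?_)
        (div_le_div_of_nonneg_right (le_max_right _ _) (by positivity))
      obtain ⟨k, rfl⟩ := Nat.exists_eq_add_of_le' hl
      rw [Nat.add_sub_cancel, pow_succ]
      field_simp)
    (fun t ht => by
      have t0 := ht.1
      have z := zk_bd hl ht
      have a1 : (l + 1) * zk l t ≤ l + 1 := mul_le_of_le_one_right (by positivity) z.2.2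
      have a2 : t ^ (l - 1) ≤ 1 := pow_le_one₀ t0.le ht.2
      have a3 : 2 * dk l r * t ^ (l - 1) ≤ 2 := by nlinarith [pow_nonneg t0.le (l - 1)]
      have a4 : max ((l + 1) * zk l t) (2 * dk l r * t ^ (l - 1)) ≤ l + 1 + 2 :=
        max_le (by linarith) (by linarith)
      have e : ∀ m : ℝ, m / (2 * t ^ l) * t ^ l = m / 2 := fun m => by field_simp
      rw [e]
      linarith [abs_nonneg C2])
    (fun a ha b hb hab => by
      have a0 := ha.1
      have b0 := hb.1
      have e : ∀ t : ℝ, 0 < t → (C1 + C2 * t ^ l) / (2 * t ^ l) = C1 / (2 * t ^ l) + C2 / 2 :=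
        fun t ht => by field_simp
      simp only [e a a0, e b b0]
      gcongr)
    (fun t ht => by
      have t0 := ht.1
      have z := zk_bd hl ht
      have a1 := (H t ht).1
      have a2 : 0 ≤ s * max ((l + 1) * zk l t) (2 * dk l r * t ^ (l - 1)) :=
        mul_nonneg hs (le_max_of_le_right (by positivity))
      rw [mk] at a1
      exact div_nonneg (by linarith) (by positivity))
    (fun t ht => by
      have t0 := ht.1
      have e : ∀ m : ℝ, m / (2 * t ^ l) * t ^ l = m / 2 := fun m => by field_simp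
      have a1 : C2 * t ^ l ≤ |C2| := (mul_le_mul_of_nonneg_right (le_abs_self _)
        (pow_nonneg t0.le l)).trans (mul_le_of_le_one_right (abs_nonneg _) (pow_le_one₀ t0.le ht.2))
      rw [e]
      linarith [abs_nonneg C2])
    (fun t ht e => by
      have t0 := ht.1
      have y0 : 0 < t ^ l := pow_pos t0 l
      obtain ⟨δ, rfl⟩ : ∃ δ, e = t ^ l • I + δ := ⟨e - t ^ l • I, by abel⟩
      have k := pe_sq (δ := δ) (A := mk l r s C1 C2 t / (2 * t ^ l))
        (B := t ^ l * (X1 + X2 * t ^ l)) (div_nonneg (H t ht).1 (by positivity)) (by positivity)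
        ((H t ht).2.trans_eq (by field_simp; ring))
      have e1 : ((l : ℝ) ^ 2 - 1) / l ^ 2 = 1 - zk l t - t ^ l / l ^ 2 := by
        rw [zk]; field_simp; ring
      have e2 : (C1 + C2 * t ^ l) / (2 * t ^ l) * (2 * (t ^ l * ⟪I, δ⟫)) =
          (C1 + C2 * t ^ l) * ⟪I, δ⟫ := by field_simp
      rw [mk] at k
      rw [add_sub_cancel_left, th, be, e1, norm_add_sq_real, norm_smul, hI,
        Real.norm_of_nonneg y0.le, real_inner_comm (q I) δ]
      simp only [inner_add_left, inner_add_right, inner_sub_left, real_inner_smul_left,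
        real_inner_smul_right] at k ⊢
      generalize max ((l + 1) * zk l t) (2 * dk l r * t ^ (l - 1)) = m at k ⊢
      have e3 : (C1 + C2 * t ^ l - s * m) / (2 * t ^ l) =
          (C1 + C2 * t ^ l) / (2 * t ^ l) - s * (m / (2 * t ^ l)) := by ring
      rw [e3] at k
      linear_combination k + e2.ge)
  have e : ((l : ℝ) ^ 2 - 1) / l ^ 2 / (r + l + 1) + 1 / l ^ 2 / (r + (2 * l + 1)) =
      (1 - 2 * dk l r) / (r + l) := by
    rw [dk]
    field_simp
    ring
  rw [Rk, ← e]
  refine le_trans (le_of_eq ?_) key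
  ring

end Pool.Agent.MP_29b5d3_an.GP
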