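import Pool.Agent.MP_29b5d3_an.GE.SpecP

/-! PROJECT GE, odd dimensions, row R1: the value at the conformal vertex. -/

set_option autoImplicit false

open MeasureTheory Filter Topology Set

namespace Pool.Agent.MP_29b5d3_an.GP

open GA GB GK

/-- the integral of `a ^ (ρ - 1) * (s ^ l - a ^ l) * (s - a)` is nonnegative -/
theorem r1_T (l : ℕ) {ρ s : ℝ} (hρ : 0 < ρ) (hs : 0 < s) :
    0 ≤ s * s ^ l / ρ - s ^ l / (ρ + 1) - s / (ρ + l) + 1 / (ρ + l + 1) := by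
  have l0 : (0 : ℝ) ≤ l := Nat.cast_nonneg l
  obtain ⟨i1, e1⟩ := rp_int (s := ρ - 1) (c := 1) (by linarith) zero_le_one
  obtain ⟨i2, e2⟩ := rp_int (s := ρ) (c := 1) (by linarith) zero_le_one
  obtain ⟨i3, e3⟩ := rp_int (s := ρ + l - 1) (c := 1) (by linarith) zero_le_one
  obtain ⟨i4, e4⟩ := rp_int (s := ρ + l) (c := 1) (by linarith) zero_le_one
  rw [Real.one_rpow] at e1 e2 e3 e4
  have j1 := i1.const_mul (s * s ^ l)
  have j2 := i2.const_mul (s ^ l)
  have j3 := i3.const_mul s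
  have h : 0 ≤ ∫ a in Ioc (0 : ℝ) 1, (s * s ^ l * a ^ (ρ - 1) - s ^ l * a ^ ρ -
      s * a ^ (ρ + l - 1) + a ^ (ρ + l)) := by
    refine setIntegral_nonneg measurableSet_Ioc fun a ha => ?_
    have a0 : 0 < a := ha.1
    have f2 : a ^ ρ = a ^ (ρ - 1) * a := by
      rw [Real.rpow_sub_one a0.ne', div_mul_cancel₀ _ a0.ne']
    have f3 : a ^ (ρ + l - 1) = a ^ (ρ - 1) * a ^ l := by
      rw [← Real.rpow_natCast, ← Real.rpow_add a0, add_sub_right_comm]
    have f4 : a ^ (ρ + l) = a ^ (ρ - 1) * a * a ^ l := by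
      rw [Real.rpow_add a0, Real.rpow_natCast, f2]
    have k : 0 ≤ (s ^ l - a ^ l) * (s - a) := by
      rcases le_total a s with h | h
      · exact mul_nonneg (sub_nonneg.2 (pow_le_pow_left₀ a0.le h l)) (sub_nonneg.2 h)
      · exact mul_nonneg_of_nonpos_of_nonpos (sub_nonpos.2 (pow_le_pow_left₀ hs.le h l))
          (sub_nonpos.2 h)
    have k2 := mul_nonneg (Real.rpow_pos_of_pos a0 (ρ - 1)).le k
    rw [f3, f4]
    nth_rewrite 1 [f2]
    linarith
  have j12 : Integrable (fun a : ℝ => s * s ^ l * a ^ (ρ - 1) - s ^ l * a ^ ρ)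
      (volume.restrict (Ioc 0 1)) := j1.sub j2
  have j123 : Integrable (fun a : ℝ => s * s ^ l * a ^ (ρ - 1) - s ^ l * a ^ ρ -
      s * a ^ (ρ + l - 1)) (volume.restrict (Ioc 0 1)) := j12.sub j3
  rw [integral_add j123 i4, integral_sub j12 j3, integral_sub j1 j2,
    integral_const_mul, integral_const_mul, integral_const_mul, e1, e2, e3, e4, sub_add_cancel,
    sub_add_cancel, mul_one_div, mul_one_div, mul_one_div] at h
  exact h

theorem r1_Q1 {l r : ℝ} (hl : 0 < l) (hr : 0 < r) (y : ℝ) :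
    y ^ 2 * (l ^ 2 / (r * (r + l) ^ 2)) ≤ y ^ 2 / r - 2 * y / (r + l) + 1 / (r + 2 * l) := by
  have e : y ^ 2 / r - 2 * y / (r + l) + 1 / (r + 2 * l) - y ^ 2 * (l ^ 2 / (r * (r + l) ^ 2)) =
      ((r + 2 * l) * y / (r + l) - 1) ^ 2 / (r + 2 * l) := by
    field_simp
    ring
  have : 0 ≤ ((r + 2 * l) * y / (r + l) - 1) ^ 2 / (r + 2 * l) := by positivity
  linarith

theorem r1_Q2 {l r : ℝ} (hl : 0 < l) (hr : 0 < r) (y : ℝ) :
    (1 - y) ^ 2 / 2 / (r + (2 * l + 1)) ≤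
      y ^ 2 / (r + 1) - 2 * y / (r + l + 1) + 1 / (r + (2 * l + 1)) := by
  have e : y ^ 2 / (r + 1) - 2 * y / (r + l + 1) + 1 / (r + (2 * l + 1)) -
      (1 - y) ^ 2 / 2 / (r + (2 * l + 1)) =
      (((r + 3 * l + 1) * y / (r + l + 1) - 1) ^ 2 +
        4 * l ^ 3 * y ^ 2 / ((r + 1) * (r + l + 1) ^ 2)) / 2 / (r + (2 * l + 1)) := by
    field_simp
    ring
  have : 0 ≤ (((r + 3 * l + 1) * y / (r + l + 1) - 1) ^ 2 +
        4 * l ^ 3 * y ^ 2 / ((r + 1) * (r + l + 1) ^ 2)) / 2 / (r + (2 * l + 1)) := by positivity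
  linarith

theorem r1 : R1Stmt := by
  intro l r hl hr
  have l1 : (1 : ℝ) ≤ l := by exact_mod_cast hl
  have l0 : (0 : ℝ) < l := by linarith
  obtain ⟨d0, d1⟩ := dk_bd hl hr
  have d3 : dk l r ≤ 1 / 3 :=
    d1.trans (one_div_le_one_div_of_le (by norm_num) (by linarith))
  have hd : 0 < 1 - dk l r := by linarith
  refine ⟨(1 - dk l r) * (l ^ 2 / (r * (r + l) ^ 2)) / 4, by positivity, fun s hs => ?_⟩
  have hp : s ^ (2 * l + 1) = s * (s ^ l) ^ 2 := by ring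
  have y0 : 0 < s ^ l := pow_pos hs l
  have T1 := r1_T l hr hs
  have T2 := r1_T l (add_pos hr l0) hs
  have x1 : r + l + l = r + 2 * l := by ring
  have x2 : r + 2 * l + 1 = r + (2 * l + 1) := by ring
  rw [x1, x2] at T2
  have Q1 := r1_Q1 l0 hr (s ^ l)
  have Q2 := r1_Q2 l0 hr (s ^ l)
  have hX : Xk l s / (r + (2 * l + 1)) ≤ (1 - s ^ l) ^ 2 / 2 / (r + (2 * l + 1)) / 2 := by
    have : max (1 - s ^ l) 0 ^ 2 ≤ (1 - s ^ l) ^ 2 := by
      rcases le_total (1 - s ^ l) 0 with h | h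
      · rw [max_eq_right h]
        nlinarith [sq_nonneg (1 - s ^ l)]
      · rw [max_eq_left h]
    have e : (1 - s ^ l) ^ 2 / 2 / (r + (2 * l + 1)) / 2 =
        (1 - s ^ l) ^ 2 / 4 / (r + (2 * l + 1)) := by ring
    rw [e, Xk]
    exact div_le_div_of_nonneg_right (by linarith) (by positivity)
  have q0 : 0 ≤ (1 - s ^ l) ^ 2 / 2 / (r + (2 * l + 1)) := by positivity
  rw [hp, Rk]
  generalize s ^ l = y at *
  generalize dk l r = d at *
  have A1 := mul_le_mul_of_nonneg_left Q1 (mul_pos hd hs).le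
  have A2 := mul_le_mul_of_nonneg_left Q2 hd.le
  have A3 := mul_nonneg (mul_pos hd y0).le T1
  have A4 := mul_nonneg d0 T2
  have A5 := mul_nonneg (sub_nonneg.2 d3) q0
  have R1 : (1 - d) / r * (s * y ^ 2) + 1 / (r + (2 * l + 1)) - y / (r + l + 1) -
      (1 - 2 * d) / (r + l) * (s * y) - d / (r + 2 * l) * s =
      (1 - d) * s * (y ^ 2 / r - 2 * y / (r + l) + 1 / (r + 2 * l)) +
        (s * y / (r + l) - y / (r + l + 1) - s / (r + 2 * l) + 1 / (r + (2 * l + 1))) := by ring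
  have R2 : (1 - d) / r * (s * y ^ 2) + 1 / (r + (2 * l + 1)) - y / (r + l + 1) -
      (1 - 2 * d) / (r + l) * (s * y) - d / (r + 2 * l) * s =
      (1 - d) * (y ^ 2 / (r + 1) - 2 * y / (r + l + 1) + 1 / (r + (2 * l + 1))) +
        (1 - d) * y * (s * y / r - y / (r + 1) - s / (r + l) + 1 / (r + l + 1)) +
        d * (s * y / (r + l) - y / (r + l + 1) - s / (r + 2 * l) + 1 / (r + (2 * l + 1))) := by ring
  generalize (1 - y) ^ 2 / 2 / (r + (2 * l + 1)) = Q at *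
  generalize (l : ℝ) ^ 2 / (r * (r + l) ^ 2) = c at *
  linarith

end Pool.Agent.MP_29b5d3_an.GP
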