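import Pool.Agent.MP_29b5d3_an.GE.SpecP

/-! PROJECT GE, odd dimensions: the multiplier at the degenerate vertex for large matrices. -/

set_option autoImplicit false

open Set

namespace Pool.Agent.MP_29b5d3_an.GP

open GA GB GK

theorem Sc0a.pw {s : ℝ} (hs : 1 ≤ s) (l : ℕ) : s * (s ^ l - 1) ≤ l * s ^ l * (s - 1) := by
  induction l with
  | zero => simp
  | succ l ih =>
    have h1 : 1 ≤ s ^ l := one_le_pow₀ hs
    have h2 := mul_le_mul_of_nonneg_left ih (show 0 ≤ s by linarith)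
    have h3 : 0 ≤ s * (s - 1) * (s ^ l - 1) :=
      mul_nonneg (mul_nonneg (by linarith) (by linarith)) (by linarith)
    push_cast
    rw [pow_succ]
    nlinarith

theorem Sc0a.core {s y z l d G m : ℝ} (hs : 1 ≤ s) (hy : s ≤ y) (z0 : 0 ≤ z) (z1 : z ≤ 1)
    (zl : z * l ≤ 1) (hp : s * (y - 1) ≤ l * y * (s - 1)) (d1 : d ≤ 1 / 3)
    (hG : G = (s * y - 1) * (y - 1) - d * s * (y - 1) ^ 2) (hm : (1 - z) * s * (y - 2 / 3) ≤ m) :
    0 ≤ m ∧ (y * (s - 1) - z * s * (y - 1)) ^ 2 ≤ 2 * G * m := by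
  have s0 : 0 ≤ s - 1 := by linarith
  have y0 : 0 ≤ y - 1 := by linarith
  have w0 : 0 ≤ 1 - z := by linarith
  have p0 : 0 ≤ y * (s - 1) := mul_nonneg (by linarith) s0
  have p1 : y * (s - 1) ≤ s * (y - 1) := by linarith
  have m1 : (1 - z) * s * (y / 3) ≤ m :=
    le_trans (mul_le_mul_of_nonneg_left (by linarith) (mul_nonneg w0 (by linarith))) hm
  have m0 : 0 ≤ (1 - z) * s * (y / 3) := mul_nonneg (mul_nonneg w0 (by linarith)) (by linarith)
  have u0 : 0 ≤ y * (s - 1) - z * s * (y - 1) := by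
    nlinarith [mul_le_mul_of_nonneg_left hp z0, mul_le_mul_of_nonneg_right zl p0]
  have u1 : y * (s - 1) - z * s * (y - 1) ≤ (1 - z) * (y * (s - 1)) := by
    nlinarith [mul_le_mul_of_nonneg_left p1 z0]
  have u2 := pow_le_pow_left₀ u0 u1 2
  have g1 := pow_le_pow_left₀ p0 p1 2
  have g2 := mul_le_mul_of_nonneg_left p1 s0
  have g3 : 0 ≤ (1 / 3 - d) * (s * (y - 1)) ^ 2 := mul_nonneg (by linarith) (sq_nonneg _)
  have g4 : 0 ≤ (y - 1) * (y * (s - 1) ^ 2) :=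
    mul_nonneg y0 (mul_nonneg (by linarith) (sq_nonneg _))
  have g5 : 0 ≤ y * (s - 1) ^ 2 := mul_nonneg (by linarith) (sq_nonneg _)
  have g6 : 3 / 2 * (y * (s - 1) ^ 2) ≤ G * s := by rw [hG]; nlinarith
  have G0 : 0 ≤ G := nonneg_of_mul_nonneg_left (by linarith) (by linarith : 0 < s)
  have a1 := mul_le_mul_of_nonneg_left m1 G0
  have a2 := mul_le_mul_of_nonneg_left g6 (mul_nonneg w0 (show 0 ≤ y by linarith))
  have a3 : 0 ≤ z * (1 - z) * (y * (s - 1)) ^ 2 := mul_nonneg (mul_nonneg z0 w0) (sq_nonneg _)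
  exact ⟨m0.trans m1, by nlinarith⟩

theorem sc0a : Sc0aStmt := by
  intro l r s hl hr hs
  have l1 : (1 : ℝ) ≤ l := by exact_mod_cast hl
  have hy : s ≤ s ^ l := le_self_pow₀ hs (by omega)
  obtain ⟨d0, d1⟩ := dk_bd hl hr
  have d3 : dk l r ≤ 1 / 3 :=
    d1.trans (one_div_le_one_div_of_le (by norm_num) (by linarith))
  refine ⟨?_, s * (l + 1) / l ^ 2 + s * s ^ l * (1 - 1 / l ^ 2),
    (s * s ^ l - s * (l + 1)) / l ^ 2, ?_, fun a ha => ?_⟩
  · rw [Xk, max_eq_right (by linarith), Gk]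
    have y0 : 0 ≤ s ^ l - 1 := by linarith
    have a1 : 0 ≤ (1 - dk l r) * (s * (s ^ l - 1) ^ 2) :=
      mul_nonneg (by linarith) (mul_nonneg (by linarith) (sq_nonneg _))
    nlinarith [mul_nonneg (sub_nonneg.2 hs) y0]
  · have : 1 / (l : ℝ) ^ 2 ≤ 1 := div_le_one_of_le₀ (by nlinarith) (by positivity)
    have : 0 ≤ 1 - 1 / (l : ℝ) ^ 2 := by linarith
    positivity
  obtain ⟨z0, z1, z2⟩ := zk_bd hl ha
  have e : s * (l + 1) / l ^ 2 + s * s ^ l * (1 - 1 / l ^ 2) +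
      (s * s ^ l - s * (l + 1)) / l ^ 2 * a ^ l =
      s * (l + 1) * zk l a + s * s ^ l * (1 - zk l a) := by
    rw [zk]
    field_simp
    ring
  have zl : zk l a * l ≤ 1 := by
    rw [le_div_iff₀ (by positivity)] at z1
    nlinarith [mul_nonneg (mul_nonneg z0 (show (0 : ℝ) ≤ l by linarith)) (sub_nonneg.2 l1)]
  have mx : max ((l + 1) * zk l a) (2 * dk l r * a ^ (l - 1)) ≤
      (l + 1) * zk l a + 2 / 3 * (1 - zk l a) := by
    refine max_le (by linarith) ?_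
    have a1 : a ^ (l - 1) ≤ 1 := pow_le_one₀ ha.1.le ha.2
    nlinarith [mul_le_mul_of_nonneg_left a1 d0, mul_nonneg z0 (sub_nonneg.2 l1)]
  have := Sc0a.core (G := Gk l r s) (m := mk l r s (s * (l + 1) / l ^ 2 +
    s * s ^ l * (1 - 1 / l ^ 2)) ((s * s ^ l - s * (l + 1)) / l ^ 2) a) hs hy z0 z2 zl
    (Sc0a.pw hs l) d3 rfl (by
      rw [mk, e]
      nlinarith [mul_le_mul_of_nonneg_left mx (show 0 ≤ s by linarith)])
  refine ⟨this.1, le_trans (le_of_eq ?_) this.2⟩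
  rw [e]
  ring

end Pool.Agent.MP_29b5d3_an.GP
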