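import Pool.Agent.MP_29b5d3_an.GE.SpecP

/-! PROJECT GE, odd dimensions, row SC0B: the degenerate vertex for small matrices. -/

set_option autoImplicit false

open Set

namespace Pool.Agent.MP_29b5d3_an.GP

open GA GB GK

theorem sc0b_rest (l : ℕ) (hl : 1 ≤ l) {z e v ν : ℝ} (hν : ν = 1 / (2 * l + 1))
    (hv : v = (l - 1) / l) (he : e = (1 - 2 * ν) / 2 + 2 * v * ν) (h0 : 0 ≤ z)
    (h1 : z ≤ 1 / l ^ 2) :
    ((1 - z) * e + z * v) ^ 2 + l / (l + 1) * ((1 - z) * e) ^ 2 ≤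
      (1 - z) * ((1 - 2 * ν) * (1 - ν)) := by
  rcases (by omega : l = 1 ∨ l = 2 ∨ l = 3 ∨ 4 ≤ l) with rfl | rfl | rfl | h
  · subst hν hv he
    norm_num at h1 ⊢
    nlinarith [mul_nonneg h0 (sub_nonneg.2 h1)]
  · subst hν hv he
    norm_num at h1 ⊢
    nlinarith [mul_nonneg h0 (sub_nonneg.2 h1)]
  · subst hν hv he
    norm_num at h1 ⊢
    nlinarith [mul_nonneg h0 (sub_nonneg.2 h1)]
  have l4 : (4 : ℝ) ≤ l := by exact_mod_cast h
  have ν0 : 0 ≤ ν := by rw [hν]; positivity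
  have ν1 : ν ≤ 1 / 9 := by
    rw [hν]
    exact one_div_le_one_div_of_le (by norm_num) (by linarith)
  have v0 : 0 ≤ v := by rw [hv]; exact div_nonneg (by linarith) (by linarith)
  have v1 : v ≤ 1 := by rw [hv]; exact div_le_one_of_le₀ (by linarith) (by linarith)
  have z1 : z ≤ 1 / 16 := h1.trans (one_div_le_one_div_of_le (by norm_num) (by nlinarith))
  have k1 : (l : ℝ) / (l + 1) ≤ 1 := div_le_one_of_le₀ (by linarith) (by linarith)
  have e0 : 0 ≤ e := by rw [he]; nlinarith [mul_nonneg v0 ν0]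
  have e1 : e ≤ 14 / 25 := by
    have : e = 1 / 2 + (l - 2) / (l * (2 * l + 1)) := by
      rw [he, hν, hv]
      field_simp
      ring
    have p : ((l : ℝ) - 2) / (l * (2 * l + 1)) ≤ 3 / 50 := by
      rw [div_le_div_iff₀ (by positivity) (by norm_num)]
      nlinarith [sq_nonneg ((l : ℝ) - 4)]
    linarith
  have y0 : 0 ≤ 1 - z := by linarith
  have a0 : 0 ≤ (1 - z) * e := mul_nonneg y0 e0
  have a1 : (1 - z) * e ≤ (1 - z) * (14 / 25) := mul_le_mul_of_nonneg_left e1 y0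
  have p1 : ((1 - z) * e + z * v) ^ 2 ≤ ((1 - z) * (14 / 25) + z) ^ 2 :=
    pow_le_pow_left₀ (add_nonneg a0 (mul_nonneg h0 v0))
      (add_le_add a1 (mul_le_of_le_one_right h0 v1)) 2
  have p2 : l / (l + 1) * ((1 - z) * e) ^ 2 ≤ ((1 - z) * (14 / 25)) ^ 2 :=
    (mul_le_of_le_one_left (sq_nonneg _) k1).trans (pow_le_pow_left₀ a0 a1 2)
  have p3 : (1 - z) * (56 / 81) ≤ (1 - z) * ((1 - 2 * ν) * (1 - ν)) :=
    mul_le_mul_of_nonneg_left (by nlinarith) y0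
  nlinarith [mul_nonneg h0 (sub_nonneg.2 z1)]

theorem sc0b_core {ν κ θ v e u y w w2 z : ℝ} (z0 : 0 ≤ z) (z1 : z ≤ 1) (w0 : 0 ≤ w)
    (w1 : w ≤ v * u) (x0 : 0 ≤ w2) (x1 : w2 ≤ y * u) (u0 : 0 ≤ u) (y0 : 0 ≤ y) (y1 : y ≤ 1)
    (v0 : 0 ≤ v) (ν0 : 0 ≤ ν) (ν1 : ν ≤ 1 / 2) (θ0 : 0 ≤ θ) (hκ : κ = 1 - 2 * ν + θ) (k1 : κ ≤ 1)
    (hθ : 4 * κ * v * ν + θ ≤ (1 - 2 * ν) * (1 - ν)) (he : e = (1 - 2 * ν) / 2 + 2 * v * ν)
    (hr : ((1 - z) * e + z * v) ^ 2 + κ * ((1 - z) * e) ^ 2 ≤ (1 - z) * ((1 - 2 * ν) * (1 - ν))) :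
    ((1 - z) * (u * (1 - 2 * ν) / 2 + 2 * w * ν) + z * w) ^ 2 +
        κ * ((1 - z) * (u * (1 - 2 * ν) / 2 + 2 * w * ν + w2)) ^ 2 ≤
      u * (u * (1 - ν) + w2) * ((1 - z) * ((1 - 2 * ν) * (1 + y))) := by
  obtain ⟨β, hβ⟩ : ∃ β, β = 1 - 2 * ν := ⟨_, rfl⟩
  rw [← hβ] at hκ hθ he hr ⊢
  have β0 : 0 ≤ β := by linarith
  have k0 : 0 ≤ κ := by linarith
  obtain ⟨E, hE⟩ : ∃ E, E = u * β / 2 + 2 * w * ν := ⟨_, rfl⟩
  rw [← hE]
  have c0 : 0 ≤ 1 - z := by linarith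
  have E0 : 0 ≤ E := by rw [hE]; positivity
  have E1 : E ≤ e * u := by
    rw [hE, he]
    nlinarith [mul_le_mul_of_nonneg_right w1 ν0]
  have a0 : 0 ≤ (1 - z) * E := mul_nonneg c0 E0
  have a1 : (1 - z) * E ≤ (1 - z) * e * u := by
    rw [mul_assoc]
    exact mul_le_mul_of_nonneg_left E1 c0
  have p1 : ((1 - z) * E + z * w) ^ 2 ≤ (((1 - z) * e + z * v) * u) ^ 2 :=
    pow_le_pow_left₀ (add_nonneg a0 (mul_nonneg z0 w0))
      (by nlinarith [mul_le_mul_of_nonneg_left w1 z0]) 2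
  have p2 : κ * ((1 - z) * E) ^ 2 ≤ κ * ((1 - z) * e * u) ^ 2 :=
    mul_le_mul_of_nonneg_left (pow_le_pow_left₀ a0 a1 2) k0
  have p4 := mul_le_mul_of_nonneg_right hr (sq_nonneg u)
  have wu : 0 ≤ w2 * u := mul_nonneg x0 u0
  have yu : w2 * u ≤ y * u ^ 2 := by nlinarith [mul_le_mul_of_nonneg_right x1 u0]
  have p3 : κ * (w2 * (2 * E + w2)) ≤ β * ((1 - ν) * (y * u ^ 2) + w2 * u * (1 + y)) := by
    have q1 : κ * (w2 * (2 * E + w2)) ≤ κ * (w2 * ((β + 4 * v * ν + y) * u)) :=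
      mul_le_mul_of_nonneg_left (mul_le_mul_of_nonneg_left (by rw [he] at E1; linarith) x0) k0
    have q2 : κ * (β * (w2 * u)) ≤ β * (w2 * u) := mul_le_of_le_one_left (mul_nonneg β0 wu) k1
    have q3 : 4 * κ * v * ν * (w2 * u) ≤ 4 * κ * v * ν * (y * u ^ 2) :=
      mul_le_mul_of_nonneg_left yu (by positivity)
    have q4 : θ * (y * (w2 * u)) ≤ θ * (y * u ^ 2) :=
      mul_le_mul_of_nonneg_left ((mul_le_of_le_one_left wu y1).trans yu) θ0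
    have q5 := mul_le_mul_of_nonneg_right hθ (show 0 ≤ y * u ^ 2 by positivity)
    have q6 : κ * (y * (w2 * u)) = β * (y * (w2 * u)) + θ * (y * (w2 * u)) := by
      rw [hκ]
      ring
    linarith
  have n3 : 0 ≤ κ * (w2 * (2 * E + w2)) := by positivity
  have p5 : (1 - z) * ((1 - z) * (κ * (w2 * (2 * E + w2)))) ≤
      (1 - z) * (β * ((1 - ν) * (y * u ^ 2) + w2 * u * (1 + y))) :=
    mul_le_mul_of_nonneg_left ((mul_le_of_le_one_left n3 (by linarith)).trans p3) c0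
  linarith

theorem sc0b : Sc0bStmt := by
  intro l r s hl hr s0 s1
  have l1 : (1 : ℝ) ≤ l := by exact_mod_cast hl
  have l0 : (0 : ℝ) < l := by linarith
  obtain ⟨d0, d1⟩ := dk_bd hl hr
  obtain ⟨ν, hν⟩ : ∃ ν : ℝ, ν = 1 / (2 * l + 1) := ⟨_, rfl⟩
  rw [← hν] at d1
  have ν0 : 0 ≤ ν := by rw [hν]; positivity
  have ν1 : ν ≤ 1 / 3 := by
    rw [hν]
    exact one_div_le_one_div_of_le (by norm_num) (by linarith)
  have y0 : 0 ≤ s ^ l := by positivity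
  have ys : s ^ l ≤ s := pow_le_of_le_one s0.le s1 (by omega)
  have ber : 1 + l * (s - 1) ≤ s ^ l := by
    simpa using one_add_mul_le_pow (show -2 ≤ s - 1 by linarith) l
  unfold Sc0 Xk Gk mk
  obtain ⟨y, hy⟩ : ∃ y, y = s ^ l := ⟨_, rfl⟩
  obtain ⟨d, hd⟩ : ∃ d, d = dk l r := ⟨_, rfl⟩
  rw [← hy] at y0 ys ber ⊢
  rw [← hd] at d0 d1 ⊢
  have u0 : 0 ≤ 1 - y := by linarith
  have x0 : 0 ≤ y * (1 - s) := mul_nonneg y0 (by linarith)
  have hG : (1 - y) * ((1 - y) * (1 - ν) + y * (1 - s)) ≤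
      (s * y - 1) * (y - 1) - d * s * (y - 1) ^ 2 := by
    have : d * s ≤ ν := (mul_le_of_le_one_right d0 s1).trans d1
    nlinarith [mul_le_mul_of_nonneg_right this (sq_nonneg (y - 1))]
  have G0 : 0 ≤ (1 - y) * ((1 - y) * (1 - ν) + y * (1 - s)) :=
    mul_nonneg u0 (add_nonneg (mul_nonneg u0 (by linarith)) x0)
  obtain ⟨om, hom⟩ : ∃ om, om = 2 * s * ν + (1 - 2 * ν) * (1 + y) / 2 := ⟨_, rfl⟩
  have b0 : 0 ≤ (1 - 2 * ν) * (1 + y) := mul_nonneg (by linarith) (by linarith)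
  have sν : 0 ≤ s * ν := mul_nonneg s0.le ν0
  refine ⟨?_, s * (l + 1) / l ^ 2 + om * (1 - 1 / l ^ 2), (om - s * (l + 1)) / l ^ 2, ?_,
    fun a ha => ?_⟩
  · rw [max_eq_left u0]
    refine le_trans ?_ hG
    nlinarith [mul_nonneg u0 x0, mul_nonneg (sq_nonneg (1 - y)) (sub_nonneg.2 ν1)]
  · refine add_nonneg (by positivity) (mul_nonneg (by linarith) (sub_nonneg.2 ?_))
    exact div_le_one_of_le₀ (by nlinarith) (by positivity)
  obtain ⟨z0, z1, z2⟩ := zk_bd hl ha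
  have hM : s * (l + 1) / l ^ 2 + om * (1 - 1 / l ^ 2) + (om - s * (l + 1)) / l ^ 2 * a ^ l =
      s * (l + 1) * zk l a + om * (1 - zk l a) := by
    rw [zk]
    field_simp
    ring
  rw [hM]
  obtain ⟨z, hz⟩ : ∃ z, z = zk l a := ⟨_, rfl⟩
  rw [← hz] at z0 z1 z2 ⊢
  have c0 : 0 ≤ 1 - z := by linarith
  have m0 : 0 ≤ (1 - z) * ((1 - 2 * ν) * (1 + y)) := mul_nonneg c0 b0
  have hm : (1 - z) * ((1 - 2 * ν) * (1 + y)) ≤ 2 * (s * (l + 1) * z + om * (1 - z) -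
      s * max ((l + 1) * z) (2 * d * a ^ (l - 1))) := by
    have a1 : a ^ (l - 1) ≤ 1 := pow_le_one₀ ha.1.le ha.2
    have : max ((l + 1) * z) (2 * d * a ^ (l - 1)) ≤ (l + 1) * z + 2 * ν * (1 - z) := by
      refine max_le (by nlinarith [mul_nonneg ν0 c0]) ?_
      nlinarith [mul_le_of_le_one_right d0 a1, mul_nonneg z0 (sub_nonneg.2 ν1),
        mul_nonneg z0 l0.le]
    have := mul_le_mul_of_nonneg_left this s0.le
    rw [hom]
    linarith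
  refine ⟨by linarith, ?_⟩
  have key := sc0b_core (ν := ν) (κ := l / (l + 1)) (θ := ν / (l + 1)) (v := (l - 1) / l)
    (u := 1 - y) (y := y) (w := s - y) (w2 := y * (1 - s)) z0 z2 (by linarith)
    (by rw [div_mul_eq_mul_div, le_div_iff₀ l0]; linarith) x0
    (mul_le_mul_of_nonneg_left (by linarith) y0) u0 y0 (by linarith)
    (div_nonneg (by linarith) l0.le) ν0 (by linarith) (by positivity)
    (by rw [hν]; field_simp; ring) (div_le_one_of_le₀ (by linarith) (by linarith)) ?_ rfl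
    (sc0b_rest l hl hν rfl rfl z0 z1)
  · have p := mul_le_mul hG hm m0 (G0.trans hG)
    have e1 : s * (l + 1) * z + om * (1 - z) - y - l * z * s =
        (1 - z) * ((1 - y) * (1 - 2 * ν) / 2 + 2 * (s - y) * ν) + z * (s - y) := by
      rw [hom]
      ring
    have e2 : s * (l + 1) * z + om * (1 - z) - (1 - z) * (s * y) - (l + 1) * z * s =
        (1 - z) * ((1 - y) * (1 - 2 * ν) / 2 + 2 * (s - y) * ν + y * (1 - s)) := by
      rw [hom]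
      ring
    rw [e1, e2]
    linarith
  · have e : (1 - 2 * ν) * (1 - ν) - (4 * (l / (l + 1)) * ((l - 1) / l) * ν + ν / (l + 1)) =
        (4 * l ^ 3 - 6 * l ^ 2 + 3) / ((l + 1) * (2 * l + 1) ^ 2) := by
      rw [hν]
      field_simp
      ring
    have : 0 ≤ (4 * (l : ℝ) ^ 3 - 6 * l ^ 2 + 3) / ((l + 1) * (2 * l + 1) ^ 2) :=
      div_nonneg (by nlinarith [mul_nonneg l0.le (sq_nonneg ((l : ℝ) - 1)), sq_nonneg (2 * (l : ℝ) - 2)])
        (by positivity)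
    linarith

end Pool.Agent.MP_29b5d3_an.GP
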