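import Pool.Agent.MP_29b5d3_an.GE.SpecP

/-! PROJECT GE, odd dimensions, row SC1: the multiplier at the conformal vertex. -/

set_option autoImplicit false

open Set

namespace Pool.Agent.MP_29b5d3_an.GP

open GA GB GK

namespace Sc1

theorem poly (m : ℕ) {w : ℝ} (h0 : 0 ≤ w) (h1 : w ≤ 1) :
    2 * w ≤ (2 * m + 3) * (3 / 4 * w ^ (m + 1) + 1 / 8) := by
  rcases le_or_gt 7 m with h | h
  · have : (7 : ℝ) ≤ m := by exact_mod_cast h
    have : 0 ≤ (2 * m + 3) * (3 / 4 * w ^ (m + 1)) := by positivity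
    linarith
  rcases le_or_gt w ((2 * m + 3) / 16) with k | k
  · have : 0 ≤ (2 * m + 3) * (3 / 4 * w ^ (m + 1)) := by positivity
    linarith
  have b := mul_le_mul_of_nonneg_right (pow_le_pow_left₀ (by positivity) k.le m) h0
  rw [pow_succ]
  interval_cases m <;> push_cast at * <;> nlinarith [sq_nonneg (w - 1 / 2)]

end Sc1

theorem sc1 : Sc1Stmt := by
  intro l r s hl hr hs
  obtain ⟨d0, d1⟩ := dk_bd hl hr
  obtain ⟨m, rfl⟩ : ∃ m, l = m + 1 := ⟨l - 1, by omega⟩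
  have l1 : (1 : ℝ) ≤ (m + 1 : ℕ) := by exact_mod_cast hl
  have il : 1 / ((m + 1 : ℕ) : ℝ) ^ 2 ≤ 1 := div_le_one_of_le₀ (by nlinarith) (by positivity)
  obtain ⟨u, hu⟩ : ∃ u, u = max (1 - s ^ (m + 1)) 0 := ⟨_, rfl⟩
  have u0 : 0 ≤ u := hu ▸ le_max_right _ _
  have y0 : 0 < s ^ (m + 1) := by positivity
  refine ⟨s ^ (m + 1) + s * s ^ (m + 1) * (1 - 1 / ((m + 1 : ℕ) : ℝ) ^ 2) +
    s * ((m + 1 : ℕ) + 1) / ((m + 1 : ℕ) : ℝ) ^ 2,
    u / 4 - s * ((m + 1 : ℕ) + 1 - s ^ (m + 1)) / ((m + 1 : ℕ) : ℝ) ^ 2, ?_, fun a ha => ?_⟩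
  · have := sub_nonneg.2 il
    positivity
  obtain ⟨z0, -, z1⟩ := zk_bd hl ha
  have x0 : 0 < a ^ (m + 1) := pow_pos ha.1 _
  have x1 : a ^ (m + 1) ≤ 1 := pow_le_one₀ ha.1.le ha.2
  have e : s ^ (m + 1) + s * s ^ (m + 1) * (1 - 1 / ((m + 1 : ℕ) : ℝ) ^ 2) +
      s * ((m + 1 : ℕ) + 1) / ((m + 1 : ℕ) : ℝ) ^ 2 +
      (u / 4 - s * ((m + 1 : ℕ) + 1 - s ^ (m + 1)) / ((m + 1 : ℕ) : ℝ) ^ 2) * a ^ (m + 1) =
      s ^ (m + 1) + (1 - zk (m + 1) a) * (s * s ^ (m + 1)) +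
        ((m + 1 : ℕ) + 1) * zk (m + 1) a * s + u * a ^ (m + 1) / 4 := by
    rw [zk]
    ring
  have p1 : 0 ≤ (1 - zk (m + 1) a) * (s * s ^ (m + 1)) :=
    mul_nonneg (sub_nonneg.2 z1) (by positivity)
  have p2 : 0 ≤ (((m + 1 : ℕ) : ℝ) + 1) * zk (m + 1) a * s := by positivity
  have p3 : 0 ≤ u * a ^ (m + 1) := by positivity
  have d2 : (2 * m + 3) * dk (m + 1) r ≤ 1 := by
    rw [le_div_iff₀' (by positivity)] at d1
    push_cast at d1
    linarith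
  have d3 : 3 * dk (m + 1) r ≤ 1 := by nlinarith [mul_nonneg (Nat.cast_nonneg (α := ℝ) m) d0]
  have lo : a ≤ s → s * (2 * dk (m + 1) r * a ^ m) ≤ 2 / 3 * s ^ (m + 1) := fun h => by
    have b1 := mul_le_mul_of_nonneg_left (pow_le_pow_left₀ ha.1.le h m) hs.le
    rw [← pow_succ'] at b1
    have : 0 ≤ s * a ^ m := mul_nonneg hs.le (pow_pos ha.1 m).le
    nlinarith
  have hi : s ≤ a → s * (2 * dk (m + 1) r * a ^ m) ≤ 3 / 4 * s ^ (m + 1) + a ^ (m + 1) / 8 :=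
    fun h => by
      obtain ⟨w, rfl⟩ : ∃ w, s = w * a := ⟨s / a, (div_mul_cancel₀ s ha.1.ne').symm⟩
      have w0 : 0 ≤ w := ((mul_pos_iff_of_pos_right ha.1).1 hs).le
      have w1 : w ≤ 1 := le_of_mul_le_mul_right (by linarith) ha.1
      have b1 := mul_le_mul_of_nonneg_left (Sc1.poly m w0 w1) d0
      have b2 := mul_le_mul_of_nonneg_right d2
        (by positivity : 0 ≤ 3 / 4 * w ^ (m + 1) + 1 / 8)
      have b3 := mul_le_mul_of_nonneg_right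
        (by linarith : dk (m + 1) r * (2 * w) ≤ 3 / 4 * w ^ (m + 1) + 1 / 8) x0.le
      rw [mul_pow]
      rw [pow_succ a] at b3 ⊢
      linarith
  rw [mk, Xk, ← hu, e, Nat.add_sub_cancel, mul_max_of_nonneg _ _ hs.le]
  have key : ∀ M : ℝ, 0 ≤ M → (u = 0 ∨ a ^ (m + 1) / 8 ≤ M) → 0 ≤ M ∧
      (s ^ (m + 1) + (1 - zk (m + 1) a) * (s * s ^ (m + 1)) +
        ((m + 1 : ℕ) + 1) * zk (m + 1) a * s + u * a ^ (m + 1) / 4 - s ^ (m + 1) -
        (1 - zk (m + 1) a) * (s * s ^ (m + 1)) - ((m + 1 : ℕ) + 1) * zk (m + 1) a * s) ^ 2 ≤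
        2 * (u ^ 2 / 4 * a ^ (m + 1)) * M := fun M M0 h => by
    refine ⟨M0, ?_⟩
    rcases h with rfl | h
    · exact le_of_eq (by ring)
    · nlinarith [mul_le_mul_of_nonneg_left h (by positivity : 0 ≤ u ^ 2 * a ^ (m + 1))]
  rcases le_total 1 s with h | h
  · refine key _ (sub_nonneg.2 (max_le (by linarith) ?_)) (Or.inl ?_)
    · linarith [lo (ha.2.trans h)]
    · rw [hu, max_eq_right (sub_nonpos.2 (one_le_pow₀ h))]
  · have y1 : s ^ (m + 1) ≤ 1 := pow_le_one₀ hs.le h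
    rw [max_eq_left (sub_nonneg.2 y1)] at hu
    have b : a ^ (m + 1) / 4 + 3 / 4 * s ^ (m + 1) ≤ s ^ (m + 1) + u * a ^ (m + 1) / 4 := by
      rw [hu]
      nlinarith
    have k : a ^ (m + 1) / 8 ≤ s ^ (m + 1) + (1 - zk (m + 1) a) * (s * s ^ (m + 1)) +
        ((m + 1 : ℕ) + 1) * zk (m + 1) a * s + u * a ^ (m + 1) / 4 -
        max (s * (((m + 1 : ℕ) + 1) * zk (m + 1) a)) (s * (2 * dk (m + 1) r * a ^ m)) := by
      rw [le_sub_comm]
      refine max_le (by linarith) ?_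
      rcases le_total a s with c | c
      · linarith [lo c]
      · linarith [hi c]
    exact key _ (le_trans (by positivity) k) (Or.inr k)

end Pool.Agent.MP_29b5d3_an.GP
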