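import Pool.Agent.MP_29b5d3_an.GE.Drop33

/-! PROJECT GE, odd dimension: a finite family of levels is a step family. -/

set_option autoImplicit false

open MeasureTheory Set Filter Topology
open scoped RealInnerProductSpace

namespace Pool.Agent.MP_29b5d3_an.GS

open GK

/-- the weight of a cell -/
noncomputable def gam (r h : ℝ) (i : ℕ) : ℝ :=
  ∫ t in Ioc (((i : ℝ) + 1) * h) (((i : ℝ) + 2) * h), t ^ r

theorem int_chi (r h u : ℝ) (i : ℕ) : ∫ t in Ioc 0 u, t ^ r * chi h i t =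
    ∫ t in Ioc (((i : ℝ) + 1) * h) (((i : ℝ) + 2) * h) ∩ Ioc 0 u, t ^ r := by
  have : (fun t : ℝ => t ^ r * chi h i t) =
      (Ioc (((i : ℝ) + 1) * h) (((i : ℝ) + 2) * h)).indicator fun t => t ^ r := by
    ext t
    simp only [chi, indicator]
    split_ifs <;> simp
  rw [this, integral_indicator measurableSet_Ioc, Measure.restrict_restrict measurableSet_Ioc]

theorem int_chi_eq {r h u : ℝ} (h0 : 0 < h) {i : ℕ} (hu : ((i : ℝ) + 2) * h ≤ u) :
    ∫ t in Ioc 0 u, t ^ r * chi h i t = gam r h i := by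
  rw [int_chi, inter_eq_left.2 (Ioc_subset_Ioc (by positivity) hu), gam]

theorem gam_int {r h : ℝ} (hr : 0 < r) (h0 : 0 < h) (i : ℕ) :
    IntegrableOn (fun t : ℝ => t ^ r) (Ioc (((i : ℝ) + 1) * h) (((i : ℝ) + 2) * h)) :=
  (rp_int (by linarith) (by positivity)).1.mono_set (Ioc_subset_Ioc_left (by positivity))

theorem int_chi_le {r h : ℝ} (hr : 0 < r) (h0 : 0 < h) (u : ℝ) (i : ℕ) :
    ∫ t in Ioc 0 u, t ^ r * chi h i t ≤ gam r h i := by
  rw [int_chi]
  refine setIntegral_mono_set (gam_int hr h0 i) ?_ inter_subset_left.eventuallyLE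
  filter_upwards [ae_restrict_mem measurableSet_Ioc] with t ht using
    Real.rpow_nonneg (le_trans (by positivity) ht.1.le) r

theorem gam_ge {r h : ℝ} (hr : 0 < r) (h0 : 0 < h) (i : ℕ) :
    h * (((i : ℝ) + 1) * h) ^ r ≤ gam r h i := by
  have := setIntegral_mono_on (f := fun _ => (((i : ℝ) + 1) * h) ^ r) (g := fun t : ℝ => t ^ r)
    (integrableOn_const (by simp)) (gam_int hr h0 i) measurableSet_Ioc
    fun t ht => Real.rpow_le_rpow (by positivity) ht.1.le hr.le
  rw [setIntegral_const, Real.volume_real_Ioc_of_le (by nlinarith), smul_eq_mul] at this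
  refine le_trans (le_of_eq ?_) this
  ring

theorem bern {p h T : ℝ} (hp : 1 ≤ p) (h0 : 0 < h) (hT : h ≤ T) :
    T ^ p / p - (T - h) ^ p / p ≤ h * T ^ (p - 1) := by
  have T0 : 0 < T := h0.trans_le hT
  have a : -1 ≤ -(h / T) := neg_le_neg ((div_le_one T0).2 hT)
  have b := one_add_mul_self_le_rpow_one_add a hp
  have c : (T - h) ^ p = T ^ p * (1 + -(h / T)) ^ p := by
    rw [← Real.mul_rpow T0.le (by linarith)]
    congr 1
    field_simp
    ring
  have d := mul_le_mul_of_nonneg_left b (Real.rpow_pos_of_pos T0 p).le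
  rw [← sub_div, div_le_iff₀ (by linarith), c, Real.rpow_sub T0, Real.rpow_one]
  calc _ ≤ T ^ p - T ^ p * (1 + p * -(h / T)) := by linarith
    _ = _ := by ring

section
variable {V : Type} [NormedAddCommGroup V] [InnerProductSpace ℝ V]

/-- the step family -/
noncomputable def stp (h : ℝ) (k : ℕ) (G : ℕ → V) (t : ℝ) : V :=
  ∑ i ∈ Finset.range k, chi h i t • G i

theorem stp_meas (h : ℝ) (k : ℕ) (G : ℕ → V) : StronglyMeasurable (stp h k G) :=
  Finset.stronglyMeasurable_fun_sum _ fun i _ =>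
    (chi_meas h i).stronglyMeasurable.smul stronglyMeasurable_const

theorem stp_bd (h : ℝ) (k : ℕ) (G : ℕ → V) (t : ℝ) :
    ‖stp h k G t‖ ≤ ∑ i ∈ Finset.range k, ‖G i‖ := by
  refine (norm_sum_le _ _).trans (Finset.sum_le_sum fun i _ => ?_)
  rw [norm_smul, Real.norm_eq_abs]
  exact mul_le_of_le_one_left (norm_nonneg _) (chi_abs h i t)

theorem stp_in (h : ℝ) (k : ℕ) (G : ℕ → V) (X : V) (t : ℝ) :
    ⟪X, stp h k G t⟫ = ∑ i ∈ Finset.range k, chi h i t * ⟪X, G i⟫ := by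
  simp only [stp, inner_sum, real_inner_smul_right]

theorem stp_op (h : ℝ) (k : ℕ) (G : ℕ → V) (q : V →L[ℝ] V) (a c : ℝ) :
    ⟪stp h k G a, q (stp h k G c)⟫ =
      ∑ i ∈ Finset.range k, ∑ j ∈ Finset.range k, chi h i a * chi h j c * ⟪G i, q (G j)⟫ := by
  rw [stp, sum_inner]
  simp only [stp, map_sum, map_smul, inner_sum, real_inner_smul_left,
    real_inner_smul_right, Finset.mul_sum, mul_assoc, mul_left_comm]

theorem stp_sq {h : ℝ} (h0 : 0 < h) (k : ℕ) (G : ℕ → V) (t : ℝ) :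
    ‖stp h k G t‖ ^ 2 = ∑ i ∈ Finset.range k, chi h i t * ‖G i‖ ^ 2 := by
  rw [← real_inner_self_eq_norm_sq]
  refine (stp_op h k G 1 t t).trans (Finset.sum_congr rfl fun i hi => ?_)
  simp only [chi_mul h0, ite_mul, zero_mul, Finset.sum_ite_eq, hi, if_true, one_apply_eq_self,
    real_inner_self_eq_norm_sq]

theorem int_sq {r h u : ℝ} (hr : 0 < r) (h0 : 0 < h) (hu : 0 ≤ u) (l k : ℕ) (G : ℕ → V) :
    ∫ t in Ioc 0 u, t ^ r * (‖stp h k G t‖ ^ 2 - (t ^ l) ^ 2) =
      ∑ i ∈ Finset.range k, (∫ t in Ioc 0 u, t ^ r * chi h i t) * ‖G i‖ ^ 2 -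
        u ^ (r + (2 * l + 1)) / (r + (2 * l + 1)) := by
  have l0 : (0 : ℝ) ≤ l := Nat.cast_nonneg l
  have ic : ∀ i, IntegrableOn (fun t => t ^ r * chi h i t * ‖G i‖ ^ 2) (Ioc 0 u) := fun i =>
    (rp_mul (by linarith) hu (chi_meas h i).aestronglyMeasurable
      fun t _ => chi_abs h i t).mul_const _
  obtain ⟨i1, e1⟩ := rp_int (s := r + 2 * l) (c := u) (by linarith) hu
  rw [setIntegral_congr_fun (g := fun t => ∑ i ∈ Finset.range k, t ^ r * chi h i t * ‖G i‖ ^ 2 -
      t ^ (r + 2 * l)) measurableSet_Ioc,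
    integral_sub (integrable_finsetSum _ fun i _ => ic i) i1, e1,
    integral_finsetSum _ fun i _ => ic i, add_assoc]
  · simp only [integral_mul_const]
  · intro t ht
    simp only
    rw [stp_sq h0, mul_sub, Finset.mul_sum, Real.rpow_add ht.1, mul_comm (2 : ℝ),
      Real.rpow_mul ht.1.le, Real.rpow_natCast, Real.rpow_two]
    simp only [mul_assoc]

theorem expand (l N : ℕ) {r h : ℝ} (hr : 0 < r) (h0 : 0 < h) (J : ℝ) (q : V →L[ℝ] V)
    (hq : ∀ x y, ⟪x, q y⟫ = ⟪y, q x⟫) (P : V) (G : ℕ → V) {S : ℝ} (hS : S = ((N : ℝ) + 1) * h) :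
    GB.Lam N (gam r h) (fun i => -∫ t in Ioc 0 S, t ^ r * (bek l S t * chi h i t))
      (fun i j => (∫ t in Ioc 0 S, dk l r * (t ^ (r - 1) * (chi h i t * chi h j t))) -
        ∫ p, Wk l r p.1 p.2 * (chi h i p.1 * chi h j p.2) ∂tm S)
      ((1 - dk l r) / r * S ^ r) J q P G = LamC l r S J q P (stp h N G) := by
  have S0 : 0 ≤ S := by rw [hS]; positivity
  obtain ⟨K, hK⟩ := bek_bd l S S
  have cm : ∀ i, AEStronglyMeasurable (chi h i) (volume.restrict (Ioc 0 S)) :=
    fun i => (chi_meas h i).aestronglyMeasurable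
  have cc : ∀ i j a c, |chi h i a * chi h j c| ≤ 1 := fun i j a c => by
    rw [abs_mul]
    exact mul_le_one₀ (chi_abs h i a) (abs_nonneg _) (chi_abs h j c)
  have i1 : ∀ i, IntegrableOn (fun t => t ^ r * chi h i t) (Ioc 0 S) := fun i =>
    rp_mul (by linarith) S0 (cm i) fun t _ => chi_abs h i t
  have i2 : ∀ i, IntegrableOn (fun t => t ^ r * (bek l S t * chi h i t)) (Ioc 0 S) := fun i =>
    rp_mul (M := K) (by linarith) S0 ((bek_meas l S).aestronglyMeasurable.mul (cm i)) fun t ht => by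
      rw [abs_mul]
      exact (mul_le_of_le_one_right (abs_nonneg _) (chi_abs h i t)).trans (hK t ht)
  have i3 : ∀ i j, IntegrableOn (fun t => dk l r * (t ^ (r - 1) * (chi h i t * chi h j t)))
      (Ioc 0 S) := fun i j =>
    (rp_mul (by linarith) S0 ((cm i).mul (cm j)) fun t _ => cc i j t t).const_mul _
  have i4 : ∀ i j, Integrable (fun p : ℝ × ℝ => Wk l r p.1 p.2 * (chi h i p.1 * chi h j p.2))
      (tm S) := fun i j =>
    tm_mul (Wk_int l hr S0) ((tm_fst (cm i)).mul (tm_snd (cm j))) fun a _ c _ => cc i j a c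
  have j1 : ∀ i, IntegrableOn (fun t => t ^ r * chi h i t * (‖G i‖ ^ 2 - ⟪P, G i⟫) -
      t ^ r * (bek l S t * chi h i t) * ⟪q P, G i⟫) (Ioc 0 S) := fun i =>
    ((i1 i).mul_const _).sub ((i2 i).mul_const _)
  have e1 : ∫ t in Ioc 0 S, t ^ r * (‖stp h N G t‖ ^ 2 - ⟪P + bek l S t • q P, stp h N G t⟫) =
      ∑ i ∈ Finset.range N, (gam r h i * (‖G i‖ ^ 2 - ⟪P, G i⟫) +
        (-∫ t in Ioc 0 S, t ^ r * (bek l S t * chi h i t)) * ⟪q P, G i⟫) := by
    rw [integral_congr_ae (g := fun t => ∑ i ∈ Finset.range N,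
      (t ^ r * chi h i t * (‖G i‖ ^ 2 - ⟪P, G i⟫) - t ^ r * (bek l S t * chi h i t) * ⟪q P, G i⟫))
      (Eventually.of_forall fun t => ?_), integral_finsetSum _ fun i _ => j1 i]
    · refine Finset.sum_congr rfl fun i hi => ?_
      have : (i : ℝ) + 1 ≤ N := by exact_mod_cast Finset.mem_range.1 hi
      rw [integral_sub ((i1 i).mul_const _) ((i2 i).mul_const _), integral_mul_const,
        integral_mul_const, int_chi_eq h0 (by rw [hS]; nlinarith)]
      ring
    · simp only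
      rw [stp_sq h0, stp_in, ← Finset.sum_sub_distrib, Finset.mul_sum]
      refine Finset.sum_congr rfl fun i _ => ?_
      rw [inner_add_left, real_inner_smul_left]
      ring
  have e2 : ∫ t in Ioc 0 S, dk l r * t ^ (r - 1) * ⟪stp h N G t, q (stp h N G t)⟫ =
      ∑ i ∈ Finset.range N, ∑ j ∈ Finset.range N,
        (∫ t in Ioc 0 S, dk l r * (t ^ (r - 1) * (chi h i t * chi h j t))) * ⟪G i, q (G j)⟫ := by
    simp only [stp_op, Finset.mul_sum, ← integral_mul_const]
    rw [integral_congr_ae (g := fun t => ∑ i ∈ Finset.range N, ∑ j ∈ Finset.range N,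
      dk l r * (t ^ (r - 1) * (chi h i t * chi h j t)) * ⟪G i, q (G j)⟫)
      (Eventually.of_forall fun t => by simp only [mul_assoc]),
      integral_finsetSum _ fun i _ => integrable_finsetSum _ fun j _ => (i3 i j).mul_const _]
    exact Finset.sum_congr rfl fun i _ => integral_finsetSum _ fun j _ => (i3 i j).mul_const _
  have e3 : ∫ p, Wk l r p.1 p.2 * ⟪stp h N G p.1, q (stp h N G p.2)⟫ ∂tm S =
      ∑ i ∈ Finset.range N, ∑ j ∈ Finset.range N,
        (∫ p, Wk l r p.1 p.2 * (chi h i p.1 * chi h j p.2) ∂tm S) * ⟪G i, q (G j)⟫ := by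
    simp only [stp_op, Finset.mul_sum, ← integral_mul_const]
    rw [integral_congr_ae (g := fun p : ℝ × ℝ => ∑ i ∈ Finset.range N, ∑ j ∈ Finset.range N,
      Wk l r p.1 p.2 * (chi h i p.1 * chi h j p.2) * ⟪G i, q (G j)⟫)
      (Eventually.of_forall fun t => by simp only [mul_assoc]),
      integral_finsetSum _ fun i _ => integrable_finsetSum _ fun j _ => (i4 i j).mul_const _]
    exact Finset.sum_congr rfl fun i _ => integral_finsetSum _ fun j _ => (i4 i j).mul_const _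
  have e4 : ∫ a in Ioc 0 S, ∫ c in Ioc a S, Wk l r a c * ⟪stp h N G a, q (stp h N G c)⟫ =
      ∫ p, Wk l r p.1 p.2 * ⟪stp h N G p.1, q (stp h N G p.2)⟫ ∂tm S :=
    (tm_int1 (tm_pair (Wk_int l hr S0) (stp_meas h N G).aestronglyMeasurable
      (fun a _ => stp_bd h N G a) q)).2.symm
  rw [LamC, Br, e1, e2, e4, e3, GB.Lam, Finset.sum_add_distrib]
  have hq' : ∀ x y, ⟪q x, y⟫ = ⟪x, q y⟫ := fun x y => by rw [hq, real_inner_comm]
  simp only [sub_mul, Finset.sum_sub_distrib, hq']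
  ring

theorem stp_low {h : ℝ} (h0 : 0 < h) {k N : ℕ} (hk : k ≤ N) (G : ℕ → V) {t : ℝ}
    (ht : t ≤ ((k : ℝ) + 1) * h) : stp h N G t = stp h k G t := by
  refine (Finset.sum_subset (Finset.range_mono hk) fun i _ hi => ?_).symm
  have : (k : ℝ) ≤ i := by exact_mod_cast not_lt.1 fun a => hi (Finset.mem_range.2 a)
  rw [chi_zero (Or.inl (by nlinarith)), zero_smul]

theorem stp_high {h : ℝ} (h0 : 0 < h) {k N : ℕ} {G : ℕ → V} {P : V}
    (hG : ∀ i, k ≤ i → i < N → G i = P) {t : ℝ}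
    (ht : t ∈ Ioc (((k : ℝ) + 1) * h) (((N : ℝ) + 1) * h)) : stp h N G t = P := by
  have t1 : (k : ℝ) + 1 < t / h := (lt_div_iff₀ h0).2 ht.1
  have t2 : t / h ≤ (N : ℝ) + 1 := (div_le_iff₀ h0).2 ht.2
  have a : k + 1 < ⌈t / h⌉₊ := Nat.lt_ceil.2 (by exact_mod_cast t1)
  have b : ⌈t / h⌉₊ ≤ N + 1 := Nat.ceil_le.2 (by exact_mod_cast t2)
  obtain ⟨j, hj⟩ : ∃ j, ⌈t / h⌉₊ = j + 2 := ⟨⌈t / h⌉₊ - 2, by omega⟩
  have c : (j : ℝ) + 1 < t / h := by exact_mod_cast Nat.lt_ceil.1 (show j + 1 < ⌈t / h⌉₊ by omega)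
  have d : t / h ≤ (j : ℝ) + 2 := by exact_mod_cast Nat.ceil_le.1 hj.le
  have e : chi h j t = 1 :=
    indicator_of_mem (show t ∈ Ioc _ _ from ⟨(lt_div_iff₀ h0).1 c, (div_le_iff₀ h0).1 d⟩) _
  rw [stp, Finset.sum_eq_single_of_mem j (Finset.mem_range.2 (by omega)), e, one_smul,
    hG j (by omega) (by omega)]
  intro i _ hi
  have := chi_mul h0 i j t
  rw [if_neg hi, e, mul_one] at this
  rw [this, zero_smul]

end

theorem step : StepStmt := by
  intro l r S η hl hr hS hη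
  have l0 : (0 : ℝ) ≤ l := Nat.cast_nonneg l
  set p : ℝ := r + (2 * l + 1) with hp
  have p1 : 1 ≤ p := by linarith
  obtain ⟨N, hN⟩ := exists_nat_ge (S * S ^ (p - 1) / η)
  set h : ℝ := S / ((N : ℝ) + 1) with hh
  have h0 : 0 < h := by positivity
  have eS : S = ((N : ℝ) + 1) * h := by rw [hh]; field_simp
  have hη' : h * S ^ (p - 1) ≤ η := by
    rw [div_le_iff₀ hη] at hN
    rw [hh, div_mul_eq_mul_div, div_le_iff₀ (by positivity)]
    nlinarith
  refine ⟨N, gam r h, fun j => ((j : ℝ) * h) ^ p / p,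
    fun i => -∫ t in Ioc 0 S, t ^ r * (bek l S t * chi h i t),
    fun i j => (∫ t in Ioc 0 S, dk l r * (t ^ (r - 1) * (chi h i t * chi h j t))) -
      ∫ p, Wk l r p.1 p.2 * (chi h i p.1 * chi h j p.2) ∂tm S, (1 - dk l r) / r * S ^ r,
    fun i => lt_of_lt_of_le (by positivity) (gam_ge hr h0 i),
    by simp [Real.zero_rpow (show p ≠ 0 by linarith)], fun j => by positivity,
    fun V _ _ _ q P G k hq hF => ?_⟩
  set T : ℝ := ((k : ℝ) + 1) * h with hT
  have T0 : 0 < T := by positivity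
  have kN : (k : ℝ) ≤ N := by exact_mod_cast hF.le
  have TS : T ≤ S := by rw [eS, hT]; nlinarith
  have hb := bern p1 h0 (show h ≤ T by rw [hT]; nlinarith [Nat.cast_nonneg (α := ℝ) k])
  rw [show T - h = k * h by rw [hT]; ring] at hb
  have lowE : ∀ t, t ≤ T → stp h N G t = stp h k G t := fun t ht => stp_low h0 hF.le G ht
  have iq : ∀ u ∈ Icc 0 T, ∫ t in Ioc 0 u, t ^ r * (‖stp h N G t‖ ^ 2 - (t ^ l) ^ 2) =
      ∑ i ∈ Finset.range k, (∫ t in Ioc 0 u, t ^ r * chi h i t) * ‖G i‖ ^ 2 - u ^ p / p := by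
    intro u hu
    rw [← int_sq hr h0 hu.1]
    exact setIntegral_congr_fun measurableSet_Ioc fun t ht => by
      simp only [lowE t (ht.2.trans hu.2)]
  refine ⟨T, stp h N G, T0, TS, ⟨(stp_meas h N G).aestronglyMeasurable,
    ⟨(∑ i ∈ Finset.range N, ‖G i‖) / h ^ l, fun t ht => ?_⟩, fun u hu => ?_, ?_⟩, ?_, ?_⟩
  · rcases le_or_gt t h with a | a
    · rw [stp_low h0 (Nat.zero_le N) G (by simpa using a), stp, Finset.sum_range_zero, norm_zero]
      have := ht.1
      positivity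
    · refine (stp_bd h N G t).trans ?_
      rw [div_mul_eq_mul_div, le_div_iff₀ (by positivity)]
      exact mul_le_mul_of_nonneg_left (pow_le_pow_left₀ h0.le a.le l) (by positivity)
  · rw [iq u hu, sub_nonpos]
    set j := min k ⌊u / h⌋₊ with hj
    have j1 : (j : ℝ) * h ≤ u := by
      rw [← le_div_iff₀ h0]
      exact le_trans (by exact_mod_cast min_le_right _ _) (Nat.floor_le (div_nonneg hu.1 h0.le))
    rw [← Finset.sum_subset (Finset.range_mono (min_le_left k ⌊u / h⌋₊))]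
    · refine le_trans (Finset.sum_le_sum fun i _ => mul_le_mul_of_nonneg_right
        (int_chi_le hr h0 u i) (sq_nonneg _)) ((hF.body j ((min_le_left _ _).trans hF.le)).trans ?_)
      exact div_le_div_of_nonneg_right (Real.rpow_le_rpow (by positivity) j1 (by linarith))
        (by linarith)
    · intro i h1 h2
      rw [Finset.mem_range] at h1 h2
      have a : (⌊u / h⌋₊ : ℝ) ≤ i := by exact_mod_cast (show ⌊u / h⌋₊ ≤ i by omega)
      have b := (div_lt_iff₀ h0).1 (Nat.lt_floor_add_one (u / h))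
      rw [setIntegral_congr_fun (g := fun _ => 0) measurableSet_Ioc fun t ht => by
        simp only
        rw [chi_zero (Or.inl (by nlinarith [ht.2])), mul_zero]]
      simp
  · rw [iq T ⟨T0.le, le_rfl⟩, Finset.sum_congr rfl fun i hi => by
      have : (i : ℝ) + 1 ≤ k := by exact_mod_cast Finset.mem_range.1 hi
      rw [int_chi_eq h0 (by rw [hT]; nlinarith)], hF.tight]
    have := mul_le_mul_of_nonneg_left (Real.rpow_le_rpow T0.le TS (sub_nonneg.2 p1)) h0.le
    linarith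
  · rcases eq_or_lt_of_le hF.le with a | a
    · exact Or.inl (by rw [eS, hT, a])
    · have b := hF.body (k + 1) a
      rw [Finset.sum_range_succ, hF.tight, hF.above k le_rfl a] at b
      push_cast at b
      have c := mul_le_mul_of_nonneg_right (gam_ge hr h0 k) (sq_nonneg ‖P‖)
      have d : T ^ (p - 1) = T ^ r * (T ^ l) ^ 2 := by
        rw [hp, show r + (2 * l + 1) - 1 = r + l * 2 by ring, Real.rpow_add T0,
          Real.rpow_mul T0.le, Real.rpow_natCast, Real.rpow_two]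
      refine Or.inr ((sq_le_sq₀ (norm_nonneg P) (pow_pos T0 l).le).1 ?_)
      refine le_of_mul_le_mul_left ?_ (mul_pos h0 (Real.rpow_pos_of_pos T0 r))
      rw [d] at hb
      linarith
  · rw [expand l N hr h0 _ q hq P G eS]
    exact drop' hl hr T0 TS (stp_meas h N G).aestronglyMeasurable (fun t _ => stp_bd h N G t) q
      fun t ht => stp_high h0 hF.above (by rwa [← eS])

end Pool.Agent.MP_29b5d3_an.GS
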