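import Pool.Agent.MP_29b5d3_an.GE.AllB
import Pool.Agent.MP_29b5d3_an.GE.KPt
import Pool.Agent.MP_29b5d3_an.GE.KScale
import Pool.Agent.MP_29b5d3_an.GE.Step33
import Pool.Agent.MP_29b5d3_an.GE.PCone
import Pool.Agent.MP_29b5d3_an.GE.PCrude
import Pool.Agent.MP_29b5d3_an.GE.PExp
import Pool.Agent.MP_29b5d3_an.GE.PR1
import Pool.Agent.MP_29b5d3_an.GE.PSc0a
import Pool.Agent.MP_29b5d3_an.GE.PSc0b
import Pool.Agent.MP_29b5d3_an.GE.PSc1

/-! PROJECT GE: a second proof of the pointwise inequality, through a continuum of levels. -/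

set_option autoImplicit false

namespace Pool.Agent.MP_29b5d3_an.GP

theorem ptFAll : GB.PtFStmt :=
  GK.ptF GS.step GK.scale (one (crude exp) (cone exp sc1 r1 sc0a sc0b aff))

theorem sharp (n : ℕ) (hn : 2 ≤ n) : GE.Sharp n := GB.all_of ptFAll n hn

end Pool.Agent.MP_29b5d3_an.GP
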