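import Pool.Agent.MP_29b5d3_an.GE.Tri32

/-! PROJECT GE, odd dimension: the bracket inequality for the power kernel. -/

set_option autoImplicit false

open MeasureTheory Set Filter Topology
open scoped RealInnerProductSpace

namespace Pool.Agent.MP_29b5d3_an.GK

theorem rp_int {s c : ℝ} (hs : -1 < s) (hc : 0 ≤ c) :
    IntegrableOn (fun a : ℝ => a ^ s) (Ioc 0 c) ∧
      ∫ a in Ioc 0 c, a ^ s = c ^ (s + 1) / (s + 1) := by
  refine ⟨(intervalIntegrable_iff_integrableOn_Ioc_of_le hc).1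
    (intervalIntegral.intervalIntegrable_rpow' hs), ?_⟩
  rw [← intervalIntegral.integral_of_le hc, integral_rpow (Or.inl hs),
    Real.zero_rpow (by linarith), sub_zero]

/-- the power kernel `a ^ α c ^ β` -/
theorem pk_int {T α β : ℝ} (hT : 0 ≤ T) (hα : -1 < α) (hβ : -2 < α + β) :
    Integrable (fun p : ℝ × ℝ => p.1 ^ α * p.2 ^ β) (tm T) ∧
      ∀ c ∈ Ioc 0 T, ∫ a in Ioc 0 c, a ^ α * c ^ β = c ^ (α + 1 + β) / (α + 1) := by
  have e : ∀ c ∈ Ioc 0 T, ∫ a in Ioc 0 c, a ^ α * c ^ β = c ^ (α + 1 + β) / (α + 1) := by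
    intro c hc
    rw [integral_mul_const, (rp_int hα hc.1.le).2, Real.rpow_add hc.1 (α + 1) β]
    ring
  refine ⟨tm_integrable (by fun_prop) (fun c hc a ha => ?_)
    (fun c hc => (rp_int hα hc.1.le).1.mul_const (c ^ β)) ?_, e⟩
  · exact mul_nonneg (Real.rpow_nonneg ha.1.le _) (Real.rpow_nonneg hc.1.le _)
  · refine IntegrableOn.congr_fun (((rp_int (s := α + 1 + β) (by linarith) hT).1).div_const (α + 1))
      (fun c hc => (e c hc).symm) measurableSet_Ioc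

section
variable {V : Type} [NormedAddCommGroup V] [InnerProductSpace ℝ V] [CompleteSpace V]

/-- the power kernel is positive -/
theorem pk_psd {T α β M : ℝ} (hT : 0 ≤ T) (hα : -1 < α) (hβ : -2 < α + β) (hle : β ≤ α)
    {δ : ℝ → V} (hδ : AEStronglyMeasurable δ (volume.restrict (Ioc 0 T)))
    (hM : ∀ a ∈ Ioc 0 T, ‖δ a‖ ≤ M) (N : V →L[ℝ] V) (hN : ∀ x y, ⟪x, N y⟫ = ⟪y, N x⟫)
    (hN0 : ∀ x, 0 ≤ ⟪x, N x⟫) : 0 ≤ ∫ p, p.1 ^ α * p.2 ^ β * ⟪δ p.1, N (δ p.2)⟫ ∂tm T := by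
  have h := tm_pair (pk_int hT hα hβ).1 hδ hM N
  have he : IntegrableOn (fun a => a ^ α • δ a) (Ioc 0 T) := by
    refine Integrable.smul_of_top_left (rp_int hα hT).1 (memLp_top_of_bound hδ M ?_)
    filter_upwards [ae_restrict_mem measurableSet_Ioc] with a ha using hM a ha
  have e : ∀ c ∈ Ioc 0 T, ∫ a in Ioc 0 c, a ^ α * c ^ β * ⟪δ a, N (δ c)⟫ =
      c ^ (β - α) * ⟪∫ a in Ioc 0 c, a ^ α • δ a, N (c ^ α • δ c)⟫ := by
    intro c hc
    rw [real_inner_comm, ← integral_inner (he.mono_set (Ioc_subset_Ioc_right hc.2)),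
      ← integral_const_mul]
    refine setIntegral_congr_fun measurableSet_Ioc fun a _ => ?_
    have : c ^ β = c ^ (β - α) * c ^ α := by rw [← Real.rpow_add hc.1, sub_add_cancel]
    simp only [map_smul, real_inner_smul_right, this, real_inner_comm (δ a)]
    ring
  rw [(tm_int2 h).2, setIntegral_congr_fun measurableSet_Ioc e]
  refine psd he N hN hN0 (fun a ha c _ hac => ?_) (fun c hc => Real.rpow_nonneg hc.1.le _)
    ((tm_int2 h).1.congr_fun e measurableSet_Ioc)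
  exact Real.rpow_le_rpow_of_nonpos ha.1 hac (by linarith)

/-- the kernel -/
noncomputable def Wk (l : ℕ) (r a c : ℝ) : ℝ :=
  a ^ r * (((l : ℝ) ^ 2 - 1) / l ^ 2 / c ^ 2 + ((l : ℝ) + 1) / l ^ 2 * a ^ l / c ^ (l + 2))

/-- the constant of the atom -/
noncomputable def dk (l : ℕ) (r : ℝ) : ℝ :=
  ((l : ℝ) ^ 2 - 1) / l ^ 2 / (2 * (r + l + 1)) + ((l : ℝ) + 1) / l ^ 2 / (2 * (r + 2 * l + 1))

/-- the first marginal of the kernel -/
noncomputable def thk (l : ℕ) (T a : ℝ) : ℝ := ((l : ℝ) + 1) / l ^ 2 * (T ^ l - a ^ l) / T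

theorem Wk_eq {l : ℕ} {r a c : ℝ} (ha : 0 < a) (hc : 0 < c) :
    Wk l r a c * a ^ l * c ^ l = ((l : ℝ) ^ 2 - 1) / l ^ 2 * (a ^ (r + l) * c ^ ((l : ℝ) - 2)) +
      ((l : ℝ) + 1) / l ^ 2 * (a ^ (r + 2 * l) * c ^ (-2 : ℝ)) := by
  rw [Wk, Real.rpow_add ha, Real.rpow_add ha, Real.rpow_sub hc, Real.rpow_neg hc.le, mul_comm 2,
    Real.rpow_mul ha.le, Real.rpow_natCast, Real.rpow_natCast, Real.rpow_two, Real.rpow_two,
    pow_add]
  field_simp

theorem Wk_m1 {l : ℕ} (hl : 1 ≤ l) {r a T : ℝ} (ha : a ∈ Ioc 0 T) :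
    ∫ c in Ioc a T, (((l : ℝ) ^ 2 - 1) / l ^ 2 * (a ^ (r + l) * c ^ ((l : ℝ) - 2)) +
      ((l : ℝ) + 1) / l ^ 2 * (a ^ (r + 2 * l) * c ^ (-2 : ℝ))) = a ^ r * thk l T a * a ^ l := by
  have hp : ∀ c ∈ uIcc a T, 0 < c := fun c hc => by
    rw [uIcc_of_le ha.2] at hc
    exact ha.1.trans_le hc.1
  have hl0 : (l : ℝ) ≠ 0 := by positivity
  have hT : 0 < T := ha.1.trans_le ha.2
  rw [← intervalIntegral.integral_of_le ha.2, intervalIntegral.integral_eq_sub_of_hasDerivAt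
    (f := fun c => ((l : ℝ) + 1) / l ^ 2 * (a ^ (r + l) * c ^ ((l : ℝ) - 1)) -
      ((l : ℝ) + 1) / l ^ 2 * (a ^ (r + 2 * l) * c ^ (-1 : ℝ)))]
  · rw [thk, Real.rpow_add ha.1, Real.rpow_add ha.1, Real.rpow_sub hT, Real.rpow_sub ha.1,
      mul_comm 2, Real.rpow_mul ha.1.le]
    simp only [Real.rpow_natCast, Real.rpow_two, Real.rpow_one, Real.rpow_neg_one]
    have := ha.1.ne'
    field_simp
    ring
  · intro c hc
    have h1 := Real.hasDerivAt_rpow_const (p := (l : ℝ) - 1) (Or.inl (hp c hc).ne')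
    have h2 := Real.hasDerivAt_rpow_const (p := (-1 : ℝ)) (Or.inl (hp c hc).ne')
    convert ((h1.const_mul (a ^ (r + l))).const_mul (((l : ℝ) + 1) / l ^ 2)).fun_sub
      ((h2.const_mul (a ^ (r + 2 * l))).const_mul (((l : ℝ) + 1) / l ^ 2)) using 1
    rw [show (l : ℝ) - 1 - 1 = l - 2 by ring, show (-1 : ℝ) - 1 = -2 by ring]
    ring
  · refine ContinuousOn.intervalIntegrable (ContinuousOn.add ?_ ?_) <;>
      exact continuousOn_const.mul (continuousOn_const.mul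
        (continuousOn_id.rpow_const fun c hc => Or.inl (hp c hc).ne'))

/-- the bracket inequality -/
theorem brk {l : ℕ} (hl : 1 ≤ l) {r T M σ : ℝ} (hr : 0 < r) (hT : 0 ≤ T) {E : ℝ → V}
    {q : V →L[ℝ] V} {ω : ℝ → ℝ} (hE : AEStronglyMeasurable E (volume.restrict (Ioc 0 T)))
    (hM : ∀ t ∈ Ioc 0 T, ‖E t‖ ≤ M * t ^ l) (hq : ∀ x y, ⟪x, q y⟫ = ⟪y, q x⟫)
    (hb : ∀ x, ‖q x‖ ≤ σ * ‖x‖) (I : V)
    (w1 : ∀ t ∈ Ioc 0 T, thk l T t / (2 * t ^ l) ≤ ω t) (w2 : ∀ t ∈ Ioc 0 T, dk l r / t ≤ ω t)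
    (hω : IntegrableOn (fun t => t ^ r * ω t * ‖E t - t ^ l • I‖ ^ 2) (Ioc 0 T)) :
    Integrable (fun p : ℝ × ℝ => Wk l r p.1 p.2 * ⟪E p.1, q (E p.2)⟫) (tm T) ∧
    -(dk l r * T ^ (r + 2 * l) / (r + 2 * l) * ⟪I, q I⟫) -
        (∫ t in Ioc 0 T, t ^ r * thk l T t * ⟪E t - t ^ l • I, q I⟫) -
        σ * ∫ t in Ioc 0 T, t ^ r * ω t * ‖E t - t ^ l • I‖ ^ 2 ≤
      (∫ t in Ioc 0 T, dk l r * t ^ (r - 1) * ⟪E t, q (E t)⟫) -
        ∫ p, Wk l r p.1 p.2 * ⟪E p.1, q (E p.2)⟫ ∂tm T := by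
  have l1 : (1 : ℝ) ≤ l := by exact_mod_cast hl
  have hA : 0 ≤ ((l : ℝ) ^ 2 - 1) / l ^ 2 := div_nonneg (by nlinarith) (by positivity)
  have hB : 0 ≤ ((l : ℝ) + 1) / l ^ 2 := by positivity
  obtain ⟨i1, e1⟩ := pk_int (α := r + l) (β := (l : ℝ) - 2) hT (by linarith) (by linarith)
  obtain ⟨i2, e2⟩ := pk_int (α := r + 2 * l) (β := -2) hT (by linarith) (by linarith)
  set δ : ℝ → V := fun t => (t ^ l)⁻¹ • E t - I with hδ
  have dm : AEStronglyMeasurable δ (volume.restrict (Ioc 0 T)) :=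
    ((show Measurable fun t : ℝ => (t ^ l)⁻¹ by fun_prop).aestronglyMeasurable.smul hE).sub
      aestronglyMeasurable_const
  have db : ∀ t ∈ Ioc 0 T, ‖δ t‖ ≤ M + ‖I‖ := fun t ht => by
    have : 0 < t ^ l := pow_pos ht.1 l
    refine (norm_sub_le _ _).trans (add_le_add_left ?_ _)
    rw [norm_smul, norm_inv, Real.norm_of_nonneg this.le, inv_mul_le_iff₀ this, mul_comm]
    exact hM t ht
  have eE : ∀ t : ℝ, 0 < t → E t = t ^ l • (I + δ t) := fun t ht => by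
    rw [hδ, add_sub_cancel, smul_smul, mul_inv_cancel₀ (pow_pos ht l).ne', one_smul]
  have eD : ∀ t : ℝ, 0 < t → E t - t ^ l • I = t ^ l • δ t := fun t ht => by
    rw [eE t ht, smul_add, add_sub_cancel_left]
  have pw : ∀ t : ℝ, 0 < t → t ^ (r + 2 * l - 1) = t ^ r * (t ^ l) ^ 2 / t := fun t ht => by
    rw [Real.rpow_sub ht, Real.rpow_add ht, mul_comm 2, Real.rpow_mul ht.le, Real.rpow_natCast,
      Real.rpow_two, Real.rpow_one]
  have iΩ := (i1.const_mul (((l : ℝ) ^ 2 - 1) / l ^ 2)).add (i2.const_mul (((l : ℝ) + 1) / l ^ 2))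
  have Ns : ∀ x y, ⟪x, (σ • (1 : V →L[ℝ] V) - q) y⟫ = ⟪y, (σ • (1 : V →L[ℝ] V) - q) x⟫ :=
    fun x y => by
      simp only [sub_apply, smul_apply, one_apply_eq_self, inner_sub_right, real_inner_smul_right]
      rw [hq, real_inner_comm]
  have N0 : ∀ x, 0 ≤ ⟪x, (σ • (1 : V →L[ℝ] V) - q) x⟫ := fun x => by
    simp only [sub_apply, smul_apply, one_apply_eq_self, inner_sub_right, real_inner_smul_right,
      real_inner_self_eq_norm_sq]
    have := real_inner_le_norm x (q x)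
    have := mul_le_mul_of_nonneg_left (hb x) (norm_nonneg x)
    nlinarith
  have eω : ∀ t ∈ Ioc 0 T, t ^ r * ω t * ‖E t - t ^ l • I‖ ^ 2 =
      2⁻¹ * (2 * (t ^ r * ω t * (t ^ l) ^ 2) * ‖δ t‖ ^ 2) := fun t ht => by
    rw [eD t ht.1, norm_smul, mul_pow, Real.norm_eq_abs, sq_abs]
    ring
  have key := brk_abs (m1 := fun a => a ^ r * thk l T a * a ^ l)
    (m2 := fun c => 2 * dk l r * c ^ (r + 2 * l - 1))
    (ω := fun t => 2 * (t ^ r * ω t * (t ^ l) ^ 2)) iΩ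
    (fun c hc a ha => add_nonneg
      (mul_nonneg hA (mul_nonneg (Real.rpow_nonneg ha.1.le _) (Real.rpow_nonneg hc.1.le _)))
      (mul_nonneg hB (mul_nonneg (Real.rpow_nonneg ha.1.le _) (Real.rpow_nonneg hc.1.le _))))
    (fun a ha => Wk_m1 hl ha)
    (fun c hc => by
      simp only [Pi.add_apply]
      rw [integral_add (((rp_int (by linarith) hc.1.le).1.mul_const _).const_mul _)
        (((rp_int (by linarith) hc.1.le).1.mul_const _).const_mul _), integral_const_mul,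
        integral_const_mul, e1 c hc, e2 c hc, dk,
        show r + l + 1 + ((l : ℝ) - 2) = r + 2 * l - 1 by ring,
        show r + 2 * l + 1 + (-2 : ℝ) = r + 2 * l - 1 by ring]
      field_simp) dm db hq hb
    (by
      simp only [Pi.add_apply, add_mul, mul_assoc (_ / _ : ℝ)]
      rw [integral_add ((tm_pair i1 dm db _).const_mul _) ((tm_pair i2 dm db _).const_mul _),
        integral_const_mul, integral_const_mul]
      exact add_nonneg
        (mul_nonneg hA (pk_psd hT (by linarith) (by linarith) (by linarith) dm db _ Ns N0))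
        (mul_nonneg hB (pk_psd hT (by linarith) (by linarith) (by linarith) dm db _ Ns N0)))
    (fun a ha => by
      have h1 : 0 < a ^ l := pow_pos ha.1 l
      have h2 := w1 a ha
      rw [div_le_iff₀ (by positivity)] at h2
      have := mul_le_mul_of_nonneg_left h2 (mul_pos (Real.rpow_pos_of_pos ha.1 r) h1).le
      linarith)
    (fun a ha => by
      have := mul_le_mul_of_nonneg_left (w2 a ha)
        (mul_nonneg (Real.rpow_pos_of_pos ha.1 r).le (sq_nonneg (a ^ l)))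
      rw [pw a ha.1]
      calc _ = 2 * (a ^ r * (a ^ l) ^ 2 * (dk l r / a)) := by ring
        _ ≤ _ := by linarith)
    (IntegrableOn.congr_fun (hω.const_mul 2) (fun t ht => by rw [eω t ht]; ring)
      measurableSet_Ioc) I
  have eK : ∀ᵐ p ∂tm T, Wk l r p.1 p.2 * ⟪E p.1, q (E p.2)⟫ =
      (((l : ℝ) ^ 2 - 1) / l ^ 2 * (p.1 ^ (r + l) * p.2 ^ ((l : ℝ) - 2)) +
        ((l : ℝ) + 1) / l ^ 2 * (p.1 ^ (r + 2 * l) * p.2 ^ (-2 : ℝ))) *
          ⟪I + δ p.1, q (I + δ p.2)⟫ := by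
    filter_upwards [tm_ae T] with p hp
    rw [← Wk_eq hp.1.1 hp.2.1.1]
    conv_lhs => rw [eE _ hp.1.1, eE _ hp.2.1.1, map_smul, real_inner_smul_left,
      real_inner_smul_right]
    ring
  refine ⟨(tm_pair (u := fun t => I + δ t) iΩ (aestronglyMeasurable_const.add dm)
    (fun a ha => (norm_add_le _ _).trans (add_le_add_right (db a ha) _)) q).congr
      (EventuallyEq.symm eK), ?_⟩
  rw [integral_congr_ae eK, setIntegral_congr_fun measurableSet_Ioc eω, integral_const_mul,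
    setIntegral_congr_fun (g := fun a => a ^ r * thk l T a * a ^ l * ⟪δ a, q I⟫) measurableSet_Ioc
      fun t ht => by simp only [eD t ht.1, real_inner_smul_left]; ring,
    setIntegral_congr_fun (f := fun t => dk l r * t ^ (r - 1) * ⟪E t, q (E t)⟫)
      (g := fun c => 2 * dk l r * c ^ (r + 2 * l - 1) * (⟪I + δ c, q (I + δ c)⟫ / 2))
      measurableSet_Ioc fun t ht => by
        simp only
        conv_lhs => rw [eE _ ht.1, map_smul, real_inner_smul_left, real_inner_smul_right]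
        rw [pw t ht.1, Real.rpow_sub ht.1, Real.rpow_one]
        ring]
  rw [integral_const_mul, (rp_int (by linarith) hT).2, sub_add_cancel] at key
  simp only [Pi.add_apply] at key
  calc _ = -(2 * dk l r * (T ^ (r + 2 * l) / (r + 2 * l)) * ⟪I, q I⟫ / 2) -
        (∫ a in Ioc 0 T, a ^ r * thk l T a * a ^ l * ⟪δ a, q I⟫) -
        σ / 2 * ∫ a in Ioc 0 T, 2 * (a ^ r * ω a * (a ^ l) ^ 2) * ‖δ a‖ ^ 2 := by ring
    _ ≤ _ := key

end

end Pool.Agent.MP_29b5d3_an.GK
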