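import Pool.Agent.MP_29b5d3_an.GE.KV0

/-! PROJECT GE, odd dimension: the pointwise inequality at the front `1`. -/

set_option autoImplicit false
set_option linter.unusedSectionVars false

open MeasureTheory Set Filter Topology
open scoped RealInnerProductSpace

namespace Pool.Agent.MP_29b5d3_an.GK

section
variable {V : Type} [NormedAddCommGroup V] [InnerProductSpace ℝ V] {l : ℕ} {r η : ℝ} {E : ℝ → V}

theorem Wk_int (l : ℕ) {r : ℝ} (hr : 0 < r) :
    Integrable (fun p : ℝ × ℝ => Wk l r p.1 p.2) (tm 1) := by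
  have l0 : (0 : ℝ) ≤ l := Nat.cast_nonneg l
  have i1 := (pk_int (α := r) (β := -2) zero_le_one (by linarith) (by linarith)).1
  have i2 := (pk_int (α := r + l) (β := -((l + 2 : ℕ) : ℝ)) zero_le_one (by linarith)
    (by push_cast; linarith)).1
  refine ((i1.const_mul (((l : ℝ) ^ 2 - 1) / l ^ 2)).add
    (i2.const_mul (((l : ℝ) + 1) / l ^ 2))).congr ?_
  filter_upwards [tm_ae 1] with p hp
  simp only [Pi.add_apply, Wk]
  rw [Real.rpow_add hp.1.1, Real.rpow_neg hp.2.1.1.le, Real.rpow_neg hp.2.1.1.le,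
    Real.rpow_natCast, Real.rpow_natCast, Real.rpow_two]
  ring

theorem Br_lin (hr : 0 < r) (h : Adm l r 1 η E) (q q' : V →L[ℝ] V) (s : ℝ) :
    Br l r 1 (q + s • q') E = Br l r 1 q E + s * Br l r 1 q' E := by
  obtain ⟨M, -, -, hM⟩ := h.bd1
  have i1 : ∀ q : V →L[ℝ] V,
      IntegrableOn (fun t : ℝ => dk l r * t ^ (r - 1) * ⟪E t, q (E t)⟫) (Ioc 0 1) := fun q => by
    simpa only [mul_assoc, IntegrableOn] using (int_bd (s := r - 1) (by linarith)
      (h.meas.inner (q.continuous.comp_aestronglyMeasurable h.meas))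
      fun t ht => abs_inner_op (q := q) (hM t ht) (hM t ht)).const_mul (dk l r)
  have i2 := fun q : V →L[ℝ] V => tm_pair (Wk_int l hr) h.meas hM q
  have e : ∀ q : V →L[ℝ] V, ∫ a in Ioc (0 : ℝ) 1, ∫ c in Ioc a 1, Wk l r a c * ⟪E a, q (E c)⟫ =
      ∫ p, Wk l r p.1 p.2 * ⟪E p.1, q (E p.2)⟫ ∂tm 1 := fun q => (tm_int1 (i2 q)).2.symm
  rw [Br, Br, Br, e, e, e]
  simp only [add_apply, smul_apply, inner_add_right, real_inner_smul_right, mul_add,
    mul_left_comm _ s]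
  rw [integral_add (i1 q) ((i1 q').const_mul s), integral_add (i2 q) ((i2 q').const_mul s),
    integral_const_mul s, integral_const_mul s]
  ring

theorem lin_eq [CompleteSpace V] (hr : 0 < r) (h : Adm l r 1 η E) :
    ∃ (a : ℝ) (v w : V), ∀ P B : V,
      ∫ t in Ioc (0 : ℝ) 1, t ^ r * (‖E t‖ ^ 2 - ⟪P + bek l 1 t • B, E t⟫) =
        a - ⟪P, v⟫ - ⟪B, w⟫ := by
  obtain ⟨M, M0, -, hM⟩ := h.bd1
  have r1 : -1 < r := by linarith
  have top : MemLp E ⊤ (volume.restrict (Ioc 0 1)) := memLp_top_of_bound h.meas M (by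
    filter_upwards [ae_restrict_mem measurableSet_Ioc] with a ha using hM a ha)
  have i0 : IntegrableOn (fun t : ℝ => t ^ r * ‖E t‖ ^ 2) (Ioc 0 1) :=
    int_bd r1 (h.meas.norm.pow 2) (K := M ^ 2) fun t ht => by
      rw [abs_of_nonneg (sq_nonneg _)]
      exact pow_le_pow_left₀ (norm_nonneg _) (hM t ht) 2
  have i1 : IntegrableOn (fun t : ℝ => t ^ r • E t) (Ioc 0 1) :=
    Integrable.smul_of_top_left (rp_int r1 zero_le_one).1 top
  have i2 : IntegrableOn (fun t : ℝ => (t ^ r * bek l 1 t) • E t) (Ioc 0 1) := by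
    refine Integrable.smul_of_top_left (φ := fun t : ℝ => t ^ r * bek l 1 t) ?_ top
    refine (pl_int hr l (((l : ℝ) ^ 2 - 1) / l ^ 2) (1 / l ^ 2) 0).1.congr
      (Eventually.of_forall fun t => ?_)
    simp only [bek_one]
    ring
  refine ⟨∫ t in Ioc (0 : ℝ) 1, t ^ r * ‖E t‖ ^ 2, ∫ t in Ioc (0 : ℝ) 1, t ^ r • E t,
    ∫ t in Ioc (0 : ℝ) 1, (t ^ r * bek l 1 t) • E t, fun P B => ?_⟩
  rw [← integral_inner i1 P, ← integral_inner i2 B, ← integral_sub' i0 (i1.const_inner P),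
    ← integral_sub' (i0.sub (i1.const_inner P)) (i2.const_inner B)]
  refine integral_congr_ae (Eventually.of_forall fun t => ?_)
  simp only [Pi.sub_apply, inner_add_left, real_inner_smul_left, real_inner_smul_right]
  ring

end

theorem pow_cmp {a σ : ℝ} (a0 : 0 < a) (a1 : a ≤ 1) (h : a ≤ σ) {j n : ℕ} (hj : j ≤ n) :
    σ ^ j ≤ σ ^ n / a ^ n := by
  obtain ⟨k, rfl⟩ := Nat.exists_eq_add_of_le hj
  have := a0.trans_le h
  rw [le_div_iff₀ (by positivity), pow_add σ]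
  gcongr
  exact (pow_le_pow_of_le_one a0.le a1 (Nat.le_add_left k j)).trans (pow_le_pow_left₀ a0.le h k)

theorem one (vert : GB.VertStmt) (red : GB.RedStmt) : OneStmt := by
  intro l r j0 hl hr hj
  have l1 : (1 : ℝ) ≤ l := by exact_mod_cast hl
  have d0 := dk_pos hl hr
  have d1 := dk_le hl hr
  have d2 : 0 < 1 - dk l r := by nlinarith
  set p : ℝ := r + (2 * l + 1) with hp
  have p0 : 0 < p := by positivity
  set s0 : ℝ := 1 / (5 + p / r) with hs0
  have s1 : 0 < s0 := by positivity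
  have s2 : s0 ≤ 1 := by
    rw [hs0, div_le_one (by positivity)]
    linarith [div_pos p0 hr]
  set c1 : ℝ := (j0 - r / p) * ((1 - dk l r) * (l ^ 2 / (r * (r + l) ^ 2))) with hc1
  have j1 : 0 < j0 - r / p := sub_pos.2 hj
  have j2 : 0 < j0 := (div_pos hr p0).trans hj
  refine ⟨min (1 / 20 / p) c1, 1 / r + 5 / s0 ^ (2 * l + 1) / p, s0,
    lt_min (by positivity) (by positivity), by positivity, s1, s2, ?_⟩
  intro V _ _ _ a a' t P hO F η E h
  obtain ⟨aB, aJ, nb, vt⟩ := vert _ l V a a' t P hO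
  have sy : ∀ (G : GB.Mt (2 * l + 1)) x y, ⟪x, GB.qop t a G y⟫ = ⟪y, GB.qop t a G x⟫ :=
    fun G x y => by rw [← hO.symm, real_inner_comm]
  have cr := crude hl hr h (norm_nonneg F) (sy F) (hO.bd F) (P F) F.det (nb F).1
  have n0 := norm_nonneg F
  have dt := abs_le.1 (GE.det_le F)
  have c2 : -(‖F‖ ^ (2 * l + 1) / r) ≤ (1 - dk l r) / r * F.det := by
    rw [div_mul_eq_mul_div, ← neg_div]
    gcongr
    nlinarith [mul_le_mul_of_nonneg_left dt.1 d2.le, mul_nonneg d0.le (pow_nonneg n0 (2 * l + 1))]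
  have c3 : 1 - 2 * (‖F‖ ^ l + ‖F‖ ^ (l + 1)) - ‖F‖ ≤ 1 - ‖F‖ ^ l * (1 + ‖F‖) *
      ((2 * l + 1) / (l + 1)) - ‖F‖ * (1 / (2 * l) + 1 / (l + 1)) := by
    have a1 : (2 * (l : ℝ) + 1) / (l + 1) ≤ 2 := by rw [div_le_iff₀ (by positivity)]; linarith
    have a2 : 1 / (2 * (l : ℝ)) ≤ 1 / (2 * 1) := by gcongr
    have a3 : 1 / ((l : ℝ) + 1) ≤ 1 / (1 + 1) := by gcongr
    have a4 := mul_le_mul_of_nonneg_left a1 (show 0 ≤ ‖F‖ ^ l * (1 + ‖F‖) by positivity)
    have a5 := mul_le_mul_of_nonneg_left (add_le_add a2 a3) n0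
    rw [pow_succ]
    linarith
  have c4 := div_le_div_of_nonneg_right c3 p0.le
  have small : ‖F‖ ≤ s0 → -η ≤ LamC l r 1 F.det (GB.qop t a F) (P F) E := fun hs => by
    have pw : ∀ j, 1 ≤ j → ‖F‖ ^ j ≤ s0 := fun j hj => le_trans (by
      simpa using pow_le_pow_of_le_one n0 (hs.trans s2) hj) hs
    have a1 : ‖F‖ ^ (2 * l + 1) / r ≤ s0 / r := by gcongr; exact pw _ (by omega)
    have a2 : (1 - 5 * s0) / p ≤ (1 - 2 * (‖F‖ ^ l + ‖F‖ ^ (l + 1)) - ‖F‖) / p := by
      exact div_le_div_of_nonneg_right (by linarith [pw l hl, pw (l + 1) (by omega)]) p0.le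
    have a3 : (1 - 5 * s0) / p = s0 / r := by rw [hs0]; field_simp; ring
    linarith
  refine ⟨small, fun hs => ?_, fun hc => ?_⟩
  · have a2 : -(5 / s0 ^ (2 * l + 1) * ‖F‖ ^ (2 * l + 1)) / p ≤
        (1 - 2 * (‖F‖ ^ l + ‖F‖ ^ (l + 1)) - ‖F‖) / p := by
      gcongr
      have b1 := pow_cmp s1 s2 hs (show l ≤ 2 * l + 1 by omega)
      have b2 := pow_cmp s1 s2 hs (show l + 1 ≤ 2 * l + 1 by omega)
      have b3 := pow_cmp s1 s2 hs (show 1 ≤ 2 * l + 1 by omega)
      rw [pow_one] at b3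
      rw [div_mul_eq_mul_div, mul_div_assoc]
      linarith
    calc _ = -(‖F‖ ^ (2 * l + 1) / r) + -(5 / s0 ^ (2 * l + 1) * ‖F‖ ^ (2 * l + 1)) / p - η := by
          ring
      _ ≤ _ := by linarith
  have pn := pow_nonneg n0 (2 * l + 1)
  have J0 : 0 ≤ F.det := (mul_nonneg j2.le pn).trans hc
  rcases n0.eq_or_lt with z | σ0
  · rw [← z, zero_pow (by omega), mul_zero, zero_sub]
    exact small (z ▸ s1.le)
  by_cases hv : l = 1 ∨ 5 ≤ 2 * (2 * l + 1) * ‖F‖ ^ (l - 1)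
  swap
  · rw [not_or, not_le] at hv
    obtain ⟨k, rfl⟩ := Nat.exists_eq_add_of_le' hl
    rw [add_tsub_cancel_right] at hv
    push_cast at hv cr
    obtain ⟨a1, a2⟩ := sc_low (k := k) (by omega) n0 hv.2.le
    rw [← pow_succ'] at a2
    have a3 := div_le_div_of_nonneg_right a2 p0.le
    have a4 : 0 ≤ (1 - dk (k + 1) r) / r * F.det := by positivity
    have a5 : min (1 / 20 / p) c1 * ‖F‖ ^ (2 * (k + 1) + 1) ≤ 1 / 20 / p * 1 :=
      mul_le_mul (min_le_left _ _) (pow_le_one₀ n0 a1) pn (by positivity)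
    have e : p = r + (2 * ((k : ℝ) + 1) + 1) := by rw [hp]; push_cast; ring
    rw [← e] at cr
    linarith
  set σ := ‖F‖ with hσ
  have hd : 2 * dk l r ≤ σ ^ (l - 1) := by
    rcases hv with rfl | hv
    · norm_num at d1 ⊢
      linarith
    · have := mul_le_mul_of_nonneg_left hv d0.le
      have := mul_le_mul_of_nonneg_right d1 (pow_pos σ0 (l - 1)).le
      nlinarith
  obtain ⟨x, v, w, lin⟩ := lin_eq hr h
  have aff : GB.RkAff fun G => LamC l r 1 G.det (GB.qop t a G) (P G) E := fun G y z s => by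
    have e1 := aJ G y z s
    have e2 := aB G y z s
    have e3 := hO.affP G y z s
    have e4 := Br_lin hr h (GB.qop t a G) (GB.qop t a (GB.rk y z)) 1
    rw [one_smul, ← GB.qop_add] at e4
    simp only at e1 e2
    simp only [LamC, lin]
    rw [e1, e2, e3, e4, GB.qop_add t a G (s • _), GB.qop_smul, Br_lin hr h]
    simp only [inner_add_left, inner_sub_left, real_inner_smul_left, smul_eq_mul]
    ring
  have nq : ∀ G : GB.Mt (2 * l + 1), ‖G‖ ≤ 1 → ∀ x, ‖GB.qop t a (σ • G) x‖ ≤ σ * ‖x‖ :=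
    fun G hG x => (hO.bd _ x).trans (by
      rw [norm_smul, Real.norm_of_nonneg n0]
      exact mul_le_mul_of_nonneg_right (mul_le_of_le_one_right n0 hG) (norm_nonneg x))
  have ds : ∀ G : GB.Mt (2 * l + 1), (σ • G).det = σ * (σ ^ l) ^ 2 * G.det := fun G => by
    rw [← hO.det, ← hO.det, hO.hom, GB.qop_smul, smul_apply, map_smul, real_inner_smul_left,
      real_inner_smul_right, real_inner_smul_right]
    ring
  have key := red _ _ σ (Lst l r (σ * (σ ^ l) ^ 2) (σ ^ l) (σ * σ ^ l) σ - η) _ aff σ0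
    (fun R hR h1 => by
      simp only [ds, h1, mul_one, hO.hom]
      exact vI hl hr h n0 (sy _) (nq R (R.opNorm_le_bound zero_le_one fun v => by
        rw [hR v, one_mul])) (hO.iso R hR) (by rw [GB.qop_smul, smul_apply, (vt R hR h1).1]) hd _)
    (fun R hR h1 v hv1 => by
      obtain ⟨c1, c2, -, b1, b2, b3, b4, b5, b6, b7, b8⟩ := (vt R hR h1).2 v hv1
      simp only [ds, b8, mul_zero, hO.hom, b1]
      exact v0 hl hr h σ0 (sy _) (nq _ b7) b2 b3 b4 (by rw [GB.qop_smul, smul_apply, b5])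
        (by rw [GB.qop_smul, smul_apply, b6]) hv) F le_rfl J0
  have cb := comb hl hr σ (σ ^ l)
  have lo := lowI hl hr n0
  have en : σ * (σ ^ l) ^ 2 = σ ^ (2 * l + 1) := by ring
  rw [en] at key cb lo
  set LI := Lst l r (σ ^ (2 * l + 1)) (σ ^ l) (σ * σ ^ l) σ
  set j := F.det / σ ^ (2 * l + 1)
  have j3 : j0 ≤ j := by rwa [le_div_iff₀ (pow_pos σ0 _)]
  have L0 : 0 ≤ LI := le_trans (by positivity) lo
  refine le_trans ?_ key
  rw [← cb]
  have a1 : min (1 / 20 / p) c1 * σ ^ (2 * l + 1) ≤ (j0 - r / p) * LI :=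
    calc _ ≤ c1 * σ ^ (2 * l + 1) := mul_le_mul_of_nonneg_right (min_le_right _ _) pn
      _ = (j0 - r / p) * ((1 - dk l r) * (l ^ 2 / (r * (r + l) ^ 2)) * σ ^ (2 * l + 1)) := by
        rw [hc1]; ring
      _ ≤ _ := mul_le_mul_of_nonneg_left lo j1.le
  have a2 : j0 - r / p ≤ (j - r / p) * (p / (2 * l + 1)) :=
    le_trans (by linarith) (le_mul_of_one_le_right (by linarith) (by
      rw [one_le_div (by positivity)]; linarith))
  have a3 := mul_le_mul_of_nonneg_right a2 L0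
  refine le_trans (sub_le_sub_right (a1.trans a3) η) (le_of_eq ?_)
  rw [hp]
  field_simp
  ring

end Pool.Agent.MP_29b5d3_an.GK
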