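import Pool.Agent.MP_29b5d3_an.GE.KVtx

/-! PROJECT GE, odd dimension: scalar inequalities. -/

set_option autoImplicit false
set_option linter.unusedVariables false

open MeasureTheory Set

namespace Pool.Agent.MP_29b5d3_an.GK

/-- the critical combination of the two vertices -/
noncomputable def ph (d σ s : ℝ) : ℝ := (s - 1) * (σ * s - 1) - d * σ * (s - 1) ^ 2

theorem comb {l : ℕ} (hl : 1 ≤ l) {r : ℝ} (hr : 0 < r) (σ s : ℝ) :
    r * Lst l r (σ * s ^ 2) s (σ * s) σ + (2 * l + 1) * Lst l r 0 (s * ((l + 1) / (2 * l + 1)))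
      (σ * s * (l / (2 * l + 1))) (σ * (2 * l / (2 * l + 1))) = ph (dk l r) σ s := by
  have l1 : (0 : ℝ) < l := by exact_mod_cast hl
  rw [Lst, Lst, ph, dk_eq hl hr]
  field_simp
  ring

theorem lowI {l : ℕ} (hl : 1 ≤ l) {r σ : ℝ} (hr : 0 < r) (hσ : 0 ≤ σ) :
    (1 - dk l r) * (l ^ 2 / (r * (r + l) ^ 2)) * (σ * (σ ^ l) ^ 2) ≤
      Lst l r (σ * (σ ^ l) ^ 2) (σ ^ l) (σ * σ ^ l) σ := by
  have l1 : (1 : ℝ) ≤ l := by exact_mod_cast hl
  have d1 : 0 ≤ 1 - dk l r := by nlinarith [dk_le hl hr, dk_pos hl hr]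
  set s := σ ^ l with hs
  have i1 := pw_int hr l
  have i2 := pw_int hr (l + 1)
  have i3 := pw_int hr (l * 2)
  have i4 := pw_int hr (l * 2 + 1)
  have k : 0 ≤ σ * s / (r + l) - s / (r + l + 1) - σ / (r + 2 * l) + 1 / (r + (2 * l + 1)) := by
    have h := setIntegral_mono_on ((i2.1.const_mul s).add (i3.1.const_mul σ))
      ((i1.1.const_mul (σ * s)).add i4.1) measurableSet_Ioc fun t ht => by
        have : 0 ≤ (s - t ^ l) * (σ - t) := by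
          rcases le_total t σ with a | a
          · exact mul_nonneg (sub_nonneg.2 (pow_le_pow_left₀ ht.1.le a l)) (sub_nonneg.2 a)
          · exact mul_nonneg_of_nonpos_of_nonpos (sub_nonpos.2 (pow_le_pow_left₀ hσ a l))
              (sub_nonpos.2 a)
        have := mul_nonneg (mul_nonneg (Real.rpow_pos_of_pos ht.1 (r - 1)).le
          (pow_pos ht.1 l).le) this
        simp only [Pi.add_apply, pow_succ, pow_mul, pow_zero]
        linarith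
    rw [integral_add' (i2.1.const_mul s) (i3.1.const_mul σ),
      integral_add' (i1.1.const_mul (σ * s)) i4.1, integral_const_mul, integral_const_mul,
      integral_const_mul, i1.2, i2.2, i3.2, i4.2] at h
    push_cast at h
    rw [← add_assoc, mul_comm (l : ℝ) 2] at h
    simp only [mul_one_div] at h
    linarith
  have e : Lst l r (σ * s ^ 2) s (σ * s) σ =
      (1 - dk l r) * (l ^ 2 / (r * (r + l) ^ 2)) * (σ * s ^ 2) +
        (1 - dk l r) * σ * ((s * (r + 2 * l) - (r + l)) ^ 2 / ((r + l) ^ 2 * (r + 2 * l))) +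
        (σ * s / (r + l) - s / (r + l + 1) - σ / (r + 2 * l) + 1 / (r + (2 * l + 1))) := by
    rw [Lst, dk_eq hl hr]
    field_simp
    ring
  rw [e]
  have : 0 ≤ (1 - dk l r) * σ * ((s * (r + 2 * l) - (r + l)) ^ 2 / ((r + l) ^ 2 * (r + 2 * l))) := by
    positivity
  linarith

theorem am_w (w : ℝ) (h0 : 0 ≤ w) (h1 : w ≤ 1) (k : ℕ) :
    (k + 1) * w ^ k * (1 - w ^ 2) ≤ 1 - (w ^ (k + 1)) ^ 2 := by
  induction k with
  | zero => simp
  | succ k ih =>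
    have a := pow_le_one₀ h0 h1 (n := k + 1)
    have b := pow_le_one₀ h0 h1 (n := k + 1 + 1)
    have c := mul_nonneg (mul_nonneg (sub_nonneg.2 h1) (sub_nonneg.2 a)) (sub_nonneg.2 b)
    have d := mul_le_mul_of_nonneg_left ih h0
    push_cast
    simp only [pow_succ] at *
    nlinarith

theorem am_s {σ : ℝ} (h0 : 0 ≤ σ) (h1 : σ ≤ 1) (k : ℕ) :
    (k + 1) ^ 2 * σ ^ k * (1 - σ) ^ 2 ≤ (1 - σ ^ (k + 1)) ^ 2 := by
  obtain ⟨w, w0, rfl⟩ : ∃ w, 0 ≤ w ∧ σ = w ^ 2 := ⟨√σ, Real.sqrt_nonneg _, (Real.sq_sqrt h0).symm⟩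
  have w1 : w ≤ 1 := by nlinarith
  have := pow_le_pow_left₀ (mul_nonneg (by positivity) (sub_nonneg.2 h1)) (am_w w w0 w1 k) 2
  rw [← pow_mul, mul_comm 2 k, pow_mul, ← pow_mul w 2, mul_comm 2, pow_mul]
  linarith

theorem up_s {σ : ℝ} (h1 : 1 ≤ σ) (k : ℕ) : σ ^ (k + 1) - 1 ≤ (k + 1) * σ ^ k * (σ - 1) := by
  induction k with
  | zero => simp
  | succ k ih =>
    have a := one_le_pow₀ h1 (n := k + 1)
    have d := mul_le_mul_of_nonneg_left ih (zero_le_one.trans h1)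
    push_cast
    simp only [pow_succ] at *
    nlinarith

/-- large norm -/
theorem sc_big {L σ v b y d : ℝ} (hL : 1 ≤ L) (hσ : 1 ≤ σ) (hv : 1 ≤ v)
    (hu : σ * v - 1 ≤ L * v * (σ - 1)) (b0 : 0 ≤ b) (b1 : b * L ^ 2 ≤ 1) (y0 : 0 ≤ y) (y1 : y ≤ 1)
    (d0 : 0 ≤ d) (d1 : 3 * d ≤ 1) :
    (1 - b) * σ * (σ * v) / 3 ≤ (1 - b) * σ * (σ * v) - 2 * d * σ * y + σ * ((L + 1) * b) ∧
    (σ * v * (σ - 1) - b * σ * (σ * v - 1)) ^ 2 ≤
      2 * ((1 - b) * σ * (σ * v) / 3) * (3 / 2 * v * (σ - 1) ^ 2) := by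
  have s1 : 1 ≤ σ * v := by nlinarith
  have bl : b * L ≤ 1 := by nlinarith [mul_nonneg b0 (mul_nonneg (zero_le_one.trans hL) (sub_nonneg.2 hL))]
  have bb : b ≤ 1 := by nlinarith
  constructor
  · have h1 : 2 * d * y ≤ 2 / 3 := by nlinarith
    have h2 : 1 - b ≤ (1 - b) * (σ * v) := by nlinarith
    have h3 : 0 ≤ (1 - b) * (σ * v) * (2 / 3) - 2 * d * y + (L + 1) * b := by nlinarith
    nlinarith [mul_nonneg (zero_le_one.trans hσ) h3]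
  · have a1 : 0 ≤ σ * v * (σ - 1) - b * σ * (σ * v - 1) := by
      have h1 := mul_le_mul_of_nonneg_left hu b0
      have h2 := mul_le_mul_of_nonneg_right bl (mul_nonneg (zero_le_one.trans hv) (sub_nonneg.2 hσ))
      have h3 : b * (σ * v - 1) ≤ v * (σ - 1) := by linarith
      nlinarith [mul_le_mul_of_nonneg_left h3 (zero_le_one.trans hσ)]
    have a2 : σ * v * (σ - 1) - b * σ * (σ * v - 1) ≤ (1 - b) * (σ * v * (σ - 1)) := by
      nlinarith [mul_nonneg (mul_nonneg b0 (zero_le_one.trans hσ)) (sub_nonneg.2 hv)]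
    have a3 := pow_le_pow_left₀ a1 a2 2
    have a4 : (1 - b) ^ 2 ≤ 1 - b := by nlinarith
    have a5 := mul_le_mul_of_nonneg_right a4 (sq_nonneg (σ * v * (σ - 1)))
    calc _ ≤ _ := a3
      _ = _ := mul_pow _ _ _
      _ ≤ _ := a5
      _ = _ := by ring

theorem ph_big {σ v d : ℝ} (hσ : 1 ≤ σ) (hv : 1 ≤ v) (d1 : 3 * d ≤ 1) :
    3 / 2 * v * (σ - 1) ^ 2 ≤ ph d σ (σ * v) := by
  have a0 : 0 ≤ v * (σ - 1) := by nlinarith
  have a1 : v * (σ - 1) ≤ σ * v - 1 := by linarith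
  have a2 := pow_le_pow_left₀ a0 a1 2
  have a3 : v * (σ - 1) ^ 2 ≤ (v * (σ - 1)) ^ 2 := by nlinarith [sq_nonneg (σ - 1)]
  have a4 : (σ * v - 1) ^ 2 ≤ σ * (σ * v - 1) ^ 2 := by nlinarith [sq_nonneg (σ * v - 1)]
  have a5 := mul_le_mul_of_nonneg_right a1 (sub_nonneg.2 hσ)
  have a6 := mul_le_mul_of_nonneg_right d1 (show 0 ≤ σ * (σ * v - 1) ^ 2 by positivity)
  have a7 : 0 ≤ v * (σ - 1) ^ 2 := by positivity
  rw [ph]
  nlinarith

theorem ph_small {σ s d : ℝ} (h0 : 0 ≤ σ) (h1 : σ ≤ 1) (s0 : 0 ≤ s) (s1 : s ≤ 1) (d0 : 0 ≤ d) :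
    (1 - d) * (1 - s) ^ 2 ≤ ph d σ s := by
  rw [ph]
  nlinarith [mul_nonneg (mul_nonneg (sub_nonneg.2 s1) s0) (sub_nonneg.2 h1),
    mul_nonneg (mul_nonneg d0 (sub_nonneg.2 h1)) (sq_nonneg (1 - s))]

theorem ph_one {σ d : ℝ} (h0 : 0 ≤ σ) (h1 : σ ≤ 1) (d1 : 3 * d ≤ 1) :
    3 / 2 * σ * (1 - σ) ^ 2 ≤ ph d σ σ := by
  have : 0 ≤ 1 + σ - d * σ - 3 / 2 * σ := by nlinarith
  rw [ph]
  nlinarith [mul_nonneg this (sq_nonneg (1 - σ))]

theorem sc_one {x : ℝ} (x0 : 0 ≤ x) (x1 : x ≤ 1) :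
    x * (2 * (1 - x) ^ 2 + 1) ≤ 3 * min x (4 / 3 - x) := by
  rw [mul_min_of_nonneg _ _ (by norm_num : (0 : ℝ) ≤ 3)]
  have : (1 - x) ^ 2 ≤ 1 := by nlinarith
  refine le_min (by nlinarith) ?_
  have : x * (1 - x) ≤ 2 := by nlinarith
  nlinarith [mul_le_mul_of_nonneg_right this (sub_nonneg.2 x1)]

/-- the gain in the middle range -/
theorem sc_mid {L σ v : ℝ} (hL : 2 ≤ L) (h0 : 0 < σ) (h1 : σ ≤ 1) (hv : 5 ≤ 2 * (2 * L + 1) * v)
    (ham : L ^ 2 * v * (1 - σ) ^ 2 ≤ (1 - σ * v) ^ 2) :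
    5 / (2 * (σ * v)) * ((σ * (1 - σ * v) / L ^ 2) ^ 2 + (σ * v * (1 - σ)) ^ 2 * (L / (L + 1))) ≤
      4 / 5 * (1 - σ * v) ^ 2 := by
  have v0 : 0 < v := by nlinarith
  have a1 : 5 / (2 * (σ * v)) * (σ * (1 - σ * v) / L ^ 2) ^ 2 ≤ 5 / 16 * (1 - σ * v) ^ 2 := by
    have : 8 * σ ≤ v * L ^ 4 := by
      have h2 : 16 * (2 * L + 1) ≤ 5 * L ^ 4 := by
        have : 8 ≤ L ^ 3 := by nlinarith [sq_nonneg (L - 2)]
        nlinarith
      nlinarith [mul_le_mul_of_nonneg_left h2 v0.le]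
    rw [div_pow, div_mul_div_comm, div_le_iff₀ (by positivity)]
    nlinarith [mul_le_mul_of_nonneg_left this (show 0 ≤ σ * (1 - σ * v) ^ 2 by positivity)]
  have a2 : 5 / (2 * (σ * v)) * ((σ * v * (1 - σ)) ^ 2 * (L / (L + 1))) ≤
      5 / 12 * (1 - σ * v) ^ 2 := by
    have e : 5 / (2 * (σ * v)) * ((σ * v * (1 - σ)) ^ 2 * (L / (L + 1))) =
        5 / 2 * σ * (L ^ 2 * v * (1 - σ) ^ 2) / (L * (L + 1)) := by
      field_simp
    rw [e, div_le_iff₀ (by positivity)]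
    have h2 : 6 ≤ L * (L + 1) := by nlinarith
    have h3 := mul_le_mul h1 ham (by positivity) zero_le_one
    nlinarith [mul_le_mul_of_nonneg_left h2 (sq_nonneg (1 - σ * v))]
  nlinarith [sq_nonneg (1 - σ * v)]

/-- the small range -/
theorem sc_low {k : ℕ} {σ : ℝ} (hk : 1 ≤ k) (h0 : 0 ≤ σ)
    (hv : 2 * (2 * ((k : ℝ) + 1) + 1) * σ ^ k ≤ 5) :
    σ ≤ 1 ∧ 1 / 20 ≤ 1 - σ * σ ^ k * (1 + σ) * ((2 * ((k : ℝ) + 1) + 1) / (k + 1 + 1)) -
      σ * (1 / (2 * (k + 1)) + 1 / (k + 1 + 1)) := by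
  have k1 : (1 : ℝ) ≤ k := by exact_mod_cast hk
  have hb : ∀ a : ℝ, 0 ≤ a → 5 ≤ 2 * (2 * ((k : ℝ) + 1) + 1) * a ^ k → σ ≤ a := fun a a0 ha =>
    le_of_pow_le_pow_left₀ (n := k) (by omega) a0
      (le_of_mul_le_mul_left (hv.trans ha) (by positivity))
  have s1 : σ ≤ 1 := hb 1 zero_le_one (by rw [one_pow]; linarith)
  refine ⟨s1, ?_⟩
  have e : σ * σ ^ k * (1 + σ) * ((2 * ((k : ℝ) + 1) + 1) / (k + 1 + 1)) ≤
      σ * (1 + σ) * (5 / (2 * (k + 1 + 1))) := by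
    rw [← mul_div_assoc, ← mul_div_assoc, div_le_div_iff₀ (by positivity) (by positivity)]
    nlinarith [mul_le_mul_of_nonneg_left hv (show 0 ≤ σ * (1 + σ) * (k + 1 + 1) by positivity)]
  have m : ∀ a : ℝ, σ ≤ a → a * (1 + a) * (5 / (2 * ((k : ℝ) + 1 + 1))) +
      a * (1 / (2 * (k + 1)) + 1 / (k + 1 + 1)) ≤ 19 / 20 →
      1 / 20 ≤ 1 - σ * σ ^ k * (1 + σ) * ((2 * ((k : ℝ) + 1) + 1) / (k + 1 + 1)) -
        σ * (1 / (2 * (k + 1)) + 1 / (k + 1 + 1)) := fun a ha h => by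
    have a0 := h0.trans ha
    have : σ * (1 + σ) * (5 / (2 * ((k : ℝ) + 1 + 1))) + σ * (1 / (2 * (k + 1)) + 1 / (k + 1 + 1)) ≤
      a * (1 + a) * (5 / (2 * ((k : ℝ) + 1 + 1))) + a * (1 / (2 * (k + 1)) + 1 / (k + 1 + 1)) := by
      gcongr
    linarith
  rcases Nat.lt_or_ge k 5 with h | h
  · interval_cases k
    · exact m (1 / 2) (hb _ (by norm_num) (by norm_num)) (by norm_num)
    · exact m (3 / 5) (hb _ (by norm_num) (by norm_num)) (by norm_num)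
    · exact m (2 / 3) (hb _ (by norm_num) (by norm_num)) (by norm_num)
    · exact m (7 / 10) (hb _ (by norm_num) (by norm_num)) (by norm_num)
  · have k5 : (5 : ℝ) ≤ k := by exact_mod_cast h
    refine m 1 s1 ?_
    have a1 : 5 / (2 * ((k : ℝ) + 1 + 1)) ≤ 5 / (2 * (5 + 1 + 1)) := by gcongr
    have a2 : 1 / (2 * ((k : ℝ) + 1)) ≤ 1 / (2 * (5 + 1)) := by gcongr
    have a3 : 1 / ((k : ℝ) + 1 + 1) ≤ 1 / (5 + 1 + 1) := by gcongr
    norm_num at a1 a2 a3 ⊢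
    linarith

end Pool.Agent.MP_29b5d3_an.GK
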