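import Pool.Agent.MP_29b5d3_an.GE.KSca

/-! PROJECT GE, odd dimension: the two vertices. -/

set_option autoImplicit false
set_option linter.unusedSectionVars false

open MeasureTheory Set Filter Topology
open scoped RealInnerProductSpace

namespace Pool.Agent.MP_29b5d3_an.GK

variable {V : Type} [NormedAddCommGroup V] [InnerProductSpace ℝ V] [CompleteSpace V] {l : ℕ}
  {r η σ : ℝ} {E : ℝ → V} {q : V →L[ℝ] V}

theorem bb {l : ℕ} (hl : 1 ≤ l) {t : ℝ} (ht : t ∈ Ioc (0 : ℝ) 1) :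
    ∃ b : ℝ, 0 ≤ b ∧ b * l ^ 2 ≤ 1 ∧ b * l ^ 2 = 1 - t ^ l ∧ bek l 1 t = 1 - b ∧
      thk l 1 t = (l + 1) * b := by
  have l1 : (0 : ℝ) < l := by exact_mod_cast hl
  have x0 := pow_pos ht.1 l
  have x1 := pow_le_one₀ ht.1.le ht.2 (n := l)
  have e : (1 - t ^ l) / l ^ 2 * l ^ 2 = 1 - t ^ l := div_mul_cancel₀ _ (by positivity)
  refine ⟨(1 - t ^ l) / l ^ 2, div_nonneg (by linarith) (by positivity), by linarith, e, ?_, ?_⟩
  · rw [bek_one]; field_simp; ring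
  · rw [thk_one]; ring

theorem m_eq (l : ℕ) (σ s u t : ℝ) :
    ((l : ℝ) ^ 2 - 1) / l ^ 2 * (σ * s) + (l + 1) / l ^ 2 * σ + u +
      (σ * s / l ^ 2 - (l + 1) / l ^ 2 * σ) * t ^ l =
      bek l 1 t * (σ * s) + thk l 1 t * σ + u := by
  rw [bek_one, thk_one]; ring

theorem m_pos {l : ℕ} (hl : 1 ≤ l) {σ s u : ℝ} (h1 : 0 ≤ σ) (h2 : 0 ≤ s) (h3 : 0 ≤ u) :
    0 ≤ ((l : ℝ) ^ 2 - 1) / l ^ 2 * (σ * s) + (l + 1) / l ^ 2 * σ + u := by
  have l1 : (1 : ℝ) ≤ l := by exact_mod_cast hl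
  have : 0 ≤ (l : ℝ) ^ 2 - 1 := by nlinarith
  positivity

theorem vI (hl : 1 ≤ l) (hr : 0 < r) (h : Adm l r 1 η E) (hσ : 0 ≤ σ)
    (hq : ∀ x y, ⟪x, q y⟫ = ⟪y, q x⟫) (hb : ∀ x, ‖q x‖ ≤ σ * ‖x‖) {I : V} (hI : ‖I‖ = 1)
    (hqI : q I = σ • I) (hv : 2 * dk l r ≤ σ ^ (l - 1)) (J : ℝ) :
    Lst l r J (σ ^ l) (σ * σ ^ l) σ - η ≤ LamC l r 1 J q (σ ^ l • I) E := by
  have s0 := pow_nonneg hσ l
  have key := vtx hl hr h hσ hq hb hI (σ ^ l • I) J
    (m1 := σ * σ ^ l / l ^ 2 - (l + 1) / l ^ 2 * σ) (m_pos hl hσ s0 s0) le_rfl le_rfl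
    fun t ht => by
      obtain ⟨b, b0, b1, -, e1, e2⟩ := bb hl ht
      have l1 : (1 : ℝ) ≤ l := by exact_mod_cast hl
      have b2 : b ≤ 1 := by nlinarith [mul_nonneg b0 (show 0 ≤ (l : ℝ) ^ 2 - 1 by nlinarith)]
      have a1 := mul_nonneg (sub_nonneg.2 b2) (mul_nonneg hσ s0)
      have a2 : 0 ≤ (l + 1) * b * σ := by positivity
      have a3 : 2 * dk l r * σ * t ^ (l - 1) ≤ σ ^ l := by
        calc _ ≤ σ ^ (l - 1) * σ * 1 := by
              have := ht.1.le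
              gcongr
              exact pow_le_one₀ ht.1.le ht.2
          _ = _ := by rw [mul_one, ← pow_succ, Nat.sub_add_cancel hl]
      rw [m_eq]
      refine ⟨0, le_rfl, by rw [e1]; linarith, by rw [e1, e2]; linarith, le_of_eq ?_⟩
      have : σ ^ l • I + bek l 1 t • q (σ ^ l • I) + thk l 1 t • q I -
          (bek l 1 t * (σ * σ ^ l) + thk l 1 t * σ + σ ^ l) • I = 0 := by
        rw [map_smul, hqI]
        module
      rw [this]
      simp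
  simpa only [map_smul, hqI, real_inner_smul_left, real_inner_smul_right,
    real_inner_self_eq_norm_sq, hI, one_pow, mul_one, zero_div, sub_zero, mul_comm (σ ^ l) σ]
    using key

theorem v0 (hl : 1 ≤ l) (hr : 0 < r) (h : Adm l r 1 η E) (hσ : 0 < σ)
    (hq : ∀ x y, ⟪x, q y⟫ = ⟪y, q x⟫) (hb : ∀ x, ‖q x‖ ≤ σ * ‖x‖) {c1 c2 : V} (h12 : ⟪c1, c2⟫ = 0)
    (n1 : ‖c1‖ ^ 2 = (l + 1) / (2 * l + 1)) (n2 : ‖c2‖ ^ 2 = l / (2 * l + 1))
    (q1 : q c1 = σ • c2) (q2 : q c2 = σ • ((l : ℝ) / (l + 1)) • c1)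
    (hv : l = 1 ∨ 5 ≤ 2 * (2 * l + 1) * σ ^ (l - 1)) :
    Lst l r 0 (σ ^ l * ((l + 1) / (2 * l + 1))) (σ * σ ^ l * (l / (2 * l + 1)))
      (σ * (2 * l / (2 * l + 1))) - ph (dk l r) σ (σ ^ l) / (2 * l + 1) - η ≤
      LamC l r 1 0 q (σ ^ l • c1) E := by
  have l1 : (1 : ℝ) ≤ l := by exact_mod_cast hl
  have s0 := pow_pos hσ l
  have d0 := dk_pos hl hr
  have d1 := dk_le hl hr
  have d3 : 3 * dk l r ≤ 1 := by nlinarith
  have h21 : ⟪c2, c1⟫ = 0 := by rw [real_inner_comm, h12]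
  have nn : ∀ a b : ℝ, ‖a • c1 + b • c2‖ ^ 2 =
      a ^ 2 * ((l + 1) / (2 * l + 1)) + b ^ 2 * (l / (2 * l + 1)) := fun a b => by
    rw [norm_add_sq_real, real_inner_smul_left, real_inner_smul_right, h12, norm_smul, norm_smul,
      mul_pow, mul_pow, n1, n2, Real.norm_eq_abs, Real.norm_eq_abs, sq_abs, sq_abs]
    ring
  have hI : ‖c1 + c2‖ = 1 := by
    have := nn 1 1
    rw [one_smul, one_smul, one_pow, one_mul, one_mul, ← add_div] at this
    rw [← sq_eq_sq₀ (norm_nonneg _) zero_le_one, this, one_pow, div_eq_one_iff_eq (by positivity)]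
    ring
  have gen : ∀ u g0 g1 : ℝ, 0 ≤ u → 0 ≤ g0 → 0 ≤ g1 →
      g0 + g1 / (l + 1) ≤ ph (dk l r) σ (σ ^ l) / (2 * l + 1) →
      (∀ x y b : ℝ, 0 < x → x ≤ 1 → 0 ≤ y → y ≤ 1 → 0 ≤ b → b * l ^ 2 = 1 - x →
        ∃ D, 0 ≤ D ∧ D ≤ (1 - b) * (σ * σ ^ l) + u ∧
        D ≤ (1 - b) * (σ * σ ^ l) + (l + 1) * b * σ + u - 2 * dk l r * σ * y ∧
        x * ((σ ^ l * (1 - σ) - b * σ * (1 - σ ^ l) - u) ^ 2 * ((l + 1) / (2 * l + 1)) +
          u ^ 2 * (l / (2 * l + 1))) ≤ 2 * D * (g0 + g1 * x)) →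
      Lst l r 0 (σ ^ l * ((l + 1) / (2 * l + 1))) (σ * σ ^ l * (l / (2 * l + 1)))
        (σ * (2 * l / (2 * l + 1))) - ph (dk l r) σ (σ ^ l) / (2 * l + 1) - η ≤
        LamC l r 1 0 q (σ ^ l • c1) E := by
    intro u g0 g1 u0 g00 g10 hg pt
    have key := vtx hl hr h hσ.le hq hb hI (σ ^ l • c1) 0
      (m1 := σ * σ ^ l / l ^ 2 - (l + 1) / l ^ 2 * σ) (m_pos hl hσ.le s0.le u0) g00 g10
      fun t ht => by
        obtain ⟨b, b0, -, b1, e1, e2⟩ := bb hl ht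
        obtain ⟨D, D0, D1, D2, D3⟩ := pt (t ^ l) (t ^ (l - 1)) b (pow_pos ht.1 l)
          (pow_le_one₀ ht.1.le ht.2) (pow_nonneg ht.1.le _) (pow_le_one₀ ht.1.le ht.2) b0 b1
        rw [m_eq, e1, e2]
        refine ⟨D, D0, by linarith, D2, ?_⟩
        have : σ ^ l • c1 + (1 - b) • q (σ ^ l • c1) + ((l + 1) * b) • q (c1 + c2) -
            ((1 - b) * (σ * σ ^ l) + (l + 1) * b * σ + u) • (c1 + c2) =
            (σ ^ l * (1 - σ) - b * σ * (1 - σ ^ l) - u) • c1 + (-u) • c2 := by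
          rw [map_smul, map_add, q1, q2]
          match_scalars
          · field_simp
            ring
          · ring
        rw [this, nn, neg_sq]
        exact D3
    simp only [map_smul, map_add, q1, q2, inner_add_left, inner_add_right, real_inner_smul_left,
      real_inner_smul_right, real_inner_self_eq_norm_sq, h12, h21, n1, n2, mul_zero, add_zero,
      zero_add] at key
    have a1 : g0 / (r + 1) ≤ g0 := div_le_self g00 (by linarith)
    have a2 : g1 / (r + l + 1) ≤ g1 / (l + 1) := by gcongr; linarith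
    have e1 : σ ^ l * (σ * ((l : ℝ) / (2 * l + 1))) = σ * σ ^ l * (l / (2 * l + 1)) := by ring
    have e2 : σ * ((l : ℝ) / (2 * l + 1)) + σ * (l / (l + 1) * ((l + 1) / (2 * l + 1))) =
        σ * (2 * l / (2 * l + 1)) := by field_simp; ring
    rw [e1, e2] at key
    linarith
  obtain ⟨k, hk⟩ := Nat.exists_eq_add_of_le' hl
  have es : σ ^ l = σ * σ ^ k := by rw [hk, pow_succ']
  have el : (l : ℝ) = k + 1 := by rw [hk]; push_cast; ring
  rcases le_total 1 σ with h1 | h1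
  · have v1 := one_le_pow₀ h1 (n := k)
    refine gen 0 0 (3 / 2 * σ ^ k * (σ - 1) ^ 2 * ((l + 1) / (2 * l + 1))) le_rfl le_rfl
      (by positivity) ?_ fun x y b x0 x1 y0 y1 b0 b1 => ?_
    · rw [zero_add, es]
      calc _ = 3 / 2 * σ ^ k * (σ - 1) ^ 2 / (2 * l + 1) := by field_simp
        _ ≤ _ := by gcongr; exact ph_big h1 v1 d3
    · have hu := up_s h1 k
      rw [← hk, es, ← el] at hu
      obtain ⟨a1, a2⟩ := sc_big l1 h1 v1 hu b0 (by linarith) y0 y1 d0.le d3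
      have b2 : b ≤ 1 := by nlinarith [mul_nonneg b0 (show 0 ≤ (l : ℝ) ^ 2 - 1 by nlinarith)]
      have a0 : 0 ≤ (1 - b) * σ * (σ * σ ^ k) := mul_nonneg (mul_nonneg (by linarith) hσ.le)
        (by positivity)
      rw [es]
      refine ⟨(1 - b) * σ * (σ * σ ^ k) / 3, by linarith, by linarith, by linarith, ?_⟩
      have := mul_le_mul_of_nonneg_right a2
        (show 0 ≤ x * (((l : ℝ) + 1) / (2 * l + 1)) by positivity)
      linarith
  have s1 := pow_le_one₀ hσ.le h1 (n := l)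
  have u0 := mul_nonneg s0.le (sub_nonneg.2 h1)
  by_cases h2 : l = 1
  · subst h2
    refine gen _ (σ * (1 - σ) ^ 2 / 2) 0 u0 (by positivity) le_rfl ?_
      fun x y b x0 x1 y0 y1 b0 b1 => ?_
    · have := ph_one hσ.le h1 d3
      norm_num
      linarith
    · have a1 := sc_one x0.le x1
      have a2 := min_le_left x (4 / 3 - x)
      have a3 := min_le_right x (4 / 3 - x)
      have a4 : 0 ≤ min x (4 / 3 - x) := le_min x0.le (by linarith)
      have a5 : 2 * dk 1 r * y ≤ 2 / 3 := by nlinarith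
      simp only [Nat.cast_one, one_pow, mul_one, pow_one] at b1 ⊢
      subst b1
      have a6 := mul_nonneg (mul_nonneg hσ.le (sub_nonneg.2 h1)) (sub_nonneg.2 x1)
      refine ⟨σ * min x (4 / 3 - x), by positivity, ?_, ?_, ?_⟩
      · nlinarith [mul_le_mul_of_nonneg_left a2 hσ.le]
      · nlinarith [mul_le_mul_of_nonneg_left a3 hσ.le, mul_le_mul_of_nonneg_left a5 hσ.le]
      · have := mul_le_mul_of_nonneg_left a1 (show 0 ≤ (σ * (1 - σ)) ^ 2 / 3 by positivity)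
        norm_num
        linarith
  have hv' : 5 ≤ 2 * (2 * (l : ℝ) + 1) * σ ^ k := by
    have := hv.resolve_left h2
    rwa [show l - 1 = k by omega] at this
  have l2 : (2 : ℝ) ≤ l := by exact_mod_cast (show 2 ≤ l by omega)
  have ham := am_s hσ.le h1 k
  rw [← hk, es, ← el] at ham
  have hm := sc_mid l2 hσ h1 hv' ham
  rw [← es] at hm
  refine gen _ 0 (5 / (2 * σ ^ l) * ((σ * (1 - σ ^ l) / l ^ 2) ^ 2 +
    (σ ^ l * (1 - σ)) ^ 2 * (l / (l + 1))) * ((l + 1) / (2 * l + 1))) u0 le_rfl (by positivity) ?_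
    fun x y b x0 x1 y0 y1 b0 b1 => ?_
  · have a1 := ph_small hσ.le h1 s0.le s1 d0.le
    have a2 : 4 / 5 ≤ 1 - dk l r := by nlinarith
    have a3 := mul_le_mul_of_nonneg_right a2 (sq_nonneg (1 - σ ^ l))
    rw [zero_add, mul_div_assoc, div_div_cancel_left' (by positivity), ← div_eq_mul_inv]
    gcongr
    linarith
  · have b2 : b ≤ 1 / 4 := by nlinarith [mul_nonneg b0 (show 0 ≤ (l : ℝ) ^ 2 - 4 by nlinarith)]
    have a1 : 0 ≤ b * (σ ^ l * (1 - σ)) := mul_nonneg b0 u0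
    have a2 : 2 * dk l r * σ * y ≤ 4 / 5 * σ ^ l := by
      have : 2 * dk l r ≤ 4 / 5 * σ ^ k := by
        have := mul_le_mul_of_nonneg_left hv' d0.le
        have := mul_le_mul_of_nonneg_right d1 (pow_pos hσ k).le
        nlinarith
      calc _ ≤ 4 / 5 * σ ^ k * σ * 1 := by gcongr
        _ = _ := by rw [es]; ring
    have a3 : b * σ * σ ^ l ≤ (l + 1) * b * σ := by
      nlinarith [mul_nonneg b0 hσ.le]
    refine ⟨σ ^ l / 5, by positivity, by nlinarith, by linarith, ?_⟩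
    have a4 : b ≤ 1 / l ^ 2 := by rw [le_div_iff₀ (by positivity)]; linarith
    have a5 : (b * σ * (1 - σ ^ l)) ^ 2 ≤ (σ * (1 - σ ^ l) / l ^ 2) ^ 2 := by
      have := sub_nonneg.2 s1
      calc _ ≤ (1 / l ^ 2 * σ * (1 - σ ^ l)) ^ 2 := by gcongr
        _ = _ := by ring
    calc _ = x * ((b * σ * (1 - σ ^ l)) ^ 2 * ((l + 1) / (2 * l + 1)) +
          (σ ^ l * (1 - σ)) ^ 2 * (l / (2 * l + 1))) := by ring
      _ ≤ x * ((σ * (1 - σ ^ l) / l ^ 2) ^ 2 * ((l + 1) / (2 * l + 1)) +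
          (σ ^ l * (1 - σ)) ^ 2 * (l / (2 * l + 1))) := by gcongr
      _ = _ := by field_simp; ring

end Pool.Agent.MP_29b5d3_an.GK
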