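import Pool.Agent.MP_29b5d3_an.GE.KExp

/-! PROJECT GE, odd dimension: the crude bound and the bound near the aligned family. -/

set_option autoImplicit false
set_option linter.unusedSectionVars false

open MeasureTheory Set Filter Topology
open scoped RealInnerProductSpace

namespace Pool.Agent.MP_29b5d3_an.GK

theorem anti_w {l : ℕ} {m0 m1 : ℝ} (h : 0 ≤ m0) :
    AntitoneOn (fun t : ℝ => (m0 + m1 * t ^ l) / (2 * t ^ l)) (Ioc 0 1) := by
  intro a ha b hb hab
  have a0 := pow_pos ha.1 l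
  have b0 := pow_pos hb.1 l
  have := pow_le_pow_left₀ ha.1.le hab l
  simp only
  rw [div_le_div_iff₀ (by positivity) (by positivity)]
  nlinarith

theorem pow_le_self' {l : ℕ} (hl : 1 ≤ l) {t : ℝ} (ht : t ∈ Ioc (0 : ℝ) 1) : t ^ l ≤ t := by
  simpa using pow_le_pow_of_le_one ht.1.le ht.2 hl

theorem amgm {a b c : ℝ} (ha : 0 ≤ a) (hb : 0 ≤ b) (h : c ^ 2 ≤ 4 * a * b) : c ≤ a + b := by
  refine le_trans (le_abs_self c) (abs_le_of_sq_le_sq' ?_ (add_nonneg ha hb)).2
  rw [sq_abs]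
  nlinarith [sq_nonneg (a - b)]

/-- the value of the functional on the aligned family -/
noncomputable def Lst (l : ℕ) (r J p b q : ℝ) : ℝ :=
  (1 - dk l r) / r * J - dk l r / (r + 2 * l) * q -
    (p + ((l : ℝ) ^ 2 - 1) / l ^ 2 * b) / (r + l + 1) + (1 - b / l ^ 2) / (r + (2 * l + 1))

section
variable {V : Type} [NormedAddCommGroup V] [InnerProductSpace ℝ V] [CompleteSpace V] {l : ℕ}
  {r η σ : ℝ} {E : ℝ → V} {q : V →L[ℝ] V}

theorem crude (hl : 1 ≤ l) (hr : 0 < r) (h : Adm l r 1 η E) (hσ : 0 ≤ σ)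
    (hq : ∀ x y, ⟪x, q y⟫ = ⟪y, q x⟫) (hb : ∀ x, ‖q x‖ ≤ σ * ‖x‖) (P : V) (J : ℝ) {s : ℝ}
    (hP : ‖P‖ ≤ s) :
    (1 - dk l r) / r * J + (1 - s * (1 + σ) * ((2 * l + 1) / (l + 1)) -
      σ * (1 / (2 * l) + 1 / (l + 1))) / (r + (2 * l + 1)) - η ≤ LamC l r 1 J q P E := by
  have l1 : (1 : ℝ) ≤ l := by exact_mod_cast hl
  have d0 := dk_pos hl hr
  have s0 : 0 ≤ s := (norm_nonneg _).trans hP
  set A2 : ℝ := ((l : ℝ) + 1) / l ^ 2 with hA2
  have A0 : 0 < A2 := by positivity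
  set a : ℝ := s * (1 + σ) with ha
  have a0 : 0 ≤ a := by positivity
  have key := low hl hr h hq hb 0 P J
    (ω := fun t => (A2 + 2 * dk l r + -A2 * t ^ l) / (2 * t ^ l))
    (w := fun t => (a + σ * (A2 + 2 * dk l r) + -(σ * A2) * t ^ l) / (2 * t ^ l))
    (K := a + (σ + 1) * (A2 + 2 * dk l r)) (a := 0) (b := -(a + σ * (A2 / 2 + dk l r)))
    (c := 1 + σ * A2 / 2) (by fun_prop)
    (fun t ht => by
      have := pow_pos ht.1 l
      rw [thk_one]
      exact div_le_div_of_nonneg_right (by linarith) (by positivity))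
    (fun t ht => by
      have x0 := pow_pos ht.1 l
      have x1 := pow_le_one₀ ht.1.le ht.2 (n := l)
      have := pow_le_self' hl ht
      rw [div_le_div_iff₀ ht.1 (by positivity)]
      nlinarith [mul_nonneg (mul_nonneg A0.le (sub_nonneg.2 x1)) ht.1.le])
    (fun t ht => by
      have x0 := pow_pos ht.1 l
      rw [div_mul_eq_mul_div, mul_div_mul_right _ _ x0.ne']
      nlinarith [mul_pos A0 x0, mul_nonneg hσ A0.le, mul_nonneg hσ d0.le])
    (anti_w (by positivity))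
    (fun t ht => by
      have x0 := pow_pos ht.1 l
      have x1 := pow_le_one₀ ht.1.le ht.2 (n := l)
      refine div_nonneg ?_ (by positivity)
      nlinarith [mul_nonneg (mul_nonneg hσ A0.le) (sub_nonneg.2 x1), mul_nonneg hσ d0.le])
    (fun t ht => by
      have x0 := pow_pos ht.1 l
      rw [div_mul_eq_mul_div, mul_div_mul_right _ _ x0.ne']
      nlinarith [mul_nonneg (mul_nonneg hσ A0.le) x0.le, mul_nonneg hσ A0.le, mul_nonneg hσ d0.le])
    (fun t ht e => by
      have x0 := pow_pos ht.1 l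
      have x1 := pow_le_one₀ ht.1.le ht.2 (n := l)
      have b0 : 0 ≤ bek l 1 t := by
        rw [bek_one]
        have : 0 ≤ (l : ℝ) ^ 2 - 1 := by nlinarith
        positivity
      have b1 : bek l 1 t ≤ 1 := by
        rw [bek_one, ← add_div, div_le_one (by positivity)]
        linarith
      have n1 : ‖P + bek l 1 t • q P‖ ≤ a := by
        refine (norm_add_le _ _).trans ?_
        rw [norm_smul, Real.norm_of_nonneg b0]
        have := hb P
        have := mul_le_mul_of_nonneg_left hP hσ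
        nlinarith [norm_nonneg (q P)]
      have n2 := (real_inner_le_norm _ e).trans (mul_le_mul_of_nonneg_right n1 (norm_nonneg e))
      have n3 : a * ‖e‖ ≤ a * ‖e‖ ^ 2 / (2 * t ^ l) + a * t ^ l / 2 := by
        rw [div_add_div _ _ (by positivity) two_ne_zero, le_div_iff₀ (by positivity)]
        nlinarith [mul_nonneg a0 (sq_nonneg (‖e‖ - t ^ l))]
      simp only [smul_zero, sub_zero, map_zero, inner_zero_right, mul_zero]
      have e1 : (a + σ * (A2 + 2 * dk l r) + -(σ * A2) * t ^ l) / (2 * t ^ l) *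
          (‖e‖ ^ 2 - (t ^ l) ^ 2) - σ * ((A2 + 2 * dk l r + -A2 * t ^ l) / (2 * t ^ l) * ‖e‖ ^ 2) =
          a * ‖e‖ ^ 2 / (2 * t ^ l) -
            (a + σ * (A2 + 2 * dk l r) + -(σ * A2) * t ^ l) * t ^ l / 2 := by
        field_simp
        ring
      linarith)
  refine le_trans ?_ key
  simp only [map_zero, inner_zero_right, mul_zero, sub_zero, zero_div, zero_add]
  have p0 : 0 < r + (2 * l + 1) := by positivity
  obtain ⟨u, hu, u0, u1⟩ : ∃ u : ℝ, 1 / (r + l + 1) = (1 + u) / (r + (2 * l + 1)) ∧ 0 ≤ u ∧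
      u ≤ l / (l + 1) := by
    refine ⟨l / (r + l + 1), ?_, by positivity, by gcongr; linarith⟩
    field_simp
    ring
  have e2 : (2 * (l : ℝ) + 1) / (l + 1) = 1 + l / (l + 1) := by field_simp; ring
  have e3 : A2 / 2 * u ≤ 1 / (2 * l) := by
    calc _ ≤ A2 / 2 * (l / (l + 1)) := by gcongr
      _ = _ := by rw [hA2]; field_simp
  have e4 : dk l r * (1 + u) ≤ 1 / (l + 1) := by
    calc _ ≤ dk l r * ((2 * l + 1) / (l + 1)) := by rw [e2]; gcongr
      _ = dk l r * (2 * l + 1) / (l + 1) := by ring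
      _ ≤ _ := by gcongr; exact dk_le hl hr
  rw [e2, div_eq_mul_one_div _ (r + l + 1), hu, ← mul_div_assoc _ (1 + u), ← add_div]
  gcongr
  nlinarith [mul_le_mul_of_nonneg_left u1 a0, mul_le_mul_of_nonneg_left e3 hσ,
    mul_le_mul_of_nonneg_left e4 hσ]

theorem vtx (hl : 1 ≤ l) (hr : 0 < r) (h : Adm l r 1 η E) (hσ : 0 ≤ σ)
    (hq : ∀ x y, ⟪x, q y⟫ = ⟪y, q x⟫) (hb : ∀ x, ‖q x‖ ≤ σ * ‖x‖) {I : V} (hI : ‖I‖ = 1) (P : V)
    (J : ℝ) {m0 m1 g0 g1 : ℝ} (h0 : 0 ≤ m0) (hg0 : 0 ≤ g0) (hg1 : 0 ≤ g1)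
    (pt : ∀ t ∈ Ioc (0 : ℝ) 1, ∃ D, 0 ≤ D ∧ D ≤ m0 + m1 * t ^ l - σ * thk l 1 t ∧
      D ≤ m0 + m1 * t ^ l - 2 * dk l r * σ * t ^ (l - 1) ∧
      t ^ l * ‖P + bek l 1 t • q P + thk l 1 t • q I - (m0 + m1 * t ^ l) • I‖ ^ 2 ≤
        2 * D * (g0 + g1 * t ^ l)) :
    Lst l r J ⟪P, I⟫ ⟪q P, I⟫ ⟪I, q I⟫ - g0 / (r + 1) - g1 / (r + l + 1) - η ≤
      LamC l r 1 J q P E := by
  have l1 : (1 : ℝ) ≤ l := by exact_mod_cast hl
  have d0 := dk_pos hl hr
  have A0 : 0 < ((l : ℝ) + 1) / l ^ 2 := by positivity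
  have key := low hl hr h hq hb I P J (ω := fun t => max (thk l 1 t / (2 * t ^ l)) (dk l r / t))
    (w := fun t => (m0 + m1 * t ^ l) / (2 * t ^ l))
    (K := m0 + |m1| + ((l : ℝ) + 1) / l ^ 2 + dk l r) (a := -g0)
    (b := -(⟪P, I⟫ + ((l : ℝ) ^ 2 - 1) / l ^ 2 * ⟪q P, I⟫) - g1) (c := 1 - ⟪q P, I⟫ / l ^ 2)
    (by unfold thk; fun_prop) (fun t _ => le_max_left _ _) (fun t _ => le_max_right _ _)
    (fun t ht => by
      have x0 := pow_pos ht.1 l
      have := abs_nonneg m1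
      rw [max_mul_of_nonneg _ _ x0.le, div_mul_eq_mul_div, mul_div_mul_right _ _ x0.ne', thk_one]
      refine max_le (by nlinarith [mul_pos A0 x0]) ?_
      have : dk l r / t * t ^ l ≤ dk l r := by
        rw [div_mul_eq_mul_div, div_le_iff₀ ht.1]
        exact mul_le_mul_of_nonneg_left (pow_le_self' hl ht) d0.le
      linarith)
    (anti_w h0)
    (fun t ht => by
      obtain ⟨D, D0, -, D2, -⟩ := pt t ht
      have x0 := pow_pos ht.1 l
      have := pow_pos ht.1 (l - 1)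
      refine div_nonneg ?_ (by positivity)
      have : 0 ≤ 2 * dk l r * σ * t ^ (l - 1) := by positivity
      linarith)
    (fun t ht => by
      have x0 := pow_pos ht.1 l
      have x1 := pow_le_one₀ ht.1.le ht.2 (n := l)
      rw [div_mul_eq_mul_div, mul_div_mul_right _ _ x0.ne']
      nlinarith [le_abs_self m1, abs_nonneg m1])
    (fun t ht e => by
      obtain ⟨D, D0, D1, D2, D3⟩ := pt t ht
      have x0 := pow_pos ht.1 l
      obtain ⟨d, rfl⟩ : ∃ d, e = t ^ l • I + d := ⟨e - t ^ l • I, by abel⟩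
      have c1 : D / (2 * t ^ l) ≤ (m0 + m1 * t ^ l) / (2 * t ^ l) -
          σ * max (thk l 1 t / (2 * t ^ l)) (dk l r / t) := by
        have et : dk l r / t = 2 * dk l r * t ^ (l - 1) / (2 * t ^ l) := by
          obtain ⟨k, rfl⟩ := Nat.exists_eq_add_of_le' hl
          have := ht.1.ne'
          simp only [add_tsub_cancel_right]
          field_simp
          ring
        rw [et, max_div_div_right (by positivity), ← mul_div_assoc, ← sub_div]
        refine div_le_div_of_nonneg_right ?_ (by positivity)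
        rw [mul_max_of_nonneg _ _ hσ, le_sub_comm]
        exact max_le (by linarith) (by linarith)
      have c2 := mul_le_mul_of_nonneg_right c1 (sq_nonneg ‖d‖)
      have c3 := real_inner_le_norm
        (P + bek l 1 t • q P + thk l 1 t • q I - (m0 + m1 * t ^ l) • I) d
      have c4 : ‖P + bek l 1 t • q P + thk l 1 t • q I - (m0 + m1 * t ^ l) • I‖ * ‖d‖ ≤
          D / (2 * t ^ l) * ‖d‖ ^ 2 + (g0 + g1 * t ^ l) := by
        refine amgm (by positivity) (by positivity) ?_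
        rw [mul_pow]
        calc _ ≤ 2 * D * (g0 + g1 * t ^ l) / t ^ l * ‖d‖ ^ 2 := by
              gcongr
              rw [le_div_iff₀ x0]
              linarith
          _ = _ := by field_simp; ring
      have c5 : (m0 + m1 * t ^ l) / (2 * t ^ l) * (‖t ^ l • I + d‖ ^ 2 - (t ^ l) ^ 2) =
          (m0 + m1 * t ^ l) / (2 * t ^ l) * ‖d‖ ^ 2 + (m0 + m1 * t ^ l) * ⟪I, d⟫ := by
        rw [norm_add_sq_real, norm_smul, hI, real_inner_smul_left, Real.norm_of_nonneg x0.le]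
        field_simp
        ring
      rw [c5, add_sub_cancel_left, real_inner_comm (q I) d, inner_add_right, real_inner_smul_right,
        inner_add_left _ _ I, real_inner_smul_left, bek_one]
      rw [inner_sub_left, inner_add_left _ _ d, real_inner_smul_left, real_inner_smul_left,
        bek_one] at c3
      rw [bek_one] at c4
      have : (((l : ℝ) ^ 2 - 1) / l ^ 2 + t ^ l / l ^ 2) * ⟪q P, I⟫ =
        ((l : ℝ) ^ 2 - 1) / l ^ 2 * ⟪q P, I⟫ + t ^ l * (⟪q P, I⟫ / l ^ 2) := by ring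
      rw [this]
      linarith)
  refine le_trans (le_of_eq ?_) key
  rw [Lst]
  ring

end

end Pool.Agent.MP_29b5d3_an.GK
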