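import Mathlib.MeasureTheory.Integral.Prod
import Mathlib.MeasureTheory.Integral.IntervalIntegral.Basic
import Mathlib.MeasureTheory.Measure.Lebesgue.Basic
import Mathlib.MeasureTheory.Constructions.BorelSpace.Order
import Mathlib.MeasureTheory.Function.L2Space

/-! PROJECT GE, odd dimension: summation by parts for integrals and positive kernels. -/

set_option autoImplicit false

open MeasureTheory Set Filter Topology
open scoped RealInnerProductSpace

namespace Pool.Agent.MP_29b5d3_an.GK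

theorem abel {T : ℝ} {φ h : ℝ → ℝ} (hφ : IntegrableOn φ (Ioc 0 T)) (hh : AntitoneOn h (Ioc 0 T))
    (h0 : ∀ c ∈ Ioc 0 T, 0 ≤ h c) (hi : IntegrableOn (fun c => h c * φ c) (Ioc 0 T))
    (hS : ∀ u ∈ Icc 0 T, 0 ≤ ∫ c in Ioc 0 u, φ c) : 0 ≤ ∫ c in Ioc 0 T, h c * φ c := by
  classical
  have hm : AEMeasurable h (volume.restrict (Ioc 0 T)) :=
    aemeasurable_restrict_of_antitoneOn measurableSet_Ioc hh
  set F : ℝ → ℝ → ℝ := fun c y => if y < h c then φ c else 0 with hF
  have key : ∀ (c a : ℝ), 0 ≤ h c → ∫ y in Ioi (0 : ℝ), (if y < h c then a else 0) = h c * a := by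
    intro c a hc
    have : (fun y : ℝ => if y < h c then a else 0) = (Iio (h c)).indicator fun _ => a := by
      ext y; simp [indicator]
    rw [this, integral_indicator measurableSet_Iio, Measure.restrict_restrict measurableSet_Iio,
      setIntegral_const, inter_comm, Ioi_inter_Iio, Real.volume_real_Ioo_of_le hc]
    simp
  have hmeas : AEStronglyMeasurable (Function.uncurry F)
      ((volume.restrict (Ioc 0 T)).prod (volume.restrict (Ioi 0))) := by
    have a1 : AEStronglyMeasurable (fun p : ℝ × ℝ => φ p.1)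
        ((volume.restrict (Ioc 0 T)).prod (volume.restrict (Ioi 0))) := hφ.1.comp_fst
    have a2 : NullMeasurableSet {p : ℝ × ℝ | p.2 < h p.1}
        ((volume.restrict (Ioc 0 T)).prod (volume.restrict (Ioi 0))) :=
      nullMeasurableSet_lt measurable_snd.aemeasurable hm.comp_fst
    have := a1.indicator₀ a2
    convert this using 1
    ext p; simp [hF, indicator, Function.uncurry]
  have hint : Integrable (Function.uncurry F)
      ((volume.restrict (Ioc 0 T)).prod (volume.restrict (Ioi 0))) := by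
    rw [integrable_prod_iff hmeas]
    constructor
    · refine Eventually.of_forall fun c => ?_
      have : (fun y : ℝ => Function.uncurry F (c, y)) = (Iio (h c)).indicator fun _ => φ c := by
        ext y; simp [hF, indicator]
      rw [this, integrable_indicator_iff measurableSet_Iio, IntegrableOn,
        Measure.restrict_restrict measurableSet_Iio, inter_comm, Ioi_inter_Iio]
      exact integrableOn_const (by simp)
    · refine hi.norm.congr ?_
      filter_upwards [ae_restrict_mem measurableSet_Ioc] with c hc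
      have : (fun y : ℝ => ‖Function.uncurry F (c, y)‖) =
          fun y => if y < h c then ‖φ c‖ else 0 := by
        ext y; simp only [hF, Function.uncurry]; split_ifs <;> simp
      rw [this, key c _ (h0 c hc), norm_mul, Real.norm_of_nonneg (h0 c hc)]
  have e1 : ∫ c in Ioc 0 T, h c * φ c = ∫ c in Ioc 0 T, ∫ y in Ioi (0 : ℝ), F c y := by
    refine setIntegral_congr_fun measurableSet_Ioc fun c hc => ?_
    exact (key c _ (h0 c hc)).symm
  rw [e1, integral_integral_swap hint]
  refine setIntegral_nonneg measurableSet_Ioi fun y _ => ?_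
  -- the set where `y < h c` is an initial interval
  set A : Set ℝ := {c | c ∈ Ioc 0 T ∧ y < h c} with hA
  by_cases hne : A.Nonempty
  · have hb : BddAbove A := ⟨T, fun c hc => hc.1.2⟩
    set u := sSup A with hu
    obtain ⟨c0, hc0⟩ := hne
    have u0 : 0 < u := hc0.1.1.trans_le (le_csSup hb hc0)
    have uT : u ≤ T := csSup_le ⟨c0, hc0⟩ fun c hc => hc.1.2
    have e2 : ∫ c in Ioc 0 T, F c y = ∫ c in Ioc 0 T, (Iic u).indicator φ c := by
      refine setIntegral_congr_ae measurableSet_Ioc ?_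
      have : ∀ᵐ c : ℝ, c ≠ u := by simp [ae_iff]
      filter_upwards [this] with c hcu hc
      rcases lt_or_gt_of_ne hcu with a | a
      · obtain ⟨c', hc', b⟩ := exists_lt_of_lt_csSup ⟨c0, hc0⟩ a
        have : y < h c := hc'.2.trans_le (hh hc hc'.1 b.le)
        simp [hF, this, a.le]
      · have : ¬ y < h c := fun b => absurd (le_csSup hb ⟨hc, b⟩) (not_le.2 a)
        simp [hF, this, not_le.2 a]
    rw [e2, integral_indicator measurableSet_Iic, Measure.restrict_restrict measurableSet_Iic,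
      inter_comm, Ioc_inter_Iic, min_eq_right uT]
    exact hS u ⟨u0.le, uT⟩
  · refine setIntegral_nonneg measurableSet_Ioc fun c hc => ?_
    have : ¬ y < h c := fun b => hne ⟨c, hc, b⟩
    simp [hF, this]

section Psd

variable {V : Type} [NormedAddCommGroup V] [InnerProductSpace ℝ V] [CompleteSpace V]

/-- the square of a primitive -/
theorem tri {u : ℝ} {e : ℝ → V} (he : IntegrableOn e (Ioc 0 u)) (N : V →L[ℝ] V)
    (hN : ∀ x y, ⟪x, N y⟫ = ⟪y, N x⟫) :
    IntegrableOn (fun c => ⟪∫ a in Ioc 0 c, e a, N (e c)⟫) (Ioc 0 u) ∧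
    2 * ∫ c in Ioc 0 u, ⟪∫ a in Ioc 0 c, e a, N (e c)⟫ =
      ⟪∫ a in Ioc 0 u, e a, N (∫ a in Ioc 0 u, e a)⟫ := by
  classical
  set μ : Measure ℝ := volume.restrict (Ioc 0 u) with hμ
  set B : V →L[ℝ] V →L[ℝ] ℝ := (innerSL ℝ).bilinearComp (ContinuousLinearMap.id ℝ V) N with hB
  have Bv : ∀ x y, B x y = ⟪x, N y⟫ := fun x y => by simp [hB]
  have hp : Integrable (fun p : ℝ × ℝ => ⟪e p.2, N (e p.1)⟫) (μ.prod μ) := by
    have := (Integrable.op_fst_snd (op := fun x y : V => ⟪y, N x⟫) (by fun_prop)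
      ⟨‖N‖, fun x y => ?_⟩ he he)
    · exact this
    · calc ‖⟪y, N x⟫‖ ≤ ‖y‖ * ‖N x‖ := norm_inner_le_norm _ _
        _ ≤ ‖y‖ * (‖N‖ * ‖x‖) := by gcongr; exact N.le_opNorm x
        _ = ‖N‖ * ‖x‖ * ‖y‖ := by ring
  have m1 : MeasurableSet {p : ℝ × ℝ | p.2 ≤ p.1} := measurableSet_le measurable_snd measurable_fst
  have h1 := hp.indicator m1
  have inn : ∀ c ∈ Ioc 0 u, ∫ a, ({p : ℝ × ℝ | p.2 ≤ p.1}.indicator
      (fun p : ℝ × ℝ => ⟪e p.2, N (e p.1)⟫)) (c, a) ∂μ = ⟪∫ a in Ioc 0 c, e a, N (e c)⟫ := by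
    intro c hc
    have : (fun a => ({p : ℝ × ℝ | p.2 ≤ p.1}.indicator
      (fun p : ℝ × ℝ => ⟪e p.2, N (e p.1)⟫)) (c, a)) =
        (Iic c).indicator fun a => ⟪N (e c), e a⟫ := by
      ext a; simp [indicator, real_inner_comm]
    rw [this, integral_indicator measurableSet_Iic, hμ,
      Measure.restrict_restrict measurableSet_Iic, inter_comm, Ioc_inter_Iic, min_eq_right hc.2,
      integral_inner (he.mono_set (Ioc_subset_Ioc_right hc.2)), real_inner_comm]
  have i1 : IntegrableOn (fun c => ⟪∫ a in Ioc 0 c, e a, N (e c)⟫) (Ioc 0 u) :=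
    h1.integral_prod_left.congr (by
      filter_upwards [ae_restrict_mem measurableSet_Ioc] with c hc using inn c hc)
  refine ⟨i1, ?_⟩
  have e1 : ∫ c in Ioc 0 u, ⟪∫ a in Ioc 0 c, e a, N (e c)⟫ =
      ∫ p in {p : ℝ × ℝ | p.2 ≤ p.1}, ⟪e p.2, N (e p.1)⟫ ∂(μ.prod μ) := by
    rw [← integral_indicator m1, integral_prod _ h1]
    exact (setIntegral_congr_fun measurableSet_Ioc inn).symm
  have e2 : ∫ p in {p : ℝ × ℝ | p.2 ≤ p.1}ᶜ, ⟪e p.2, N (e p.1)⟫ ∂(μ.prod μ) =
      ∫ p in {p : ℝ × ℝ | p.2 ≤ p.1}, ⟪e p.2, N (e p.1)⟫ ∂(μ.prod μ) := by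
    rw [← integral_indicator m1, ← integral_indicator m1.compl, ← integral_prod_swap]
    refine integral_congr_ae ?_
    have : ∀ᵐ p ∂(μ.prod μ), p.1 ≠ p.2 := by
      have : MeasurableSet {p : ℝ × ℝ | p.1 ≠ p.2} :=
        (measurableSet_eq_fun measurable_fst measurable_snd).compl
      refine (Measure.ae_prod_iff_ae_ae this).2 (Eventually.of_forall fun c => ?_)
      refine ae_restrict_of_ae ?_
      simp [ae_iff]
    filter_upwards [this] with p hp
    rcases lt_or_gt_of_ne hp with a | a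
    · simp [indicator, a.le, not_le.2 a]
    · simp [indicator, a.le, not_le.2 a, hN]
  have e3 : ∫ p, ⟪e p.2, N (e p.1)⟫ ∂(μ.prod μ) =
      ⟪∫ a in Ioc 0 u, e a, N (∫ a in Ioc 0 u, e a)⟫ := by
    rw [integral_prod _ hp, ← N.integral_comp_comm he, ← integral_inner (N.integrable_comp he)]
    refine integral_congr_ae (Eventually.of_forall fun c => ?_)
    simp only [real_inner_comm (N (e c))]
    exact integral_inner he _
  rw [e1, ← e3, ← integral_add_compl m1 hp, e2, two_mul]

/-- the kernel `h (max a c)` is positive -/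
theorem psd {T : ℝ} {e : ℝ → V} {h : ℝ → ℝ} (he : IntegrableOn e (Ioc 0 T)) (N : V →L[ℝ] V)
    (hN : ∀ x y, ⟪x, N y⟫ = ⟪y, N x⟫) (hN0 : ∀ x, 0 ≤ ⟪x, N x⟫) (hh : AntitoneOn h (Ioc 0 T))
    (h0 : ∀ c ∈ Ioc 0 T, 0 ≤ h c)
    (hi : IntegrableOn (fun c => h c * ⟪∫ a in Ioc 0 c, e a, N (e c)⟫) (Ioc 0 T)) :
    0 ≤ ∫ c in Ioc 0 T, h c * ⟪∫ a in Ioc 0 c, e a, N (e c)⟫ := by
  refine abel (tri he N hN).1 hh h0 hi fun u hu => ?_
  have := (tri (he.mono_set (Ioc_subset_Ioc_right hu.2)) N hN).2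
  linarith [hN0 (∫ a in Ioc 0 u, e a)]

end Psd

end Pool.Agent.MP_29b5d3_an.GK
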