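import Pool.Agent.MP_29b5d3_an.GE.SpecO

/-! Moments of a geometric family, and two inequalities for powers. -/

set_option autoImplicit false

namespace Pool.Agent.MP_29b5d3_an.GO

open GB Finset

theorem mom_eq {k : ℕ} {τ ϱ : ℝ} {t g : ℕ → ℝ} (hτ : 1 < τ) (hϱ : 1 < ϱ) (h : Geo τ ϱ t g)
    (ht : t k = 1) (hg : g k = 1) (m : ℕ) :
    g 0 * t 0 ^ m = (ϱ * τ ^ m)⁻¹ ^ k ∧
      Z (k + 1) t g m = (1 - (ϱ * τ ^ m)⁻¹ ^ (k + 1)) * Zi τ ϱ m := by
  have h1 : 1 < ϱ * τ ^ m := one_lt_mul_of_lt_of_le hϱ (one_le_pow₀ hτ.le)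
  rw [Zi]
  have hw : (ϱ * τ ^ m)⁻¹ * (ϱ * τ ^ m) = 1 := inv_mul_cancel₀ (by positivity)
  have hl := inv_lt_one_of_one_lt₀ h1
  generalize (ϱ * τ ^ m)⁻¹ = w at hw hl ⊢
  have hs : ∀ i, g i * t i ^ m = w * (g (i + 1) * t (i + 1) ^ m) := fun i => by
    rw [h.gs, h.ts, mul_pow]
    linear_combination -(g i * t i ^ m) * hw
  have ha : ∀ j, g 0 * t 0 ^ m = w ^ j * (g j * t j ^ m) ∧
      (1 - w) * Z (j + 1) t g m = g j * t j ^ m - w * (g 0 * t 0 ^ m) := fun j => by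
    induction j with
    | zero => exact ⟨by simp, by rw [Z, sum_range_one]; ring⟩
    | succ j ih =>
      refine ⟨by rw [ih.1, hs j]; ring, ?_⟩
      rw [Z, sum_range_succ, ← Z]
      linear_combination ih.2 + hs j
  obtain ⟨h2, h3⟩ := ha k
  rw [ht, hg, one_pow, mul_one, mul_one] at h2
  rw [ht, hg, one_pow, mul_one, h2] at h3
  refine ⟨h2, ?_⟩
  rw [mul_one_div, eq_div_iff (by linarith)]
  linear_combination h3

theorem mom : MomStmt := by
  intro k τ ϱ t g hτ hϱ h ht hg m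
  have h1 : ∀ m : ℕ, 1 < ϱ * τ ^ m := fun m => one_lt_mul_of_lt_of_le hϱ (one_le_pow₀ hτ.le)
  have h0 : ∀ m : ℕ, 0 < (ϱ * τ ^ m)⁻¹ := fun m => inv_pos.2 (by linarith [h1 m])
  have hl : ∀ m : ℕ, (ϱ * τ ^ m)⁻¹ < 1 := fun m => inv_lt_one_of_one_lt₀ (h1 m)
  have hm : ∀ m m' : ℕ, m ≤ m' → (ϱ * τ ^ m')⁻¹ ≤ (ϱ * τ ^ m)⁻¹ := fun m m' e =>
    inv_anti₀ (by linarith [h1 m])
      (mul_le_mul_of_nonneg_left (pow_le_pow_right₀ hτ.le e) (by linarith))
  have hZ : ∀ m : ℕ, 0 < Zi τ ϱ m := fun m => one_div_pos.2 (by linarith [hl m])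
  have hp : (ϱ * τ ^ m)⁻¹ ^ (k + 1) ≤ (ϱ * τ ^ m)⁻¹ :=
    pow_le_of_le_one (h0 m).le (hl m).le k.succ_ne_zero
  have hq : (ϱ * τ ^ m)⁻¹ ^ (k + 1) ≤ g 0 := by
    have := (mom_eq hτ hϱ h ht hg 0).1
    rw [pow_zero, mul_one] at this
    rw [this]
    exact (pow_le_pow_of_le_one (h0 m).le (hl m).le k.le_succ).trans
      (pow_le_pow_left₀ (h0 m).le (hm 0 m m.zero_le) k)
  rw [(mom_eq hτ hϱ h ht hg m).2]
  refine ⟨?_, mul_le_of_le_one_left (hZ m).le (by linarith [pow_pos (h0 m) (k + 1)]),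
    mul_le_mul_of_nonneg_right (by linarith) (hZ m).le,
    one_div_le_one_div_of_le (by linarith [hl 0]) (by linarith [hm 0 m m.zero_le]), fun m' e => ?_⟩
  · rw [Zi, mul_one_div, one_le_div (by linarith [hl m])]
    linarith
  · rw [(mom_eq hτ hϱ h ht hg m').2, mul_assoc, mul_assoc, mul_comm (Zi τ ϱ m')]
    exact mul_le_mul_of_nonneg_right
      (by linarith [pow_le_pow_left₀ (h0 m').le (hm m m' e) (k + 1)]) (mul_pos (hZ m) (hZ m')).le

theorem amgm : AmgmStmt := by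
  intro l σ hσ
  refine ⟨?_, fun h1 => ?_⟩
  · rcases l with _ | n
    · simp
    obtain ⟨s, rfl⟩ : ∃ s : ℝ, σ = s ^ 2 := ⟨√σ, (Real.sq_sqrt hσ).symm⟩
    have h := sum_mul_sq_le_sq_mul_sq (range (n + 1)) (fun i => s ^ i) fun i => s ^ (n + 1 - 1 - i)
    rw [sum_range_reflect (fun i => (s ^ i) ^ 2), sum_congr rfl (g := fun _ => s ^ n)
      fun i hi => by
        rw [← pow_add]
        congr 1
        have := mem_range.1 hi
        omega] at h
    simp only [sum_const, card_range, nsmul_eq_mul, ← pow_mul, mul_comm _ 2] at h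
    simp only [pow_mul] at h
    rw [← mul_neg_geom_sum (s ^ 2) (n + 1)]
    have := mul_le_mul_of_nonneg_left h (mul_nonneg hσ (sq_nonneg (1 - s ^ 2)))
    linear_combination this
  · induction l with
    | zero => simp
    | succ l ih =>
      have : 0 ≤ l * σ ^ l * (σ - 1) ^ 2 := by positivity
      push_cast
      linear_combination ih + this

end Pool.Agent.MP_29b5d3_an.GO
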