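import Pool.Agent.MP_29b5d3_an.GE.AllA

/-! PROJECT GE, odd dimensions: value space, reduction to vertices, analysis for a family of
levels. -/

set_option autoImplicit false
set_option linter.unusedSectionVars false

open MeasureTheory Filter Topology Set
open scoped RealInnerProductSpace ContDiff

namespace Pool.Agent.MP_29b5d3_an.GB

open GA

noncomputable section

abbrev Mt (n : ℕ) : Type := Eu n →L[ℝ] Eu n

section Defs
variable {n : ℕ} {V : Type} [NormedAddCommGroup V] [InnerProductSpace ℝ V]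

/-- the operator `∑ F i j t i c j` -/
def qop (t c : Fin n → V →L[ℝ] V) (F : Mt n) : V →L[ℝ] V :=
  ∑ i, ∑ j, F (bs j) i • (t i).comp (c j)

/-- the rank one map `x ↦ ⟪v, x⟫ u` -/
def rk (u v : Eu n) : Mt n := (innerSL ℝ v).smulRight u

/-- linear isometries -/
def Iso (R : Mt n) : Prop := ∀ v, ‖R v‖ = ‖v‖

/-- affine along rank one lines -/
def RkAff {X : Type} [AddCommGroup X] [Module ℝ X] (Λ : Mt n → X) : Prop :=
  ∀ (F : Mt n) (u v : Eu n) (s : ℝ), Λ (F + s • rk u v) = Λ F + s • (Λ (F + rk u v) - Λ F)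

/-- fields with a potential that has first derivatives -/
def Exact (c : Fin n → V →L[ℝ] V) (E : L2 n V) : Prop :=
  ∃ (a : L2 n V) (D : Fin n → L2 n V), (∀ j, Dr tau (bs j) a (D j)) ∧ E = ∑ j, op (c j) (D j)

/-- the doubled Fock space -/
structure Fk (a a' c c' : Fin n → V →L[ℝ] V) (Ω : V) : Prop where
  ca : Car a a'
  cc : Car c c'
  x1 : ∀ i j x, a i (c j x) = -c j (a i x)
  x2 : ∀ i j x, a i (c' j x) = -c' j (a i x)
  va : ∀ i, a' i Ω = 0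
  vc : ∀ j, c' j Ω = 0
  n1 : ‖Ω‖ = 1

/-- the particle-hole operator -/
structure Star (a a' c c' : Fin n → V →L[ℝ] V) (Ω : V) (T : V →L[ℝ] V) : Prop where
  ta : ∀ i x, T (a i x) = -a' i (T x)
  tc : ∀ j x, T (c j x) = -c' j (T x)
  adj : ∀ x y, ⟪T x, y⟫ = (-1) ^ n * ⟪x, T y⟫
  iso : ∀ x, ‖T x‖ = ‖x‖
  top : (n.factorial : ℝ) • T Ω = (qop a c 1 ^ n) Ω

/-- the value space in dimension `n = 2 l + 1` -/
structure Od (l : ℕ) (c c' t : Fin n → V →L[ℝ] V) (P : Mt n → V) : Prop where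
  car : Car c c'
  int : ∀ i j x, t i (c j x) = c' j (t i x)
  symm : ∀ F x y, ⟪qop t c F x, y⟫ = ⟪x, qop t c F y⟫
  bd : ∀ F x, ‖qop t c F x‖ ≤ ‖F‖ * ‖x‖
  det : ∀ F, ⟪P F, qop t c F (P F)⟫ = F.det
  hom : ∀ (s : ℝ) F, P (s • F) = s ^ l • P F
  affP : RkAff P
  affB : ∀ F u v, qop t c (F + rk u v) (P (F + rk u v)) =
    qop t c F (P F) + ((l : ℝ) + 1) • qop t c (rk u v) (P F)
  iso : ∀ R, Iso R → ‖P R‖ = 1
  exact : ∀ f : Eu n → Eu n, Tst f → ∃ α : Eu n → V, Tst α ∧ ∀ y, dop c α y = P (fderiv ℝ f y)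

/-- the integrand for a family of levels -/
def Lam (N : ℕ) (γ μ : ℕ → ℝ) (κ : ℕ → ℕ → ℝ) (c0 J : ℝ) (q : V →L[ℝ] V) (P : V) (G : ℕ → V) : ℝ :=
  ∑ i ∈ Finset.range N, γ i * (‖G i‖ ^ 2 - ⟪P, G i⟫) + c0 * J +
    ∑ i ∈ Finset.range N, μ i * ⟪q P, G i⟫ +
    ∑ i ∈ Finset.range N, ∑ k ∈ Finset.range N, κ i k * ⟪q (G i), G k⟫

/-- a family in the cumulative body with front `k` -/
structure Front (N : ℕ) (γ ρ : ℕ → ℝ) (P : V) (G : ℕ → V) (k : ℕ) : Prop where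
  le : k ≤ N
  body : ∀ j ≤ N, ∑ i ∈ Finset.range j, γ i * ‖G i‖ ^ 2 ≤ ρ j
  tight : ∑ i ∈ Finset.range k, γ i * ‖G i‖ ^ 2 = ρ k
  above : ∀ i, k ≤ i → i < N → G i = P

theorem qop_apply (t c : Fin n → V →L[ℝ] V) (F : Mt n) (x : V) :
    qop t c F x = ∑ i, ∑ j, F (bs j) i • t i (c j x) := by
  simp [qop]

theorem qop_add (t c : Fin n → V →L[ℝ] V) (F G : Mt n) :
    qop t c (F + G) = qop t c F + qop t c G := by
  simp [qop, add_smul, Finset.sum_add_distrib]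

theorem qop_smul (t c : Fin n → V →L[ℝ] V) (s : ℝ) (F : Mt n) :
    qop t c (s • F) = s • qop t c F := by
  simp [qop, Finset.smul_sum, mul_smul]

theorem continuous_qop (t c : Fin n → V →L[ℝ] V) : Continuous (qop t c) := by
  unfold qop
  fun_prop

theorem rk_apply (u v x : Eu n) : rk u v x = ⟪v, x⟫ • u := rfl

theorem exact_tl {c : Fin n → V →L[ℝ] V} [FiniteDimensional ℝ V] {α : Eu n → V} (h : Tst α) :
    Exact c (tl (dop c α)) :=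
  ⟨tl α, fun j => tl (pd j α), fun j => (tst n V).2.1 α j h, or_tl_dop c h⟩

end Defs

end

/-! ### Algebra -/

/-- FK: the doubled Fock space exists -/
def FkStmt : Prop :=
  ∀ n : ℕ, ∃ (V : Type) (_ : NormedAddCommGroup V) (_ : InnerProductSpace ℝ V)
    (_ : FiniteDimensional ℝ V) (a a' c c' : Fin n → V →L[ℝ] V) (Ω : V), Fk a a' c c' Ω

/-- STAR: the particle-hole operator exists -/
def StarStmt : Prop :=
  ∀ (n : ℕ) (V : Type) [NormedAddCommGroup V] [InnerProductSpace ℝ V]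
    (a a' c c' : Fin n → V →L[ℝ] V) (Ω : V), Fk a a' c c' Ω → ∃ T, Star a a' c c' Ω T

/-- COMM: pair operators commute, rank one pair operators have square zero -/
def CommStmt : Prop :=
  ∀ (n : ℕ) (V : Type) [NormedAddCommGroup V] [InnerProductSpace ℝ V]
    (a a' c c' : Fin n → V →L[ℝ] V) (Ω : V), Fk a a' c c' Ω →
    (∀ F G, qop a c F * qop a c G = qop a c G * qop a c F) ∧
    (∀ u v, qop a c (rk u v) * qop a c (rk u v) = 0) ∧
    ∀ F u v (k : ℕ), qop a c (F + rk u v) ^ (k + 1) =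
      qop a c F ^ (k + 1) + ((k : ℝ) + 1) • (qop a c (rk u v) * qop a c F ^ k)

/-- SL2: the norm of the powers of the pair operator of an isometry -/
def Sl2Stmt : Prop :=
  ∀ (n : ℕ) (V : Type) [NormedAddCommGroup V] [InnerProductSpace ℝ V]
    (a a' c c' : Fin n → V →L[ℝ] V) (Ω : V), Fk a a' c c' Ω → ∀ R : Mt n, Iso R → ∀ k : ℕ,
    ‖(qop a c R ^ k) Ω‖ ^ 2 = (k.factorial : ℝ) ^ 2 * n.choose k

/-- XDET: the top power is the determinant -/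
def XdetStmt : Prop :=
  ∀ (n : ℕ) (V : Type) [NormedAddCommGroup V] [InnerProductSpace ℝ V]
    (a a' c c' : Fin n → V →L[ℝ] V) (Ω : V), Fk a a' c c' Ω → ∀ F : Mt n,
    (qop a c F ^ n) Ω = F.det • (qop a c 1 ^ n) Ω

/-- XBD: the norm of the pair operator -/
def XbdStmt : Prop :=
  ∀ (n : ℕ) (V : Type) [NormedAddCommGroup V] [InnerProductSpace ℝ V] [FiniteDimensional ℝ V]
    (a a' c c' : Fin n → V →L[ℝ] V) (Ω : V), Fk a a' c c' Ω → ∀ (F : Mt n) (x : V),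
    ‖qop a c F x‖ ≤ ((n : ℝ) + 1) / 2 * ‖F‖ * ‖x‖

/-- XFORM: the powers of the pair operator of a differential are exact -/
def XformStmt : Prop :=
  ∀ (n : ℕ) (V : Type) [NormedAddCommGroup V] [InnerProductSpace ℝ V]
    (a a' c c' : Fin n → V →L[ℝ] V) (Ω : V), Fk a a' c c' Ω → ∀ f : Eu n → Eu n, Tst f →
    ∀ k : ℕ, ∃ α : Eu n → V, Tst α ∧ ∀ y, dop c α y = (qop a c (fderiv ℝ f y) ^ (k + 1)) Ω

/-- OD: the value space exists -/
def OdStmt : Prop :=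
  ∀ l : ℕ, 1 ≤ l → ∃ (V : Type) (_ : NormedAddCommGroup V) (_ : InnerProductSpace ℝ V)
    (_ : FiniteDimensional ℝ V) (c c' t : Fin (2 * l + 1) → V →L[ℝ] V) (P : Mt (2 * l + 1) → V),
    Od l c c' t P

/-- VERT: bounds and the two vertices -/
def VertStmt : Prop :=
  ∀ (n l : ℕ) (V : Type) [NormedAddCommGroup V] [InnerProductSpace ℝ V]
    (c c' t : Fin n → V →L[ℝ] V) (P : Mt n → V), Od l c c' t P →
    (RkAff fun F => qop t c F (P F)) ∧ (RkAff fun F : Mt n => F.det) ∧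
    (∀ F, ‖P F‖ ≤ ‖F‖ ^ l ∧ ‖qop t c F (P F)‖ ≤ ‖F‖ ^ (l + 1)) ∧
    ∀ R, Iso R → R.det = 1 → qop t c R (P R) = P R ∧ ∀ v : Eu n, ‖v‖ = 1 →
      ∃ c1 c2 : V, P R = c1 + c2 ∧ P (R - rk (R v) v) = c1 ∧ ⟪c1, c2⟫ = 0 ∧
        ‖c1‖ ^ 2 = (l + 1) / (2 * l + 1) ∧ ‖c2‖ ^ 2 = l / (2 * l + 1) ∧
        qop t c (R - rk (R v) v) c1 = c2 ∧
        qop t c (R - rk (R v) v) c2 = ((l : ℝ) / (l + 1)) • c1 ∧
        ‖R - rk (R v) v‖ ≤ 1 ∧ (R - rk (R v) v).det = 0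

/-- RED: reduction to the two vertices -/
def RedStmt : Prop :=
  ∀ (n : ℕ) (Λ : Mt n → ℝ) (σ mI m0 : ℝ), RkAff Λ → 0 < σ →
    (∀ R, Iso R → R.det = 1 → mI ≤ Λ (σ • R)) →
    (∀ R, Iso R → R.det = 1 → ∀ v : Eu n, ‖v‖ = 1 → m0 ≤ Λ (σ • (R - rk (R v) v))) →
    ∀ F : Mt n, ‖F‖ ≤ σ → 0 ≤ F.det → F.det / σ ^ n * mI + (1 - F.det / σ ^ n) * m0 ≤ Λ F

/-! ### Analysis -/

/-- MUL: multiplication by a test function -/
def MulStmt : Prop :=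
  ∀ (n : ℕ) (V : Type) [NormedAddCommGroup V] [InnerProductSpace ℝ V] [FiniteDimensional ℝ V],
    ∃ m : (Eu n → ℝ) → L2 n V →L[ℝ] L2 n V,
      (∀ φ, Tst φ → ∀ u, ∀ᵐ x, m φ u x = φ x • u x) ∧
      ∀ φ, Tst φ → ∀ j u w, Dr tau (bs j) u w → Dr tau (bs j) (m φ u) (m (pd j φ) u + m φ w)

/-- NULL: the null Lagrangian with a differential as coefficient -/
def NullStmt : Prop :=
  ∀ (n : ℕ) (V : Type) [NormedAddCommGroup V] [InnerProductSpace ℝ V] [FiniteDimensional ℝ V]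
    (c c' t : Fin n → V →L[ℝ] V) (f : Eu n → Eu n) (E E' : L2 n V), Car c c' →
    (∀ i j x, t i (c j x) = c' j (t i x)) → Tst f → Exact c E → Exact c E' →
    ∫ x, ⟪qop t c (fderiv ℝ f x) (E x), E' x⟫ = 0

/-- PROJC: projection of an exact field among exact fields -/
def ProjCStmt : Prop :=
  ∀ (n : ℕ) (V : Type) [NormedAddCommGroup V] [InnerProductSpace ℝ V] [FiniteDimensional ℝ V]
    (c c' : Fin n → V →L[ℝ] V) (K : Set V) (P : L2 n V) (η : ℝ), Car c c' → IsClosed K →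
    Convex ℝ K → 0 ∈ K → Exact c P → 0 < η →
    ∃ G E ψ : L2 n V, Exact c E ∧ ‖G - E‖ ≤ η ∧ ‖E‖ ≤ ‖P‖ ∧ ⟪E, E - P⟫ ≤ 0 ∧
      (∀ᵐ x, G x ∈ K ∧ ∀ k ∈ K, ⟪ψ x, k - G x⟫ ≤ 0) ∧
      ∀ π : V →L[ℝ] V, (∀ j x, π (c j x) = c j (π x)) → (∀ j x, π (c' j x) = c' j (π x)) →
        ∀ᵐ x, π (ψ x) = 0 → π (G x) = π (P x)

/-- ODD0: the inequality for one field and a quadratic null Lagrangian -/
def Odd0Stmt : Prop :=
  ∀ (n : ℕ) (V ι : Type) [NormedAddCommGroup V] [InnerProductSpace ℝ V] [FiniteDimensional ℝ V]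
    [Countable ι] (c c' t1 t2 : Fin n → V →L[ℝ] V) (K : Set V) (π : ι → V →L[ℝ] V)
    (f : Eu n → Eu n) (α : Eu n → V) (Θ : Eu n → ℝ), Car c c' →
    (∀ i j x, t1 i (c j x) = c' j (t1 i x)) → (∀ i j x, t2 i (c j x) = c' j (t2 i x)) →
    (∀ i j x, π i (c j x) = c j (π i x)) → (∀ i j x, π i (c' j x) = c' j (π i x)) →
    IsClosed K → Convex ℝ K → 0 ∈ K → Tst f → Tst α → Integrable Θ →
    (∀ y, ∀ G ∈ K, ∀ ψ, (∀ k ∈ K, ⟪ψ, k - G⟫ ≤ 0) → (∀ i, π i ψ = 0 → π i G = π i (dop c α y)) →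
      Θ y ≤ ⟪G, G - dop c α y⟫ + ⟪qop t1 c (fderiv ℝ f y) G, G⟫ +
        ⟪qop t2 c (fderiv ℝ f y) (dop c α y), G⟫) → ∫ y, Θ y ≤ 0

/-- ODDA: the inequality for a finite family of levels in the cumulative body -/
def OddAStmt : Prop :=
  ∀ (n l : ℕ) (V : Type) [NormedAddCommGroup V] [InnerProductSpace ℝ V] [FiniteDimensional ℝ V]
    (c c' t : Fin n → V →L[ℝ] V) (P : Mt n → V) (N : ℕ) (γ ρ μ : ℕ → ℝ) (κ : ℕ → ℕ → ℝ) (c0 : ℝ)
    (f : Eu n → Eu n) (Θ : Eu n → ℝ), Od l c c' t P → (∀ i, 0 < γ i) → ρ 0 = 0 →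
    (∀ j, 0 ≤ ρ j) → Tst f → Integrable Θ →
    (∀ y G k, Front N γ ρ (P (fderiv ℝ f y)) G k → Θ y ≤ Lam N γ μ κ c0 (fderiv ℝ f y).det
      (qop t c (fderiv ℝ f y)) (P (fderiv ℝ f y)) G) → ∫ y, Θ y ≤ 0

end Pool.Agent.MP_29b5d3_an.GB
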