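import Pool.Agent.MP_29b5d3_an.GE.Brk32
import Pool.Agent.MP_29b5d3_an.GE.BFam

/-! PROJECT GE, odd dimension: the functional for a continuum of levels; statements. -/

set_option autoImplicit false

open MeasureTheory Set Filter Topology
open scoped RealInnerProductSpace

namespace Pool.Agent.MP_29b5d3_an.GK

section
variable {V : Type} [NormedAddCommGroup V] [InnerProductSpace ℝ V]

/-- the tail of the kernel -/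
noncomputable def bek (l : ℕ) (T a : ℝ) : ℝ :=
  ((l : ℝ) ^ 2 - 1) / l ^ 2 / T + a ^ l / (l ^ 2 * T ^ (l + 1))

/-- the quadratic part -/
noncomputable def Br (l : ℕ) (r T : ℝ) (q : V →L[ℝ] V) (E : ℝ → V) : ℝ :=
  (∫ t in Ioc 0 T, dk l r * t ^ (r - 1) * ⟪E t, q (E t)⟫) -
    ∫ a in Ioc 0 T, ∫ c in Ioc a T, Wk l r a c * ⟪E a, q (E c)⟫

/-- the functional with front `T` -/
noncomputable def LamC (l : ℕ) (r T J : ℝ) (q : V →L[ℝ] V) (P : V) (E : ℝ → V) : ℝ :=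
  (1 - dk l r) / r * T ^ r * J +
    (∫ t in Ioc 0 T, t ^ r * (‖E t‖ ^ 2 - ⟪P + bek l T t • q P, E t⟫)) + Br l r T q E

/-- admissible families with defect `η` at the front -/
structure Adm (l : ℕ) (r T η : ℝ) (E : ℝ → V) : Prop where
  meas : AEStronglyMeasurable E (volume.restrict (Ioc 0 T))
  bd : ∃ M, ∀ t ∈ Ioc 0 T, ‖E t‖ ≤ M * t ^ l
  body : ∀ u ∈ Icc 0 T, ∫ t in Ioc 0 u, t ^ r * (‖E t‖ ^ 2 - (t ^ l) ^ 2) ≤ 0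
  tight : -η ≤ ∫ t in Ioc 0 T, t ^ r * (‖E t‖ ^ 2 - (t ^ l) ^ 2)

end

/-- DROP: the levels above the front drop out -/
def DropStmt : Prop :=
  ∀ (l : ℕ) (r T Tm M : ℝ) (V : Type) [NormedAddCommGroup V] [InnerProductSpace ℝ V]
    [FiniteDimensional ℝ V] (q : V →L[ℝ] V) (P : V) (E : ℝ → V), 1 ≤ l → 0 < r → 0 < T → T ≤ Tm →
    AEStronglyMeasurable E (volume.restrict (Ioc 0 Tm)) → (∀ t ∈ Ioc 0 Tm, ‖E t‖ ≤ M * t ^ l) →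
    (∀ t ∈ Ioc T Tm, E t = P) → LamC l r Tm ⟪P, q P⟫ q P E = LamC l r T ⟪P, q P⟫ q P E

/-- STEP: a finite family of levels is a step family -/
def StepStmt : Prop :=
  ∀ (l : ℕ) (r Tm η : ℝ), 1 ≤ l → 0 < r → 0 < Tm → 0 < η →
    ∃ (N : ℕ) (γ ρ μ : ℕ → ℝ) (κ : ℕ → ℕ → ℝ) (c0 : ℝ), (∀ i, 0 < γ i) ∧ ρ 0 = 0 ∧ (∀ j, 0 ≤ ρ j) ∧
      ∀ (V : Type) [NormedAddCommGroup V] [InnerProductSpace ℝ V] [FiniteDimensional ℝ V]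
        (q : V →L[ℝ] V) (P : V) (G : ℕ → V) (k : ℕ), (∀ x y, ⟪x, q y⟫ = ⟪y, q x⟫) →
        GB.Front N γ ρ P G k → ∃ (T : ℝ) (E : ℝ → V), 0 < T ∧ T ≤ Tm ∧ Adm l r T η E ∧
          (T = Tm ∨ ‖P‖ ≤ T ^ l) ∧ GB.Lam N γ μ κ c0 ⟪P, q P⟫ q P G = LamC l r T ⟪P, q P⟫ q P E

/-- SCALE: reduction to the front `1` -/
def ScaleStmt : Prop :=
  ∀ (l : ℕ) (r T η J : ℝ) (V : Type) [NormedAddCommGroup V] [InnerProductSpace ℝ V]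
    (q : V →L[ℝ] V) (P : V) (E : ℝ → V), 0 < T → Adm l r T η E →
    Adm l r 1 (η / T ^ (r + (2 * l + 1))) (fun y => (T ^ l)⁻¹ • E (T * y)) ∧
    LamC l r T J q P E = T ^ (r + (2 * l + 1)) *
      LamC l r 1 (J / T ^ (2 * l + 1)) (T⁻¹ • q) ((T ^ l)⁻¹ • P) fun y => (T ^ l)⁻¹ • E (T * y)

/-- ONE: the pointwise inequality at the front `1` -/
def OneStmt : Prop :=
  ∀ (l : ℕ) (r j0 : ℝ), 1 ≤ l → 0 < r → r / (r + (2 * l + 1)) < j0 → ∃ c C s0 : ℝ,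
    0 < c ∧ 0 ≤ C ∧ 0 < s0 ∧ s0 ≤ 1 ∧
    ∀ (V : Type) [NormedAddCommGroup V] [InnerProductSpace ℝ V] [FiniteDimensional ℝ V]
      (a a' t : Fin (2 * l + 1) → V →L[ℝ] V) (P : GB.Mt (2 * l + 1) → V), GB.Od l a a' t P →
      ∀ (F : GB.Mt (2 * l + 1)) (η : ℝ) (E : ℝ → V), Adm l r 1 η E →
        (‖F‖ ≤ s0 → -η ≤ LamC l r 1 F.det (GB.qop t a F) (P F) E) ∧
        (s0 ≤ ‖F‖ → -(C * ‖F‖ ^ (2 * l + 1)) - η ≤ LamC l r 1 F.det (GB.qop t a F) (P F) E) ∧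
        (j0 * ‖F‖ ^ (2 * l + 1) ≤ F.det →
          c * ‖F‖ ^ (2 * l + 1) - η ≤ LamC l r 1 F.det (GB.qop t a F) (P F) E)

end Pool.Agent.MP_29b5d3_an.GK
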