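import Pool.Agent.MP_29b5d3_an.GE.BFam

/-! PROJECT GE, odd dimensions: the pointwise inequality for a geometric family of levels. -/

set_option autoImplicit false
set_option linter.unusedSectionVars false

open Filter Topology Finset
open scoped RealInnerProductSpace

namespace Pool.Agent.MP_29b5d3_an.GO

open GB

noncomputable section

/-- moments of the weights -/
def Z (k : ℕ) (t g : ℕ → ℝ) (m : ℕ) : ℝ := ∑ i ∈ range k, g i * t i ^ m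

/-- positive semidefinite kernels -/
structure Gram (b : ℕ → ℕ → ℝ) : Prop where
  symm : ∀ a c, b a c = b c a
  nn : ∀ (k : ℕ) (z : ℕ → ℝ), 0 ≤ ∑ a ∈ range k, ∑ c ∈ range k, z a * z c * b a c

/-- the bracket of a kernel -/
def Qs (k : ℕ) (W : ℕ → ℕ → ℝ) (d : ℕ → ℝ) (b : ℕ → ℕ → ℝ) : ℝ :=
  ∑ c ∈ range k, (d c * b c c - ∑ a ∈ range c, W a c * b a c)

/-- the exact relations of a scheme whose front is the level `1` -/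
structure Sch (l k : ℕ) (t g : ℕ → ℝ) (W : ℕ → ℕ → ℝ) (d : ℕ → ℝ) (κ ψ e : ℝ) : Prop where
  one : 1 ≤ l
  tpos : ∀ i, 0 < t i
  gpos : ∀ i, 0 < g i
  tle : ∀ i < k, t i ≤ 1
  mono : Monotone t
  k0 : 0 < κ
  k1 : κ ≤ 1
  p0 : 0 < ψ
  p1 : ψ * (l : ℝ) ^ 2 ≤ 1
  e0 : 0 ≤ e
  e1 : (2 * l + 1) * e ≤ 1
  Wnn : ∀ a c, 0 ≤ W a c
  be : ∀ a < k, g a - ∑ c ∈ Ioo a k, W a c = g a * t a * (1 - ψ * (1 - t a ^ l))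
  th : ∀ a < k, κ * ∑ c ∈ Ioo a k, W a c * t c ^ l = g a * t a * ((l + 1) * (ψ * (1 - t a ^ l)))
  dd : ∀ c, 2 * d c * t c ^ l = ∑ a ∈ range c, W a c * t a ^ l
  de : ∀ c, d c ≤ e * g c
  minus : ∀ b, Gram b → Qs k W d b ≤ e * ∑ c ∈ range k, g c * b c c

/-- the constants of the continuous scheme -/
def d0 (l r : ℝ) : ℝ := (1 - 1 / l ^ 2) / (2 * (r + l + 1)) + (l + 1) / l ^ 2 / (2 * (r + 2 * l + 1))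
def E0 (l r : ℝ) : ℝ := (1 - d0 l r) / r
def E1 (l r : ℝ) : ℝ := 1 / (r + 2 * l + 1)
def E2 (l r : ℝ) : ℝ := 1 / (r + l + 1)
def E3 (l r : ℝ) : ℝ := (1 - 1 / l ^ 2) * E2 l r + 1 / l ^ 2 * E1 l r
def E4 (l r : ℝ) : ℝ := (l + 1) / l ^ 2 / 2 * (E2 l r - E1 l r)

/-- the constants of the discrete scheme, from the moments `z` -/
def s1 (l : ℕ) (z : ℕ → ℝ) (κ : ℝ) : ℝ := κ ^ 2 * z (2 * l + 1)
def s2 (l : ℕ) (z : ℕ → ℝ) (κ : ℝ) : ℝ := κ * z (l + 1)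
def s3 (l : ℕ) (z : ℕ → ℝ) (κ ψ : ℝ) : ℝ := κ * ((1 - ψ) * z (l + 1) + ψ * z (2 * l + 1))
def s4 (l : ℕ) (z : ℕ → ℝ) (κ ψ : ℝ) : ℝ := κ * ((l + 1) * ψ / 2) * (z (l + 1) - z (2 * l + 1))

/-- the moments `z` are close to those of the continuous scheme -/
structure Num (l : ℕ) (z : ℕ → ℝ) (κ ψ e r h δ : ℝ) : Prop where
  z1 : h * z 1 ≤ 1
  zl : h * ((l + 1) * z (l + 1)) ≤ 1
  rat : (l + 1) * z (l + 1) ≤ (2 * l + 1) * z (2 * l + 1)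
  one : 1 ≤ z (2 * l + 1)
  kap : 39 / 40 ≤ κ
  n0 : E0 l r - δ ≤ h * ((1 - e) * z 0)
  n1 : E1 l r - δ ≤ h * s1 l z κ
  n2 : h * s2 l z κ ≤ E2 l r + δ
  n3 : h * s3 l z κ ψ ≤ E3 l r + δ
  n4 : h * s4 l z κ ψ ≤ E4 l r + δ

/-- geometric sequences -/
structure Geo (τ ϱ : ℝ) (t g : ℕ → ℝ) : Prop where
  t0 : 0 < t 0
  g0 : 0 < g 0
  ts : ∀ i, t (i + 1) = τ * t i
  gs : ∀ i, g (i + 1) = ϱ * g i

/-- the parameters of the geometric scheme -/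
def psi (l : ℕ) (τ : ℝ) : ℝ := τ ^ l * (τ - 1) ^ 2 / (τ * (τ ^ l - 1) ^ 2)
def kap (l : ℕ) (τ : ℝ) : ℝ := (l + 1) * (τ - 1) / (τ ^ (l + 1) - 1)
def a1 (l : ℕ) (τ : ℝ) : ℝ := (1 - psi l τ) * (τ - 1)
def a2 (l : ℕ) (τ : ℝ) : ℝ := psi l τ * (τ ^ (l + 1) - 1)
def Zi (τ ϱ : ℝ) (m : ℕ) : ℝ := 1 / (1 - (ϱ * τ ^ m)⁻¹)
def ee (l : ℕ) (τ ϱ : ℝ) : ℝ := (a1 l τ * Zi τ ϱ (l + 1) + a2 l τ * Zi τ ϱ (2 * l + 1)) / 2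
def Wf (l : ℕ) (τ : ℝ) (t g : ℕ → ℝ) (a c : ℕ) : ℝ :=
  g a * t a * (a1 l τ / t c + a2 l τ * t a ^ l / t c ^ (l + 1))
def df (l : ℕ) (τ : ℝ) (t g : ℕ → ℝ) (c : ℕ) : ℝ :=
  (∑ a ∈ range c, Wf l τ t g a c * t a ^ l) / (2 * t c ^ l)

/-- the multipliers at the singular vertex -/
def Gain (l : ℕ) (σ ψ e : ℝ) : Prop :=
  ∃ m0 m1 A B : ℝ, 0 ≤ m0 ∧ 0 ≤ A ∧ 0 ≤ B ∧
    (2 * l + 1) * (A + B / (l + 1)) ≤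
      (σ ^ l - 1) * (σ * σ ^ l - 1) - σ * (σ ^ l - 1) ^ 2 / (2 * l + 1) ∧
    ∀ y b : ℝ, 0 < y → y ≤ 1 → b = ψ * (1 - y) → ∃ D : ℝ, 0 ≤ D ∧
      D ≤ m0 + m1 * y - (l + 1) * b * σ ∧ D ≤ m0 + m1 * y - 2 * e * σ ∧
      y * (((l + 1) * (σ ^ l + l * b * σ - (m0 + m1 * y)) ^ 2 +
        l * ((1 - b) * (σ * σ ^ l) + (l + 1) * b * σ - (m0 + m1 * y)) ^ 2) / (2 * l + 1)) ≤
        2 * D * (A + B * y)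

section Defs
variable {V : Type} [NormedAddCommGroup V] [InnerProductSpace ℝ V]

/-- symmetric with norm at most `σ` -/
structure Sym (q : V →L[ℝ] V) (σ : ℝ) : Prop where
  symm : ∀ x y, ⟪q x, y⟫ = ⟪x, q y⟫
  bd : ∀ x, ‖q x‖ ≤ σ * ‖x‖
  nn : 0 ≤ σ

/-- the integrand of the first `k` levels -/
def Lk (k : ℕ) (t g : ℕ → ℝ) (W : ℕ → ℕ → ℝ) (d : ℕ → ℝ) (J : ℝ) (q : V →L[ℝ] V) (P : V)
    (E : ℕ → V) : ℝ :=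
  ∑ c ∈ range k, (g c * t c * (‖E c‖ ^ 2 - ⟪P, E c⟫) + g c * (J - ⟪q P, E c⟫) +
    ∑ a ∈ range c, W a c * (⟪q P, E a⟫ - ⟪q (E a), E c⟫) - d c * (J - ⟪q (E c), E c⟫))

/-- the cumulative constraints, tight at `k` -/
structure Bod (l k : ℕ) (t g : ℕ → ℝ) (κ : ℝ) (E : ℕ → V) : Prop where
  body : ∀ j ≤ k, ∑ i ∈ range j, g i * t i * ‖E i‖ ^ 2 ≤ κ ^ 2 * Z j t g (2 * l + 1)
  tight : ∑ i ∈ range k, g i * t i * ‖E i‖ ^ 2 = κ ^ 2 * Z k t g (2 * l + 1)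

/-- the value at the aligned family -/
def Ls (l k : ℕ) (t g d : ℕ → ℝ) (κ ψ J : ℝ) (q : V →L[ℝ] V) (P I : V) : ℝ :=
  (∑ c ∈ range k, (g c - d c)) * J + s1 l (Z k t g) κ - s2 l (Z k t g) κ * ⟪P, I⟫ -
    s3 l (Z k t g) κ ψ * ⟪q P, I⟫ - s4 l (Z k t g) κ ψ * ⟪q I, I⟫

end Defs

end

theorem swap (k : ℕ) (f : ℕ → ℕ → ℝ) :
    ∑ c ∈ range k, ∑ a ∈ range c, f a c = ∑ a ∈ range k, ∑ c ∈ Ioo a k, f a c :=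
  Finset.sum_comm' fun c a => by
    simp only [mem_range, mem_Ioo]
    omega

/-! ### Scalar rows -/

/-- AMGM: two elementary inequalities for powers -/
def AmgmStmt : Prop :=
  ∀ (l : ℕ) (σ : ℝ), 0 ≤ σ → (l : ℝ) ^ 2 * σ ^ l * (1 - σ) ^ 2 ≤ σ * (1 - σ ^ l) ^ 2 ∧
    (1 ≤ σ → σ * (σ ^ l - 1) ≤ l * σ ^ l * (σ - 1))

/-- SPLIT: the two regimes -/
def SplitStmt : Prop :=
  ∀ (l : ℕ) (σ : ℝ), 1 ≤ l → 0 ≤ σ →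
    (σ ≤ 1 ∧ (2 * l + 1) / (l + 1) * (σ ^ l * (1 + σ)) + (2 * l + 1) / (2 * l ^ 2) * σ ≤ 19 / 20) ∨
    (1 / 5 ≤ σ ∧ 5 * σ ≤ 2 * (2 * l + 1) * σ ^ l)

/-- GAIN1: large norm -/
def Gain1Stmt : Prop :=
  ∀ (l : ℕ) (σ ψ e : ℝ), 1 ≤ l → 1 ≤ σ → 0 < ψ → ψ * (l : ℝ) ^ 2 ≤ 1 → 0 ≤ e →
    (2 * l + 1) * e ≤ 1 → Gain l σ ψ e

/-- GAIN2: dimension three -/
def Gain2Stmt : Prop :=
  ∀ σ ψ e : ℝ, 0 < σ → σ ≤ 1 → 0 < ψ → ψ ≤ 1 → 0 ≤ e → 3 * e ≤ 1 → Gain 1 σ ψ e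

/-- GAIN3: dimension at least five -/
def Gain3Stmt : Prop :=
  ∀ (l : ℕ) (σ ψ e : ℝ), 2 ≤ l → 0 < σ → σ ≤ 1 → 5 * σ ≤ 2 * (2 * l + 1) * σ ^ l → 0 < ψ →
    ψ * (l : ℝ) ^ 2 ≤ 1 → 0 ≤ e → (2 * l + 1) * e ≤ 1 → Gain l σ ψ e

/-- PH: the value on the critical uniaxial matrices -/
def PhStmt : Prop :=
  ∀ l r : ℝ, 1 ≤ l → 0 < r → 0 ≤ d0 l r ∧ (2 * l + 1) * d0 l r < 1 ∧ ∀ σ s : ℝ,
    r * (E0 l r * (σ * s ^ 2) + E1 l r - E2 l r * s - E3 l r * (σ * s) - E4 l r * σ) +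
      (2 * l + 1) * (E1 l r - E2 l r * (s * ((l + 1) / (2 * l + 1))) -
        E3 l r * (σ * s * (l / (2 * l + 1))) - E4 l r * (σ * (2 * l / (2 * l + 1)))) =
      (s - 1) * (σ * s - 1) - d0 l r * σ * (s - 1) ^ 2

/-- LI: the value on conformal matrices -/
def LiStmt : Prop :=
  ∀ (l : ℕ) (r : ℝ), 1 ≤ l → 0 < r → ∃ c : ℝ, 0 < c ∧ ∀ σ : ℝ, 0 ≤ σ →
    c * (σ * (σ ^ l) ^ 2) ≤ E0 l r * (σ * (σ ^ l) ^ 2) + E1 l r - E2 l r * σ ^ l -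
      E3 l r * (σ * σ ^ l) - E4 l r * σ

/-- COMB: the two vertices together -/
def CombStmt : Prop :=
  ∀ (l : ℕ) (r j0 : ℝ), 1 ≤ l → 0 < r → r / (r + (2 * l + 1)) < j0 → ∃ c : ℝ, 0 < c ∧
    ∀ (z : ℕ → ℝ) (κ ψ e h δ σ A B cJ j : ℝ), Num l z κ ψ e r h δ → 0 < h → 0 ≤ δ → 1 / 5 ≤ σ →
    0 ≤ A → 0 ≤ B → (1 - e) * z 0 ≤ cJ → j0 ≤ j → j ≤ 1 →
    (2 * l + 1) * (A + B / (l + 1)) ≤
      (σ ^ l - 1) * (σ * σ ^ l - 1) - σ * (σ ^ l - 1) ^ 2 / (2 * l + 1) →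
    (c - 5 ^ (2 * l + 2) * δ) * σ ^ (2 * l + 1) ≤
      h * (j * (cJ * σ ^ (2 * l + 1) + s1 l z κ - s2 l z κ * σ ^ l - s3 l z κ ψ * (σ * σ ^ l) -
          s4 l z κ ψ * σ) +
        (1 - j) * (s1 l z κ - s2 l z κ * (σ ^ l * ((l + 1) / (2 * l + 1))) -
          s3 l z κ ψ * (σ * σ ^ l * (l / (2 * l + 1))) - s4 l z κ ψ * (σ * (2 * l / (2 * l + 1))) -
          (A * z 1 + B * z (l + 1))))

/-- PSD: kernels of the form `f (min a c) * g (max a c)` -/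
def PsdStmt : Prop :=
  ∀ (k : ℕ) (f g : ℕ → ℝ) (b : ℕ → ℕ → ℝ), (∀ i, 0 < f i) → (∀ i, 0 < g i) →
    (∀ i, g (i + 1) / f (i + 1) ≤ g i / f i) → Gram b →
    0 ≤ ∑ c ∈ range k, (f c * g c * b c c + 2 * ∑ a ∈ range c, f a * g c * b a c)

/-- PLUS: the bracket of a positive kernel from below -/
def PlusStmt : Prop :=
  ∀ (l k : ℕ) (t g : ℕ → ℝ) (W : ℕ → ℕ → ℝ) (d : ℕ → ℝ) (κ ψ e : ℝ) (b : ℕ → ℕ → ℝ),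
    Sch l k t g W d κ ψ e → Gram b →
    -∑ a ∈ range k, g a * t a * ((l + 1) * (ψ * (1 - t a ^ l)) / (2 * (κ * t a ^ l))) * b a a ≤
      Qs k W d b

/-- PAR: the parameters -/
def ParStmt : Prop :=
  ∀ (l : ℕ) (τ : ℝ), 1 ≤ l → 1 < τ → 0 < psi l τ ∧ psi l τ * (l : ℝ) ^ 2 ≤ 1 ∧ 0 < kap l τ ∧
    kap l τ ≤ 1 ∧ 0 ≤ a1 l τ ∧ 0 < a2 l τ ∧ kap l τ * a2 l τ = (l + 1) * psi l τ * (τ - 1) ∧
    kap l τ * a1 l τ = (l + 1) * psi l τ * (1 - τ / τ ^ l)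

/-- TEL: the two telescoping sums -/
def TelStmt : Prop :=
  ∀ (l k : ℕ) (τ ϱ : ℝ) (t g : ℕ → ℝ), 1 ≤ l → 1 < τ → 1 < ϱ → Geo τ ϱ t g → t k = 1 →
    ∀ a < k + 1, g a - ∑ c ∈ Ioo a (k + 1), Wf l τ t g a c =
        g a * t a * (1 - psi l τ * (1 - t a ^ l)) ∧
      kap l τ * ∑ c ∈ Ioo a (k + 1), Wf l τ t g a c * t c ^ l =
        g a * t a * ((l + 1) * (psi l τ * (1 - t a ^ l)))

/-- MINUS: the bracket of a positive kernel from above -/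
def MinusStmt : Prop :=
  ∀ (l : ℕ) (τ ϱ : ℝ) (t g : ℕ → ℝ), 1 ≤ l → 1 < τ → 1 < ϱ → Geo τ ϱ t g →
    (∀ c, df l τ t g c + Wf l τ t g c c / 2 ≤ ee l τ ϱ * g c) ∧
    ∀ k b, Gram b → Qs k (Wf l τ t g) (df l τ t g) b ≤ ee l τ ϱ * ∑ c ∈ range k, g c * b c c

/-- MOM: the moments of a geometric family -/
def MomStmt : Prop :=
  ∀ (k : ℕ) (τ ϱ : ℝ) (t g : ℕ → ℝ), 1 < τ → 1 < ϱ → Geo τ ϱ t g → t k = 1 → g k = 1 → ∀ m : ℕ,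
    1 ≤ Z (k + 1) t g m ∧ Z (k + 1) t g m ≤ Zi τ ϱ m ∧ (1 - g 0) * Zi τ ϱ m ≤ Z (k + 1) t g m ∧
    Zi τ ϱ m ≤ Zi τ ϱ 0 ∧
    ∀ m', m ≤ m' → Z (k + 1) t g m * Zi τ ϱ m' ≤ Z (k + 1) t g m' * Zi τ ϱ m

/-- LIM: the ratio tends to one -/
def LimStmt : Prop :=
  ∀ (l : ℕ) (r η : ℝ), 1 ≤ l → 0 < r → 0 < η → ∃ τ : ℝ, 1 < τ ∧
    (2 * l + 1) * ee l τ (τ ^ r) ≤ 1 ∧
    Num l (Zi τ (τ ^ r)) (kap l τ) (psi l τ) (ee l τ (τ ^ r)) r (τ - 1) η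

/-- GRID: the geometric scheme at every front -/
def GridStmt : Prop :=
  ∀ (l : ℕ) (r η : ℝ), 1 ≤ l → 0 < r → 0 < η → ∃ τ κ ψ e C : ℝ, 1 < τ ∧ 0 ≤ C ∧ κ ≤ 1 ∧ 0 < κ ∧
    ∀ (k : ℕ) (t g : ℕ → ℝ), Geo τ (τ ^ r) t g → t k = 1 → g k = 1 →
      Sch l (k + 1) t g (Wf l τ t g) (df l τ t g) κ ψ e ∧
      Num l (Z (k + 1) t g) κ ψ e r (τ - 1) (η + C * g 0) ∧ Z (k + 1) t g 0 ≤ C

/-! ### Rows with vectors -/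

/-- NF: the normal form, and the value at the aligned family -/
def NfStmt : Prop :=
  ∀ (V : Type) [NormedAddCommGroup V] [InnerProductSpace ℝ V] (l k : ℕ) (t g : ℕ → ℝ)
    (W : ℕ → ℕ → ℝ) (d : ℕ → ℝ) (κ ψ e J : ℝ) (q : V →L[ℝ] V) (P : V), Sch l k t g W d κ ψ e →
    (∀ E : ℕ → V, Lk k t g W d J q P E = (∑ c ∈ range k, (g c - d c)) * J +
      ∑ c ∈ range k, g c * t c * ‖E c‖ ^ 2 -
      ∑ c ∈ range k, g c * t c * ⟪P + (1 - ψ * (1 - t c ^ l)) • q P, E c⟫ +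
      Qs k W d fun a c => ⟪q (E a), E c⟫) ∧
    ∀ I : V, ‖I‖ = 1 →
      Lk k t g W d J q P (fun i => (κ * t i ^ l) • I) = Ls l k t g d κ ψ J q P I

/-- EXP: expansion at the aligned family -/
def ExpStmt : Prop :=
  ∀ (V : Type) [NormedAddCommGroup V] [InnerProductSpace ℝ V] (l k : ℕ) (t g : ℕ → ℝ)
    (W : ℕ → ℕ → ℝ) (d : ℕ → ℝ) (κ ψ e J σ : ℝ) (q : V →L[ℝ] V) (P I : V) (E δ : ℕ → V),
    Sch l k t g W d κ ψ e → Sym q σ → ‖I‖ = 1 → (∀ i, E i = (κ * t i ^ l) • I + δ i) →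
    Lk k t g W d J q P E = Ls l k t g d κ ψ J q P I +
      ∑ c ∈ range k, g c * t c * (‖E c‖ ^ 2 - (κ * t c ^ l) ^ 2) -
      ∑ c ∈ range k, g c * t c *
        ⟪P + (1 - ψ * (1 - t c ^ l)) • q P + ((l + 1) * (ψ * (1 - t c ^ l))) • q I, δ c⟫ +
      Qs k W d fun a c => ⟪q (δ a), δ c⟫

/-- BRK: the bracket of a symmetric operator -/
def BrkStmt : Prop :=
  ∀ (V : Type) [NormedAddCommGroup V] [InnerProductSpace ℝ V] (l k : ℕ) (t g : ℕ → ℝ)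
    (W : ℕ → ℕ → ℝ) (d : ℕ → ℝ) (κ ψ e σ : ℝ) (q : V →L[ℝ] V) (δ : ℕ → V) (M : ℕ → ℝ),
    Sch l k t g W d κ ψ e → Sym q σ →
    (∀ a < k, (l + 1) * (ψ * (1 - t a ^ l)) / (2 * (κ * t a ^ l)) ≤ M a ∧ e / t a ≤ M a) →
    -(σ * ∑ a ∈ range k, g a * t a * M a * ‖δ a‖ ^ 2) ≤ Qs k W d fun a c => ⟪q (δ a), δ c⟫

/-- ABEL: summation by parts -/
def AbelStmt : Prop :=
  ∀ (V : Type) [NormedAddCommGroup V] [InnerProductSpace ℝ V] (l k : ℕ) (t g : ℕ → ℝ) (κ : ℝ)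
    (E : ℕ → V), (∀ i, 0 < t i) → (∀ i, 0 < g i) → Monotone t → 0 < κ → Bod l k t g κ E →
    ∑ i ∈ range k, g i * t i * (‖E i‖ ^ 2 / t i ^ l) ≤ κ ^ 2 * Z k t g (l + 1) ∧
    ∑ i ∈ range k, g i * t i * ‖E i‖ ≤ κ * Z k t g (l + 1)

/-- VTX: the lower bound with multipliers -/
def VtxStmt : Prop :=
  ∀ (V : Type) [NormedAddCommGroup V] [InnerProductSpace ℝ V] (l k : ℕ) (t g : ℕ → ℝ)
    (W : ℕ → ℕ → ℝ) (d : ℕ → ℝ) (κ ψ e J σ m0 m1 A B : ℝ) (q : V →L[ℝ] V) (P I : V) (E : ℕ → V),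
    Sch l k t g W d κ ψ e → Sym q σ → ‖I‖ = 1 → Bod l k t g κ E → 0 ≤ m0 → 0 ≤ A → 0 ≤ B →
    (∀ y b : ℝ, 0 < y → y ≤ 1 → b = ψ * (1 - y) → ∃ D : ℝ, 0 ≤ D ∧
      D ≤ m0 + m1 * y - (l + 1) * b * σ ∧ D ≤ m0 + m1 * y - 2 * e * σ ∧
      y * ‖P + (1 - b) • q P + ((l + 1) * b) • q I - (m0 + m1 * y) • I‖ ^ 2 ≤
        2 * D * (A + B * y)) →
    Ls l k t g d κ ψ J q P I - (A * Z k t g 1 + B * Z k t g (l + 1)) ≤ Lk k t g W d J q P E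

/-- CRUDE: the lower bound without expansion -/
def CrudeStmt : Prop :=
  ∀ (V : Type) [NormedAddCommGroup V] [InnerProductSpace ℝ V] (l k : ℕ) (t g : ℕ → ℝ)
    (W : ℕ → ℕ → ℝ) (d : ℕ → ℝ) (κ ψ e J σ s : ℝ) (q : V →L[ℝ] V) (P : V) (E : ℕ → V),
    Sch l k t g W d κ ψ e → Sym q σ → Bod l k t g κ E → ‖P‖ ≤ s →
    (1 - e) * Z k t g 0 ≤ ∑ c ∈ range k, (g c - d c) ∧ ∑ c ∈ range k, (g c - d c) ≤ Z k t g 0 ∧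
    Z k t g (l + 1) ≤ Z k t g 0 ∧
    (∑ c ∈ range k, (g c - d c)) * J + κ ^ 2 * Z k t g (2 * l + 1) -
      κ * Z k t g (l + 1) * (s * (1 + σ) + (l + 1) / (2 * l ^ 2) * σ) ≤ Lk k t g W d J q P E

/-- VV: the two vertices -/
def VvStmt : Prop :=
  ∀ (V : Type) [NormedAddCommGroup V] [InnerProductSpace ℝ V] (l k : ℕ) (t g : ℕ → ℝ)
    (W : ℕ → ℕ → ℝ) (d : ℕ → ℝ) (κ ψ e σ : ℝ) (E : ℕ → V), Sch l k t g W d κ ψ e →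
    Bod l k t g κ E → 0 < σ → 5 * σ ≤ 2 * (2 * l + 1) * σ ^ l →
    (∀ (q : V →L[ℝ] V) (I : V) (J : ℝ), Sym q σ → ‖I‖ = 1 → q I = σ • I →
      (∑ c ∈ range k, (g c - d c)) * J + s1 l (Z k t g) κ - s2 l (Z k t g) κ * σ ^ l -
        s3 l (Z k t g) κ ψ * (σ * σ ^ l) - s4 l (Z k t g) κ ψ * σ ≤
        Lk k t g W d J q (σ ^ l • I) E) ∧
    ∃ A B : ℝ, 0 ≤ A ∧ 0 ≤ B ∧ (2 * l + 1) * (A + B / (l + 1)) ≤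
        (σ ^ l - 1) * (σ * σ ^ l - 1) - σ * (σ ^ l - 1) ^ 2 / (2 * l + 1) ∧
      ∀ (q : V →L[ℝ] V) (c1 c2 : V), Sym q σ → ⟪c1, c2⟫ = 0 → ‖c1‖ ^ 2 = (l + 1) / (2 * l + 1) →
        ‖c2‖ ^ 2 = l / (2 * l + 1) → q c1 = σ • c2 → q c2 = (σ * (l / (l + 1))) • c1 →
        s1 l (Z k t g) κ - s2 l (Z k t g) κ * (σ ^ l * ((l + 1) / (2 * l + 1))) -
          s3 l (Z k t g) κ ψ * (σ * σ ^ l * (l / (2 * l + 1))) -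
          s4 l (Z k t g) κ ψ * (σ * (2 * l / (2 * l + 1))) -
          (A * Z k t g 1 + B * Z k t g (l + 1)) ≤ Lk k t g W d 0 q (σ ^ l • c1) E

/-- REGA: the main regime -/
def RegAStmt : Prop :=
  ∀ (l : ℕ) (r j0 : ℝ), 1 ≤ l → 0 < r → r / (r + (2 * l + 1)) < j0 → ∃ c0 : ℝ, 0 < c0 ∧
    ∀ (V : Type) [NormedAddCommGroup V] [InnerProductSpace ℝ V]
      (c c' u : Fin (2 * l + 1) → V →L[ℝ] V) (P : Mt (2 * l + 1) → V) (k : ℕ) (t g : ℕ → ℝ)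
      (W : ℕ → ℕ → ℝ) (d : ℕ → ℝ) (κ ψ e h δ : ℝ) (E : ℕ → V) (F : Mt (2 * l + 1)),
      Od l c c' u P → Sch l k t g W d κ ψ e → Num l (Z k t g) κ ψ e r h δ → 0 < h → 0 ≤ δ →
      Bod l k t g κ E → 1 / 5 ≤ ‖F‖ → 5 * ‖F‖ ≤ 2 * (2 * l + 1) * ‖F‖ ^ l →
      j0 * ‖F‖ ^ (2 * l + 1) ≤ F.det →
      (c0 - 5 ^ (2 * l + 2) * δ) * ‖F‖ ^ (2 * l + 1) ≤
        h * Lk k t g W d F.det (qop u c F) (P F) E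

/-- NORM: the pointwise inequality at a normalised front -/
def NormStmt : Prop :=
  ∀ (l : ℕ) (r j0 : ℝ), 1 ≤ l → 0 < r → r / (r + (2 * l + 1)) < j0 →
    ∃ τ κ c0 C σ0 : ℝ, 1 < τ ∧ 0 < κ ∧ κ ≤ 1 ∧ 0 < c0 ∧ 0 ≤ C ∧ 0 < σ0 ∧ σ0 ≤ 1 ∧
    ∀ (V : Type) [NormedAddCommGroup V] [InnerProductSpace ℝ V]
      (c c' u : Fin (2 * l + 1) → V →L[ℝ] V) (P : Mt (2 * l + 1) → V) (k : ℕ) (t g : ℕ → ℝ)
      (E : ℕ → V) (F : Mt (2 * l + 1)), Od l c c' u P → Geo τ (τ ^ r) t g → t k = 1 → g k = 1 →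
      Bod l (k + 1) t g κ E →
      (j0 * ‖F‖ ^ (2 * l + 1) ≤ F.det → (c0 - C * g 0) * ‖F‖ ^ (2 * l + 1) ≤
        Lk (k + 1) t g (Wf l τ t g) (df l τ t g) F.det (qop u c F) (P F) E) ∧
      -(C * ‖F‖ ^ (2 * l + 1)) ≤
        Lk (k + 1) t g (Wf l τ t g) (df l τ t g) F.det (qop u c F) (P F) E ∧
      (‖F‖ ≤ σ0 → 0 ≤ Lk (k + 1) t g (Wf l τ t g) (df l τ t g) F.det (qop u c F) (P F) E)

/-- LK: coefficients, levels above the front, scaling -/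
def LkStmt : Prop :=
  (∀ (N : ℕ) (t g : ℕ → ℝ) (W : ℕ → ℕ → ℝ) (d : ℕ → ℝ), ∃ (μ : ℕ → ℝ) (κ : ℕ → ℕ → ℝ) (c0 : ℝ),
    ∀ (V : Type) [NormedAddCommGroup V] [InnerProductSpace ℝ V] (J : ℝ) (q : V →L[ℝ] V) (P : V)
      (E : ℕ → V), Lam N (fun i => g i * t i) μ κ c0 J q P E = Lk N t g W d J q P E) ∧
  (∀ (V : Type) [NormedAddCommGroup V] [InnerProductSpace ℝ V] (N k : ℕ) (t g : ℕ → ℝ)
    (W : ℕ → ℕ → ℝ) (d : ℕ → ℝ) (J : ℝ) (q : V →L[ℝ] V) (P : V) (E : ℕ → V), k ≤ N →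
    (∀ x y, ⟪q x, y⟫ = ⟪x, q y⟫) → ⟪P, q P⟫ = J → (∀ i, k ≤ i → i < N → E i = P) →
    Lk N t g W d J q P E = Lk k t g W d J q P E) ∧
  ∀ (V : Type) [NormedAddCommGroup V] [InnerProductSpace ℝ V] (l k : ℕ) (τ T G J : ℝ)
    (t g : ℕ → ℝ) (q : V →L[ℝ] V) (P : V) (E : ℕ → V), 0 < T → (∀ i, 0 < t i) →
    Lk k (fun i => T * t i) (fun i => G * g i) (Wf l τ (fun i => T * t i) fun i => G * g i)
      (df l τ (fun i => T * t i) fun i => G * g i) (T ^ (2 * l + 1) * J) (T • q) (T ^ l • P)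
      (fun i => T ^ l • E i) =
      G * T ^ (2 * l + 1) * Lk k t g (Wf l τ t g) (df l τ t g) J q P E

/-- FRONT: the pointwise inequality at an arbitrary front -/
def FrontStmt : Prop :=
  ∀ (l : ℕ) (r j0 : ℝ), 1 ≤ l → 0 < r → r / (r + (2 * l + 1)) < j0 →
    ∃ τ κ c0 C σ0 : ℝ, 1 < τ ∧ 0 < κ ∧ κ ≤ 1 ∧ 0 < c0 ∧ 0 ≤ C ∧ 0 < σ0 ∧ σ0 ≤ 1 ∧
    ∀ (V : Type) [NormedAddCommGroup V] [InnerProductSpace ℝ V]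
      (c c' u : Fin (2 * l + 1) → V →L[ℝ] V) (P : Mt (2 * l + 1) → V) (k : ℕ) (t g : ℕ → ℝ)
      (E : ℕ → V) (F : Mt (2 * l + 1)), Od l c c' u P → Geo τ (τ ^ r) t g →
      Bod l (k + 1) t g κ E →
      (j0 * ‖F‖ ^ (2 * l + 1) ≤ F.det → (c0 * g k - C * g 0) * ‖F‖ ^ (2 * l + 1) ≤
        Lk (k + 1) t g (Wf l τ t g) (df l τ t g) F.det (qop u c F) (P F) E) ∧
      -(C * g k * ‖F‖ ^ (2 * l + 1)) ≤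
        Lk (k + 1) t g (Wf l τ t g) (df l τ t g) F.det (qop u c F) (P F) E ∧
      (‖F‖ ≤ σ0 * t k → 0 ≤ Lk (k + 1) t g (Wf l τ t g) (df l τ t g) F.det (qop u c F) (P F) E)

end Pool.Agent.MP_29b5d3_an.GO
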