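import Pool.Agent.MP_29b5d3_an.GE.SpecK

/-! PROJECT GE, odd dimensions: the pointwise inequality through a continuum of levels. -/

set_option autoImplicit false
set_option linter.unusedSectionVars false

open MeasureTheory Filter Topology Set
open scoped RealInnerProductSpace

namespace Pool.Agent.MP_29b5d3_an.GP

open GA GB GK

noncomputable section

/-- the small weight -/
def zk (l : ℕ) (a : ℝ) : ℝ := (1 - a ^ l) / l ^ 2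

/-- the coefficient of the square after the bracket has been paid -/
def mk (l : ℕ) (r s C1 C2 a : ℝ) : ℝ :=
  C1 + C2 * a ^ l - s * max ((l + 1) * zk l a) (2 * dk l r * a ^ (l - 1))

/-- the value at the aligned family -/
def Rk (l : ℕ) (r J PI BI II : ℝ) : ℝ :=
  (1 - dk l r) / r * J + 1 / (r + (2 * l + 1)) - PI / (r + l + 1) -
    (1 - 2 * dk l r) / (r + l) * BI - dk l r / (r + 2 * l) * II

/-- the critical combination of the two vertex values -/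
def Gk (l : ℕ) (r s : ℝ) : ℝ := (s * s ^ l - 1) * (s ^ l - 1) - dk l r * s * (s ^ l - 1) ^ 2

/-- the loss at the conformal vertex -/
def Xk (l : ℕ) (s : ℝ) : ℝ := max (1 - s ^ l) 0 ^ 2 / 4

theorem dk_bd {l : ℕ} (hl : 1 ≤ l) {r : ℝ} (hr : 0 < r) : 0 ≤ dk l r ∧ dk l r ≤ 1 / (2 * l + 1) := by
  have l1 : (1 : ℝ) ≤ l := by exact_mod_cast hl
  have e : dk l r = (l + 1) * (r + 2 * l) / (2 * l * (r + 2 * l + 1) * (r + l + 1)) := by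
    rw [dk]
    field_simp
    ring
  rw [e, div_le_div_iff₀ (by positivity) (by positivity)]
  refine ⟨by positivity, ?_⟩
  nlinarith [mul_nonneg hr.le (mul_nonneg (sub_nonneg.2 l1) (sub_nonneg.2 l1)),
    mul_nonneg hr.le (sub_nonneg.2 l1), mul_pos (mul_pos hr hr) (show (0 : ℝ) < l by linarith)]

theorem zk_bd {l : ℕ} (hl : 1 ≤ l) {a : ℝ} (ha : a ∈ Ioc (0 : ℝ) 1) :
    0 ≤ zk l a ∧ zk l a ≤ 1 / l ^ 2 ∧ zk l a ≤ 1 := by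
  have l1 : (1 : ℝ) ≤ l := by exact_mod_cast hl
  have h1 : a ^ l ≤ 1 := pow_le_one₀ ha.1.le ha.2
  have h2 : 0 < a ^ l := pow_pos ha.1 l
  have h3 : zk l a ≤ 1 / l ^ 2 := div_le_div_of_nonneg_right (by linarith) (by positivity)
  exact ⟨div_nonneg (by linarith) (by positivity), h3,
    h3.trans (div_le_one_of_le₀ (by nlinarith) (by positivity))⟩

end

/-- EXP: expansion at the aligned family -/
def ExpStmt : Prop :=
  ∀ (V : Type) [NormedAddCommGroup V] [InnerProductSpace ℝ V] [FiniteDimensional ℝ V] (l : ℕ)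
    (r s η J C1 C2 X1 X2 : ℝ) (q : V →L[ℝ] V) (P I : V) (E : ℝ → V), 1 ≤ l → 0 < r →
    0 ≤ s → (∀ x y, ⟪q x, y⟫ = ⟪x, q y⟫) → (∀ x, ‖q x‖ ≤ s * ‖x‖) → ‖I‖ = 1 → Adm l r 1 η E →
    0 ≤ C1 → 0 ≤ X1 → 0 ≤ X2 →
    (∀ a ∈ Ioc (0 : ℝ) 1, 0 ≤ mk l r s C1 C2 a ∧
      ‖(C1 + C2 * a ^ l) • I - P - (1 - zk l a) • q P - ((l + 1) * zk l a) • q I‖ ^ 2 ≤
        2 * (X1 + X2 * a ^ l) * mk l r s C1 C2 a) →
    Rk l r J ⟪P, I⟫ ⟪q P, I⟫ ⟪I, q I⟫ - X1 / (r + l + 1) - X2 / (r + (2 * l + 1)) - η ≤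
      LamC l r 1 J q P E

/-- SC1: the multiplier at the conformal vertex -/
def Sc1Stmt : Prop :=
  ∀ (l : ℕ) (r s : ℝ), 1 ≤ l → 0 < r → 0 < s → ∃ C1 C2 : ℝ, 0 ≤ C1 ∧ ∀ a ∈ Ioc (0 : ℝ) 1,
    0 ≤ mk l r s C1 C2 a ∧
    (C1 + C2 * a ^ l - s ^ l - (1 - zk l a) * (s * s ^ l) - (l + 1) * zk l a * s) ^ 2 ≤
      2 * (Xk l s * a ^ l) * mk l r s C1 C2 a

/-- R1: the value at the conformal vertex -/
def R1Stmt : Prop :=
  ∀ (l : ℕ) (r : ℝ), 1 ≤ l → 0 < r → ∃ c : ℝ, 0 < c ∧ ∀ s : ℝ, 0 < s →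
    c * s ^ (2 * l + 1) ≤
      Rk l r (s ^ (2 * l + 1)) (s ^ l) (s * s ^ l) s - Xk l s / (r + (2 * l + 1))

/-- the multiplier at the degenerate vertex -/
def Sc0 (l : ℕ) (r s : ℝ) : Prop :=
  Xk l s ≤ Gk l r s ∧ ∃ C1 C2 : ℝ, 0 ≤ C1 ∧ ∀ a ∈ Ioc (0 : ℝ) 1, 0 ≤ mk l r s C1 C2 a ∧
    (C1 + C2 * a ^ l - s ^ l - l * zk l a * s) ^ 2 + l / (l + 1) *
      (C1 + C2 * a ^ l - (1 - zk l a) * (s * s ^ l) - (l + 1) * zk l a * s) ^ 2 ≤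
      2 * Gk l r s * mk l r s C1 C2 a

/-- SC0A: large matrices -/
def Sc0aStmt : Prop := ∀ (l : ℕ) (r s : ℝ), 1 ≤ l → 0 < r → 1 ≤ s → Sc0 l r s

/-- SC0B: small matrices -/
def Sc0bStmt : Prop := ∀ (l : ℕ) (r s : ℝ), 1 ≤ l → 0 < r → 0 < s → s ≤ 1 → Sc0 l r s

/-- CRUDE: a lower bound for all matrices -/
def CrudeStmt : Prop :=
  ∀ (l : ℕ) (r : ℝ), 1 ≤ l → 0 < r → ∃ C : ℝ, 0 < C ∧
    ∀ (V : Type) [NormedAddCommGroup V] [InnerProductSpace ℝ V] [FiniteDimensional ℝ V]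
      (s η J : ℝ) (q : V →L[ℝ] V) (P I : V) (E : ℝ → V), 0 ≤ s → (∀ x y, ⟪q x, y⟫ = ⟪x, q y⟫) →
      (∀ x, ‖q x‖ ≤ s * ‖x‖) → ‖P‖ ≤ s ^ l → |J| ≤ s ^ (2 * l + 1) → ‖I‖ = 1 → Adm l r 1 η E →
      1 / (r + (2 * l + 1)) - C * (s + s ^ (2 * l + 1)) - η ≤ LamC l r 1 J q P E

/-- AFF: the functional is affine along rank one lines -/
def AffStmt : Prop :=
  ∀ (n l : ℕ) (r η : ℝ) (V : Type) [NormedAddCommGroup V] [InnerProductSpace ℝ V]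
    [FiniteDimensional ℝ V] (a a' t : Fin n → V →L[ℝ] V) (P : Mt n → V) (E : ℝ → V), 1 ≤ l →
    0 < r → Od l a a' t P → Adm l r 1 η E →
    RkAff fun F => LamC l r 1 F.det (qop t a F) (P F) E

/-- CONE: the lower bound on the cone -/
def ConeStmt : Prop :=
  ∀ (l : ℕ) (r j0 : ℝ), 1 ≤ l → 0 < r → r / (r + (2 * l + 1)) < j0 → ∃ c : ℝ, 0 < c ∧
    ∀ (V : Type) [NormedAddCommGroup V] [InnerProductSpace ℝ V] [FiniteDimensional ℝ V]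
      (a a' t : Fin (2 * l + 1) → V →L[ℝ] V) (P : Mt (2 * l + 1) → V) (η : ℝ) (E : ℝ → V),
      Od l a a' t P → Adm l r 1 η E →
      ∀ F : Mt (2 * l + 1), F ≠ 0 → j0 * ‖F‖ ^ (2 * l + 1) ≤ F.det →
        c * ‖F‖ ^ (2 * l + 1) - η ≤ LamC l r 1 F.det (qop t a F) (P F) E

end Pool.Agent.MP_29b5d3_an.GP
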