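import Pool.Agent.MP_29b5d3_an.GE.Spec

/-! The norm of a sum of commuting partial isometries of square zero. -/

set_option autoImplicit false

open scoped RealInnerProductSpace

namespace Pool.Agent.MP_29b5d3_an.GE

variable {V : Type} [NormedAddCommGroup V] [InnerProductSpace ℝ V]

theorem spin {ι : Type} [Fintype ι] (s d : ι → V → V)
    (adj : ∀ k x y, ⟪s k x, y⟫ = ⟪x, d k y⟫)
    (ss : ∀ k m x, s k (s m x) = s m (s k x))
    (sd : ∀ k m x, k ≠ m → s k (d m x) = d m (s k x))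
    (sq : ∀ k x, s k (s k x) = 0) (pi : ∀ k x, s k (d k (s k x)) = s k x) (x : V) :
    2 * ‖∑ k, s k x‖ ≤ (Fintype.card ι + 1) * ‖x‖ := by
  classical
  have adj' : ∀ k x y, ⟪d k x, y⟫ = ⟪x, s k y⟫ := fun k x y => by
    rw [real_inner_comm, ← adj, real_inner_comm]
  have o : ∀ k, ⟪d k (s k x), s k (d k x)⟫ = 0 := fun k => by
    rw [adj', sq, inner_zero_right]
  have pr : ∀ k y z, ⟪s k (d k y), s k z⟫ = ⟪y, s k z⟫ := fun k y z => by rw [adj, adj', pi]
  have h1 : ∀ k, ‖d k (s k x) + s k (d k x)‖ ≤ ‖x‖ := fun k => by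
    have e : ‖d k (s k x) + s k (d k x)‖ ^ 2 = ⟪d k (s k x) + s k (d k x), x⟫ := by
      rw [norm_add_sq_real, o, inner_add_left, ← real_inner_self_eq_norm_sq,
        ← real_inner_self_eq_norm_sq, pr, adj', pi, adj', real_inner_comm x]
      ring
    have := real_inner_le_norm (d k (s k x) + s k (d k x)) x
    nlinarith [norm_nonneg (d k (s k x) + s k (d k x)), norm_nonneg x]
  have c : ∀ k m, k ≠ m → s m (d m (s k x)) = s k (s m (d m x)) := fun k m h => by
    rw [← sd k m x h, ss]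
  have n2 : ∀ k m, k ≠ m → ⟪s m (d m (s k x)), s m (d m (s k x))⟫ =
      ⟪d k (s k x), s m (d m x)⟫ := fun k m h => by
    rw [pr, c k m h, adj']
  have h2 : ∀ k m, 2 * ⟪s k x, s m x⟫ ≤ ⟪d k (s k x), s m (d m x)⟫ + ⟪d m (s m x), s k (d k x)⟫ +
      if k = m then 2 * ⟪d k (s k x), x⟫ else 0 := fun k m => by
    by_cases h : k = m
    · subst h
      rw [if_pos rfl, o, adj']
      simp
    · rw [if_neg h, ← n2 k m h, ← n2 m k (Ne.symm h)]
      have e : ⟪s m (d m (s k x)), s k (d k (s m x))⟫ = ⟪s k x, s m x⟫ := by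
        rw [c m k (Ne.symm h), pr, ← c m k (Ne.symm h), real_inner_comm, pr, real_inner_comm]
      have := real_inner_self_nonneg (x := s m (d m (s k x)) - s k (d k (s m x)))
      rw [inner_sub_left, inner_sub_right, inner_sub_right, e,
        real_inner_comm (s m (d m (s k x))) (s k (d k (s m x))), e] at this
      linarith
  set A := ∑ k, d k (s k x) with hA
  set B := ∑ k, s k (d k x) with hB
  have h3 : ‖∑ k, s k x‖ ^ 2 ≤ ⟪A, B + x⟫ := by
    have a1 : ‖∑ k, s k x‖ ^ 2 = ∑ k, ∑ m, ⟪s k x, s m x⟫ := by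
      rw [← real_inner_self_eq_norm_sq, sum_inner]
      simp only [inner_sum]
    have a2 : ⟪A, B⟫ = ∑ k, ∑ m, ⟪d k (s k x), s m (d m x)⟫ := by
      rw [hA, hB, sum_inner]
      simp only [inner_sum]
    have a3 := Finset.sum_le_sum fun k (_ : k ∈ Finset.univ) =>
      Finset.sum_le_sum fun m (_ : m ∈ Finset.univ) => h2 k m
    simp only [Finset.sum_add_distrib, ← Finset.mul_sum, Finset.sum_ite_eq, Finset.mem_univ,
      if_true] at a3
    rw [Finset.sum_comm (f := fun k m => ⟪d m (s m x), s k (d k x)⟫), ← a1, ← a2,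
      ← sum_inner, ← hA] at a3
    rw [inner_add_right]
    linarith
  have h4 : ‖A + (B + x)‖ ≤ (Fintype.card ι + 1) * ‖x‖ := by
    rw [← add_assoc, hA, hB, ← Finset.sum_add_distrib]
    refine (norm_add_le _ _).trans ?_
    have := (norm_sum_le _ _).trans (Finset.sum_le_sum fun k (_ : k ∈ Finset.univ) => h1 k)
    rw [Finset.sum_const, Finset.card_univ, nsmul_eq_mul] at this
    linarith
  have h5 := norm_add_sq_real A (B + x)
  have h6 := norm_sub_sq_real A (B + x)
  refine abs_le_of_sq_le_sq' ?_ (by positivity) |>.2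
  have h7 := pow_le_pow_left₀ (norm_nonneg _) h4 2
  nlinarith [sq_nonneg ‖A - (B + x)‖]

end Pool.Agent.MP_29b5d3_an.GE
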