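import Pool.Agent.MP_29b5d3_an.GE.Ker32
import Mathlib.Analysis.SpecialFunctions.Integrals.Basic

/-! PROJECT GE, odd dimension: integrals over a triangle and the quadratic kernel. -/

set_option autoImplicit false

open MeasureTheory Set Filter Topology
open scoped RealInnerProductSpace

namespace Pool.Agent.MP_29b5d3_an.GK

/-- the measure on the triangle `0 < a ≤ c ≤ T` -/
noncomputable def tm (T : ℝ) : Measure (ℝ × ℝ) :=
  ((volume.restrict (Ioc 0 T)).prod (volume.restrict (Ioc 0 T))).restrict {p | p.1 ≤ p.2}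

theorem mtri : MeasurableSet {p : ℝ × ℝ | p.1 ≤ p.2} :=
  measurableSet_le measurable_fst measurable_snd

theorem tm_ae (T : ℝ) : ∀ᵐ p ∂tm T, p.1 ∈ Ioc 0 T ∧ p.2 ∈ Ioc 0 T ∧ p.1 ≤ p.2 := by
  have : ∀ᵐ p ∂((volume.restrict (Ioc 0 T)).prod (volume.restrict (Ioc 0 T)) : Measure (ℝ × ℝ)),
      p ∈ Ioc 0 T ×ˢ Ioc 0 T := by
    rw [Measure.prod_restrict]
    exact ae_restrict_mem (measurableSet_Ioc.prod measurableSet_Ioc)
  filter_upwards [ae_restrict_of_ae this, ae_restrict_mem mtri] with p a b using ⟨a.1, a.2, b⟩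

theorem sl2 {T c : ℝ} (F : ℝ × ℝ → ℝ) (hc : c ∈ Ioc 0 T) :
    ∫ a in Ioc 0 T, {p : ℝ × ℝ | p.1 ≤ p.2}.indicator F (a, c) = ∫ a in Ioc 0 c, F (a, c) := by
  have : (fun a => {p : ℝ × ℝ | p.1 ≤ p.2}.indicator F (a, c)) =
      (Iic c).indicator fun a => F (a, c) := by
    ext a; simp [indicator]
  rw [this, integral_indicator measurableSet_Iic, Measure.restrict_restrict measurableSet_Iic,
    inter_comm, Ioc_inter_Iic, min_eq_right hc.2]

theorem sl1 {T a : ℝ} (F : ℝ × ℝ → ℝ) (ha : a ∈ Ioc 0 T) :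
    ∫ c in Ioc 0 T, {p : ℝ × ℝ | p.1 ≤ p.2}.indicator F (a, c) = ∫ c in Ioc a T, F (a, c) := by
  have : (fun c => {p : ℝ × ℝ | p.1 ≤ p.2}.indicator F (a, c)) =
      (Ici a).indicator fun c => F (a, c) := by
    ext c; simp [indicator]
  have e : Ici a ∩ Ioc 0 T = Icc a T := by
    ext c
    exact ⟨fun h => ⟨h.1, h.2.2⟩, fun h => ⟨h.1, ha.1.trans_le h.1, h.2⟩⟩
  rw [this, integral_indicator measurableSet_Ici, Measure.restrict_restrict measurableSet_Ici, e,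
    integral_Icc_eq_integral_Ioc]

theorem tm_int2 {T : ℝ} {F : ℝ × ℝ → ℝ} (hF : Integrable F (tm T)) :
    IntegrableOn (fun c => ∫ a in Ioc 0 c, F (a, c)) (Ioc 0 T) ∧
      ∫ p, F p ∂tm T = ∫ c in Ioc 0 T, ∫ a in Ioc 0 c, F (a, c) := by
  have h := (integrable_indicator_iff mtri).2 hF
  refine ⟨h.integral_prod_right.congr ?_, ?_⟩
  · filter_upwards [ae_restrict_mem measurableSet_Ioc] with c hc using sl2 F hc
  · rw [tm, ← integral_indicator mtri, integral_prod_symm _ h]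
    exact setIntegral_congr_fun measurableSet_Ioc fun c hc => sl2 F hc

theorem tm_int1 {T : ℝ} {F : ℝ × ℝ → ℝ} (hF : Integrable F (tm T)) :
    IntegrableOn (fun a => ∫ c in Ioc a T, F (a, c)) (Ioc 0 T) ∧
      ∫ p, F p ∂tm T = ∫ a in Ioc 0 T, ∫ c in Ioc a T, F (a, c) := by
  have h := (integrable_indicator_iff mtri).2 hF
  refine ⟨h.integral_prod_left.congr ?_, ?_⟩
  · filter_upwards [ae_restrict_mem measurableSet_Ioc] with a ha using sl1 F ha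
  · rw [tm, ← integral_indicator mtri, integral_prod _ h]
    exact setIntegral_congr_fun measurableSet_Ioc fun a ha => sl1 F ha

theorem tm_swap {T : ℝ} {F : ℝ × ℝ → ℝ} (hF : Integrable F (tm T)) :
    ∫ a in Ioc 0 T, ∫ c in Ioc a T, F (a, c) = ∫ c in Ioc 0 T, ∫ a in Ioc 0 c, F (a, c) := by
  rw [← (tm_int1 hF).2, (tm_int2 hF).2]

theorem tm_integrable {T : ℝ} {F : ℝ × ℝ → ℝ} (hm : Measurable F)
    (h0 : ∀ c ∈ Ioc 0 T, ∀ a ∈ Ioc 0 c, 0 ≤ F (a, c))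
    (h1 : ∀ c ∈ Ioc 0 T, IntegrableOn (fun a => F (a, c)) (Ioc 0 c))
    (h2 : IntegrableOn (fun c => ∫ a in Ioc 0 c, F (a, c)) (Ioc 0 T)) : Integrable F (tm T) := by
  refine (integrable_indicator_iff mtri).1 ?_
  rw [integrable_prod_iff' (hm.indicator mtri).aestronglyMeasurable]
  constructor
  · filter_upwards [ae_restrict_mem measurableSet_Ioc] with c hc
    have : (fun a => {p : ℝ × ℝ | p.1 ≤ p.2}.indicator F (a, c)) =
        (Iic c).indicator fun a => F (a, c) := by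
      ext a; simp [indicator]
    rw [this, integrable_indicator_iff measurableSet_Iic, IntegrableOn,
      Measure.restrict_restrict measurableSet_Iic, inter_comm, Ioc_inter_Iic, min_eq_right hc.2]
    exact h1 c hc
  · refine h2.congr ?_
    filter_upwards [ae_restrict_mem measurableSet_Ioc] with c hc
    simp only [norm_indicator_eq_indicator_norm]
    rw [sl2 (fun p => ‖F p‖) hc]
    exact setIntegral_congr_fun measurableSet_Ioc fun a ha => (Real.norm_of_nonneg (h0 c hc a ha)).symm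

theorem tm_fst {T : ℝ} {X : Type} [TopologicalSpace X] {φ : ℝ → X}
    (h : AEStronglyMeasurable φ (volume.restrict (Ioc 0 T))) :
    AEStronglyMeasurable (fun p : ℝ × ℝ => φ p.1) (tm T) := h.comp_fst.restrict

theorem tm_snd {T : ℝ} {X : Type} [TopologicalSpace X] {φ : ℝ → X}
    (h : AEStronglyMeasurable φ (volume.restrict (Ioc 0 T))) :
    AEStronglyMeasurable (fun p : ℝ × ℝ => φ p.2) (tm T) := h.comp_snd.restrict

/-- a bounded multiple of an integrable kernel -/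
theorem tm_mul {T M : ℝ} {Ω φ : ℝ × ℝ → ℝ} (hΩ : Integrable Ω (tm T))
    (hφ : AEStronglyMeasurable φ (tm T))
    (hb : ∀ a ∈ Ioc 0 T, ∀ c ∈ Ioc 0 T, |φ (a, c)| ≤ M) :
    Integrable (fun p => Ω p * φ p) (tm T) := by
  refine hΩ.mul_bdd hφ (c := M) ?_
  filter_upwards [tm_ae T] with p hp using hb p.1 hp.1 p.2 hp.2.1

section
variable {V : Type} [NormedAddCommGroup V] [InnerProductSpace ℝ V]

theorem abs_inner_op {q : V →L[ℝ] V} {x y : V} {M M' : ℝ} (hx : ‖x‖ ≤ M) (hy : ‖y‖ ≤ M') :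
    |⟪x, q y⟫| ≤ M * (‖q‖ * M') := by
  have : 0 ≤ M := (norm_nonneg _).trans hx
  calc |⟪x, q y⟫| ≤ ‖x‖ * ‖q y‖ := abs_real_inner_le_norm _ _
    _ ≤ M * (‖q‖ * ‖y‖) := by gcongr; exact q.le_opNorm y
    _ ≤ _ := by gcongr

/-- the pointwise inequality on the triangle -/
theorem pt_tri {q : V →L[ℝ] V} {σ : ℝ} (hq : ∀ x y, ⟪x, q y⟫ = ⟪y, q x⟫)
    (hb : ∀ x, ‖q x‖ ≤ σ * ‖x‖) (I a c : V) :
    -(⟪I, q I⟫ / 2) - ⟪a, q I⟫ - (σ * ‖a‖ ^ 2 + ⟪a, q a⟫) / 4 - (σ * ‖c‖ ^ 2 - ⟪c, q c⟫) / 4 +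
      (σ * ⟪a, c⟫ - ⟪a, q c⟫) / 2 ≤ ⟪I + c, q (I + c)⟫ / 2 - ⟪I + a, q (I + c)⟫ := by
  have h : -(σ * ‖c - a‖ ^ 2) ≤ ⟪c - a, q (c - a)⟫ := by
    have := abs_real_inner_le_norm (c - a) (q (c - a))
    have := mul_le_mul_of_nonneg_left (hb (c - a)) (norm_nonneg (c - a))
    have := neg_abs_le ⟪c - a, q (c - a)⟫
    nlinarith
  rw [norm_sub_sq_real, map_sub, inner_sub_left, inner_sub_right, inner_sub_right, hq c a,
    real_inner_comm a c] at h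
  simp only [map_add, inner_add_left, inner_add_right]
  rw [hq c I]
  linarith

theorem tm_m1 {T M : ℝ} {Ω : ℝ × ℝ → ℝ} {m φ : ℝ → ℝ} (hΩ : Integrable Ω (tm T))
    (h1 : ∀ a ∈ Ioc 0 T, ∫ c in Ioc a T, Ω (a, c) = m a)
    (hφ : AEStronglyMeasurable φ (volume.restrict (Ioc 0 T))) (hb : ∀ a ∈ Ioc 0 T, |φ a| ≤ M) :
    Integrable (fun p => Ω p * φ p.1) (tm T) ∧ IntegrableOn (fun a => m a * φ a) (Ioc 0 T) ∧
      ∫ p, Ω p * φ p.1 ∂tm T = ∫ a in Ioc 0 T, m a * φ a := by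
  have h := tm_mul hΩ (tm_fst hφ) fun a ha _ _ => hb a ha
  have e : ∀ a ∈ Ioc 0 T, ∫ c in Ioc a T, Ω (a, c) * φ a = m a * φ a := fun a ha => by
    rw [integral_mul_const, h1 a ha]
  refine ⟨h, (tm_int1 h).1.congr ?_, ?_⟩
  · filter_upwards [ae_restrict_mem measurableSet_Ioc] with a ha using e a ha
  · rw [(tm_int1 h).2]
    exact setIntegral_congr_fun measurableSet_Ioc e

theorem tm_m2 {T M : ℝ} {Ω : ℝ × ℝ → ℝ} {m φ : ℝ → ℝ} (hΩ : Integrable Ω (tm T))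
    (h1 : ∀ c ∈ Ioc 0 T, ∫ a in Ioc 0 c, Ω (a, c) = m c)
    (hφ : AEStronglyMeasurable φ (volume.restrict (Ioc 0 T))) (hb : ∀ a ∈ Ioc 0 T, |φ a| ≤ M) :
    Integrable (fun p => Ω p * φ p.2) (tm T) ∧ IntegrableOn (fun a => m a * φ a) (Ioc 0 T) ∧
      ∫ p, Ω p * φ p.2 ∂tm T = ∫ a in Ioc 0 T, m a * φ a := by
  have h := tm_mul hΩ (tm_snd hφ) fun _ _ a ha => hb a ha
  have e : ∀ c ∈ Ioc 0 T, ∫ a in Ioc 0 c, Ω (a, c) * φ c = m c * φ c := fun a ha => by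
    rw [integral_mul_const, h1 a ha]
  refine ⟨h, (tm_int2 h).1.congr ?_, ?_⟩
  · filter_upwards [ae_restrict_mem measurableSet_Ioc] with a ha using e a ha
  · rw [(tm_int2 h).2]
    exact setIntegral_congr_fun measurableSet_Ioc e

theorem tm_pair {T M : ℝ} {Ω : ℝ × ℝ → ℝ} {u : ℝ → V} (hΩ : Integrable Ω (tm T))
    (hu : AEStronglyMeasurable u (volume.restrict (Ioc 0 T))) (hb : ∀ a ∈ Ioc 0 T, ‖u a‖ ≤ M)
    (q : V →L[ℝ] V) : Integrable (fun p : ℝ × ℝ => Ω p * ⟪u p.1, q (u p.2)⟫) (tm T) :=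
  tm_mul hΩ ((tm_fst hu).inner (q.continuous.comp_aestronglyMeasurable (tm_snd hu)))
    fun a ha c hc => abs_inner_op (hb a ha) (hb c hc)

/-- the bracket inequality for a kernel with marginals `m1`, `m2` -/
theorem brk_abs {T M σ : ℝ} {Ω : ℝ × ℝ → ℝ} {m1 m2 ω : ℝ → ℝ} {δ : ℝ → V} {q : V →L[ℝ] V}
    (hΩ : Integrable Ω (tm T)) (h0 : ∀ c ∈ Ioc 0 T, ∀ a ∈ Ioc 0 c, 0 ≤ Ω (a, c))
    (h1 : ∀ a ∈ Ioc 0 T, ∫ c in Ioc a T, Ω (a, c) = m1 a)
    (h2 : ∀ c ∈ Ioc 0 T, ∫ a in Ioc 0 c, Ω (a, c) = m2 c)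
    (hδ : AEStronglyMeasurable δ (volume.restrict (Ioc 0 T))) (hM : ∀ a ∈ Ioc 0 T, ‖δ a‖ ≤ M)
    (hq : ∀ x y, ⟪x, q y⟫ = ⟪y, q x⟫) (hb : ∀ x, ‖q x‖ ≤ σ * ‖x‖)
    (hp : 0 ≤ ∫ p, Ω p * ⟪δ p.1, (σ • (1 : V →L[ℝ] V) - q) (δ p.2)⟫ ∂tm T)
    (w1 : ∀ a ∈ Ioc 0 T, m1 a ≤ ω a) (w2 : ∀ a ∈ Ioc 0 T, m2 a ≤ ω a)
    (hω : IntegrableOn (fun a => ω a * ‖δ a‖ ^ 2) (Ioc 0 T)) (I : V) :
    -((∫ a in Ioc 0 T, m2 a) * ⟪I, q I⟫ / 2) - (∫ a in Ioc 0 T, m1 a * ⟪δ a, q I⟫) -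
        σ / 2 * ∫ a in Ioc 0 T, ω a * ‖δ a‖ ^ 2 ≤
      (∫ a in Ioc 0 T, m2 a * (⟪I + δ a, q (I + δ a)⟫ / 2)) -
        ∫ p, Ω p * ⟪I + δ p.1, q (I + δ p.2)⟫ ∂tm T := by
  have cq : AEStronglyMeasurable (fun a => q (δ a)) (volume.restrict (Ioc 0 T)) :=
    q.continuous.comp_aestronglyMeasurable hδ
  have hu : AEStronglyMeasurable (fun a => I + δ a) (volume.restrict (Ioc 0 T)) :=
    aestronglyMeasurable_const.add hδ
  have ub : ∀ a ∈ Ioc 0 T, ‖I + δ a‖ ≤ ‖I‖ + M := fun a ha =>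
    (norm_add_le _ _).trans (by linarith [hM a ha])
  have fb : ∀ x : V, |⟪x, q x⟫| ≤ σ * ‖x‖ ^ 2 := fun x => by
    have := abs_real_inner_le_norm x (q x)
    have := mul_le_mul_of_nonneg_left (hb x) (norm_nonneg x)
    nlinarith
  have nb : ∀ a ∈ Ioc 0 T, σ * ‖δ a‖ ^ 2 ≤ |σ| * M ^ 2 := fun a ha =>
    mul_le_mul (le_abs_self σ) (pow_le_pow_left₀ (norm_nonneg _) (hM a ha) 2) (by positivity)
      (abs_nonneg _)
  have ms : AEStronglyMeasurable (fun a => σ * ‖δ a‖ ^ 2) (volume.restrict (Ioc 0 T)) :=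
    (hδ.norm.pow 2).const_mul σ
  obtain ⟨a0, -, e0⟩ := tm_m2 (φ := fun _ => ⟪I, q I⟫ / 2) hΩ h2 aestronglyMeasurable_const
    fun _ _ => le_rfl
  obtain ⟨a1, -, e1⟩ := tm_m1 (φ := fun a => ⟪δ a, q I⟫) hΩ h1
    (hδ.inner aestronglyMeasurable_const) fun a ha => abs_inner_op (hM a ha) le_rfl
  obtain ⟨a2, b2, e2⟩ := tm_m1 (φ := fun a => (σ * ‖δ a‖ ^ 2 + ⟪δ a, q (δ a)⟫) / 4)
    (M := |σ| * M ^ 2) hΩ h1 ((ms.add (hδ.inner cq)).mul_const 4⁻¹) fun a ha => by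
      have := abs_le.1 (fb (δ a))
      have := nb a ha
      rw [abs_le]; constructor <;> linarith
  obtain ⟨a3, b3, e3⟩ := tm_m2 (φ := fun a => (σ * ‖δ a‖ ^ 2 - ⟪δ a, q (δ a)⟫) / 4)
    (M := |σ| * M ^ 2) hΩ h2 ((ms.sub (hδ.inner cq)).mul_const 4⁻¹) fun a ha => by
      have := abs_le.1 (fb (δ a))
      have := nb a ha
      rw [abs_le]; constructor <;> linarith
  have a4 := tm_pair hΩ hδ hM (σ • (1 : V →L[ℝ] V) - q)
  obtain ⟨a5, -, e5⟩ := tm_m2 (φ := fun a => ⟪I + δ a, q (I + δ a)⟫ / 2)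
    (M := (‖I‖ + M) * (‖q‖ * (‖I‖ + M))) hΩ h2
    ((hu.inner (q.continuous.comp_aestronglyMeasurable hu)).mul_const 2⁻¹) fun a ha => by
      have := abs_inner_op (q := q) (ub a ha) (ub a ha)
      rw [abs_div, abs_two]
      linarith [abs_nonneg ⟪I + δ a, q (I + δ a)⟫]
  have a6 := tm_pair hΩ hu ub q
  have main := integral_mono_ae ((((a0.neg.sub a1).sub a2).sub a3).add (a4.div_const 2))
    (a5.sub a6) (by
      filter_upwards [tm_ae T] with p hp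
      have := mul_le_mul_of_nonneg_left (pt_tri hq hb I (δ p.1) (δ p.2))
        (h0 p.2 hp.2.1 p.1 ⟨hp.1.1, hp.2.2⟩)
      simp only [Pi.add_apply, Pi.sub_apply, Pi.neg_apply, sub_apply,
        smul_apply, one_apply_eq_self, inner_sub_right,
        real_inner_smul_right]
      linarith)
  rw [integral_add' (((a0.neg.sub a1).sub a2).sub a3) (a4.div_const 2),
    integral_sub' ((a0.neg.sub a1).sub a2) a3, integral_sub' (a0.neg.sub a1) a2,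
    integral_sub' a0.neg a1, integral_neg', integral_sub' a5 a6, e0, e1, e2, e3, e5,
    integral_div, integral_mul_const] at main
  have last := setIntegral_mono_on (b2.add b3) (hω.const_mul (σ / 2)) measurableSet_Ioc
    fun a ha => by
      have := abs_le.1 (fb (δ a))
      have k1 := mul_le_mul_of_nonneg_right (w1 a ha)
        (show 0 ≤ (σ * ‖δ a‖ ^ 2 + ⟪δ a, q (δ a)⟫) / 4 by linarith)
      have k2 := mul_le_mul_of_nonneg_right (w2 a ha)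
        (show 0 ≤ (σ * ‖δ a‖ ^ 2 - ⟪δ a, q (δ a)⟫) / 4 by linarith)
      simp only [Pi.add_apply]
      linarith
  rw [integral_add' b2 b3, integral_const_mul] at last
  linarith

end

end Pool.Agent.MP_29b5d3_an.GK
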